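import Pool.Agent.Q120.GM.Rec3

/-!
# The number of the maximal gaps in the sieved models
-/

set_option autoImplicit false

namespace Pool.Agent.Q120.GM

open Finset MeasureTheory ProbabilityTheory Filter Pool.Agent.Q120.AD
open scoped Topology

variable {Ω : Type*} [MeasurableSpace Ω] {μ : Measure Ω} [IsProbabilityMeasure μ] {A : Ω → Set ℕ} {Q : ℕ}

/-- The number of the maximal gaps with end at most `x`. -/
noncomputable def RR (S : Set ℕ) (x : ℕ) : ℝ := ∑ m ∈ range (x + 1), rr S m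

theorem RR_mono (S : Set ℕ) : Monotone (RR S) := by
  refine monotone_nat_of_le_succ (fun n => ?_)
  unfold RR
  rw [sum_range_succ _ (n + 1)]
  have := rr_nonneg S (n + 1)
  linarith

theorem RR_nonneg (S : Set ℕ) (n : ℕ) : 0 ≤ RR S n := sum_nonneg (fun m _ => rr_nonneg S m)

theorem sing_zero (hQ : 1 ≤ Q) : sing Q {0} = 1 := by
  have hφ : (0 : ℝ) < Nat.totient Q := by exact_mod_cast Nat.totient_pos.2 hQ
  have hQ0 : (0 : ℝ) < Q := by exact_mod_cast hQ
  have h1 : cc Q {0} = Nat.totient Q := by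
    unfold cc
    rw [Nat.totient_eq_card_coprime]
    congr 1
    refine filter_congr (fun m _ => ?_)
    unfold Good
    constructor
    · intro h
      have := h 0 (mem_singleton_self 0)
      rw [add_zero] at this
      exact Nat.coprime_comm.1 this
    · intro h x hx
      rw [mem_singleton] at hx
      rw [hx, add_zero]
      exact Nat.coprime_comm.1 h
  unfold sing
  rw [h1, card_singleton, pow_one]
  field_simp

/-- The deterministic conclusion. -/
theorem records_of {S : Set ℕ} {p : ℕ → ℝ} (hQ : 1 ≤ Q)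
    (hW : Tendsto (fun n : ℕ => (W S n : ℝ) / Real.log n ^ 2) atTop (𝓝 1))
    (hp : ∀ᶠ n : ℕ in atTop, p n = ff n * (dd Q n + 1)) {M : ℕ → ℝ}
    (hM : ∀ᶠ m₁ : ℕ in atTop, ∀ x, m₁ ≤ x → M x - M m₁ = ∑ m ∈ Ico m₁ x, (rr S m - zz S m * p m))
    (hsmall : ∀ ε : ℝ, 0 < ε → ∀ᶠ k : ℕ in atTop, |M (2 ^ (k ^ 4))| < ε * (k : ℝ) ^ 4) :
    Tendsto (fun x : ℕ => RR S x / Real.log x) atTop (𝓝 2) := by
  have hlog2 : 0 < Real.log 2 := Real.log_pos (by norm_num)
  obtain ⟨K, hKd⟩ : ∃ K, K = (Q : ℝ) * ((Q : ℝ) / Nat.totient Q + 1) := ⟨_, rfl⟩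
  have hK : ∀ n, |DD Q n| ≤ K := by rw [hKd]; exact DD_bound hQ
  have hK0 : 0 ≤ K := (abs_nonneg _).trans (hK 0)
  have hlogx : ∀ k : ℕ, Real.log ((2 ^ (k ^ 4) : ℕ) : ℝ) = (k : ℝ) ^ 4 * Real.log 2 := by
    intro k
    push_cast
    rw [Real.log_pow]
    push_cast
    ring
  have hxt : Tendsto (fun k : ℕ => 2 ^ (k ^ 4)) atTop (atTop : Filter ℕ) :=
    (tendsto_pow_atTop_atTop_of_one_lt (by norm_num)).comp (tendsto_pow_atTop (by norm_num))
  apply interp (RR_mono S) (RR_nonneg S)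
  -- for every ε a bound
  have key : ∀ ε : ℝ, 0 < ε → ε < 1 / 2 → ∀ᶠ k : ℕ in atTop,
      |RR S (2 ^ (k ^ 4)) / Real.log ((2 ^ (k ^ 4) : ℕ) : ℝ) - 2| ≤ 20 * ε := by
    intro ε hε hε2
    have hfft : Tendsto ff atTop (𝓝 0) := hl.const_div_atTop 1
    have hKf : ∀ᶠ m₁ : ℕ in atTop, 2 * K * ff m₁ ≤ ε := by
      have h1 := hfft.const_mul (2 * K)
      rw [mul_zero] at h1
      exact h1.eventually_le_const hε
    obtain ⟨m₁, hm₁⟩ := ((hKf.and hM).and ((eventually_forall_ge_atTop.2 hp).and (eventually_ge_atTop 2))).exists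
    obtain ⟨⟨e1, e2⟩, e3, e4⟩ := hm₁
    have hS1 := (S1_asymp hW m₁ e4).comp hxt
    obtain ⟨C, hC⟩ : ∃ C, C = |M m₁| + 4 * K * ff m₁ + (m₁ : ℝ) + 1 := ⟨_, rfl⟩
    have hC0 : 0 ≤ C := by rw [hC]; have := ff_nonneg m₁; positivity
    have hsm := hsmall (ε * Real.log 2) (by positivity)
    have hbig : ∀ᶠ k : ℕ in atTop, C ≤ ε * ((k : ℝ) ^ 4 * Real.log 2) := by
      have h1 : Tendsto (fun k : ℕ => Real.log ((2 ^ (k ^ 4) : ℕ) : ℝ)) atTop atTop := hl.comp hxt
      filter_upwards [h1.eventually_ge_atTop (C / ε)] with k hk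
      rw [hlogx, div_le_iff₀ hε] at hk
      linarith
    have hS1a := hS1.eventually_le_const (show 2 < 2 + ε by linarith)
    have hS1b := hS1.eventually_const_le (show 2 - ε < 2 by linarith)
    filter_upwards [hsm, hbig, hS1a, hS1b, hxt.eventually_ge_atTop m₁, eventually_ge_atTop 1] with k f1 f2 f3 f4 f5 f6
    simp only [Function.comp_apply] at f3 f4
    rw [hlogx] at f3 f4 ⊢
    have hk0 : (0 : ℝ) < k := by exact_mod_cast f6
    obtain ⟨Λ, hΛ⟩ : ∃ Λ, Λ = (k : ℝ) ^ 4 * Real.log 2 := ⟨_, rfl⟩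
    obtain ⟨x, hx⟩ : ∃ x, x = 2 ^ (k ^ 4) := ⟨_, rfl⟩
    rw [← hΛ] at f2 f3 f4 ⊢
    rw [← hx] at f1 f3 f4 f5 ⊢
    have hΛ0 : 0 < Λ := by rw [hΛ]; positivity
    rw [div_le_iff₀ hΛ0] at f3
    rw [le_div_iff₀ hΛ0] at f4
    have f1' : |M x| < ε * Λ := by rw [hΛ]; linarith
    obtain ⟨ρ, hρ⟩ : ∃ ρ, ρ = ∑ m ∈ Ico m₁ x, rr S m := ⟨_, rfl⟩
    have hρ0 : 0 ≤ ρ := by rw [hρ]; exact sum_nonneg (fun m _ => rr_nonneg S m)
    have g1 : ρ - S1 S m₁ x = (∑ m ∈ Ico m₁ x, zz S m * ff m * dd Q m) + (M x - M m₁) := by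
      rw [e2 x f5, hρ]
      unfold S1
      rw [← sum_sub_distrib, ← sum_add_distrib]
      refine sum_congr rfl (fun m hm => ?_)
      rw [mem_Ico] at hm
      rw [e3 m hm.1]
      ring
    have g2 := sieve_sum (S := S) hK e4 x f5
    have g3 : ∑ m ∈ Ico m₁ x, rr S m * ff m ≤ ρ * ff m₁ := by
      rw [hρ, sum_mul]
      refine sum_le_sum (fun m hm => ?_)
      rw [mem_Ico] at hm
      exact mul_le_mul_of_nonneg_left (ff_anti e4 hm.1) (rr_nonneg S m)
    have g4 : K * (4 * ff m₁ + 2 * ∑ m ∈ Ico m₁ x, rr S m * ff m) ≤ 4 * K * ff m₁ + ε * ρ := by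
      have h1 := mul_le_mul_of_nonneg_left g3 hK0
      have h2 := mul_le_mul_of_nonneg_right e1 hρ0
      nlinarith
    have g5 : |ρ - S1 S m₁ x| ≤ 4 * K * ff m₁ + ε * ρ + (|M x| + |M m₁|) := by
      rw [g1]
      refine (abs_add_le _ _).trans (add_le_add (g2.trans g4) (abs_sub _ _))
    -- the relation of ρ and RR
    have g6 : RR S x = (∑ m ∈ range m₁, rr S m) + ρ + rr S x := by
      rw [hρ]
      unfold RR
      rw [sum_range_succ, ← sum_range_add_sum_Ico _ f5]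
    have g7 : 0 ≤ ∑ m ∈ range m₁, rr S m := sum_nonneg (fun m _ => rr_nonneg S m)
    have hrr1 : ∀ m, rr S m ≤ 1 := by
      intro m
      classical
      unfold rr
      split_ifs <;> norm_num
    have g8 : ∑ m ∈ range m₁, rr S m ≤ m₁ := by
      have := sum_le_sum (fun m (_ : m ∈ range m₁) => hrr1 m)
      rw [sum_const, card_range, nsmul_eq_mul, mul_one] at this
      exact this
    have g9 := hrr1 x
    have g10 := rr_nonneg S x
    rw [abs_le] at g5
    have g11 : ρ ≤ 2 * (2 + 4 * ε) * Λ := by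
      have h1 : (1 - ε) * ρ ≤ (2 + 4 * ε) * Λ := by nlinarith [g5.2]
      nlinarith
    have g11' : ρ ≤ 8 * Λ := by nlinarith
    have hMx := neg_abs_le (M x)
    have h20 : 0 ≤ ε * Λ := by positivity
    have hερ : ε * ρ ≤ ε * (8 * Λ) := mul_le_mul_of_nonneg_left g11' hε.le
    have hm0 : (0 : ℝ) ≤ m₁ := Nat.cast_nonneg _
    have hff0 : 0 ≤ 4 * K * ff m₁ := by have := ff_nonneg m₁; positivity
    have hMm := abs_nonneg (M m₁)
    rw [abs_le]
    constructor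
    · have h1 : (2 - 20 * ε) * Λ ≤ RR S x := by
        rw [g6]
        nlinarith [g5.1]
      have h2 : 2 - 20 * ε ≤ RR S x / Λ := by rw [le_div_iff₀ hΛ0]; exact h1
      linarith
    · have h1 : RR S x ≤ (2 + 20 * ε) * Λ := by
        rw [g6]
        nlinarith [g5.2]
      have h2 : RR S x / Λ ≤ 2 + 20 * ε := by rw [div_le_iff₀ hΛ0]; exact h1
      linarith
  rw [Metric.tendsto_atTop]
  intro ε hε
  have hm0 : 0 < min (ε / 40) (1 / 4) := lt_min (by linarith) (by norm_num)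
  have hm1 : min (ε / 40) (1 / 4) ≤ ε / 40 := min_le_left _ _
  have hm2 : min (ε / 40) (1 / 4) ≤ 1 / 4 := min_le_right _ _
  obtain ⟨N, hN⟩ := eventually_atTop.1 (key (min (ε / 40) (1 / 4)) hm0 (by linarith))
  refine ⟨N, fun k hk => ?_⟩
  rw [Real.dist_eq]
  have := hN k hk
  linarith

theorem level_ff : ∀ᶠ n : ℕ in atTop, level Q n = ff n * (dd Q n + 1) := by
  have hq : 0 ≤ (Q : ℝ) / Nat.totient Q := by positivity
  filter_upwards [hl.eventually_ge_atTop ((Q : ℝ) / Nat.totient Q + 1)] with n hn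
  have hn0 : 0 < Real.log (n : ℝ) := by linarith
  unfold level ff dd
  split_ifs with h
  · rw [min_eq_right]
    · ring
    · rw [div_le_one hn0]
      linarith
  · ring

/-- **The number of the maximal gaps.** -/
theorem records (hA : IsModel μ (level Q) A) (hQ : 1 ≤ Q) :
    ∀ᵐ ω ∂μ, Tendsto (fun n : ℕ => (W (A ω) n : ℝ) / Real.log n ^ 2) atTop (𝓝 1) ∧
      Tendsto (fun x : ℕ => RR (A ω) x / Real.log x) atTop (𝓝 2) := by
  classical
  have hsing := sing_zero (Q := Q) hQ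
  have hS : 0 < sing Q {0} := by rw [hsing]; norm_num
  have h1 : ∀ᵐ ω ∂μ, ∀ j : ℕ, (∀ᶠ x : ℕ in atTop, ∃ n : ℕ, x < n ∧
      (n : ℝ) ≤ x + (1 + 1 / ((j : ℝ) + 2)) * Real.log x ^ 2 ∧ n ∈ A ω) ∧
      (∀ᶠ x : ℕ in atTop, ∃ y : ℕ, x ≤ y ∧ y ≤ 2 * x ∧ ∀ n : ℕ, y < n →
        (n : ℝ) ≤ y + (1 - 1 / ((j : ℝ) + 2)) * Real.log y ^ 2 → n ∉ A ω) := by
    rw [ae_all_iff]
    intro j
    have h2 : 1 / ((j : ℝ) + 2) < 1 := by
      rw [div_lt_one (by positivity)]
      linarith [Nat.cast_nonneg (α := ℝ) j]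
    filter_upwards [gap_upper hA hQ hS (show 0 < 1 / ((j : ℝ) + 2) by positivity) h2.le,
      gap_lower hA hQ (singleton_nonempty 0) hS (show 0 < 1 / ((j : ℝ) + 2) by positivity) h2] with ω h3 h4
    rw [hsing] at h3 h4
    simp only [card_singleton, div_one] at h3 h4
    constructor
    · filter_upwards [h3] with x hx
      obtain ⟨n, n1, n2, n3⟩ := hx
      refine ⟨n, n1, n2, ?_⟩
      have := n3 0 (mem_singleton_self 0)
      rw [add_zero] at this
      exact this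
    · filter_upwards [h4] with x hx
      obtain ⟨y, y1, y2, y3⟩ := hx
      refine ⟨y, y1, y2, fun n hn1 hn2 hn3 => y3 n hn1 hn2 (fun h hh => ?_)⟩
      rw [mem_singleton] at hh
      rw [hh, add_zero]
      exact hn3
  have h2 : ∀ᵐ ω ∂μ, ∀ j : ℕ, ∀ᶠ k : ℕ in atTop,
      |∑ n ∈ range (2 ^ (k ^ 4)), xi A (level Q) (EE A) n ω| < 1 / ((j : ℝ) + 2) * (k : ℝ) ^ 4 :=
    ae_all_iff.2 (fun j => mart_small hA hQ (by positivity))
  have small : ∀ δ : ℝ, 0 < δ → ∃ j : ℕ, 1 / ((j : ℝ) + 2) ≤ δ := by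
    intro δ hδ
    obtain ⟨j, hj⟩ := exists_nat_one_div_lt hδ
    refine ⟨j, le_trans (one_div_le_one_div_of_le (by positivity) (by linarith)) hj.le⟩
  filter_upwards [h1, h2] with ω g1 g2
  have hW : Tendsto (fun n : ℕ => (W (A ω) n : ℝ) / Real.log n ^ 2) atTop (𝓝 1) := by
    refine W_asymp (fun ε hε => ?_) (fun ε hε => ?_)
    · obtain ⟨j, hj⟩ := small ε hε
      filter_upwards [(g1 j).1] with x hx
      obtain ⟨n, n1, n2, n3⟩ := hx
      refine ⟨n, n1, n2.trans ?_, n3⟩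
      have : (1 + 1 / ((j : ℝ) + 2)) * Real.log x ^ 2 ≤ (1 + ε) * Real.log x ^ 2 :=
        mul_le_mul_of_nonneg_right (by linarith) (by positivity)
      linarith
    · obtain ⟨j, hj⟩ := small ε hε
      filter_upwards [(g1 j).2] with x hx
      obtain ⟨y, y1, y2, y3⟩ := hx
      refine ⟨y, y1, y2, fun n hn1 hn2 => y3 n hn1 (hn2.trans ?_)⟩
      have : (1 - ε) * Real.log y ^ 2 ≤ (1 - 1 / ((j : ℝ) + 2)) * Real.log y ^ 2 :=
        mul_le_mul_of_nonneg_right (by linarith) (by positivity)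
      linarith
  refine ⟨hW, ?_⟩
  -- eventually the truncation has no effect
  have htr : ∀ᶠ n : ℕ in atTop, (W (A ω) n : ℝ) ≤ 2 * Real.log n ^ 2 := by
    have h3 := hW.eventually_le_const (show (1 : ℝ) < 2 by norm_num)
    filter_upwards [h3, hl.eventually_ge_atTop 1] with n h4 h5
    rw [div_le_iff₀ (by positivity)] at h4
    exact h4
  refine records_of (p := level Q) (M := fun x => ∑ n ∈ range x, xi A (level Q) (EE A) n ω) hQ hW level_ff ?_ ?_
  · filter_upwards [eventually_forall_ge_atTop.2 htr] with m₁ hm₁ x hx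
    rw [← sum_range_add_sum_Ico _ hx, add_sub_cancel_left]
    refine sum_congr rfl (fun m hm => ?_)
    rw [mem_Ico] at hm
    have h3 := hm₁ m hm.1
    unfold xi ind rr zz
    by_cases h4 : Mode (A ω) m
    · have h5 : ω ∈ EE A m := ⟨h4, h3⟩
      rw [Set.indicator_of_mem h5]
      by_cases h6 : m ∈ A ω
      · rw [Set.indicator_of_mem (show ω ∈ {ω | m ∈ A ω} from h6), if_pos ⟨h4, h6⟩, if_pos h4]
        ring
      · rw [Set.indicator_of_notMem (show ω ∉ {ω | m ∈ A ω} from h6), if_neg (fun h => h6 h.2), if_pos h4]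
        ring
    · have h5 : ω ∉ EE A m := fun h => h4 h.1
      rw [Set.indicator_of_notMem h5, if_neg (fun h => h4 h.1), if_neg h4]
      ring
  · intro ε hε
    obtain ⟨j, hj⟩ := small ε hε
    filter_upwards [g2 j] with k hk
    refine lt_of_lt_of_le hk ?_
    exact mul_le_mul_of_nonneg_right hj (by positivity)

end Pool.Agent.Q120.GM
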