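import Pool.Agent.Q120.GM.Indep

/-!
# Exact formulas and a second moment inequality
-/

set_option autoImplicit false

namespace Pool.Agent.Q120.GM

open Finset MeasureTheory ProbabilityTheory Filter

variable {Ω : Type*} [MeasurableSpace Ω] {μ : Measure Ω} [IsProbabilityMeasure μ] {ι : Type*} {p : ι → ℝ}
  {A : Ω → Set ι} {κ : Type*} [DecidableEq ι] [DecidableEq κ]

theorem real_none_disjoint (hA : IsModel μ p A) (J : Finset κ) (U : κ → Finset ι)
    (hd : ∀ i ∈ J, ∀ j ∈ J, i ≠ j → Disjoint (U i) (U j)) :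
    μ.real (none A J U) = ∏ j ∈ J, (1 - ∏ i ∈ U j, p i) := by
  induction J using Finset.induction_on with
  | empty =>
    have : none A (∅ : Finset κ) U = Set.univ := by
      ext ω
      simp [none]
    rw [this]
    simp
  | insert a J ha ih =>
    rw [prod_insert ha, real_insert hA, inter_none_disjoint hA, real_all hA,
      ih (fun i hi j hj => hd i (mem_insert_of_mem hi) j (mem_insert_of_mem hj))]
    · ring
    · intro j hj
      refine hd j (mem_insert_of_mem hj) a (mem_insert_self _ _) ?_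
      rintro rfl
      exact ha hj

/-- The event that `A` does not meet `W`. -/
def free (A : Ω → Set ι) (W : Finset ι) : Set Ω := {ω | ∀ n ∈ W, n ∉ A ω}

omit [MeasurableSpace Ω] [DecidableEq ι] in
theorem free_eq (W : Finset ι) : free A W = none A W (fun n => {n}) := by
  ext ω
  constructor
  · intro h n hn h2
    exact h n hn (h2 n (mem_singleton_self n))
  · intro h n hn h2
    refine h n hn (fun i hi => ?_)
    rw [mem_singleton] at hi
    rw [hi]
    exact h2

omit [MeasurableSpace Ω] [DecidableEq ι] in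
theorem F_free {S : Set ι} {W : Finset ι} (hW : ∀ n ∈ W, n ∈ S) : MeasurableSet[F A S] (free A W) := by
  rw [free_eq]
  refine F_none (fun j hj i hi => ?_)
  rw [mem_singleton] at hi
  rw [hi]
  exact hW j hj

omit [DecidableEq ι] in
theorem meas_free (hA : IsModel μ p A) (W : Finset ι) : MeasurableSet (free A W) :=
  F_le hA Set.univ _ (F_free (fun _ _ => Set.mem_univ _))

theorem real_free (hA : IsModel μ p A) (W : Finset ι) : μ.real (free A W) = ∏ n ∈ W, (1 - p n) := by
  rw [free_eq, real_none_disjoint hA]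
  · exact prod_congr rfl (fun n _ => by rw [prod_singleton])
  · intro i _ j _ hij
    rw [disjoint_singleton]
    exact hij

theorem free_inter (W V : Finset ι) : free A W ∩ free A V = free A (W ∪ V) := by
  ext ω
  constructor
  · rintro ⟨h1, h2⟩ n hn
    rw [mem_union] at hn
    rcases hn with hn | hn
    · exact h1 n hn
    · exact h2 n hn
  · intro h
    exact ⟨fun n hn => h n (mem_union_left _ hn), fun n hn => h n (mem_union_right _ hn)⟩

/-- The number of the events which occur. -/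
noncomputable def num (J : Finset κ) (G : κ → Set Ω) (ω : Ω) : ℝ := ∑ j ∈ J, (G j).indicator (fun _ => (1 : ℝ)) ω

omit [DecidableEq κ] in
theorem num_int (J : Finset κ) (G : κ → Set Ω) (hG : ∀ j ∈ J, MeasurableSet (G j)) :
    Integrable (num J G) μ ∧ ∫ ω, num J G ω ∂μ = ∑ j ∈ J, μ.real (G j) := by
  have h1 : ∀ j ∈ J, Integrable ((G j).indicator (fun _ => (1 : ℝ))) μ := fun j hj => (integrable_const 1).indicator (hG j hj)
  refine ⟨integrable_finsetSum _ h1, ?_⟩
  unfold num
  rw [integral_finsetSum _ h1]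
  refine sum_congr rfl (fun j hj => ?_)
  rw [integral_indicator_const _ (hG j hj)]
  simp

omit [DecidableEq κ] in
/-- Markov's inequality for the number of events. -/
theorem many (J : Finset κ) (G : κ → Set Ω) (hG : ∀ j ∈ J, MeasurableSet (G j)) {t : ℝ} (ht : 0 < t) :
    μ.real {ω | t ≤ num J G ω} ≤ (∑ j ∈ J, μ.real (G j)) / t := by
  obtain ⟨h1, h2⟩ := num_int (μ := μ) J G hG
  have h3 := mul_meas_ge_le_integral_of_nonneg (μ := μ) (f := num J G)
    (Eventually.of_forall (fun ω => sum_nonneg (fun j _ => Set.indicator_nonneg (fun _ _ => zero_le_one) _))) h1 t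
  rw [h2] at h3
  rw [le_div_iff₀ ht, mul_comm]
  exact h3

/-- The second moment inequality. -/
theorem few (J : Finset κ) (G : κ → Set Ω) (hG : ∀ j ∈ J, MeasurableSet (G j)) {η : ℝ} (hη : 0 ≤ η)
    (hc : ∀ i ∈ J, ∀ j ∈ J, i ≠ j → μ.real (G i ∩ G j) ≤ (1 + η) * (μ.real (G i) * μ.real (G j)))
    (hS : 0 < ∑ j ∈ J, μ.real (G j)) :
    μ.real {ω | num J G ω ≤ (∑ j ∈ J, μ.real (G j)) / 2} ≤ 4 * (1 / (∑ j ∈ J, μ.real (G j)) + η) := by
  obtain ⟨S, hSd⟩ : ∃ S, S = ∑ j ∈ J, μ.real (G j) := ⟨_, rfl⟩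
  rw [← hSd] at hS ⊢
  obtain ⟨h1, h2⟩ := num_int (μ := μ) J G hG
  rw [← hSd] at h2
  have hind : ∀ (E E' : Set Ω) (ω : Ω), E.indicator (fun _ => (1 : ℝ)) ω * E'.indicator (fun _ => (1 : ℝ)) ω =
      (E ∩ E').indicator (fun _ => (1 : ℝ)) ω := by
    intro E E' ω
    by_cases h1 : ω ∈ E <;> by_cases h2 : ω ∈ E' <;> simp [h1, h2]
  have hsq : ∀ ω, (num J G ω - S) ^ 2 = (∑ i ∈ J, ∑ j ∈ J, (G i ∩ G j).indicator (fun _ => (1 : ℝ)) ω) -
      2 * S * num J G ω + S ^ 2 := by
    intro ω
    have h3 : num J G ω ^ 2 = ∑ i ∈ J, ∑ j ∈ J, (G i ∩ G j).indicator (fun _ => (1 : ℝ)) ω := by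
      rw [sq]
      unfold num
      rw [sum_mul_sum]
      exact sum_congr rfl (fun i _ => sum_congr rfl (fun j _ => hind _ _ _))
    rw [← h3]
    ring
  have hi1 : ∀ i ∈ J, ∀ j ∈ J, Integrable ((G i ∩ G j).indicator (fun _ => (1 : ℝ))) μ := fun i hi j hj =>
    (integrable_const 1).indicator ((hG i hi).inter (hG j hj))
  have hi2 : ∀ i ∈ J, Integrable (fun ω => ∑ j ∈ J, (G i ∩ G j).indicator (fun _ => (1 : ℝ)) ω) μ := fun i hi =>
    integrable_finsetSum _ (fun j hj => hi1 i hi j hj)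
  have hi3 : Integrable (fun ω => ∑ i ∈ J, ∑ j ∈ J, (G i ∩ G j).indicator (fun _ => (1 : ℝ)) ω) μ :=
    integrable_finsetSum _ hi2
  have hi4 : Integrable (fun ω => 2 * S * num J G ω) μ := h1.const_mul _
  have hi5 : Integrable (fun ω => (∑ i ∈ J, ∑ j ∈ J, (G i ∩ G j).indicator (fun _ => (1 : ℝ)) ω) -
      2 * S * num J G ω) μ := hi3.sub hi4
  have hi6 : Integrable (fun ω => (num J G ω - S) ^ 2) μ :=
    (hi5.add (integrable_const (S ^ 2))).congr (Eventually.of_forall (fun ω => by
      simp only [Pi.add_apply]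
      rw [hsq ω]))
  have hint : ∫ ω, (num J G ω - S) ^ 2 ∂μ = (∑ i ∈ J, ∑ j ∈ J, μ.real (G i ∩ G j)) - 2 * S * S + S ^ 2 := by
    calc ∫ ω, (num J G ω - S) ^ 2 ∂μ = ∫ ω, ((∑ i ∈ J, ∑ j ∈ J, (G i ∩ G j).indicator (fun _ => (1 : ℝ)) ω) -
          2 * S * num J G ω + S ^ 2) ∂μ := integral_congr_ae (Eventually.of_forall hsq)
      _ = _ := by
        rw [integral_add hi5 (integrable_const _), integral_sub hi3 hi4, integral_const_mul, h2, integral_const]
        rw [integral_finsetSum _ hi2]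
        congr 1
        · congr 1
          refine sum_congr rfl (fun i hi => ?_)
          rw [integral_finsetSum _ (fun j hj => hi1 i hi j hj)]
          refine sum_congr rfl (fun j hj => ?_)
          rw [integral_indicator_const _ ((hG i hi).inter (hG j hj))]
          simp
        · simp
  have hdb : ∑ i ∈ J, ∑ j ∈ J, μ.real (G i ∩ G j) ≤ S + (1 + η) * (S * S) := by
    have h4 : ∀ i ∈ J, ∑ j ∈ J, μ.real (G i ∩ G j) ≤ μ.real (G i) + (1 + η) * (μ.real (G i) * S) := by
      intro i hi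
      have h5 : ∀ j ∈ J, μ.real (G i ∩ G j) ≤ (if j = i then μ.real (G i) else 0) +
          (1 + η) * (μ.real (G i) * μ.real (G j)) := by
        intro j hj
        by_cases hji : j = i
        · subst hji
          rw [if_pos rfl, Set.inter_self]
          have : 0 ≤ (1 + η) * (μ.real (G j) * μ.real (G j)) := by
            have := measureReal_nonneg (μ := μ) (s := G j)
            positivity
          linarith
        · rw [if_neg hji, zero_add]
          exact hc i hi j hj (Ne.symm hji)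
      refine (sum_le_sum h5).trans ?_
      rw [sum_add_distrib, sum_ite_eq', if_pos hi, ← mul_sum, ← mul_sum, ← hSd]
    refine (sum_le_sum h4).trans ?_
    rw [sum_add_distrib, ← mul_sum, ← sum_mul, ← hSd]
  have hvar : ∫ ω, (num J G ω - S) ^ 2 ∂μ ≤ S + η * S ^ 2 := by
    rw [hint]
    nlinarith
  have h3 := mul_meas_ge_le_integral_of_nonneg (μ := μ) (f := fun ω => (num J G ω - S) ^ 2)
    (Eventually.of_forall (fun ω => sq_nonneg _)) hi6 ((S / 2) ^ 2)
  have h4 : {ω | num J G ω ≤ S / 2} ⊆ {ω | (S / 2) ^ 2 ≤ (num J G ω - S) ^ 2} := by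
    intro ω hω
    have hω' : num J G ω ≤ S / 2 := hω
    show (S / 2) ^ 2 ≤ (num J G ω - S) ^ 2
    nlinarith
  have h5 : μ.real {ω | num J G ω ≤ S / 2} ≤ μ.real {ω | (S / 2) ^ 2 ≤ (num J G ω - S) ^ 2} :=
    measureReal_mono h4 (measure_ne_top _ _)
  have h6 : (S / 2) ^ 2 * μ.real {ω | num J G ω ≤ S / 2} ≤ S + η * S ^ 2 :=
    (mul_le_mul_of_nonneg_left h5 (by positivity)).trans (h3.trans hvar)
  have h7 : μ.real {ω | num J G ω ≤ S / 2} ≤ (S + η * S ^ 2) / (S / 2) ^ 2 := by
    rw [le_div_iff₀ (by positivity)]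
    linarith
  refine h7.trans (le_of_eq ?_)
  field_simp
  ring

end Pool.Agent.Q120.GM
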