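import Pool.Agent.Q120.GM.Chain

/-!
# Chains in the sieved models: lower bounds and the spectrum
-/

set_option autoImplicit false

namespace Pool.Agent.Q120.GM

open Finset MeasureTheory ProbabilityTheory Filter Pool.Agent.Q120.AD
open scoped Topology

/-- The elements of a class in `(X, 3X/2]`. -/
def blk (Q r X : ℕ) : Finset ℕ := (Ico (X + 1) (X + 1 + X / 2)).filter (fun n => n % Q = r % Q)

theorem mem_blk {Q r X n : ℕ} (h : n ∈ blk Q r X) : X < n ∧ 2 * n ≤ 3 * X ∧ n % Q = r % Q := by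
  unfold blk at h
  rw [mem_filter, mem_Ico] at h
  omega

theorem card_blk {Q : ℕ} (hQ : 1 ≤ Q) (r : ℕ) : ∀ᶠ X : ℕ in atTop, (X : ℝ) / (4 * Q) ≤ (blk Q r X).card := by
  have hQ0 : (0 : ℝ) < Q := by exact_mod_cast hQ
  filter_upwards [eventually_ge_atTop (8 * (Q + 2))] with X hX
  have h2 := (count_per hQ (fun a => a % Q = r % Q) (by
    intro a
    show ((a + Q) % Q = r % Q) = (a % Q = r % Q)
    rw [Nat.add_mod_right]) (X + 1) (X / 2)).1
  have h3 : ((range Q).filter (fun a => a % Q = r % Q)).card = 1 := by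
    rw [card_eq_one]
    refine ⟨r % Q, ?_⟩
    ext a
    rw [mem_filter, mem_range, mem_singleton]
    constructor
    · rintro ⟨h4, h5⟩
      rw [Nat.mod_eq_of_lt h4] at h5
      exact h5
    · rintro rfl
      exact ⟨Nat.mod_lt _ (by omega), Nat.mod_mod _ _⟩
  rw [h3] at h2
  refine le_trans ?_ h2
  have h5 : 2 * (X / 2) + 2 ≥ X := by omega
  have h6 : (X : ℝ) ≤ 2 * ((X / 2 : ℕ) : ℝ) + 2 := by exact_mod_cast h5
  have h7 : (8 : ℝ) * (Q + 2) ≤ X := by exact_mod_cast hX
  rw [Nat.cast_one, div_le_iff₀ (by positivity)]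
  have h8 : (((X / 2 : ℕ) : ℝ) - Q) * (1 / Q) * (4 * Q) = (((X / 2 : ℕ) : ℝ) - Q) * 4 := by
    field_simp
  rw [h8]
  linarith

variable {Ω : Type*} [MeasurableSpace Ω] {μ : Measure Ω} [IsProbabilityMeasure μ] {A : Ω → Set ℕ} {Q : ℕ}
  {f : ℕ → ℕ} {C n₀ : ℕ}

/-- Independence of the chains in a block. -/
theorem chain_pair (hA : IsModel μ (level Q) A) (hf : Step f C n₀) {X m n k l : ℕ} (hX : n₀ ≤ X) (hm : X < m)
    (hm2 : 2 * m ≤ 3 * X) (hn : X < n) (hn2 : 2 * n ≤ 3 * X) (hmn : m ≠ n) {η : ℝ} (hη : 0 ≤ η) :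
    μ.real (all A (orb f m k) ∩ all A (orb f n l)) ≤
      (1 + η) * (μ.real (all A (orb f m k)) * μ.real (all A (orb f n l))) := by
  have h1 := hf.disj (k := k) (l := l) hX hm hm2 hn hn2 hmn
  rw [indep_real hA (S := (orb f m k : Set ℕ)) (T := (orb f n l : Set ℕ)) (by exact_mod_cast h1)
    (F_all (fun i hi => hi)) (F_all (fun i hi => hi))]
  have h2 : 0 ≤ μ.real (all A (orb f m k)) * μ.real (all A (orb f n l)) := mul_nonneg measureReal_nonneg measureReal_nonneg
  nlinarith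

/-- **The lower bound for the lengths of the chains, second order.** -/
theorem chain_lower (hA : IsModel μ (level Q) A) (hQ : 1 ≤ Q) (hf : Step f C n₀) {r : ℕ}
    (hg : ∀ᶠ n : ℕ in atTop, n % Q = r % Q → ∀ i, (f^[i] n).Coprime Q) {ε : ℝ} (hε : 0 < ε) :
    ∀ᵐ ω ∂μ, ∀ᶠ x : ℕ in atTop, ∃ n k : ℕ, n₀ ≤ n ∧ n ≤ x ∧ GG (-Real.log (qq Q) + ε) (Real.log x) ≤ k ∧
      ∀ i < k, f^[i] n ∈ A ω := by
  have hq := qq_pos hQ
  have hQ0 : (0 : ℝ) < Q := by exact_mod_cast hQ
  have hC1 : 0 ≤ Real.log C := Real.log_nonneg (by exact_mod_cast hf.cone)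
  obtain ⟨c, hc⟩ : ∃ c, c = -Real.log (qq Q) + ε := ⟨_, rfl⟩
  rw [← hc]
  obtain ⟨K, hK⟩ : ∃ K : ℕ → ℕ, K = fun (j : ℕ) => ⌈GG c (Real.log ((2 : ℝ) ^ (j + 2)))⌉₊ := ⟨_, rfl⟩
  have tsh : Tendsto (fun j : ℕ => Real.log ((2 : ℝ) ^ (j + 2))) atTop atTop :=
    tendsto_log_two_pow.comp (tendsto_add_atTop_nat 2)
  obtain ⟨η, hη⟩ : ∃ η, η = ε / (8 * (Real.log C + 1)) := ⟨_, rfl⟩
  have hη0 : 0 < η := by rw [hη]; positivity
  have hS : ∀ᶠ j : ℕ in atTop, Real.log ((2 : ℝ) ^ (j + 2)) ^ 2 ≤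
      ∑ n ∈ blk Q r (2 ^ j), μ.real (all A (orb f n (K j))) := by
    have g1 := tsh.eventually (GG_big c ((8 + 2 * (|Real.log (qq Q)| + ε + |Real.log (16 * Q)|)) / ε))
    have g2 := tsh.eventually (GG_small c hη0)
    have g3 := tsh.eventually (loglog (c := c) 1)
    have g4 := tsh.eventually (loglog (c := -Real.log (qq Q)) 1)
    have g5 := tsh.eventually_ge_atTop (1 / η + 1)
    have g6 := two_pow_tendsto.eventually (card_blk hQ r)
    obtain ⟨N, hN⟩ := eventually_atTop.1 (hg.and (hl.eventually_ge_atTop (qq Q + 1)))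
    filter_upwards [g1, g2, g3, g4, g5, g6, two_pow_tendsto.eventually_ge_atTop (n₀ + N)] with j h1 h2 h3 h4 h5 h6 h7
    obtain ⟨L, hL⟩ : ∃ L, L = Real.log ((2 : ℝ) ^ (j + 2)) := ⟨_, rfl⟩
    rw [← hL] at h1 h2 h3 h4 h5 ⊢
    have hη1 : 0 < 1 / η := by positivity
    have hL1 : 1 ≤ L := by linarith
    have hL0 : 0 < L := by linarith
    have hlogL : 0 ≤ Real.log L := Real.log_nonneg hL1
    have hG0 : 0 ≤ GG c L := by unfold GG; exact div_nonneg hL0.le (by linarith)
    have hK1 : (K j : ℝ) ≤ GG c L + 1 := by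
      rw [hK, hL]
      refine (Nat.ceil_lt_add_one ?_).le
      rw [← hL]
      exact hG0
    have hKL : (K j : ℝ) * Real.log C / L ≤ ε / 4 := by
      rw [div_le_iff₀ hL0]
      have e1 : (K j : ℝ) ≤ 2 * η * L := by
        have : 1 ≤ η * L := by
          have : η * (1 / η) = 1 := by field_simp
          nlinarith
        linarith
      have e2 : (K j : ℝ) * Real.log C ≤ 2 * η * L * Real.log C := mul_le_mul_of_nonneg_right e1 hC1
      have e3 : 2 * η * L * Real.log C ≤ 2 * η * L * (Real.log C + 1) := mul_le_mul_of_nonneg_left (by linarith) (by positivity)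
      have e4 : 2 * η * L * (Real.log C + 1) = ε / 4 * L := by rw [hη]; field_simp; ring
      linarith
    have hprob : ∀ n ∈ blk Q r (2 ^ j), Real.exp (-((GG c L + 1) * (Real.log L - Real.log (qq Q) + ε / 4))) ≤
        μ.real (all A (orb f n (K j))) := by
      intro n hn
      have hn' := mem_blk hn
      have hnN : N ≤ n := by omega
      obtain ⟨e1, e2⟩ := hN n hnN
      have e3 : (n : ℝ) ≤ (2 : ℝ) ^ (j + 2) := by
        have : n ≤ 2 ^ (j + 2) := by
          have : 2 ^ (j + 2) = 4 * 2 ^ j := by ring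
          omega
        exact_mod_cast this
      refine le_trans ?_ (le_ch hA hf (k := K j) (by omega) e3 (by linarith) (by linarith) (e1 hn'.2.2))
      rw [← hL]
      have hden : 0 < L + K j * Real.log C := by positivity
      rw [← Real.exp_log (show 0 < qq Q / (L + K j * Real.log C) by positivity), ← Real.exp_nat_mul, Real.exp_le_exp,
        Real.log_div hq.ne' hden.ne']
      have e4 : Real.log (L + K j * Real.log C) ≤ Real.log L + ε / 4 := by
        have e5 : L + K j * Real.log C = L * (1 + K j * Real.log C / L) := by field_simp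
        rw [e5, Real.log_mul hL0.ne' (by positivity)]
        have := Real.log_le_sub_one_of_pos (show 0 < 1 + K j * Real.log C / L by positivity)
        linarith
      have e5 : (K j : ℝ) * (Real.log (L + K j * Real.log C) - Real.log (qq Q)) ≤
          (GG c L + 1) * (Real.log L - Real.log (qq Q) + ε / 4) := by
        have e6 : (K j : ℝ) * (Real.log (L + K j * Real.log C) - Real.log (qq Q)) ≤
            K j * (Real.log L - Real.log (qq Q) + ε / 4) := mul_le_mul_of_nonneg_left (by linarith) (Nat.cast_nonneg _)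
        exact e6.trans (mul_le_mul_of_nonneg_right hK1 (by linarith))
      linarith
    have hsum : ((blk Q r (2 ^ j)).card : ℝ) * Real.exp (-((GG c L + 1) * (Real.log L - Real.log (qq Q) + ε / 4))) ≤
        ∑ n ∈ blk Q r (2 ^ j), μ.real (all A (orb f n (K j))) := by
      rw [← nsmul_eq_mul]
      exact Finset.card_nsmul_le_sum _ _ _ hprob
    refine le_trans ?_ hsum
    have hcard : Real.exp (L - Real.log (16 * Q)) ≤ (blk Q r (2 ^ j)).card := by
      refine le_trans (le_of_eq ?_) h6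
      rw [Real.exp_sub, Real.exp_log (by positivity), hL, Real.exp_log (by positivity)]
      push_cast
      rw [pow_add]
      field_simp
      ring
    refine le_trans ?_ (mul_le_mul_of_nonneg_right hcard (Real.exp_pos _).le)
    have e4 : L ^ 2 = Real.exp (2 * Real.log L) := by
      rw [mul_comm, Real.exp_mul, Real.exp_log hL0, Real.rpow_two]
    rw [e4, ← Real.exp_add, Real.exp_le_exp]
    have e5 : GG c L * (Real.log L + c) = L := by
      unfold GG
      field_simp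
    have e6 : (GG c L + 1) * (Real.log L - Real.log (qq Q) + ε / 4) =
        L - 3 * ε / 4 * GG c L + (Real.log L - Real.log (qq Q) + ε / 4) := by
      have : Real.log L - Real.log (qq Q) + ε / 4 = (Real.log L + c) - 3 * ε / 4 := by rw [hc]; ring
      rw [add_mul, one_mul]
      congr 1
      rw [this, mul_sub, e5]
      ring
    rw [e6]
    have e7 : 8 * Real.log L + 2 * (|Real.log (qq Q)| + ε + |Real.log (16 * Q)|) ≤ ε * GG c L := by
      have e8 := mul_le_mul_of_nonneg_left h1 hε.le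
      have e9 : ε * ((8 + 2 * (|Real.log (qq Q)| + ε + |Real.log (16 * Q)|)) / ε * Real.log L +
          (8 + 2 * (|Real.log (qq Q)| + ε + |Real.log (16 * Q)|)) / ε) =
          (8 + 2 * (|Real.log (qq Q)| + ε + |Real.log (16 * Q)|)) * Real.log L +
          (8 + 2 * (|Real.log (qq Q)| + ε + |Real.log (16 * Q)|)) := by field_simp
      rw [e9] at e8
      have e10 : 0 ≤ 2 * (|Real.log (qq Q)| + ε + |Real.log (16 * Q)|) * Real.log L := by positivity
      linarith
    have e8 := neg_abs_le (Real.log (qq Q))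
    have e9 := le_abs_self (Real.log (16 * (Q : ℝ)))
    have e10 : 0 ≤ |Real.log (16 * (Q : ℝ))| := abs_nonneg _
    have e11 : 0 ≤ |Real.log (qq Q)| := abs_nonneg _
    linarith
  obtain ⟨B, hB⟩ : ∃ B : ℕ → Set Ω, B = fun (j : ℕ) => {ω | num (blk Q r (2 ^ j)) (fun n => all A (orb f n (K j))) ω ≤
      (∑ n ∈ blk Q r (2 ^ j), μ.real (all A (orb f n (K j)))) / 2} := ⟨_, rfl⟩
  have hbound : ∀ᶠ j : ℕ in atTop, μ.real (B j) ≤ 4 * (1 / Real.log ((2 : ℝ) ^ (j + 2)) ^ 2) := by
    filter_upwards [hS, two_pow_tendsto.eventually_ge_atTop n₀, tsh.eventually_ge_atTop 1] with j h1 h2 h3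
    have h4 : (0 : ℝ) < Real.log ((2 : ℝ) ^ (j + 2)) ^ 2 := by
      have : 0 < Real.log ((2 : ℝ) ^ (j + 2)) := by linarith
      positivity
    have h5 := few (μ := μ) (blk Q r (2 ^ j)) (fun n => all A (orb f n (K j))) (fun n _ => meas_all hA _) (η := 0) le_rfl
      (fun m hm n hn hmn => chain_pair hA hf h2 (mem_blk hm).1 (mem_blk hm).2.1 (mem_blk hn).1 (mem_blk hn).2.1 hmn le_rfl)
      (by linarith)
    rw [hB]
    refine h5.trans ?_
    have h6 := one_div_le_one_div_of_le h4 h1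
    linarith
  have hsm : Summable (fun j : ℕ => 4 * (1 / Real.log ((2 : ℝ) ^ (j + 2)) ^ 2)) :=
    ((summable_nat_add_iff 2).2 summable_log_two_pow).mul_left 4
  filter_upwards [bc hsm hbound] with ω hω
  have g2 := loglog (c := c) 1
  obtain ⟨L₀, hL₀⟩ := eventually_atTop.1 (g2.and (eventually_ge_atTop (1 : ℝ)))
  obtain ⟨J, hJ⟩ := eventually_atTop.1 (hω.and (hS.and ((tsh.eventually_ge_atTop 1).and
    (two_pow_tendsto.eventually_ge_atTop n₀))))
  filter_upwards [eventually_ge_atTop (2 ^ (J + 2)), hl.eventually_ge_atTop L₀] with x hx hxL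
  have hx0 : x ≠ 0 := by
    have := Nat.one_le_two_pow (n := J + 2)
    omega
  obtain ⟨j, hj⟩ : ∃ j, Nat.log 2 x = j + 1 := by
    have h1 : J + 2 ≤ Nat.log 2 x := (Nat.le_log_iff_pow_le (by norm_num) hx0).2 hx
    exact ⟨Nat.log 2 x - 1, by omega⟩
  have h1 : J + 2 ≤ Nat.log 2 x := (Nat.le_log_iff_pow_le (by norm_num) hx0).2 hx
  have h2 : 2 ^ (j + 1) ≤ x := by rw [← hj]; exact Nat.pow_log_le_self 2 hx0
  have h3 : x < 2 ^ (j + 2) := by
    have := Nat.lt_pow_succ_log_self (show 1 < 2 by norm_num) x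
    rw [hj] at this
    exact this
  obtain ⟨h4, h5, h6, h7⟩ := hJ j (by omega)
  rw [hB] at h4
  have h8 : (∑ n ∈ blk Q r (2 ^ j), μ.real (all A (orb f n (K j)))) / 2 <
      num (blk Q r (2 ^ j)) (fun n => all A (orb f n (K j))) ω := by
    by_contra hcon
    push Not at hcon
    exact h4 hcon
  have h9 : 0 < num (blk Q r (2 ^ j)) (fun n => all A (orb f n (K j))) ω := by
    have : (0 : ℝ) < Real.log ((2 : ℝ) ^ (j + 2)) ^ 2 := by
      have : 0 < Real.log ((2 : ℝ) ^ (j + 2)) := by linarith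
      positivity
    linarith
  have h10 : ∃ n ∈ blk Q r (2 ^ j), ω ∈ all A (orb f n (K j)) := by
    by_contra hcon
    push Not at hcon
    have : num (blk Q r (2 ^ j)) (fun n => all A (orb f n (K j))) ω = 0 := by
      unfold num
      exact sum_eq_zero (fun n hn => Set.indicator_of_notMem (hcon n hn) _)
    linarith
  obtain ⟨n, hn, hnω⟩ := h10
  have hn' := mem_blk hn
  refine ⟨n, K j, by omega, by rw [pow_succ] at h2; omega, ?_, fun i hi => hnω _ (mem_orb.2 ⟨i, hi, rfl⟩)⟩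
  have e1 := hL₀ _ hxL
  have e2 : GG c (Real.log x) ≤ GG c (Real.log ((2 : ℝ) ^ (j + 2))) := by
    refine GG_mono (by linarith [e1.2]) e1.1 (Real.log_le_log ?_ ?_)
    · exact_mod_cast Nat.pos_of_ne_zero hx0
    · exact_mod_cast h3.le
  refine e2.trans ?_
  rw [hK]
  exact Nat.le_ceil _

/-- The threshold of the spectrum. -/
noncomputable def kk (θ : ℝ) (n : ℕ) : ℕ := ⌈θ * (Real.log n / Real.log (Real.log n))⌉₊

theorem spec_prob_le (hA : IsModel μ (level Q) A) (hQ : 1 ≤ Q) (hf : Step f C n₀) {θ δ : ℝ} (hθ : 0 < θ) (hδ : 0 < δ) :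
    ∀ᶠ n : ℕ in atTop, μ.real (all A (orb f n (kk θ n))) ≤ (n : ℝ) ^ (-(θ - δ)) := by
  have hq := qq_pos hQ
  have g1 := hl.eventually (loglog (c := 0) (|Real.log (qq Q)| * θ / δ + |Real.log (qq Q)| + 1))
  filter_upwards [g1, hl.eventually_ge_atTop 1, eventually_ge_atTop n₀, eventually_ge_atTop 1] with n h1 h2 h3 h4
  have hn0 : (0 : ℝ) < n := by exact_mod_cast h4
  obtain ⟨L, hL⟩ : ∃ L, L = Real.log (n : ℝ) := ⟨_, rfl⟩
  have hc1 := ch_le (μ := μ) hA hf (n := n) (k := kk θ n) h3 hn0 le_rfl (by linarith)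
  refine hc1.trans ?_
  rw [← hL] at h1 h2 ⊢
  rw [add_zero] at h1
  have hL0 : 0 < L := by linarith
  have ha : 0 ≤ |Real.log (qq Q)| := abs_nonneg _
  have ha1 : 0 ≤ |Real.log (qq Q)| * θ / δ := by positivity
  have hlogL : 0 < Real.log L := by linarith
  have hK : θ * (L / Real.log L) ≤ kk θ n := by
    unfold kk
    rw [← hL]
    exact Nat.le_ceil _
  rw [Real.rpow_def_of_pos hn0, ← hL, ← Real.exp_log (show 0 < qq Q / L by positivity), ← Real.exp_nat_mul,
    Real.exp_le_exp, Real.log_div hq.ne' hL0.ne']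
  have e1 : θ * (L / Real.log L) * (Real.log L - Real.log (qq Q)) ≤ kk θ n * (Real.log L - Real.log (qq Q)) :=
    mul_le_mul_of_nonneg_right hK (by linarith [le_abs_self (Real.log (qq Q))])
  have e2 : (θ - δ) * L ≤ θ * (L / Real.log L) * (Real.log L - Real.log (qq Q)) := by
    have e3 : θ * (L / Real.log L) * (Real.log L - Real.log (qq Q)) = θ * L - θ * Real.log (qq Q) * L / Real.log L := by
      field_simp
    rw [e3]
    have e4 : θ * Real.log (qq Q) * L / Real.log L ≤ δ * L := by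
      rw [div_le_iff₀ hlogL]
      have e5 : θ * Real.log (qq Q) ≤ δ * Real.log L := by
        have e6 : δ * (|Real.log (qq Q)| * θ / δ) = |Real.log (qq Q)| * θ := by field_simp
        have e7 : δ * (|Real.log (qq Q)| * θ / δ) ≤ δ * Real.log L := mul_le_mul_of_nonneg_left (by linarith) hδ.le
        have e8 : θ * Real.log (qq Q) ≤ θ * |Real.log (qq Q)| := mul_le_mul_of_nonneg_left (le_abs_self _) hθ.le
        linarith
      nlinarith
    linarith
  linarith

theorem le_spec_prob (hA : IsModel μ (level Q) A) (hQ : 1 ≤ Q) (hf : Step f C n₀) {r : ℕ}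
    (hg : ∀ᶠ n : ℕ in atTop, n % Q = r % Q → ∀ i, (f^[i] n).Coprime Q) {θ δ : ℝ} (hθ : 0 < θ) (hδ : 0 < δ) :
    ∀ᶠ n : ℕ in atTop, n % Q = r % Q → (n : ℝ) ^ (-(θ + δ)) ≤ μ.real (all A (orb f n (kk θ n))) := by
  have hq := qq_pos hQ
  have hC1 : 0 ≤ Real.log C := Real.log_nonneg (by exact_mod_cast hf.cone)
  obtain ⟨a, ha⟩ : ∃ a, a = |Real.log (qq Q)| + Real.log 2 := ⟨_, rfl⟩
  have ha0 : 0 ≤ a := by
    rw [ha]
    have : 0 < Real.log 2 := Real.log_pos (by norm_num)
    positivity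
  have g1 := hl.eventually (loglog (c := 0) (4 * a * θ / δ + 2 * θ * Real.log C + 1))
  have g2 := hl.eventually (log_o (1 + a + Real.log C) (show 0 < min (δ / 2) (1 / 2) by positivity))
  filter_upwards [g1, g2, hl.eventually_ge_atTop (qq Q + 1), eventually_ge_atTop n₀, eventually_ge_atTop 1, hg]
    with n h1 h6 h2 h3 h4 h5 hr
  have hn0 : (0 : ℝ) < n := by exact_mod_cast h4
  obtain ⟨L, hL⟩ : ∃ L, L = Real.log (n : ℝ) := ⟨_, rfl⟩
  have hc1 := le_ch (μ := μ) hA hf (n := n) (k := kk θ n) h3 le_rfl (by linarith) (by linarith) (h5 hr)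
  refine le_trans ?_ hc1
  rw [← hL] at h1 h2 h6 ⊢
  rw [add_zero] at h1
  have hL0 : 0 < L := by linarith
  have hL1 : 1 ≤ L := by linarith
  have hm1 : min (δ / 2) (1 / 2) ≤ δ / 2 := min_le_left _ _
  have hm2 : min (δ / 2) (1 / 2) ≤ 1 / 2 := min_le_right _ _
  have hx1 : 0 ≤ 4 * a * θ / δ := by positivity
  have hx2 : 0 ≤ 2 * θ * Real.log C := by positivity
  have hlogL : 1 ≤ Real.log L := by linarith
  have hlogL0 : 0 < Real.log L := by linarith
  have hK : (kk θ n : ℝ) ≤ θ * (L / Real.log L) + 1 := by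
    unfold kk
    rw [← hL]
    exact (Nat.ceil_lt_add_one (by positivity)).le
  -- the denominator is at most 2 L
  have hKC : (kk θ n : ℝ) * Real.log C ≤ L := by
    have e1 : (kk θ n : ℝ) * Real.log C ≤ (θ * (L / Real.log L) + 1) * Real.log C := mul_le_mul_of_nonneg_right hK hC1
    have e2 : θ * (L / Real.log L) * Real.log C ≤ L / 2 := by
      have e3 : θ * (L / Real.log L) * Real.log C = θ * Real.log C * L / Real.log L := by ring
      rw [e3, div_le_iff₀ hlogL0]
      have : θ * Real.log C ≤ Real.log L / 2 := by linarith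
      nlinarith
    have e3 : Real.log C ≤ L / 2 := by
      have e4 : (1 + a + Real.log C) * Real.log L + (1 + a + Real.log C) ≤ 1 / 2 * L := by
        refine h6.trans (mul_le_mul_of_nonneg_right hm2 hL0.le)
      have : 0 ≤ (1 + a + Real.log C) * Real.log L := by positivity
      linarith
    nlinarith
  have hbase : qq Q / (2 * L) ≤ qq Q / (L + kk θ n * Real.log C) :=
    div_le_div_of_nonneg_left hq.le (by positivity) (by linarith)
  refine le_trans ?_ (pow_le_pow_left₀ (by positivity) hbase _)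
  rw [Real.rpow_def_of_pos hn0, ← hL, ← Real.exp_log (show 0 < qq Q / (2 * L) by positivity), ← Real.exp_nat_mul,
    Real.exp_le_exp, Real.log_div hq.ne' (by positivity), Real.log_mul (by norm_num) hL0.ne']
  have e1 : (kk θ n : ℝ) * (Real.log L + a) ≤ (θ * (L / Real.log L) + 1) * (Real.log L + a) :=
    mul_le_mul_of_nonneg_right hK (by linarith)
  have e2 : θ * (L / Real.log L) * (Real.log L + a) = θ * L + θ * a * L / Real.log L := by
    field_simp
  have e3 : θ * a * L / Real.log L ≤ δ / 4 * L := by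
    rw [div_le_iff₀ hlogL0]
    have e4 : θ * a ≤ δ / 4 * Real.log L := by
      have e5 : δ / 4 * (4 * a * θ / δ) = θ * a := by field_simp
      have e6 : δ / 4 * (4 * a * θ / δ) ≤ δ / 4 * Real.log L := mul_le_mul_of_nonneg_left (by linarith) (by positivity)
      linarith
    nlinarith
  have e4 : Real.log L + a ≤ δ / 2 * L := by
    have e5 : (1 + a + Real.log C) * Real.log L + (1 + a + Real.log C) ≤ δ / 2 * L :=
      h6.trans (mul_le_mul_of_nonneg_right hm1 hL0.le)
    have e6 : 0 ≤ (a + Real.log C) * Real.log L := by positivity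
    linarith
  have e5 : -(Real.log L + a) ≤ Real.log (qq Q) - (Real.log 2 + Real.log L) := by
    rw [ha]
    linarith [neg_abs_le (Real.log (qq Q))]
  have e6 : (kk θ n : ℝ) * -(Real.log L + a) ≤ kk θ n * (Real.log (qq Q) - (Real.log 2 + Real.log L)) :=
    mul_le_mul_of_nonneg_left e5 (Nat.cast_nonneg _)
  have e7 : 0 ≤ δ / 4 * L := by positivity
  nlinarith

/-- **The spectrum: upper bound.** -/
theorem spec_upper (hA : IsModel μ (level Q) A) (hQ : 1 ≤ Q) (hf : Step f C n₀) {θ δ : ℝ} (hθ : 0 < θ) (hθ1 : θ ≤ 1)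
    (hδ : 0 < δ) : ∀ᵐ ω ∂μ, ∀ᶠ x : ℕ in atTop,
      num (range (x + 1)) (fun n => all A (orb f n (kk θ n))) ω ≤ (x : ℝ) ^ (1 - θ + δ) := by
  have h1 := spec_prob_le (μ := μ) hA hQ hf hθ (show 0 < δ / 2 by linarith)
  have h2 := upper_count (μ := μ) (E := fun n => all A (orb f n (kk θ n))) (fun n => meas_all hA _)
    (s := θ - δ / 2) (by linarith) h1 (show 0 < δ / 2 by linarith)
  filter_upwards [h2] with ω hω
  filter_upwards [hω] with x hx
  rw [show 1 - (θ - δ / 2) + δ / 2 = 1 - θ + δ by ring] at hx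
  exact hx

/-- **The spectrum: lower bound.** -/
theorem spec_lower (hA : IsModel μ (level Q) A) (hQ : 1 ≤ Q) (hf : Step f C n₀) {r : ℕ}
    (hg : ∀ᶠ n : ℕ in atTop, n % Q = r % Q → ∀ i, (f^[i] n).Coprime Q) {θ δ : ℝ} (hθ : 0 < θ) (hθ1 : θ < 1)
    (hδ : 0 < δ) : ∀ᵐ ω ∂μ, ∀ᶠ x : ℕ in atTop,
      (x : ℝ) ^ (1 - θ - δ) ≤ num ((range (x + 1)).filter (fun n => n₀ ≤ n)) (fun n => all A (orb f n (kk θ n))) ω := by
  have hQ0 : (0 : ℝ) < Q := by exact_mod_cast hQ
  obtain ⟨κ, hκ⟩ : ∃ κ, κ = min (1 - θ) δ / 8 := ⟨_, rfl⟩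
  have hm : 0 < min (1 - θ) δ := lt_min (by linarith) hδ
  have hm1 : min (1 - θ) δ ≤ 1 - θ := min_le_left _ _
  have hm2 : min (1 - θ) δ ≤ δ := min_le_right _ _
  have hκ0 : 0 < κ := by rw [hκ]; linarith
  have hκ1 : 8 * κ ≤ 1 - θ := by rw [hκ]; linarith
  have hκ2 : 8 * κ ≤ δ := by rw [hκ]; linarith
  obtain ⟨N, hN⟩ := eventually_atTop.1 (le_spec_prob (μ := μ) hA hQ hf hg hθ hκ0)
  have hS : ∀ᶠ k : ℕ in atTop, ((2 : ℝ) ^ k) ^ (1 - θ - 2 * κ) ≤
      ∑ d ∈ blk Q r (2 ^ (k - 1)), μ.real (all A (orb f d (kk θ d))) := by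
    have t1 : Tendsto (fun k : ℕ => 2 ^ (k - 1)) atTop (atTop : Filter ℕ) :=
      two_pow_tendsto.comp (tendsto_sub_atTop_nat 1)
    have g5 : ∀ᶠ k : ℕ in atTop, 8 * (Q : ℝ) ≤ ((2 : ℝ) ^ k) ^ κ := by
      have := (tendsto_rpow_atTop hκ0).comp tendsto_natCast_atTop_atTop
      have h1 := two_pow_tendsto.eventually (this.eventually_ge_atTop (8 * (Q : ℝ)))
      filter_upwards [h1] with k hk
      simpa using hk
    filter_upwards [t1.eventually (card_blk hQ r), t1.eventually_ge_atTop (N + n₀), g5, eventually_ge_atTop 1]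
      with k h1 h2 h3 h4
    obtain ⟨D, hD⟩ : ∃ D : ℝ, D = (2 : ℝ) ^ k := ⟨_, rfl⟩
    rw [← hD] at h3 ⊢
    have hD0 : 0 < D := by rw [hD]; positivity
    have hk2 : (2 : ℝ) * 2 ^ (k - 1) = D := by
      rw [hD, ← pow_succ']
      congr 1
      omega
    have e1 : ((blk Q r (2 ^ (k - 1))).card : ℝ) * D ^ (-(θ + κ)) ≤
        ∑ d ∈ blk Q r (2 ^ (k - 1)), μ.real (all A (orb f d (kk θ d))) := by
      rw [← nsmul_eq_mul]
      refine Finset.card_nsmul_le_sum _ _ _ (fun n hn => ?_)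
      have hn' := mem_blk hn
      refine le_trans ?_ (hN n (by omega) hn'.2.2)
      have hn0 : (0 : ℝ) < n := by
        have : 0 < n := by omega
        exact_mod_cast this
      refine Real.rpow_le_rpow_of_nonpos hn0 ?_ (by linarith)
      have h5 : n ≤ 2 * 2 ^ (k - 1) := by omega
      have h6 : (n : ℝ) ≤ 2 * 2 ^ (k - 1) := by exact_mod_cast h5
      linarith
    refine le_trans ?_ e1
    push_cast at h1
    have e2 : D ^ (1 - κ) ≤ (blk Q r (2 ^ (k - 1))).card := by
      refine le_trans ?_ h1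
      rw [le_div_iff₀ (by positivity)]
      have e3 : D = D ^ (1 - κ) * D ^ κ := by
        rw [← Real.rpow_add hD0, sub_add_cancel, Real.rpow_one]
      have e4 : D ^ (1 - κ) * (8 * Q) ≤ D ^ (1 - κ) * D ^ κ := mul_le_mul_of_nonneg_left h3 (by positivity)
      rw [← e3] at e4
      nlinarith
    have e3 : D ^ (1 - θ - 2 * κ) = D ^ (1 - κ) * D ^ (-(θ + κ)) := by
      rw [← Real.rpow_add hD0]
      congr 1
      ring
    rw [e3]
    exact mul_le_mul_of_nonneg_right e2 (by positivity)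
  have hc' : ∀ᶠ k : ℕ in atTop, ∀ i ∈ blk Q r (2 ^ (k - 1)), ∀ j ∈ blk Q r (2 ^ (k - 1)), i ≠ j →
      μ.real (all A (orb f i (kk θ i)) ∩ all A (orb f j (kk θ j))) ≤
        (1 + ((2 : ℝ) ^ k) ^ (-(1 : ℝ))) * (μ.real (all A (orb f i (kk θ i))) * μ.real (all A (orb f j (kk θ j)))) := by
    have t1 : Tendsto (fun k : ℕ => 2 ^ (k - 1)) atTop (atTop : Filter ℕ) :=
      two_pow_tendsto.comp (tendsto_sub_atTop_nat 1)
    filter_upwards [t1.eventually_ge_atTop n₀] with k h1 i hi j hj hij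
    exact chain_pair hA hf h1 (mem_blk hi).1 (mem_blk hi).2.1 (mem_blk hj).1 (mem_blk hj).2.1 hij (by positivity)
  have hfinal := lower_count (μ := μ) (E := fun n => all A (orb f n (kk θ n))) (fun n => meas_all hA _)
    (P := fun k => blk Q r (2 ^ (k - 1))) (show 0 < 1 - θ - 2 * κ by linarith) hS one_pos hc' (show 0 < δ / 2 by linarith)
  filter_upwards [hfinal] with ω hω
  filter_upwards [hω, eventually_ge_atTop (4 * n₀ + 4), two_pow_tendsto.eventually_ge_atTop n₀] with x h1 hx1 _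
  have hx1' : (1 : ℝ) ≤ x := by exact_mod_cast (by omega : 1 ≤ x)
  have h2 : (x : ℝ) ^ (1 - θ - δ) ≤ (x : ℝ) ^ (1 - θ - 2 * κ - δ / 2) :=
    Real.rpow_le_rpow_of_exponent_le hx1' (by linarith)
  refine h2.trans (h1.trans (num_mono ?_ _ ω))
  intro n hn
  have hn' := mem_blk hn
  rw [mem_filter, mem_range]
  have h3 := Nat.pow_log_le_self 2 (show x ≠ 0 by omega)
  have h4 := Nat.lt_pow_succ_log_self (show 1 < 2 by norm_num) x
  have h5 : 1 ≤ Nat.log 2 x := (Nat.le_log_iff_pow_le (by norm_num) (by omega)).2 (by omega)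
  have h6 : 2 * 2 ^ (Nat.log 2 x - 1) = 2 ^ (Nat.log 2 x) := by
    rw [← pow_succ']
    congr 1
    omega
  rw [pow_succ] at h4
  constructor
  · omega
  · omega

end Pool.Agent.Q120.GM
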