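import Pool.Agent.Q120.GM.Level
import Pool.Agent.Q120.TD.Moderate

/-!
# The maximal gaps between tuples in the sieved models
-/

set_option autoImplicit false

namespace Pool.Agent.Q120.GM

open Finset MeasureTheory ProbabilityTheory Filter Pool.Agent.Q120.AD
open scoped Topology

variable {Ω : Type*} [MeasurableSpace Ω] {μ : Measure Ω} [IsProbabilityMeasure μ] {A : Ω → Set ℕ} {Q : ℕ} {H : Finset ℕ}

/-- `n + H` is contained in `S`. -/
def Occ (S : Set ℕ) (H : Finset ℕ) (n : ℕ) : Prop := ∀ h ∈ H, n + h ∈ S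

omit [MeasurableSpace Ω] in
theorem occ_iff (n : ℕ) (ω : Ω) : Occ (A ω) H n ↔ ω ∈ all A (tl n H) := by
  constructor
  · intro h m hm
    rw [mem_tl] at hm
    obtain ⟨b, hb, rfl⟩ := hm
    exact h b hb
  · intro h b hb
    exact h _ (mem_tl.2 ⟨b, hb, rfl⟩)

theorem ev_power (D : ℝ) (j : ℕ) {ε : ℝ} (hε : 0 < ε) : ∀ᶠ x : ℕ in atTop, D * Real.log x ^ j ≤ (x : ℝ) ^ ε := by
  have h1 := isLittleO_log_rpow_rpow_atTop (j : ℝ) hε
  have h2 := h1.bound (show 0 < 1 / (|D| + 1) by positivity)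
  have h3 := tendsto_natCast_atTop_atTop.eventually h2
  filter_upwards [h3, eventually_ge_atTop 1] with x hx hx1
  have hx1' : (1 : ℝ) ≤ x := by exact_mod_cast hx1
  have hL : 0 ≤ Real.log (x : ℝ) := Real.log_nonneg hx1'
  rw [Real.rpow_natCast, Real.norm_of_nonneg (by positivity), Real.norm_of_nonneg (by positivity)] at hx
  have h4 : D * Real.log x ^ j ≤ (|D| + 1) * Real.log x ^ j := by
    apply mul_le_mul_of_nonneg_right _ (by positivity)
    linarith [le_abs_self D]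
  refine h4.trans ?_
  have h5 : (|D| + 1) * Real.log x ^ j ≤ (|D| + 1) * (1 / (|D| + 1) * (x : ℝ) ^ ε) :=
    mul_le_mul_of_nonneg_left hx (by positivity)
  refine h5.trans (le_of_eq ?_)
  field_simp

theorem ratio (k : ℕ) : Tendsto (fun x : ℕ => (Real.log x / Real.log (2 * x)) ^ k) atTop (nhds 1) := by
  have h1 : Tendsto (fun x : ℕ => Real.log (x : ℝ) / Real.log (2 * x)) atTop (nhds 1) := by
    have h2 : Tendsto (fun x : ℕ => 1 + Real.log 2 / Real.log (x : ℝ)) atTop (nhds (1 + 0)) :=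
      (hl.const_div_atTop (Real.log 2)).const_add 1
    rw [add_zero] at h2
    have h3 := h2.inv₀ one_ne_zero
    rw [inv_one] at h3
    refine h3.congr' ?_
    filter_upwards [hl.eventually_gt_atTop 0, eventually_ge_atTop 1] with x hx hx1
    have hx1' : (0 : ℝ) < x := by exact_mod_cast hx1
    rw [Real.log_mul (by norm_num) hx1'.ne']
    have : Real.log 2 + Real.log (x : ℝ) ≠ 0 := by
      have := Real.log_pos (show (1 : ℝ) < 2 by norm_num)
      linarith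
    field_simp
    ring
  have h2 := h1.pow k
  rw [one_pow] at h2
  exact h2

/-- The length of the windows. -/
noncomputable def wn (κ : ℝ) (Q : ℕ) (H : Finset ℕ) (x : ℕ) : ℕ := ⌊κ * Real.log x ^ (H.card + 1) / sing Q H⌋₊

theorem ev_wn_small (κ : ℝ) (Q : ℕ) (H : Finset ℕ) (hκ : 0 ≤ κ) (hS : 0 < sing Q H) (C : ℝ) :
    ∀ᶠ x : ℕ in atTop, (wn κ Q H x : ℝ) + C ≤ x := by
  filter_upwards [ev_power (κ / sing Q H + |C|) (H.card + 1) (show (0 : ℝ) < 1 by norm_num),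
    hl.eventually_ge_atTop 1] with x h1 h2
  rw [Real.rpow_one] at h1
  have h3 : (wn κ Q H x : ℝ) ≤ κ * Real.log x ^ (H.card + 1) / sing Q H := Nat.floor_le (by positivity)
  have h4 : 1 ≤ Real.log (x : ℝ) ^ (H.card + 1) := one_le_pow₀ h2
  have h5 : C ≤ |C| * Real.log x ^ (H.card + 1) := by nlinarith [le_abs_self C, abs_nonneg C]
  have h6 : κ * Real.log x ^ (H.card + 1) / sing Q H = κ / sing Q H * Real.log x ^ (H.card + 1) := by ring
  rw [h6] at h3
  nlinarith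

/-- **The upper bound for the probability of a long gap.** -/
theorem prob_gap_le (hA : IsModel μ (level Q) A) (hQ : 1 ≤ Q) (hS : 0 < sing Q H) {ε : ℝ} (hε : 0 < ε) (hε1 : ε ≤ 1) :
    ∀ᶠ x : ℕ in atTop, μ.real (none A (Ico (x + 1) (x + 1 + wn (1 + ε) Q H x)) (fun n => tl n H)) ≤
      (x : ℝ) ^ (-(1 + ε / 2)) := by
  classical
  obtain ⟨k, hk⟩ : ∃ k, k = H.card := ⟨_, rfl⟩
  obtain ⟨S, hSd⟩ : ∃ S, S = sing Q H := ⟨_, rfl⟩
  obtain ⟨C1, hC1⟩ : ∃ C1, C1 = (1 + ε) / S * ((k : ℝ) ^ 2 * qq Q ^ (k + 1)) := ⟨_, rfl⟩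
  rw [← hSd] at hS
  have hq := qq_pos hQ
  have hC10 : 0 ≤ C1 := by rw [hC1]; positivity
  have h1 := ((ratio k).const_mul (1 + ε)).eventually_const_le (show 1 + 3 * ε / 4 < (1 + ε) * 1 by linarith)
  have h2 := hl.eventually_ge_atTop (qq Q + 1 + ((Q : ℝ) + 1) * S * 4 / ε + C1 * 4 / ε)
  have h3 := ev_wn_small (1 + ε) Q H (by linarith) (by rw [← hSd]; exact hS) ((1 : ℝ) + ((H.sup id : ℕ) : ℝ))
  filter_upwards [h1, h2, h3, eventually_ge_atTop 3] with x h1 h2 h3 hx3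
  have hx0 : (0 : ℝ) < x := by
    have : (3 : ℝ) ≤ x := by exact_mod_cast hx3
    linarith
  obtain ⟨L, hL⟩ : ∃ L, L = Real.log (x : ℝ) := ⟨_, rfl⟩
  rw [← hL] at h1 h2
  have hQS : 0 ≤ ((Q : ℝ) + 1) * S * 4 / ε := by positivity
  have hC1' : 0 ≤ C1 * 4 / ε := by positivity
  have hL1 : 1 ≤ L := by linarith
  have hqL : qq Q ≤ L := by linarith
  obtain ⟨w, hw⟩ : ∃ w, w = wn (1 + ε) Q H x := ⟨_, rfl⟩
  rw [← hw] at h3 ⊢
  have hw1 : (w : ℝ) ≤ (1 + ε) * L ^ (k + 1) / S := by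
    rw [hw, hL, hk, hSd]
    exact Nat.floor_le (by rw [← hSd, ← hL]; positivity)
  have hw2 : (1 + ε) * L ^ (k + 1) / S < w + 1 := by
    rw [hw, hL, hk, hSd]
    exact Nat.lt_floor_add_one _
  have hj := janson hA (Ico (x + 1) (x + 1 + w)) (fun n => tl n H)
  have hlow := le_sum_tuple (Q := Q) (H := H) (x := (x : ℝ)) (y := 2 * x) (a := x + 1) (w := w) hQ
    (by rw [← hL]; exact hqL) (by rw [← hL]; linarith) hx0 (by push_cast; linarith) (by
      intro h hh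
      have h4 : h ≤ H.sup id := Finset.le_sup (f := id) hh
      have h5 : (h : ℝ) ≤ ((H.sup id : ℕ) : ℝ) := by exact_mod_cast h4
      push_cast
      linarith) (by linarith)
  have hdel := delta_le (Q := Q) (H := H) (x := (x : ℝ)) (a := x + 1) (w := w)
    (by rw [← hL]; exact hqL) (by rw [← hL]; linarith) hx0 (by push_cast; linarith)
  rw [← hSd, ← hk] at hlow
  rw [← hL, ← hk] at hdel
  obtain ⟨L2, hL2⟩ : ∃ L2, L2 = Real.log (2 * (x : ℝ)) := ⟨_, rfl⟩
  rw [← hL2] at h1 hlow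
  have hL2L : L ≤ L2 := by rw [hL, hL2]; exact Real.log_le_log hx0 (by linarith)
  have hL20 : 0 < L2 := by linarith
  -- the main term
  have e1 : (1 + 3 * ε / 4) * L ≤ (1 + ε) * L ^ (k + 1) / L2 ^ k := by
    have e2 : (1 + ε) * L ^ (k + 1) / L2 ^ k = ((1 + ε) * (L / L2) ^ k) * L := by
      rw [div_pow, pow_succ]
      field_simp
    rw [e2]
    exact mul_le_mul_of_nonneg_right h1 (by linarith)
  have e2 : ((w : ℝ) - Q) * S / L2 ^ k ≥ (1 + 3 * ε / 4) * L - ((Q : ℝ) + 1) * S := by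
    have e3 : (1 + ε) * L ^ (k + 1) - ((Q : ℝ) + 1) * S ≤ ((w : ℝ) - Q) * S := by
      rw [div_lt_iff₀ hS] at hw2
      nlinarith
    have e4 : ((1 + ε) * L ^ (k + 1) - ((Q : ℝ) + 1) * S) / L2 ^ k ≤ ((w : ℝ) - Q) * S / L2 ^ k :=
      div_le_div_of_nonneg_right e3 (by positivity)
    have e5 : ((Q : ℝ) + 1) * S / L2 ^ k ≤ ((Q : ℝ) + 1) * S := by
      apply div_le_self (by positivity)
      exact one_le_pow₀ (by linarith)
    rw [sub_div] at e4
    linarith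
  have e3 : (w : ℝ) * ((k : ℝ) ^ 2 * (qq Q / L) ^ (k + 1)) ≤ C1 := by
    have e4 : (w : ℝ) * ((k : ℝ) ^ 2 * (qq Q / L) ^ (k + 1)) ≤
        (1 + ε) * L ^ (k + 1) / S * ((k : ℝ) ^ 2 * (qq Q / L) ^ (k + 1)) :=
      mul_le_mul_of_nonneg_right hw1 (by positivity)
    refine e4.trans (le_of_eq ?_)
    rw [hC1, div_pow]
    field_simp
  refine hj.trans ?_
  rw [Real.rpow_def_of_pos hx0, Real.exp_le_exp, ← hL]
  have e4 : ((Q : ℝ) + 1) * S + C1 ≤ ε / 4 * L := by
    have e5 : ε / 4 * (((Q : ℝ) + 1) * S * 4 / ε + C1 * 4 / ε) = ((Q : ℝ) + 1) * S + C1 := by field_simp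
    rw [← e5]
    apply mul_le_mul_of_nonneg_left _ (by positivity)
    linarith
  linarith

/-- **Upper bound for the gaps.** -/
theorem gap_upper (hA : IsModel μ (level Q) A) (hQ : 1 ≤ Q) (hS : 0 < sing Q H) {ε : ℝ} (hε : 0 < ε) (hε1 : ε ≤ 1) :
    ∀ᵐ ω ∂μ, ∀ᶠ x : ℕ in atTop, ∃ n : ℕ, x < n ∧ (n : ℝ) ≤ x + (1 + ε) * Real.log x ^ (H.card + 1) / sing Q H ∧
      Occ (A ω) H n := by
  have hs : Summable (fun x : ℕ => (x : ℝ) ^ (-(1 + ε / 2))) := Real.summable_nat_rpow.2 (by linarith)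
  filter_upwards [bc hs (prob_gap_le hA hQ hS hε hε1)] with ω hω
  filter_upwards [hω, hl.eventually_ge_atTop 0] with x hx hx0
  have hx' : ¬ ∀ n ∈ Ico (x + 1) (x + 1 + wn (1 + ε) Q H x), ω ∉ all A (tl n H) := hx
  push Not at hx'
  obtain ⟨n, hn, h1⟩ := hx'
  rw [mem_Ico] at hn
  refine ⟨n, by omega, ?_, (occ_iff n ω).2 h1⟩
  have h2 : (wn (1 + ε) Q H x : ℝ) ≤ (1 + ε) * Real.log x ^ (H.card + 1) / sing Q H := Nat.floor_le (by positivity)
  have h3 : (n : ℝ) ≤ x + wn (1 + ε) Q H x := by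
    have : n ≤ x + wn (1 + ε) Q H x := by omega
    exact_mod_cast this
  linarith

/-- **The lower bound for the probability of a long gap.** -/
theorem le_prob_gap (hA : IsModel μ (level Q) A) (hQ : 1 ≤ Q) (hH : H.Nonempty) (hS : 0 < sing Q H) {ε : ℝ}
    (hε : 0 < ε) (hε1 : ε < 1) :
    ∀ᶠ x : ℕ in atTop, ∀ y : ℕ, x ≤ y → (x : ℝ) ^ (-(1 - ε / 2)) ≤
      μ.real (none A (Ico y (y + wn (1 - ε) Q H x)) (fun n => tl n H)) := by
  classical
  obtain ⟨k, hk⟩ : ∃ k, k = H.card := ⟨_, rfl⟩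
  obtain ⟨S, hSd⟩ : ∃ S, S = sing Q H := ⟨_, rfl⟩
  rw [← hSd] at hS
  have hk1 : 1 ≤ k := by rw [hk]; exact hH.card_pos
  have hq := qq_pos hQ
  have h2 := hl.eventually_ge_atTop (16 * qq Q / ε + 1 + (2 * (Q : ℝ)) * S * 8 / ε + 2 * qq Q)
  filter_upwards [h2, eventually_ge_atTop 3] with x h2 hx3
  intro y hxy
  have hx0 : (0 : ℝ) < x := by
    have : (3 : ℝ) ≤ x := by exact_mod_cast hx3
    linarith
  obtain ⟨L, hL⟩ : ∃ L, L = Real.log (x : ℝ) := ⟨_, rfl⟩
  rw [← hL] at h2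
  have g1 : 0 ≤ 16 * qq Q / ε := by positivity
  have g2 : 0 ≤ (2 * (Q : ℝ)) * S * 8 / ε := by positivity
  have hL1 : 1 ≤ L := by linarith
  have hqL : 2 * qq Q ≤ L := by linarith
  obtain ⟨w, hw⟩ : ∃ w, w = wn (1 - ε) Q H x := ⟨_, rfl⟩
  rw [← hw]
  have hw1 : (w : ℝ) ≤ (1 - ε) * L ^ (k + 1) / S := by
    rw [hw, hL, hk, hSd]
    exact Nat.floor_le (by
      rw [← hSd, ← hL]
      have : 0 ≤ 1 - ε := by linarith
      positivity)
  refine le_trans ?_ (harris hA (Ico y (y + w)) (fun n => tl n H))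
  have hxy' : (x : ℝ) ≤ y := by exact_mod_cast hxy
  -- each tuple has a small probability
  have hsm : ∀ n ∈ Ico y (y + w), 0 ≤ ∏ m ∈ tl n H, level Q m ∧ ∏ m ∈ tl n H, level Q m ≤ qq Q / L := by
    intro n hn
    rw [mem_Ico] at hn
    refine ⟨prod_nonneg (fun m _ => level_nonneg Q m), ?_⟩
    have h3 : (x : ℝ) ≤ n := hxy'.trans (by exact_mod_cast hn.1)
    refine (tuple_le (Q := Q) (H := H) (x := (x : ℝ)) (by rw [← hL]; linarith) hx0 h3).trans ?_
    rw [← hL, ← hk]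
    have h4 : qq Q / L ≤ 1 := by rw [div_le_one (by linarith)]; linarith
    calc (qq Q / L) ^ k ≤ (qq Q / L) ^ 1 := pow_le_pow_of_le_one (by positivity) h4 hk1
      _ = qq Q / L := pow_one _
  have hhalf : qq Q / L ≤ 1 / 2 := by
    rw [div_le_iff₀ (by linarith)]
    linarith
  have h3 : Real.exp (-((1 + 2 * (qq Q / L)) * ∑ n ∈ Ico y (y + w), ∏ m ∈ tl n H, level Q m)) ≤
      ∏ n ∈ Ico y (y + w), (1 - ∏ m ∈ tl n H, level Q m) := by
    rw [mul_sum, ← sum_neg_distrib, Real.exp_sum]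
    apply Finset.prod_le_prod (fun n _ => (Real.exp_pos _).le)
    intro n hn
    obtain ⟨h4, h5⟩ := hsm n hn
    refine le_trans ?_ (Pool.Agent.Q120.TD.one_sub_ge h4 (h5.trans hhalf))
    rw [Real.exp_le_exp]
    nlinarith
  refine le_trans ?_ h3
  have hup := sum_tuple_le (Q := Q) hQ (H := H) (x := (x : ℝ)) (by rw [← hL]; linarith) hx0 (a := y) (w := w) hxy'
  rw [← hL, ← hSd, ← hk] at hup
  rw [Real.rpow_def_of_pos hx0, Real.exp_le_exp, ← hL]
  have e1 : ((w : ℝ) + Q) * S / L ^ k ≤ (1 - ε) * L + (Q : ℝ) * S := by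
    rw [div_le_iff₀ (by positivity)]
    rw [le_div_iff₀ hS] at hw1
    have e2 : (1 : ℝ) ≤ L ^ k := one_le_pow₀ hL1
    have e3 : (Q : ℝ) * S ≤ (Q : ℝ) * S * L ^ k := le_mul_of_one_le_right (by positivity) e2
    calc ((w : ℝ) + Q) * S = (w : ℝ) * S + Q * S := by ring
      _ ≤ (1 - ε) * L ^ (k + 1) + (Q : ℝ) * S * L ^ k := add_le_add hw1 e3
      _ = ((1 - ε) * L + (Q : ℝ) * S) * L ^ k := by ring
  have e2 : (1 + 2 * (qq Q / L)) * ((1 - ε) * L + (Q : ℝ) * S) ≤ (1 - ε / 2) * L := by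
    have e3 : 2 * (qq Q / L) * ((1 - ε) * L) ≤ 2 * qq Q := by
      have : 2 * (qq Q / L) * ((1 - ε) * L) = 2 * qq Q * (1 - ε) := by field_simp
      rw [this]
      nlinarith
    have e4 : 2 * (qq Q / L) * ((Q : ℝ) * S) ≤ (Q : ℝ) * S := by
      have e5 : 2 * (qq Q / L) ≤ 1 := by linarith
      have e6 : 0 ≤ (Q : ℝ) * S := by positivity
      nlinarith
    have e5 : 2 * qq Q ≤ ε / 8 * L := by
      have e6 : ε / 8 * (16 * qq Q / ε) = 2 * qq Q := by field_simp; norm_num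
      rw [← e6]
      apply mul_le_mul_of_nonneg_left _ (by positivity)
      linarith
    have e6 : 2 * (Q : ℝ) * S ≤ ε / 8 * L := by
      have e7 : ε / 8 * ((2 * (Q : ℝ)) * S * 8 / ε) = 2 * (Q : ℝ) * S := by field_simp
      rw [← e7]
      apply mul_le_mul_of_nonneg_left _ (by positivity)
      linarith
    nlinarith
  have e3 : 0 ≤ ∑ n ∈ Ico y (y + w), ∏ m ∈ tl n H, level Q m := sum_nonneg (fun n hn => (hsm n hn).1)
  have e4 : 0 ≤ 1 + 2 * (qq Q / L) := by positivity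
  have e5 := mul_le_mul_of_nonneg_left (hup.trans e1) e4
  linarith

/-- **Lower bound for the maximal gap.** -/
theorem gap_lower (hA : IsModel μ (level Q) A) (hQ : 1 ≤ Q) (hH : H.Nonempty) (hS : 0 < sing Q H) {ε : ℝ}
    (hε : 0 < ε) (hε1 : ε < 1) :
    ∀ᵐ ω ∂μ, ∀ᶠ x : ℕ in atTop, ∃ y : ℕ, x ≤ y ∧ y ≤ 2 * x ∧ ∀ n : ℕ, y < n →
      (n : ℝ) ≤ y + (1 - ε) * Real.log y ^ (H.card + 1) / sing Q H → ¬ Occ (A ω) H n := by
  classical
  obtain ⟨k, hk⟩ : ∃ k, k = H.card := ⟨_, rfl⟩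
  obtain ⟨S, hSd⟩ : ∃ S, S = sing Q H := ⟨_, rfl⟩
  have hε2 : 0 < ε / 2 := by linarith
  obtain ⟨D, hD⟩ : ∃ D, D = H.sup id := ⟨_, rfl⟩
  obtain ⟨st, hst⟩ : ∃ st : ℕ → ℕ, st = fun (x : ℕ) => wn (1 - ε / 2) Q H x + D + 1 := ⟨_, rfl⟩
  obtain ⟨E, hE⟩ : ∃ E : ℕ → ℕ → Set Ω, E = fun (x i : ℕ) =>
    none A (Ico (x + i * st x + 1) (x + i * st x + 1 + wn (1 - ε / 2) Q H x)) (fun n => tl n H) := ⟨_, rfl⟩
  obtain ⟨B, hB⟩ : ∃ B : ℕ → Set Ω, B = fun (x : ℕ) => ⋂ i ∈ range (x / st x), (E x i)ᶜ := ⟨_, rfl⟩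
  have hs : Summable (fun x : ℕ => (x : ℝ) ^ (-(2 : ℝ))) := Real.summable_nat_rpow.2 (by norm_num)
  have hbound : ∀ᶠ x : ℕ in atTop, μ.real (B x) ≤ (x : ℝ) ^ (-(2 : ℝ)) := by
    have h1 := le_prob_gap hA hQ hH hS hε2 (by linarith)
    have h2 := ev_power (6 * (1 / S + D + 1)) (k + 2) (show 0 < ε / 4 by linarith)
    filter_upwards [h1, h2, hl.eventually_ge_atTop 1, eventually_ge_atTop 3] with x h1 h2 hL1 hx3
    have hx0 : (0 : ℝ) < x := by
      have : (3 : ℝ) ≤ x := by exact_mod_cast hx3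
      linarith
    obtain ⟨s, hsd⟩ : ∃ s, s = st x := ⟨_, rfl⟩
    have hs1 : s = wn (1 - ε / 2) Q H x + D + 1 := by rw [hsd, hst]
    have hdis : ∀ i ∈ range (x / s), ∀ j ∈ range (x / s), i ≠ j →
        Disjoint (Set.Ico (x + i * s + 1) (x + (i + 1) * s + 1)) (Set.Ico (x + j * s + 1) (x + (j + 1) * s + 1)) := by
      intro i _ j _ hij
      rw [Set.disjoint_left]
      intro n hn hn'
      rw [Set.mem_Ico] at hn hn'
      rcases Nat.lt_or_gt_of_ne hij with h | h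
      · have : (i + 1) * s ≤ j * s := Nat.mul_le_mul_right s h
        omega
      · have : (j + 1) * s ≤ i * s := Nat.mul_le_mul_right s h
        omega
    have hmeas : ∀ i ∈ range (x / s), MeasurableSet[F A (Set.Ico (x + i * s + 1) (x + (i + 1) * s + 1))] ((E x i)ᶜ) := by
      intro i _
      apply MeasurableSet.compl
      rw [hE]
      refine F_none (fun n hn m hm => ?_)
      rw [mem_Ico] at hn
      rw [mem_tl] at hm
      obtain ⟨h, hh, rfl⟩ := hm
      have h4 : h ≤ D := by rw [hD]; exact Finset.le_sup (f := id) hh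
      rw [Set.mem_Ico]
      have e1 : (i + 1) * s = i * s + s := by ring
      rw [← hsd] at hn
      omega
    have hprod : μ.real (B x) = ∏ i ∈ range (x / s), μ.real ((E x i)ᶜ) := by
      rw [hB, hsd]
      rw [hsd] at hdis hmeas
      exact indep_many hA (range (x / st x)) (fun i => Set.Ico (x + i * st x + 1) (x + (i + 1) * st x + 1)) hdis
        (fun i => (E x i)ᶜ) hmeas
    obtain ⟨t, ht⟩ : ∃ t : ℝ, t = (x : ℝ) ^ (-(1 - ε / 2 / 2)) := ⟨_, rfl⟩
    have hfac : ∀ i ∈ range (x / s), μ.real ((E x i)ᶜ) ≤ Real.exp (-t) := by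
      intro i _
      have e1 : MeasurableSet (E x i) := by rw [hE]; exact meas_none hA _ _
      rw [measureReal_compl e1, probReal_univ]
      have e2 := h1 (x + i * st x + 1) (by omega)
      have e3 : t ≤ μ.real (E x i) := by
        rw [ht, hE]
        exact e2
      have e4 := Real.add_one_le_exp (-t)
      linarith
    rw [hprod]
    refine (Finset.prod_le_prod (fun i _ => measureReal_nonneg) hfac).trans ?_
    rw [prod_const, card_range, ← Real.exp_nat_mul, Real.rpow_def_of_pos hx0, Real.exp_le_exp]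
    -- the numerical estimate
    have hS0 : 0 < S := by rw [hSd]; exact hS
    have hsle : (s : ℝ) ≤ (1 / S + D + 1) * Real.log x ^ (k + 1) := by
      have e1 : (wn (1 - ε / 2) Q H x : ℝ) ≤ (1 - ε / 2) * Real.log x ^ (k + 1) / S := by
        rw [hk, hSd]
        refine Nat.floor_le ?_
        have : 0 ≤ 1 - ε / 2 := by linarith
        positivity
      have e2 : (1 : ℝ) ≤ Real.log x ^ (k + 1) := one_le_pow₀ hL1
      have e3 : (1 - ε / 2) * Real.log x ^ (k + 1) / S ≤ 1 / S * Real.log x ^ (k + 1) := by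
        rw [mul_div_assoc, one_div, ← div_eq_inv_mul]
        have : 0 ≤ Real.log x ^ (k + 1) / S := by positivity
        nlinarith
      have e4 : (D : ℝ) + 1 ≤ (D + 1) * Real.log x ^ (k + 1) := le_mul_of_one_le_right (by positivity) e2
      rw [hs1]
      push_cast
      nlinarith
    have hs0 : (0 : ℝ) < s := by
      have : 0 < s := by omega
      exact_mod_cast this
    have hM : (x : ℝ) / s - 1 ≤ ((x / s : ℕ) : ℝ) := by
      have := Nat.lt_div_mul_add (a := x) (b := s) (by omega)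
      have h5 : (x : ℝ) < ((x / s * s + s : ℕ) : ℝ) := by exact_mod_cast this
      push_cast at h5
      rw [sub_le_iff_le_add, div_le_iff₀ hs0]
      linarith
    have ht1 : t ≤ 1 := by
      rw [ht]
      apply Real.rpow_le_one_of_one_le_of_nonpos
      · exact_mod_cast (by omega : 1 ≤ x)
      · linarith
    have ht0 : 0 < t := by rw [ht]; positivity
    have hxt : (x : ℝ) * t = (x : ℝ) ^ (ε / 4) := by
      rw [ht]
      nth_rewrite 1 [← Real.rpow_one (x : ℝ)]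
      rw [← Real.rpow_add hx0]
      congr 1
      ring
    have e1 : 3 * Real.log x ≤ (x : ℝ) / s * t := by
      rw [div_mul_eq_mul_div, hxt, le_div_iff₀ hs0]
      refine le_trans ?_ h2
      have e2 : 3 * Real.log (x : ℝ) * s ≤ 3 * Real.log x * ((1 / S + D + 1) * Real.log x ^ (k + 1)) :=
        mul_le_mul_of_nonneg_left hsle (by positivity)
      refine e2.trans ?_
      have e3 : 3 * Real.log x * ((1 / S + D + 1) * Real.log x ^ (k + 1)) = 3 * (1 / S + D + 1) * Real.log x ^ (k + 2) := by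
        ring
      rw [e3]
      have e4 : (0 : ℝ) ≤ (1 / S + D + 1) * Real.log x ^ (k + 2) := by positivity
      linarith
    have e2 : ((x : ℝ) / s - 1) * t ≤ ((x / s : ℕ) : ℝ) * t := mul_le_mul_of_nonneg_right hM ht0.le
    nlinarith
  have hr := ((ratio (k + 1)).const_mul (1 - ε / 2)).eventually_const_le
    (show 1 - 3 * ε / 4 < (1 - ε / 2) * 1 by linarith)
  have hlarge := (tendsto_pow_atTop (α := ℝ) (n := k + 1) (by omega)).comp hl
  filter_upwards [bc hs hbound] with ω hω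
  filter_upwards [hω, hr, hlarge.eventually_ge_atTop (4 * S / ε), eventually_ge_atTop 3,
    hl.eventually_ge_atTop 1] with x hx hr hlg hx3 hL1
  rw [hB] at hx
  have hx' : ¬ ∀ i ∈ range (x / st x), ω ∈ (E x i)ᶜ := by
    intro hcon
    exact hx (Set.mem_iInter₂.2 hcon)
  push Not at hx'
  obtain ⟨i, hi, h1⟩ := hx'
  rw [Set.mem_compl_iff, not_not, hE] at h1
  rw [mem_range] at hi
  have hx0 : (0 : ℝ) < x := by
    have : (3 : ℝ) ≤ x := by exact_mod_cast hx3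
    linarith
  have hle : x + i * st x ≤ 2 * x := by
    have e1 : i * st x ≤ x / st x * st x := Nat.mul_le_mul_right _ hi.le
    have e2 := Nat.div_mul_le_self x (st x)
    omega
  refine ⟨x + i * st x, by omega, hle, fun n hn1 hn2 hocc => ?_⟩
  have h2 : n < x + i * st x + 1 + wn (1 - ε / 2) Q H x := by
    obtain ⟨y, hy⟩ : ∃ y : ℕ, y = x + i * st x := ⟨_, rfl⟩
    rw [← hy] at hn2 hle ⊢
    obtain ⟨w, hw⟩ : ∃ w, w = wn (1 - ε / 2) Q H x := ⟨_, rfl⟩
    rw [← hw]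
    have hw2 : (1 - ε / 2) * Real.log x ^ (k + 1) / S < w + 1 := by
      rw [hw, hk, hSd]
      exact Nat.lt_floor_add_one _
    have hy2 : (y : ℝ) ≤ 2 * x := by exact_mod_cast hle
    have hy1 : (1 : ℝ) ≤ y := by
      have : 1 ≤ y := by omega
      exact_mod_cast this
    have e1 : Real.log (y : ℝ) ≤ Real.log (2 * x) := Real.log_le_log (by linarith) hy2
    have e2 : 0 ≤ Real.log (y : ℝ) := Real.log_nonneg hy1
    have hL20 : 0 < Real.log (2 * (x : ℝ)) := by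
      have := Real.log_le_log hx0 (show (x : ℝ) ≤ 2 * x by linarith)
      linarith
    have e3 : Real.log (y : ℝ) ^ (k + 1) ≤ Real.log (2 * x) ^ (k + 1) := pow_le_pow_left₀ e2 e1 _
    have hS0 : 0 < S := by rw [hSd]; exact hS
    -- `(1 - ε) log(2x)^(k+1) ≤ (1 - ε/2) log x^(k+1) - S`
    have e4 : (1 - 3 * ε / 4) * Real.log (2 * x) ^ (k + 1) ≤ (1 - ε / 2) * Real.log x ^ (k + 1) := by
      rw [div_pow, ← mul_div_assoc, le_div_iff₀ (by positivity)] at hr
      exact hr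
    have e5 : S ≤ ε / 4 * Real.log (2 * x) ^ (k + 1) := by
      have e6 : Real.log (x : ℝ) ^ (k + 1) ≤ Real.log (2 * x) ^ (k + 1) :=
        pow_le_pow_left₀ (by linarith) (Real.log_le_log hx0 (by linarith)) _
      have e7 : 4 * S / ε ≤ Real.log (x : ℝ) ^ (k + 1) := hlg
      rw [div_le_iff₀ hε] at e7
      nlinarith
    have e6 : (1 - ε) * Real.log y ^ (k + 1) / S < w := by
      rw [div_lt_iff₀ hS0] at hw2 ⊢
      have e7 : (1 - ε) * Real.log y ^ (k + 1) ≤ (1 - ε) * Real.log (2 * x) ^ (k + 1) :=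
        mul_le_mul_of_nonneg_left e3 (by linarith)
      nlinarith
    rw [← hk, ← hSd] at hn2
    have e7 : (n : ℝ) < y + w := by linarith
    have e8 : n < y + w := by exact_mod_cast e7
    omega
  exact h1 n (mem_Ico.2 ⟨by omega, h2⟩) ((occ_iff n ω).1 hocc)

end Pool.Agent.Q120.GM
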