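import Pool.Agent.Q120.GM.APCount

/-!
# Many prime moduli with a late class
-/

set_option autoImplicit false

namespace Pool.Agent.Q120.GM

open Finset MeasureTheory ProbabilityTheory Filter Pool.Agent.Q120.AD
open scoped Topology

variable {Ω : Type*} [MeasurableSpace Ω] {μ : Measure Ω} [IsProbabilityMeasure μ] {A : Ω → Set ℕ} {Q : ℕ}

/-- The primes in `(2^k/8, 2^k]`. -/
def pk (k : ℕ) : Finset ℕ := (range (2 ^ k + 1)).filter (fun p => p.Prime ∧ 2 ^ k < 8 * p)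

theorem mem_pk {k p : ℕ} : p ∈ pk k ↔ p ≤ 2 ^ k ∧ p.Prime ∧ 2 ^ k < 8 * p := by
  unfold pk
  rw [mem_filter, mem_range, Nat.lt_succ_iff]

theorem ev_pk {R : ℕ → Prop} (h : ∀ᶠ d : ℕ in atTop, R d) : ∀ᶠ k : ℕ in atTop, ∀ p ∈ pk k, R p := by
  obtain ⟨N, hN⟩ := eventually_atTop.1 h
  filter_upwards [two_pow_tendsto.eventually_ge_atTop (8 * N)] with k hk p hp
  rw [mem_pk] at hp
  exact hN p (by omega)

theorem card_pk : ∀ᶠ k : ℕ in atTop, (2 : ℝ) ^ k / 2 ≤ (pk k).card * Real.log ((2 : ℝ) ^ k) := by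
  have h1 : ∀ᶠ x : ℕ in atTop, Real.log ((x : ℝ) + 1) + 2 * √x * Real.log x ≤ x / 100 := by
    have g1 := ev_power 400 1 (show (0 : ℝ) < 1 / 2 by norm_num)
    filter_upwards [g1, hl.eventually_ge_atTop 1, eventually_ge_atTop 1] with x e1 e2 hx1
    have hx0 : (1 : ℝ) ≤ x := by exact_mod_cast hx1
    rw [pow_one, ← Real.sqrt_eq_rpow] at e1
    have e3 : √(x : ℝ) * √x = x := Real.mul_self_sqrt (by linarith)
    have e4 : 0 ≤ √(x : ℝ) := Real.sqrt_nonneg _
    have e5 : 1 ≤ √(x : ℝ) := by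
      rw [Real.one_le_sqrt]
      exact hx0
    have e6 : Real.log ((x : ℝ) + 1) ≤ 2 * Real.log x := by
      have : Real.log ((x : ℝ) + 1) ≤ Real.log (x * 2) := Real.log_le_log (by linarith) (by linarith)
      rw [Real.log_mul (by linarith) (by norm_num)] at this
      have := Real.log_two_lt_d9
      linarith
    nlinarith
  filter_upwards [two_pow_tendsto.eventually h1, eventually_ge_atTop 3] with k h2 hk
  obtain ⟨j, rfl⟩ : ∃ j, k = j + 3 := ⟨k - 3, by omega⟩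
  have h3 := Chebyshev.theta_ge (2 ^ (j + 3))
  have h4 := Chebyshev.theta_le_log4_mul_x (x := ((2 ^ j : ℕ) : ℝ)) (by positivity)
  rw [Chebyshev.theta_eq_sum_primesLE_log] at h3 h4
  have h5 : ∑ p ∈ Nat.primesLE (2 ^ (j + 3)), Real.log p ≤
      (∑ p ∈ Nat.primesLE (2 ^ j), Real.log p) + ∑ p ∈ pk (j + 3), Real.log p := by
    have e1 : Nat.primesLE (2 ^ (j + 3)) ⊆ Nat.primesLE (2 ^ j) ∪ pk (j + 3) := by
      intro p hp
      rw [Nat.primesLE_eq_filter_range, mem_filter, mem_range] at hp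
      rw [mem_union, Nat.primesLE_eq_filter_range, mem_filter, mem_range, mem_pk]
      have e2 : 2 ^ (j + 3) = 8 * 2 ^ j := by ring
      by_cases h6 : p ≤ 2 ^ j
      · exact Or.inl ⟨by omega, hp.2⟩
      · exact Or.inr ⟨by omega, hp.2, by omega⟩
    have e3 : ∀ p : ℕ, 0 ≤ Real.log (p : ℝ) := fun p => Real.log_natCast_nonneg p
    refine (sum_le_sum_of_subset_of_nonneg e1 (fun p _ _ => e3 p)).trans ?_
    have h6 := sum_union_inter (s₁ := Nat.primesLE (2 ^ j)) (s₂ := pk (j + 3)) (f := fun p : ℕ => Real.log (p : ℝ))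
    have h7 : 0 ≤ ∑ p ∈ Nat.primesLE (2 ^ j) ∩ pk (j + 3), Real.log (p : ℝ) := sum_nonneg (fun p _ => e3 p)
    linarith
  have h6 : ∑ p ∈ pk (j + 3), Real.log (p : ℝ) ≤ (pk (j + 3)).card * Real.log ((2 : ℝ) ^ (j + 3)) := by
    rw [← nsmul_eq_mul]
    refine Finset.sum_le_card_nsmul _ _ _ (fun p hp => ?_)
    rw [mem_pk] at hp
    have hp0 : (0 : ℝ) < p := by exact_mod_cast hp.2.1.pos
    refine Real.log_le_log hp0 ?_
    exact_mod_cast hp.1
  refine le_trans ?_ h6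
  have h7 : (2 : ℝ) ^ (j + 3) = 8 * 2 ^ j := by ring
  push_cast at h2 h3 h4
  have h8 : Real.log 4 = 2 * Real.log 2 := by
    rw [show (4 : ℝ) = 2 ^ 2 by norm_num, Real.log_pow]
    norm_num
  have h9 := Real.log_two_gt_d9
  rw [h8] at h4
  have h10 : (0 : ℝ) < 2 ^ j := by positivity
  rw [h7] at h2 h3 ⊢
  nlinarith

/-- **(D): many prime moduli with a late class.** -/
theorem le_primes (hA : IsModel μ (level Q) A) (hQ : 1 ≤ Q) {c δ : ℝ} (hc : 1 < c) (hc2 : c < 2) (hδ : 0 < δ) :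
    ∀ᵐ ω ∂μ, ∀ᶠ x : ℕ in atTop,
      (x : ℝ) ^ (2 - c - δ) ≤ num ((range (x + 1)).filter Nat.Prime) (fun d => {ω | Bad (A ω) c Q d}) ω := by
  have hQ0 : (0 : ℝ) < Q := by exact_mod_cast hQ
  obtain ⟨κ, hκ⟩ : ∃ κ, κ = min (min (c - 1) (2 - c)) (min δ 1) / 20 := ⟨_, rfl⟩
  have hm : 0 < min (min (c - 1) (2 - c)) (min δ 1) :=
    lt_min (lt_min (by linarith) (by linarith)) (lt_min hδ one_pos)
  have hm1 : min (min (c - 1) (2 - c)) (min δ 1) ≤ c - 1 := (min_le_left _ _).trans (min_le_left _ _)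
  have hm2 : min (min (c - 1) (2 - c)) (min δ 1) ≤ 2 - c := (min_le_left _ _).trans (min_le_right _ _)
  have hm3 : min (min (c - 1) (2 - c)) (min δ 1) ≤ δ := (min_le_right _ _).trans (min_le_left _ _)
  have hm4 : min (min (c - 1) (2 - c)) (min δ 1) ≤ 1 := (min_le_right _ _).trans (min_le_right _ _)
  have hκ0 : 0 < κ := by rw [hκ]; linarith
  have hκ1 : 20 * κ ≤ c - 1 := by rw [hκ]; linarith
  have hκ2 : 20 * κ ≤ 2 - c := by rw [hκ]; linarith
  have hκ3 : 20 * κ ≤ δ := by rw [hκ]; linarith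
  have hκ4 : 20 * κ ≤ 1 := by rw [hκ]; linarith
  -- the estimates for a single modulus
  have k1 := ev_pk (prob_le hA hQ (show 0 < c by linarith) hκ0 (by linarith))
  have k2 := ev_pk (le_prob hA hQ (show 0 < c by linarith) hκ0)
  have k3 := ev_pk (card_up hQ)
  have k4 : ∀ᶠ k : ℕ in atTop, (8 : ℝ) ^ (c - κ) ≤ ((2 : ℝ) ^ k) ^ κ := by
    have := (tendsto_rpow_atTop hκ0).comp tendsto_natCast_atTop_atTop
    have h1 := two_pow_tendsto.eventually (this.eventually_ge_atTop ((8 : ℝ) ^ (c - κ)))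
    filter_upwards [h1] with k hk
    simpa using hk
  have k5 : ∀ᶠ k : ℕ in atTop, 32 * (Q : ℝ) + 8 ≤ ((2 : ℝ) ^ k) ^ κ := by
    have := (tendsto_rpow_atTop hκ0).comp tendsto_natCast_atTop_atTop
    have h1 := two_pow_tendsto.eventually (this.eventually_ge_atTop (32 * (Q : ℝ) + 8))
    filter_upwards [h1] with k hk
    simpa using hk
  have k6 : ∀ᶠ k : ℕ in atTop, (c * Q + 3) * Real.log ((2 : ℝ) ^ k) ^ 2 ≤ ((2 : ℝ) ^ k) ^ κ := by
    have h1 := two_pow_tendsto.eventually (ev_power (c * Q + 3) 2 hκ0)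
    filter_upwards [h1] with k hk
    simpa using hk
  have k7 : ∀ᶠ k : ℕ in atTop, 4 * Real.log ((2 : ℝ) ^ k) ^ 1 ≤ ((2 : ℝ) ^ k) ^ κ := by
    have h1 := two_pow_tendsto.eventually (ev_power 4 1 hκ0)
    filter_upwards [h1] with k hk
    simpa using hk
  have k8 : ∀ᶠ k : ℕ in atTop, 1 ≤ Real.log ((2 : ℝ) ^ k) := by
    have h1 := two_pow_tendsto.eventually (hl.eventually_ge_atTop 1)
    filter_upwards [h1] with k hk
    simpa using hk
  -- bounds at level k
  have base : ∀ᶠ k : ℕ in atTop, ∀ l ∈ pk k,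
      (∀ a ∈ up Q l, μ.real (free A (cls a l (mc c Q a l))) ≤ ((2 : ℝ) ^ k) ^ (-(c - 2 * κ))) ∧
      lsum μ A c Q l ≤ ((2 : ℝ) ^ k) ^ (-(2 * κ)) ∧
      ((2 : ℝ) ^ k) ^ (1 - c - 2 * κ) ≤ lsum μ A c Q l := by
    filter_upwards [k1, k2, k3, k4, k5] with k h1 h2 h3 h4 h5 l hl
    obtain ⟨D, hD⟩ : ∃ D : ℝ, D = (2 : ℝ) ^ k := ⟨_, rfl⟩
    rw [← hD] at h4 h5 ⊢
    have hD0 : 0 < D := by rw [hD]; positivity
    have hD1 : 1 ≤ D := by rw [hD]; exact one_le_pow₀ (by norm_num)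
    have hl' := mem_pk.1 hl
    have hlp : (0 : ℝ) < l := by exact_mod_cast hl'.2.1.pos
    have hlD : (l : ℝ) ≤ D := by rw [hD]; exact_mod_cast hl'.1
    have hDl : D / 8 ≤ l := by
      have : (((2 ^ k : ℕ)) : ℝ) ≤ ((8 * l : ℕ) : ℝ) := by exact_mod_cast hl'.2.2.le
      push_cast at this
      rw [hD]
      linarith
    have e1 : ∀ a ∈ up Q l, μ.real (free A (cls a l (mc c Q a l))) ≤ D ^ (-(c - 2 * κ)) := by
      intro a ha
      refine (h1 l hl a (mem_up.1 ha).2.1 (mem_up.1 ha).2.2).trans ?_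
      refine (Real.rpow_le_rpow_of_nonpos (by positivity) hDl (by linarith)).trans ?_
      rw [Real.div_rpow hD0.le (by norm_num), Real.rpow_neg (by norm_num : (0 : ℝ) ≤ 8), div_inv_eq_mul]
      have e2 : D ^ (-(c - 2 * κ)) = D ^ (-(c - κ)) * D ^ κ := by
        rw [← Real.rpow_add hD0]
        congr 1
        ring
      rw [e2]
      exact mul_le_mul_of_nonneg_left h4 (by positivity)
    refine ⟨e1, ?_, ?_⟩
    · have e2 : lsum μ A c Q l ≤ (up Q l).card * D ^ (-(c - 2 * κ)) := by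
        unfold lsum
        rw [← nsmul_eq_mul]
        exact Finset.sum_le_card_nsmul _ _ _ e1
      have e3 : ((up Q l).card : ℝ) ≤ D := by
        have : (up Q l).card ≤ l := by
          have e4 : up Q l ⊆ range l := fun a ha => mem_range.2 (mem_up.1 ha).2.1
          have e5 := card_le_card e4
          rw [card_range] at e5
          exact e5
        have : ((up Q l).card : ℝ) ≤ l := by exact_mod_cast this
        linarith
      refine e2.trans ((mul_le_mul_of_nonneg_right e3 (by positivity)).trans ?_)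
      nth_rewrite 1 [← Real.rpow_one D]
      rw [← Real.rpow_add hD0]
      exact Real.rpow_le_rpow_of_exponent_le hD1 (by linarith)
    · have e2 : ((up Q l).card : ℝ) * D ^ (-(c + κ)) ≤ lsum μ A c Q l := by
        unfold lsum
        rw [← nsmul_eq_mul]
        refine Finset.card_nsmul_le_sum _ _ _ (fun a ha => ?_)
        refine le_trans ?_ (h2 l hl a (up_half ha) (mem_up.1 ha).2.2)
        exact Real.rpow_le_rpow_of_nonpos hlp hlD (by linarith)
      refine le_trans ?_ e2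
      have e3 : D ^ (1 - κ) ≤ (up Q l).card := by
        refine le_trans ?_ (h3 l hl)
        rw [le_div_iff₀ (by positivity)]
        have e4 : D = D ^ (1 - κ) * D ^ κ := by
          rw [← Real.rpow_add hD0, sub_add_cancel, Real.rpow_one]
        have e5 : D ^ (1 - κ) * (32 * Q + 8) ≤ D ^ (1 - κ) * D ^ κ := mul_le_mul_of_nonneg_left h5 (by positivity)
        rw [← e4] at e5
        have e6 : 0 < D ^ (1 - κ) := by positivity
        nlinarith
      have e4 : D ^ (1 - c - 2 * κ) = D ^ (1 - κ) * D ^ (-(c + κ)) := by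
        rw [← Real.rpow_add hD0]
        congr 1
        ring
      rw [e4]
      exact mul_le_mul_of_nonneg_right e3 (by positivity)
  have hτ : ∀ᶠ k : ℕ in atTop, 8 * ((2 : ℝ) ^ k) ^ (-(2 * κ)) ≤ ((2 : ℝ) ^ k) ^ (-κ) ∧ ((2 : ℝ) ^ k) ^ (-(2 * κ)) ≤ 1 / 4 := by
    filter_upwards [k5] with k h5
    obtain ⟨D, hD⟩ : ∃ D : ℝ, D = (2 : ℝ) ^ k := ⟨_, rfl⟩
    rw [← hD] at h5 ⊢
    have hD0 : 0 < D := by rw [hD]; positivity
    have e1 : D ^ (-(2 * κ)) * D ^ κ = D ^ (-κ) := by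
      rw [← Real.rpow_add hD0]
      congr 1
      ring
    have e2 : D ^ (-κ) * D ^ κ = 1 := by rw [← Real.rpow_add hD0, neg_add_cancel, Real.rpow_zero]
    have e3 : 0 < D ^ (-(2 * κ)) := by positivity
    have e4 : 0 < D ^ (-κ) := by positivity
    have e5 : 8 ≤ D ^ κ := by linarith
    have e6 : D ^ (-κ) ≤ 1 / 8 := by nlinarith
    refine ⟨by nlinarith, ?_⟩
    nlinarith
  -- the lower bound for the probabilities
  have low : ∀ᶠ k : ℕ in atTop, ∀ l ∈ pk k, lsum μ A c Q l * (1 - ((2 : ℝ) ^ k) ^ (-(2 * κ))) ≤ μ.real (late A c Q l) := by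
    filter_upwards [base] with k h1 l hl
    refine le_trans ?_ (le_late hA c l)
    refine mul_le_mul_of_nonneg_left ?_ (sum_nonneg (fun _ _ => measureReal_nonneg))
    linarith [(h1 l hl).2.1]
  have hS : ∀ᶠ k : ℕ in atTop, ((2 : ℝ) ^ k) ^ (2 - c - 4 * κ) ≤ ∑ d ∈ pk k, μ.real (late A c Q d) := by
    filter_upwards [base, low, hτ, card_pk, k7, k8] with k h1 h2 h3 h4 h5 h6
    obtain ⟨D, hD⟩ : ∃ D : ℝ, D = (2 : ℝ) ^ k := ⟨_, rfl⟩
    rw [← hD] at h1 h2 h3 h4 h5 h6 ⊢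
    have hD0 : 0 < D := by rw [hD]; positivity
    have e1 : ((pk k).card : ℝ) * (D ^ (1 - c - 2 * κ) / 2) ≤ ∑ d ∈ pk k, μ.real (late A c Q d) := by
      rw [← nsmul_eq_mul]
      refine Finset.card_nsmul_le_sum _ _ _ (fun l hl => ?_)
      refine le_trans ?_ (h2 l hl)
      have e2 := (h1 l hl).2.2
      have e3 : 0 < D ^ (1 - c - 2 * κ) := by positivity
      nlinarith [h3.2]
    refine le_trans ?_ e1
    have e2 : 2 * D ^ (1 - κ) ≤ (pk k).card := by
      have e3 : D = D ^ (1 - κ) * D ^ κ := by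
        rw [← Real.rpow_add hD0, sub_add_cancel, Real.rpow_one]
      rw [pow_one] at h5
      have e4 : D ^ (1 - κ) * (4 * Real.log D) ≤ D ^ (1 - κ) * D ^ κ := mul_le_mul_of_nonneg_left h5 (by positivity)
      rw [← e3] at e4
      have e5 : (2 * D ^ (1 - κ)) * Real.log D ≤ (pk k).card * Real.log D := by linarith
      exact le_of_mul_le_mul_right e5 (by linarith)
    have e3 : D ^ (2 - c - 4 * κ) ≤ D ^ (1 - κ) * D ^ (1 - c - 2 * κ) := by
      rw [← Real.rpow_add hD0]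
      exact Real.rpow_le_rpow_of_exponent_le (by rw [hD]; exact one_le_pow₀ (by norm_num)) (by linarith)
    have e4 : 0 < D ^ (1 - c - 2 * κ) := by positivity
    nlinarith
  have hc' : ∀ᶠ k : ℕ in atTop, ∀ i ∈ pk k, ∀ j ∈ pk k, i ≠ j →
      μ.real (late A c Q i ∩ late A c Q j) ≤ (1 + ((2 : ℝ) ^ k) ^ (-κ)) * (μ.real (late A c Q i) * μ.real (late A c Q j)) := by
    have kp := ev_pk (hl.eventually_ge_atTop (2 * qq Q + 2))
    have kp1 := ev_pk (hl.eventually_ge_atTop 1)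
    have k9 : ∀ᶠ k : ℕ in atTop, (8 : ℝ) * ((2 : ℝ) ^ k) ^ κ ≤ (2 : ℝ) ^ k := by
      filter_upwards [k5] with k h5
      obtain ⟨D, hD⟩ : ∃ D : ℝ, D = (2 : ℝ) ^ k := ⟨_, rfl⟩
      rw [← hD] at h5 ⊢
      have hD0 : 0 < D := by rw [hD]; positivity
      have hD1 : 1 ≤ D := by rw [hD]; exact one_le_pow₀ (by norm_num)
      have e1 : D ^ κ * D ^ κ ≤ D := by
        rw [← Real.rpow_add hD0]
        nth_rewrite 2 [← Real.rpow_one D]
        exact Real.rpow_le_rpow_of_exponent_le hD1 (by linarith)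
      have e2 : 0 < D ^ κ := by positivity
      nlinarith
    filter_upwards [base, low, hτ, k6, k8, kp, k9, kp1] with k h1 h2 h3 h4 h5 h6 h7 h8 i hi j hj hij
    obtain ⟨D, hD⟩ : ∃ D : ℝ, D = (2 : ℝ) ^ k := ⟨_, rfl⟩
    rw [← hD] at h1 h2 h3 h4 h5 h7 ⊢
    have hD0 : 0 < D := by rw [hD]; positivity
    have hD1 : 1 ≤ D := by rw [hD]; exact one_le_pow₀ (by norm_num)
    have hi' := mem_pk.1 hi
    have hj' := mem_pk.1 hj
    have hco : i.Coprime j := (Nat.coprime_primes hi'.2.1 hj'.2.1).2 hij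
    have hiD : (i : ℝ) ≤ D := by rw [hD]; exact_mod_cast hi'.1
    have hip : (0 : ℝ) < i := by exact_mod_cast hi'.2.1.pos
    have hDj : D / 8 ≤ j := by
      have : (((2 ^ k : ℕ)) : ℝ) ≤ ((8 * j : ℕ) : ℝ) := by exact_mod_cast hj'.2.2.le
      push_cast at this
      rw [hD]
      linarith
    have hlogi : Real.log i ≤ Real.log D := Real.log_le_log hip hiD
    obtain ⟨R, hR⟩ : ∃ R : ℕ, R = ⌊c * Q * Real.log i ^ 2⌋₊ + 1 := ⟨_, rfl⟩
    have hR1 : ∀ a ∈ up Q i, mc c Q a i + 1 ≤ R := by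
      intro a ha
      rw [hR]
      have := mc_le (κ := c) (by linarith) hQ (mem_up.1 ha).2.2
      have := Nat.le_floor this
      omega
    have hR2 : (R : ℝ) ≤ D ^ κ := by
      rw [hR]
      push_cast
      have e1 : (⌊c * Q * Real.log i ^ 2⌋₊ : ℝ) ≤ c * Q * Real.log i ^ 2 := Nat.floor_le (by positivity)
      have e2 : Real.log (i : ℝ) ^ 2 ≤ Real.log D ^ 2 := by
        have := h8 i hi
        nlinarith
      have e3 : c * Q * Real.log i ^ 2 ≤ c * Q * Real.log D ^ 2 := mul_le_mul_of_nonneg_left e2 (by positivity)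
      have e4 : 1 ≤ Real.log D ^ 2 := one_le_pow₀ h5
      nlinarith
    have hR3 : R ≤ j := by
      have : (R : ℝ) ≤ j := by linarith
      exact_mod_cast this
    obtain ⟨T, hT⟩ : ∃ T : ℝ, T = D ^ (-(c - 2 * κ)) := ⟨_, rfl⟩
    have hT0 : 0 < T := by rw [hT]; positivity
    have hpair := pair_late (μ := μ) (A := A) hA (c := c) (T := T) (T' := T) hco hi'.2.1.pos hR1 hR3 hT0.le hT0.le
      (fun n hn => by
        have hlog2 := Real.log_two_lt_d9
        have e1 : Real.log ((i : ℝ) / 2) = Real.log i - Real.log 2 := Real.log_div hip.ne' (by norm_num)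
        have e2 := h6 i hi
        have hq := qq_pos hQ
        have e3 : 0 < Real.log ((i : ℝ) / 2) := by rw [e1]; linarith
        refine (level_le e3 (by positivity) hn).trans ?_
        rw [div_le_iff₀ e3, e1]
        linarith)
      (by rw [hT]; exact (h1 i hi).1) (by rw [hT]; exact (h1 j hj).1)
    obtain ⟨S, hS⟩ : ∃ S, S = lsum μ A c Q i := ⟨_, rfl⟩
    obtain ⟨S', hS'⟩ : ∃ S', S' = lsum μ A c Q j := ⟨_, rfl⟩
    have g1 := (h1 i hi).2.2
    have g2 := (h1 j hj).2.2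
    have g3 := h2 i hi
    have g4 := h2 j hj
    rw [← hS] at g1 g3
    rw [← hS'] at g2 g4
    rw [← hS, ← hS'] at hpair
    obtain ⟨τ, hτd⟩ : ∃ τ : ℝ, τ = D ^ (-(2 * κ)) := ⟨_, rfl⟩
    rw [← hτd] at g3 g4 h3
    have hτ0 : 0 < τ := by rw [hτd]; positivity
    have g0 : 0 < D ^ (1 - c - 2 * κ) := by positivity
    have hSS : D ^ (1 - c - 2 * κ) * D ^ (1 - c - 2 * κ) ≤ S * S' := mul_le_mul g1 g2 g0.le (by linarith)
    have hX : (i : ℝ) * R * (T * T) ≤ τ * (S * S') := by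
      have e1 : (i : ℝ) * R ≤ D * D ^ κ := mul_le_mul hiD hR2 (Nat.cast_nonneg _) hD0.le
      have e2 : (i : ℝ) * R * (T * T) ≤ D * D ^ κ * (T * T) := mul_le_mul_of_nonneg_right e1 (by positivity)
      refine e2.trans ?_
      refine le_trans ?_ (mul_le_mul_of_nonneg_left hSS hτ0.le)
      rw [hT, hτd]
      nth_rewrite 1 [← Real.rpow_one D]
      rw [← Real.rpow_add hD0, ← Real.rpow_add hD0, ← Real.rpow_add hD0, ← Real.rpow_add hD0, ← Real.rpow_add hD0]
      exact Real.rpow_le_rpow_of_exponent_le hD1 (by linarith)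
    have hSS0 : 0 < S * S' := lt_of_lt_of_le (by positivity) hSS
    have hPP : S * S' * (1 - τ) ^ 2 ≤ μ.real (late A c Q i) * μ.real (late A c Q j) := by
      have e1 : (S * (1 - τ)) * (S' * (1 - τ)) ≤ μ.real (late A c Q i) * μ.real (late A c Q j) :=
        mul_le_mul g3 g4 (mul_nonneg (by linarith) (by linarith [h3.2])) measureReal_nonneg
      calc S * S' * (1 - τ) ^ 2 = (S * (1 - τ)) * (S' * (1 - τ)) := by ring
        _ ≤ _ := e1
    have hfin : 1 + τ ≤ (1 + D ^ (-κ)) * (1 - τ) ^ 2 := by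
      have e1 : (1 + 8 * τ) * (1 - τ) ^ 2 ≤ (1 + D ^ (-κ)) * (1 - τ) ^ 2 :=
        mul_le_mul_of_nonneg_right (by linarith [h3.1]) (sq_nonneg _)
      have e2 : 1 + τ ≤ (1 + 8 * τ) * (1 - τ) ^ 2 := by nlinarith [h3.2, mul_pos hτ0 hτ0, pow_pos hτ0 3]
      linarith
    calc μ.real (late A c Q i ∩ late A c Q j) ≤ S * S' + (i : ℝ) * R * (T * T) := hpair
      _ ≤ (S * S') * (1 + τ) := by nlinarith
      _ ≤ (S * S') * ((1 + D ^ (-κ)) * (1 - τ) ^ 2) := mul_le_mul_of_nonneg_left hfin hSS0.le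
      _ = (1 + D ^ (-κ)) * (S * S' * (1 - τ) ^ 2) := by ring
      _ ≤ _ := mul_le_mul_of_nonneg_left hPP (by positivity)
  have hfinal := lower_count (μ := μ) (E := fun d => late A c Q d) (fun d => meas_late hA c d) (P := pk)
    (show 0 < 2 - c - 4 * κ by linarith) hS hκ0 hc' (show 0 < δ / 2 by linarith)
  filter_upwards [hfinal] with ω hω
  filter_upwards [hω, eventually_ge_atTop 1] with x h1 hx1
  have hx1' : (1 : ℝ) ≤ x := by exact_mod_cast hx1
  have h2 : (x : ℝ) ^ (2 - c - δ) ≤ (x : ℝ) ^ (2 - c - 4 * κ - δ / 2) :=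
    Real.rpow_le_rpow_of_exponent_le hx1' (by linarith)
  refine h2.trans (h1.trans ?_)
  have h3 : pk (Nat.log 2 x) ⊆ (range (x + 1)).filter Nat.Prime := by
    intro p hp
    rw [mem_pk] at hp
    rw [mem_filter, mem_range]
    have := Nat.pow_log_le_self 2 (show x ≠ 0 by omega)
    exact ⟨by omega, hp.2.1⟩
  refine le_trans (num_mono' (G' := fun d => {ω | Bad (A ω) c Q d}) (fun p hp h4 => ?_)) (num_mono h3 _ ω)
  rw [mem_pk] at hp
  have h5 : ω ∈ late A c Q p := h4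
  unfold late at h5
  rw [Set.mem_iUnion₂] at h5
  obtain ⟨a, ha, h6⟩ := h5
  exact bad_of_free hp.2.1.pos (mem_up.1 ha).2.1 (mem_up.1 ha).2.2 h6

end Pool.Agent.Q120.GM
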