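import Pool.Agent.Q120.GM.Indep
import Pool.Agent.Q120.NC.Basic

/-!
# The second Borel-Cantelli lemma for events determined by disjoint sets
-/

set_option autoImplicit false

namespace Pool.Agent.Q120.GM

open Finset MeasureTheory ProbabilityTheory Filter Pool.Agent.Q120.NC

variable {Ω : Type*} [MeasurableSpace Ω] {μ : Measure Ω} [IsProbabilityMeasure μ] {ι : Type*} {p : ι → ℝ}
  {A : Ω → Set ι}

theorem often (hA : IsModel μ p A) (S : ℕ → Set ι) (hd : ∀ i j, i ≠ j → Disjoint (S i) (S j)) (E : ℕ → Set Ω)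
    (hE : ∀ i, MeasurableSet[F A (S i)] (E i)) (hS : ¬ Summable (fun i => μ.real (E i))) :
    ∀ᵐ ω ∂μ, ∃ᶠ i in atTop, ω ∈ E i := by
  classical
  have hmeas : ∀ i, MeasurableSet (E i) := fun i => F_le hA _ _ (hE i)
  have hneg : ∀ n m, n ≠ m → μ.real (E n ∩ E m) ≤ μ.real (E n) * μ.real (E m) := fun n m hnm =>
    le_of_eq (indep_real hA (hd n m hnm) (hE n) (hE m))
  have htot : Tendsto (tot μ E) atTop atTop :=
    (not_summable_iff_tendsto_nat_atTop_of_nonneg (fun i => measureReal_nonneg)).1 hS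
  filter_upwards [strong_law hmeas hneg htot] with ω hω
  have h1 : Tendsto (fun N => cnt E N ω) atTop atTop := by
    have h2 := hω.pos_mul_atTop one_pos htot
    refine h2.congr' ?_
    filter_upwards [htot.eventually_gt_atTop 0] with N hN
    field_simp
  by_contra hcon
  rw [not_frequently, eventually_atTop] at hcon
  obtain ⟨N0, hN0⟩ := hcon
  obtain ⟨N, hN1, hN2⟩ := ((h1.eventually_gt_atTop (cnt E N0 ω)).and (eventually_ge_atTop N0)).exists
  have h2 : cnt E N ω = cnt E N0 ω := by
    unfold cnt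
    refine (sum_subset (range_mono hN2) (fun i _ hi => ?_)).symm
    rw [mem_range, not_lt] at hi
    rw [Set.indicator_of_notMem]
    exact hN0 i hi
  linarith

/-- The same, when the sets are disjoint from some point on. -/
theorem often' (hA : IsModel μ p A) (S : ℕ → Set ι) (j0 : ℕ)
    (hd : ∀ i j, j0 ≤ i → j0 ≤ j → i ≠ j → Disjoint (S i) (S j)) (E : ℕ → Set Ω)
    (hE : ∀ i, MeasurableSet[F A (S i)] (E i)) {g : ℕ → ℝ} (hg : ¬ Summable g)
    (h0 : ∀ᶠ i in atTop, |g i| ≤ μ.real (E i)) :
    ∀ᵐ ω ∂μ, ∃ᶠ i in atTop, ω ∈ E i := by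
  have h1 := often hA (fun i => if j0 ≤ i then S i else ∅) (by
    intro i j hij
    by_cases hi : j0 ≤ i
    · by_cases hj : j0 ≤ j
      · simp only [if_pos hi, if_pos hj]
        exact hd i j hi hj hij
      · simp [if_neg hj]
    · simp [if_neg hi]) (fun i => if j0 ≤ i then E i else ∅) (by
    intro i
    by_cases hi : j0 ≤ i
    · rw [if_pos hi, if_pos hi]
      exact hE i
    · rw [if_neg hi, if_neg hi]
      exact @MeasurableSet.empty _ (F A ∅)) (by
    intro hcon
    apply hg
    refine Summable.of_norm_bounded_eventually_nat hcon ?_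
    filter_upwards [h0, eventually_ge_atTop j0] with i hi hj
    rw [Real.norm_eq_abs]
    simp only [if_pos hj]
    exact hi)
  filter_upwards [h1] with ω hω
  refine (hω.and_eventually (eventually_ge_atTop j0)).mono ?_
  rintro i ⟨hi, hj⟩
  simp only [if_pos hj] at hi
  exact hi

end Pool.Agent.Q120.GM
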