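import Pool.Agent.Q120.GM.Count
import Mathlib.NumberTheory.Chebyshev

/-!
# The number of moduli with a late class
-/

set_option autoImplicit false

namespace Pool.Agent.Q120.GM

open Finset MeasureTheory ProbabilityTheory Filter Pool.Agent.Q120.AD
open scoped Topology

variable {Ω : Type*} [MeasurableSpace Ω] {μ : Measure Ω} [IsProbabilityMeasure μ] {A : Ω → Set ℕ} {Q : ℕ}

theorem meas_bad' (hA : IsModel μ (level Q) A) (c : ℝ) (d : ℕ) : MeasurableSet (bad' A c Q d) := by
  classical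
  have h : bad' A c Q d = ⋃ a ∈ (range d).filter (fun a => 0 < dens Q a d), free A (cls a d (mc c Q a d)) := by
    ext ω
    rw [Set.mem_iUnion₂]
    constructor
    · rintro ⟨a, h1, h2, h3⟩
      exact ⟨a, mem_filter.2 ⟨mem_range.2 h1, h2⟩, h3⟩
    · rintro ⟨a, h1, h3⟩
      rw [mem_filter, mem_range] at h1
      exact ⟨a, h1.1, h1.2, h3⟩
  rw [h]
  exact Finset.measurableSet_biUnion _ (fun a _ => meas_free hA _)

/-- **(C): the number of moduli with a late class is small.** -/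
theorem moduli_le (hA : IsModel μ (level Q) A) (hQ : 1 ≤ Q) {c δ : ℝ} (hc : 1 ≤ c) (hc2 : c ≤ 2) (hδ : 0 < δ) :
    ∀ᵐ ω ∂μ, ∀ᶠ x : ℕ in atTop,
      num (range (x + 1)) (fun d => {ω | Bad (A ω) c Q d}) ω ≤ (x : ℝ) ^ (2 - c + δ) := by
  obtain ⟨δ₁, hδ₁⟩ : ∃ δ₁, δ₁ = min δ 1 / 4 := ⟨_, rfl⟩
  have hm : 0 < min δ 1 := lt_min hδ one_pos
  have hm1 : min δ 1 ≤ δ := min_le_left _ _
  have hm2 : min δ 1 ≤ 1 := min_le_right _ _
  have h0 : 0 < δ₁ := by rw [hδ₁]; linarith
  have h14 : δ₁ ≤ 1 / 4 := by rw [hδ₁]; linarith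
  have h4δ : 4 * δ₁ ≤ δ := by rw [hδ₁]; linarith
  have h1 := real_bad' (μ := μ) (A := A) hA hQ (show 0 < c - δ₁ by linarith) h0 (by linarith)
  have h2 : ∀ᶠ d : ℕ in atTop, μ.real (bad' A (c - δ₁) Q d) ≤ (d : ℝ) ^ (-(c - 1 - 2 * δ₁)) := by
    filter_upwards [h1] with d hd
    rw [show -(c - 1 - 2 * δ₁) = 1 - (c - δ₁) + δ₁ by ring]
    exact hd
  have h3 := upper_count (μ := μ) (E := fun d => bad' A (c - δ₁) Q d) (fun d => meas_bad' hA _ d)
    (show c - 1 - 2 * δ₁ ≤ 1 by linarith) h2 h0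
  obtain ⟨N, hN⟩ := eventually_atTop.1 (bad_imp (A := A) hQ (c := c) h0)
  have g3 : ∀ᶠ x : ℕ in atTop, (N : ℝ) + 1 ≤ (x : ℝ) ^ δ₁ := by
    have := (tendsto_rpow_atTop h0).comp tendsto_natCast_atTop_atTop
    exact this.eventually_ge_atTop _
  filter_upwards [h3] with ω hω
  filter_upwards [hω, g3, eventually_ge_atTop 1] with x h4 h5 hx1
  have hx1' : (1 : ℝ) ≤ x := by exact_mod_cast hx1
  have hx0 : (0 : ℝ) < x := by linarith
  have h6 : num (range (x + 1)) (fun d => {ω | Bad (A ω) c Q d}) ω ≤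
      N + num (range (x + 1)) (fun d => bad' A (c - δ₁) Q d) ω := by
    unfold num
    have e1 : ∀ d ∈ range (x + 1), ({ω | Bad (A ω) c Q d} : Set Ω).indicator (fun _ => (1 : ℝ)) ω ≤
        (if d < N then 1 else 0) + (bad' A (c - δ₁) Q d).indicator (fun _ => (1 : ℝ)) ω := by
      intro d _
      have e2 : 0 ≤ (bad' A (c - δ₁) Q d).indicator (fun _ => (1 : ℝ)) ω := Set.indicator_nonneg (fun _ _ => zero_le_one) _
      by_cases h7 : Bad (A ω) c Q d
      · rw [Set.indicator_of_mem (show ω ∈ {ω | Bad (A ω) c Q d} from h7)]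
        by_cases h8 : d < N
        · rw [if_pos h8]
          linarith
        · rw [if_neg h8, Set.indicator_of_mem (hN d (by omega) ω h7 (by linarith))]
          linarith
      · rw [Set.indicator_of_notMem (show ω ∉ {ω | Bad (A ω) c Q d} from h7)]
        split_ifs <;> linarith
    refine (sum_le_sum e1).trans ?_
    rw [sum_add_distrib]
    have e3 : ∑ d ∈ range (x + 1), (if d < N then (1 : ℝ) else 0) ≤ N := by
      rw [← sum_filter, sum_const, nsmul_eq_mul, mul_one]
      have : ((range (x + 1)).filter (fun d => d < N)).card ≤ (range N).card := by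
        apply card_le_card
        intro d hd
        rw [mem_filter] at hd
        exact mem_range.2 hd.2
      rw [card_range] at this
      exact_mod_cast this
    linarith
  refine h6.trans ?_
  have h7 : (1 : ℝ) ≤ (x : ℝ) ^ (2 - c + 3 * δ₁) := Real.one_le_rpow hx1' (by linarith)
  rw [show 1 - (c - 1 - 2 * δ₁) + δ₁ = 2 - c + 3 * δ₁ by ring] at h4
  have h8 : (x : ℝ) ^ (2 - c + 4 * δ₁) = (x : ℝ) ^ δ₁ * (x : ℝ) ^ (2 - c + 3 * δ₁) := by
    rw [← Real.rpow_add hx0]
    congr 1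
    ring
  have h9 : (x : ℝ) ^ (2 - c + 4 * δ₁) ≤ (x : ℝ) ^ (2 - c + δ) := Real.rpow_le_rpow_of_exponent_le hx1' (by linarith)
  have h10 : ((N : ℝ) + 1) * (x : ℝ) ^ (2 - c + 3 * δ₁) ≤ (x : ℝ) ^ δ₁ * (x : ℝ) ^ (2 - c + 3 * δ₁) :=
    mul_le_mul_of_nonneg_right h5 (by positivity)
  have hN0 : (0 : ℝ) ≤ N := Nat.cast_nonneg N
  nlinarith

omit [MeasurableSpace Ω] in
theorem bad_of_free {c : ℝ} {a d : ℕ} (hd : 0 < d) (ha : a < d) (h2 : 0 < dens Q a d) {ω : Ω}
    (h1 : ω ∈ free A (cls a d (mc c Q a d))) : Bad (A ω) c Q d := by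
  refine ⟨a, ha, h2, fun m hm => ?_⟩
  refine h1 _ (mem_cls.2 ⟨m, ?_, rfl⟩)
  unfold mc
  have hd0 : (0 : ℝ) < d := by exact_mod_cast hd
  apply Nat.le_floor
  rw [le_div_iff₀ h2] at hm ⊢
  push_cast at hm
  have e1 : (0 : ℝ) ≤ (a : ℝ) * dens Q a d := mul_nonneg (Nat.cast_nonneg _) h2.le
  have e2 : (d : ℝ) * ((m : ℝ) * dens Q a d) ≤ d * (c * Real.log d ^ 2) := by nlinarith
  exact le_of_mul_le_mul_left e2 hd0

/-- Two classes with coprime moduli. -/
theorem pair_free (hA : IsModel μ (level Q) A) {a b l l' M M' : ℕ} (hco : l.Coprime l') (ha : a < l)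
    (hb : b < l') (hM : M + 1 ≤ l') (hp : ∀ n ∈ cls a l M, level Q n ≤ 1 / 2) :
    μ.real (free A (cls a l M) ∩ free A (cls b l' M')) ≤
      μ.real (free A (cls a l M)) * μ.real (free A (cls b l' M')) +
        (if Disjoint (cls a l M) (cls b l' M') then 0 else
          μ.real (free A (cls a l M)) * μ.real (free A (cls b l' M'))) := by
  have h0 := prod_union_inter (s₁ := cls a l M) (s₂ := cls b l' M') (f := fun n => 1 - level Q n)
  rw [free_inter, real_free hA, real_free hA, real_free hA]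
  split_ifs with h
  · rw [disjoint_iff_inter_eq_empty.1 h, prod_empty, mul_one] at h0
    rw [h0, add_zero]
  · rw [Finset.not_disjoint_iff] at h
    obtain ⟨n, hn1, hn2⟩ := h
    have h1 : cls a l M ∩ cls b l' M' = {n} := by
      ext n'
      rw [mem_inter, mem_singleton]
      constructor
      · rintro ⟨h3, h4⟩
        have e1 : n' ≡ n [MOD l] := by
          show n' % l = n % l
          rw [mod_cls ha h3, mod_cls ha hn1]
        have e2 : n' ≡ n [MOD l'] := by
          show n' % l' = n % l'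
          rw [mod_cls hb h4, mod_cls hb hn2]
        have e3 : n' ≡ n [MOD l * l'] := (Nat.modEq_and_modEq_iff_modEq_mul hco).1 ⟨e1, e2⟩
        have e4 : ∀ m ∈ cls a l M, m < l * l' := by
          intro m hm
          rw [mem_cls] at hm
          obtain ⟨j, hj, rfl⟩ := hm
          have : l * (j + 1) ≤ l * l' := Nat.mul_le_mul_left _ (by omega)
          rw [mul_add, mul_one] at this
          omega
        exact e3.eq_of_lt_of_lt (e4 _ h3) (e4 _ hn1)
      · rintro rfl
        exact ⟨hn1, hn2⟩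
    rw [h1, prod_singleton] at h0
    have h2 := hp n hn1
    have h3 : 0 ≤ ∏ x ∈ cls a l M ∪ cls b l' M', (1 - level Q x) :=
      prod_nonneg (fun x _ => by linarith [level_le_one Q x])
    nlinarith

/-- Some class of the upper half is free for a long time. -/
def late (A : Ω → Set ℕ) (c : ℝ) (Q d : ℕ) : Set Ω := ⋃ a ∈ up Q d, free A (cls a d (mc c Q a d))

/-- The sum of the probabilities. -/
noncomputable def lsum (μ : Measure Ω) (A : Ω → Set ℕ) (c : ℝ) (Q d : ℕ) : ℝ :=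
  ∑ a ∈ up Q d, μ.real (free A (cls a d (mc c Q a d)))

theorem meas_late (hA : IsModel μ (level Q) A) (c : ℝ) (d : ℕ) : MeasurableSet (late A c Q d) :=
  Finset.measurableSet_biUnion _ (fun _ _ => meas_free hA _)

theorem le_late (hA : IsModel μ (level Q) A) (c : ℝ) (d : ℕ) :
    lsum μ A c Q d * (1 - lsum μ A c Q d) ≤ μ.real (late A c Q d) := by
  classical
  have h1 : (late A c Q d)ᶜ = ⋂ a ∈ up Q d, (free A (cls a d (mc c Q a d)))ᶜ := by
    unfold late
    rw [Set.compl_iUnion₂]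
  have hprod : μ.real (late A c Q d)ᶜ = ∏ a ∈ up Q d, μ.real (free A (cls a d (mc c Q a d)))ᶜ := by
    rw [h1]
    refine indep_many hA (up Q d) (fun a => {n | n % d = a}) (fun a _ b _ hab => mod_disjoint hab) _ (fun a ha => ?_)
    exact MeasurableSet.compl (F_cls (mem_up.1 ha).2.1)
  have h2 : ∏ a ∈ up Q d, μ.real (free A (cls a d (mc c Q a d)))ᶜ ≤ Real.exp (-lsum μ A c Q d) := by
    unfold lsum
    rw [← sum_neg_distrib, Real.exp_sum]
    refine Finset.prod_le_prod (fun a _ => measureReal_nonneg) (fun a _ => ?_)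
    rw [measureReal_compl (meas_free hA _), probReal_univ]
    have := Real.add_one_le_exp (-μ.real (free A (cls a d (mc c Q a d))))
    linarith
  rw [measureReal_compl (meas_late hA _ _), probReal_univ] at hprod
  obtain ⟨S, hS⟩ : ∃ S, S = lsum μ A c Q d := ⟨_, rfl⟩
  have hS0 : 0 ≤ S := by rw [hS]; exact sum_nonneg (fun _ _ => measureReal_nonneg)
  rw [← hS] at h2 ⊢
  have h3 : Real.exp (-S) ≤ 1 - S + S ^ 2 := by
    rw [Real.exp_neg, inv_eq_one_div, div_le_iff₀ (Real.exp_pos _)]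
    have e1 := Real.add_one_le_exp S
    have e2 : 0 ≤ 1 - S + S ^ 2 := by nlinarith [sq_nonneg (S - 1 / 2)]
    have e3 : (1 - S + S ^ 2) * (S + 1) ≤ (1 - S + S ^ 2) * Real.exp S := mul_le_mul_of_nonneg_left e1 e2
    have e4 : 0 ≤ S ^ 3 := by positivity
    nlinarith
  nlinarith

/-- The pair bound. -/
theorem pair_late (hA : IsModel μ (level Q) A) {c T T' : ℝ} {l l' R : ℕ} (hco : l.Coprime l') (hl0 : 0 < l)
    (hR : ∀ a ∈ up Q l, mc c Q a l + 1 ≤ R) (hRl : R ≤ l') (hT : 0 ≤ T) (hT' : 0 ≤ T')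
    (hp : ∀ n : ℕ, (l : ℝ) / 2 ≤ n → level Q n ≤ 1 / 2)
    (h1 : ∀ a ∈ up Q l, μ.real (free A (cls a l (mc c Q a l))) ≤ T)
    (h2 : ∀ a ∈ up Q l', μ.real (free A (cls a l' (mc c Q a l'))) ≤ T') :
    μ.real (late A c Q l ∩ late A c Q l') ≤ lsum μ A c Q l * lsum μ A c Q l' + (l * R : ℝ) * (T * T') := by
  classical
  have hsub : late A c Q l ∩ late A c Q l' ⊆ ⋃ q ∈ up Q l ×ˢ up Q l',
      (free A (cls q.1 l (mc c Q q.1 l)) ∩ free A (cls q.2 l' (mc c Q q.2 l'))) := by
    rintro ω ⟨h3, h4⟩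
    unfold late at h3 h4
    rw [Set.mem_iUnion₂] at h3 h4
    obtain ⟨a, ha, h5⟩ := h3
    obtain ⟨b, hb, h6⟩ := h4
    exact Set.mem_biUnion (x := (a, b)) (by
      show (a, b) ∈ up Q l ×ˢ up Q l'
      exact mem_product.2 ⟨ha, hb⟩) ⟨h5, h6⟩
  refine (measureReal_mono hsub (measure_ne_top _ _)).trans ((measureReal_biUnion_finset_le _ _).trans ?_)
  have hterm : ∀ q ∈ up Q l ×ˢ up Q l',
      μ.real (free A (cls q.1 l (mc c Q q.1 l)) ∩ free A (cls q.2 l' (mc c Q q.2 l'))) ≤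
        μ.real (free A (cls q.1 l (mc c Q q.1 l))) * μ.real (free A (cls q.2 l' (mc c Q q.2 l'))) +
        (if ¬ Disjoint (cls q.1 l (mc c Q q.1 l)) (cls q.2 l' (mc c Q q.2 l')) then T * T' else 0) := by
    rintro ⟨a, b⟩ hq
    rw [mem_product] at hq
    have h5 := pair_free (μ := μ) hA hco (mem_up.1 hq.1).2.1 (mem_up.1 hq.2).2.1 ((hR a hq.1).trans hRl) (M' := mc c Q b l')
      (fun n hn => by
        apply hp
        rw [mem_cls] at hn
        obtain ⟨m, _, rfl⟩ := hn
        have e1 := up_half hq.1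
        push_cast
        have e2 : (0 : ℝ) ≤ (l : ℝ) * m := by positivity
        linarith)
    refine h5.trans ?_
    gcongr
    by_cases h6 : Disjoint (cls a l (mc c Q a l)) (cls b l' (mc c Q b l'))
    · rw [if_pos h6, if_neg (not_not.2 h6)]
    · rw [if_neg h6, if_pos h6]
      exact mul_le_mul (h1 a hq.1) (h2 b hq.2) measureReal_nonneg hT
  refine (sum_le_sum hterm).trans ?_
  rw [sum_add_distrib, ← sum_filter, sum_const, nsmul_eq_mul]
  refine add_le_add ?_ ?_
  · unfold lsum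
    rw [sum_mul_sum, sum_product]
  · have hcard : ((up Q l ×ˢ up Q l').filter (fun q => ¬ Disjoint (cls q.1 l (mc c Q q.1 l)) (cls q.2 l' (mc c Q q.2 l')))).card
        ≤ l * R := by
      have h5 : (up Q l ×ˢ up Q l').filter (fun q => ¬ Disjoint (cls q.1 l (mc c Q q.1 l)) (cls q.2 l' (mc c Q q.2 l'))) ⊆
          (range (l * R)).image (fun n => (n % l, n % l')) := by
        rintro ⟨a, b⟩ hq
        rw [mem_filter, mem_product, Finset.not_disjoint_iff] at hq
        obtain ⟨⟨ha, hb⟩, n, hn1, hn2⟩ := hq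
        rw [mem_image]
        refine ⟨n, ?_, ?_⟩
        · rw [mem_range]
          have e0 := (mem_up.1 ha).2.1
          have e1 := hR a ha
          rw [mem_cls] at hn1
          obtain ⟨j, hj, rfl⟩ := hn1
          have hj' : j ≤ mc c Q a l := hj
          have : l * (j + 1) ≤ l * R := Nat.mul_le_mul_left _ (by omega)
          rw [mul_add, mul_one] at this
          have e0' : a < l := e0
          show a + l * j < l * R
          omega
        · show (n % l, n % l') = (a, b)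
          rw [mod_cls (mem_up.1 ha).2.1 hn1, mod_cls (mem_up.1 hb).2.1 hn2]
      refine (card_le_card h5).trans (card_image_le.trans ?_)
      rw [card_range]
    have hcard' : (((up Q l ×ˢ up Q l').filter (fun q => ¬ Disjoint (cls q.1 l (mc c Q q.1 l)) (cls q.2 l' (mc c Q q.2 l')))).card : ℝ)
        ≤ (l : ℝ) * R := by exact_mod_cast hcard
    exact mul_le_mul_of_nonneg_right hcard' (mul_nonneg hT hT')

end Pool.Agent.Q120.GM
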