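import Mathlib

/-!
# Random sets with independent elements

A random subset `A` of a type `ι` which contains the elements of `ι` independently, `i` with probability `p i`.
Harris' inequality and Janson's inequality for the event that `A` contains none of some finite sets.
-/

set_option autoImplicit false

namespace Pool.Agent.Q120.GM

open Finset MeasureTheory ProbabilityTheory

variable {Ω : Type*} [MeasurableSpace Ω] {μ : Measure Ω} [IsProbabilityMeasure μ] {ι : Type*} {p : ι → ℝ}
  {A : Ω → Set ι}

/-- `A` is a random set which contains the elements `i` independently, with the probabilities `p i`. -/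
structure IsModel (μ : Measure Ω) (p : ι → ℝ) (A : Ω → Set ι) : Prop where
  meas : ∀ i, MeasurableSet {ω | i ∈ A ω}
  indep : iIndepSet (fun i => {ω | i ∈ A ω}) μ
  prob : ∀ i, μ.real {ω | i ∈ A ω} = p i

/-- The events determined by the elements of `S`. -/
def F (A : Ω → Set ι) (S : Set ι) : MeasurableSpace Ω :=
  ⨆ i ∈ S, MeasurableSpace.generateFrom {{ω | i ∈ A ω}}

/-- The event that `A` contains `T`. -/
def all (A : Ω → Set ι) (T : Finset ι) : Set Ω := {ω | ∀ i ∈ T, i ∈ A ω}

/-- The event that `A` contains none of the sets `T j`. -/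
def none {κ : Type*} (A : Ω → Set ι) (J : Finset κ) (T : κ → Finset ι) : Set Ω := {ω | ∀ j ∈ J, ω ∉ all A (T j)}

omit [MeasurableSpace Ω] in
theorem F_mem {S : Set ι} {i : ι} (hi : i ∈ S) : MeasurableSet[F A S] {ω | i ∈ A ω} := by
  have h1 : MeasurableSpace.generateFrom {{ω | i ∈ A ω}} ≤ F A S :=
    le_iSup₂ (f := fun (i : ι) (_ : i ∈ S) => MeasurableSpace.generateFrom {{ω | i ∈ A ω}}) i hi
  exact h1 _ (MeasurableSpace.measurableSet_generateFrom (Set.mem_singleton _))

omit [MeasurableSpace Ω] in
theorem F_all {S : Set ι} {T : Finset ι} (hT : ∀ i ∈ T, i ∈ S) : MeasurableSet[F A S] (all A T) := by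
  have h1 : all A T = ⋂ i ∈ T, {ω | i ∈ A ω} := by
    ext ω
    simp [all]
  rw [h1]
  exact Finset.measurableSet_biInter T (fun i hi => F_mem (hT i hi))

omit [MeasurableSpace Ω] in
theorem F_none {κ : Type*} {S : Set ι} {J : Finset κ} {T : κ → Finset ι} (hT : ∀ j ∈ J, ∀ i ∈ T j, i ∈ S) :
    MeasurableSet[F A S] (none A J T) := by
  have h1 : none A J T = ⋂ j ∈ J, (all A (T j))ᶜ := by
    ext ω
    simp [none]
  rw [h1]
  exact Finset.measurableSet_biInter J (fun j hj => MeasurableSet.compl (F_all (hT j hj)))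

theorem F_le (hA : IsModel μ p A) (S : Set ι) : F A S ≤ ‹MeasurableSpace Ω› := by
  refine iSup₂_le (fun i _ => ?_)
  rw [MeasurableSpace.generateFrom_le_iff]
  intro s hs
  rw [Set.mem_singleton_iff] at hs
  rw [hs]
  exact hA.meas i

theorem indep_real (hA : IsModel μ p A) {S T : Set ι} (hST : Disjoint S T) {E G : Set Ω}
    (hE : MeasurableSet[F A S] E) (hG : MeasurableSet[F A T] G) : μ.real (E ∩ G) = μ.real E * μ.real G := by
  have h1 : Indep (F A S) (F A T) μ := by
    refine indep_iSup_of_disjoint (m := fun i => MeasurableSpace.generateFrom {{ω | i ∈ A ω}}) (fun i => ?_)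
      hA.indep hST
    rw [MeasurableSpace.generateFrom_le_iff]
    intro s hs
    rw [Set.mem_singleton_iff] at hs
    rw [hs]
    exact hA.meas i
  have h2 := (Indep_iff _ _ _).1 h1 E G hE hG
  unfold Measure.real
  rw [h2, ENNReal.toReal_mul]

theorem meas_all (hA : IsModel μ p A) (T : Finset ι) : MeasurableSet (all A T) :=
  F_le hA Set.univ _ (F_all (fun _ _ => Set.mem_univ _))

theorem meas_none (hA : IsModel μ p A) {κ : Type*} (J : Finset κ) (T : κ → Finset ι) :
    MeasurableSet (none A J T) :=
  F_le hA Set.univ _ (F_none (fun _ _ _ _ => Set.mem_univ _))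

theorem real_all (hA : IsModel μ p A) (T : Finset ι) : μ.real (all A T) = ∏ i ∈ T, p i := by
  have h1 : all A T = ⋂ i ∈ T, {ω | i ∈ A ω} := by
    ext ω
    simp [all]
  have h2 := hA.indep.meas_biInter T
  unfold Measure.real
  rw [h1, h2, ENNReal.toReal_prod]
  exact prod_congr rfl (fun i _ => hA.prob i)

theorem p_nonneg (hA : IsModel μ p A) (i : ι) : 0 ≤ p i := by
  rw [← hA.prob i]
  exact measureReal_nonneg

theorem p_le_one (hA : IsModel μ p A) (i : ι) : p i ≤ 1 := by
  rw [← hA.prob i]
  exact measureReal_le_one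

section

variable {κ : Type*} [DecidableEq ι]

omit [MeasurableSpace Ω] in
theorem inter_none_eq (T : Finset ι) (J : Finset κ) (U : κ → Finset ι) :
    all A T ∩ none A J U = all A T ∩ none A J (fun j => U j \ T) := by
  ext ω
  constructor
  · rintro ⟨h1, h2⟩
    refine ⟨h1, fun j hj h3 => h2 j hj (fun i hi => ?_)⟩
    by_cases h4 : i ∈ T
    · exact h1 i h4
    · exact h3 i (by rw [Finset.mem_sdiff]; exact ⟨hi, h4⟩)
  · rintro ⟨h1, h2⟩
    refine ⟨h1, fun j hj h3 => h2 j hj (fun i hi => ?_)⟩
    exact h3 i (Finset.mem_sdiff.1 hi).1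

theorem inter_none_real (hA : IsModel μ p A) (T : Finset ι) (J : Finset κ) (U : κ → Finset ι) :
    μ.real (all A T ∩ none A J U) = μ.real (all A T) * μ.real (none A J (fun j => U j \ T)) := by
  rw [inter_none_eq]
  refine indep_real hA (S := (T : Set ι)) (T := (T : Set ι)ᶜ) disjoint_compl_right (F_all (fun i hi => hi))
    (F_none (fun j _ i hi => ?_))
  intro h
  exact (Finset.mem_sdiff.1 hi).2 h

/-- Harris' inequality for a cylinder and a decreasing event. -/
theorem inter_none_le (hA : IsModel μ p A) (T : Finset ι) (J : Finset κ) (U : κ → Finset ι) :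
    μ.real (all A T ∩ none A J U) ≤ μ.real (all A T) * μ.real (none A J U) := by
  rw [inter_none_real hA]
  apply mul_le_mul_of_nonneg_left _ measureReal_nonneg
  apply measureReal_mono
  · intro ω h j hj h2
    exact h j hj (fun i hi => h2 i (Finset.mem_sdiff.1 hi).1)
  · exact measure_ne_top _ _

theorem inter_none_disjoint (hA : IsModel μ p A) (T : Finset ι) (J : Finset κ) (U : κ → Finset ι)
    (hd : ∀ j ∈ J, Disjoint (U j) T) :
    μ.real (all A T ∩ none A J U) = μ.real (all A T) * μ.real (none A J U) := by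
  refine indep_real hA (S := (T : Set ι)) (T := (T : Set ι)ᶜ) disjoint_compl_right (F_all (fun i hi => hi))
    (F_none (fun j hj i hi => ?_))
  intro h
  exact Finset.disjoint_left.1 (hd j hj) hi h

omit [MeasurableSpace Ω] [DecidableEq ι] in
theorem none_insert [DecidableEq κ] (i : κ) (J : Finset κ) (U : κ → Finset ι) :
    none A (insert i J) U = none A J U \ (all A (U i) ∩ none A J U) := by
  ext ω
  constructor
  · intro h
    refine ⟨fun j hj => h j (mem_insert_of_mem hj), fun h2 => h i (mem_insert_self _ _) h2.1⟩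
  · rintro ⟨h1, h2⟩ j hj
    rw [mem_insert] at hj
    rcases hj with rfl | hj
    · exact fun h3 => h2 ⟨h3, h1⟩
    · exact h1 j hj

theorem real_insert (hA : IsModel μ p A) [DecidableEq κ] (i : κ) (J : Finset κ) (U : κ → Finset ι) :
    μ.real (none A (insert i J) U) = μ.real (none A J U) - μ.real (all A (U i) ∩ none A J U) := by
  rw [none_insert, measureReal_sdiff Set.inter_subset_right ((meas_all hA _).inter (meas_none hA _ _))]

/-- **Harris' inequality.** -/
theorem harris (hA : IsModel μ p A) [DecidableEq κ] (J : Finset κ) (U : κ → Finset ι) :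
    ∏ j ∈ J, (1 - ∏ i ∈ U j, p i) ≤ μ.real (none A J U) := by
  induction J using Finset.induction_on with
  | empty =>
    have : none A (∅ : Finset κ) U = Set.univ := by
      ext ω
      simp [none]
    rw [this]
    simp
  | insert i J hi ih =>
    rw [prod_insert hi, real_insert hA]
    have h1 := inter_none_le hA (U i) J U
    have h2 : ∏ i ∈ U i, p i ≤ 1 := by
      rw [← real_all hA]
      exact measureReal_le_one
    have h3 := mul_le_mul_of_nonneg_left ih (sub_nonneg.2 h2)
    rw [real_all hA] at h1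
    linarith

/-- **Janson's inequality.** -/
theorem janson (hA : IsModel μ p A) [DecidableEq κ] (J : Finset κ) (U : κ → Finset ι) :
    μ.real (none A J U) ≤ Real.exp (-(∑ j ∈ J, ∏ i ∈ U j, p i) +
      ∑ j ∈ J, ∑ l ∈ J with l ≠ j ∧ ¬ Disjoint (U l) (U j), ∏ i ∈ U l ∪ U j, p i) := by
  have hnn : ∀ T : Finset ι, 0 ≤ ∏ i ∈ T, p i := fun T => prod_nonneg (fun i _ => p_nonneg hA i)
  induction J using Finset.induction_on with
  | empty =>
    have : none A (∅ : Finset κ) U = Set.univ := by
      ext ω
      simp [none]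
    rw [this]
    simp
  | insert i J hi ih =>
    obtain ⟨J1, hJ1⟩ : ∃ J1, J1 = J.filter (fun j => Disjoint (U j) (U i)) := ⟨_, rfl⟩
    obtain ⟨J2, hJ2⟩ : ∃ J2, J2 = J.filter (fun j => ¬ Disjoint (U j) (U i)) := ⟨_, rfl⟩
    obtain ⟨s, hs⟩ : ∃ s, s = ∑ j ∈ J2, ∏ i ∈ U j ∪ U i, p i := ⟨_, rfl⟩
    obtain ⟨P, hP⟩ : ∃ P, P = ∏ i ∈ U i, p i := ⟨_, rfl⟩
    have hs0 : 0 ≤ s := by rw [hs]; exact sum_nonneg (fun j _ => hnn _)
    have hmono : μ.real (none A J U) ≤ μ.real (none A J1 U) := by
      apply measureReal_mono _ (measure_ne_top _ _)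
      intro ω h j hj
      rw [hJ1, mem_filter] at hj
      exact h j hj.1
    -- the decisive step
    have hstep : μ.real (all A (U i) ∩ none A J1 U) ≤ μ.real (all A (U i) ∩ none A J U) +
        ∑ j ∈ J2, μ.real (all A (U j ∪ U i) ∩ none A J1 U) := by
      have h1 : all A (U i) ∩ none A J1 U ⊆ (all A (U i) ∩ none A J U) ∪
          ⋃ j ∈ J2, all A (U j ∪ U i) ∩ none A J1 U := by
        rintro ω ⟨h1, h2⟩
        by_cases h3 : ω ∈ none A J U
        · exact Or.inl ⟨h1, h3⟩
        · right
          have h3' : ¬ ∀ j ∈ J, ω ∉ all A (U j) := h3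
          push Not at h3'
          obtain ⟨j, hj, h4⟩ := h3'
          have h5 : j ∈ J2 := by
            rw [hJ2, mem_filter]
            refine ⟨hj, fun h6 => h2 j ?_ h4⟩
            rw [hJ1, mem_filter]
            exact ⟨hj, h6⟩
          refine Set.mem_biUnion (x := j) h5 ⟨fun l hl => ?_, h2⟩
          rw [mem_union] at hl
          rcases hl with hl | hl
          · exact h4 l hl
          · exact h1 l hl
      refine (measureReal_mono (μ := μ) h1 (measure_ne_top _ _)).trans ((measureReal_union_le _ _).trans ?_)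
      exact add_le_add (le_refl _) (measureReal_biUnion_finset_le _ _)
    have h2 : μ.real (all A (U i) ∩ none A J1 U) = P * μ.real (none A J1 U) := by
      rw [inter_none_disjoint hA (U i) J1 U (fun j hj => by rw [hJ1, mem_filter] at hj; exact hj.2), real_all hA, hP]
    have h3 : ∑ j ∈ J2, μ.real (all A (U j ∪ U i) ∩ none A J1 U) ≤ s * μ.real (none A J1 U) := by
      rw [hs, sum_mul]
      refine sum_le_sum (fun j _ => ?_)
      refine (inter_none_le hA _ _ _).trans (le_of_eq ?_)
      rw [real_all hA]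
    have h4 : (P - s) * μ.real (none A J1 U) ≤ μ.real (all A (U i) ∩ none A J U) := by
      rw [h2] at hstep
      nlinarith
    have h5 : μ.real (none A (insert i J) U) ≤ μ.real (none A J U) * Real.exp (-P + s) := by
      rw [real_insert hA]
      have h6 : 0 ≤ μ.real (none A J U) := measureReal_nonneg
      have h7 : 0 ≤ μ.real (all A (U i) ∩ none A J U) := measureReal_nonneg
      rcases le_or_gt s P with h8 | h8
      · have h9 : (P - s) * μ.real (none A J U) ≤ (P - s) * μ.real (none A J1 U) :=
          mul_le_mul_of_nonneg_left hmono (by linarith)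
        have h10 := Real.add_one_le_exp (-P + s)
        nlinarith
      · have h10 : 1 ≤ Real.exp (-P + s) := Real.one_le_exp (by linarith)
        nlinarith
    refine h5.trans ?_
    refine (mul_le_mul_of_nonneg_right ih (Real.exp_pos _).le).trans ?_
    rw [← Real.exp_add, Real.exp_le_exp, sum_insert hi, sum_insert hi, ← hP]
    have h6 : s ≤ ∑ l ∈ insert i J with l ≠ i ∧ ¬ Disjoint (U l) (U i), ∏ x ∈ U l ∪ U i, p x := by
      rw [hs]
      refine sum_le_sum_of_subset_of_nonneg ?_ (fun _ _ _ => hnn _)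
      intro j hj
      rw [hJ2, mem_filter] at hj
      rw [mem_filter]
      refine ⟨mem_insert_of_mem hj.1, ?_, hj.2⟩
      rintro rfl
      exact hi hj.1
    have h7 : ∑ j ∈ J, ∑ l ∈ J with l ≠ j ∧ ¬ Disjoint (U l) (U j), ∏ x ∈ U l ∪ U j, p x ≤
        ∑ j ∈ J, ∑ l ∈ insert i J with l ≠ j ∧ ¬ Disjoint (U l) (U j), ∏ x ∈ U l ∪ U j, p x := by
      refine sum_le_sum (fun j _ => ?_)
      refine sum_le_sum_of_subset_of_nonneg ?_ (fun _ _ _ => hnn _)
      intro l hl
      rw [mem_filter] at hl ⊢
      exact ⟨mem_insert_of_mem hl.1, hl.2⟩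
    linarith

end

end Pool.Agent.Q120.GM
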