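import Pool.Agent.Q120.GM.Count

/-!
# Chains in the sieved models
-/

set_option autoImplicit false

namespace Pool.Agent.Q120.GM

open Finset MeasureTheory ProbabilityTheory Filter Pool.Agent.Q120.AD
open scoped Topology

/-- A map which multiplies by at least `3/2` and at most `C` on `[n₀, ∞)`. -/
structure Step (f : ℕ → ℕ) (C n₀ : ℕ) : Prop where
  one : 1 ≤ n₀
  cone : 1 ≤ C
  inj : ∀ m n, n₀ ≤ m → n₀ ≤ n → f m = f n → m = n
  low : ∀ n, n₀ ≤ n → 3 * n ≤ 2 * f n
  upp : ∀ n, n₀ ≤ n → f n ≤ C * n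

/-- The first `k` points of the orbit. -/
def orb (f : ℕ → ℕ) (n k : ℕ) : Finset ℕ := (range k).image (fun i => f^[i] n)

theorem mem_orb {f : ℕ → ℕ} {n k m : ℕ} : m ∈ orb f n k ↔ ∃ i, i < k ∧ f^[i] n = m := by
  unfold orb
  rw [mem_image]
  simp only [mem_range]

section
variable {f : ℕ → ℕ} {C n₀ : ℕ} (hf : Step f C n₀)
include hf

theorem Step.lt {n : ℕ} (hn : n₀ ≤ n) : n < f n := by
  have h1 := hf.low n hn
  have h2 := hf.one
  omega

theorem Step.ge (i : ℕ) {n : ℕ} (hn : n₀ ≤ n) : n ≤ f^[i] n := by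
  induction i with
  | zero => exact le_refl n
  | succ i ih =>
    rw [Function.iterate_succ_apply']
    have := hf.lt (hn.trans ih)
    omega

theorem Step.lt_succ (i : ℕ) {n : ℕ} (hn : n₀ ≤ n) : f^[i] n < f^[i + 1] n := by
  rw [Function.iterate_succ_apply']
  exact hf.lt (hn.trans (hf.ge i hn))

theorem Step.strict {n : ℕ} (hn : n₀ ≤ n) : StrictMono (fun i => f^[i] n) :=
  strictMono_nat_of_lt_succ (fun i => hf.lt_succ i hn)

theorem Step.big {i : ℕ} (hi : 1 ≤ i) {n : ℕ} (hn : n₀ ≤ n) : 3 * n ≤ 2 * f^[i] n := by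
  have h1 : f^[1] n ≤ f^[i] n := (hf.strict hn).monotone hi
  have h2 := hf.low n hn
  rw [Function.iterate_one] at h1
  omega

theorem Step.le_pow (i : ℕ) {n : ℕ} (hn : n₀ ≤ n) : f^[i] n ≤ C ^ i * n := by
  induction i with
  | zero => simp
  | succ i ih =>
    rw [Function.iterate_succ_apply']
    refine (hf.upp _ (hn.trans (hf.ge i hn))).trans ?_
    rw [pow_succ, mul_comm (C ^ i) C, mul_assoc]
    exact Nat.mul_le_mul_left _ ih

theorem Step.inj_iter (i : ℕ) {m n : ℕ} (hm : n₀ ≤ m) (hn : n₀ ≤ n) (h : f^[i] m = f^[i] n) : m = n := by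
  induction i with
  | zero => exact h
  | succ i ih =>
    rw [Function.iterate_succ_apply', Function.iterate_succ_apply'] at h
    exact ih (hf.inj _ _ (hm.trans (hf.ge i hm)) (hn.trans (hf.ge i hn)) h)

theorem Step.prod_orb {n k : ℕ} (hn : n₀ ≤ n) (g : ℕ → ℝ) : ∏ m ∈ orb f n k, g m = ∏ i ∈ range k, g (f^[i] n) := by
  unfold orb
  exact prod_image (fun i _ j _ hij => (hf.strict hn).injective hij)

/-- Orbits of points of `(X, 3X/2]` are disjoint. -/
theorem Step.disj {X m n k l : ℕ} (hX : n₀ ≤ X) (hm : X < m) (hm2 : 2 * m ≤ 3 * X) (hn : X < n) (hn2 : 2 * n ≤ 3 * X)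
    (hmn : m ≠ n) : Disjoint (orb f m k) (orb f n l) := by
  rw [Finset.disjoint_left]
  intro x h1 h2
  rw [mem_orb] at h1 h2
  obtain ⟨i, _, hi⟩ := h1
  obtain ⟨j, _, hj⟩ := h2
  have key : ∀ m n i j : ℕ, X < m → X < n → 2 * m ≤ 3 * X → m ≠ n → i ≤ j → f^[i] m = f^[j] n → False := by
    intro m n i j hm hn hm2 hmn hij h3
    obtain ⟨d, rfl⟩ : ∃ d, j = i + d := ⟨j - i, by omega⟩
    rw [Function.iterate_add_apply] at h3
    have hn0 : n₀ ≤ n := by omega
    have h4 := hf.inj_iter i (by omega) (hn0.trans (hf.ge d hn0)) h3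
    rcases Nat.eq_zero_or_pos d with rfl | hd
    · exact hmn (by simpa using h4)
    · have h5 := hf.big hd hn0
      omega
  rcases le_total i j with hij | hij
  · exact key m n i j hm hn hm2 hmn hij (hi.trans hj.symm)
  · exact key n m j i hn hm hn2 (Ne.symm hmn) hij (hj.trans hi.symm)

end

variable {Ω : Type*} [MeasurableSpace Ω] {μ : Measure Ω} [IsProbabilityMeasure μ] {A : Ω → Set ℕ} {Q : ℕ}
  {f : ℕ → ℕ} {C n₀ : ℕ}

theorem ch_le (hA : IsModel μ (level Q) A) (hf : Step f C n₀) {n k : ℕ} (hn : n₀ ≤ n) {x : ℝ} (hx0 : 0 < x) (hx : x ≤ n)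
    (hlog : 0 < Real.log x) : μ.real (all A (orb f n k)) ≤ (qq Q / Real.log x) ^ k := by
  rw [real_all hA, hf.prod_orb hn]
  refine (Finset.prod_le_prod (fun i _ => level_nonneg Q _) (fun i _ => ?_)).trans (by rw [prod_const, card_range])
  refine level_le hlog hx0 ?_
  have h1 : (n : ℝ) ≤ (f^[i] n : ℕ) := by exact_mod_cast hf.ge i hn
  linarith

theorem le_ch (hA : IsModel μ (level Q) A) (hf : Step f C n₀) {n k : ℕ} (hn : n₀ ≤ n) {x : ℝ} (hnx : (n : ℝ) ≤ x)
    (hlog : qq Q ≤ Real.log n) (hlog0 : 0 < Real.log n) (hc : ∀ i, (f^[i] n).Coprime Q) :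
    (qq Q / (Real.log x + k * Real.log C)) ^ k ≤ μ.real (all A (orb f n k)) := by
  have hn0 : (0 : ℝ) < n := by
    have := hf.one
    exact_mod_cast (by omega : 0 < n)
  have hC0 : (0 : ℝ) < C := by exact_mod_cast hf.cone
  have hC1 : 0 ≤ Real.log C := Real.log_nonneg (by exact_mod_cast hf.cone)
  rw [real_all hA, hf.prod_orb hn]
  refine le_trans (by rw [prod_const, card_range]) (Finset.prod_le_prod (f := fun _ => qq Q / (Real.log x + k * Real.log C))
    (fun i _ => ?_) (fun i hi => ?_))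
  · have h1 : Real.log n ≤ Real.log x := Real.log_le_log hn0 hnx
    have h2 : 0 ≤ (k : ℝ) * Real.log C := by positivity
    exact div_nonneg (by unfold qq; positivity) (by linarith)
  · rw [mem_range] at hi
    have h1 : Real.log x + k * Real.log C = Real.log (x * (C : ℝ) ^ k) := by
      rw [Real.log_mul (by linarith) (by positivity), Real.log_pow]
    rw [h1]
    refine le_level hlog hlog0 hn0 ?_ ?_ (hc i)
    · exact_mod_cast hf.ge i hn
    · have h2 : ((f^[i] n : ℕ) : ℝ) ≤ ((C ^ i * n : ℕ) : ℝ) := by exact_mod_cast hf.le_pow i hn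
      push_cast at h2
      have h3 : (C : ℝ) ^ i ≤ (C : ℝ) ^ k := pow_le_pow_right₀ (by exact_mod_cast hf.cone) hi.le
      calc ((f^[i] n : ℕ) : ℝ) ≤ (C : ℝ) ^ i * n := h2
        _ ≤ (C : ℝ) ^ k * x := mul_le_mul h3 hnx hn0.le (by positivity)
        _ = _ := mul_comm _ _

/-- The threshold as a function of `L = log x`. -/
noncomputable def GG (c L : ℝ) : ℝ := L / (Real.log L + c)

theorem GG_mono {c L M : ℝ} (hL : 0 < L) (h1 : 1 ≤ Real.log L + c) (hLM : L ≤ M) : GG c L ≤ GG c M := by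
  have h2 : Real.log L ≤ Real.log M := Real.log_le_log hL hLM
  unfold GG
  rw [div_le_div_iff₀ (by linarith) (by linarith)]
  have h3 : Real.log M - Real.log L ≤ M / L - 1 := by
    rw [← Real.log_div (by linarith) hL.ne']
    exact Real.log_le_sub_one_of_pos (div_pos (by linarith) hL)
  have h4 : L * (M / L - 1) = M - L := by field_simp
  have h5 : L * (Real.log M - Real.log L) ≤ M - L := by
    rw [← h4]
    exact mul_le_mul_of_nonneg_left h3 hL.le
  nlinarith

theorem log_o (M : ℝ) {η : ℝ} (hη : 0 < η) : ∀ᶠ L : ℝ in atTop, M * Real.log L + M ≤ η * L := by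
  have h1 := Real.isLittleO_log_id_atTop.bound (show 0 < η / (2 * (|M| + 1)) by positivity)
  filter_upwards [h1, eventually_ge_atTop (1 : ℝ), eventually_ge_atTop (2 * |M| / η)] with L h2 h3 h4
  have h3' : 0 ≤ L := by linarith
  rw [id, Real.norm_eq_abs, Real.norm_eq_abs, abs_of_nonneg (Real.log_nonneg h3), abs_of_nonneg h3'] at h2
  have h5 : |M| * Real.log L ≤ η / 2 * L := by
    have e1 : |M| * Real.log L ≤ (|M| + 1) * Real.log L := by
      nlinarith [Real.log_nonneg h3]
    have e2 : (|M| + 1) * Real.log L ≤ (|M| + 1) * (η / (2 * (|M| + 1)) * L) := mul_le_mul_of_nonneg_left h2 (by positivity)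
    have e3 : (|M| + 1) * (η / (2 * (|M| + 1)) * L) = η / 2 * L := by
      field_simp
    linarith
  have h6 : M * Real.log L ≤ |M| * Real.log L := mul_le_mul_of_nonneg_right (le_abs_self M) (Real.log_nonneg h3)
  have h7 : |M| ≤ η / 2 * L := by
    rw [div_le_iff₀ hη] at h4
    linarith
  have h8 := le_abs_self M
  linarith

theorem loglog {c : ℝ} (R : ℝ) : ∀ᶠ L : ℝ in atTop, R ≤ Real.log L + c := by
  have h1 := (Real.tendsto_log_atTop.atTop_add (tendsto_const_nhds (x := c))).eventually_ge_atTop R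
  exact h1

/-- `G` is much larger than the logarithm. -/
theorem GG_big (c M : ℝ) : ∀ᶠ L : ℝ in atTop, M * Real.log L + M ≤ GG c L := by
  have h0 : Tendsto (fun L : ℝ => Real.log L) atTop atTop := Real.tendsto_log_atTop
  have h1 : ∀ᶠ y : ℝ in atTop, (|M| * y + |M|) * (y + |c|) ≤ Real.exp y := by
    have g1 : Tendsto (fun y : ℝ => y ^ 3 / Real.exp y) atTop (nhds 0) := by
      have := Real.tendsto_pow_mul_exp_neg_atTop_nhds_zero 3
      refine this.congr (fun y => ?_)
      rw [Real.exp_neg, div_eq_mul_inv]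
    have g2 := g1.eventually_le_const (show (0 : ℝ) < 1 by norm_num)
    filter_upwards [g2, eventually_ge_atTop (2 * |M| + 2 * |c| + 2)] with y h2 h3
    rw [div_le_one (Real.exp_pos _)] at h2
    have h4 := abs_nonneg M
    have h5 := abs_nonneg c
    have e1 : |M| * y + |M| ≤ y * y := by nlinarith
    have e2 : y + |c| ≤ 2 * y := by linarith
    have e3 : (|M| * y + |M|) * (y + |c|) ≤ (y * y) * (y + |c|) := mul_le_mul_of_nonneg_right e1 (by linarith)
    have e1' : |M| * y + |M| ≤ (y * y) / 2 := by nlinarith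
    have e4 : (|M| * y + |M|) * (y + |c|) ≤ (y * y) / 2 * (2 * y) := mul_le_mul e1' e2 (by linarith) (by nlinarith)
    calc (|M| * y + |M|) * (y + |c|) ≤ (y * y) / 2 * (2 * y) := e4
      _ = y ^ 3 := by ring
      _ ≤ _ := h2
  filter_upwards [h0.eventually h1, h0.eventually_ge_atTop (1 + |c|), eventually_gt_atTop (0 : ℝ)] with L h2 h3 hL
  have h4 := neg_abs_le c
  have h5 := abs_nonneg c
  unfold GG
  rw [le_div_iff₀ (by linarith)]
  rw [Real.exp_log hL] at h2
  refine le_trans ?_ h2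
  have e1 : M * Real.log L + M ≤ |M| * Real.log L + |M| := by
    have := le_abs_self M
    nlinarith
  have e2 : Real.log L + c ≤ Real.log L + |c| := by linarith [le_abs_self c]
  have e4 : 0 ≤ Real.log L := by linarith
  have e3 : 0 ≤ |M| * Real.log L + |M| := by positivity
  nlinarith

/-- `G` is much smaller than `L`. -/
theorem GG_small (c : ℝ) {η : ℝ} (hη : 0 < η) : ∀ᶠ L : ℝ in atTop, GG c L ≤ η * L := by
  filter_upwards [loglog (c := c) (1 / η + 1), eventually_gt_atTop (0 : ℝ)] with L h1 hL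
  have h2 : 0 < 1 / η := by positivity
  unfold GG
  rw [div_le_iff₀ (by linarith)]
  have h3 : 1 ≤ η * (Real.log L + c) := by
    have : η * (1 / η) = 1 := by field_simp
    nlinarith
  nlinarith

theorem log_two_pow (j : ℕ) : Real.log ((2 : ℝ) ^ j) = j * Real.log 2 := Real.log_pow 2 j

theorem tendsto_log_two_pow : Tendsto (fun j : ℕ => Real.log ((2 : ℝ) ^ j)) atTop atTop := by
  have h1 : Tendsto (fun j : ℕ => (j : ℝ) * Real.log 2) atTop atTop :=
    tendsto_natCast_atTop_atTop.atTop_mul_const (Real.log_pos (by norm_num))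
  exact h1.congr (fun j => (log_two_pow j).symm)

theorem summable_log_two_pow : Summable (fun j : ℕ => 1 / Real.log ((2 : ℝ) ^ j) ^ 2) := by
  have h1 : ∀ j : ℕ, 1 / Real.log ((2 : ℝ) ^ j) ^ 2 = 1 / Real.log 2 ^ 2 * (1 / (j : ℝ) ^ 2) := by
    intro j
    rw [log_two_pow, mul_pow, one_div, one_div, one_div, mul_inv, mul_comm]
  simp_rw [h1]
  exact (Real.summable_one_div_nat_pow.2 (by norm_num)).mul_left _

/-- Every orbit leaves the set. -/
theorem finite_chain (hA : IsModel μ (level Q) A) (hf : Step f C n₀) {n : ℕ} (hn : n₀ ≤ n) :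
    ∀ᵐ ω ∂μ, ∃ M : ℕ, ∀ k : ℕ, (∀ i < k, f^[i] n ∈ A ω) → k ≤ M := by
  have hev : ∀ᶠ i : ℕ in atTop, level Q (f^[i] n) ≤ 1 / 2 := by
    have h1 := (hf.strict hn).tendsto_atTop
    have h2 := h1.eventually (hl.eventually_ge_atTop (2 * qq Q + 1))
    filter_upwards [h2, h1.eventually_ge_atTop 1] with i h3 h4
    have hq : 0 ≤ qq Q := by unfold qq; positivity
    have h5 : (0 : ℝ) < ((f^[i] n : ℕ) : ℝ) := by exact_mod_cast (by omega : 0 < f^[i] n)
    refine (level_le (x := ((f^[i] n : ℕ) : ℝ)) (by linarith) h5 (le_refl _)).trans ?_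
    rw [div_le_iff₀ (by linarith)]
    linarith
  obtain ⟨i₀, hi₀⟩ := eventually_atTop.1 hev
  have hs : Summable (fun k : ℕ => ((1 : ℝ) / 2) ^ k) := summable_geometric_of_lt_one (by norm_num) (by norm_num)
  have hb : ∀ᶠ k : ℕ in atTop, μ.real (all A ((Ico i₀ (i₀ + k)).image (fun i => f^[i] n))) ≤ ((1 : ℝ) / 2) ^ k := by
    refine Eventually.of_forall (fun k => ?_)
    rw [real_all hA, prod_image (fun i _ j _ hij => (hf.strict hn).injective hij)]
    refine (Finset.prod_le_prod (fun i _ => level_nonneg Q _) (fun i hi => ?_)).trans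
      (by rw [prod_const, Nat.card_Ico, Nat.add_sub_cancel_left])
    rw [mem_Ico] at hi
    exact hi₀ i hi.1
  filter_upwards [bc hs hb] with ω hω
  obtain ⟨k, hk⟩ := hω.exists
  refine ⟨i₀ + k, fun l hl => ?_⟩
  by_contra hcon
  push Not at hcon
  apply hk
  intro m hm
  rw [mem_image] at hm
  obtain ⟨i, hi, rfl⟩ := hm
  rw [mem_Ico] at hi
  exact hl i (by omega)

/-- **The upper bound for the lengths of the chains, second order.** -/
theorem chain_upper (hA : IsModel μ (level Q) A) (hQ : 1 ≤ Q) (hf : Step f C n₀) {ε : ℝ} (hε : 0 < ε) :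
    ∀ᵐ ω ∂μ, ∀ᶠ x : ℕ in atTop, ∀ n k : ℕ, n₀ ≤ n → n ≤ x → (∀ i < k, f^[i] n ∈ A ω) →
      (k : ℝ) ≤ GG (-Real.log (qq Q) - ε) (Real.log x) := by
  have hq := qq_pos hQ
  obtain ⟨c, hc⟩ : ∃ c, c = -Real.log (qq Q) - ε := ⟨_, rfl⟩
  rw [← hc]
  obtain ⟨K, hK⟩ : ∃ K : ℕ → ℕ, K = fun (j : ℕ) => ⌊GG c (Real.log ((2 : ℝ) ^ j))⌋₊ := ⟨_, rfl⟩
  obtain ⟨B, hB⟩ : ∃ B : ℕ → Set Ω, B = fun (j : ℕ) => ⋃ n ∈ (Ioc (2 ^ j) (2 ^ (j + 1))), all A (orb f n (K j)) := ⟨_, rfl⟩
  have hbound : ∀ᶠ j : ℕ in atTop, μ.real (B j) ≤ 1 / Real.log ((2 : ℝ) ^ j) ^ 2 := by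
    have g1 := tendsto_log_two_pow.eventually (GG_big c ((3 + |Real.log (qq Q)|) / ε))
    have g2 := tendsto_log_two_pow.eventually (loglog (c := c) 1)
    have g3 := tendsto_log_two_pow.eventually (loglog (c := -Real.log (qq Q)) 1)
    filter_upwards [g1, g2, g3, tendsto_log_two_pow.eventually_ge_atTop 1, two_pow_tendsto.eventually_ge_atTop n₀]
      with j h1 h2 h3 h4 h5
    obtain ⟨L, hL⟩ : ∃ L, L = Real.log ((2 : ℝ) ^ j) := ⟨_, rfl⟩
    rw [← hL] at h1 h2 h3 h4 ⊢
    have hL0 : 0 < L := by linarith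
    have hlogL : 0 ≤ Real.log L := Real.log_nonneg h4
    have e1 : μ.real (B j) ≤ (2 : ℝ) ^ j * (qq Q / L) ^ (K j) := by
      rw [hB]
      refine (measureReal_biUnion_finset_le _ _).trans ?_
      refine (sum_le_sum (g := fun _ => (qq Q / L) ^ (K j)) (fun n hn => ?_)).trans ?_
      · rw [mem_Ioc] at hn
        rw [hL]
        refine ch_le hA hf (by omega) (by positivity) ?_ (by rw [← hL]; exact hL0)
        have : ((2 ^ j : ℕ) : ℝ) ≤ n := by exact_mod_cast hn.1.le
        push_cast at this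
        exact this
      · rw [sum_const, Nat.card_Ioc, nsmul_eq_mul]
        have : 2 ^ (j + 1) - 2 ^ j = 2 ^ j := by rw [pow_succ]; omega
        rw [this]
        push_cast
        exact le_refl _
    refine e1.trans ?_
    have hKG : GG c L - 1 ≤ K j := by
      rw [hK, hL]
      exact (Nat.sub_one_lt_floor _).le
    have e2 : (qq Q / L) ^ (K j) ≤ Real.exp (-((GG c L - 1) * (Real.log L - Real.log (qq Q)))) := by
      rw [← Real.exp_log (show 0 < qq Q / L by positivity), ← Real.exp_nat_mul, Real.exp_le_exp,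
        Real.log_div hq.ne' hL0.ne']
      have : (GG c L - 1) * (Real.log L - Real.log (qq Q)) ≤ K j * (Real.log L - Real.log (qq Q)) :=
        mul_le_mul_of_nonneg_right hKG (by linarith)
      linarith
    have e3 : (2 : ℝ) ^ j = Real.exp L := by rw [hL, Real.exp_log (by positivity)]
    have e4 : (1 : ℝ) / L ^ 2 = Real.exp (-(2 * Real.log L)) := by
      rw [Real.exp_neg, mul_comm, Real.exp_mul, Real.exp_log hL0, one_div, Real.rpow_two]
    rw [e3, e4]
    refine (mul_le_mul_of_nonneg_left e2 (Real.exp_pos _).le).trans ?_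
    rw [← Real.exp_add, Real.exp_le_exp]
    have e5 : GG c L * (Real.log L + c) = L := by
      unfold GG
      field_simp
    have e6 : 3 * Real.log L + |Real.log (qq Q)| ≤ ε * GG c L := by
      have e7 := mul_le_mul_of_nonneg_left h1 hε.le
      have e8 : ε * ((3 + |Real.log (qq Q)|) / ε * Real.log L + (3 + |Real.log (qq Q)|) / ε) =
          (3 + |Real.log (qq Q)|) * Real.log L + (3 + |Real.log (qq Q)|) := by field_simp
      rw [e8] at e7
      have e9 : 0 ≤ |Real.log (qq Q)| * Real.log L := by positivity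
      linarith
    have e7 := neg_abs_le (Real.log (qq Q))
    have e8 : (GG c L - 1) * (Real.log L - Real.log (qq Q)) = L + ε * GG c L - (Real.log L - Real.log (qq Q)) := by
      have : Real.log L - Real.log (qq Q) = (Real.log L + c) + ε := by rw [hc]; ring
      rw [sub_mul, one_mul]
      congr 1
      rw [this, mul_add, e5]
      ring
    rw [e8]
    linarith
  have hfin : ∀ᵐ ω ∂μ, ∀ n : ℕ, n₀ ≤ n → ∃ M : ℕ, ∀ k : ℕ, (∀ i < k, f^[i] n ∈ A ω) → k ≤ M := by
    rw [ae_all_iff]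
    intro n
    by_cases hn : n₀ ≤ n
    · filter_upwards [finite_chain (μ := μ) hA hf hn] with ω hω _
      exact hω
    · filter_upwards with ω h
      exact absurd h hn
  filter_upwards [bc summable_log_two_pow hbound, hfin] with ω hω hω2
  have g2 := loglog (c := c) 1
  obtain ⟨L₀, hL₀⟩ := eventually_atTop.1 (g2.and (eventually_ge_atTop (1 : ℝ)))
  have hj1 : ∀ᶠ j : ℕ in atTop, L₀ ≤ Real.log ((2 : ℝ) ^ j) := tendsto_log_two_pow.eventually_ge_atTop L₀
  obtain ⟨J, hJ⟩ := eventually_atTop.1 (hω.and hj1)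
  -- the finitely many small starting points
  have hsmall : ∃ M : ℕ, ∀ n k : ℕ, n₀ ≤ n → n ≤ 2 ^ J → (∀ i < k, f^[i] n ∈ A ω) → k ≤ M := by
    choose! M hM using hω2
    refine ⟨(range (2 ^ J + 1)).sup M, fun n k h1 h2 h3 => (hM n h1 k h3).trans ?_⟩
    exact le_sup (f := M) (mem_range.2 (by omega))
  obtain ⟨M, hM⟩ := hsmall
  filter_upwards [hl.eventually (GG_big c M), hl.eventually_ge_atTop (1 : ℝ), hl.eventually_ge_atTop L₀,
    eventually_ge_atTop (2 ^ J)] with x h1 h2 h3 h4 n k hn hnx hch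
  rcases le_or_gt n (2 ^ J) with hnJ | hnJ
  · have e1 : (k : ℝ) ≤ M := by exact_mod_cast hM n k hn hnJ hch
    have e2 : 0 ≤ (M : ℝ) * Real.log (Real.log x) := mul_nonneg (Nat.cast_nonneg _) (Real.log_nonneg h2)
    linarith
  · -- the dyadic block of n
    have hn2 : 2 ≤ n := by
      have := Nat.one_le_two_pow (n := J)
      omega
    obtain ⟨j, hj⟩ : ∃ j, j = Nat.log 2 (n - 1) := ⟨_, rfl⟩
    have h5 : 2 ^ j ≤ n - 1 := by rw [hj]; exact Nat.pow_log_le_self 2 (by omega)
    have h6 : n - 1 < 2 ^ (j + 1) := by rw [hj]; exact Nat.lt_pow_succ_log_self (by norm_num) _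
    have h7 : J ≤ j := by
      rw [hj]
      exact (Nat.le_log_iff_pow_le (by norm_num) (by omega)).2 (by omega)
    obtain ⟨h8, h9⟩ := hJ j h7
    have h10 : k ≤ K j := by
      by_contra hcon
      push Not at hcon
      apply h8
      rw [hB]
      refine Set.mem_biUnion (x := n) (by
        show n ∈ Ioc (2 ^ j) (2 ^ (j + 1))
        rw [mem_Ioc]
        omega) (fun m hm => ?_)
      rw [mem_orb] at hm
      obtain ⟨i, hi, rfl⟩ := hm
      exact hch i (by omega)
    have h11 : (K j : ℝ) ≤ GG c (Real.log ((2 : ℝ) ^ j)) := by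
      rw [hK]
      refine Nat.floor_le ?_
      unfold GG
      have := hL₀ _ h9
      exact div_nonneg (by linarith [this.2]) (by linarith [this.1])
    have h12 : GG c (Real.log ((2 : ℝ) ^ j)) ≤ GG c (Real.log x) := by
      have e1 := hL₀ _ h9
      refine GG_mono (by linarith [e1.2]) e1.1 ?_
      refine Real.log_le_log (by positivity) ?_
      have : 2 ^ j ≤ x := by omega
      exact_mod_cast this
    have h13 : (k : ℝ) ≤ K j := by exact_mod_cast h10
    linarith

end Pool.Agent.Q120.GM
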