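import Pool.Agent.Q120.GM.Gum2

/-!
# The limit law of the maximal gap: the expected number
-/

set_option autoImplicit false

namespace Pool.Agent.Q120.GM

open Finset MeasureTheory ProbabilityTheory Filter Pool.Agent.Q120.AD
open scoped Topology

variable {Q : ℕ}

theorem one_sub_le {p : ℝ} (h0 : 0 ≤ p) (h1 : p ≤ 1) : 1 - p ≤ Real.exp (-(p + p ^ 2 / 2)) := by
  rcases h1.eq_or_lt with h | h
  · rw [h]
    simp only [sub_self]
    exact (Real.exp_pos _).le
  · have h2 : 0 < 1 - p := by linarith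
    have h3 : Real.log (1 - p) ≤ -(p + p ^ 2 / 2) := by
      have h5 : p + p ^ 2 / 2 ≤ -Real.log (1 - p) := by
        have h6 := Real.hasSum_pow_div_log_of_abs_lt_one (x := p) (by rw [abs_of_nonneg h0]; exact h)
        have h7 := sum_le_hasSum (range 2) (fun i _ => by positivity) h6
        simp only [sum_range_succ, range_zero, sum_empty] at h7
        norm_num at h7
        linarith
      linarith
    calc 1 - p = Real.exp (Real.log (1 - p)) := (Real.exp_log h2).symm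
      _ ≤ _ := Real.exp_le_exp.2 h3

theorem le_one_sub {p : ℝ} (h0 : 0 ≤ p) (h1 : p ≤ 1 / 3) : Real.exp (-(p + p ^ 2 / 2 + p ^ 3)) ≤ 1 - p := by
  have h2 : 0 < 1 - p := by linarith
  have h3 := Real.quadratic_le_exp_of_nonneg (x := p + p ^ 2 / 2 + p ^ 3) (by positivity)
  have h4 : 1 + p + p ^ 2 + 3 / 2 * p ^ 3 ≤ Real.exp (p + p ^ 2 / 2 + p ^ 3) := by
    refine le_trans ?_ h3
    have e1 : 0 ≤ p ^ 4 := by positivity
    have e2 : 0 ≤ p ^ 5 := by positivity
    have e3 : 0 ≤ p ^ 6 := by positivity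
    nlinarith
  have h5 : 1 ≤ (1 - p) * Real.exp (p + p ^ 2 / 2 + p ^ 3) := by
    have e1 : 1 ≤ (1 - p) * (1 + p + p ^ 2 + 3 / 2 * p ^ 3) := by
      have e2 : (1 - p) * (1 + p + p ^ 2 + 3 / 2 * p ^ 3) = 1 + p ^ 3 * (1 / 2 - 3 / 2 * p) := by ring
      rw [e2]
      have : 0 ≤ p ^ 3 * (1 / 2 - 3 / 2 * p) := mul_nonneg (by positivity) (by linarith)
      linarith
    exact e1.trans (mul_le_mul_of_nonneg_left h4 h2.le)
  rw [Real.exp_neg, inv_le_iff_one_le_mul₀ (Real.exp_pos _)]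
  exact h5

/-- The bounds for the product over an interval. -/
theorem prod_bounds (hQ : 1 ≤ Q) {n T : ℕ} {a b : ℝ} (hn : 2 ≤ n) (ha : a = Real.log n) (hb : Real.log ((n + T : ℕ) : ℝ) ≤ b)
    (hqa : 3 * qq Q ≤ a) :
    Real.exp (-(((T : ℝ) + Q) * (1 / a + qq Q / (2 * a ^ 2) + qq Q ^ 2 / a ^ 3))) ≤ ∏ m ∈ Ioc n (n + T), (1 - level Q m) ∧
    (((Q : ℝ) ≤ T) → ∏ m ∈ Ioc n (n + T), (1 - level Q m) ≤
      Real.exp (-(((T : ℝ) - Q) * (1 / b + qq Q / (2 * b ^ 2))))) := by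
  classical
  have hq := qq_pos hQ
  have hn0 : (0 : ℝ) < n := by exact_mod_cast (by omega : 0 < n)
  have ha0 : 0 < a := by rw [ha]; exact Real.log_pos (by exact_mod_cast hn)
  have hb0 : 0 < b := by
    refine lt_of_lt_of_le ?_ hb
    refine Real.log_pos ?_
    exact_mod_cast (by omega : 1 < n + T)
  have hlev : ∀ m ∈ Ioc n (n + T), level Q m ≤ qq Q / a := by
    intro m hm
    rw [mem_Ioc] at hm
    rw [ha]
    exact level_le (by rw [← ha]; exact ha0) hn0 (by exact_mod_cast hm.1.le)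
  have hlev2 : ∀ m ∈ Ioc n (n + T), m.Coprime Q → qq Q / b ≤ level Q m := by
    intro m hm hc
    rw [mem_Ioc] at hm
    have h1 : qq Q / Real.log ((n + T : ℕ) : ℝ) ≤ level Q m :=
      le_level (x := n) (by rw [← ha]; linarith) (by rw [← ha]; exact ha0) hn0 (by exact_mod_cast hm.1.le)
        (by exact_mod_cast hm.2) hc
    refine le_trans ?_ h1
    exact div_le_div_of_nonneg_left hq.le (Real.log_pos (by exact_mod_cast (by omega : 1 < n + T))) hb
  have hhalf : qq Q / a ≤ 1 / 3 := by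
    rw [div_le_div_iff₀ ha0 (by norm_num)]
    linarith
  have hprod : ∏ m ∈ Ioc n (n + T), (1 - level Q m) = ∏ m ∈ (Ioc n (n + T)).filter (fun m => m.Coprime Q), (1 - level Q m) := by
    rw [prod_filter]
    refine prod_congr rfl (fun m _ => ?_)
    by_cases h : m.Coprime Q
    · rw [if_pos h]
    · rw [if_neg h]
      unfold level
      rw [if_neg h, sub_zero]
  obtain ⟨c1, c2⟩ := cop_count hQ n T
  obtain ⟨C, hC⟩ : ∃ C, C = (Ioc n (n + T)).filter (fun m => m.Coprime Q) := ⟨_, rfl⟩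
  rw [← hC] at c1 c2 hprod
  have hCm : ∀ m ∈ C, m ∈ Ioc n (n + T) ∧ m.Coprime Q := by
    intro m hm
    rw [hC, mem_filter] at hm
    exact hm
  rw [hprod]
  constructor
  · have h1 : ∀ m ∈ C, Real.exp (-(qq Q / a + (qq Q / a) ^ 2 / 2 + (qq Q / a) ^ 3)) ≤ 1 - level Q m := by
      intro m hm
      have h2 := hlev m (hCm m hm).1
      refine (le_one_sub (by positivity) hhalf).trans ?_
      linarith
    have h2 : ∏ m ∈ C, Real.exp (-(qq Q / a + (qq Q / a) ^ 2 / 2 + (qq Q / a) ^ 3)) ≤ ∏ m ∈ C, (1 - level Q m) :=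
      prod_le_prod (fun m _ => (Real.exp_pos _).le) h1
    refine le_trans ?_ h2
    rw [prod_const, ← Real.exp_nat_mul]
    apply Real.exp_le_exp.2
    have h3 : 0 ≤ qq Q / a + (qq Q / a) ^ 2 / 2 + (qq Q / a) ^ 3 := by positivity
    have h4 : (C.card : ℝ) * (qq Q / a + (qq Q / a) ^ 2 / 2 + (qq Q / a) ^ 3) ≤
        ((T : ℝ) + Q) / qq Q * (qq Q / a + (qq Q / a) ^ 2 / 2 + (qq Q / a) ^ 3) := mul_le_mul_of_nonneg_right c2 h3
    have h5 : ((T : ℝ) + Q) / qq Q * (qq Q / a + (qq Q / a) ^ 2 / 2 + (qq Q / a) ^ 3) =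
        ((T : ℝ) + Q) * (1 / a + qq Q / (2 * a ^ 2) + qq Q ^ 2 / a ^ 3) := by
      field_simp
    rw [h5] at h4
    linarith
  · intro hTQ
    have h1 : ∀ m ∈ C, 1 - level Q m ≤ Real.exp (-(qq Q / b + (qq Q / b) ^ 2 / 2)) := by
      intro m hm
      have h2 := hlev2 m (hCm m hm).1 (hCm m hm).2
      have h3 := hlev m (hCm m hm).1
      refine le_trans ?_ (one_sub_le (by positivity) (by linarith))
      linarith
    have h2 : ∏ m ∈ C, (1 - level Q m) ≤ ∏ m ∈ C, Real.exp (-(qq Q / b + (qq Q / b) ^ 2 / 2)) :=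
      prod_le_prod (fun m _ => by linarith [level_le_one Q m]) h1
    refine h2.trans ?_
    rw [prod_const, ← Real.exp_nat_mul]
    apply Real.exp_le_exp.2
    have h3 : 0 ≤ qq Q / b + (qq Q / b) ^ 2 / 2 := by positivity
    have h4 : ((T : ℝ) - Q) / qq Q * (qq Q / b + (qq Q / b) ^ 2 / 2) ≤ (C.card : ℝ) * (qq Q / b + (qq Q / b) ^ 2 / 2) :=
      mul_le_mul_of_nonneg_right c1 h3
    have h5 : ((T : ℝ) - Q) / qq Q * (qq Q / b + (qq Q / b) ^ 2 / 2) = ((T : ℝ) - Q) * (1 / b + qq Q / (2 * b ^ 2)) := by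
      field_simp
    rw [h5] at h4
    linarith

end Pool.Agent.Q120.GM
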