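import Pool.Agent.Q120.GM.Prog
import Pool.Agent.Q120.GM.Gap
import Pool.Agent.Q120.GM.AP
import Pool.Agent.Q120.GM.Gum3

/-!
# Windows without summands: probabilities
-/

set_option autoImplicit false

namespace Pool.Agent.Q120.GM

open Finset MeasureTheory ProbabilityTheory Filter Pool.Agent.Q120.AD
open scoped Topology

variable {Ω : Type*} [MeasurableSpace Ω] {μ : Measure Ω} [IsProbabilityMeasure μ] {p : ℕ → ℝ} {A : Ω → Set ℕ} {Q : ℕ}

/-- `r` and `N - r` are coprime to `Q`. -/
def Good3 (Q N r : ℕ) : Prop := r.Coprime Q ∧ IsCoprime ((N : ℤ) - r) Q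

theorem good3_periodic (Q N : ℕ) : Function.Periodic (Good3 Q N) Q := by
  intro r
  unfold Good3
  rw [eq_iff_iff]
  push_cast
  rw [show (N : ℤ) - (r + Q) = (N - r) + (-1) * Q by ring, IsCoprime.add_mul_right_left_iff]
  simp

open Classical in
/-- The singular series at level `Q` for the representations of `N` as a sum of two elements. -/
noncomputable def sing3 (Q N : ℕ) : ℝ := (((range Q).filter (Good3 Q N)).card : ℝ) / Q * qq Q ^ 2

theorem sing3_nonneg (Q N : ℕ) : 0 ≤ sing3 Q N := by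
  unfold sing3
  positivity

theorem sing3_le (hQ : 1 ≤ Q) (N : ℕ) : sing3 Q N ≤ qq Q ^ 2 := by
  classical
  have h3 : (0 : ℝ) < Q := by exact_mod_cast hQ
  have h1 : (((range Q).filter (Good3 Q N)).card : ℝ) ≤ Q := by
    exact_mod_cast (card_filter_le _ _).trans (le_of_eq (card_range Q))
  unfold sing3
  have h2 : (((range Q).filter (Good3 Q N)).card : ℝ) / Q ≤ 1 := by rw [div_le_one h3]; exact h1
  have := mul_le_mul_of_nonneg_right h2 (sq_nonneg (qq Q))
  linarith

theorem le_sing3 (hQ : 1 ≤ Q) {N : ℕ} (h : 0 < sing3 Q N) : 1 / (Q : ℝ) ≤ sing3 Q N := by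
  classical
  have h3 : (0 : ℝ) < Q := by exact_mod_cast hQ
  have h4 : (0 : ℝ) < Nat.totient Q := by exact_mod_cast Nat.totient_pos.2 hQ
  have h5 : (Nat.totient Q : ℝ) ≤ Q := by exact_mod_cast Nat.totient_le Q
  have h6 : 1 ≤ qq Q := by unfold qq; rw [le_div_iff₀ h4]; linarith
  have h7 : 1 ≤ qq Q ^ 2 := one_le_pow₀ h6
  unfold sing3 at h ⊢
  have h8 : 0 < ((range Q).filter (Good3 Q N)).card := by
    rcases Nat.eq_zero_or_pos ((range Q).filter (Good3 Q N)).card with h9 | h9
    · rw [h9] at h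
      simp at h
    · exact h9
  have h9 : (1 : ℝ) ≤ (((range Q).filter (Good3 Q N)).card : ℝ) := by exact_mod_cast h8
  calc 1 / (Q : ℝ) = 1 / Q * 1 := (mul_one _).symm
    _ ≤ (((range Q).filter (Good3 Q N)).card : ℝ) / Q * qq Q ^ 2 :=
      mul_le_mul (div_le_div_of_nonneg_right h9 h3.le) h7 zero_le_one (by positivity)

/-- The pairs. -/
def gp (u v i : ℕ) : Finset ℕ := {u + i, v - i}

theorem prod_gp {u v w i : ℕ} (h1 : u + 2 * w < v) (hi : i ∈ Ico 1 (1 + w)) (f : ℕ → ℝ) :
    ∏ m ∈ gp u v i, f m = f (u + i) * f (v - i) := by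
  rw [mem_Ico] at hi
  unfold gp
  rw [prod_pair (by omega)]

theorem gp_disjoint {u v w i j : ℕ} (h1 : u + 2 * w < v) (hi : i ∈ Ico 1 (1 + w)) (hj : j ∈ Ico 1 (1 + w)) (hij : i ≠ j) :
    Disjoint (gp u v i) (gp u v j) := by
  rw [mem_Ico] at hi hj
  unfold gp
  rw [Finset.disjoint_left]
  intro m hm hm'
  rw [mem_insert, mem_singleton] at hm hm'
  omega

/-- The probability of a window without summands. -/
theorem real_gold (hA : IsModel μ p A) {u v w : ℕ} (h1 : u + 2 * w < v) :
    μ.real (none A (Ico 1 (1 + w)) (gp u v)) = ∏ i ∈ Ico 1 (1 + w), (1 - p (u + i) * p (v - i)) := by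
  rw [real_none_disjoint hA _ _ (fun i hi j hj hij => gp_disjoint h1 hi hj hij)]
  exact prod_congr rfl (fun i hi => by rw [prod_gp h1 hi])

theorem good3_iff {u v w i : ℕ} (h1 : u + 2 * w < v) (hi : i ∈ Ico 1 (1 + w)) :
    ((u + i).Coprime Q ∧ (v - i).Coprime Q) ↔ Good3 Q (u + v) (u + i) := by
  rw [mem_Ico] at hi
  unfold Good3
  rw [← Nat.isCoprime_iff_coprime (m := v - i), Nat.cast_sub (by omega : i ≤ v)]
  push_cast
  rw [show (u : ℤ) + v - (u + i) = v - i by ring]

/-- The number of the good pairs in the window. -/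
theorem count3 (hQ : 1 ≤ Q) {u v w : ℕ} (h1 : u + 2 * w < v) [DecidablePred (fun i => (u + i).Coprime Q ∧ (v - i).Coprime Q)] :
    ((w : ℝ) - Q) * (sing3 Q (u + v) / qq Q ^ 2) ≤
      (((Ico 1 (1 + w)).filter (fun i => (u + i).Coprime Q ∧ (v - i).Coprime Q)).card : ℝ) ∧
    (((Ico 1 (1 + w)).filter (fun i => (u + i).Coprime Q ∧ (v - i).Coprime Q)).card : ℝ) ≤
      ((w : ℝ) + Q) * (sing3 Q (u + v) / qq Q ^ 2) := by
  classical
  have hq := qq_pos hQ
  have h2 := count_per hQ (Good3 Q (u + v)) (good3_periodic Q (u + v)) (u + 1) w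
  have h3 : ((Ico (u + 1) (u + 1 + w)).filter (Good3 Q (u + v))).card =
      ((Ico 1 (1 + w)).filter (fun i => (u + i).Coprime Q ∧ (v - i).Coprime Q)).card := by
    have h4 : (Ico (u + 1) (u + 1 + w)).filter (Good3 Q (u + v)) =
        ((Ico 1 (1 + w)).filter (fun i => (u + i).Coprime Q ∧ (v - i).Coprime Q)).image (fun i => u + i) := by
      ext m
      rw [mem_filter, mem_image]
      constructor
      · rintro ⟨h5, h6⟩
        rw [mem_Ico] at h5
        refine ⟨m - u, ?_, by omega⟩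
        rw [mem_filter]
        have h7 : m - u ∈ Ico 1 (1 + w) := mem_Ico.2 ⟨by omega, by omega⟩
        refine ⟨h7, ?_⟩
        rw [good3_iff h1 h7, show u + (m - u) = m by omega]
        exact h6
      · rintro ⟨i, h5, rfl⟩
        rw [mem_filter] at h5
        have h7 := mem_Ico.1 h5.1
        refine ⟨mem_Ico.2 ⟨by omega, by omega⟩, ?_⟩
        rw [← good3_iff h1 h5.1]
        exact h5.2
    rw [h4, card_image_of_injective _ (add_right_injective u)]
  have h5 : (((range Q).filter (Good3 Q (u + v))).card : ℝ) / Q = sing3 Q (u + v) / qq Q ^ 2 := by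
    unfold sing3
    field_simp
  rw [h3, h5] at h2
  exact h2

/-- The expected number of representations in a window. -/
theorem gold_sum_le (hQ : 1 ≤ Q) {u v w : ℕ} (h1 : u + 2 * w < v) {x y : ℝ} (hx : 1 < x) (hy : 1 < y) (hxu : x ≤ u)
    (hyv : y ≤ (v : ℝ) - w) :
    ∑ i ∈ Ico 1 (1 + w), level Q (u + i) * level Q (v - i) ≤
      ((w : ℝ) + Q) * sing3 Q (u + v) / (Real.log x * Real.log y) := by
  classical
  have hq := qq_pos hQ
  have hlx : 0 < Real.log x := Real.log_pos hx
  have hly : 0 < Real.log y := Real.log_pos hy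
  have h2 : ∑ i ∈ Ico 1 (1 + w), level Q (u + i) * level Q (v - i) ≤
      ∑ i ∈ (Ico 1 (1 + w)).filter (fun i => (u + i).Coprime Q ∧ (v - i).Coprime Q), qq Q / Real.log x * (qq Q / Real.log y) := by
    rw [sum_filter]
    refine sum_le_sum (fun i hi => ?_)
    have hi' := mem_Ico.1 hi
    split_ifs with h
    · refine mul_le_mul (level_le hlx (by linarith) ?_) (level_le hly (by linarith) ?_) (level_nonneg _ _) (by positivity)
      · push_cast
        have : (0 : ℝ) ≤ i := Nat.cast_nonneg i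
        linarith
      · rw [Nat.cast_sub (by omega : i ≤ v)]
        have : (i : ℝ) ≤ w := by exact_mod_cast (by omega : i ≤ w)
        linarith
    · rw [not_and_or] at h
      rcases h with h | h
      · have : level Q (u + i) = 0 := by unfold level; rw [if_neg h]
        rw [this, zero_mul]
      · have : level Q (v - i) = 0 := by unfold level; rw [if_neg h]
        rw [this, mul_zero]
  refine h2.trans ?_
  rw [sum_const, nsmul_eq_mul]
  have h3 := (count3 hQ h1).2
  calc (((Ico 1 (1 + w)).filter (fun i => (u + i).Coprime Q ∧ (v - i).Coprime Q)).card : ℝ) *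
        (qq Q / Real.log x * (qq Q / Real.log y))
      ≤ ((w : ℝ) + Q) * (sing3 Q (u + v) / qq Q ^ 2) * (qq Q / Real.log x * (qq Q / Real.log y)) :=
        mul_le_mul_of_nonneg_right h3 (by positivity)
    _ = ((w : ℝ) + Q) * sing3 Q (u + v) / (Real.log x * Real.log y) := by field_simp

theorem le_gold_sum (hQ : 1 ≤ Q) {u v w : ℕ} (h1 : u + 2 * w < v) {x y : ℝ} (hq1 : qq Q ≤ Real.log u) (hu : 1 < u)
    (hxu : (u : ℝ) + w ≤ x) (hyv : (v : ℝ) ≤ y) :
    ((w : ℝ) - Q) * sing3 Q (u + v) / (Real.log x * Real.log y) ≤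
      ∑ i ∈ Ico 1 (1 + w), level Q (u + i) * level Q (v - i) := by
  classical
  have hq := qq_pos hQ
  have hu0 : (1 : ℝ) < u := by exact_mod_cast hu
  have hlu : 0 < Real.log (u : ℝ) := Real.log_pos hu0
  have hw0 : (0 : ℝ) ≤ w := Nat.cast_nonneg w
  have hlx : 0 < Real.log x := Real.log_pos (by linarith)
  have huv : (u : ℝ) + 2 * w < v := by exact_mod_cast h1
  have hly : 0 < Real.log y := Real.log_pos (by linarith)
  have h2 : ∑ i ∈ (Ico 1 (1 + w)).filter (fun i => (u + i).Coprime Q ∧ (v - i).Coprime Q), qq Q / Real.log x * (qq Q / Real.log y) ≤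
      ∑ i ∈ Ico 1 (1 + w), level Q (u + i) * level Q (v - i) := by
    rw [sum_filter]
    refine sum_le_sum (fun i hi => ?_)
    have hi' := mem_Ico.1 hi
    have hir : (i : ℝ) ≤ w := by exact_mod_cast (by omega : i ≤ w)
    have hi0 : (0 : ℝ) ≤ i := Nat.cast_nonneg i
    split_ifs with h
    · refine mul_le_mul ?_ ?_ (by positivity) (level_nonneg _ _)
      · refine le_level (x := u) hq1 hlu (by linarith) (by push_cast; linarith) (by push_cast; linarith) h.1
      · refine le_level (x := u) hq1 hlu (by linarith) ?_ ?_ h.2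
        · rw [Nat.cast_sub (by omega : i ≤ v)]
          linarith
        · rw [Nat.cast_sub (by omega : i ≤ v)]
          linarith
    · exact mul_nonneg (level_nonneg _ _) (level_nonneg _ _)
  refine le_trans ?_ h2
  rw [sum_const, nsmul_eq_mul]
  have h3 := (count3 hQ h1).1
  calc ((w : ℝ) - Q) * sing3 Q (u + v) / (Real.log x * Real.log y)
      = ((w : ℝ) - Q) * (sing3 Q (u + v) / qq Q ^ 2) * (qq Q / Real.log x * (qq Q / Real.log y)) := by field_simp
    _ ≤ _ := mul_le_mul_of_nonneg_right h3 (by positivity)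

/-- The upper bound for the probability of a window without summands. -/
theorem gold_le (hA : IsModel μ (level Q) A) (hQ : 1 ≤ Q) {u v w : ℕ} (h1 : u + 2 * w < v) {x y : ℝ} (hq1 : qq Q ≤ Real.log u)
    (hu : 1 < u) (hxu : (u : ℝ) + w ≤ x) (hyv : (v : ℝ) ≤ y) :
    μ.real (none A (Ico 1 (1 + w)) (gp u v)) ≤
      Real.exp (-(((w : ℝ) - Q) * sing3 Q (u + v) / (Real.log x * Real.log y))) := by
  rw [real_gold hA h1]
  have h2 : ∏ i ∈ Ico 1 (1 + w), (1 - level Q (u + i) * level Q (v - i)) ≤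
      ∏ i ∈ Ico 1 (1 + w), Real.exp (-(level Q (u + i) * level Q (v - i))) := by
    refine prod_le_prod (fun i _ => ?_) (fun i _ => ?_)
    · have := mul_le_one₀ (level_le_one Q (u + i)) (level_nonneg Q (v - i)) (level_le_one Q (v - i))
      linarith
    · have := Real.add_one_le_exp (-(level Q (u + i) * level Q (v - i)))
      linarith
  refine h2.trans ?_
  rw [← Real.exp_sum, sum_neg_distrib]
  apply Real.exp_le_exp.2
  have := le_gold_sum hQ h1 hq1 hu hxu hyv
  linarith

/-- The lower bound. -/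
theorem le_gold (hA : IsModel μ (level Q) A) (hQ : 1 ≤ Q) {u v w : ℕ} (h1 : u + 2 * w < v) {x y : ℝ} (hx : 1 < x) (hy : 1 < y)
    (hxu : x ≤ u) (hyv : y ≤ (v : ℝ) - w) (hx2 : 2 * qq Q ≤ Real.log x) (hy2 : 2 * qq Q ≤ Real.log y) :
    Real.exp (-((1 + qq Q ^ 2 / (Real.log x * Real.log y)) * (((w : ℝ) + Q) * sing3 Q (u + v) / (Real.log x * Real.log y)))) ≤
      μ.real (none A (Ico 1 (1 + w)) (gp u v)) := by
  have hq := qq_pos hQ
  have hlx : 0 < Real.log x := Real.log_pos hx
  have hly : 0 < Real.log y := Real.log_pos hy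
  obtain ⟨z, hz⟩ : ∃ z, z = qq Q ^ 2 / (Real.log x * Real.log y) := ⟨_, rfl⟩
  have hz0 : 0 < z := by rw [hz]; positivity
  have hz1 : z ≤ 1 / 4 := by
    rw [hz, div_le_div_iff₀ (by positivity) (by norm_num)]
    nlinarith [mul_le_mul hx2 hy2 (by positivity) hlx.le]
  rw [real_gold hA h1, ← hz]
  have hpi : ∀ i ∈ Ico 1 (1 + w), level Q (u + i) * level Q (v - i) ≤ z := by
    intro i hi
    have hi' := mem_Ico.1 hi
    rw [hz]
    have : qq Q ^ 2 / (Real.log x * Real.log y) = qq Q / Real.log x * (qq Q / Real.log y) := by field_simp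
    rw [this]
    refine mul_le_mul (level_le hlx (by linarith) ?_) (level_le hly (by linarith) ?_) (level_nonneg _ _) (by positivity)
    · push_cast
      have : (0 : ℝ) ≤ i := Nat.cast_nonneg i
      linarith
    · rw [Nat.cast_sub (by omega : i ≤ v)]
      have : (i : ℝ) ≤ w := by exact_mod_cast (by omega : i ≤ w)
      linarith
  have h2 : ∏ i ∈ Ico 1 (1 + w), Real.exp (-((1 + z) * (level Q (u + i) * level Q (v - i)))) ≤
      ∏ i ∈ Ico 1 (1 + w), (1 - level Q (u + i) * level Q (v - i)) := by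
    refine prod_le_prod (fun i _ => (Real.exp_pos _).le) (fun i hi => ?_)
    have h3 := hpi i hi
    have h4 : 0 ≤ level Q (u + i) * level Q (v - i) := mul_nonneg (level_nonneg _ _) (level_nonneg _ _)
    obtain ⟨s, hs⟩ : ∃ s, s = level Q (u + i) * level Q (v - i) := ⟨_, rfl⟩
    rw [← hs] at h3 h4 ⊢
    refine le_trans ?_ (le_one_sub h4 (by linarith))
    apply Real.exp_le_exp.2
    have : s ^ 2 / 2 + s ^ 3 ≤ z * s := by nlinarith
    linarith
  refine le_trans ?_ h2
  rw [← Real.exp_sum, sum_neg_distrib, ← mul_sum]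
  apply Real.exp_le_exp.2
  have := gold_sum_le hQ h1 hx hy hxu hyv
  have h5 := mul_le_mul_of_nonneg_left this (by linarith : 0 ≤ 1 + z)
  linarith

end Pool.Agent.Q120.GM
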