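import Pool.Agent.Q120.GM.Gold1
import Pool.Agent.Q120.GM.Count

/-!
# Windows without summands: second moment and existence
-/

set_option autoImplicit false

namespace Pool.Agent.Q120.GM

open Finset MeasureTheory ProbabilityTheory Filter Pool.Agent.Q120.AD
open scoped Topology

variable {Ω : Type*} [MeasurableSpace Ω] {μ : Measure Ω} [IsProbabilityMeasure μ] {p : ℕ → ℝ} {A : Ω → Set ℕ} {Q : ℕ}

theorem sing3_mod {N N' : ℕ} (h : N ≡ N' [MOD Q]) : sing3 Q N = sing3 Q N' := by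
  classical
  unfold sing3
  have h1 : ∀ r, Good3 Q N r ↔ Good3 Q N' r := by
    intro r
    unfold Good3
    have h2 : (Q : ℤ) ∣ (N' : ℤ) - N := (Nat.modEq_iff_dvd).1 h
    obtain ⟨k, hk⟩ := h2
    have h3 : (N' : ℤ) - r = (N - r) + k * Q := by linarith
    rw [h3, IsCoprime.add_mul_right_left_iff]
  have h2 : (range Q).filter (Good3 Q N) = (range Q).filter (Good3 Q N') := filter_congr (fun r _ => h1 r)
  rw [h2]

/-- Two families sharing one member of the pairs. -/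
theorem share (hA : IsModel μ p A) (J : Finset ℕ) (a b c : ℕ → ℕ)
    (hd : ∀ i ∈ J, ∀ j ∈ J, i ≠ j → Disjoint ({a i, b i, c i} : Set ℕ) {a j, b j, c j})
    (hne : ∀ i ∈ J, a i ≠ b i ∧ a i ≠ c i ∧ b i ≠ c i)
    (hs : ∀ i ∈ J, p (a i) * p (b i) ≤ 3 / 8 ∧ p (a i) * p (c i) ≤ 3 / 8) :
    μ.real (none A J (fun i => {a i, b i}) ∩ none A J (fun i => {a i, c i})) ≤
      Real.exp (4 * ∑ i ∈ J, p (a i) * p (b i) * p (c i)) *
        ((∏ i ∈ J, (1 - p (a i) * p (b i))) * ∏ i ∈ J, (1 - p (a i) * p (c i))) := by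
  classical
  obtain ⟨G, hG⟩ : ∃ G : ℕ → Set Ω, G = fun i => (all A {a i, b i} ∪ all A {a i, c i})ᶜ := ⟨_, rfl⟩
  have h1 : none A J (fun i => {a i, b i}) ∩ none A J (fun i => {a i, c i}) = ⋂ i ∈ J, G i := by
    ext ω
    rw [Set.mem_iInter₂, hG]
    constructor
    · rintro ⟨h2, h3⟩ i hi h4
      rcases h4 with h4 | h4
      · exact h2 i hi h4
      · exact h3 i hi h4
    · intro h2
      exact ⟨fun i hi h3 => h2 i hi (Or.inl h3), fun i hi h3 => h2 i hi (Or.inr h3)⟩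
  have hmeas : ∀ T : Finset ℕ, MeasurableSet (all A T) := fun T => F_le hA Set.univ _ (F_all (fun i _ => Set.mem_univ i))
  have h2 : μ.real (⋂ i ∈ J, G i) = ∏ i ∈ J, μ.real (G i) := by
    refine indep_many hA J (fun i => {a i, b i, c i}) hd G (fun i hi => ?_)
    rw [hG]
    refine MeasurableSet.compl (MeasurableSet.union (F_all (fun m hm => ?_)) (F_all (fun m hm => ?_)))
    · rw [mem_insert, mem_singleton] at hm
      rcases hm with rfl | rfl <;> simp
    · rw [mem_insert, mem_singleton] at hm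
      rcases hm with rfl | rfl <;> simp
  have h3 : ∀ i ∈ J, μ.real (G i) = 1 - p (a i) * p (b i) - p (a i) * p (c i) + p (a i) * p (b i) * p (c i) := by
    intro i hi
    obtain ⟨n1, n2, n3⟩ := hne i hi
    rw [hG]
    simp only
    rw [probReal_compl_eq_one_sub ((hmeas _).union (hmeas _))]
    have h4 := measureReal_union_add_inter (μ := μ) (s := all A {a i, b i}) (t := all A {a i, c i}) (hmeas _)
    have h5 : all A {a i, b i} ∩ all A {a i, c i} = all A {a i, b i, c i} := by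
      ext ω
      simp only [all, Set.mem_inter_iff, Set.mem_setOf_eq, mem_insert, mem_singleton, forall_eq_or_imp, forall_eq]
      tauto
    rw [h5, real_all hA, real_all hA, real_all hA, prod_pair n1, prod_pair n2] at h4
    have h6 : ∏ m ∈ ({a i, b i, c i} : Finset ℕ), p m = p (a i) * p (b i) * p (c i) := by
      rw [prod_insert (by simp [n1, n2]), prod_pair n3]
      ring
    rw [h6] at h4
    linarith
  rw [h1, h2]
  have h4 : ∀ i ∈ J, μ.real (G i) ≤ Real.exp (4 * (p (a i) * p (b i) * p (c i))) *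
      ((1 - p (a i) * p (b i)) * (1 - p (a i) * p (c i))) := by
    intro i hi
    rw [h3 i hi]
    obtain ⟨s1, s2⟩ := hs i hi
    have pa := p_nonneg hA (a i)
    have pb := p_nonneg hA (b i)
    have pc := p_nonneg hA (c i)
    obtain ⟨x, hx⟩ : ∃ x, x = p (a i) * p (b i) := ⟨_, rfl⟩
    obtain ⟨y, hy⟩ : ∃ y, y = p (a i) * p (c i) := ⟨_, rfl⟩
    obtain ⟨z, hz⟩ : ∃ z, z = p (a i) * p (b i) * p (c i) := ⟨_, rfl⟩
    rw [← hx] at s1
    rw [← hy] at s2
    rw [← hz, ← hx, ← hy]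
    have hx0 : 0 ≤ x := by rw [hx]; positivity
    have hy0 : 0 ≤ y := by rw [hy]; positivity
    have hz0 : 0 ≤ z := by rw [hz]; positivity
    have e1 : 1 + 4 * z ≤ Real.exp (4 * z) := by
      have := Real.add_one_le_exp (4 * z)
      linarith
    have e2 : 0 ≤ (1 - x) * (1 - y) := mul_nonneg (by linarith) (by linarith)
    have e3 : 1 - x - y + z ≤ (1 + 4 * z) * ((1 - x) * (1 - y)) := by
      have e4 : (1 - x) * (1 - y) = 1 - x - y + x * y := by ring
      have e5 : 0 ≤ x * y := mul_nonneg hx0 hy0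
      have e6 : 1 / 4 ≤ (1 - x) * (1 - y) := by rw [e4]; linarith
      have e7 : z ≤ 4 * z * ((1 - x) * (1 - y)) := by nlinarith
      have e8 : (1 + 4 * z) * ((1 - x) * (1 - y)) = (1 - x) * (1 - y) + 4 * z * ((1 - x) * (1 - y)) := by ring
      rw [e8]
      linarith
    exact e3.trans (mul_le_mul_of_nonneg_right e1 e2)
  refine (prod_le_prod (fun i _ => measureReal_nonneg) h4).trans (le_of_eq ?_)
  rw [prod_mul_distrib, prod_mul_distrib, ← Real.exp_sum, ← mul_sum]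

/-- The measurability of a window event. -/
theorem F_gold {u v w : ℕ} {S : Set ℕ} (h1 : ∀ m, u < m → m ≤ u + w → m ∈ S) (h2 : ∀ m, v - w ≤ m → m < v → m ∈ S)
    (hv : w < v) : MeasurableSet[F A S] (none A (Ico 1 (1 + w)) (gp u v)) := by
  refine F_none (fun i hi m hm => ?_)
  rw [mem_Ico] at hi
  unfold gp at hm
  rw [mem_insert, mem_singleton] at hm
  rcases hm with rfl | rfl
  · exact h1 _ (by omega) (by omega)
  · exact h2 _ (by omega) (by omega)

/-- Four disjoint windows. -/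
theorem gold_indep (hA : IsModel μ p A) {u v u' v' w : ℕ} (hu : u + w ≤ u' ∨ u' + w ≤ u) (hv : v + w ≤ v' ∨ v' + w ≤ v)
    (h1 : u + 2 * w < v) (h2 : u + 2 * w < v') (h3 : u' + 2 * w < v) (h4 : u' + 2 * w < v') :
    μ.real (none A (Ico 1 (1 + w)) (gp u v) ∩ none A (Ico 1 (1 + w)) (gp u' v')) =
      μ.real (none A (Ico 1 (1 + w)) (gp u v)) * μ.real (none A (Ico 1 (1 + w)) (gp u' v')) := by
  refine indep_real hA (S := {m | (u < m ∧ m ≤ u + w) ∨ (v - w ≤ m ∧ m < v)}) (T := {m | (u' < m ∧ m ≤ u' + w) ∨ (v' - w ≤ m ∧ m < v')})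
    ?_ (F_gold (fun m h5 h6 => Or.inl ⟨h5, h6⟩) (fun m h5 h6 => Or.inr ⟨h5, h6⟩) (by omega))
    (F_gold (fun m h5 h6 => Or.inl ⟨h5, h6⟩) (fun m h5 h6 => Or.inr ⟨h5, h6⟩) (by omega))
  rw [Set.disjoint_left]
  intro m hm hm'
  rw [Set.mem_setOf_eq] at hm hm'
  omega

/-- The same small window. -/
theorem gold_share_u (hA : IsModel μ p A) {u v v' w : ℕ} (hv : v + w ≤ v' ∨ v' + w ≤ v) (h1 : u + 2 * w < v)
    (h2 : u + 2 * w < v') {z : ℝ} (hz0 : 0 ≤ z) (hz : ∀ m, u < m → p m ≤ z) (hz1 : z ≤ 1 / 2) :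
    μ.real (none A (Ico 1 (1 + w)) (gp u v) ∩ none A (Ico 1 (1 + w)) (gp u v')) ≤
      Real.exp (4 * (w * z ^ 3)) *
      (μ.real (none A (Ico 1 (1 + w)) (gp u v)) * μ.real (none A (Ico 1 (1 + w)) (gp u v'))) := by
  have hp := fun m => p_nonneg hA m
  have h3 := share hA (Ico 1 (1 + w)) (fun i => u + i) (fun i => v - i) (fun i => v' - i) (fun i hi j hj hij => ?_)
    (fun i hi => ?_) (fun i hi => ?_)
  · rw [real_gold hA h1, real_gold hA h2]
    refine h3.trans (mul_le_mul_of_nonneg_right ?_ ?_)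
    · apply Real.exp_le_exp.2
      refine mul_le_mul_of_nonneg_left ?_ (by norm_num)
      have h4 : ∀ i ∈ Ico 1 (1 + w), p (u + i) * p (v - i) * p (v' - i) ≤ z ^ 3 := by
        intro i hi
        rw [mem_Ico] at hi
        calc p (u + i) * p (v - i) * p (v' - i) ≤ z * z * z :=
              mul_le_mul (mul_le_mul (hz _ (by omega)) (hz _ (by omega)) (hp _) hz0) (hz _ (by omega)) (hp _) (by positivity)
          _ = z ^ 3 := by ring
      refine (sum_le_sum h4).trans (le_of_eq ?_)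
      rw [sum_const, Nat.card_Ico, nsmul_eq_mul]
      congr 2
      omega
    · refine mul_nonneg (prod_nonneg (fun i hi => ?_)) (prod_nonneg (fun i hi => ?_))
      · have := mul_le_one₀ (p_le_one hA (u + i)) (hp (v - i)) (p_le_one hA (v - i))
        linarith
      · have := mul_le_one₀ (p_le_one hA (u + i)) (hp (v' - i)) (p_le_one hA (v' - i))
        linarith
  · rw [mem_Ico] at hi hj
    rw [Set.disjoint_left]
    intro m hm hm'
    simp only [Set.mem_insert_iff, Set.mem_singleton_iff] at hm hm'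
    omega
  · rw [mem_Ico] at hi
    omega
  · rw [mem_Ico] at hi
    have e1 := mul_le_mul (hz (u + i) (by omega)) (hz (v - i) (by omega)) (hp _) hz0
    have e2 := mul_le_mul (hz (u + i) (by omega)) (hz (v' - i) (by omega)) (hp _) hz0
    constructor <;> nlinarith

/-- The same large window. -/
theorem gold_share_v (hA : IsModel μ p A) {u u' v w : ℕ} (hu : u + w ≤ u' ∨ u' + w ≤ u) (h1 : u + 2 * w < v)
    (h2 : u' + 2 * w < v) {z : ℝ} (hz0 : 0 ≤ z) (hz : ∀ m, min u u' < m → p m ≤ z) (hz1 : z ≤ 1 / 2) :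
    μ.real (none A (Ico 1 (1 + w)) (gp u v) ∩ none A (Ico 1 (1 + w)) (gp u' v)) ≤
      Real.exp (4 * (w * z ^ 3)) *
      (μ.real (none A (Ico 1 (1 + w)) (gp u v)) * μ.real (none A (Ico 1 (1 + w)) (gp u' v))) := by
  have hp := fun m => p_nonneg hA m
  have hg : ∀ u, gp u v = fun i => {v - i, u + i} := by
    intro u
    funext i
    unfold gp
    exact pair_comm _ _
  have h3 := share hA (Ico 1 (1 + w)) (fun i => v - i) (fun i => u + i) (fun i => u' + i) (fun i hi j hj hij => ?_)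
    (fun i hi => ?_) (fun i hi => ?_)
  · have e1 := real_gold hA h1
    have e2 := real_gold hA h2
    rw [hg u] at e1 ⊢
    rw [hg u'] at e2 ⊢
    rw [e1, e2]
    refine h3.trans ?_
    have e3 : ∏ i ∈ Ico 1 (1 + w), (1 - p (v - i) * p (u + i)) = ∏ i ∈ Ico 1 (1 + w), (1 - p (u + i) * p (v - i)) :=
      prod_congr rfl (fun i _ => by rw [mul_comm])
    have e4 : ∏ i ∈ Ico 1 (1 + w), (1 - p (v - i) * p (u' + i)) = ∏ i ∈ Ico 1 (1 + w), (1 - p (u' + i) * p (v - i)) :=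
      prod_congr rfl (fun i _ => by rw [mul_comm])
    rw [e3, e4]
    refine mul_le_mul_of_nonneg_right ?_ ?_
    · apply Real.exp_le_exp.2
      refine mul_le_mul_of_nonneg_left ?_ (by norm_num)
      have h4 : ∀ i ∈ Ico 1 (1 + w), p (v - i) * p (u + i) * p (u' + i) ≤ z ^ 3 := by
        intro i hi
        rw [mem_Ico] at hi
        calc p (v - i) * p (u + i) * p (u' + i) ≤ z * z * z :=
              mul_le_mul (mul_le_mul (hz _ (by omega)) (hz _ (by omega)) (hp _) hz0) (hz _ (by omega)) (hp _) (by positivity)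
          _ = z ^ 3 := by ring
      refine (sum_le_sum h4).trans (le_of_eq ?_)
      rw [sum_const, Nat.card_Ico, nsmul_eq_mul]
      congr 2
      omega
    · refine mul_nonneg (prod_nonneg (fun i hi => ?_)) (prod_nonneg (fun i hi => ?_))
      · have := mul_le_one₀ (p_le_one hA (u + i)) (hp (v - i)) (p_le_one hA (v - i))
        linarith
      · have := mul_le_one₀ (p_le_one hA (u' + i)) (hp (v - i)) (p_le_one hA (v - i))
        linarith
  · rw [mem_Ico] at hi hj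
    rw [Set.disjoint_left]
    intro m hm hm'
    simp only [Set.mem_insert_iff, Set.mem_singleton_iff] at hm hm'
    omega
  · rw [mem_Ico] at hi
    omega
  · rw [mem_Ico] at hi
    have e1 := mul_le_mul (hz (v - i) (by omega)) (hz (u + i) (by omega)) (hp _) hz0
    have e2 := mul_le_mul (hz (v - i) (by omega)) (hz (u' + i) (by omega)) (hp _) hz0
    constructor <;> nlinarith

/-- **The second moment on a grid.** -/
theorem gold_grid (hA : IsModel μ p A) {U V H w A₁ B₁ : ℕ} (hH : w ≤ H) (hA1 : 1 ≤ A₁) (hB1 : 1 ≤ B₁)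
    (hUV : U + A₁ * H + 2 * w < V) {z Pm PM : ℝ} (hz0 : 0 ≤ z) (hz : ∀ m, U < m → p m ≤ z) (hz1 : z ≤ 1 / 2)
    (hPm : 0 < Pm)
    (hlow : ∀ a < A₁, ∀ b < B₁, Pm ≤ μ.real (none A (Ico 1 (1 + w)) (gp (U + a * H) (V + b * H))))
    (hupp : ∀ a < A₁, ∀ b < B₁, μ.real (none A (Ico 1 (1 + w)) (gp (U + a * H) (V + b * H))) ≤ PM) :
    μ.real {ω | ∀ a < A₁, ∀ b < B₁, ω ∉ none A (Ico 1 (1 + w)) (gp (U + a * H) (V + b * H))} ≤
      4 * (Real.exp (4 * (w * z ^ 3)) * (PM / Pm) ^ 2 * (1 / A₁ + 1 / B₁) + 1 / (A₁ * B₁ * Pm)) := by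
  classical
  obtain ⟨J, hJ⟩ : ∃ J, J = range A₁ ×ˢ range B₁ := ⟨_, rfl⟩
  obtain ⟨G, hG⟩ : ∃ G : ℕ × ℕ → Set Ω, G = fun q => none A (Ico 1 (1 + w)) (gp (U + q.1 * H) (V + q.2 * H)) := ⟨_, rfl⟩
  have hGm : ∀ q ∈ J, MeasurableSet (G q) := by
    intro q _
    rw [hG]
    exact F_le hA Set.univ _ (F_none (fun _ _ _ _ => Set.mem_univ _))
  have hJm : ∀ q, q ∈ J ↔ q.1 < A₁ ∧ q.2 < B₁ := by
    intro q
    rw [hJ, mem_product, mem_range, mem_range]
  have hA0 : (0 : ℝ) < A₁ := by exact_mod_cast hA1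
  have hB0 : (0 : ℝ) < B₁ := by exact_mod_cast hB1
  obtain ⟨E, hE⟩ : ∃ E, E = Real.exp (4 * (w * z ^ 3)) := ⟨_, rfl⟩
  have hE0 : 0 < E := by rw [hE]; exact Real.exp_pos _
  obtain ⟨s, hs⟩ : ∃ s, s = ∑ q ∈ J, μ.real (G q) := ⟨_, rfl⟩
  have hGl : ∀ q ∈ J, Pm ≤ μ.real (G q) := by
    intro q hq
    have := (hJm q).1 hq
    rw [hG]
    exact hlow _ this.1 _ this.2
  have hGu : ∀ q ∈ J, μ.real (G q) ≤ PM := by
    intro q hq
    have := (hJm q).1 hq
    rw [hG]
    exact hupp _ this.1 _ this.2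
  have hJc : (J.card : ℝ) = A₁ * B₁ := by
    rw [hJ, card_product, card_range, card_range]
    push_cast
    ring
  have hs1 : A₁ * B₁ * Pm ≤ s := by
    rw [hs, ← hJc, ← nsmul_eq_mul]
    exact card_nsmul_le_sum _ _ _ hGl
  have hs0 : 0 < s := lt_of_lt_of_le (by positivity) hs1
  have hPM : 0 < PM := by
    have : (0, 0) ∈ J := (hJm _).2 ⟨hA1, hB1⟩
    exact hPm.trans_le ((hGl _ this).trans (hGu _ this))
  have hmono : ∀ a < A₁, U + a * H + H ≤ U + A₁ * H := by
    intro a ha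
    have : (a + 1) * H ≤ A₁ * H := Nat.mul_le_mul_right _ ha
    linarith [show (a + 1) * H = a * H + H by ring]
  have hsep : ∀ a a' : ℕ, a ≠ a' → ∀ U, U + a * H + w ≤ U + a' * H ∨ U + a' * H + w ≤ U + a * H := by
    intro a a' haa U
    rcases lt_or_gt_of_ne haa with h | h
    · left
      have : (a + 1) * H ≤ a' * H := Nat.mul_le_mul_right _ h
      have e : (a + 1) * H = a * H + H := by ring
      omega
    · right
      have : (a' + 1) * H ≤ a * H := Nat.mul_le_mul_right _ h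
      have e : (a' + 1) * H = a' * H + H := by ring
      omega
  have hbig : ∀ a < A₁, ∀ b, U + a * H + 2 * w < V + b * H := by
    intro a ha b
    have := hmono a ha
    have h2 : 0 ≤ b * H := Nat.zero_le _
    omega
  -- the four kinds of pairs
  have hpair : ∀ q ∈ J, ∀ q' ∈ J, μ.real (G q ∩ G q') ≤ μ.real (G q) * μ.real (G q') +
      (if q.1 = q'.1 then E * PM ^ 2 else 0) + (if q.2 = q'.2 then E * PM ^ 2 else 0) + (if q = q' then μ.real (G q) else 0) := by
    intro q hq q' hq'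
    have h1 := (hJm q).1 hq
    have h1' := (hJm q').1 hq'
    have g0 : 0 ≤ μ.real (G q) := measureReal_nonneg
    have g0' : 0 ≤ μ.real (G q') := measureReal_nonneg
    have gg : 0 ≤ μ.real (G q) * μ.real (G q') := mul_nonneg g0 g0'
    have hEP : 0 ≤ E * PM ^ 2 := by positivity
    have hle : μ.real (G q) * μ.real (G q') ≤ PM ^ 2 := by
      rw [sq]
      exact mul_le_mul (hGu q hq) (hGu q' hq') g0' hPM.le
    by_cases ha : q.1 = q'.1
    · by_cases hb : q.2 = q'.2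
      · have hqq : q = q' := Prod.ext ha hb
        rw [if_pos ha, if_pos hb, if_pos hqq]
        have h2 : μ.real (G q ∩ G q') ≤ μ.real (G q) := measureReal_mono Set.inter_subset_left (measure_ne_top _ _)
        linarith
      · rw [if_pos ha, if_neg hb, if_neg (fun h => hb (by rw [h]))]
        have h2 : μ.real (G q ∩ G q') ≤ E * (μ.real (G q) * μ.real (G q')) := by
          rw [hG, hE]
          simp only
          rw [← ha]
          exact gold_share_u hA (hsep _ _ hb V) (hbig _ h1.1 _) (hbig _ h1.1 _) hz0 (fun m hm => hz m (by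
            have : 0 ≤ q.1 * H := Nat.zero_le _
            omega)) hz1
        have h3 : E * (μ.real (G q) * μ.real (G q')) ≤ E * PM ^ 2 := mul_le_mul_of_nonneg_left hle hE0.le
        linarith
    · by_cases hb : q.2 = q'.2
      · rw [if_neg ha, if_pos hb, if_neg (fun h => ha (by rw [h]))]
        have h2 : μ.real (G q ∩ G q') ≤ E * (μ.real (G q) * μ.real (G q')) := by
          rw [hG, hE]
          simp only
          rw [← hb]
          exact gold_share_v hA (hsep _ _ ha U) (hbig _ h1.1 _) (hbig _ h1'.1 _) hz0 (fun m hm => hz m (by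
            have e1 : 0 ≤ q.1 * H := Nat.zero_le _
            have e2 : 0 ≤ q'.1 * H := Nat.zero_le _
            omega)) hz1
        have h3 : E * (μ.real (G q) * μ.real (G q')) ≤ E * PM ^ 2 := mul_le_mul_of_nonneg_left hle hE0.le
        linarith
      · rw [if_neg ha, if_neg hb, if_neg (fun h => ha (by rw [h]))]
        have h2 : μ.real (G q ∩ G q') = μ.real (G q) * μ.real (G q') := by
          rw [hG]
          simp only
          exact gold_indep hA (hsep _ _ ha U) (hsep _ _ hb V) (hbig _ h1.1 _) (hbig _ h1.1 _) (hbig _ h1'.1 _) (hbig _ h1'.1 _)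
        linarith
  have hcnt1 : ∑ q ∈ J, ∑ q' ∈ J, (if q.1 = q'.1 then E * PM ^ 2 else 0) = (A₁ * B₁ : ℝ) * B₁ * (E * PM ^ 2) := by
    have h2 : ∀ q ∈ J, ∑ q' ∈ J, (if q.1 = q'.1 then E * PM ^ 2 else 0) = B₁ * (E * PM ^ 2) := by
      intro q hq
      rw [hJ, sum_product]
      have h3 := (hJm q).1 hq
      have h4 : ∀ x ∈ range A₁, ∑ y ∈ range B₁, (if q.1 = x then E * PM ^ 2 else 0) =
          (if q.1 = x then B₁ * (E * PM ^ 2) else 0) := by
        intro x _
        rw [sum_const, card_range, nsmul_eq_mul]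
        split_ifs
        · rfl
        · rw [mul_zero]
      rw [sum_congr rfl h4, sum_ite_eq, if_pos (mem_range.2 h3.1)]
    rw [sum_congr rfl h2, sum_const, nsmul_eq_mul, hJc]
    ring
  have hcnt2 : ∑ q ∈ J, ∑ q' ∈ J, (if q.2 = q'.2 then E * PM ^ 2 else 0) = (A₁ * B₁ : ℝ) * A₁ * (E * PM ^ 2) := by
    have h2 : ∀ q ∈ J, ∑ q' ∈ J, (if q.2 = q'.2 then E * PM ^ 2 else 0) = A₁ * (E * PM ^ 2) := by
      intro q hq
      rw [hJ, sum_product]
      have h3 := (hJm q).1 hq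
      have h4 : ∀ x ∈ range A₁, ∑ y ∈ range B₁, (if q.2 = y then E * PM ^ 2 else 0) = E * PM ^ 2 := by
        intro x _
        rw [sum_ite_eq, if_pos (mem_range.2 h3.2)]
      rw [sum_congr rfl h4, sum_const, card_range, nsmul_eq_mul]
    rw [sum_congr rfl h2, sum_const, nsmul_eq_mul, hJc]
    ring
  have hcnt3 : ∑ q ∈ J, ∑ q' ∈ J, (if q = q' then μ.real (G q) else 0) = s := by
    rw [hs]
    refine sum_congr rfl (fun q hq => ?_)
    rw [sum_ite_eq, if_pos hq]
  have hdb : ∑ q ∈ J, ∑ q' ∈ J, μ.real (G q ∩ G q') ≤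
      (1 + (E * (PM / Pm) ^ 2 * (1 / A₁ + 1 / B₁) + 1 / (A₁ * B₁ * Pm))) * s ^ 2 := by
    have h2 : ∑ q ∈ J, ∑ q' ∈ J, μ.real (G q ∩ G q') ≤ s ^ 2 + (A₁ * B₁ : ℝ) * B₁ * (E * PM ^ 2) +
        (A₁ * B₁ : ℝ) * A₁ * (E * PM ^ 2) + s := by
      refine (sum_le_sum (fun q hq => sum_le_sum (fun q' hq' => hpair q hq q' hq'))).trans (le_of_eq ?_)
      simp only [sum_add_distrib]
      rw [hcnt1, hcnt2, hcnt3]
      have h3 : ∑ q ∈ J, ∑ q' ∈ J, μ.real (G q) * μ.real (G q') = s ^ 2 := by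
        rw [hs, sq, sum_mul_sum]
      rw [h3]
    refine h2.trans ?_
    have h3 : s ≤ 1 / (A₁ * B₁ * Pm) * s ^ 2 := by
      rw [one_div, inv_mul_eq_div, le_div_iff₀ (by positivity)]
      nlinarith
    have h4 : (A₁ * B₁ : ℝ) * B₁ * (E * PM ^ 2) ≤ E * (PM / Pm) ^ 2 * (1 / A₁) * s ^ 2 := by
      have h5 : (A₁ * B₁ * Pm) ^ 2 ≤ s ^ 2 := pow_le_pow_left₀ (by positivity) hs1 2
      calc (A₁ * B₁ : ℝ) * B₁ * (E * PM ^ 2) = E * (PM / Pm) ^ 2 * (1 / A₁) * (A₁ * B₁ * Pm) ^ 2 := by field_simp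
        _ ≤ E * (PM / Pm) ^ 2 * (1 / A₁) * s ^ 2 := mul_le_mul_of_nonneg_left h5 (by positivity)
    have h6 : (A₁ * B₁ : ℝ) * A₁ * (E * PM ^ 2) ≤ E * (PM / Pm) ^ 2 * (1 / B₁) * s ^ 2 := by
      have h5 : (A₁ * B₁ * Pm) ^ 2 ≤ s ^ 2 := pow_le_pow_left₀ (by positivity) hs1 2
      calc (A₁ * B₁ : ℝ) * A₁ * (E * PM ^ 2) = E * (PM / Pm) ^ 2 * (1 / B₁) * (A₁ * B₁ * Pm) ^ 2 := by field_simp
        _ ≤ E * (PM / Pm) ^ 2 * (1 / B₁) * s ^ 2 := mul_le_mul_of_nonneg_left h5 (by positivity)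
    have h7 : (1 + (E * (PM / Pm) ^ 2 * (1 / A₁ + 1 / B₁) + 1 / (A₁ * B₁ * Pm))) * s ^ 2 =
        s ^ 2 + E * (PM / Pm) ^ 2 * (1 / A₁) * s ^ 2 + E * (PM / Pm) ^ 2 * (1 / B₁) * s ^ 2 + 1 / (A₁ * B₁ * Pm) * s ^ 2 := by
      ring
    rw [h7]
    linarith
  rw [hs] at hdb hs0
  have hfin := few2 J G hGm hdb hs0
  rw [← hE]
  refine le_trans (measureReal_mono ?_ (measure_ne_top _ _)) hfin
  intro ω hω
  show num J G ω ≤ (∑ j ∈ J, μ.real (G j)) / 2
  have h8 : num J G ω = 0 := by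
    unfold num
    refine sum_eq_zero (fun q hq => ?_)
    have h9 := (hJm q).1 hq
    rw [Set.indicator_of_notMem]
    rw [hG]
    exact hω q.1 h9.1 q.2 h9.2
  rw [h8]
  linarith

end Pool.Agent.Q120.GM
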