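import Pool.Agent.Q120.GM.Gold2
import Pool.Agent.Q120.GM.Often

/-!
# Summands in windows: the upper bound at all scales
-/

set_option autoImplicit false

namespace Pool.Agent.Q120.GM

open Finset MeasureTheory ProbabilityTheory Filter Pool.Agent.Q120.AD
open scoped Topology

variable {Ω : Type*} [MeasurableSpace Ω] {μ : Measure Ω} [IsProbabilityMeasure μ] {A : Ω → Set ℕ} {Q : ℕ}

/-- The extremal length of the windows after `u` without summands of `N`. -/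
noncomputable def scale (Q N u : ℕ) : ℝ := Real.log u * Real.log N * (Real.log u + Real.log N) / sing3 Q N

theorem scale_nonneg (Q N u : ℕ) : 0 ≤ scale Q N u := by
  unfold scale
  have h1 := Real.log_natCast_nonneg u
  have h2 := Real.log_natCast_nonneg N
  have h3 := sing3_nonneg Q N
  positivity

/-- There is a summand in the window. -/
def Hit (S : Set ℕ) (N u : ℕ) (t : ℝ) : Prop := ∃ q : ℕ, u < q ∧ (q : ℝ) ≤ u + t ∧ q ∈ S ∧ N - q ∈ S

omit [MeasurableSpace Ω] in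
theorem hit_of {N u v w : ℕ} {ω : Ω} {t : ℝ} (hN : N = u + v) (hw : (w : ℝ) ≤ t) (hwv : w < v)
    (h : ω ∉ none A (Ico 1 (1 + w)) (gp u v)) : Hit (A ω) N u t := by
  unfold none at h
  rw [Set.mem_setOf_eq] at h
  push Not at h
  obtain ⟨i, hi, h1⟩ := h
  rw [mem_Ico] at hi
  refine ⟨u + i, by omega, ?_, h1 (u + i) (by unfold gp; simp), ?_⟩
  · push_cast
    have : (i : ℝ) ≤ w := by exact_mod_cast (by omega : i ≤ w)
    linarith
  · have e : N - (u + i) = v - i := by omega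
    rw [e]
    exact h1 (v - i) (by unfold gp; simp)

omit [MeasurableSpace Ω] in
theorem not_of_hit {N u v w : ℕ} {ω : Ω} {t : ℝ} (hN : N = u + v) (hw : t < w + 1) (hwv : w < v)
    (h : Hit (A ω) N u t) : ω ∉ none A (Ico 1 (1 + w)) (gp u v) := by
  obtain ⟨q, h1, h2, h3, h4⟩ := h
  intro hn
  have h5 : (q : ℝ) < ((u + w + 1 : ℕ) : ℝ) := by
    push_cast
    linarith
  have h6 : q < u + w + 1 := by exact_mod_cast h5
  refine hn (q - u) (mem_Ico.2 ⟨by omega, by omega⟩) ?_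
  intro m hm
  unfold gp at hm
  rw [mem_insert, mem_singleton] at hm
  rcases hm with rfl | rfl
  · rw [show u + (q - u) = q by omega]
    exact h3
  · rw [show v - (q - u) = N - q by omega]
    exact h4

/-- The estimate of the probability of one window. -/
theorem one_window (hA : IsModel μ (level Q) A) (hQ : 1 ≤ Q) {ε β : ℝ} (hε : 0 < ε) (hβ : 0 < β) :
    ∀ᶠ N : ℕ in atTop, 0 < sing3 Q N → ∀ u : ℕ, (N : ℝ) ^ β ≤ u → 3 * u ≤ N →
      u + 2 * ⌊(1 + ε) * scale Q N u⌋₊ < N - u ∧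
      μ.real (none A (Ico 1 (1 + ⌊(1 + ε) * scale Q N u⌋₊)) (gp u (N - u))) ≤
        (u : ℝ) ^ (-(1 + ε / 2)) * (N : ℝ) ^ (-(1 + ε / 2)) := by
  obtain ⟨C, hC⟩ : ∃ C, C = (1 + (Q : ℝ)) * qq Q ^ 2 := ⟨_, rfl⟩
  have hC0 : 0 ≤ C := by rw [hC]; positivity
  have hL : Tendsto (fun N : ℕ => Real.log (N : ℝ)) atTop atTop := hl
  have hQ0 : (0 : ℝ) < Q := by exact_mod_cast hQ
  filter_upwards [ev_power (4 * (1 + ε) * (2 * Q)) 3 hβ, hL.eventually_ge_atTop ((2 * ((1 + ε / 2) * Real.log 2 + 1)) / (β * ε)),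
    hL.eventually_ge_atTop (1 + C), hL.eventually_ge_atTop (qq Q / β), hL.eventually_ge_atTop (1 / β)] with N g1 g2 g3 g4 g5
  intro hS u hu h3u
  obtain ⟨lN, hlN⟩ : ∃ lN, lN = Real.log (N : ℝ) := ⟨_, rfl⟩
  obtain ⟨lu, hlu⟩ : ∃ lu, lu = Real.log (u : ℝ) := ⟨_, rfl⟩
  obtain ⟨S, hSd⟩ : ∃ S, S = sing3 Q N := ⟨_, rfl⟩
  rw [← hlN] at g1 g2 g3 g4 g5
  rw [← hSd] at hS
  have hN1 : 1 < (N : ℝ) := by
    have h1 : 0 < Real.log (N : ℝ) := by rw [← hlN]; linarith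
    exact (Real.log_pos_iff (Nat.cast_nonneg N)).1 h1
  have hN0 : 0 < (N : ℝ) := by linarith
  have hNb : 1 < (N : ℝ) ^ β := Real.one_lt_rpow hN1 hβ
  have hu1 : (1 : ℝ) < u := by linarith
  have hu0 : (0 : ℝ) < u := by linarith
  have hun : 1 < u := by exact_mod_cast hu1
  have h3 : β * lN ≤ lu := by
    rw [hlN, hlu, ← Real.log_rpow hN0]
    exact Real.log_le_log (by linarith) hu
  have huN : lu ≤ lN := by
    rw [hlN, hlu]
    refine Real.log_le_log hu0 ?_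
    exact_mod_cast (by omega : u ≤ N)
  have hlu1 : 1 ≤ lu := by
    have : 1 / β * β ≤ lN * β := mul_le_mul_of_nonneg_right g5 hβ.le
    rw [one_div, inv_mul_cancel₀ hβ.ne'] at this
    linarith
  have hluq : qq Q ≤ lu := by
    have : qq Q / β * β ≤ lN * β := mul_le_mul_of_nonneg_right g4 hβ.le
    rw [div_mul_cancel₀ _ hβ.ne'] at this
    linarith
  have hlue : (1 + ε / 2) * Real.log 2 + 1 ≤ ε / 2 * lu := by
    have h4 : (2 * ((1 + ε / 2) * Real.log 2 + 1)) / (β * ε) * (β * ε) ≤ lN * (β * ε) :=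
      mul_le_mul_of_nonneg_right g2 (by positivity)
    rw [div_mul_cancel₀ _ (by positivity)] at h4
    nlinarith
  have hlN1 : 1 ≤ lN := by linarith
  obtain ⟨w, hw⟩ : ∃ w, w = ⌊(1 + ε) * scale Q N u⌋₊ := ⟨_, rfl⟩
  rw [← hw]
  have hsc : scale Q N u = lu * lN * (lu + lN) / S := by rw [hlu, hlN, hSd]; rfl
  have hsc0 : 0 ≤ scale Q N u := scale_nonneg _ _ _
  have hw1 : (w : ℝ) ≤ (1 + ε) * scale Q N u := by rw [hw]; exact Nat.floor_le (by positivity)
  have hw2 : (1 + ε) * scale Q N u - 1 ≤ w := by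
    rw [hw]
    have := Nat.lt_floor_add_one ((1 + ε) * scale Q N u)
    linarith
  have hSl : 1 / (Q : ℝ) ≤ S := by rw [hSd]; exact le_sing3 hQ (by rw [← hSd]; exact hS)
  have hsu : S ≤ qq Q ^ 2 := by rw [hSd]; exact sing3_le hQ N
  have hsc2 : scale Q N u ≤ 2 * Q * lN ^ 3 := by
    rw [hsc, div_le_iff₀ hS]
    have h5 : lu * lN * (lu + lN) ≤ lN * lN * (lN + lN) := by gcongr
    have h6 : 1 ≤ Q * S := by
      rw [div_le_iff₀ hQ0] at hSl
      linarith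
    have h7 : 0 ≤ lN ^ 3 := by positivity
    nlinarith
  have hwu : 4 * (w : ℝ) ≤ u := by
    have h5 : 4 * ((1 + ε) * scale Q N u) ≤ 4 * (1 + ε) * (2 * Q) * lN ^ 3 := by
      have := mul_le_mul_of_nonneg_left hsc2 (by positivity : 0 ≤ 4 * (1 + ε))
      linarith
    linarith
  have hwu' : 4 * w ≤ u := by exact_mod_cast hwu
  have hcond : u + 2 * w < N - u := by omega
  refine ⟨hcond, ?_⟩
  have h8 : ((u : ℝ) + w) ≤ 2 * u := by linarith
  have h9 := gold_le hA hQ (u := u) (v := N - u) (w := w) hcond (x := 2 * u) (y := N) (by rw [← hlu]; exact hluq) hun h8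
    (by exact_mod_cast Nat.sub_le _ _)
  refine h9.trans ?_
  rw [show u + (N - u) = N by omega, ← hSd, ← hlN]
  rw [Real.rpow_def_of_pos hu0, Real.rpow_def_of_pos hN0, ← Real.exp_add, ← hlu, ← hlN, Real.log_mul (by norm_num) hu0.ne', ← hlu]
  apply Real.exp_le_exp.2
  have hl2 : 0 < Real.log 2 := Real.log_pos (by norm_num)
  have h10 : (1 + ε / 2) * (lu + lN) ≤ ((w : ℝ) - Q) * S / ((Real.log 2 + lu) * lN) := by
    rw [le_div_iff₀ (by positivity)]
    have h11 : (1 + ε) * (lu * lN * (lu + lN)) - C ≤ ((w : ℝ) - Q) * S := by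
      have h12 : ((1 + ε) * scale Q N u - 1 - Q) * S ≤ ((w : ℝ) - Q) * S := mul_le_mul_of_nonneg_right (by linarith) hS.le
      have h13 : scale Q N u * S = lu * lN * (lu + lN) := by rw [hsc, div_mul_cancel₀ _ hS.ne']
      have h14 : (1 + (Q : ℝ)) * S ≤ C := by rw [hC]; exact mul_le_mul_of_nonneg_left hsu (by positivity)
      nlinarith
    have h15 : (1 + ε / 2) * (lu + lN) * ((Real.log 2 + lu) * lN) =
        (1 + ε) * (lu * lN * (lu + lN)) - (lu + lN) * lN * (ε / 2 * lu - (1 + ε / 2) * Real.log 2) := by ring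
    have h16 : C ≤ (lu + lN) * lN * (ε / 2 * lu - (1 + ε / 2) * Real.log 2) := by
      have h17 : 1 ≤ ε / 2 * lu - (1 + ε / 2) * Real.log 2 := by linarith
      have h18 : C ≤ (lu + lN) * lN := by nlinarith
      have h19 : 0 ≤ (lu + lN) * lN := by positivity
      nlinarith
    rw [h15]
    linarith
  linarith

/-- **Upper bound at all scales**, for a fixed pair of exponents. -/
theorem gold_upper_fix (hA : IsModel μ (level Q) A) (hQ : 1 ≤ Q) {ε β : ℝ} (hε : 0 < ε) (hβ : 0 < β) :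
    ∀ᵐ ω ∂μ, ∀ᶠ N : ℕ in atTop, 0 < sing3 Q N → ∀ u : ℕ, (N : ℝ) ^ β ≤ u → 3 * u ≤ N →
      Hit (A ω) N u ((1 + ε) * scale Q N u) := by
  classical
  have h1 := one_window hA hQ hε hβ
  obtain ⟨T, hT⟩ : ∃ T, T = ∑' n : ℕ, (n : ℝ) ^ (-(1 + ε / 2)) := ⟨_, rfl⟩
  have hsum : Summable (fun n : ℕ => (n : ℝ) ^ (-(1 + ε / 2))) := Real.summable_nat_rpow.2 (by linarith)
  obtain ⟨J, hJ⟩ : ∃ J : ℕ → Finset ℕ, J = fun N => (range (N + 1)).filter (fun u : ℕ => (N : ℝ) ^ β ≤ u ∧ 3 * u ≤ N) := ⟨_, rfl⟩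
  obtain ⟨B, hB⟩ : ∃ B : ℕ → Set Ω, B = fun N => {ω | 0 < sing3 Q N ∧ ∃ u ∈ J N,
    ω ∈ none A (Ico 1 (1 + ⌊(1 + ε) * scale Q N u⌋₊)) (gp u (N - u))} := ⟨_, rfl⟩
  have h2 : ∀ᶠ N : ℕ in atTop, μ.real (B N) ≤ T * (N : ℝ) ^ (-(1 + ε / 2)) := by
    filter_upwards [h1, eventually_gt_atTop 0] with N hN hN0
    have hT0 : 0 ≤ T := by rw [hT]; exact tsum_nonneg (fun n => by positivity)
    by_cases hS : 0 < sing3 Q N
    · have h3 : B N ⊆ ⋃ u ∈ J N, none A (Ico 1 (1 + ⌊(1 + ε) * scale Q N u⌋₊)) (gp u (N - u)) := by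
        intro ω hω
        rw [hB] at hω
        obtain ⟨_, u, hu, h4⟩ := hω
        exact Set.mem_iUnion₂.2 ⟨u, hu, h4⟩
      refine (measureReal_mono h3 (measure_ne_top _ _)).trans ?_
      refine (measureReal_biUnion_finset_le _ _).trans ?_
      have h4 : ∀ u ∈ J N, μ.real (none A (Ico 1 (1 + ⌊(1 + ε) * scale Q N u⌋₊)) (gp u (N - u))) ≤
          (u : ℝ) ^ (-(1 + ε / 2)) * (N : ℝ) ^ (-(1 + ε / 2)) := by
        intro u hu
        rw [hJ, mem_filter] at hu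
        exact (hN hS u hu.2.1 hu.2.2).2
      refine (sum_le_sum h4).trans ?_
      rw [← sum_mul]
      refine mul_le_mul_of_nonneg_right ?_ (by positivity)
      rw [hT]
      exact hsum.sum_le_tsum _ (fun n _ => by positivity)
    · have h3 : B N = ∅ := by
        rw [Set.eq_empty_iff_forall_notMem]
        intro ω hω
        rw [hB] at hω
        exact hS hω.1
      rw [h3, measureReal_empty]
      positivity
  filter_upwards [bc (hsum.mul_left T) h2] with ω hω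
  filter_upwards [hω, h1] with N hN h1N hS u hu h3u
  obtain ⟨h4, _⟩ := h1N hS u hu h3u
  have h5 : u ∈ J N := by
    rw [hJ, mem_filter, mem_range]
    exact ⟨by omega, hu, h3u⟩
  have h6 : ω ∉ none A (Ico 1 (1 + ⌊(1 + ε) * scale Q N u⌋₊)) (gp u (N - u)) := by
    intro h7
    apply hN
    rw [hB]
    exact ⟨hS, u, h5, h7⟩
  exact hit_of (by omega) (Nat.floor_le (mul_nonneg (by linarith) (scale_nonneg _ _ _))) (by omega) h6

/-- **Upper bound at all scales.** -/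
theorem gold_upper (hA : IsModel μ (level Q) A) (hQ : 1 ≤ Q) :
    ∀ᵐ ω ∂μ, ∀ ε β : ℝ, 0 < ε → 0 < β → ∀ᶠ N : ℕ in atTop, 0 < sing3 Q N → ∀ u : ℕ, (N : ℝ) ^ β ≤ u → 3 * u ≤ N →
      Hit (A ω) N u ((1 + ε) * scale Q N u) := by
  have h1 : ∀ᵐ ω ∂μ, ∀ n : ℕ, ∀ᶠ N : ℕ in atTop, 0 < sing3 Q N → ∀ u : ℕ, (N : ℝ) ^ (1 / ((n : ℝ) + 1)) ≤ u → 3 * u ≤ N →
      Hit (A ω) N u ((1 + 1 / ((n : ℝ) + 1)) * scale Q N u) := by
    rw [ae_all_iff]
    intro n
    exact gold_upper_fix hA hQ (by positivity) (by positivity)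
  filter_upwards [h1] with ω hω ε β hε hβ
  obtain ⟨n, hn⟩ := exists_nat_one_div_lt (lt_min hε hβ)
  have hn1 : 1 / ((n : ℝ) + 1) ≤ ε := (hn.trans_le (min_le_left _ _)).le
  have hn2 : 1 / ((n : ℝ) + 1) ≤ β := (hn.trans_le (min_le_right _ _)).le
  filter_upwards [hω n, eventually_ge_atTop 1] with N hN hN1 hS u hu h3u
  have hN1' : (1 : ℝ) ≤ N := by exact_mod_cast hN1
  obtain ⟨q, h2, h3, h4⟩ := hN hS u ((Real.rpow_le_rpow_of_exponent_le hN1' hn2).trans hu) h3u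
  refine ⟨q, h2, h3.trans ?_, h4⟩
  have h5 := mul_le_mul_of_nonneg_right (by linarith : 1 + 1 / ((n : ℝ) + 1) ≤ 1 + ε) (scale_nonneg Q N u)
  linarith

end Pool.Agent.Q120.GM
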