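import Pool.Agent.Q120.GM.Gold3

/-!
# Windows without summands: the lower bound at all scales
-/

set_option autoImplicit false

namespace Pool.Agent.Q120.GM

open Finset MeasureTheory ProbabilityTheory Filter Pool.Agent.Q120.AD
open scoped Topology

variable {Ω : Type*} [MeasurableSpace Ω] {μ : Measure Ω} [IsProbabilityMeasure μ] {A : Ω → Set ℕ} {Q : ℕ}

/-- The three asymptotic inequalities between the exponents. -/
theorem expo {ε β S q q' : ℝ} (hε : 0 < ε) (hε1 : ε < 1) (hβ : 0 < β) (hS : 0 < S) {τ : ℝ} (hτ : 0 < τ) :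
    ∀ᶠ L : ℝ in atTop,
      (1 + q ^ 2 / (β * L * (L - Real.log 2))) * (((1 - ε / 2) * (β * (1 + β) / S) * L ^ 3 + q') * S / (β * L * (L - Real.log 2))) ≤
        ((1 - ε / 2) * (1 + β) + τ) * L ∧
      ((1 - ε / 2) * (1 + β) - τ) * L ≤
        (((1 - ε / 2) * (β * (1 + β) / S) * L ^ 3 - 1 - q') * S / ((β * L + Real.log 4) * (L + Real.log 2))) ∧
      (1 - ε) * ((β * L + Real.log 3) * (L + Real.log 2) * (β * L + Real.log 3 + (L + Real.log 2)) / S) ≤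
        (1 - ε / 2) * (β * (1 + β) / S) * L ^ 3 - 1 := by
  obtain ⟨l2, hl2⟩ : ∃ l2, l2 = Real.log 2 := ⟨_, rfl⟩
  obtain ⟨l3, hl3⟩ : ∃ l3, l3 = Real.log 3 := ⟨_, rfl⟩
  obtain ⟨l4, hl4⟩ : ∃ l4, l4 = Real.log 4 := ⟨_, rfl⟩
  have h2 : 0 < l2 := by rw [hl2]; exact Real.log_pos (by norm_num)
  have h3 : 0 < l3 := by rw [hl3]; exact Real.log_pos (by norm_num)
  have h4 : 0 < l4 := by rw [hl4]; exact Real.log_pos (by norm_num)
  rw [← hl2, ← hl3, ← hl4]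
  have hinv : Tendsto (fun L : ℝ => L⁻¹) atTop (𝓝 0) := tendsto_inv_atTop_zero
  have f1 : Tendsto (fun s : ℝ => (1 + q ^ 2 * s ^ 2 / (β * (1 - s * l2))) *
      (((1 - ε / 2) * (β * (1 + β) / S) + q' * s ^ 3) * S / (β * (1 - s * l2)))) (𝓝 0)
      (𝓝 ((1 + q ^ 2 * 0 ^ 2 / (β * (1 - 0 * l2))) *
      (((1 - ε / 2) * (β * (1 + β) / S) + q' * 0 ^ 3) * S / (β * (1 - 0 * l2))))) := by
    have hd : β * (1 - (0 : ℝ) * l2) ≠ 0 := by rw [zero_mul, sub_zero, mul_one]; exact hβ.ne'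
    have hc : ContinuousAt (fun s : ℝ => (1 + q ^ 2 * s ^ 2 / (β * (1 - s * l2))) *
      (((1 - ε / 2) * (β * (1 + β) / S) + q' * s ^ 3) * S / (β * (1 - s * l2)))) 0 := by
      refine ContinuousAt.mul ?_ ?_
      · refine ContinuousAt.add continuousAt_const (ContinuousAt.div (by fun_prop) (by fun_prop) hd)
      · exact ContinuousAt.div (by fun_prop) (by fun_prop) hd
    exact hc
  have f2 : Tendsto (fun s : ℝ => (((1 - ε / 2) * (β * (1 + β) / S) - (1 + q') * s ^ 3) * S / ((β + l4 * s) * (1 + l2 * s)))) (𝓝 0)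
      (𝓝 (((1 - ε / 2) * (β * (1 + β) / S) - (1 + q') * 0 ^ 3) * S / ((β + l4 * 0) * (1 + l2 * 0)))) := by
    have hd : (β + l4 * (0 : ℝ)) * (1 + l2 * 0) ≠ 0 := by rw [mul_zero, mul_zero, add_zero, add_zero, mul_one]; exact hβ.ne'
    have hc : ContinuousAt (fun s : ℝ => (((1 - ε / 2) * (β * (1 + β) / S) - (1 + q') * s ^ 3) * S / ((β + l4 * s) * (1 + l2 * s)))) 0 :=
      ContinuousAt.div (by fun_prop) (by fun_prop) hd
    exact hc
  have f3 : Tendsto (fun s : ℝ => (1 - ε / 2) * (β * (1 + β) / S) - s ^ 3 -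
      (1 - ε) * ((β + l3 * s) * (1 + l2 * s) * (β + l3 * s + (1 + l2 * s)) / S)) (𝓝 0)
      (𝓝 ((1 - ε / 2) * (β * (1 + β) / S) - 0 ^ 3 -
      (1 - ε) * ((β + l3 * 0) * (1 + l2 * 0) * (β + l3 * 0 + (1 + l2 * 0)) / S))) := by
    have hc : ContinuousAt (fun s : ℝ => (1 - ε / 2) * (β * (1 + β) / S) - s ^ 3 -
      (1 - ε) * ((β + l3 * s) * (1 + l2 * s) * (β + l3 * s + (1 + l2 * s)) / S)) 0 := by fun_prop
    exact hc
  have e1 : (1 + q ^ 2 * 0 ^ 2 / (β * (1 - 0 * l2))) *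
      (((1 - ε / 2) * (β * (1 + β) / S) + q' * 0 ^ 3) * S / (β * (1 - 0 * l2))) < (1 - ε / 2) * (1 + β) + τ := by
    have : (1 + q ^ 2 * 0 ^ 2 / (β * (1 - 0 * l2))) *
      (((1 - ε / 2) * (β * (1 + β) / S) + q' * 0 ^ 3) * S / (β * (1 - 0 * l2))) = (1 - ε / 2) * (1 + β) := by
      field_simp
      ring
    rw [this]
    linarith
  have e2 : (1 - ε / 2) * (1 + β) - τ < (((1 - ε / 2) * (β * (1 + β) / S) - (1 + q') * 0 ^ 3) * S / ((β + l4 * 0) * (1 + l2 * 0))) := by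
    have : (((1 - ε / 2) * (β * (1 + β) / S) - (1 + q') * 0 ^ 3) * S / ((β + l4 * 0) * (1 + l2 * 0))) = (1 - ε / 2) * (1 + β) := by
      field_simp
      ring
    rw [this]
    linarith
  have e3 : 0 < (1 - ε / 2) * (β * (1 + β) / S) - 0 ^ 3 -
      (1 - ε) * ((β + l3 * 0) * (1 + l2 * 0) * (β + l3 * 0 + (1 + l2 * 0)) / S) := by
    have : (1 - ε / 2) * (β * (1 + β) / S) - 0 ^ 3 -
      (1 - ε) * ((β + l3 * 0) * (1 + l2 * 0) * (β + l3 * 0 + (1 + l2 * 0)) / S) = ε / 2 * (β * (1 + β) / S) := by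
      field_simp
      ring
    rw [this]
    positivity
  filter_upwards [hinv.eventually (f1.eventually_lt_const e1), hinv.eventually (f2.eventually_const_lt e2),
    hinv.eventually (f3.eventually_const_lt e3), eventually_gt_atTop (l2 + 1), eventually_gt_atTop 1] with L g1 g2 g3 g4 g5
  have hL0 : 0 < L := by linarith
  have hLl : 0 < L - l2 := by linarith
  have hs2 : 1 - L⁻¹ * l2 ≠ 0 := by
    have h5 : L⁻¹ * l2 < 1 := by
      rw [inv_mul_eq_div, div_lt_one hL0]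
      linarith
    linarith
  refine ⟨?_, ?_, ?_⟩
  · have k1 : (1 + q ^ 2 / (β * L * (L - l2))) * (((1 - ε / 2) * (β * (1 + β) / S) * L ^ 3 + q') * S / (β * L * (L - l2))) =
        ((1 + q ^ 2 * L⁻¹ ^ 2 / (β * (1 - L⁻¹ * l2))) *
        (((1 - ε / 2) * (β * (1 + β) / S) + q' * L⁻¹ ^ 3) * S / (β * (1 - L⁻¹ * l2)))) * L := by
      have k2 : L * (L - l2) = L ^ 2 * (1 - L⁻¹ * l2) := by field_simp
      rw [mul_assoc β, k2]
      obtain ⟨m, hm⟩ : ∃ m, m = 1 - L⁻¹ * l2 := ⟨_, rfl⟩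
      rw [← hm] at hs2 ⊢
      field_simp
    rw [k1]
    exact mul_le_mul_of_nonneg_right g1.le hL0.le
  · have k1 : (((1 - ε / 2) * (β * (1 + β) / S) * L ^ 3 - 1 - q') * S / ((β * L + l4) * (L + l2))) =
        (((1 - ε / 2) * (β * (1 + β) / S) - (1 + q') * L⁻¹ ^ 3) * S / ((β + l4 * L⁻¹) * (1 + l2 * L⁻¹))) * L := by
      have k2 : (β * L + l4) * (L + l2) = L ^ 2 * ((β + l4 * L⁻¹) * (1 + l2 * L⁻¹)) := by field_simp
      rw [k2]
      obtain ⟨m, hm⟩ : ∃ m, m = (β + l4 * L⁻¹) * (1 + l2 * L⁻¹) := ⟨_, rfl⟩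
      have hm0 : m ≠ 0 := by rw [hm]; positivity
      rw [← hm]
      field_simp
      ring
    rw [k1]
    exact mul_le_mul_of_nonneg_right g2.le hL0.le
  · have k1 : (1 - ε / 2) * (β * (1 + β) / S) * L ^ 3 - 1 -
        (1 - ε) * ((β * L + l3) * (L + l2) * (β * L + l3 + (L + l2)) / S) =
        ((1 - ε / 2) * (β * (1 + β) / S) - L⁻¹ ^ 3 -
          (1 - ε) * ((β + l3 * L⁻¹) * (1 + l2 * L⁻¹) * (β + l3 * L⁻¹ + (1 + l2 * L⁻¹)) / S)) * L ^ 3 := by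
      field_simp
    have k2 := mul_pos g3 (pow_pos hL0 3)
    rw [← k1] at k2
    linarith

end Pool.Agent.Q120.GM
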