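import Pool.Agent.Q120.GM.Gold4

/-!
# Windows without summands: the probability that there are none on a dyadic scale
-/

set_option autoImplicit false

namespace Pool.Agent.Q120.GM

open Finset MeasureTheory ProbabilityTheory Filter Pool.Agent.Q120.AD
open scoped Topology

variable {Ω : Type*} [MeasurableSpace Ω] {μ : Measure Ω} [IsProbabilityMeasure μ] {A : Ω → Set ℕ} {Q : ℕ}

/-- There is an exceptional window at the scale `X`. -/
def Miss (Q r : ℕ) (ε β : ℝ) (S : Set ℕ) (X : ℕ) : Prop :=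
  ∃ N u : ℕ, X ≤ N ∧ N ≤ 2 * X ∧ N ≡ r [MOD Q] ∧ (X : ℝ) ^ β ≤ u ∧ (u : ℝ) ≤ 3 * (X : ℝ) ^ β ∧
    ¬ Hit S N u ((1 - ε) * scale Q N u)

/-- The bound for the probability that there is no exceptional window. -/
theorem prob_miss (hA : IsModel μ (level Q) A) (hQ : 1 ≤ Q) {ε β : ℝ} (hε : 0 < ε) (hε1 : ε < 1) (hβ : 0 < β) (hβ1 : β < 1)
    {r : ℕ} (hS : 0 < sing3 Q r) : ∃ K : ℝ, ∀ᶠ X : ℕ in atTop,
      μ.real {ω | ¬ Miss Q r ε β (A ω) X} ≤ K * (X : ℝ) ^ (-(β / 2)) + 4 * (X : ℝ) ^ (-(ε / 4)) := by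
  obtain ⟨S, hSd⟩ : ∃ S, S = sing3 Q r := ⟨_, rfl⟩
  rw [← hSd] at hS
  have hq := qq_pos hQ
  have hQ0 : (0 : ℝ) < Q := by exact_mod_cast hQ
  obtain ⟨τ, hτd⟩ : ∃ τ, τ = min (β / 10) (ε / 12) := ⟨_, rfl⟩
  have hτ : 0 < τ := by rw [hτd]; positivity
  have hτ1 : τ ≤ β / 10 := by rw [hτd]; exact min_le_left _ _
  have hτ2 : τ ≤ ε / 12 := by rw [hτd]; exact min_le_right _ _
  obtain ⟨D, hD⟩ : ∃ D, D = β * (1 + β) / S := ⟨_, rfl⟩
  have hD0 : 0 < D := by rw [hD]; positivity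
  obtain ⟨D', hD'⟩ : ∃ D', D' = (1 - ε / 2) * D := ⟨_, rfl⟩
  have hD'0 : 0 < D' := by rw [hD']; exact mul_pos (by linarith) hD0
  obtain ⟨K₁, hK₁⟩ : ∃ K₁, K₁ = 4 * (D' * (qq Q / β) ^ 3) := ⟨_, rfl⟩
  refine ⟨8 * Real.exp K₁, ?_⟩
  have hl' : Tendsto (fun N : ℕ => Real.log (N : ℝ)) atTop atTop := hl
  have hev := expo (q := qq Q) (q' := Q) hε hε1 hβ hS hτ
  have hlog2 : 0 < Real.log 2 := Real.log_pos (by norm_num)
  filter_upwards [hl'.eventually hev, ev_power (8 * (Q * D')) 3 (half_pos hτ), ev_power (2 * (8 * Q)) 0 (half_pos hτ), ev_power 2 0 (half_pos hτ),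
    ev_power 16 0 (sub_pos.2 hβ1), ev_power 2 0 hβ, eventually_ge_atTop (8 * (Q + 2)),
    hl'.eventually_ge_atTop (2 * qq Q / β), hl'.eventually_ge_atTop (2 * qq Q + Real.log 2), hl'.eventually_gt_atTop (Real.log 2 + 1)] with
    X gE g1 g2 g2' g3 g4 g5 g6 g7 g8
  obtain ⟨gE1, gE2, gE3⟩ := gE
  obtain ⟨L, hL⟩ : ∃ L, L = Real.log (X : ℝ) := ⟨_, rfl⟩
  rw [← hL] at gE1 gE2 gE3 g1 g6 g7 g8
  rw [pow_zero, mul_one] at g2 g2' g3 g4
  rw [← hD, ← hD'] at gE1 gE2 gE3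
  have hX1 : (1 : ℝ) < X := by
    have : 8 * (1 + 2) ≤ X := le_trans (by omega) g5
    exact_mod_cast (by omega : 1 < X)
  have hX0 : (0 : ℝ) < X := by linarith
  have hL1 : 1 < L := by linarith
  have hL0 : 0 < L := by linarith
  have hg5 : 8 * ((Q : ℝ) + 2) ≤ X := by exact_mod_cast g5
  -- the size of the parameters
  obtain ⟨P, hP⟩ : ∃ P, P = (X : ℝ) ^ β := ⟨_, rfl⟩
  obtain ⟨Z, hZ⟩ : ∃ Z, Z = (X : ℝ) ^ τ := ⟨_, rfl⟩
  have hP16 : 16 * P ≤ X := by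
    have h1 : (X : ℝ) = X ^ β * X ^ (1 - β) := by
      rw [← Real.rpow_add hX0, add_sub_cancel, Real.rpow_one]
    rw [h1, hP, mul_comm]
    exact mul_le_mul_of_nonneg_left g3 (by positivity)
  have hP2 : 2 ≤ P := by rw [hP]; exact g4
  have hZP : Z ≤ P := by
    rw [hZ, hP]
    exact Real.rpow_le_rpow_of_exponent_le hX1.le (by linarith)
  have hZ2 : (X : ℝ) ^ (τ / 2) * (X : ℝ) ^ (τ / 2) = Z := by
    rw [← Real.rpow_add hX0, add_halves, hZ]
  have hZ1 : 1 ≤ Z := by rw [hZ]; exact Real.one_le_rpow hX1.le hτ.le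
  have hLogP : Real.log P = β * L := by rw [hP, Real.log_rpow hX0, hL]
  obtain ⟨w, hw⟩ : ∃ w, w = ⌊D' * L ^ 3⌋₊ := ⟨_, rfl⟩
  have hw1 : (w : ℝ) ≤ D' * L ^ 3 := by rw [hw]; exact Nat.floor_le (by positivity)
  have hw2 : D' * L ^ 3 - 1 < w := by rw [hw]; exact Nat.sub_one_lt_floor _
  obtain ⟨H, hH⟩ : ∃ H, H = Q * (w + 1) := ⟨_, rfl⟩
  have hHr : 8 * (H : ℝ) ≤ Z := by
    rw [hH]
    push_cast
    have h1 : 8 * ((Q : ℝ) * (w + 1)) ≤ (X : ℝ) ^ (τ / 2) + (X : ℝ) ^ (τ / 2) := by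
      have h2 : (Q : ℝ) * w ≤ Q * (D' * L ^ 3) := mul_le_mul_of_nonneg_left hw1 hQ0.le
      linarith
    have h3 : (X : ℝ) ^ (τ / 2) + (X : ℝ) ^ (τ / 2) ≤ Z := by
      rw [← hZ2]
      have h4 : 0 < (X : ℝ) ^ (τ / 2) := Real.rpow_pos_of_pos hX0 _
      nlinarith
    linarith
  have hH1 : 1 ≤ H := by rw [hH]; exact Nat.mul_pos hQ (by omega)
  have hwH : w ≤ H := by
    rw [hH]
    calc w ≤ w + 1 := by omega
      _ = 1 * (w + 1) := by ring
      _ ≤ Q * (w + 1) := Nat.mul_le_mul_right _ hQ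
  have hHr1 : (1 : ℝ) ≤ H := by exact_mod_cast hH1
  have hwHr : (w : ℝ) ≤ H := by exact_mod_cast hwH
  obtain ⟨U, hU⟩ : ∃ U, U = ⌈P⌉₊ := ⟨_, rfl⟩
  have hU1 : P ≤ U := by rw [hU]; exact Nat.le_ceil _
  have hU2 : (U : ℝ) < P + 1 := by rw [hU]; exact Nat.ceil_lt_add_one (by linarith)
  obtain ⟨t, ht⟩ : ∃ t, t = (r + (Q - 1) * (U + X)) % Q := ⟨_, rfl⟩
  have htQ : t < Q := by rw [ht]; exact Nat.mod_lt _ (by omega)
  have htm : U + (X + t) ≡ r [MOD Q] := by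
    have h1 : t ≡ r + (Q - 1) * (U + X) [MOD Q] := by rw [ht]; exact Nat.mod_modEq _ _
    have h2 : U + (X + t) ≡ U + X + (r + (Q - 1) * (U + X)) [MOD Q] := by
      rw [← add_assoc]
      exact Nat.ModEq.add_left _ h1
    refine h2.trans ?_
    have h3 : U + X + (r + (Q - 1) * (U + X)) = r + Q * (U + X) := by
      obtain ⟨k, rfl⟩ : ∃ k, Q = k + 1 := ⟨Q - 1, by omega⟩
      rw [Nat.add_sub_cancel]
      ring
    rw [h3]
    exact (Nat.modEq_iff_dvd' (Nat.le_add_right _ _)).2 (by rw [Nat.add_sub_cancel_left]; exact dvd_mul_right _ _) |>.symm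
  obtain ⟨V, hV⟩ : ∃ V, V = X + t := ⟨_, rfl⟩
  rw [← hV] at htm
  have hVX : (X : ℝ) ≤ V := by rw [hV]; push_cast; linarith [Nat.cast_nonneg (α := ℝ) t]
  have hVX2 : (V : ℝ) ≤ X + Q := by
    rw [hV]
    push_cast
    have : (t : ℝ) ≤ Q := by exact_mod_cast htQ.le
    linarith
  obtain ⟨A₁, hA₁⟩ : ∃ A₁, A₁ = U / H := ⟨_, rfl⟩
  obtain ⟨B₁, hB₁⟩ : ∃ B₁, B₁ = X / (4 * H) := ⟨_, rfl⟩
  have hAH : A₁ * H ≤ U := by rw [hA₁]; exact Nat.div_mul_le_self _ _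
  have hBH : B₁ * (4 * H) ≤ X := by rw [hB₁]; exact Nat.div_mul_le_self _ _
  have hAHr : (A₁ : ℝ) * H ≤ U := by exact_mod_cast hAH
  have hBHr : (B₁ : ℝ) * (4 * H) ≤ X := by exact_mod_cast hBH
  have hdivlow : ∀ a b : ℕ, 1 ≤ b → (a : ℝ) < b * ((a / b : ℕ) + 1) := by
    intro a b hb
    have h1 := Nat.div_add_mod a b
    have h2 := Nat.mod_lt a (by omega : 0 < b)
    have h3 : a < b * (a / b + 1) := by rw [mul_add, mul_one]; omega
    exact_mod_cast h3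
  have hZinv : ∀ s : ℝ, (X : ℝ) ^ (s - τ) * Z = (X : ℝ) ^ s := by
    intro s
    rw [hZ, ← Real.rpow_add hX0, sub_add_cancel]
  have hA1low : (X : ℝ) ^ (β - τ) ≤ A₁ := by
    have h1 := hdivlow U H hH1
    rw [← hA₁] at h1
    have h2 := hZinv β
    rw [← hP] at h2
    have h3 : 1 ≤ (X : ℝ) ^ (β - τ) := Real.one_le_rpow hX1.le (by linarith)
    have h4 : (X : ℝ) ^ (β - τ) * (8 * H) < H * (A₁ + 1) := by
      calc (X : ℝ) ^ (β - τ) * (8 * H) ≤ (X : ℝ) ^ (β - τ) * Z := mul_le_mul_of_nonneg_left hHr (by positivity)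
        _ = P := h2
        _ ≤ U := hU1
        _ < _ := h1
    have h5 : (X : ℝ) ^ (β - τ) * 8 < A₁ + 1 := by
      have h6 : H * ((X : ℝ) ^ (β - τ) * 8) < H * (A₁ + 1) := by linarith
      exact lt_of_mul_lt_mul_left h6 (by linarith)
    linarith
  have hB1low : (X : ℝ) ^ (1 - τ) ≤ B₁ := by
    have h1 := hdivlow X (4 * H) (by omega)
    rw [← hB₁] at h1
    push_cast at h1
    have h2 := hZinv 1
    rw [Real.rpow_one] at h2
    have h3 : 1 ≤ (X : ℝ) ^ (1 - τ) := Real.one_le_rpow hX1.le (by linarith)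
    have h4 : (X : ℝ) ^ (1 - τ) * (8 * H) < 4 * H * (B₁ + 1) := by
      calc (X : ℝ) ^ (1 - τ) * (8 * H) ≤ (X : ℝ) ^ (1 - τ) * Z := mul_le_mul_of_nonneg_left hHr (by positivity)
        _ = X := h2
        _ < _ := h1
    have h5 : (X : ℝ) ^ (1 - τ) * 2 < B₁ + 1 := by
      have h6 : (4 * H) * ((X : ℝ) ^ (1 - τ) * 2) < 4 * H * (B₁ + 1) := by linarith
      exact lt_of_mul_lt_mul_left h6 (by linarith)
    linarith
  have hA1pos : 0 < (A₁ : ℝ) := lt_of_lt_of_le (Real.rpow_pos_of_pos hX0 _) hA1low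
  have hB1pos : 0 < (B₁ : ℝ) := lt_of_lt_of_le (Real.rpow_pos_of_pos hX0 _) hB1low
  have hA1nat : 1 ≤ A₁ := by exact_mod_cast hA1pos
  have hB1nat : 1 ≤ B₁ := by exact_mod_cast hB1pos
  -- the members of the grid
  have hua : ∀ a < A₁, P ≤ ((U + a * H : ℕ) : ℝ) ∧ ((U + a * H : ℕ) : ℝ) ≤ 3 * P := by
    intro a ha
    have h1 : (a : ℝ) * H ≤ U := by
      have : (a : ℝ) ≤ A₁ := by exact_mod_cast ha.le
      have := mul_le_mul_of_nonneg_right this (by linarith : (0 : ℝ) ≤ H)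
      linarith
    have h2 : 0 ≤ (a : ℝ) * H := by positivity
    push_cast
    constructor <;> linarith
  have hvb : ∀ b < B₁, (X : ℝ) ≤ ((V + b * H : ℕ) : ℝ) ∧ ((V + b * H : ℕ) : ℝ) ≤ X + Q + X / 4 := by
    intro b hb
    have h1 : (b : ℝ) * H ≤ X / 4 := by
      have : (b : ℝ) ≤ B₁ := by exact_mod_cast hb.le
      have := mul_le_mul_of_nonneg_right this (by linarith : (0 : ℝ) ≤ H)
      linarith
    have h2 : 0 ≤ (b : ℝ) * H := by positivity
    push_cast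
    constructor <;> linarith
  have hUV : U + A₁ * H + 2 * w < V := by
    have h1 : (U : ℝ) + A₁ * H + 2 * w < V := by linarith
    exact_mod_cast h1
  have hcond : ∀ a < A₁, ∀ b < B₁, (U + a * H) + 2 * w < V + b * H := by
    intro a ha b _
    have h1 : a * H ≤ A₁ * H := Nat.mul_le_mul_right _ ha.le
    have h2 : 0 ≤ b * H := Nat.zero_le _
    omega
  have hmod : ∀ a b, (U + a * H) + (V + b * H) ≡ r [MOD Q] := by
    intro a b
    have h1 : (U + a * H) + (V + b * H) = (U + V) + Q * ((a + b) * (w + 1)) := by rw [hH]; ring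
    rw [h1]
    have h2 : (U + V) + Q * ((a + b) * (w + 1)) ≡ (U + V) [MOD Q] :=
      ((Nat.modEq_iff_dvd' (Nat.le_add_right _ _)).2 (by rw [Nat.add_sub_cancel_left]; exact dvd_mul_right _ _)).symm
    exact h2.trans htm
  have hsing : ∀ a b, sing3 Q ((U + a * H) + (V + b * H)) = S := by
    intro a b
    rw [sing3_mod (hmod a b), hSd]
  -- the probabilities
  have hl2 : Real.log (2 * (X : ℝ)) = L + Real.log 2 := by rw [Real.log_mul (by norm_num) hX0.ne', hL]; ring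
  have hlh : Real.log ((X : ℝ) / 2) = L - Real.log 2 := by rw [Real.log_div hX0.ne' (by norm_num), hL]
  have hl4 : Real.log (4 * P) = β * L + Real.log 4 := by rw [Real.log_mul (by norm_num) (by linarith), hLogP]; ring
  have hbL : 2 * qq Q ≤ β * L := by
    have h1 : 2 * qq Q / β * β ≤ L * β := mul_le_mul_of_nonneg_right g6 hβ.le
    rw [div_mul_cancel₀ _ hβ.ne'] at h1
    linarith
  have hlow : ∀ a < A₁, ∀ b < B₁, Real.exp (-(((1 - ε / 2) * (1 + β) + τ) * L)) ≤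
      μ.real (none A (Ico 1 (1 + w)) (gp (U + a * H) (V + b * H))) := by
    intro a ha b hb
    obtain ⟨h1, h1'⟩ := hua a ha
    obtain ⟨h2, h2'⟩ := hvb b hb
    have h3 := le_gold hA hQ (hcond a ha b hb) (x := P) (y := (X : ℝ) / 2) (by linarith) (by linarith) h1 (by linarith)
      (by rw [hLogP]; exact hbL) (by rw [hlh]; linarith)
    refine le_trans ?_ h3
    apply Real.exp_le_exp.2
    rw [hsing, hlh, hLogP]
    have h4 : ((w : ℝ) + Q) * S / (β * L * (L - Real.log 2)) ≤ (D' * L ^ 3 + Q) * S / (β * L * (L - Real.log 2)) := by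
      refine div_le_div_of_nonneg_right (mul_le_mul_of_nonneg_right (by linarith) hS.le) ?_
      exact mul_nonneg (by positivity) (by linarith)
    have h5 : 0 ≤ 1 + qq Q ^ 2 / (β * L * (L - Real.log 2)) := by
      have : 0 ≤ qq Q ^ 2 / (β * L * (L - Real.log 2)) := div_nonneg (by positivity) (mul_nonneg (by positivity) (by linarith))
      linarith
    have h6 := mul_le_mul_of_nonneg_left h4 h5
    linarith
  have hupp : ∀ a < A₁, ∀ b < B₁, μ.real (none A (Ico 1 (1 + w)) (gp (U + a * H) (V + b * H))) ≤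
      Real.exp (-(((1 - ε / 2) * (1 + β) - τ) * L)) := by
    intro a ha b hb
    obtain ⟨h1, h1'⟩ := hua a ha
    obtain ⟨h2, h2'⟩ := hvb b hb
    have hlu : β * L ≤ Real.log ((U + a * H : ℕ) : ℝ) := by
      rw [← hLogP]
      exact Real.log_le_log (by linarith) h1
    have h3 := gold_le hA hQ (hcond a ha b hb) (x := 4 * P) (y := 2 * (X : ℝ)) (by linarith)
      (by exact_mod_cast (by linarith : (1 : ℝ) < ((U + a * H : ℕ) : ℝ))) (by linarith) (by linarith)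
    refine h3.trans ?_
    apply Real.exp_le_exp.2
    rw [hsing, hl2, hl4]
    have h0 : 0 < Real.log 4 := Real.log_pos (by norm_num)
    have h4 : (D' * L ^ 3 - 1 - Q) * S / ((β * L + Real.log 4) * (L + Real.log 2)) ≤
        ((w : ℝ) - Q) * S / ((β * L + Real.log 4) * (L + Real.log 2)) :=
      div_le_div_of_nonneg_right (mul_le_mul_of_nonneg_right (by linarith) hS.le) (by positivity)
    linarith
  -- the second moment
  have hzb : ∀ m, U < m → level Q m ≤ qq Q / (β * L) := by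
    intro m hm
    rw [← hLogP]
    refine level_le (by rw [hLogP]; positivity) (by linarith) ?_
    have : (U : ℝ) ≤ m := by exact_mod_cast hm.le
    linarith
  have hz1 : qq Q / (β * L) ≤ 1 / 2 := by
    rw [div_le_div_iff₀ (by positivity) (by norm_num)]
    linarith
  have hfin := gold_grid hA hwH hA1nat hB1nat hUV (by positivity) hzb hz1 (Real.exp_pos _) hlow hupp
  have hsub : {ω | ¬ Miss Q r ε β (A ω) X} ⊆
      {ω | ∀ a < A₁, ∀ b < B₁, ω ∉ none A (Ico 1 (1 + w)) (gp (U + a * H) (V + b * H))} := by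
    intro ω hω a ha b hb hn
    apply hω
    obtain ⟨h1, h1'⟩ := hua a ha
    obtain ⟨h2, h2'⟩ := hvb b hb
    obtain ⟨u, hu⟩ : ∃ u, u = U + a * H := ⟨_, rfl⟩
    obtain ⟨v, hv⟩ : ∃ v, v = V + b * H := ⟨_, rfl⟩
    have hs := hsing a b
    have hm := hmod a b
    have hc := hcond a ha b hb
    rw [← hu] at h1 h1' hn hs hm hc
    rw [← hv] at h2 h2' hn hs hm hc
    have hNX : X ≤ u + v := by
      have : (X : ℝ) ≤ ((u + v : ℕ) : ℝ) := by push_cast; linarith [Nat.cast_nonneg (α := ℝ) u]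
      exact_mod_cast this
    have hNX2 : u + v ≤ 2 * X := by
      have : ((u + v : ℕ) : ℝ) ≤ ((2 * X : ℕ) : ℝ) := by push_cast; linarith
      exact_mod_cast this
    refine ⟨u + v, u, hNX, hNX2, hm, ?_, ?_, ?_⟩
    · rw [← hP]; exact h1
    · rw [← hP]; exact h1'
    · intro hh
      refine not_of_hit rfl ?_ (by omega) hh hn
      unfold scale
      rw [hs]
      have hu0 : (0 : ℝ) < u := by linarith
      have hN0 : (0 : ℝ) < ((u + v : ℕ) : ℝ) := by push_cast; linarith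
      have k1 : Real.log (u : ℝ) ≤ β * L + Real.log 3 := by
        have : Real.log (u : ℝ) ≤ Real.log (3 * P) := Real.log_le_log hu0 h1'
        rw [Real.log_mul (by norm_num) (by linarith), hLogP] at this
        linarith
      have k2 : Real.log ((u + v : ℕ) : ℝ) ≤ L + Real.log 2 := by
        rw [← hl2]
        refine Real.log_le_log hN0 ?_
        exact_mod_cast hNX2
      have k3 : 0 ≤ Real.log (u : ℝ) := Real.log_nonneg (by linarith)
      have k4 : 0 ≤ Real.log ((u + v : ℕ) : ℝ) := Real.log_nonneg (by push_cast; linarith)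
      have k5 : Real.log (u : ℝ) * Real.log ((u + v : ℕ) : ℝ) * (Real.log (u : ℝ) + Real.log ((u + v : ℕ) : ℝ)) ≤
          (β * L + Real.log 3) * (L + Real.log 2) * (β * L + Real.log 3 + (L + Real.log 2)) := by gcongr
      have k6 : (1 - ε) * (Real.log (u : ℝ) * Real.log ((u + v : ℕ) : ℝ) * (Real.log (u : ℝ) + Real.log ((u + v : ℕ) : ℝ)) / S) ≤
          (1 - ε) * ((β * L + Real.log 3) * (L + Real.log 2) * (β * L + Real.log 3 + (L + Real.log 2)) / S) :=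
        mul_le_mul_of_nonneg_left (div_le_div_of_nonneg_right k5 hS.le) (by linarith)
      linarith
  refine (measureReal_mono hsub (measure_ne_top _ _)).trans (hfin.trans ?_)
  have c1 : Real.exp (4 * (w * (qq Q / (β * L)) ^ 3)) ≤ Real.exp K₁ := by
    apply Real.exp_le_exp.2
    rw [hK₁]
    have h1 : (w : ℝ) * (qq Q / (β * L)) ^ 3 ≤ D' * L ^ 3 * (qq Q / (β * L)) ^ 3 := mul_le_mul_of_nonneg_right hw1 (by positivity)
    have h2 : D' * L ^ 3 * (qq Q / (β * L)) ^ 3 = D' * (qq Q / β) ^ 3 := by field_simp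
    linarith
  have c2 : (Real.exp (-(((1 - ε / 2) * (1 + β) - τ) * L)) / Real.exp (-(((1 - ε / 2) * (1 + β) + τ) * L))) ^ 2 =
      (X : ℝ) ^ (4 * τ) := by
    rw [← Real.exp_sub, ← Real.exp_nat_mul, Real.rpow_def_of_pos hX0, ← hL]
    congr 1
    push_cast
    ring
  have c3 : 1 / (A₁ : ℝ) ≤ (X : ℝ) ^ (-(β - τ)) := by
    rw [Real.rpow_neg hX0.le, one_div]
    exact inv_anti₀ (Real.rpow_pos_of_pos hX0 _) hA1low
  have c4 : 1 / (B₁ : ℝ) ≤ (X : ℝ) ^ (-(1 - τ)) := by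
    rw [Real.rpow_neg hX0.le, one_div]
    exact inv_anti₀ (Real.rpow_pos_of_pos hX0 _) hB1low
  have c5 : (X : ℝ) ^ (-(1 - τ)) ≤ (X : ℝ) ^ (-(β - τ)) := Real.rpow_le_rpow_of_exponent_le hX1.le (by linarith)
  have c6 : 1 / ((A₁ : ℝ) * B₁ * Real.exp (-(((1 - ε / 2) * (1 + β) + τ) * L))) ≤ (X : ℝ) ^ (-(ε / 4)) := by
    have h1 : 1 / ((A₁ : ℝ) * B₁ * Real.exp (-(((1 - ε / 2) * (1 + β) + τ) * L))) =
        1 / (A₁ : ℝ) * (1 / B₁) * (X : ℝ) ^ ((1 - ε / 2) * (1 + β) + τ) := by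
      rw [Real.rpow_def_of_pos hX0, ← hL, Real.exp_neg, mul_comm L]
      field_simp
    rw [h1]
    calc 1 / (A₁ : ℝ) * (1 / B₁) * (X : ℝ) ^ ((1 - ε / 2) * (1 + β) + τ) ≤
        (X : ℝ) ^ (-(β - τ)) * (X : ℝ) ^ (-(1 - τ)) * (X : ℝ) ^ ((1 - ε / 2) * (1 + β) + τ) := by gcongr
      _ = (X : ℝ) ^ (-(β - τ) + -(1 - τ) + ((1 - ε / 2) * (1 + β) + τ)) := by
        rw [← Real.rpow_add hX0, ← Real.rpow_add hX0]
      _ ≤ (X : ℝ) ^ (-(ε / 4)) := Real.rpow_le_rpow_of_exponent_le hX1.le (by nlinarith)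
  have c7 : Real.exp (4 * (w * (qq Q / (β * L)) ^ 3)) * (X : ℝ) ^ (4 * τ) * (1 / A₁ + 1 / B₁) ≤
      2 * Real.exp K₁ * (X : ℝ) ^ (-(β / 2)) := by
    calc Real.exp (4 * (w * (qq Q / (β * L)) ^ 3)) * (X : ℝ) ^ (4 * τ) * (1 / A₁ + 1 / B₁) ≤
        Real.exp K₁ * (X : ℝ) ^ (4 * τ) * ((X : ℝ) ^ (-(β - τ)) + (X : ℝ) ^ (-(β - τ))) := by
          gcongr
          exact c4.trans c5
      _ = 2 * Real.exp K₁ * ((X : ℝ) ^ (4 * τ) * (X : ℝ) ^ (-(β - τ))) := by ring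
      _ = 2 * Real.exp K₁ * (X : ℝ) ^ (4 * τ + -(β - τ)) := by rw [← Real.rpow_add hX0]
      _ ≤ _ := mul_le_mul_of_nonneg_left (Real.rpow_le_rpow_of_exponent_le hX1.le (by linarith)) (by positivity)
  rw [c2]
  linarith

end Pool.Agent.Q120.GM
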