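import Pool.Agent.Q120.GM.Gold5

/-!
# Windows without summands: the laws
-/

set_option autoImplicit false

namespace Pool.Agent.Q120.GM

open Finset MeasureTheory ProbabilityTheory Filter Pool.Agent.Q120.AD
open scoped Topology

variable {Ω : Type*} [MeasurableSpace Ω] {μ : Measure Ω} [IsProbabilityMeasure μ] {A : Ω → Set ℕ} {Q : ℕ}

omit [MeasurableSpace Ω] in
theorem hit_mono {S : Set ℕ} {N u : ℕ} {s t : ℝ} (h : s ≤ t) (hs : Hit S N u s) : Hit S N u t := by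
  obtain ⟨q, h1, h2, h3⟩ := hs
  exact ⟨q, h1, by linarith, h3⟩

/-- **Sharpness at all scales.** -/
theorem gold_lower (hA : IsModel μ (level Q) A) (hQ : 1 ≤ Q) {β : ℝ} (hβ : 0 < β) (hβ1 : β < 1) :
    ∀ᵐ ω ∂μ, ∀ ε : ℝ, 0 < ε → ∀ r : ℕ, 0 < sing3 Q r → ∀ᶠ X : ℕ in atTop, ∃ N u : ℕ, X ≤ N ∧ N ≤ 4 * X ∧ N ≡ r [MOD Q] ∧
      (N : ℝ) ^ β / 2 ≤ u ∧ (u : ℝ) ≤ 3 * (N : ℝ) ^ β ∧ ¬ Hit (A ω) N u ((1 - ε) * scale Q N u) := by
  have h1 : ∀ᵐ ω ∂μ, ∀ n : ℕ, ∀ r : ℕ, 0 < sing3 Q r → ∀ᶠ j : ℕ in atTop, Miss Q r (1 / ((n : ℝ) + 2)) β (A ω) (2 ^ j) := by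
    rw [ae_all_iff]
    intro n
    rw [ae_all_iff]
    intro r
    have hε : 0 < 1 / ((n : ℝ) + 2) := by positivity
    have hε1 : 1 / ((n : ℝ) + 2) < 1 := by
      have hn : (0 : ℝ) ≤ n := Nat.cast_nonneg n
      rw [div_lt_one (by positivity)]
      linarith
    by_cases hS : 0 < sing3 Q r
    · obtain ⟨K, hK⟩ := prob_miss hA hQ hε hε1 hβ hβ1 hS
      have h2 : ∀ᶠ j : ℕ in atTop, μ.real {ω | ¬ Miss Q r (1 / ((n : ℝ) + 2)) β (A ω) (2 ^ j)} ≤
          K * ((2 : ℝ) ^ j) ^ (-(β / 2)) + 4 * ((2 : ℝ) ^ j) ^ (-(1 / ((n : ℝ) + 2) / 4)) := by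
        filter_upwards [two_pow_tendsto.eventually hK] with j hj
        push_cast at hj
        exact hj
      have h3 : Summable (fun j : ℕ => K * ((2 : ℝ) ^ j) ^ (-(β / 2)) + 4 * ((2 : ℝ) ^ j) ^ (-(1 / ((n : ℝ) + 2) / 4))) :=
        ((summable_two_pow (by positivity)).mul_left K).add ((summable_two_pow (by positivity)).mul_left 4)
      filter_upwards [bc h3 h2] with ω hω _
      filter_upwards [hω] with j hj
      by_contra hcon
      exact hj hcon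
    · exact Eventually.of_forall (fun ω h => absurd h hS)
  filter_upwards [h1] with ω hω ε hε r hS
  obtain ⟨n, hn⟩ := exists_nat_one_div_lt hε
  have hn' : 1 / ((n : ℝ) + 2) ≤ ε := by
    have hn0 : (0 : ℝ) ≤ n := Nat.cast_nonneg n
    have : 1 / ((n : ℝ) + 2) ≤ 1 / ((n : ℝ) + 1) := one_div_le_one_div_of_le (by linarith) (by linarith)
    linarith
  obtain ⟨j₀, hj₀⟩ := eventually_atTop.1 (hω n r hS)
  filter_upwards [eventually_ge_atTop (2 ^ j₀ + 1), eventually_ge_atTop 1] with X hX hX1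
  -- choose the least power of two which is at least `X`
  obtain ⟨j, hj1, hj2⟩ : ∃ j, X ≤ 2 ^ j ∧ 2 ^ j < 2 * X := by
    refine ⟨Nat.clog 2 X, Nat.le_pow_clog (by norm_num) X, ?_⟩
    rcases Nat.lt_or_ge 1 X with h | h
    · have h4 := Nat.pow_pred_clog_lt_self (b := 2) (by norm_num) h
      have h5 : 0 < Nat.clog 2 X := Nat.clog_pos (by norm_num) h
      have h6 : 2 ^ Nat.clog 2 X = 2 * 2 ^ (Nat.clog 2 X).pred := by
        rw [← pow_succ']
        congr 1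
        exact (Nat.succ_pred_eq_of_pos h5).symm
      omega
    · have h4 : X = 1 := by omega
      rw [h4]
      simp
  have hj : j₀ ≤ j := by
    by_contra hcon
    push Not at hcon
    have : 2 ^ j ≤ 2 ^ j₀ := Nat.pow_le_pow_right (by norm_num) hcon.le
    omega
  obtain ⟨N, u, h2, h3, h4, h5, h6, h7⟩ := hj₀ j hj
  refine ⟨N, u, by omega, by omega, h4, ?_, ?_, ?_⟩
  · have e1 : (N : ℝ) ^ β ≤ 2 * ((2 ^ j : ℕ) : ℝ) ^ β := by
      have e2 : (N : ℝ) ≤ 2 * ((2 ^ j : ℕ) : ℝ) := by exact_mod_cast h3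
      calc (N : ℝ) ^ β ≤ (2 * ((2 ^ j : ℕ) : ℝ)) ^ β := Real.rpow_le_rpow (Nat.cast_nonneg N) e2 hβ.le
        _ = 2 ^ β * ((2 ^ j : ℕ) : ℝ) ^ β := Real.mul_rpow (by norm_num) (Nat.cast_nonneg _)
        _ ≤ 2 * ((2 ^ j : ℕ) : ℝ) ^ β := by
          refine mul_le_mul_of_nonneg_right ?_ (by positivity)
          calc (2 : ℝ) ^ β ≤ 2 ^ (1 : ℝ) := Real.rpow_le_rpow_of_exponent_le (by norm_num) hβ1.le
            _ = 2 := Real.rpow_one 2
    linarith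
  · have e1 : ((2 ^ j : ℕ) : ℝ) ^ β ≤ (N : ℝ) ^ β := Real.rpow_le_rpow (Nat.cast_nonneg _) (by exact_mod_cast h2) hβ.le
    linarith
  · intro h8
    apply h7
    refine hit_mono ?_ h8
    exact mul_le_mul_of_nonneg_right (by linarith) (scale_nonneg _ _ _)

/-- The estimate of the probability of one window of the shorter length. -/
theorem one_window' (hA : IsModel μ (level Q) A) (hQ : 1 ≤ Q) {ε β : ℝ} (hε : 0 < ε) (hβ : 0 < β) :
    ∀ᶠ N : ℕ in atTop, 0 < sing3 Q N → ∀ u : ℕ, (N : ℝ) ^ β ≤ u → 3 * u ≤ N →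
      u + 2 * ⌊(1 + ε) * (Real.log u * Real.log N ^ 2 / sing3 Q N)⌋₊ < N - u ∧
      μ.real (none A (Ico 1 (1 + ⌊(1 + ε) * (Real.log u * Real.log N ^ 2 / sing3 Q N)⌋₊)) (gp u (N - u))) ≤
        (N : ℝ) ^ (-(1 + ε / 2)) := by
  obtain ⟨C, hC⟩ : ∃ C, C = (1 + (Q : ℝ)) * qq Q ^ 2 := ⟨_, rfl⟩
  have hC0 : 0 ≤ C := by rw [hC]; positivity
  have hL : Tendsto (fun N : ℕ => Real.log (N : ℝ)) atTop atTop := hl
  have hQ0 : (0 : ℝ) < Q := by exact_mod_cast hQ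
  filter_upwards [ev_power (4 * (1 + ε) * (2 * Q)) 3 hβ, hL.eventually_ge_atTop ((2 * ((1 + ε / 2) * Real.log 2 + 1)) / (β * ε)),
    hL.eventually_ge_atTop (1 + C), hL.eventually_ge_atTop (qq Q / β), hL.eventually_ge_atTop (1 / β)] with N g1 g2 g3 g4 g5
  intro hS u hu h3u
  obtain ⟨lN, hlN⟩ : ∃ lN, lN = Real.log (N : ℝ) := ⟨_, rfl⟩
  obtain ⟨lu, hlu⟩ : ∃ lu, lu = Real.log (u : ℝ) := ⟨_, rfl⟩
  obtain ⟨S, hSd⟩ : ∃ S, S = sing3 Q N := ⟨_, rfl⟩
  rw [← hlN] at g1 g2 g3 g4 g5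
  rw [← hSd] at hS
  have hN1 : 1 < (N : ℝ) := by
    have h1 : 0 < Real.log (N : ℝ) := by rw [← hlN]; linarith
    exact (Real.log_pos_iff (Nat.cast_nonneg N)).1 h1
  have hN0 : 0 < (N : ℝ) := by linarith
  have hNb : 1 < (N : ℝ) ^ β := Real.one_lt_rpow hN1 hβ
  have hu1 : (1 : ℝ) < u := by linarith
  have hu0 : (0 : ℝ) < u := by linarith
  have hun : 1 < u := by exact_mod_cast hu1
  have h3 : β * lN ≤ lu := by
    rw [hlN, hlu, ← Real.log_rpow hN0]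
    exact Real.log_le_log (by linarith) hu
  have huN : lu ≤ lN := by
    rw [hlN, hlu]
    refine Real.log_le_log hu0 ?_
    exact_mod_cast (by omega : u ≤ N)
  have hlu1 : 1 ≤ lu := by
    have : 1 / β * β ≤ lN * β := mul_le_mul_of_nonneg_right g5 hβ.le
    rw [one_div, inv_mul_cancel₀ hβ.ne'] at this
    linarith
  have hluq : qq Q ≤ lu := by
    have : qq Q / β * β ≤ lN * β := mul_le_mul_of_nonneg_right g4 hβ.le
    rw [div_mul_cancel₀ _ hβ.ne'] at this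
    linarith
  have hlue : (1 + ε / 2) * Real.log 2 + 1 ≤ ε / 2 * lu := by
    have h4 : (2 * ((1 + ε / 2) * Real.log 2 + 1)) / (β * ε) * (β * ε) ≤ lN * (β * ε) :=
      mul_le_mul_of_nonneg_right g2 (by positivity)
    rw [div_mul_cancel₀ _ (by positivity)] at h4
    nlinarith
  have hlN1 : 1 ≤ lN := by linarith
  obtain ⟨sc, hsc⟩ : ∃ sc, sc = lu * lN ^ 2 / S := ⟨_, rfl⟩
  rw [← hlu, ← hlN, ← hSd, ← hsc]
  obtain ⟨w, hw⟩ : ∃ w, w = ⌊(1 + ε) * sc⌋₊ := ⟨_, rfl⟩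
  rw [← hw]
  have hsc0 : 0 ≤ sc := by rw [hsc]; positivity
  have hw1 : (w : ℝ) ≤ (1 + ε) * sc := by rw [hw]; exact Nat.floor_le (by positivity)
  have hw2 : (1 + ε) * sc - 1 ≤ w := by
    rw [hw]
    have := Nat.lt_floor_add_one ((1 + ε) * sc)
    linarith
  have hSl : 1 / (Q : ℝ) ≤ S := by rw [hSd]; exact le_sing3 hQ (by rw [← hSd]; exact hS)
  have hsu : S ≤ qq Q ^ 2 := by rw [hSd]; exact sing3_le hQ N
  have hsc2 : sc ≤ 2 * Q * lN ^ 3 := by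
    rw [hsc, div_le_iff₀ hS]
    have h5 : lu * lN ^ 2 ≤ lN * lN ^ 2 := by gcongr
    have h6 : 1 ≤ Q * S := by
      rw [div_le_iff₀ hQ0] at hSl
      linarith
    have h7 : 0 ≤ lN ^ 3 := by positivity
    nlinarith
  have hwu : 4 * (w : ℝ) ≤ u := by
    have h5 : 4 * ((1 + ε) * sc) ≤ 4 * (1 + ε) * (2 * Q) * lN ^ 3 := by
      have := mul_le_mul_of_nonneg_left hsc2 (by positivity : 0 ≤ 4 * (1 + ε))
      linarith
    linarith
  have hwu' : 4 * w ≤ u := by exact_mod_cast hwu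
  have hcond : u + 2 * w < N - u := by omega
  refine ⟨hcond, ?_⟩
  have h8 : ((u : ℝ) + w) ≤ 2 * u := by linarith
  have h9 := gold_le hA hQ (u := u) (v := N - u) (w := w) hcond (x := 2 * u) (y := N) (by rw [← hlu]; exact hluq) hun h8
    (by exact_mod_cast Nat.sub_le _ _)
  refine h9.trans ?_
  rw [show u + (N - u) = N by omega, ← hSd, ← hlN]
  rw [Real.rpow_def_of_pos hN0, ← hlN, Real.log_mul (by norm_num) hu0.ne', ← hlu]
  apply Real.exp_le_exp.2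
  have hl2 : 0 < Real.log 2 := Real.log_pos (by norm_num)
  have h10 : (1 + ε / 2) * lN ≤ ((w : ℝ) - Q) * S / ((Real.log 2 + lu) * lN) := by
    rw [le_div_iff₀ (by positivity)]
    have h11 : (1 + ε) * (lu * lN ^ 2) - C ≤ ((w : ℝ) - Q) * S := by
      have h12 : ((1 + ε) * sc - 1 - Q) * S ≤ ((w : ℝ) - Q) * S := mul_le_mul_of_nonneg_right (by linarith) hS.le
      have h13 : sc * S = lu * lN ^ 2 := by rw [hsc, div_mul_cancel₀ _ hS.ne']
      have h14 : (1 + (Q : ℝ)) * S ≤ C := by rw [hC]; exact mul_le_mul_of_nonneg_left hsu (by positivity)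
      nlinarith
    have h15 : (1 + ε / 2) * lN * ((Real.log 2 + lu) * lN) =
        (1 + ε) * (lu * lN ^ 2) - lN ^ 2 * (ε / 2 * lu - (1 + ε / 2) * Real.log 2) := by ring
    have h16 : C ≤ lN ^ 2 * (ε / 2 * lu - (1 + ε / 2) * Real.log 2) := by
      have h17 : 1 ≤ ε / 2 * lu - (1 + ε / 2) * Real.log 2 := by linarith
      have h18 : C ≤ lN ^ 2 := by nlinarith
      have h19 : 0 ≤ lN ^ 2 := by positivity
      nlinarith
    rw [h15]
    linarith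
  linarith

/-- **Windows at a given place.** -/
theorem gold_fixed (hA : IsModel μ (level Q) A) (hQ : 1 ≤ Q) {ε β : ℝ} (hε : 0 < ε) (hβ : 0 < β) (f : ℕ → ℕ)
    (hf : ∀ᶠ N : ℕ in atTop, (N : ℝ) ^ β ≤ f N ∧ 3 * f N ≤ N) :
    ∀ᵐ ω ∂μ, ∀ᶠ N : ℕ in atTop, 0 < sing3 Q N →
      Hit (A ω) N (f N) ((1 + ε) * (Real.log (f N) * Real.log N ^ 2 / sing3 Q N)) := by
  classical
  have h1 := one_window' hA hQ hε hβ
  have hsum : Summable (fun n : ℕ => (n : ℝ) ^ (-(1 + ε / 2))) := Real.summable_nat_rpow.2 (by linarith)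
  obtain ⟨B, hB⟩ : ∃ B : ℕ → Set Ω, B = fun N => {ω | 0 < sing3 Q N ∧
    ω ∈ none A (Ico 1 (1 + ⌊(1 + ε) * (Real.log (f N) * Real.log N ^ 2 / sing3 Q N)⌋₊)) (gp (f N) (N - f N))} := ⟨_, rfl⟩
  have h2 : ∀ᶠ N : ℕ in atTop, μ.real (B N) ≤ (N : ℝ) ^ (-(1 + ε / 2)) := by
    filter_upwards [h1, hf] with N hN hfN
    by_cases hS : 0 < sing3 Q N
    · refine (measureReal_mono ?_ (measure_ne_top _ _)).trans (hN hS (f N) hfN.1 hfN.2).2
      intro ω hω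
      rw [hB] at hω
      exact hω.2
    · have h3 : B N = ∅ := by
        rw [Set.eq_empty_iff_forall_notMem]
        intro ω hω
        rw [hB] at hω
        exact hS hω.1
      rw [h3, measureReal_empty]
      positivity
  filter_upwards [bc hsum h2] with ω hω
  filter_upwards [hω, h1, hf] with N hN h1N hfN hS
  obtain ⟨h4, _⟩ := h1N hS (f N) hfN.1 hfN.2
  have h6 : ω ∉ none A (Ico 1 (1 + ⌊(1 + ε) * (Real.log (f N) * Real.log N ^ 2 / sing3 Q N)⌋₊)) (gp (f N) (N - f N)) := by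
    intro h7
    apply hN
    rw [hB]
    exact ⟨hS, h7⟩
  have h8 := Real.log_natCast_nonneg (f N)
  exact hit_of (by omega) (Nat.floor_le (by positivity)) (by omega) h6

/-- **The window after the square root.** -/
theorem gold_sqrt (hA : IsModel μ (level Q) A) (hQ : 1 ≤ Q) :
    ∀ᵐ ω ∂μ, ∀ ε : ℝ, 0 < ε → ∀ᶠ N : ℕ in atTop, 0 < sing3 Q N →
      ∃ q : ℕ, q ∈ A ω ∧ N - q ∈ A ω ∧ Real.sqrt N < q ∧ (q : ℝ) ≤ Real.sqrt N + (1 / 2 + ε) * Real.log N ^ 3 / sing3 Q N := by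
  have h1 : ∀ᵐ ω ∂μ, ∀ n : ℕ, ∀ᶠ N : ℕ in atTop, 0 < sing3 Q N →
      Hit (A ω) N (Nat.sqrt N) ((1 + 1 / ((n : ℝ) + 1)) * (Real.log (Nat.sqrt N) * Real.log N ^ 2 / sing3 Q N)) := by
    rw [ae_all_iff]
    intro n
    refine gold_fixed hA hQ (by positivity) (β := 1 / 4) (by norm_num) Nat.sqrt ?_
    filter_upwards [eventually_ge_atTop 16, ev_power 2 0 (by norm_num : (0 : ℝ) < 1 / 4)] with N hN hN2
    rw [pow_zero, mul_one] at hN2
    have hN0 : (0 : ℝ) < N := by exact_mod_cast (by omega : 0 < N)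
    constructor
    · have h2 : Real.sqrt N < Nat.sqrt N + 1 := by
        have h3 : N < (Nat.sqrt N + 1) ^ 2 := Nat.lt_succ_sqrt' N
        rw [Real.sqrt_lt' (by positivity)]
        exact_mod_cast h3
      have h3 : Real.sqrt N = (N : ℝ) ^ (1 / 4 : ℝ) * (N : ℝ) ^ (1 / 4 : ℝ) := by
        rw [← Real.rpow_add hN0, Real.sqrt_eq_rpow]
        norm_num
      nlinarith
    · have h2 : Nat.sqrt N * Nat.sqrt N ≤ N := Nat.sqrt_le N
      have h3 : 4 ≤ Nat.sqrt N := by rw [Nat.le_sqrt]; omega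
      nlinarith
  filter_upwards [h1] with ω hω ε hε
  obtain ⟨n, hn⟩ := exists_nat_one_div_lt hε
  filter_upwards [hω n, eventually_ge_atTop 16] with N hN hN16 hS
  obtain ⟨q, h2, h3, h4, h5⟩ := hN hS
  have hN0 : (0 : ℝ) < N := by exact_mod_cast (by omega : 0 < N)
  have h6 : (Nat.sqrt N : ℝ) ≤ Real.sqrt N := by
    rw [Real.le_sqrt (Nat.cast_nonneg _) hN0.le]
    exact_mod_cast Nat.sqrt_le' N
  refine ⟨q, h4, h5, ?_, ?_⟩
  · rw [Real.sqrt_lt' (by exact_mod_cast (by omega : 0 < q))]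
    have h7 : N < (Nat.sqrt N + 1) ^ 2 := Nat.lt_succ_sqrt' N
    have h8 : (Nat.sqrt N + 1) ^ 2 ≤ q ^ 2 := Nat.pow_le_pow_left h2 2
    exact_mod_cast lt_of_lt_of_le h7 h8
  · have h7 : Real.log (Nat.sqrt N : ℝ) ≤ Real.log N / 2 := by
      rw [← Real.log_sqrt hN0.le]
      refine Real.log_le_log ?_ h6
      have : 4 ≤ Nat.sqrt N := by rw [Nat.le_sqrt]; omega
      exact_mod_cast (by omega : 0 < Nat.sqrt N)
    have h8 : (1 + 1 / ((n : ℝ) + 1)) * (Real.log (Nat.sqrt N) * Real.log N ^ 2 / sing3 Q N) ≤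
        (1 / 2 + ε) * Real.log N ^ 3 / sing3 Q N := by
      rw [← mul_div_assoc]
      refine div_le_div_of_nonneg_right ?_ hS.le
      have h9 : Real.log (Nat.sqrt N : ℝ) * Real.log N ^ 2 ≤ Real.log N / 2 * Real.log N ^ 2 :=
        mul_le_mul_of_nonneg_right h7 (sq_nonneg _)
      have h10 : 0 ≤ Real.log (N : ℝ) := Real.log_natCast_nonneg N
      have h11 : 0 < 1 / ((n : ℝ) + 1) := by positivity
      have h12 := mul_le_mul_of_nonneg_left h9 (by linarith : 0 ≤ 1 + 1 / ((n : ℝ) + 1))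
      have h13 : (1 + 1 / ((n : ℝ) + 1)) * (Real.log N / 2 * Real.log N ^ 2) ≤ (1 / 2 + ε) * Real.log N ^ 3 := by
        have h14 : 0 ≤ Real.log (N : ℝ) ^ 3 := by positivity
        have h15 : (1 + 1 / ((n : ℝ) + 1)) * (Real.log N / 2 * Real.log N ^ 2) = (1 / 2 + 1 / ((n : ℝ) + 1) / 2) * Real.log N ^ 3 := by ring
        rw [h15]
        exact mul_le_mul_of_nonneg_right (by linarith) h14
      linarith
    linarith

end Pool.Agent.Q120.GM
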