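import Pool.Agent.Q120.GM.Rec3

/-!
# The limit law of the maximal gap: the recursion
-/

set_option autoImplicit false

namespace Pool.Agent.Q120.GM

open Finset MeasureTheory ProbabilityTheory Filter Pool.Agent.Q120.AD
open scoped Topology

variable {Ω : Type*} [MeasurableSpace Ω] {μ : Measure Ω} [IsProbabilityMeasure μ] {p : ℕ → ℝ} {A : Ω → Set ℕ}

/-- `n` is an element and none of the next `T` numbers is. -/
def longAt (A : Ω → Set ℕ) (T n : ℕ) : Set Ω := {ω | n ∈ A ω} ∩ free A (Ioc n (n + T))

/-- The probability. -/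
noncomputable def ee (p : ℕ → ℝ) (T n : ℕ) : ℝ := p n * ∏ m ∈ Ioc n (n + T), (1 - p m)

theorem F_long {T n : ℕ} {S : Set ℕ} (h : ∀ m, n ≤ m → m ≤ n + T → m ∈ S) : MeasurableSet[F A S] (longAt A T n) := by
  refine MeasurableSet.inter (F_mem (h n le_rfl (by omega))) (F_free (fun m hm => ?_))
  rw [mem_Ioc] at hm
  exact h m (by omega) hm.2

theorem real_long (hA : IsModel μ p A) (T n : ℕ) : μ.real (longAt A T n) = ee p T n := by
  unfold longAt ee
  have hd : Disjoint ({n} : Set ℕ) (Set.Ioi n) := by
    rw [Set.disjoint_singleton_left]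
    exact lt_irrefl n
  rw [indep_real hA hd (F_mem (Set.mem_singleton n)) (F_free (fun m hm => (mem_Ioc.1 hm).1)), hA.prob, real_free hA]

theorem ee_nonneg (hA : IsModel μ p A) (T n : ℕ) : 0 ≤ ee p T n := by
  rw [← real_long hA]
  exact measureReal_nonneg

/-- No such `m < N`. -/
def noLong (A : Ω → Set ℕ) (T N : ℕ) : Set Ω := ⋂ m ∈ range N, (longAt A T m)ᶜ

theorem F_noLong {T N : ℕ} {S : Set ℕ} (h : ∀ m, m < N + T → m ∈ S) : MeasurableSet[F A S] (noLong A T N) := by
  refine Finset.measurableSet_biInter _ (fun m hm => MeasurableSet.compl (F_long (fun j _ hj2 => h j ?_)))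
  rw [mem_range] at hm
  omega

theorem noLong_succ (T N : ℕ) : noLong A T (N + 1) = noLong A T N \ (longAt A T N ∩ noLong A T (N - T)) := by
  ext ω
  unfold noLong
  simp only [Set.mem_iInter, Set.mem_diff, Set.mem_inter_iff, mem_range, Set.mem_compl_iff]
  constructor
  · intro h
    exact ⟨fun m hm => h m (by omega), fun h2 => h N (by omega) h2.1⟩
  · rintro ⟨h1, h2⟩ m hm
    rcases Nat.lt_or_ge m N with h3 | h3
    · exact h1 m h3
    · have : m = N := by omega
      subst this
      intro h4
      exact h2 ⟨h4, fun j hj => h1 j (by omega)⟩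

theorem long_sub (T N : ℕ) : longAt A T N ∩ noLong A T (N - T) ⊆ noLong A T N := by
  intro ω hω
  obtain ⟨h1, h2⟩ := hω
  unfold noLong at h2 ⊢
  simp only [Set.mem_iInter, mem_range, Set.mem_compl_iff] at h2 ⊢
  intro m hm h3
  rcases Nat.lt_or_ge m (N - T) with h4 | h4
  · exact h2 m h4 h3
  · exact h3.2 N (mem_Ioc.2 ⟨hm, by omega⟩) h1.1

/-- **The recursion.** -/
theorem noLong_rec (hA : IsModel μ p A) {T N : ℕ} :
    μ.real (noLong A T (N + 1)) = μ.real (noLong A T N) - ee p T N * μ.real (noLong A T (N - T)) := by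
  have hm1 : MeasurableSet (longAt A T N) := F_le hA Set.univ _ (F_long (fun _ _ _ => Set.mem_univ _))
  have hm2 : MeasurableSet (noLong A T (N - T)) := F_le hA Set.univ _ (F_noLong (fun _ _ => Set.mem_univ _))
  rw [noLong_succ, measureReal_diff (long_sub T N) (hm1.inter hm2)]
  congr 1
  rcases Nat.eq_zero_or_pos (N - T) with h | h
  · rw [h]
    have h1 : noLong A T 0 = Set.univ := by
      unfold noLong
      simp
    rw [h1, Set.inter_univ, real_long hA, probReal_univ, mul_one]
  · have hd : Disjoint (Set.Ici N) (Set.Iio N) := by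
      rw [Set.disjoint_left]
      intro a ha hb
      rw [Set.mem_Ici] at ha
      rw [Set.mem_Iio] at hb
      omega
    rw [indep_real hA hd (F_long (fun m hm _ => hm)) (F_noLong (fun m hm => by
      show m < N
      omega)), real_long hA]

theorem noLong_anti {T M N : ℕ} (h : M ≤ N) : μ.real (noLong A T N) ≤ μ.real (noLong A T M) := by
  refine measureReal_mono ?_ (measure_ne_top _ _)
  unfold noLong
  intro ω hω
  simp only [Set.mem_iInter, mem_range] at hω ⊢
  exact fun m hm => hω m (by omega)

/-- The upper bound. -/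
theorem noLong_le (hA : IsModel μ p A) (T N : ℕ) : μ.real (noLong A T N) ≤ Real.exp (-∑ m ∈ range N, ee p T m) := by
  induction N with
  | zero =>
    have h1 : noLong A T 0 = Set.univ := by
      unfold noLong
      simp
    rw [h1, probReal_univ]
    simp
  | succ N ih =>
    rw [noLong_rec hA, sum_range_succ, neg_add, Real.exp_add]
    have h1 := noLong_anti (μ := μ) (A := A) (T := T) (Nat.sub_le N T)
    have h2 := ee_nonneg hA T N
    have h3 : 1 - ee p T N ≤ Real.exp (-ee p T N) := by
      have := Real.add_one_le_exp (-ee p T N)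
      linarith
    have h4 : 0 ≤ μ.real (noLong A T N) := measureReal_nonneg
    calc μ.real (noLong A T N) - ee p T N * μ.real (noLong A T (N - T))
        ≤ μ.real (noLong A T N) * (1 - ee p T N) := by nlinarith
      _ ≤ μ.real (noLong A T N) * Real.exp (-ee p T N) := mul_le_mul_of_nonneg_left h3 h4
      _ ≤ Real.exp (-∑ m ∈ range N, ee p T m) * Real.exp (-ee p T N) :=
        mul_le_mul_of_nonneg_right ih (Real.exp_pos _).le

/-- The lower bound. -/
theorem le_noLong (hA : IsModel μ p A) {T : ℕ} (hT : 1 ≤ T) {s : ℝ} (hs : s ≤ 1 / 8) {N : ℕ}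
    (hsum : ∀ M ≤ N, ∑ m ∈ Ico (M - T) M, ee p T m ≤ s) :
    (∀ M ≤ N, μ.real (noLong A T (M - T)) ≤ (1 + 2 * s) * μ.real (noLong A T M)) ∧
    Real.exp (-((1 + 4 * s) * (1 + 2 * s) * ∑ m ∈ range N, ee p T m)) ≤ μ.real (noLong A T N) := by
  have hs0 : 0 ≤ s := (sum_nonneg (fun m _ => ee_nonneg hA T m)).trans (hsum 0 (Nat.zero_le _))
  obtain ⟨G, hG⟩ : ∃ G : ℕ → ℝ, G = fun N => μ.real (noLong A T N) := ⟨_, rfl⟩
  have hGn : ∀ N, 0 ≤ G N := fun N => by rw [hG]; exact measureReal_nonneg
  have hG0 : G 0 = 1 := by
    have h1 : noLong A T 0 = Set.univ := by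
      unfold noLong
      simp
    rw [hG]
    simp only [h1, probReal_univ]
  have hrec : ∀ N, G (N + 1) = G N - ee p T N * G (N - T) := fun N => by rw [hG]; exact noLong_rec hA
  have hanti : ∀ M N, M ≤ N → G N ≤ G M := fun M N h => by rw [hG]; exact noLong_anti h
  have he := fun m => ee_nonneg hA T m
  have key : ∀ M ≤ N, G (M - T) ≤ (1 + 2 * s) * G M := by
    intro M
    induction M using Nat.strong_induction_on with
    | _ M ih =>
      intro hM
      -- the product bound on the last stretch
      have h1 : ∀ j, j ≤ M → M - T ≤ j → G (M - T) * (1 - (1 + 2 * s) * ∑ m ∈ Ico (M - T) j, ee p T m) ≤ G j := by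
        intro j
        induction j with
        | zero =>
          intro _ h2
          have : M - T = 0 := by omega
          rw [this]
          simp
        | succ j ihj =>
          intro h2 h3
          rcases Nat.lt_or_ge j (M - T) with h4 | h4
          · have h5 : M - T = j + 1 := by omega
            rw [h5]
            simp
          · have h5 := ihj (by omega) h4
            have h6 := ih j (by omega) (by omega)
            rw [sum_Ico_succ_top h4, hrec]
            have h7 : G j ≤ G (M - T) := hanti _ _ h4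
            have h8 : ee p T j * G (j - T) ≤ ee p T j * ((1 + 2 * s) * G j) := mul_le_mul_of_nonneg_left h6 (he j)
            have h9 : ee p T j * ((1 + 2 * s) * G j) ≤ ee p T j * ((1 + 2 * s) * G (M - T)) :=
              mul_le_mul_of_nonneg_left (mul_le_mul_of_nonneg_left h7 (by linarith)) (he j)
            nlinarith
      have h2 := h1 M le_rfl (Nat.sub_le _ _)
      have h3 := hsum M hM
      have h4 : 0 ≤ G (M - T) := hGn _
      have h5 : (1 + 2 * s) * ∑ m ∈ Ico (M - T) M, ee p T m ≤ (1 + 2 * s) * s :=
        mul_le_mul_of_nonneg_left h3 (by linarith)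
      have h6 : G (M - T) * (1 - (1 + 2 * s) * s) ≤ G M := by
        refine le_trans ?_ h2
        exact mul_le_mul_of_nonneg_left (by linarith) h4
      have h7 : 1 ≤ (1 + 2 * s) * (1 - (1 + 2 * s) * s) := by
        have e1 : 0 ≤ s * (1 - 4 * s - 4 * s ^ 2) := mul_nonneg hs0 (by nlinarith)
        have e2 : (1 + 2 * s) * (1 - (1 + 2 * s) * s) = 1 + s * (1 - 4 * s - 4 * s ^ 2) := by ring
        rw [e2]
        linarith
      calc G (M - T) = G (M - T) * 1 := (mul_one _).symm
        _ ≤ G (M - T) * ((1 + 2 * s) * (1 - (1 + 2 * s) * s)) := mul_le_mul_of_nonneg_left h7 h4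
        _ = (1 + 2 * s) * (G (M - T) * (1 - (1 + 2 * s) * s)) := by ring
        _ ≤ (1 + 2 * s) * G M := mul_le_mul_of_nonneg_left h6 (by linarith)
  have hsingle : ∀ m < N, ee p T m ≤ s := by
    intro m hm
    refine le_trans ?_ (hsum (m + 1) (by omega))
    refine single_le_sum (f := fun m => ee p T m) (fun i _ => he i) ?_
    rw [mem_Ico]
    omega
  constructor
  · intro M hM
    have := key M hM
    rw [hG] at this
    exact this
  · have h1 : ∀ M ≤ N, Real.exp (-((1 + 4 * s) * (1 + 2 * s) * ∑ m ∈ range M, ee p T m)) ≤ G M := by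
      intro M
      induction M with
      | zero =>
        intro _
        rw [hG0]
        simp
      | succ M ih =>
        intro hM
        have h2 := ih (by omega)
        have h3 := key M (by omega)
        rw [sum_range_succ, mul_add, neg_add, Real.exp_add, hrec]
        have h4 := he M
        have h5 := hsingle M (by omega)
        obtain ⟨z, hz⟩ : ∃ z, z = (1 + 2 * s) * ee p T M := ⟨_, rfl⟩
        have hz0 : 0 ≤ z := by rw [hz]; positivity
        have hz1 : z ≤ 2 * s := by
          rw [hz]
          nlinarith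
        have h6 : Real.exp (-((1 + 4 * s) * z)) ≤ 1 - z := by
          have h7 : 1 / (1 - z) ≤ Real.exp ((1 + 4 * s) * z) := by
            have h8 : 1 + (1 + 4 * s) * z ≤ Real.exp ((1 + 4 * s) * z) := by
              have := Real.add_one_le_exp ((1 + 4 * s) * z)
              linarith
            refine le_trans ?_ h8
            rw [div_le_iff₀ (by linarith)]
            nlinarith [mul_nonneg hz0 hs0, mul_nonneg hz0 hz0]
          rw [Real.exp_neg]
          have h9 : 0 < 1 - z := by linarith
          rw [inv_le_comm₀ (Real.exp_pos _) h9, ← one_div]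
          exact h7
        have h7 : Real.exp (-((1 + 4 * s) * (1 + 2 * s) * ee p T M)) = Real.exp (-((1 + 4 * s) * z)) := by
          rw [hz]
          ring_nf
        rw [h7]
        have h8 : ee p T M * G (M - T) ≤ z * G M := by
          rw [hz]
          have := mul_le_mul_of_nonneg_left h3 h4
          linarith
        calc Real.exp (-((1 + 4 * s) * (1 + 2 * s) * ∑ m ∈ range M, ee p T m)) * Real.exp (-((1 + 4 * s) * z))
            ≤ G M * (1 - z) := mul_le_mul h2 h6 (Real.exp_pos _).le (hGn M)
          _ ≤ G M - ee p T M * G (M - T) := by linarith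
    have h2 := h1 N le_rfl
    rw [hG] at h2
    exact h2

end Pool.Agent.Q120.GM
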