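import Pool.Agent.Q120.GM.Gum1
import Pool.Agent.Q120.GM.AP

/-!
# The limit law of the maximal gap: estimates
-/

set_option autoImplicit false

namespace Pool.Agent.Q120.GM

open Finset MeasureTheory ProbabilityTheory Filter Pool.Agent.Q120.AD
open scoped Topology

theorem ev_loglog_sq (K : ℝ) {δ : ℝ} (hδ : 0 < δ) : ∀ᶠ L : ℝ in atTop, K * Real.log L ^ 2 ≤ δ * L := by
  have h1 : (fun L : ℝ => Real.log L ^ 2) =o[atTop] id := Real.isLittleO_pow_log_id_atTop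
  have h2 := h1.tendsto_div_nhds_zero.const_mul K
  rw [mul_zero] at h2
  filter_upwards [h2.eventually_le_const hδ, eventually_gt_atTop 0] with L h3 h4
  simp only [id] at h3
  rw [← mul_div_assoc, div_le_iff₀ h4] at h3
  exact h3

theorem ana_u {κ q c₀ δ : ℝ} (hκ : 0 < κ) (hq : 0 ≤ q) (hδ : 0 < δ) : ∀ᶠ L : ℝ in atTop, ∀ a T : ℝ,
    L - 3 * Real.log L ≤ a → a ≤ L → 0 ≤ T → T ≤ L * (L - Real.log L + c₀) →
    (T + q) * (1 / a + κ / (2 * a ^ 2) + κ ^ 2 / a ^ 3) ≤ (L - Real.log L + c₀) + (L - a) + κ / 2 + δ := by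
  obtain ⟨c, hc⟩ : ∃ c, c = |c₀| := ⟨_, rfl⟩
  have hc0 : 0 ≤ c := by rw [hc]; exact abs_nonneg _
  have hc1 : c₀ ≤ c := by rw [hc]; exact le_abs_self _
  have hc2 : -c ≤ c₀ := by rw [hc]; exact neg_abs_le _
  obtain ⟨K, hK⟩ : ∃ K, K = 6 * (4 + c) + 2 * κ * (6 + c) + 8 * κ ^ 2 * (1 + c) + q * (2 + 2 * κ + 8 * κ ^ 2) := ⟨_, rfl⟩
  filter_upwards [ev_loglog_sq K hδ, Real.tendsto_log_atTop.eventually_ge_atTop 1, ev_loglog_sq 6 (zero_lt_one),
    eventually_ge_atTop 1] with L h1 h2 h3 h4 a T ha1 ha2 hT0 hT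
  obtain ⟨l, hl'⟩ : ∃ l, l = Real.log L := ⟨_, rfl⟩
  rw [← hl'] at h1 h2 h3 ha1 hT ⊢
  have hL0 : 0 < L := by linarith
  have h5 : 6 * l ≤ L := by nlinarith
  have ha : L / 2 ≤ a := by linarith
  have ha0 : 0 < a := by linarith
  obtain ⟨t, ht⟩ : ∃ t, t = L * (L - l + c₀) := ⟨_, rfl⟩
  rw [← ht] at hT
  have i1 : 1 / a ≤ 2 / L := by rw [div_le_div_iff₀ ha0 hL0]; linarith
  have i2 : 1 / a ^ 2 ≤ 4 / L ^ 2 := by
    rw [div_le_div_iff₀ (by positivity) (by positivity)]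
    nlinarith
  have i3 : 1 / a ^ 3 ≤ 8 / L ^ 3 := by
    have : (1 / a) ^ 3 ≤ (2 / L) ^ 3 := pow_le_pow_left₀ (by positivity) i1 3
    calc 1 / a ^ 3 = (1 / a) ^ 3 := by field_simp
      _ ≤ (2 / L) ^ 3 := this
      _ = 8 / L ^ 3 := by ring
  have hl2 : 1 ≤ l ^ 2 := one_le_pow₀ h2
  have hll : l ≤ l ^ 2 := by nlinarith
  -- the five parts
  have b1 : t / a = (L - l + c₀) + (L - a) + (L - a) * (L - a - l + c₀) / a := by
    rw [ht]
    field_simp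
    ring
  have b2 : (L - a) * (L - a - l + c₀) / a ≤ 6 * (4 + c) * l ^ 2 / L := by
    have e1 : (L - a) * (L - a - l + c₀) ≤ 3 * (4 + c) * l ^ 2 := by
      have e2 : 0 ≤ L - a := by linarith
      have e3 : L - a ≤ 3 * l := by linarith
      have e4 : L - a - l + c₀ ≤ (4 + c) * l := by nlinarith
      have e5 : 0 ≤ (4 + c) * l := by positivity
      calc (L - a) * (L - a - l + c₀) ≤ (L - a) * ((4 + c) * l) := mul_le_mul_of_nonneg_left e4 e2
        _ ≤ 3 * l * ((4 + c) * l) := mul_le_mul_of_nonneg_right e3 e5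
        _ = 3 * (4 + c) * l ^ 2 := by ring
    calc (L - a) * (L - a - l + c₀) / a ≤ 3 * (4 + c) * l ^ 2 / a := div_le_div_of_nonneg_right e1 ha0.le
      _ = 3 * (4 + c) * l ^ 2 * (1 / a) := by ring
      _ ≤ 3 * (4 + c) * l ^ 2 * (2 / L) := mul_le_mul_of_nonneg_left i1 (by positivity)
      _ = 6 * (4 + c) * l ^ 2 / L := by ring
  have b3 : κ * t / (2 * a ^ 2) ≤ κ / 2 + 2 * κ * (6 + c) * l ^ 2 / L := by
    have e1 : t - a ^ 2 ≤ (6 + c) * l ^ 2 * L := by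
      have e2 : t - a ^ 2 = (L - a) * (L + a) - l * L + c₀ * L := by rw [ht]; ring
      have e3 : (L - a) * (L + a) ≤ 3 * l * (2 * L) := mul_le_mul (by linarith) (by linarith) (by linarith) (by linarith)
      have e4 : c₀ * L ≤ c * l ^ 2 * L := by
        refine mul_le_mul_of_nonneg_right ?_ hL0.le
        nlinarith
      have e5 : l * L ≤ l ^ 2 * L := mul_le_mul_of_nonneg_right hll hL0.le
      have e6 : 0 ≤ l * L := by positivity
      rw [e2]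
      linarith
    have e7 : κ * t / (2 * a ^ 2) = κ / 2 + κ / 2 * (t - a ^ 2) * (1 / a ^ 2) := by
      field_simp
      ring
    rw [e7]
    have e8 : κ / 2 * (t - a ^ 2) * (1 / a ^ 2) ≤ κ / 2 * ((6 + c) * l ^ 2 * L) * (1 / a ^ 2) :=
      mul_le_mul_of_nonneg_right (mul_le_mul_of_nonneg_left e1 (by positivity)) (by positivity)
    have e9 : κ / 2 * ((6 + c) * l ^ 2 * L) * (1 / a ^ 2) ≤ κ / 2 * ((6 + c) * l ^ 2 * L) * (4 / L ^ 2) :=
      mul_le_mul_of_nonneg_left i2 (by positivity)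
    have e10 : κ / 2 * ((6 + c) * l ^ 2 * L) * (4 / L ^ 2) = 2 * κ * (6 + c) * l ^ 2 / L := by
      field_simp
      ring
    linarith
  have b4 : κ ^ 2 * t / a ^ 3 ≤ 8 * κ ^ 2 * (1 + c) * l ^ 2 / L := by
    have e1 : t ≤ (1 + c) * L ^ 2 := by
      rw [ht]
      have e2 : L - l + c₀ ≤ (1 + c) * L := by nlinarith
      calc L * (L - l + c₀) ≤ L * ((1 + c) * L) := mul_le_mul_of_nonneg_left e2 hL0.le
        _ = (1 + c) * L ^ 2 := by ring
    calc κ ^ 2 * t / a ^ 3 = κ ^ 2 * t * (1 / a ^ 3) := by ring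
      _ ≤ κ ^ 2 * ((1 + c) * L ^ 2) * (1 / a ^ 3) :=
        mul_le_mul_of_nonneg_right (mul_le_mul_of_nonneg_left e1 (by positivity)) (by positivity)
      _ ≤ κ ^ 2 * ((1 + c) * L ^ 2) * (8 / L ^ 3) := mul_le_mul_of_nonneg_left i3 (by positivity)
      _ = 8 * κ ^ 2 * (1 + c) * 1 / L := by field_simp
      _ ≤ 8 * κ ^ 2 * (1 + c) * l ^ 2 / L := by
        refine div_le_div_of_nonneg_right (mul_le_mul_of_nonneg_left hl2 (by positivity)) hL0.le
  have b5 : q * (1 / a + κ / (2 * a ^ 2) + κ ^ 2 / a ^ 3) ≤ q * (2 + 2 * κ + 8 * κ ^ 2) * l ^ 2 / L := by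
    have e1 : 1 / L ^ 2 ≤ 1 / L := by
      rw [div_le_div_iff₀ (by positivity) hL0]
      nlinarith
    have e2 : 1 / L ^ 3 ≤ 1 / L := by
      rw [div_le_div_iff₀ (by positivity) hL0]
      have : L ^ 1 ≤ L ^ 3 := pow_le_pow_right₀ h4 (by norm_num)
      linarith
    have e3 : κ / (2 * a ^ 2) ≤ 2 * κ * (1 / L) := by
      calc κ / (2 * a ^ 2) = κ / 2 * (1 / a ^ 2) := by field_simp
        _ ≤ κ / 2 * (4 / L ^ 2) := mul_le_mul_of_nonneg_left i2 (by positivity)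
        _ = 2 * κ * (1 / L ^ 2) := by ring
        _ ≤ 2 * κ * (1 / L) := mul_le_mul_of_nonneg_left e1 (by positivity)
    have e4 : κ ^ 2 / a ^ 3 ≤ 8 * κ ^ 2 * (1 / L) := by
      calc κ ^ 2 / a ^ 3 = κ ^ 2 * (1 / a ^ 3) := by ring
        _ ≤ κ ^ 2 * (8 / L ^ 3) := mul_le_mul_of_nonneg_left i3 (by positivity)
        _ = 8 * κ ^ 2 * (1 / L ^ 3) := by ring
        _ ≤ 8 * κ ^ 2 * (1 / L) := mul_le_mul_of_nonneg_left e2 (by positivity)
    have e5 : 1 / a + κ / (2 * a ^ 2) + κ ^ 2 / a ^ 3 ≤ (2 + 2 * κ + 8 * κ ^ 2) * (1 / L) := by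
      have : (2 : ℝ) / L = 2 * (1 / L) := by ring
      linarith
    calc q * (1 / a + κ / (2 * a ^ 2) + κ ^ 2 / a ^ 3) ≤ q * ((2 + 2 * κ + 8 * κ ^ 2) * (1 / L)) :=
          mul_le_mul_of_nonneg_left e5 hq
      _ = q * (2 + 2 * κ + 8 * κ ^ 2) * 1 / L := by ring
      _ ≤ q * (2 + 2 * κ + 8 * κ ^ 2) * l ^ 2 / L := by
        refine div_le_div_of_nonneg_right (mul_le_mul_of_nonneg_left hl2 (by positivity)) hL0.le
  have hX : 0 ≤ 1 / a + κ / (2 * a ^ 2) + κ ^ 2 / a ^ 3 := by positivity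
  have c1 : (T + q) * (1 / a + κ / (2 * a ^ 2) + κ ^ 2 / a ^ 3) ≤ (t + q) * (1 / a + κ / (2 * a ^ 2) + κ ^ 2 / a ^ 3) :=
    mul_le_mul_of_nonneg_right (by linarith) hX
  have c2 : (t + q) * (1 / a + κ / (2 * a ^ 2) + κ ^ 2 / a ^ 3) =
      t / a + κ * t / (2 * a ^ 2) + κ ^ 2 * t / a ^ 3 + q * (1 / a + κ / (2 * a ^ 2) + κ ^ 2 / a ^ 3) := by
    ring
  have c3 : K * l ^ 2 / L ≤ δ := by
    rw [div_le_iff₀ hL0]
    exact h1
  have c4 : K * l ^ 2 / L = 6 * (4 + c) * l ^ 2 / L + 2 * κ * (6 + c) * l ^ 2 / L + 8 * κ ^ 2 * (1 + c) * l ^ 2 / L +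
      q * (2 + 2 * κ + 8 * κ ^ 2) * l ^ 2 / L := by
    rw [hK]
    ring
  rw [c4] at c3
  linarith

theorem ana_l {κ q c₀ δ : ℝ} (hκ : 0 < κ) (hq : 0 ≤ q) (hδ : 0 < δ) : ∀ᶠ L : ℝ in atTop, ∀ a b T : ℝ,
    L - 3 * Real.log L ≤ a → a ≤ L → a ≤ b → b ≤ a + 1 / L → L * (L - Real.log L + c₀) - 1 ≤ T →
    (L - Real.log L + c₀) + (L - a) + κ / 2 - δ ≤ (T - q) * (1 / b + κ / (2 * b ^ 2)) := by
  obtain ⟨c, hc⟩ : ∃ c, c = |c₀| := ⟨_, rfl⟩
  have hc0 : 0 ≤ c := by rw [hc]; exact abs_nonneg _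
  have hc1 : c₀ ≤ c := by rw [hc]; exact le_abs_self _
  have hc2 : -c ≤ c₀ := by rw [hc]; exact neg_abs_le _
  obtain ⟨K, hK⟩ : ∃ K, K = 1 + 8 * (6 + c) + 2 * κ * (4 + c) + (1 + q) * (2 + 2 * κ) := ⟨_, rfl⟩
  filter_upwards [ev_loglog_sq K hδ, Real.tendsto_log_atTop.eventually_ge_atTop 1, ev_loglog_sq 6 (zero_lt_one),
    eventually_ge_atTop 1, eventually_ge_atTop (4 * (2 + c + q))] with L h1 h2 h3 h4 h6 a b T ha1 ha2 hab hb hT
  obtain ⟨l, hl'⟩ : ∃ l, l = Real.log L := ⟨_, rfl⟩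
  rw [← hl'] at h1 h2 h3 ha1 hT ⊢
  have hL0 : 0 < L := by linarith
  have h5 : 6 * l ≤ L := by nlinarith
  have ha : L / 2 ≤ a := by linarith
  have hb0 : 0 < b := by linarith
  have hb2 : L / 2 ≤ b := by linarith
  have hL1 : 1 / L ≤ 1 := by
    rw [div_le_one hL0]
    exact h4
  have hL1' : 0 < 1 / L := by positivity
  obtain ⟨t, ht⟩ : ∃ t, t = L * (L - l + c₀) := ⟨_, rfl⟩
  rw [← ht] at hT
  have i1 : 1 / b ≤ 2 / L := by rw [div_le_div_iff₀ hb0 hL0]; linarith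
  have i2 : 1 / b ^ 2 ≤ 4 / L ^ 2 := by
    rw [div_le_div_iff₀ (by positivity) (by positivity)]
    nlinarith
  have hl2 : 1 ≤ l ^ 2 := one_le_pow₀ h2
  have hll : l ≤ l ^ 2 := by nlinarith
  have b1 : t / b = (L - l + c₀) + (L - b) + (L - b) * (L - b - l + c₀) / b := by
    rw [ht]
    field_simp
    ring
  have b2 : -(8 * (6 + c) * l ^ 2 / L) ≤ (L - b) * (L - b - l + c₀) / b := by
    have e1 : -(4 * (6 + c) * l ^ 2) ≤ (L - b) * (L - b - l + c₀) := by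
      have e2 : |L - b| ≤ 4 * l := by rw [abs_le]; constructor <;> linarith
      have e3 : |L - b - l + c₀| ≤ (6 + c) * l := by
        rw [abs_le]
        constructor <;> nlinarith
      have e4 : |(L - b) * (L - b - l + c₀)| ≤ 4 * l * ((6 + c) * l) := by
        rw [abs_mul]
        exact mul_le_mul e2 e3 (abs_nonneg _) (by linarith)
      have e5 := neg_abs_le ((L - b) * (L - b - l + c₀))
      have e6 : 4 * l * ((6 + c) * l) = 4 * (6 + c) * l ^ 2 := by ring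
      linarith
    have e7 : 4 * (6 + c) * l ^ 2 / b ≤ 8 * (6 + c) * l ^ 2 / L := by
      calc 4 * (6 + c) * l ^ 2 / b = 4 * (6 + c) * l ^ 2 * (1 / b) := by ring
        _ ≤ 4 * (6 + c) * l ^ 2 * (2 / L) := mul_le_mul_of_nonneg_left i1 (by positivity)
        _ = 8 * (6 + c) * l ^ 2 / L := by ring
    have e8 : -(4 * (6 + c) * l ^ 2) / b ≤ (L - b) * (L - b - l + c₀) / b := div_le_div_of_nonneg_right e1 hb0.le
    have e9 : -(4 * (6 + c) * l ^ 2) / b = -(4 * (6 + c) * l ^ 2 / b) := by ring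
    linarith
  have b3 : κ / 2 - 2 * κ * (4 + c) * l ^ 2 / L ≤ κ * t / (2 * b ^ 2) := by
    have e1 : -((4 + c) * l ^ 2 * L) ≤ t - b ^ 2 := by
      have e2 : b ^ 2 ≤ (L + 1) ^ 2 := pow_le_pow_left₀ hb0.le (by linarith) 2
      have e3 : t - (L + 1) ^ 2 = -(l * L) + c₀ * L - 2 * L - 1 := by rw [ht]; ring
      have e4 : -(c * l ^ 2 * L) ≤ c₀ * L := by
        have : -(c * l ^ 2) ≤ c₀ := by nlinarith
        have := mul_le_mul_of_nonneg_right this hL0.le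
        linarith
      have e5 : l * L ≤ l ^ 2 * L := mul_le_mul_of_nonneg_right hll hL0.le
      have e6 : L ≤ l ^ 2 * L := le_mul_of_one_le_left hL0.le hl2
      nlinarith
    have e7 : κ * t / (2 * b ^ 2) = κ / 2 + κ / 2 * (t - b ^ 2) * (1 / b ^ 2) := by
      field_simp
      ring
    rw [e7]
    have e8 : κ / 2 * (-((4 + c) * l ^ 2 * L)) * (1 / b ^ 2) ≤ κ / 2 * (t - b ^ 2) * (1 / b ^ 2) :=
      mul_le_mul_of_nonneg_right (mul_le_mul_of_nonneg_left e1 (by positivity)) (by positivity)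
    have e9 : κ / 2 * ((4 + c) * l ^ 2 * L) * (1 / b ^ 2) ≤ κ / 2 * ((4 + c) * l ^ 2 * L) * (4 / L ^ 2) :=
      mul_le_mul_of_nonneg_left i2 (by positivity)
    have e10 : κ / 2 * ((4 + c) * l ^ 2 * L) * (4 / L ^ 2) = 2 * κ * (4 + c) * l ^ 2 / L := by
      field_simp
      ring
    linarith
  have b5 : (1 + q) * (1 / b + κ / (2 * b ^ 2)) ≤ (1 + q) * (2 + 2 * κ) * l ^ 2 / L := by
    have e1 : 1 / L ^ 2 ≤ 1 / L := by
      rw [div_le_div_iff₀ (by positivity) hL0]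
      nlinarith
    have e3 : κ / (2 * b ^ 2) ≤ 2 * κ * (1 / L) := by
      calc κ / (2 * b ^ 2) = κ / 2 * (1 / b ^ 2) := by field_simp
        _ ≤ κ / 2 * (4 / L ^ 2) := mul_le_mul_of_nonneg_left i2 (by positivity)
        _ = 2 * κ * (1 / L ^ 2) := by ring
        _ ≤ 2 * κ * (1 / L) := mul_le_mul_of_nonneg_left e1 (by positivity)
    have e5 : 1 / b + κ / (2 * b ^ 2) ≤ (2 + 2 * κ) * (1 / L) := by
      have : (2 : ℝ) / L = 2 * (1 / L) := by ring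
      linarith
    calc (1 + q) * (1 / b + κ / (2 * b ^ 2)) ≤ (1 + q) * ((2 + 2 * κ) * (1 / L)) :=
          mul_le_mul_of_nonneg_left e5 (by linarith)
      _ = (1 + q) * (2 + 2 * κ) * 1 / L := by ring
      _ ≤ (1 + q) * (2 + 2 * κ) * l ^ 2 / L := by
        refine div_le_div_of_nonneg_right (mul_le_mul_of_nonneg_left hl2 (by positivity)) hL0.le
  have hX : 0 ≤ 1 / b + κ / (2 * b ^ 2) := by positivity
  have c1 : (t - 1 - q) * (1 / b + κ / (2 * b ^ 2)) ≤ (T - q) * (1 / b + κ / (2 * b ^ 2)) :=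
    mul_le_mul_of_nonneg_right (by linarith) hX
  have c2 : (t - 1 - q) * (1 / b + κ / (2 * b ^ 2)) =
      t / b + κ * t / (2 * b ^ 2) - (1 + q) * (1 / b + κ / (2 * b ^ 2)) := by
    ring
  have c3 : K * l ^ 2 / L ≤ δ := by
    rw [div_le_iff₀ hL0]
    exact h1
  have c4 : K * l ^ 2 / L = l ^ 2 / L + 8 * (6 + c) * l ^ 2 / L + 2 * κ * (4 + c) * l ^ 2 / L +
      (1 + q) * (2 + 2 * κ) * l ^ 2 / L := by
    rw [hK]
    ring
  have c5 : 1 / L ≤ l ^ 2 / L := div_le_div_of_nonneg_right hl2 hL0.le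
  rw [c4] at c3
  linarith

/-- The number of the candidates in an interval. -/
theorem cop_count {Q : ℕ} (hQ : 1 ≤ Q) (n T : ℕ) :
    ((T : ℝ) - Q) / qq Q ≤ (((Ioc n (n + T)).filter (fun m => m.Coprime Q)).card : ℝ) ∧
      (((Ioc n (n + T)).filter (fun m => m.Coprime Q)).card : ℝ) ≤ ((T : ℝ) + Q) / qq Q := by
  have h1 := count_per hQ (fun m => m.Coprime Q) (fun m => by simp) (n + 1) T
  have h2 : Ico (n + 1) (n + 1 + T) = Ioc n (n + T) := by
    ext m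
    rw [mem_Ico, mem_Ioc]
    omega
  rw [h2] at h1
  have hφ : (0 : ℝ) < Nat.totient Q := by exact_mod_cast Nat.totient_pos.2 hQ
  have hQ0 : (0 : ℝ) < Q := by exact_mod_cast hQ
  have h3 : ((((range Q).filter (fun m => m.Coprime Q)).card : ℝ) / Q) = 1 / qq Q := by
    have h4 : ((range Q).filter (fun m => m.Coprime Q)).card = Nat.totient Q := by
      rw [Nat.totient_eq_card_coprime]
      congr 1
      ext m
      rw [mem_filter, mem_filter, Nat.coprime_comm]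
    rw [h4]
    unfold qq
    field_simp
  rw [h3] at h1
  constructor
  · have := h1.1
    rw [mul_one_div] at this
    exact this
  · have := h1.2
    rw [mul_one_div] at this
    exact this

end Pool.Agent.Q120.GM
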