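import Pool.Agent.Q120.GM.LO2

/-!
# Correlations of a sign along consecutive elements: the law
-/

set_option autoImplicit false

namespace Pool.Agent.Q120.GM

open Finset MeasureTheory ProbabilityTheory Filter Pool.Agent.Q120.AD
open scoped Topology

/-- The indicator of `S`. -/
noncomputable def xx (S : Set ℕ) (m : ℕ) : ℝ := S.indicator (fun _ => (1 : ℝ)) m

/-- The sign of the last element of `S` below `m`; zero if there is none. -/
noncomputable def UU (f : ℕ → ℝ) (S : Set ℕ) : ℕ → ℝ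
  | 0 => 0
  | (m + 1) => UU f S m + xx S m * (f m - UU f S m)

theorem xx_mem {S : Set ℕ} {m : ℕ} (h : m ∈ S) : xx S m = 1 := Set.indicator_of_mem h _
theorem xx_notMem {S : Set ℕ} {m : ℕ} (h : m ∉ S) : xx S m = 0 := Set.indicator_of_notMem h _

theorem xx_cases (S : Set ℕ) (m : ℕ) : xx S m = 0 ∨ xx S m = 1 := by
  by_cases h : m ∈ S
  · exact Or.inr (xx_mem h)
  · exact Or.inl (xx_notMem h)

theorem UU_succ (f : ℕ → ℝ) (S : Set ℕ) (m : ℕ) : UU f S (m + 1) = UU f S m + xx S m * (f m - UU f S m) := rfl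

theorem UU_mem {f : ℕ → ℝ} {S : Set ℕ} {m : ℕ} (h : m ∈ S) : UU f S (m + 1) = f m := by
  rw [UU_succ, xx_mem h]
  ring

theorem UU_notMem {f : ℕ → ℝ} {S : Set ℕ} {m : ℕ} (h : m ∉ S) : UU f S (m + 1) = UU f S m := by
  rw [UU_succ, xx_notMem h]
  ring

theorem UU_local {f : ℕ → ℝ} {S T : Set ℕ} {n : ℕ} (h : ∀ i < n, (i ∈ S ↔ i ∈ T)) : UU f S n = UU f T n := by
  induction n with
  | zero => rfl
  | succ n ih =>
    rw [UU_succ, UU_succ, ih (fun i hi => h i (by omega))]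
    have : xx S n = xx T n := by
      by_cases h1 : n ∈ S
      · rw [xx_mem h1, xx_mem ((h n (by omega)).1 h1)]
      · rw [xx_notMem h1, xx_notMem (fun h2 => h1 ((h n (by omega)).2 h2))]
    rw [this]

theorem UU_cases {f : ℕ → ℝ} (hf : ∀ m, f m = 0 ∨ f m = 1 ∨ f m = -1) (S : Set ℕ) (m : ℕ) :
    UU f S m = 0 ∨ UU f S m = 1 ∨ UU f S m = -1 := by
  induction m with
  | zero => exact Or.inl rfl
  | succ m ih =>
    by_cases h : m ∈ S
    · rw [UU_mem h]
      exact hf m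
    · rw [UU_notMem h]
      exact ih

theorem log_pow_div_rpow (j : ℕ) {ε : ℝ} (hε : 0 < ε) :
    Tendsto (fun N : ℕ => Real.log N ^ j / (N : ℝ) ^ ε) atTop (𝓝 0) := by
  have h1 := (isLittleO_log_rpow_rpow_atTop (j : ℝ) hε).tendsto_div_nhds_zero
  have h2 := h1.comp tendsto_natCast_atTop_atTop (α := ℕ)
  refine h2.congr (fun N => ?_)
  simp only [Function.comp_apply, Real.rpow_natCast]

/-- The weighted means of slowly varying probabilities. -/
theorem ratio_law {w q : ℕ → ℝ} {k K : ℕ} {κ c : ℝ} (hw0 : ∀ m, 0 ≤ w m) (hw1 : ∀ m, w m ≤ 1) (hq0 : ∀ m, 0 ≤ q m)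
    (hq1 : ∀ m, q m ≤ 1) (hκ : 0 < κ) (hc : 0 < c)
    (hW : ∀ᶠ N : ℕ in atTop, c * N / Real.log N ^ K ≤ ∑ m ∈ range N, w m)
    (hq : Tendsto (fun m : ℕ => q m * Real.log m ^ k) atTop (𝓝 κ)) :
    Tendsto (fun N : ℕ => (∑ m ∈ range N, w m * q m) * Real.log N ^ k / ∑ m ∈ range N, w m) atTop (𝓝 κ) := by
  classical
  -- for every `ε`
  have key : ∀ ε : ℝ, 0 < ε → ε < 1 → ∀ᶠ N : ℕ in atTop,
      κ * (1 - ε) * (1 - ε) ≤ (∑ m ∈ range N, w m * q m) * Real.log N ^ k / ∑ m ∈ range N, w m ∧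
      (∑ m ∈ range N, w m * q m) * Real.log N ^ k / ∑ m ∈ range N, w m ≤ κ * (1 + ε) / (1 - ε) ^ k + ε := by
    intro ε hε hε1
    have h1ε : 0 < 1 - ε := by linarith
    obtain ⟨n₁, hn₁⟩ := eventually_atTop.1 ((hq.eventually_le_const (show κ < κ * (1 + ε) by nlinarith)).and
      (hq.eventually_const_le (show κ * (1 - ε) < κ by nlinarith)))
    have hy : Tendsto (fun N : ℕ => (N : ℝ) ^ (1 - ε)) atTop atTop :=
      (tendsto_rpow_atTop h1ε).comp tendsto_natCast_atTop_atTop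
    have hr := log_pow_div_rpow (k + K) hε
    have hr' := hr.eventually_le_const (show 0 < c * ε / 2 by positivity)
    filter_upwards [hW, hy.eventually_ge_atTop ((n₁ : ℝ) + 1), hr', hl.eventually_ge_atTop 1, eventually_ge_atTop 1] with N h1 h2 h3 h4 h5
    have hN0 : (0 : ℝ) < N := by exact_mod_cast h5
    have hlog : 0 < Real.log (N : ℝ) := by linarith
    obtain ⟨W, hWd⟩ : ∃ W, W = ∑ m ∈ range N, w m := ⟨_, rfl⟩
    obtain ⟨y, hyd⟩ : ∃ y, y = (N : ℝ) ^ (1 - ε) := ⟨_, rfl⟩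
    rw [← hWd] at h1 ⊢
    rw [← hyd] at h2
    have hW0 : 0 < W := lt_of_lt_of_le (by positivity) h1
    have hy1 : 1 ≤ y := by
      have : (0 : ℝ) ≤ n₁ := Nat.cast_nonneg _
      linarith
    -- the small part
    have hsmall : ∑ m ∈ (range N).filter (fun m : ℕ => (m : ℝ) < y), w m ≤ 2 * y := by
      refine (sum_le_sum (fun m _ => hw1 m)).trans ?_
      rw [sum_const, nsmul_eq_mul, mul_one]
      have e1 : (range N).filter (fun m : ℕ => (m : ℝ) < y) ⊆ range (⌊y⌋₊ + 1) := by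
        intro m hm
        rw [mem_filter] at hm
        rw [mem_range]
        exact Nat.lt_succ_of_le (Nat.le_floor hm.2.le)
      have e2 := card_le_card e1
      rw [card_range] at e2
      have e3 : (((range N).filter (fun m : ℕ => (m : ℝ) < y)).card : ℝ) ≤ (⌊y⌋₊ : ℝ) + 1 := by exact_mod_cast e2
      have e4 := Nat.floor_le (show 0 ≤ y by linarith)
      linarith
    have hyW : 2 * y * Real.log N ^ k ≤ ε * W := by
      have e1 : y * (N : ℝ) ^ ε = N := by
        rw [hyd, ← Real.rpow_add hN0]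
        norm_num
      have hNε : 0 < (N : ℝ) ^ ε := Real.rpow_pos_of_pos hN0 _
      rw [div_le_iff₀ hNε, pow_add] at h3
      have e2 : c * N / Real.log N ^ K * ε = c * y * (N : ℝ) ^ ε / Real.log N ^ K * ε := by
        rw [mul_assoc c y, e1]
      have e3 : 2 * y * Real.log N ^ k ≤ c * y * (N : ℝ) ^ ε / Real.log N ^ K * ε := by
        rw [div_mul_eq_mul_div, le_div_iff₀ (by positivity)]
        have e4 : 2 * y * (Real.log N ^ k * Real.log N ^ K) ≤ 2 * y * (c * ε / 2 * (N : ℝ) ^ ε) :=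
          mul_le_mul_of_nonneg_left h3 (by linarith)
        calc 2 * y * Real.log N ^ k * Real.log N ^ K = 2 * y * (Real.log N ^ k * Real.log N ^ K) := by ring
          _ ≤ 2 * y * (c * ε / 2 * (N : ℝ) ^ ε) := e4
          _ = c * y * (N : ℝ) ^ ε * ε := by ring
      rw [← e2] at e3
      have e5 : c * N / Real.log N ^ K * ε ≤ W * ε := mul_le_mul_of_nonneg_right h1 hε.le
      linarith
    have hy2 : 2 * y ≤ ε * W := by
      have e1 : (1 : ℝ) ≤ Real.log N ^ k := one_le_pow₀ h4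
      have e2 : 2 * y * 1 ≤ 2 * y * Real.log N ^ k := mul_le_mul_of_nonneg_left e1 (by linarith)
      linarith
    -- the large part
    have hlarge : ∀ m ∈ (range N).filter (fun m : ℕ => ¬ (m : ℝ) < y), κ * (1 - ε) ≤ q m * Real.log N ^ k ∧
        q m * Real.log N ^ k ≤ κ * (1 + ε) / (1 - ε) ^ k := by
      intro m hm
      rw [mem_filter, mem_range, not_lt] at hm
      obtain ⟨g1, g2⟩ := hm
      have g3 : n₁ ≤ m := by
        have : (n₁ : ℝ) ≤ m := by linarith
        exact_mod_cast this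
      obtain ⟨g4, g5⟩ := hn₁ m g3
      have hm0 : (0 : ℝ) < m := by linarith
      have g6 : Real.log (m : ℝ) ≤ Real.log N := Real.log_le_log hm0 (by exact_mod_cast g1.le)
      have g7 : (1 - ε) * Real.log N ≤ Real.log m := by
        rw [← Real.log_rpow hN0, ← hyd]
        exact Real.log_le_log (by linarith) g2
      have g8 : 0 ≤ Real.log (m : ℝ) := Real.log_natCast_nonneg m
      constructor
      · refine g5.trans ?_
        exact mul_le_mul_of_nonneg_left (pow_le_pow_left₀ g8 g6 k) (hq0 m)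
      · rw [le_div_iff₀ (by positivity)]
        calc q m * Real.log N ^ k * (1 - ε) ^ k = q m * ((1 - ε) * Real.log N) ^ k := by rw [mul_pow]; ring
          _ ≤ q m * Real.log m ^ k := mul_le_mul_of_nonneg_left (pow_le_pow_left₀ (by positivity) g7 k) (hq0 m)
          _ ≤ κ * (1 + ε) := g4
    have hsplit : ∀ g : ℕ → ℝ, ∑ m ∈ range N, g m = ∑ m ∈ (range N).filter (fun m : ℕ => (m : ℝ) < y), g m +
        ∑ m ∈ (range N).filter (fun m : ℕ => ¬ (m : ℝ) < y), g m := fun g => (sum_filter_add_sum_filter_not _ _ _).symm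
    obtain ⟨W1, hW1⟩ : ∃ W1, W1 = ∑ m ∈ (range N).filter (fun m : ℕ => (m : ℝ) < y), w m := ⟨_, rfl⟩
    obtain ⟨W2, hW2⟩ : ∃ W2, W2 = ∑ m ∈ (range N).filter (fun m : ℕ => ¬ (m : ℝ) < y), w m := ⟨_, rfl⟩
    have hWW : W = W1 + W2 := by rw [hWd, hW1, hW2]; exact hsplit w
    have hW1n : 0 ≤ W1 := by rw [hW1]; exact sum_nonneg (fun m _ => hw0 m)
    rw [← hW1] at hsmall
    have hS : (∑ m ∈ range N, w m * q m) * Real.log N ^ k =
        ∑ m ∈ (range N).filter (fun m : ℕ => (m : ℝ) < y), w m * q m * Real.log N ^ k +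
        ∑ m ∈ (range N).filter (fun m : ℕ => ¬ (m : ℝ) < y), w m * (q m * Real.log N ^ k) := by
      rw [hsplit, add_mul, sum_mul, sum_mul]
      refine congr_arg₂ _ rfl (sum_congr rfl (fun m _ => by ring))
    have hA1 : 0 ≤ ∑ m ∈ (range N).filter (fun m : ℕ => (m : ℝ) < y), w m * q m * Real.log N ^ k :=
      sum_nonneg (fun m _ => mul_nonneg (mul_nonneg (hw0 m) (hq0 m)) (by positivity))
    have hA2 : ∑ m ∈ (range N).filter (fun m : ℕ => (m : ℝ) < y), w m * q m * Real.log N ^ k ≤ 2 * y * Real.log N ^ k := by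
      rw [← sum_mul]
      refine mul_le_mul_of_nonneg_right ?_ (by positivity)
      have e1 : ∑ m ∈ (range N).filter (fun m : ℕ => (m : ℝ) < y), w m * q m ≤ W1 := by
        rw [hW1]
        exact sum_le_sum (fun m _ => mul_le_of_le_one_right (hw0 m) (hq1 m))
      exact e1.trans hsmall
    have hB1 : κ * (1 - ε) * W2 ≤ ∑ m ∈ (range N).filter (fun m : ℕ => ¬ (m : ℝ) < y), w m * (q m * Real.log N ^ k) := by
      rw [hW2, mul_sum]
      refine sum_le_sum (fun m hm => ?_)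
      rw [mul_comm]
      exact mul_le_mul_of_nonneg_left (hlarge m hm).1 (hw0 m)
    have hB2 : ∑ m ∈ (range N).filter (fun m : ℕ => ¬ (m : ℝ) < y), w m * (q m * Real.log N ^ k) ≤
        κ * (1 + ε) / (1 - ε) ^ k * W2 := by
      rw [hW2, mul_sum]
      refine sum_le_sum (fun m hm => ?_)
      rw [mul_comm (κ * (1 + ε) / (1 - ε) ^ k)]
      exact mul_le_mul_of_nonneg_left (hlarge m hm).2 (hw0 m)
    have hκ2 : 0 < κ * (1 + ε) / (1 - ε) ^ k := by positivity
    constructor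
    · rw [le_div_iff₀ hW0, hS]
      have e1 : (1 - ε) * W ≤ W2 := by linarith
      have e2 : κ * (1 - ε) * ((1 - ε) * W) ≤ κ * (1 - ε) * W2 := mul_le_mul_of_nonneg_left e1 (by positivity)
      linarith
    · rw [div_le_iff₀ hW0, hS]
      have e1 : κ * (1 + ε) / (1 - ε) ^ k * W2 ≤ κ * (1 + ε) / (1 - ε) ^ k * W :=
        mul_le_mul_of_nonneg_left (by linarith) hκ2.le
      linarith
  rw [Metric.tendsto_nhds]
  intro δ hδ
  have h1 : Tendsto (fun ε : ℝ => κ * (1 - ε) * (1 - ε)) (𝓝[>] 0) (𝓝 (κ * (1 - 0) * (1 - 0))) := by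
    refine Tendsto.mono_left ?_ nhdsWithin_le_nhds
    exact (Continuous.tendsto (by fun_prop) 0)
  have h2 : Tendsto (fun ε : ℝ => κ * (1 + ε) / (1 - ε) ^ k + ε) (𝓝[>] 0) (𝓝 (κ * (1 + 0) / (1 - 0) ^ k + 0)) := by
    refine Tendsto.mono_left ?_ nhdsWithin_le_nhds
    refine ContinuousAt.tendsto (f := fun ε : ℝ => κ * (1 + ε) / (1 - ε) ^ k + ε) ?_
    refine ContinuousAt.add (ContinuousAt.div (by fun_prop) (by fun_prop) (by norm_num)) continuousAt_id
  simp only [sub_zero, mul_one, add_zero, one_pow, div_one] at h1 h2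
  have h3 : ∀ᶠ ε : ℝ in 𝓝[>] 0, ε < 1 := by
    have := Iio_mem_nhds (show (0 : ℝ) < 1 by norm_num)
    exact mem_nhdsWithin_of_mem_nhds this
  obtain ⟨ε, g1, g2, g3, g4⟩ := ((h1.eventually_const_lt (show κ - δ < κ by linarith)).and
    ((h2.eventually_lt_const (show κ < κ + δ by linarith)).and (h3.and self_mem_nhdsWithin))).exists
  filter_upwards [key ε g4 g3] with N hN
  rw [Real.dist_eq, abs_lt]
  constructor <;> linarith [hN.1, hN.2]

/-- The probabilities are not too small on average. -/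
theorem mass {t q : ℕ → ℝ} {k R m₀ : ℕ} {κ : ℝ} (ht0 : ∀ m, 0 ≤ t m) (htR : ∀ m, t (m + R) = t m) (hR : 0 < R)
    (ht1 : t m₀ = 1) (hq0 : ∀ m, 0 ≤ q m) (hκ : 0 < κ)
    (hq : Tendsto (fun m : ℕ => q m * Real.log m ^ k) atTop (𝓝 κ)) (j : ℕ) :
    ∀ᶠ N : ℕ in atTop, (κ / 2) ^ j / (4 * R) * N / Real.log N ^ (k * j) ≤ ∑ m ∈ range N, t m * q m ^ j := by
  classical
  obtain ⟨n₁, hn₁⟩ := eventually_atTop.1 (hq.eventually_const_le (show κ / 2 < κ by linarith))
  have hti : ∀ i, t (m₀ + i * R) = 1 := by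
    intro i
    induction i with
    | zero => rw [zero_mul, add_zero, ht1]
    | succ i ih =>
      have : m₀ + (i + 1) * R = m₀ + i * R + R := by ring
      rw [this, htR, ih]
  have hR0 : (0 : ℝ) < R := by exact_mod_cast hR
  filter_upwards [eventually_ge_atTop (2 * m₀), eventually_ge_atTop (4 * R * (n₁ + 1)), hl.eventually_ge_atTop 1] with N h1 h2 h3
  have hlog : 0 < Real.log (N : ℝ) := by linarith
  have hI : ∀ i ∈ Ico n₁ (N / (2 * R)), m₀ + i * R < N ∧ n₁ ≤ m₀ + i * R := by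
    intro i hi
    rw [mem_Ico] at hi
    have e1 : (i + 1) * (2 * R) ≤ N := (Nat.mul_le_mul_right _ hi.2).trans (Nat.div_mul_le_self N (2 * R))
    have e2 : (i + 1) * (2 * R) = 2 * (i * R) + 2 * R := by ring
    have e3 : n₁ * 1 ≤ i * R := Nat.mul_le_mul hi.1 hR
    omega
  have e1 : ∑ i ∈ Ico n₁ (N / (2 * R)), t (m₀ + i * R) * q (m₀ + i * R) ^ j ≤ ∑ m ∈ range N, t m * q m ^ j := by
    have e2 : ∑ i ∈ Ico n₁ (N / (2 * R)), t (m₀ + i * R) * q (m₀ + i * R) ^ j =
        ∑ m ∈ (Ico n₁ (N / (2 * R))).image (fun i => m₀ + i * R), t m * q m ^ j := by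
      rw [sum_image]
      intro a _ b _ hab
      have : a * R = b * R := by simpa using hab
      exact Nat.eq_of_mul_eq_mul_right hR this
    rw [e2]
    refine sum_le_sum_of_subset_of_nonneg ?_ (fun m _ _ => mul_nonneg (ht0 m) (pow_nonneg (hq0 m) j))
    intro m hm
    rw [mem_image] at hm
    obtain ⟨i, hi, rfl⟩ := hm
    exact mem_range.2 (hI i hi).1
  refine le_trans ?_ e1
  have e2 : ∀ i ∈ Ico n₁ (N / (2 * R)), (κ / 2) ^ j / Real.log N ^ (k * j) ≤ t (m₀ + i * R) * q (m₀ + i * R) ^ j := by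
    intro i hi
    obtain ⟨g1, g2⟩ := hI i hi
    rw [hti, one_mul]
    have g3 := hn₁ _ g2
    have g4 : κ / 2 ≤ q (m₀ + i * R) * Real.log N ^ k := by
      refine g3.trans (mul_le_mul_of_nonneg_left ?_ (hq0 _))
      rcases Nat.eq_zero_or_pos (m₀ + i * R) with h | h
      · rw [h, Nat.cast_zero, Real.log_zero]
        exact pow_le_pow_left₀ le_rfl hlog.le k
      · exact pow_le_pow_left₀ (Real.log_natCast_nonneg _) (Real.log_le_log (by exact_mod_cast h) (by exact_mod_cast g1.le)) k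
    rw [div_le_iff₀ (by positivity), pow_mul, ← mul_pow]
    exact pow_le_pow_left₀ (by positivity) g4 j
  refine le_trans ?_ (sum_le_sum e2)
  rw [sum_const, Nat.card_Ico, nsmul_eq_mul]
  have e3 : (N : ℝ) / (4 * R) ≤ ((N / (2 * R) - n₁ : ℕ) : ℝ) := by
    have g1 : N < (N / (2 * R) + 1) * (2 * R) := by
      have := Nat.lt_mul_div_succ N (show 0 < 2 * R by omega)
      rw [mul_comm]
      exact this
    have g2 : n₁ ≤ N / (2 * R) := by
      rw [Nat.le_div_iff_mul_le (by omega)]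
      have : n₁ * (2 * R) ≤ 4 * R * (n₁ + 1) := by nlinarith
      omega
    rw [Nat.cast_sub g2, div_le_iff₀ (by positivity)]
    have g3 : (N : ℝ) ≤ (((N / (2 * R) : ℕ) : ℝ) + 1) * (2 * R) := by exact_mod_cast g1.le
    have g4 : 4 * (R : ℝ) * (n₁ + 1) ≤ N := by exact_mod_cast h2
    nlinarith
  have e4 : (κ / 2) ^ j / (4 * R) * N / Real.log N ^ (k * j) = (N : ℝ) / (4 * R) * ((κ / 2) ^ j / Real.log N ^ (k * j)) := by
    ring
  rw [e4]
  exact mul_le_mul_of_nonneg_right e3 (by positivity)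

end Pool.Agent.Q120.GM
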