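import Pool.Agent.Q120.GM.Gum3
import Pool.Agent.Q120.GM.LO3

/-!
# The limit law of the maximal gap: the limit of the expected number
-/

set_option autoImplicit false

namespace Pool.Agent.Q120.GM

open Finset MeasureTheory ProbabilityTheory Filter Pool.Agent.Q120.AD
open scoped Topology

variable {Q : ℕ}

/-- The centring. -/
noncomputable def cen (Q : ℕ) (u : ℝ) : ℝ := -Real.log 2 - qq Q / 2 + u

/-- The threshold. -/
noncomputable def TT (Q : ℕ) (u : ℝ) (x : ℕ) : ℕ :=
  ⌊Real.log x * (Real.log x - Real.log (Real.log x) + cen Q u)⌋₊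

theorem weight_bounds (hQ : 1 ≤ Q) (N : ℕ) :
    |∑ m ∈ range N, (m : ℝ) * ((if m.Coprime Q then (1 : ℝ) else 0) - 1 / qq Q)| ≤ 2 * N * (Q / qq Q) := by
  classical
  have hq := qq_pos hQ
  obtain ⟨F, hF⟩ : ∃ F : ℕ → ℝ, F = fun n => ∑ m ∈ range n, ((if m.Coprime Q then (1 : ℝ) else 0) - 1 / qq Q) := ⟨_, rfl⟩
  have hFs : ∀ n, F (n + 1) - F n = (if n.Coprime Q then (1 : ℝ) else 0) - 1 / qq Q := by
    intro n
    rw [hF]
    simp only [sum_range_succ]
    ring
  have hFb : ∀ n, |F n| ≤ Q / qq Q := by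
    intro n
    have h1 := count_per hQ (fun m => m.Coprime Q) (fun m => by simp) 0 n
    have hφ : (0 : ℝ) < Nat.totient Q := by exact_mod_cast Nat.totient_pos.2 hQ
    have hQ0 : (0 : ℝ) < Q := by exact_mod_cast hQ
    have h3 : ((((range Q).filter (fun m => m.Coprime Q)).card : ℝ) / Q) = 1 / qq Q := by
      have h4 : ((range Q).filter (fun m => m.Coprime Q)).card = Nat.totient Q := by
        rw [Nat.totient_eq_card_coprime]
        congr 1
        ext m
        rw [mem_filter, mem_filter, Nat.coprime_comm]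
      rw [h4]
      unfold qq
      field_simp
    rw [h3, zero_add, Nat.Ico_zero_eq_range] at h1
    have h5 : F n = (((range n).filter (fun m => m.Coprime Q)).card : ℝ) - n * (1 / qq Q) := by
      rw [hF]
      simp only [sum_sub_distrib, sum_const, card_range, nsmul_eq_mul]
      rw [card_filter]
      push_cast
      rfl
    rw [h5]
    have e1 : (Q : ℝ) / qq Q = Q * (1 / qq Q) := by ring
    rw [e1, abs_le]
    constructor <;> linarith [h1.1, h1.2]
  have h1 : ∑ m ∈ range N, (m : ℝ) * ((if m.Coprime Q then (1 : ℝ) else 0) - 1 / qq Q) =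
      ∑ m ∈ range N, (m : ℝ) * (F (m + 1) - F m) := sum_congr rfl (fun m _ => by rw [hFs])
  rw [h1, abel (fun m => (m : ℝ)) F N]
  have hB : 0 ≤ (Q : ℝ) / qq Q := by positivity
  have e1 : |(N : ℝ) * F N| ≤ N * (Q / qq Q) := by
    rw [abs_mul, abs_of_nonneg (Nat.cast_nonneg N)]
    exact mul_le_mul_of_nonneg_left (hFb N) (Nat.cast_nonneg N)
  have e2 : |∑ m ∈ range N, F (m + 1) * (((m + 1 : ℕ) : ℝ) - (m : ℝ))| ≤ N * (Q / qq Q) := by
    refine (abs_sum_le_sum_abs _ _).trans ?_
    have e3 : ∀ m ∈ range N, |F (m + 1) * (((m + 1 : ℕ) : ℝ) - (m : ℝ))| ≤ Q / qq Q := by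
      intro m _
      have : ((m + 1 : ℕ) : ℝ) - (m : ℝ) = 1 := by push_cast; ring
      rw [this, mul_one]
      exact hFb _
    refine (sum_le_sum e3).trans ?_
    rw [sum_const, card_range, nsmul_eq_mul]
  have a1 := abs_le.1 e1
  have a2 := abs_le.1 e2
  simp only [Nat.cast_zero, zero_mul, sub_zero]
  rw [abs_le]
  constructor <;> linarith [a1.1, a1.2, a2.1, a2.2]

/-- The weighted number of the candidates. -/
noncomputable def VV (Q x : ℕ) : ℝ := ∑ m ∈ range (x + 1), (if m.Coprime Q then (m : ℝ) else 0)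

theorem VV_lim (hQ : 1 ≤ Q) : Tendsto (fun x : ℕ => qq Q * VV Q x / (x : ℝ) ^ 2) atTop (𝓝 (1 / 2)) := by
  classical
  have hq := qq_pos hQ
  have h1 : ∀ x : ℕ, |qq Q * VV Q x - (x : ℝ) * (x + 1) / 2| ≤ 2 * (x + 1) * Q := by
    intro x
    have h2 := weight_bounds hQ (x + 1)
    have h3 : ∑ m ∈ range (x + 1), (m : ℝ) * ((if m.Coprime Q then (1 : ℝ) else 0) - 1 / qq Q) =
        VV Q x - (x : ℝ) * (x + 1) / 2 * (1 / qq Q) := by
      unfold VV
      have h4 : ∑ m ∈ range (x + 1), (m : ℝ) = (x : ℝ) * (x + 1) / 2 := by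
        have := Finset.sum_range_id_mul_two (x + 1)
        have h5 : ((∑ m ∈ range (x + 1), m : ℕ) : ℝ) * 2 = ((x + 1 : ℕ) : ℝ) * x := by
          rw [Nat.add_sub_cancel] at this
          exact_mod_cast this
        push_cast at h5
        linarith
      rw [← h4, sum_mul, ← sum_sub_distrib]
      refine sum_congr rfl (fun m _ => ?_)
      split_ifs <;> ring
    rw [h3] at h2
    have h4 : qq Q * VV Q x - (x : ℝ) * (x + 1) / 2 = qq Q * (VV Q x - (x : ℝ) * (x + 1) / 2 * (1 / qq Q)) := by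
      field_simp
    rw [h4, abs_mul, abs_of_pos hq]
    calc qq Q * |VV Q x - (x : ℝ) * (x + 1) / 2 * (1 / qq Q)| ≤ qq Q * (2 * ((x + 1 : ℕ) : ℝ) * (Q / qq Q)) :=
          mul_le_mul_of_nonneg_left h2 hq.le
      _ = 2 * (x + 1) * Q := by
          push_cast
          field_simp
  have hinv : Tendsto (fun x : ℕ => 1 / (x : ℝ)) atTop (𝓝 0) := tendsto_one_div_atTop_nhds_zero_nat
  have h2 : Tendsto (fun x : ℕ => (qq Q * VV Q x - (x : ℝ) * (x + 1) / 2) / (x : ℝ) ^ 2) atTop (𝓝 0) := by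
    have h3 := hinv.const_mul (4 * (Q : ℝ))
    rw [mul_zero] at h3
    refine squeeze_zero_norm' ?_ h3
    filter_upwards [eventually_ge_atTop 1] with x hx
    have hx0 : (0 : ℝ) < x := by exact_mod_cast hx
    have hx1 : (1 : ℝ) ≤ x := by exact_mod_cast hx
    have hQ0 : (0 : ℝ) ≤ Q := Nat.cast_nonneg _
    rw [Real.norm_eq_abs, abs_div, abs_of_pos (by positivity : 0 < (x : ℝ) ^ 2), div_le_iff₀ (by positivity)]
    refine (h1 x).trans ?_
    have : 4 * (Q : ℝ) * (1 / x) * (x : ℝ) ^ 2 = 4 * Q * x := by field_simp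
    rw [this]
    nlinarith
  have h3 : Tendsto (fun x : ℕ => (x : ℝ) * (x + 1) / 2 / (x : ℝ) ^ 2) atTop (𝓝 (1 / 2)) := by
    have h4 := (hinv.const_add 1).div_const 2
    rw [add_zero] at h4
    refine h4.congr' ?_
    filter_upwards [eventually_ge_atTop 1] with x hx
    have hx0 : (0 : ℝ) < x := by exact_mod_cast hx
    field_simp
  have h4 := h2.add h3
  rw [zero_add] at h4
  refine h4.congr (fun x => ?_)
  ring

/-- The crude bound. -/
theorem crude (hQ : 1 ≤ Q) (u : ℝ) : ∃ C : ℝ, 0 < C ∧ ∀ᶠ x : ℕ in atTop, ∀ m ≤ x,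
    ee (level Q) (TT Q u x) m ≤ C * Real.log x / x := by
  classical
  have hq := qq_pos hQ
  obtain ⟨c, hc⟩ : ∃ c, c = |cen Q u| := ⟨_, rfl⟩
  have hc0 : 0 ≤ c := by rw [hc]; exact abs_nonneg _
  have hc1 : cen Q u ≤ c := by rw [hc]; exact le_abs_self _
  have hc2 : -c ≤ cen Q u := by rw [hc]; exact neg_abs_le _
  obtain ⟨C', hC'⟩ : ∃ C', C' = 2 + c + Q := ⟨_, rfl⟩
  refine ⟨Real.exp (C' - cen Q u), Real.exp_pos _, ?_⟩
  have hlog2 : Real.log 2 ≤ 1 := by have := Real.log_two_lt_d9; linarith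
  have hlog2' : 0 < Real.log 2 := Real.log_pos (by norm_num)
  have hll : ∀ᶠ x : ℕ in atTop, 6 * Real.log (Real.log x) ^ 2 ≤ 1 * Real.log x := hl.eventually (ev_loglog_sq 6 one_pos)
  have hl1 : ∀ᶠ x : ℕ in atTop, 1 ≤ Real.log (Real.log x) := (Real.tendsto_log_atTop.comp hl).eventually_ge_atTop 1
  have hTx : ∀ᶠ x : ℕ in atTop, (1 + c) * Real.log x ^ 2 ≤ (x : ℝ) ^ (1 : ℝ) := ev_power (1 + c) 2 one_pos
  filter_upwards [hll, hl1, hTx, hl.eventually_ge_atTop (4 * (2 + c + Q)), hl.eventually_ge_atTop (qq Q + 1), eventually_ge_atTop 2]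
    with x g1 g2 g3 g4 g5 g6 m hm
  rw [Real.rpow_one] at g3
  obtain ⟨L, hLd⟩ : ∃ L, L = Real.log (x : ℝ) := ⟨_, rfl⟩
  have hT : TT Q u x = ⌊L * (L - Real.log L + cen Q u)⌋₊ := by unfold TT; rw [hLd]
  rw [← hLd] at g1 g2 g3 g4 g5 ⊢
  have hQ0 : (0 : ℝ) ≤ Q := Nat.cast_nonneg _
  have hL0 : 0 < L := by linarith
  have hL1 : 1 ≤ L := by linarith
  have hx0 : (0 : ℝ) < x := by exact_mod_cast (by omega : 0 < x)
  obtain ⟨l, hl'⟩ : ∃ l, l = Real.log L := ⟨_, rfl⟩
  rw [← hl'] at g1 g2 hT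
  have h6 : 6 * l ≤ L := by nlinarith
  have hXL : Real.exp (-(L - l + cen Q u)) = L / x * Real.exp (-cen Q u) := by
    have e1 : Real.exp (-(L - l + cen Q u)) = Real.exp (-L) * Real.exp l * Real.exp (-cen Q u) := by
      rw [← Real.exp_add, ← Real.exp_add]
      congr 1
      ring
    rw [e1, Real.exp_neg, hLd, Real.exp_log hx0, hl', ← hLd, Real.exp_log hL0]
    field_simp
  obtain ⟨t, ht⟩ : ∃ t, t = L * (L - l + cen Q u) := ⟨_, rfl⟩
  rw [← ht] at hT
  have ht0 : 0 ≤ t := by
    rw [ht]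
    refine mul_nonneg hL0.le ?_
    linarith
  have hT1 : ((TT Q u x : ℕ) : ℝ) ≤ t := by rw [hT]; exact Nat.floor_le ht0
  have hT2 : t - 1 ≤ ((TT Q u x : ℕ) : ℝ) := by rw [hT]; linarith [Nat.lt_floor_add_one t]
  have ht1 : t ≤ (1 + c) * L ^ 2 := by
    rw [ht]
    have e2 : L - l + cen Q u ≤ (1 + c) * L := by nlinarith
    calc L * (L - l + cen Q u) ≤ L * ((1 + c) * L) := mul_le_mul_of_nonneg_left e2 hL0.le
      _ = (1 + c) * L ^ 2 := by ring
  obtain ⟨T, hTd⟩ : ∃ T, T = TT Q u x := ⟨_, rfl⟩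
  rw [← hTd] at hT1 hT2 ⊢
  have htriv : 0 ≤ Real.exp (C' - cen Q u) * L / x := by positivity
  rcases Nat.lt_or_ge m 2 with hm2 | hm2
  · have h7 : level Q m = 0 := by
      unfold level
      interval_cases m <;> simp
    unfold ee
    rw [h7, zero_mul]
    exact htriv
  · unfold ee
    have h7 : ∏ j ∈ Ioc m (m + T), (1 - level Q j) ≤ Real.exp (-((T - Q) / (L + Real.log 2))) := by
      have h8 : ∀ j ∈ (Ioc m (m + T)).filter (fun j => j.Coprime Q), qq Q / (L + Real.log 2) ≤ level Q j := by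
        intro j hj
        rw [mem_filter, mem_Ioc] at hj
        unfold level
        rw [if_pos hj.2]
        have hj0 : (0 : ℝ) < j := by exact_mod_cast (by omega : 0 < j)
        have e1 : Real.log j ≤ L + Real.log 2 := by
          rw [hLd, ← Real.log_mul hx0.ne' two_ne_zero]
          refine Real.log_le_log hj0 ?_
          have e2 : (j : ℝ) ≤ m + T := by exact_mod_cast hj.1.2
          have e3 : (m : ℝ) ≤ x := by exact_mod_cast hm
          linarith
        have e2 : 0 < Real.log (j : ℝ) := Real.log_pos (by exact_mod_cast (by omega : 1 < j))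
        refine le_min ?_ (div_le_div_of_nonneg_left hq.le e2 e1)
        rw [div_le_one (by linarith)]
        linarith
      have h9 : ∏ j ∈ Ioc m (m + T), (1 - level Q j) ≤ ∏ j ∈ (Ioc m (m + T)).filter (fun j => j.Coprime Q), (1 - level Q j) := by
        rw [prod_filter]
        refine prod_le_prod (fun j _ => by linarith [level_le_one Q j]) (fun j _ => ?_)
        split_ifs
        · exact le_rfl
        · linarith [level_nonneg Q j]
      refine h9.trans ?_
      have h10 : ∏ j ∈ (Ioc m (m + T)).filter (fun j => j.Coprime Q), (1 - level Q j) ≤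
          ∏ j ∈ (Ioc m (m + T)).filter (fun j => j.Coprime Q), Real.exp (-(qq Q / (L + Real.log 2))) := by
        refine prod_le_prod (fun j _ => by linarith [level_le_one Q j]) (fun j hj => ?_)
        have e1 := h8 j hj
        have e2 := Real.add_one_le_exp (-(qq Q / (L + Real.log 2)))
        linarith
      refine h10.trans ?_
      rw [prod_const, ← Real.exp_nat_mul]
      apply Real.exp_le_exp.2
      have e1 := (cop_count hQ m T).1
      have e2 : 0 ≤ qq Q / (L + Real.log 2) := by positivity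
      have e3 := mul_le_mul_of_nonneg_right e1 e2
      have e4 : ((T : ℝ) - Q) / qq Q * (qq Q / (L + Real.log 2)) = (T - Q) / (L + Real.log 2) := by field_simp
      rw [e4] at e3
      linarith
    have h8 : L - l + cen Q u - C' ≤ (T - Q) / (L + Real.log 2) := by
      rw [le_div_iff₀ (by linarith)]
      have e1 : (L - l + cen Q u) * L - 1 ≤ T := by rw [ht] at hT2; linarith
      have e2 : (L - l + cen Q u - C') * (L + Real.log 2) = (L - l + cen Q u) * L + (L - l + cen Q u) * Real.log 2 -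
          C' * (L + Real.log 2) := by ring
      rw [e2]
      have e3 : L - l + cen Q u ≤ (1 + c) * L := by nlinarith
      have e5 : 0 ≤ L - l + cen Q u := by linarith
      have e4 : (L - l + cen Q u) * Real.log 2 ≤ (1 + c) * L * 1 := mul_le_mul e3 hlog2 hlog2'.le (by positivity)
      have e6 : C' * L ≤ C' * (L + Real.log 2) := mul_le_mul_of_nonneg_left (by linarith) (by rw [hC']; linarith)
      have e7 : C' * L = 2 * L + c * L + Q * L := by rw [hC']; ring
      have e8 : (Q : ℝ) * 1 ≤ Q * L := mul_le_mul_of_nonneg_left hL1 hQ0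
      linarith
    have h9 : Real.exp (-((T - Q) / (L + Real.log 2))) ≤ Real.exp (C' - cen Q u) * L / x := by
      calc Real.exp (-((T - Q) / (L + Real.log 2))) ≤ Real.exp (-(L - l + cen Q u) + C') := by
            apply Real.exp_le_exp.2
            linarith
        _ = Real.exp (-(L - l + cen Q u)) * Real.exp C' := Real.exp_add _ _
        _ = Real.exp (C' - cen Q u) * L / x := by
            rw [hXL, sub_eq_add_neg, Real.exp_add]
            ring
    have h10 : 0 ≤ ∏ j ∈ Ioc m (m + T), (1 - level Q j) := prod_nonneg (fun j _ => by linarith [level_le_one Q j])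
    calc level Q m * ∏ j ∈ Ioc m (m + T), (1 - level Q j) ≤ 1 * ∏ j ∈ Ioc m (m + T), (1 - level Q j) :=
          mul_le_mul_of_nonneg_right (level_le_one Q m) h10
      _ ≤ Real.exp (C' - cen Q u) * L / x := by rw [one_mul]; exact h7.trans h9

end Pool.Agent.Q120.GM
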