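import Pool.Agent.Q120.GM.Gum4

/-!
# The limit law of the maximal gap
-/

set_option autoImplicit false

namespace Pool.Agent.Q120.GM

open Finset MeasureTheory ProbabilityTheory Filter Pool.Agent.Q120.AD
open scoped Topology

variable {Q : ℕ}

/-- The main region. -/
theorem main_region (hQ : 1 ≤ Q) (u : ℝ) {δ : ℝ} (hδ : 0 < δ) : ∀ᶠ x : ℕ in atTop, ∀ m : ℕ, m ≤ x →
    (x : ℝ) / Real.log x ^ 3 ≤ m →
    2 * Real.exp (-u) * Real.exp (-δ) * (qq Q * (if m.Coprime Q then (m : ℝ) else 0) / (x : ℝ) ^ 2) ≤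
      ee (level Q) (TT Q u x) m ∧
    ee (level Q) (TT Q u x) m ≤
      2 * Real.exp (-u) * Real.exp δ * (1 + δ) * (qq Q * (if m.Coprime Q then (m : ℝ) else 0) / (x : ℝ) ^ 2) := by
  have hq := qq_pos hQ
  obtain ⟨c, hc⟩ : ∃ c, c = |cen Q u| := ⟨_, rfl⟩
  have hc0 : 0 ≤ c := by rw [hc]; exact abs_nonneg _
  have hc1 : cen Q u ≤ c := by rw [hc]; exact le_abs_self _
  have hc2 : -c ≤ cen Q u := by rw [hc]; exact neg_abs_le _
  have hQ0 : (0 : ℝ) ≤ Q := Nat.cast_nonneg _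
  have hA := hl.eventually (ana_u (c₀ := cen Q u) hq hQ0 hδ)
  have hB := hl.eventually (ana_l (c₀ := cen Q u) hq hQ0 hδ)
  have hll : ∀ᶠ x : ℕ in atTop, 6 * Real.log (Real.log x) ^ 2 ≤ 1 * Real.log x := hl.eventually (ev_loglog_sq 6 one_pos)
  have hl1 : ∀ᶠ x : ℕ in atTop, 1 ≤ Real.log (Real.log x) := (Real.tendsto_log_atTop.comp hl).eventually_ge_atTop 1
  have hld : ∀ᶠ x : ℕ in atTop, 3 * (1 + δ) * Real.log (Real.log x) ^ 2 ≤ δ * Real.log x :=
    hl.eventually (ev_loglog_sq (3 * (1 + δ)) hδ)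
  have hTx : ∀ᶠ x : ℕ in atTop, (1 + c) * Real.log x ^ 6 ≤ (x : ℝ) ^ (1 : ℝ) := ev_power (1 + c) 6 one_pos
  have hx3 : ∀ᶠ x : ℕ in atTop, 2 * Real.log x ^ 3 ≤ (x : ℝ) ^ (1 : ℝ) := ev_power 2 3 one_pos
  filter_upwards [hA, hB, hll, hl1, hld, hTx, hx3, hl.eventually_ge_atTop (4 * (2 + c + Q)),
    hl.eventually_ge_atTop (6 * qq Q + 1), eventually_ge_atTop 2] with x g1 g2 g3 g4 g5 g6 g7 g8 g9 g10 m hm hmy
  rw [Real.rpow_one] at g6 g7
  obtain ⟨L, hLd⟩ : ∃ L, L = Real.log (x : ℝ) := ⟨_, rfl⟩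
  have hT : TT Q u x = ⌊L * (L - Real.log L + cen Q u)⌋₊ := by unfold TT; rw [hLd]
  rw [← hLd] at g1 g2 g3 g4 g5 g6 g7 g8 g9 hmy
  have hL0 : 0 < L := by linarith
  have hL1 : 1 ≤ L := by linarith
  have hx0 : (0 : ℝ) < x := by exact_mod_cast (by omega : 0 < x)
  obtain ⟨l, hl'⟩ : ∃ l, l = Real.log L := ⟨_, rfl⟩
  rw [← hl'] at g1 g2 g3 g4 g5 hT
  have h6 : 6 * l ≤ L := by nlinarith
  obtain ⟨t, ht⟩ : ∃ t, t = L * (L - l + cen Q u) := ⟨_, rfl⟩
  rw [← ht] at hT g1 g2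
  have ht0 : 0 ≤ t := by
    rw [ht]
    refine mul_nonneg hL0.le ?_
    linarith
  have hT1 : ((TT Q u x : ℕ) : ℝ) ≤ t := by rw [hT]; exact Nat.floor_le ht0
  have hT2 : t - 1 ≤ ((TT Q u x : ℕ) : ℝ) := by rw [hT]; linarith [Nat.lt_floor_add_one t]
  have ht1 : t ≤ (1 + c) * L ^ 2 := by
    rw [ht]
    have e2 : L - l + cen Q u ≤ (1 + c) * L := by nlinarith
    calc L * (L - l + cen Q u) ≤ L * ((1 + c) * L) := mul_le_mul_of_nonneg_left e2 hL0.le
      _ = (1 + c) * L ^ 2 := by ring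
  obtain ⟨T, hTd⟩ : ∃ T, T = TT Q u x := ⟨_, rfl⟩
  rw [← hTd] at hT1 hT2 ⊢
  have hy0 : 0 < (x : ℝ) / L ^ 3 := by positivity
  have hm0 : (0 : ℝ) < m := hy0.trans_le hmy
  have hm2 : 2 ≤ m := by
    have e1 : (2 : ℝ) ≤ x / L ^ 3 := by
      rw [le_div_iff₀ (by positivity)]
      exact g7
    exact_mod_cast e1.trans hmy
  obtain ⟨a, ha⟩ : ∃ a, a = Real.log (m : ℝ) := ⟨_, rfl⟩
  have haL : a ≤ L := by rw [ha, hLd]; exact Real.log_le_log hm0 (by exact_mod_cast hm)
  have haL2 : L - 3 * l ≤ a := by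
    have e1 : Real.log ((x : ℝ) / L ^ 3) ≤ a := by rw [ha]; exact Real.log_le_log hy0 hmy
    rw [Real.log_div hx0.ne' (by positivity), Real.log_pow, ← hLd, ← hl'] at e1
    push_cast at e1
    exact e1
  have ha0 : 0 < a := by linarith
  have hb : Real.log ((m + T : ℕ) : ℝ) ≤ a + 1 / L := by
    have e1 : Real.log ((m + T : ℕ) : ℝ) - a ≤ T / m := by
      rw [ha, ← Real.log_div (by positivity) hm0.ne']
      refine (Real.log_le_sub_one_of_pos (by positivity)).trans ?_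
      push_cast
      rw [add_div, div_self hm0.ne']
      linarith
    have e2 : (T : ℝ) / m ≤ 1 / L := by
      rw [div_le_div_iff₀ hm0 hL0]
      have e3 : (T : ℝ) * L ≤ (1 + c) * L ^ 3 := by
        calc (T : ℝ) * L ≤ (1 + c) * L ^ 2 * L := mul_le_mul_of_nonneg_right (hT1.trans ht1) hL0.le
          _ = (1 + c) * L ^ 3 := by ring
      have e4 : (1 + c) * L ^ 3 ≤ x / L ^ 3 := by
        rw [le_div_iff₀ (by positivity)]
        calc (1 + c) * L ^ 3 * L ^ 3 = (1 + c) * L ^ 6 := by ring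
          _ ≤ (x : ℝ) := g6
      linarith
    linarith
  have hbnd := prod_bounds hQ (n := m) (T := T) (a := a) (b := a + 1 / L) hm2 ha hb (by linarith)
  have hTQ : (Q : ℝ) ≤ T := by
    have e1 : L * 1 ≤ t := by
      rw [ht]
      refine mul_le_mul_of_nonneg_left ?_ hL0.le
      linarith
    linarith
  obtain ⟨p1, p2⟩ := hbnd
  have p3 := p2 hTQ
  have q1 := g1 a T haL2 haL (Nat.cast_nonneg _) hT1
  have q2 := g2 a (a + 1 / L) T haL2 haL (by linarith [show 0 < 1 / L by positivity]) le_rfl hT2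
  -- the main term
  have hmain : ∀ d : ℝ, Real.exp (-((L - l + cen Q u) + (L - a) + qq Q / 2 + d)) = 2 * Real.exp (-u) * Real.exp (-d) * (L * m / (x : ℝ) ^ 2) := by
    intro d
    have e1 : -((L - l + cen Q u) + (L - a) + qq Q / 2 + d) = -L + l + (-L) + a + Real.log 2 + (-u) + (-d) := by
      unfold cen
      ring
    rw [e1, Real.exp_add, Real.exp_add, Real.exp_add, Real.exp_add, Real.exp_add, Real.exp_add, Real.exp_log (by norm_num),
      Real.exp_neg L, hl', Real.exp_log hL0, ha, Real.exp_log hm0]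
    have e2 : Real.exp L = x := by rw [hLd]; exact Real.exp_log hx0
    rw [e2]
    field_simp
  unfold ee
  by_cases hcop : m.Coprime Q
  · rw [if_pos hcop]
    have hlev : level Q m = qq Q / a := by
      unfold level
      rw [if_pos hcop, ← ha]
      have : (Q : ℝ) / Nat.totient Q = qq Q := rfl
      rw [this, min_eq_right]
      rw [div_le_one ha0]
      linarith
    rw [hlev]
    constructor
    · have e1 : Real.exp (-((L - l + cen Q u) + (L - a) + qq Q / 2 + δ)) ≤ ∏ j ∈ Ioc m (m + T), (1 - level Q j) :=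
        le_trans (Real.exp_le_exp.2 (by linarith)) p1
      rw [hmain] at e1
      have e2 : 2 * Real.exp (-u) * Real.exp (-δ) * (qq Q * m / (x : ℝ) ^ 2) ≤
          qq Q / a * (2 * Real.exp (-u) * Real.exp (-δ) * (L * m / (x : ℝ) ^ 2)) := by
        have e3 : qq Q / a * (2 * Real.exp (-u) * Real.exp (-δ) * (L * m / (x : ℝ) ^ 2)) =
            2 * Real.exp (-u) * Real.exp (-δ) * (qq Q * m / (x : ℝ) ^ 2) * (L / a) := by
          field_simp
        rw [e3]
        refine le_mul_of_one_le_right (by positivity) ?_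
        rw [le_div_iff₀ ha0]
        linarith
      exact e2.trans (mul_le_mul_of_nonneg_left e1 (by positivity))
    · have e1 : ∏ j ∈ Ioc m (m + T), (1 - level Q j) ≤ Real.exp (-((L - l + cen Q u) + (L - a) + qq Q / 2 + (-δ))) :=
        p3.trans (Real.exp_le_exp.2 (by linarith))
      rw [hmain, neg_neg] at e1
      refine (mul_le_mul_of_nonneg_left e1 (by positivity)).trans ?_
      have e3 : qq Q / a * (2 * Real.exp (-u) * Real.exp δ * (L * m / (x : ℝ) ^ 2)) =
          2 * Real.exp (-u) * Real.exp δ * (L / a) * (qq Q * m / (x : ℝ) ^ 2) := by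
        field_simp
      rw [e3]
      refine mul_le_mul_of_nonneg_right (mul_le_mul_of_nonneg_left ?_ (by positivity)) (by positivity)
      rw [div_le_iff₀ ha0]
      have e4 : 3 * (1 + δ) * l ≤ δ * L := by
        have : l ≤ l ^ 2 := by nlinarith
        have h7 : 3 * (1 + δ) * l ≤ 3 * (1 + δ) * l ^ 2 := mul_le_mul_of_nonneg_left this (by positivity)
        linarith
      have e5 : (1 + δ) * (L - 3 * l) ≤ (1 + δ) * a := mul_le_mul_of_nonneg_left haL2 (by positivity)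
      linarith
  · rw [if_neg hcop]
    have hlev : level Q m = 0 := by
      unfold level
      rw [if_neg hcop]
    rw [hlev]
    simp

/-- The limit of the expected number. -/
theorem ssum_lim (hQ : 1 ≤ Q) (u : ℝ) :
    Tendsto (fun x : ℕ => ∑ m ∈ range (x + 1), ee (level Q) (TT Q u x) m) atTop (𝓝 (Real.exp (-u))) := by
  classical
  have hq := qq_pos hQ
  obtain ⟨C, hC, hcr⟩ := crude hQ u
  obtain ⟨lam, hlam⟩ : ∃ lam, lam = Real.exp (-u) := ⟨_, rfl⟩
  have hlam0 : 0 < lam := by rw [hlam]; exact Real.exp_pos _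
  have hen : ∀ x m, 0 ≤ ee (level Q) (TT Q u x) m := fun x m => by
    unfold ee
    exact mul_nonneg (level_nonneg Q m) (prod_nonneg (fun j _ => by linarith [level_le_one Q j]))
  have hinvl : Tendsto (fun x : ℕ => 1 / Real.log (x : ℝ)) atTop (𝓝 0) := tendsto_const_nhds.div_atTop hl
  have hlx : Tendsto (fun x : ℕ => Real.log (x : ℝ) / (x : ℝ) ^ (1 : ℝ)) atTop (𝓝 0) := by
    have := log_pow_div_rpow 1 (show (0 : ℝ) < 1 by norm_num)
    simpa using this
  -- the error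
  have key : ∀ δ : ℝ, 0 < δ → ∀ᶠ x : ℕ in atTop,
      2 * lam * Real.exp (-δ) * (qq Q * VV Q x / (x : ℝ) ^ 2 - qq Q * (2 / Real.log x)) ≤
        ∑ m ∈ range (x + 1), ee (level Q) (TT Q u x) m ∧
      ∑ m ∈ range (x + 1), ee (level Q) (TT Q u x) m ≤
        2 * lam * Real.exp δ * (1 + δ) * (qq Q * VV Q x / (x : ℝ) ^ 2) + 2 * C * (1 / Real.log x) := by
    intro δ hδ
    have hx3 : ∀ᶠ x : ℕ in atTop, 1 * Real.log x ^ 3 ≤ (x : ℝ) ^ (1 : ℝ) := ev_power 1 3 one_pos
    filter_upwards [main_region hQ u hδ, hcr, hx3, hl.eventually_ge_atTop 1, eventually_ge_atTop 2] with x g1 g2 g3 g4 g5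
    rw [Real.rpow_one, one_mul] at g3
    rw [← hlam] at g1
    have hx0 : (0 : ℝ) < x := by exact_mod_cast (by omega : 0 < x)
    obtain ⟨L, hLd⟩ : ∃ L, L = Real.log (x : ℝ) := ⟨_, rfl⟩
    rw [← hLd] at g1 g2 g3 g4 ⊢
    have hL0 : 0 < L := by linarith
    obtain ⟨y, hy⟩ : ∃ y, y = (x : ℝ) / L ^ 3 := ⟨_, rfl⟩
    rw [← hy] at g1
    have hy1 : 1 ≤ y := by rw [hy, le_div_iff₀ (by positivity)]; linarith
    -- the small indices
    have hcard : (((range (x + 1)).filter (fun m : ℕ => (m : ℝ) < y)).card : ℝ) ≤ 2 * y := by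
      have e1 : (range (x + 1)).filter (fun m : ℕ => (m : ℝ) < y) ⊆ range (⌊y⌋₊ + 1) := by
        intro m hm
        rw [mem_filter] at hm
        rw [mem_range]
        exact Nat.lt_succ_of_le (Nat.le_floor hm.2.le)
      have e2 := card_le_card e1
      rw [card_range] at e2
      have e3 : (((range (x + 1)).filter (fun m : ℕ => (m : ℝ) < y)).card : ℝ) ≤ (⌊y⌋₊ : ℝ) + 1 := by exact_mod_cast e2
      have e4 := Nat.floor_le (show 0 ≤ y by linarith)
      linarith
    have hsplit : ∀ g : ℕ → ℝ, ∑ m ∈ range (x + 1), g m = ∑ m ∈ (range (x + 1)).filter (fun m : ℕ => (m : ℝ) < y), g m +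
        ∑ m ∈ (range (x + 1)).filter (fun m : ℕ => ¬ (m : ℝ) < y), g m := fun g => (sum_filter_add_sum_filter_not _ _ _).symm
    have hsmall : ∑ m ∈ (range (x + 1)).filter (fun m : ℕ => (m : ℝ) < y), ee (level Q) (TT Q u x) m ≤ 2 * C * (1 / L) := by
      have e1 : ∀ m ∈ (range (x + 1)).filter (fun m : ℕ => (m : ℝ) < y), ee (level Q) (TT Q u x) m ≤ C * L / x := by
        intro m hm
        rw [mem_filter, mem_range] at hm
        exact g2 m (by omega)
      refine (sum_le_sum e1).trans ?_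
      rw [sum_const, nsmul_eq_mul]
      calc (((range (x + 1)).filter (fun m : ℕ => (m : ℝ) < y)).card : ℝ) * (C * L / x) ≤ 2 * y * (C * L / x) :=
            mul_le_mul_of_nonneg_right hcard (by positivity)
        _ = 2 * C * (1 / L ^ 2) := by rw [hy]; field_simp
        _ ≤ 2 * C * (1 / L) := by
            refine mul_le_mul_of_nonneg_left ?_ (by positivity)
            rw [div_le_div_iff₀ (by positivity) hL0]
            nlinarith
    have hsmall0 : 0 ≤ ∑ m ∈ (range (x + 1)).filter (fun m : ℕ => (m : ℝ) < y), ee (level Q) (TT Q u x) m :=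
      sum_nonneg (fun m _ => hen x m)
    obtain ⟨w, hw⟩ : ∃ w : ℕ → ℝ, w = fun m => if m.Coprime Q then (m : ℝ) else 0 := ⟨_, rfl⟩
    have hw0 : ∀ m, 0 ≤ w m := by
      intro m
      rw [hw]
      simp only
      split_ifs
      · exact Nat.cast_nonneg _
      · exact le_rfl
    have hVV : VV Q x = ∑ m ∈ range (x + 1), w m := by rw [hw]; rfl
    have hW1 : ∑ m ∈ (range (x + 1)).filter (fun m : ℕ => (m : ℝ) < y), w m ≤ 2 * y * y := by
      have e1 : ∀ m ∈ (range (x + 1)).filter (fun m : ℕ => (m : ℝ) < y), w m ≤ y := by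
        intro m hm
        rw [mem_filter] at hm
        rw [hw]
        simp only
        split_ifs
        · exact hm.2.le
        · linarith
      refine (sum_le_sum e1).trans ?_
      rw [sum_const, nsmul_eq_mul]
      exact mul_le_mul_of_nonneg_right hcard (by linarith)
    have hW10 : 0 ≤ ∑ m ∈ (range (x + 1)).filter (fun m : ℕ => (m : ℝ) < y), w m := sum_nonneg (fun m _ => hw0 m)
    have hVs := hsplit w
    rw [← hVV] at hVs
    have hbig : ∀ m ∈ (range (x + 1)).filter (fun m : ℕ => ¬ (m : ℝ) < y),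
        2 * lam * Real.exp (-δ) * (qq Q * w m / (x : ℝ) ^ 2) ≤ ee (level Q) (TT Q u x) m ∧
        ee (level Q) (TT Q u x) m ≤ 2 * lam * Real.exp δ * (1 + δ) * (qq Q * w m / (x : ℝ) ^ 2) := by
      intro m hm
      rw [mem_filter, mem_range, not_lt] at hm
      have := g1 m (by omega) hm.2
      rw [hw]
      exact this
    have hlow := sum_le_sum (fun m hm => (hbig m hm).1)
    have hupp := sum_le_sum (fun m hm => (hbig m hm).2)
    rw [← mul_sum] at hlow hupp
    have hsum2 : ∑ m ∈ (range (x + 1)).filter (fun m : ℕ => ¬ (m : ℝ) < y), qq Q * w m / (x : ℝ) ^ 2 =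
        qq Q * (∑ m ∈ (range (x + 1)).filter (fun m : ℕ => ¬ (m : ℝ) < y), w m) / (x : ℝ) ^ 2 := by
      rw [mul_sum, sum_div]
    rw [hsum2] at hlow hupp
    have hS := hsplit (fun m => ee (level Q) (TT Q u x) m)
    rw [hS]
    have hx2 : (0 : ℝ) < (x : ℝ) ^ 2 := by positivity
    constructor
    · have e1 : qq Q * VV Q x / (x : ℝ) ^ 2 - qq Q * (2 / L) ≤
          qq Q * (∑ m ∈ (range (x + 1)).filter (fun m : ℕ => ¬ (m : ℝ) < y), w m) / (x : ℝ) ^ 2 := by
        have e2 : 2 * y * y / (x : ℝ) ^ 2 ≤ 2 / L := by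
          have e3 : 2 * y * y / (x : ℝ) ^ 2 = 2 / L ^ 6 := by rw [hy]; field_simp
          rw [e3]
          refine div_le_div_of_nonneg_left (by norm_num) hL0 ?_
          calc L = L ^ 1 := (pow_one L).symm
            _ ≤ L ^ 6 := pow_le_pow_right₀ g4 (by norm_num)
        have e4 : VV Q x - 2 * y * y ≤ ∑ m ∈ (range (x + 1)).filter (fun m : ℕ => ¬ (m : ℝ) < y), w m := by linarith
        have e5 : qq Q * (VV Q x - 2 * y * y) / (x : ℝ) ^ 2 ≤
            qq Q * (∑ m ∈ (range (x + 1)).filter (fun m : ℕ => ¬ (m : ℝ) < y), w m) / (x : ℝ) ^ 2 :=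
          div_le_div_of_nonneg_right (mul_le_mul_of_nonneg_left e4 hq.le) hx2.le
        have e6 : qq Q * (VV Q x - 2 * y * y) / (x : ℝ) ^ 2 = qq Q * VV Q x / (x : ℝ) ^ 2 - qq Q * (2 * y * y / (x : ℝ) ^ 2) := by
          ring
        have e7 : qq Q * (2 * y * y / (x : ℝ) ^ 2) ≤ qq Q * (2 / L) := mul_le_mul_of_nonneg_left e2 hq.le
        linarith
      have e2 := mul_le_mul_of_nonneg_left e1 (show 0 ≤ 2 * lam * Real.exp (-δ) by positivity)
      linarith
    · have e1 : qq Q * (∑ m ∈ (range (x + 1)).filter (fun m : ℕ => ¬ (m : ℝ) < y), w m) / (x : ℝ) ^ 2 ≤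
          qq Q * VV Q x / (x : ℝ) ^ 2 :=
        div_le_div_of_nonneg_right (mul_le_mul_of_nonneg_left (by linarith) hq.le) hx2.le
      have e2 := mul_le_mul_of_nonneg_left e1 (show 0 ≤ 2 * lam * Real.exp δ * (1 + δ) by positivity)
      linarith
  rw [← hlam, Metric.tendsto_nhds]
  intro ε hε
  -- choose `δ`
  have h1 : Tendsto (fun δ : ℝ => 2 * lam * Real.exp (-δ) * (1 / 2)) (𝓝[>] 0) (𝓝 (2 * lam * Real.exp (-0) * (1 / 2))) := by
    refine Tendsto.mono_left ?_ nhdsWithin_le_nhds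
    exact (Continuous.tendsto (by fun_prop) 0)
  have h2 : Tendsto (fun δ : ℝ => 2 * lam * Real.exp δ * (1 + δ) * (1 / 2)) (𝓝[>] 0) (𝓝 (2 * lam * Real.exp 0 * (1 + 0) * (1 / 2))) := by
    refine Tendsto.mono_left ?_ nhdsWithin_le_nhds
    exact (Continuous.tendsto (by fun_prop) 0)
  have e1 : 2 * lam * Real.exp (-0) * (1 / 2) = lam := by rw [neg_zero, Real.exp_zero]; ring
  have e2 : 2 * lam * Real.exp 0 * (1 + 0) * (1 / 2) = lam := by rw [Real.exp_zero]; ring
  rw [e1] at h1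
  rw [e2] at h2
  obtain ⟨δ, g1, g2, g3⟩ := ((h1.eventually_const_lt (show lam - ε < lam by linarith)).and
    ((h2.eventually_lt_const (show lam < lam + ε by linarith)).and self_mem_nhdsWithin)).exists
  have hlow : Tendsto (fun x : ℕ => 2 * lam * Real.exp (-δ) * (qq Q * VV Q x / (x : ℝ) ^ 2 - qq Q * (2 / Real.log x))) atTop
      (𝓝 (2 * lam * Real.exp (-δ) * (1 / 2 - qq Q * 0))) := by
    refine Tendsto.const_mul _ ((VV_lim hQ).sub (Tendsto.const_mul _ ?_))
    exact tendsto_const_nhds.div_atTop hl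
  have hupp : Tendsto (fun x : ℕ => 2 * lam * Real.exp δ * (1 + δ) * (qq Q * VV Q x / (x : ℝ) ^ 2) + 2 * C * (1 / Real.log x)) atTop
      (𝓝 (2 * lam * Real.exp δ * (1 + δ) * (1 / 2) + 2 * C * 0)) :=
    ((VV_lim hQ).const_mul _).add (hinvl.const_mul _)
  rw [mul_zero, sub_zero] at hlow
  rw [mul_zero, add_zero] at hupp
  filter_upwards [key δ g3, hlow.eventually_const_lt g1, hupp.eventually_lt_const g2] with x k1 k2 k3
  rw [Real.dist_eq, abs_lt]
  constructor <;> linarith [k1.1, k1.2]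

variable {Ω : Type*} [MeasurableSpace Ω] {μ : Measure Ω} [IsProbabilityMeasure μ] {A : Ω → Set ℕ}

/-- The local sums are small. -/
theorem local_small (hQ : 1 ≤ Q) (u : ℝ) {s : ℝ} (hs : 0 < s) : ∀ᶠ x : ℕ in atTop, ∀ M ≤ x + 1,
    ∑ m ∈ Ico (M - TT Q u x) M, ee (level Q) (TT Q u x) m ≤ s := by
  obtain ⟨C, hC, hcr⟩ := crude hQ u
  obtain ⟨c, hc⟩ : ∃ c, c = |cen Q u| := ⟨_, rfl⟩
  have hc0 : 0 ≤ c := by rw [hc]; exact abs_nonneg _
  have hc1 : cen Q u ≤ c := by rw [hc]; exact le_abs_self _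
  have hTx : ∀ᶠ x : ℕ in atTop, ((1 + c) * C / s) * Real.log x ^ 3 ≤ (x : ℝ) ^ (1 : ℝ) := ev_power _ 3 one_pos
  have hl1 : ∀ᶠ x : ℕ in atTop, 0 ≤ Real.log (Real.log x) := (Real.tendsto_log_atTop.comp hl).eventually_ge_atTop 0
  filter_upwards [hcr, hTx, hl1, hl.eventually_ge_atTop 1, eventually_ge_atTop 2] with x g1 g2 g3 g4 g5 M hM
  rw [Real.rpow_one] at g2
  have hx0 : (0 : ℝ) < x := by exact_mod_cast (by omega : 0 < x)
  obtain ⟨L, hLd⟩ : ∃ L, L = Real.log (x : ℝ) := ⟨_, rfl⟩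
  have hT : TT Q u x = ⌊L * (L - Real.log L + cen Q u)⌋₊ := by unfold TT; rw [hLd]
  rw [← hLd] at g1 g2 g3 g4
  have hL0 : 0 < L := by linarith
  have hT1 : ((TT Q u x : ℕ) : ℝ) ≤ (1 + c) * L ^ 2 := by
    rw [hT]
    rcases le_total 0 (L * (L - Real.log L + cen Q u)) with h | h
    · refine (Nat.floor_le h).trans ?_
      have e2 : L - Real.log L + cen Q u ≤ (1 + c) * L := by nlinarith
      calc L * (L - Real.log L + cen Q u) ≤ L * ((1 + c) * L) := mul_le_mul_of_nonneg_left e2 hL0.le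
        _ = (1 + c) * L ^ 2 := by ring
    · rw [Nat.floor_of_nonpos h]
      simp only [Nat.cast_zero]
      positivity
  have h1 : ∀ m ∈ Ico (M - TT Q u x) M, ee (level Q) (TT Q u x) m ≤ C * L / x := by
    intro m hm
    rw [mem_Ico] at hm
    exact g1 m (by omega)
  refine (sum_le_sum h1).trans ?_
  rw [sum_const, Nat.card_Ico, nsmul_eq_mul]
  have h2 : ((M - (M - TT Q u x) : ℕ) : ℝ) ≤ (TT Q u x : ℕ) := by
    exact_mod_cast (by omega : M - (M - TT Q u x) ≤ TT Q u x)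
  calc ((M - (M - TT Q u x) : ℕ) : ℝ) * (C * L / x) ≤ (1 + c) * L ^ 2 * (C * L / x) :=
        mul_le_mul_of_nonneg_right (h2.trans hT1) (by positivity)
    _ = ((1 + c) * C / s * L ^ 3) / x * s := by field_simp
    _ ≤ 1 * s := by
        refine mul_le_mul_of_nonneg_right ?_ hs.le
        rw [div_le_one hx0]
        exact g2
    _ = s := one_mul s

/-- **The Gumbel law.** -/
theorem gumbel (hA : IsModel μ (level Q) A) (hQ : 1 ≤ Q) (u : ℝ) :
    Tendsto (fun x : ℕ => μ.real (noLong A (TT Q u x) (x + 1))) atTop (𝓝 (Real.exp (-Real.exp (-u)))) := by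
  have h1 := ssum_lim hQ u
  have hTbig : ∀ᶠ x : ℕ in atTop, 1 ≤ TT Q u x := by
    have hll : ∀ᶠ x : ℕ in atTop, 2 * Real.log (Real.log x) ^ 2 ≤ 1 * Real.log x := hl.eventually (ev_loglog_sq 2 one_pos)
    have hl1 : ∀ᶠ x : ℕ in atTop, 1 ≤ Real.log (Real.log x) := (Real.tendsto_log_atTop.comp hl).eventually_ge_atTop 1
    filter_upwards [hll, hl1, hl.eventually_ge_atTop (2 * (|cen Q u| + 1))] with x g1 g2 g3
    unfold TT
    rw [Nat.one_le_floor_iff]
    have e1 := neg_abs_le (cen Q u)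
    have e2 : 0 ≤ |cen Q u| := abs_nonneg _
    have e3 : 2 * Real.log (Real.log x) ≤ Real.log x := by nlinarith
    have e4 : 1 ≤ Real.log (x : ℝ) := by linarith
    have e5 : 1 ≤ Real.log (x : ℝ) - Real.log (Real.log x) + cen Q u := by linarith
    calc (1 : ℝ) = 1 * 1 := (mul_one 1).symm
      _ ≤ Real.log x * (Real.log x - Real.log (Real.log x) + cen Q u) := mul_le_mul e4 e5 zero_le_one (by linarith)
  have hup : Tendsto (fun x : ℕ => Real.exp (-∑ m ∈ range (x + 1), ee (level Q) (TT Q u x) m)) atTop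
      (𝓝 (Real.exp (-Real.exp (-u)))) := (Real.continuous_exp.tendsto _).comp h1.neg
  rw [tendsto_order]
  constructor
  · intro c hc
    -- choose `s`
    have h2 : Tendsto (fun s : ℝ => Real.exp (-((1 + 4 * s) * (1 + 2 * s) * Real.exp (-u)))) (𝓝[>] 0)
        (𝓝 (Real.exp (-((1 + 4 * 0) * (1 + 2 * 0) * Real.exp (-u))))) := by
      refine Tendsto.mono_left ?_ nhdsWithin_le_nhds
      exact (Continuous.tendsto (by fun_prop) 0)
    have e1 : Real.exp (-((1 + 4 * 0) * (1 + 2 * 0) * Real.exp (-u))) = Real.exp (-Real.exp (-u)) := by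
      congr 1
      ring
    rw [e1] at h2
    have h3 : ∀ᶠ s : ℝ in 𝓝[>] 0, s < 1 / 8 := mem_nhdsWithin_of_mem_nhds (Iio_mem_nhds (by norm_num))
    obtain ⟨s, g1, g2, g3⟩ := ((h2.eventually_const_lt hc).and (h3.and self_mem_nhdsWithin)).exists
    have h4 : Tendsto (fun x : ℕ => Real.exp (-((1 + 4 * s) * (1 + 2 * s) * ∑ m ∈ range (x + 1), ee (level Q) (TT Q u x) m)))
        atTop (𝓝 (Real.exp (-((1 + 4 * s) * (1 + 2 * s) * Real.exp (-u))))) :=
      (Real.continuous_exp.tendsto _).comp (h1.const_mul _).neg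
    filter_upwards [h4.eventually_const_lt g1, local_small hQ u g3, hTbig] with x k1 k2 k3
    exact k1.trans_le (le_noLong hA k3 g2.le k2).2
  · intro c hc
    filter_upwards [hup.eventually_lt_const hc] with x hx
    exact (noLong_le hA _ _).trans_lt hx

end Pool.Agent.Q120.GM
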