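import Mathlib

/-!
# Correlations of a sign along consecutive elements: deterministic part
-/

set_option autoImplicit false

namespace Pool.Agent.Q120.GM

open Finset Filter
open scoped Topology

/-- Summation by parts. -/
theorem abel (a F : ℕ → ℝ) (N : ℕ) : ∑ m ∈ range N, a m * (F (m + 1) - F m) =
    a N * F N - a 0 * F 0 - ∑ m ∈ range N, F (m + 1) * (a (m + 1) - a m) := by
  induction N with
  | zero => simp
  | succ N ih =>
    rw [sum_range_succ, sum_range_succ, ih]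
    ring

/-- The sum of a bounded function with `g (n + R) = - g n` is bounded. -/
theorem anti_sum {g : ℕ → ℝ} {R : ℕ} {b : ℝ} (hR : 0 < R) (hg : ∀ n, g (n + R) = -g n) (hb : ∀ n, |g n| ≤ b) :
    (∀ n, (∑ k ∈ range (n + R), g k - (∑ k ∈ range R, g k) / 2) = -(∑ k ∈ range n, g k - (∑ k ∈ range R, g k) / 2)) ∧
    ∀ n, |∑ k ∈ range n, g k - (∑ k ∈ range R, g k) / 2| ≤ 2 * R * b := by
  have h1 : ∀ n, (∑ k ∈ range (n + R), g k - (∑ k ∈ range R, g k) / 2) =
      -(∑ k ∈ range n, g k - (∑ k ∈ range R, g k) / 2) := by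
    intro n
    rw [add_comm n R, sum_range_add]
    have h2 : ∑ k ∈ range n, g (R + k) = -∑ k ∈ range n, g k := by
      rw [← sum_neg_distrib]
      refine sum_congr rfl (fun k _ => ?_)
      rw [add_comm R k, hg]
    rw [h2]
    ring
  refine ⟨h1, ?_⟩
  have hb0 : 0 ≤ b := (abs_nonneg _).trans (hb 0)
  have h2 : ∀ n, n ≤ R → |∑ k ∈ range n, g k| ≤ R * b := by
    intro n hn
    refine (abs_sum_le_sum_abs _ _).trans ?_
    refine (sum_le_sum (fun k _ => hb k)).trans ?_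
    rw [sum_const, card_range, nsmul_eq_mul]
    exact mul_le_mul_of_nonneg_right (by exact_mod_cast hn) hb0
  have hR0 : (0 : ℝ) < R := by exact_mod_cast hR
  have h3 : ∀ n, n ≤ R → |∑ k ∈ range n, g k - (∑ k ∈ range R, g k) / 2| ≤ 2 * R * b := by
    intro n hn
    have e1 := h2 n hn
    have e2 := h2 R le_rfl
    rw [abs_le] at e1 e2 ⊢
    have e3 : 0 ≤ (R : ℝ) * b := by positivity
    constructor <;> linarith [e1.1, e1.2, e2.1, e2.2]
  intro n
  induction n using Nat.strong_induction_on with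
  | _ n ih =>
    rcases Nat.lt_or_ge n R with h | h
    · exact h3 n h.le
    · obtain ⟨m, rfl⟩ : ∃ m, n = m + R := ⟨n - R, by omega⟩
      rw [h1, abs_neg]
      exact ih m (by omega)

section Identity

variable {f q U x F G : ℕ → ℝ}

/-- **The main identity.** The correlation of the sign along consecutive elements is minus half of the sum of the
squares of the probabilities. -/
theorem corr_identity {B B' V : ℝ} (hf : ∀ m, f m ^ 3 = f m) (hx : ∀ m, x m = 0 ∨ x m = 1)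
    (hU : ∀ m, U (m + 1) = U m + x m * (f m - U m)) (hU1 : ∀ m, |U m| ≤ 1) (hf1 : ∀ m, |f m| ≤ 1)
    (hF : ∀ m, F (m + 1) - F m = f m) (hFB : ∀ m, |F m| ≤ B)
    (hG : ∀ m, G (m + 1) - G m = f m ^ 2 * F (m + 1)) (hGB : ∀ m, |G m| ≤ B')
    (hq0 : ∀ m, 0 ≤ q m) (hq1 : ∀ m, q m ≤ 1) (hV : ∀ N, ∑ m ∈ range N, |q (m + 1) - q m| ≤ V) (N : ℕ) :
    |(∑ m ∈ range N, x m * (f m * U m)) + 1 / 2 * ∑ m ∈ range N, f m ^ 2 * q m ^ 2| ≤
      |∑ m ∈ range N, f m * U m * (x m - f m ^ 2 * q m)| +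
      |∑ m ∈ range N, F (m + 1) * q m * (f m - U m) * (x m - f m ^ 2 * q m)| +
      2 * B' * (|∑ m ∈ range N, q m ^ 2 * (x m - f m ^ 2 * q m)| + ∑ m ∈ range N, f m ^ 2 * q m ^ 3) +
      (2 * B + B * V + B ^ 2 + B ^ 2 * V + 2 * B' + 2 * B' * V) := by
  have hB : 0 ≤ B := (abs_nonneg _).trans (hFB 0)
  have hB' : 0 ≤ B' := (abs_nonneg _).trans (hGB 0)
  have hV0 : 0 ≤ V := (sum_nonneg (fun m _ => abs_nonneg _)).trans (hV 0)
  -- step (a)
  have e1 : ∑ m ∈ range N, x m * (f m * U m) = ∑ m ∈ range N, f m * U m * (x m - f m ^ 2 * q m) +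
      ∑ m ∈ range N, q m * U m * (F (m + 1) - F m) := by
    rw [← sum_add_distrib]
    refine sum_congr rfl (fun m _ => ?_)
    rw [hF]
    linear_combination (q m * U m) * hf m
  -- step (b)
  have e2 := abel (fun m => q m * U m) F N
  have e3 : ∑ m ∈ range N, F (m + 1) * (q (m + 1) * U (m + 1) - q m * U m) =
      ∑ m ∈ range N, F (m + 1) * (q (m + 1) - q m) * U (m + 1) +
      (∑ m ∈ range N, F (m + 1) * q m * (f m - U m) * (x m - f m ^ 2 * q m) +
      (∑ m ∈ range N, q m ^ 2 * (F (m + 1) * f m) - ∑ m ∈ range N, q m ^ 2 * U m * (G (m + 1) - G m))) := by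
    rw [← sum_sub_distrib, ← sum_add_distrib, ← sum_add_distrib]
    refine sum_congr rfl (fun m _ => ?_)
    rw [hG]
    linear_combination (F (m + 1) * q m) * hU m + (F (m + 1) * q m ^ 2) * hf m
  have e4 : ∑ m ∈ range N, q m ^ 2 * (F (m + 1) * f m) =
      1 / 2 * ∑ m ∈ range N, q m ^ 2 * (F (m + 1) ^ 2 - F m ^ 2) + 1 / 2 * ∑ m ∈ range N, f m ^ 2 * q m ^ 2 := by
    rw [mul_sum, mul_sum, ← sum_add_distrib]
    refine sum_congr rfl (fun m _ => ?_)
    rw [← hF]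
    ring
  have e5 := abel (fun m => q m ^ 2) (fun m => F m ^ 2) N
  have e6 := abel (fun m => q m ^ 2 * U m) G N
  -- bounds
  have dq : ∀ m, |q (m + 1) ^ 2 - q m ^ 2| ≤ 2 * |q (m + 1) - q m| := by
    intro m
    have : q (m + 1) ^ 2 - q m ^ 2 = (q (m + 1) + q m) * (q (m + 1) - q m) := by ring
    rw [this, abs_mul]
    refine mul_le_mul_of_nonneg_right ?_ (abs_nonneg _)
    rw [abs_of_nonneg (add_nonneg (hq0 _) (hq0 _))]
    linarith [hq1 (m + 1), hq1 m]
  have b1 : ∀ m, |q m * U m * F m| ≤ B := by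
    intro m
    rw [abs_mul, abs_mul, abs_of_nonneg (hq0 m)]
    calc q m * |U m| * |F m| ≤ 1 * 1 * B :=
          mul_le_mul (mul_le_mul (hq1 m) (hU1 m) (abs_nonneg _) zero_le_one) (hFB m) (abs_nonneg _) (by norm_num)
      _ = B := by ring
  have b2 : |∑ m ∈ range N, F (m + 1) * (q (m + 1) - q m) * U (m + 1)| ≤ B * V := by
    refine (abs_sum_le_sum_abs _ _).trans ?_
    calc ∑ m ∈ range N, |F (m + 1) * (q (m + 1) - q m) * U (m + 1)|
        ≤ ∑ m ∈ range N, B * |q (m + 1) - q m| := by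
          refine sum_le_sum (fun m _ => ?_)
          rw [abs_mul, abs_mul]
          calc |F (m + 1)| * |q (m + 1) - q m| * |U (m + 1)| ≤ B * |q (m + 1) - q m| * 1 :=
                mul_le_mul (mul_le_mul_of_nonneg_right (hFB _) (abs_nonneg _)) (hU1 _) (abs_nonneg _)
                  (mul_nonneg hB (abs_nonneg _))
            _ = B * |q (m + 1) - q m| := by ring
      _ ≤ B * V := by
          rw [← mul_sum]
          exact mul_le_mul_of_nonneg_left (hV N) hB
  have b3 : ∀ m, |q m ^ 2 * F m ^ 2| ≤ B ^ 2 := by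
    intro m
    rw [abs_mul, abs_of_nonneg (sq_nonneg (q m)), abs_of_nonneg (sq_nonneg (F m)), ← sq_abs (F m)]
    calc q m ^ 2 * |F m| ^ 2 ≤ 1 * B ^ 2 :=
          mul_le_mul (pow_le_one₀ (hq0 m) (hq1 m)) (pow_le_pow_left₀ (abs_nonneg _) (hFB m) 2) (by positivity) zero_le_one
      _ = B ^ 2 := by ring
  have b4 : |∑ m ∈ range N, F (m + 1) ^ 2 * (q (m + 1) ^ 2 - q m ^ 2)| ≤ 2 * B ^ 2 * V := by
    refine (abs_sum_le_sum_abs _ _).trans ?_
    calc ∑ m ∈ range N, |F (m + 1) ^ 2 * (q (m + 1) ^ 2 - q m ^ 2)|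
        ≤ ∑ m ∈ range N, 2 * B ^ 2 * |q (m + 1) - q m| := by
          refine sum_le_sum (fun m _ => ?_)
          rw [abs_mul, abs_of_nonneg (sq_nonneg _), ← sq_abs (F (m + 1))]
          calc |F (m + 1)| ^ 2 * |q (m + 1) ^ 2 - q m ^ 2| ≤ B ^ 2 * (2 * |q (m + 1) - q m|) :=
                mul_le_mul (pow_le_pow_left₀ (abs_nonneg _) (hFB _) 2) (dq m) (abs_nonneg _) (by positivity)
            _ = 2 * B ^ 2 * |q (m + 1) - q m| := by ring
      _ ≤ 2 * B ^ 2 * V := by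
          rw [← mul_sum]
          exact mul_le_mul_of_nonneg_left (hV N) (by positivity)
  have b5 : ∀ m, |q m ^ 2 * U m * G m| ≤ B' := by
    intro m
    rw [abs_mul, abs_mul, abs_of_nonneg (sq_nonneg (q m))]
    calc q m ^ 2 * |U m| * |G m| ≤ 1 * 1 * B' :=
          mul_le_mul (mul_le_mul (pow_le_one₀ (hq0 m) (hq1 m)) (hU1 m) (abs_nonneg _) zero_le_one) (hGB m)
            (abs_nonneg _) (by norm_num)
      _ = B' := by ring
  have b6 : |∑ m ∈ range N, G (m + 1) * (q (m + 1) ^ 2 * U (m + 1) - q m ^ 2 * U m)| ≤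
      2 * B' * V + 2 * B' * (|∑ m ∈ range N, q m ^ 2 * (x m - f m ^ 2 * q m)| + ∑ m ∈ range N, f m ^ 2 * q m ^ 3) := by
    refine (abs_sum_le_sum_abs _ _).trans ?_
    calc ∑ m ∈ range N, |G (m + 1) * (q (m + 1) ^ 2 * U (m + 1) - q m ^ 2 * U m)|
        ≤ ∑ m ∈ range N, (2 * B' * |q (m + 1) - q m| + 2 * B' * (q m ^ 2 * x m)) := by
          refine sum_le_sum (fun m _ => ?_)
          have hxm : 0 ≤ x m := by rcases hx m with h | h <;> rw [h]; exact zero_le_one
          have h1 : q (m + 1) ^ 2 * U (m + 1) - q m ^ 2 * U m =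
              (q (m + 1) ^ 2 - q m ^ 2) * U (m + 1) + q m ^ 2 * x m * (f m - U m) := by
            linear_combination (q m ^ 2) * hU m
          have h2 : |q (m + 1) ^ 2 * U (m + 1) - q m ^ 2 * U m| ≤ 2 * |q (m + 1) - q m| + 2 * (q m ^ 2 * x m) := by
            rw [h1]
            refine (abs_add_le _ _).trans (add_le_add ?_ ?_)
            · rw [abs_mul]
              calc |q (m + 1) ^ 2 - q m ^ 2| * |U (m + 1)| ≤ 2 * |q (m + 1) - q m| * 1 :=
                    mul_le_mul (dq m) (hU1 _) (abs_nonneg _) (by positivity)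
                _ = 2 * |q (m + 1) - q m| := by ring
            · rw [abs_mul, abs_of_nonneg (by positivity : 0 ≤ q m ^ 2 * x m)]
              have h3 : |f m - U m| ≤ 2 := by
                refine (abs_sub _ _).trans ?_
                linarith [hf1 m, hU1 m]
              calc q m ^ 2 * x m * |f m - U m| ≤ q m ^ 2 * x m * 2 := mul_le_mul_of_nonneg_left h3 (by positivity)
                _ = 2 * (q m ^ 2 * x m) := by ring
          rw [abs_mul]
          calc |G (m + 1)| * |q (m + 1) ^ 2 * U (m + 1) - q m ^ 2 * U m|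
              ≤ B' * (2 * |q (m + 1) - q m| + 2 * (q m ^ 2 * x m)) :=
                mul_le_mul (hGB _) h2 (abs_nonneg _) hB'
            _ = 2 * B' * |q (m + 1) - q m| + 2 * B' * (q m ^ 2 * x m) := by ring
      _ = 2 * B' * ∑ m ∈ range N, |q (m + 1) - q m| + 2 * B' * ∑ m ∈ range N, q m ^ 2 * x m := by
          rw [sum_add_distrib, mul_sum, mul_sum]
      _ ≤ _ := by
          refine add_le_add (mul_le_mul_of_nonneg_left (hV N) (by positivity)) ?_
          refine mul_le_mul_of_nonneg_left ?_ (by positivity)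
          have h3 : ∑ m ∈ range N, q m ^ 2 * x m = ∑ m ∈ range N, q m ^ 2 * (x m - f m ^ 2 * q m) +
              ∑ m ∈ range N, f m ^ 2 * q m ^ 3 := by
            rw [← sum_add_distrib]
            exact sum_congr rfl (fun m _ => by ring)
          rw [h3]
          exact add_le_add (le_abs_self _) le_rfl
  have b1N := b1 N
  have b10 := b1 0
  have b3N := b3 N
  have b30 := b3 0
  have b5N := b5 N
  have b50 := b5 0
  obtain ⟨D, hD⟩ : ∃ D, D = ∑ m ∈ range N, x m * (f m * U m) := ⟨_, rfl⟩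
  obtain ⟨s2, hs2⟩ : ∃ s, s = ∑ m ∈ range N, f m ^ 2 * q m ^ 2 := ⟨_, rfl⟩
  obtain ⟨M1, hM1⟩ : ∃ s, s = ∑ m ∈ range N, f m * U m * (x m - f m ^ 2 * q m) := ⟨_, rfl⟩
  obtain ⟨M2, hM2⟩ : ∃ s, s = ∑ m ∈ range N, F (m + 1) * q m * (f m - U m) * (x m - f m ^ 2 * q m) := ⟨_, rfl⟩
  obtain ⟨M3, hM3⟩ : ∃ s, s = |∑ m ∈ range N, q m ^ 2 * (x m - f m ^ 2 * q m)| + ∑ m ∈ range N, f m ^ 2 * q m ^ 3 := ⟨_, rfl⟩
  obtain ⟨T1, hT1⟩ : ∃ s, s = ∑ m ∈ range N, F (m + 1) * (q (m + 1) - q m) * U (m + 1) := ⟨_, rfl⟩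
  obtain ⟨T2, hT2⟩ : ∃ s, s = ∑ m ∈ range N, F (m + 1) ^ 2 * (q (m + 1) ^ 2 - q m ^ 2) := ⟨_, rfl⟩
  obtain ⟨T3, hT3⟩ : ∃ s, s = ∑ m ∈ range N, G (m + 1) * (q (m + 1) ^ 2 * U (m + 1) - q m ^ 2 * U m) := ⟨_, rfl⟩
  rw [← hT1] at b2 e3
  rw [← hT2] at b4 e5
  rw [← hT3] at b6 e6
  rw [← hM3] at b6 ⊢
  rw [← hM2] at e3 ⊢
  rw [← hM1] at e1 ⊢
  rw [← hs2] at e4 ⊢
  rw [← hD] at e1 ⊢
  rw [e3, e4, e5, e6] at e2
  rw [e2] at e1
  have a1 := abs_le.1 b1N
  have a2 := abs_le.1 b10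
  have a3 := abs_le.1 b3N
  have a4 := abs_le.1 b30
  have a5 := abs_le.1 b5N
  have a6 := abs_le.1 b50
  have a7 := abs_le.1 b2
  have a8 := abs_le.1 b4
  have a9 := abs_le.1 b6
  have a10 := neg_abs_le M1
  have a11 := le_abs_self M1
  have a12 := neg_abs_le M2
  have a13 := le_abs_self M2
  rw [abs_le]
  constructor <;> linarith [a1.1, a1.2, a2.1, a2.2, a3.1, a3.2, a4.1, a4.2, a5.1, a5.2, a6.1, a6.2, a7.1, a7.2, a8.1,
    a8.2, a9.1, a9.2]

/-- A sum of a bounded sequence against a sign. -/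
theorem sign_sum {B V : ℝ} (hF : ∀ m, F (m + 1) - F m = f m) (hFB : ∀ m, |F m| ≤ B)
    (hq0 : ∀ m, 0 ≤ q m) (hq1 : ∀ m, q m ≤ 1) (hV : ∀ N, ∑ m ∈ range N, |q (m + 1) - q m| ≤ V) (N : ℕ) :
    |∑ m ∈ range N, q m * f m| ≤ 2 * B + B * V := by
  have hB : 0 ≤ B := (abs_nonneg _).trans (hFB 0)
  have e1 : ∑ m ∈ range N, q m * f m = ∑ m ∈ range N, q m * (F (m + 1) - F m) :=
    sum_congr rfl (fun m _ => by rw [hF])
  rw [e1, abel]
  have b1 : ∀ m, |q m * F m| ≤ B := by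
    intro m
    rw [abs_mul, abs_of_nonneg (hq0 m)]
    calc q m * |F m| ≤ 1 * B := mul_le_mul (hq1 m) (hFB m) (abs_nonneg _) zero_le_one
      _ = B := one_mul B
  have b2 : |∑ m ∈ range N, F (m + 1) * (q (m + 1) - q m)| ≤ B * V := by
    refine (abs_sum_le_sum_abs _ _).trans ?_
    calc ∑ m ∈ range N, |F (m + 1) * (q (m + 1) - q m)| ≤ ∑ m ∈ range N, B * |q (m + 1) - q m| := by
          refine sum_le_sum (fun m _ => ?_)
          rw [abs_mul]
          exact mul_le_mul_of_nonneg_right (hFB _) (abs_nonneg _)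
      _ ≤ B * V := by
          rw [← mul_sum]
          exact mul_le_mul_of_nonneg_left (hV N) hB
  have a1 := abs_le.1 (b1 N)
  have a2 := abs_le.1 (b1 0)
  have a3 := abs_le.1 b2
  rw [abs_le]
  constructor <;> linarith [a1.1, a1.2, a2.1, a2.2, a3.1, a3.2]

end Identity

/-- The total variation. -/
theorem tv_le {q : ℕ → ℝ} (hq0 : ∀ m, 0 ≤ q m) (hq1 : ∀ m, q m ≤ 1) {n₀ : ℕ} (h : ∀ m, n₀ ≤ m → q (m + 1) ≤ q m) (N : ℕ) :
    ∑ m ∈ range N, |q (m + 1) - q m| ≤ n₀ + 1 := by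
  have h1 : ∀ N, ∑ m ∈ range N, |q (m + 1) - q m| ≤ n₀ + 1 - (if n₀ ≤ N then q N else 0) ∧
      (N ≤ n₀ → ∑ m ∈ range N, |q (m + 1) - q m| ≤ N) := by
    intro N
    induction N with
    | zero =>
      simp only [range_zero, sum_empty]
      refine ⟨?_, fun _ => by simp⟩
      have := hq1 0
      have h2 : (0 : ℝ) ≤ n₀ := Nat.cast_nonneg _
      split_ifs <;> linarith
    | succ N ih =>
      have h3 : |q (N + 1) - q N| ≤ 1 := by
        rw [abs_le]
        constructor <;> linarith [hq0 N, hq1 N, hq0 (N + 1), hq1 (N + 1)]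
      have h4 : (N + 1 ≤ n₀ → ∑ m ∈ range (N + 1), |q (m + 1) - q m| ≤ (N + 1 : ℕ)) := by
        intro h5
        rw [sum_range_succ]
        push_cast
        linarith [ih.2 (by omega)]
      refine ⟨?_, h4⟩
      rcases Nat.lt_or_ge N n₀ with h5 | h5
      · rcases Nat.lt_or_ge (N + 1) n₀ with h6 | h6
        · rw [if_neg (by omega)]
          have h7 := h4 h6.le
          have h8 : ((N + 1 : ℕ) : ℝ) ≤ n₀ := by exact_mod_cast h6.le
          linarith
        · rw [if_pos h6]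
          have h7 := h4 (by omega)
          have h8 : ((N + 1 : ℕ) : ℝ) ≤ n₀ := by exact_mod_cast (by omega : N + 1 ≤ n₀)
          linarith [hq1 (N + 1)]
      · rw [if_pos (by omega), sum_range_succ]
        have h6 := ih.1
        rw [if_pos h5] at h6
        have h7 := h N h5
        rw [abs_of_nonpos (by linarith)]
        linarith
  have h2 := (h1 N).1
  split_ifs at h2 with h3
  · linarith [hq0 N]
  · linarith

end Pool.Agent.Q120.GM
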