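import Pool.Agent.Q120.GM.Rec3
import Pool.Agent.Q120.GM.LO1

/-!
# Correlations of a sign along consecutive elements: the martingales
-/

set_option autoImplicit false

namespace Pool.Agent.Q120.GM

open Finset MeasureTheory ProbabilityTheory Filter Pool.Agent.Q120.AD
open scoped Topology

variable {Ω : Type*} [MeasurableSpace Ω] {μ : Measure Ω} [IsProbabilityMeasure μ] {p : ℕ → ℝ} {A : Ω → Set ℕ}

/-- The weighted martingale has a small second moment. -/
theorem wmart_sq (hA : IsModel μ p A) {E : ℕ → Set Ω} (hE : ∀ n, MeasurableSet[F A (Set.Iio n)] (E n))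
    {c : ℕ → ℝ} {K : ℝ} (hc : ∀ n, |c n| ≤ K) (N : ℕ) :
    Integrable (fun ω => (∑ n ∈ range N, c n * xi A p E n ω) ^ 2) μ ∧
      ∫ ω, (∑ n ∈ range N, c n * xi A p E n ω) ^ 2 ∂μ ≤ K ^ 2 * N := by
  have hint : ∀ m n, Integrable (fun ω => (c m * xi A p E m ω) * (c n * xi A p E n ω)) μ := by
    intro m n
    have h0 : (fun ω => (c m * xi A p E m ω) * (c n * xi A p E n ω)) =
        fun ω => (c m * c n) * (xi A p E m ω * xi A p E n ω) := by
      funext ω
      ring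
    rw [h0]
    refine Integrable.const_mul ?_ _
    rcases lt_trichotomy m n with h | h | h
    · exact (xi_cross hA hE h).1
    · subst h
      exact (xi_sq hA hE m).1
    · have := (xi_cross hA hE h).1
      refine this.congr (Eventually.of_forall (fun ω => mul_comm _ _))
  have hval : ∀ m n, ∫ ω, (c m * xi A p E m ω) * (c n * xi A p E n ω) ∂μ =
      (c m * c n) * ∫ ω, xi A p E m ω * xi A p E n ω ∂μ := by
    intro m n
    rw [← integral_const_mul]
    refine integral_congr_ae (Eventually.of_forall (fun ω => ?_))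
    simp only
    ring
  have hfun : (fun ω => (∑ n ∈ range N, c n * xi A p E n ω) ^ 2) = fun ω =>
      ∑ m ∈ range N, ∑ n ∈ range N, (c m * xi A p E m ω) * (c n * xi A p E n ω) := by
    funext ω
    rw [sq, sum_mul_sum]
  rw [hfun]
  refine ⟨integrable_finsetSum _ (fun m _ => integrable_finsetSum _ (fun n _ => hint m n)), ?_⟩
  rw [integral_finsetSum _ (fun m _ => integrable_finsetSum _ (fun n _ => hint m n))]
  have h1 : ∀ m ∈ range N, ∫ ω, ∑ n ∈ range N, (c m * xi A p E m ω) * (c n * xi A p E n ω) ∂μ ≤ K ^ 2 := by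
    intro m hm
    rw [integral_finsetSum _ (fun n _ => hint m n), sum_eq_single m]
    · rw [hval]
      have h2 := (xi_sq hA hE m).2
      have e1 := p_nonneg hA m
      have e2 := p_le_one hA m
      have e3 : 0 ≤ μ.real (E m) := measureReal_nonneg
      have e4 : μ.real (E m) ≤ 1 := measureReal_le_one
      have e5 : μ.real (E m) * p m ≤ 1 := mul_le_one₀ e4 e1 e2
      have e6 : 0 ≤ ∫ ω, xi A p E m ω * xi A p E m ω ∂μ := integral_nonneg (fun ω => mul_self_nonneg _)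
      have e7 : c m * c m ≤ K ^ 2 := by
        rw [← sq, ← sq_abs]
        exact pow_le_pow_left₀ (abs_nonneg _) (hc m) 2
      calc c m * c m * ∫ ω, xi A p E m ω * xi A p E m ω ∂μ ≤ K ^ 2 * 1 :=
            mul_le_mul e7 (h2.trans e5) e6 (by positivity)
        _ = K ^ 2 := mul_one _
    · intro n _ hn
      rw [hval]
      rcases lt_or_gt_of_ne hn with h | h
      · have := (xi_cross hA hE h).2
        have h3 : ∫ ω, xi A p E m ω * xi A p E n ω ∂μ = ∫ ω, xi A p E n ω * xi A p E m ω ∂μ :=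
          integral_congr_ae (Eventually.of_forall (fun ω => mul_comm _ _))
        rw [h3, this, mul_zero]
      · rw [(xi_cross hA hE h).2, mul_zero]
    · intro h
      exact absurd hm h
  refine (sum_le_sum h1).trans ?_
  rw [sum_const, card_range, nsmul_eq_mul, mul_comm]

theorem wmart_cheb (hA : IsModel μ p A) {E : ℕ → Set Ω} (hE : ∀ n, MeasurableSet[F A (Set.Iio n)] (E n))
    {c : ℕ → ℝ} {K : ℝ} (hc : ∀ n, |c n| ≤ K) (N : ℕ) {t : ℝ} (ht : 0 < t) :
    μ.real {ω | t ≤ |∑ n ∈ range N, c n * xi A p E n ω|} ≤ (K ^ 2 * N) / t ^ 2 := by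
  obtain ⟨h1, h2⟩ := wmart_sq hA hE hc N
  have h3 := mul_meas_ge_le_integral_of_nonneg (μ := μ) (f := fun ω => (∑ n ∈ range N, c n * xi A p E n ω) ^ 2)
    (Eventually.of_forall (fun ω => sq_nonneg _)) h1 (t ^ 2)
  have h4 : {ω | t ≤ |∑ n ∈ range N, c n * xi A p E n ω|} ⊆ {ω | t ^ 2 ≤ (∑ n ∈ range N, c n * xi A p E n ω) ^ 2} := by
    intro ω hω
    have hω' : t ≤ |∑ n ∈ range N, c n * xi A p E n ω| := hω
    show t ^ 2 ≤ (∑ n ∈ range N, c n * xi A p E n ω) ^ 2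
    rw [← sq_abs (∑ n ∈ range N, c n * xi A p E n ω)]
    exact pow_le_pow_left₀ ht.le hω' 2
  have h5 : μ.real {ω | t ≤ |∑ n ∈ range N, c n * xi A p E n ω|} ≤
      μ.real {ω | t ^ 2 ≤ (∑ n ∈ range N, c n * xi A p E n ω) ^ 2} :=
    measureReal_mono h4 (measure_ne_top _ _)
  rw [le_div_iff₀ (by positivity), mul_comm]
  exact (mul_le_mul_of_nonneg_left h5 (by positivity)).trans (h3.trans h2)

/-- **The weighted martingales are small.** -/
theorem wmart (hA : IsModel μ p A) {E : ℕ → Set Ω} (hE : ∀ n, MeasurableSet[F A (Set.Iio n)] (E n))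
    {c : ℕ → ℝ} {K : ℝ} (hc : ∀ n, |c n| ≤ K) :
    ∀ᵐ ω ∂μ, ∀ᶠ N : ℕ in atTop, |∑ n ∈ range N, c n * xi A p E n ω| ≤ (16 * K + 2) * (N : ℝ) ^ ((3 : ℝ) / 4) := by
  have hK : 0 ≤ K := (abs_nonneg _).trans (hc 0)
  obtain ⟨B, hB⟩ : ∃ B : ℕ → Set Ω, B = fun (k : ℕ) =>
      {ω | (k : ℝ) ^ 3 ≤ |∑ n ∈ range (k ^ 4), c n * xi A p E n ω|} := ⟨_, rfl⟩
  have hsm : Summable (fun k : ℕ => K ^ 2 * (1 / (k : ℝ) ^ 2)) := (Real.summable_one_div_nat_pow.2 (by norm_num)).mul_left _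
  have hbound : ∀ᶠ k : ℕ in atTop, μ.real (B k) ≤ K ^ 2 * (1 / (k : ℝ) ^ 2) := by
    filter_upwards [eventually_ge_atTop 1] with k hk
    have hk0 : (0 : ℝ) < k := by exact_mod_cast hk
    have h1 := wmart_cheb hA hE hc (k ^ 4) (t := (k : ℝ) ^ 3) (by positivity)
    rw [hB]
    refine h1.trans (le_of_eq ?_)
    push_cast
    field_simp
  have hxi : ∀ n ω, |c n * xi A p E n ω| ≤ K := by
    intro n ω
    rw [abs_mul]
    have e1 := p_nonneg hA n
    have e2 := p_le_one hA n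
    have h1 : |xi A p E n ω| ≤ 1 := by
      unfold xi ind
      by_cases h3 : ω ∈ E n
      · rw [Set.indicator_of_mem h3]
        by_cases h4 : ω ∈ {ω | n ∈ A ω}
        · rw [Set.indicator_of_mem h4, abs_le]
          constructor <;> linarith
        · rw [Set.indicator_of_notMem h4, abs_le]
          constructor <;> linarith
      · rw [Set.indicator_of_notMem h3, zero_mul, abs_zero]
        exact zero_le_one
    calc |c n| * |xi A p E n ω| ≤ K * 1 := mul_le_mul (hc n) h1 (abs_nonneg _) hK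
      _ = K := mul_one K
  filter_upwards [bc hsm hbound] with ω hω
  obtain ⟨k₀, hk₀⟩ := eventually_atTop.1 hω
  filter_upwards [eventually_ge_atTop ((k₀ + 1) ^ 4)] with N hN
  -- the fourth root
  obtain ⟨k, hk1, hk2⟩ : ∃ k, k ^ 4 ≤ N ∧ N < (k + 1) ^ 4 := by
    have hex : ∃ j, N < (j + 1) ^ 4 := ⟨N, by
      calc N < N + 1 := Nat.lt_succ_self N
        _ = (N + 1) ^ 1 := (pow_one _).symm
        _ ≤ (N + 1) ^ 4 := Nat.pow_le_pow_right (by omega) (by norm_num)⟩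
    classical
    refine ⟨Nat.find hex, ?_, Nat.find_spec hex⟩
    rcases Nat.eq_zero_or_pos (Nat.find hex) with h | h
    · rw [h]
      simp
    · have h2 := Nat.find_min hex (show Nat.find hex - 1 < Nat.find hex by omega)
      rw [Nat.sub_add_cancel h] at h2
      omega
  have hk : k₀ + 1 ≤ k := by
    by_contra hcon
    push Not at hcon
    have h1 : (k + 1) ^ 4 ≤ (k₀ + 1) ^ 4 := Nat.pow_le_pow_left (by omega) 4
    omega
  have h1 : |∑ n ∈ range (k ^ 4), c n * xi A p E n ω| < (k : ℝ) ^ 3 := by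
    have h2 := hk₀ k (by omega)
    rw [hB] at h2
    by_contra hcon
    push Not at hcon
    exact h2 hcon
  have hkr : (1 : ℝ) ≤ k := by exact_mod_cast (by omega : 1 ≤ k)
  have hN0 : (0 : ℝ) ≤ N := Nat.cast_nonneg N
  have h2 : (k : ℝ) ^ 3 ≤ (N : ℝ) ^ ((3 : ℝ) / 4) := by
    have e1 : (k : ℝ) ^ 4 ≤ N := by exact_mod_cast hk1
    calc (k : ℝ) ^ 3 = ((k : ℝ) ^ 4) ^ ((3 : ℝ) / 4) := by
          rw [← Real.rpow_natCast (k : ℝ) 4, ← Real.rpow_mul (by positivity), ← Real.rpow_natCast]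
          norm_num
      _ ≤ (N : ℝ) ^ ((3 : ℝ) / 4) := Real.rpow_le_rpow (by positivity) e1 (by norm_num)
  have h3 : |∑ n ∈ range N, c n * xi A p E n ω| ≤ (k : ℝ) ^ 3 + K * ((N : ℝ) - (k : ℝ) ^ 4) := by
    rw [← sum_range_add_sum_Ico _ hk1]
    refine (abs_add_le _ _).trans (add_le_add h1.le ?_)
    refine (abs_sum_le_sum_abs _ _).trans ((sum_le_sum (fun n _ => hxi n ω)).trans ?_)
    rw [sum_const, Nat.card_Ico, nsmul_eq_mul, mul_comm]
    rw [Nat.cast_sub hk1]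
    push_cast
    exact le_rfl
  have h4 : (N : ℝ) - (k : ℝ) ^ 4 ≤ 15 * (k : ℝ) ^ 3 := by
    have e1 : (N : ℝ) ≤ ((k : ℝ) + 1) ^ 4 := by exact_mod_cast hk2.le
    have e2 : ((k : ℝ) + 1) ^ 4 = (k : ℝ) ^ 4 + 4 * (k : ℝ) ^ 3 + 6 * (k : ℝ) ^ 2 + 4 * k + 1 := by ring
    have e3 : (k : ℝ) ^ 2 ≤ (k : ℝ) ^ 3 := pow_le_pow_right₀ hkr (by norm_num)
    have e4 : (k : ℝ) ≤ (k : ℝ) ^ 3 := by
      calc (k : ℝ) = (k : ℝ) ^ 1 := (pow_one _).symm
        _ ≤ (k : ℝ) ^ 3 := pow_le_pow_right₀ hkr (by norm_num)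
    have e5 : (1 : ℝ) ≤ (k : ℝ) ^ 3 := one_le_pow₀ hkr
    linarith
  have h5 : K * ((N : ℝ) - (k : ℝ) ^ 4) ≤ K * (15 * (k : ℝ) ^ 3) := mul_le_mul_of_nonneg_left h4 hK
  have h6 : (15 * K + 1) * (k : ℝ) ^ 3 ≤ (16 * K + 2) * (N : ℝ) ^ ((3 : ℝ) / 4) :=
    mul_le_mul (by linarith) h2 (by positivity) (by positivity)
  have h7 : (k : ℝ) ^ 3 + K * (15 * (k : ℝ) ^ 3) = (15 * K + 1) * (k : ℝ) ^ 3 := by ring
  linarith

end Pool.Agent.Q120.GM
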