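import Pool.Agent.Q120.GM.LO3

/-!
# Correlations of a sign along consecutive elements: the law in the models
-/

set_option autoImplicit false

namespace Pool.Agent.Q120.GM

open Finset MeasureTheory ProbabilityTheory Filter Pool.Agent.Q120.AD
open scoped Topology

variable {Ω : Type*} [MeasurableSpace Ω] {μ : Measure Ω} [IsProbabilityMeasure μ] {p : ℕ → ℝ} {A : Ω → Set ℕ}

omit [MeasurableSpace Ω] in
theorem F_UU (f : ℕ → ℝ) (u : ℝ) (n : ℕ) : MeasurableSet[F A (Set.Iio n)] {ω | UU f (A ω) n = u} := by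
  refine F_dep n (fun S => UU f S n = u) (fun S T h hS => ?_)
  rw [← UU_local h]
  exact hS

omit [MeasurableSpace Ω] in
theorem ind_xx (n : ℕ) (ω : Ω) : ind {ω | n ∈ A ω} ω = xx (A ω) n := by
  unfold ind
  by_cases h : n ∈ A ω
  · rw [xx_mem h, Set.indicator_of_mem (show ω ∈ {ω | n ∈ A ω} from h)]
  · rw [xx_notMem h, Set.indicator_of_notMem (show ω ∉ {ω | n ∈ A ω} from h)]

omit [MeasurableSpace Ω] in
theorem UU_ind {f : ℕ → ℝ} (hf : ∀ m, f m = 0 ∨ f m = 1 ∨ f m = -1) (n : ℕ) (ω : Ω) :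
    UU f (A ω) n = ind {ω | UU f (A ω) n = 1} ω - ind {ω | UU f (A ω) n = -1} ω := by
  unfold ind
  rcases UU_cases hf (A ω) n with h | h | h
  · rw [Set.indicator_of_notMem (show ω ∉ {ω | UU f (A ω) n = 1} from fun h1 => by
      have h2 : UU f (A ω) n = 1 := h1
      rw [h] at h2; norm_num at h2),
      Set.indicator_of_notMem (show ω ∉ {ω | UU f (A ω) n = -1} from fun h1 => by
      have h2 : UU f (A ω) n = -1 := h1
      rw [h] at h2; norm_num at h2), h]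
    norm_num
  · rw [Set.indicator_of_mem (show ω ∈ {ω | UU f (A ω) n = 1} from h),
      Set.indicator_of_notMem (show ω ∉ {ω | UU f (A ω) n = -1} from fun h1 => by
      have h2 : UU f (A ω) n = -1 := h1
      rw [h] at h2; norm_num at h2), h]
    norm_num
  · rw [Set.indicator_of_notMem (show ω ∉ {ω | UU f (A ω) n = 1} from fun h1 => by
      have h2 : UU f (A ω) n = 1 := h1
      rw [h] at h2; norm_num at h2),
      Set.indicator_of_mem (show ω ∈ {ω | UU f (A ω) n = -1} from h), h]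
    norm_num

/-- **The law of the correlations.** -/
theorem corr_law (hA : IsModel μ p A) {f q : ℕ → ℝ} {R m₀ k n₀ : ℕ} {κ : ℝ} (hf : ∀ m, f m = 0 ∨ f m = 1 ∨ f m = -1)
    (hR : 0 < R) (hfR : ∀ m, f (m + R) = -f m) (hm₀ : f m₀ ≠ 0) (hp : ∀ m, p m = f m ^ 2 * q m) (hq0 : ∀ m, 0 ≤ q m)
    (hq1 : ∀ m, q m ≤ 1) (hqa : ∀ m, n₀ ≤ m → q (m + 1) ≤ q m) (hκ : 0 < κ) (hk : 1 ≤ k)
    (hq : Tendsto (fun m : ℕ => q m * Real.log m ^ k) atTop (𝓝 κ)) :
    ∀ᵐ ω ∂μ, Tendsto (fun N : ℕ => (∑ m ∈ range N, xx (A ω) m * (f m * UU f (A ω) m)) * Real.log N ^ k /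
        ∑ m ∈ range N, xx (A ω) m) atTop (𝓝 (-(κ / 2))) ∧
      Tendsto (fun N : ℕ => (∑ m ∈ range N, f m * xx (A ω) m) * Real.log N ^ k / ∑ m ∈ range N, xx (A ω) m) atTop (𝓝 0) ∧
      Tendsto (fun N : ℕ => Real.log N ^ k / ∑ m ∈ range N, xx (A ω) m) atTop (𝓝 0) := by
  classical
  have hf3 : ∀ m, f m ^ 3 = f m := by
    intro m
    rcases hf m with h | h | h <;> rw [h] <;> norm_num
  have hf1 : ∀ m, |f m| ≤ 1 := by
    intro m
    rcases hf m with h | h | h <;> rw [h] <;> norm_num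
  have hf2 : ∀ m, f m ^ 2 ≤ 1 := by
    intro m
    rcases hf m with h | h | h <;> rw [h] <;> norm_num
  obtain ⟨B, hB⟩ : ∃ B : ℝ, B = 2 * R * 1 := ⟨_, rfl⟩
  obtain ⟨B', hB'⟩ : ∃ B' : ℝ, B' = 2 * R * B := ⟨_, rfl⟩
  have hBn : 0 ≤ B := by rw [hB]; positivity
  have hBn' : 0 ≤ B' := by rw [hB']; positivity
  obtain ⟨a1, a2⟩ := anti_sum hR hfR hf1
  rw [← hB] at a2
  obtain ⟨Fs, hFs⟩ : ∃ Fs : ℕ → ℝ, Fs = fun n => ∑ k ∈ range n, f k - (∑ k ∈ range R, f k) / 2 := ⟨_, rfl⟩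
  have a1' : ∀ n, Fs (n + R) = -Fs n := by rw [hFs]; exact a1
  have a2' : ∀ n, |Fs n| ≤ B := by rw [hFs]; exact a2
  have hFstep : ∀ m, Fs (m + 1) - Fs m = f m := by
    intro m
    rw [hFs]
    simp only [sum_range_succ]
    ring
  obtain ⟨g, hg⟩ : ∃ g : ℕ → ℝ, g = fun n => f n ^ 2 * Fs (n + 1) := ⟨_, rfl⟩
  have hgR : ∀ n, g (n + R) = -g n := by
    intro n
    rw [hg]
    have e1 : n + R + 1 = (n + 1) + R := by ring
    simp only [e1, a1', hfR]
    ring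
  have hgB : ∀ n, |g n| ≤ B := by
    intro n
    rw [hg]
    simp only [abs_mul, abs_pow, sq_abs]
    calc f n ^ 2 * |Fs (n + 1)| ≤ 1 * B := mul_le_mul (hf2 n) (a2' _) (abs_nonneg _) zero_le_one
      _ = B := one_mul B
  obtain ⟨b1, b2⟩ := anti_sum hR hgR hgB
  rw [← hB'] at b2
  obtain ⟨Gs, hGs⟩ : ∃ Gs : ℕ → ℝ, Gs = fun n => ∑ k ∈ range n, g k - (∑ k ∈ range R, g k) / 2 := ⟨_, rfl⟩
  have b2' : ∀ n, |Gs n| ≤ B' := by rw [hGs]; exact b2
  have hGstep : ∀ m, Gs (m + 1) - Gs m = f m ^ 2 * Fs (m + 1) := by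
    intro m
    have h1 : Gs (m + 1) - Gs m = g m := by
      rw [hGs]
      simp only [sum_range_succ]
      ring
    rw [h1, hg]
  have hV := tv_le hq0 hq1 hqa
  obtain ⟨V, hVd⟩ : ∃ V : ℝ, V = n₀ + 1 := ⟨_, rfl⟩
  rw [← hVd] at hV
  have hVn : 0 ≤ V := by rw [hVd]; positivity
  -- the martingales
  obtain ⟨K, hK⟩ : ∃ K : ℝ, K = B + 1 := ⟨_, rfl⟩
  obtain ⟨L, hL⟩ : ∃ L : ℝ, L = 16 * K + 2 := ⟨_, rfl⟩
  have hLn : 0 ≤ L := by rw [hL, hK]; positivity
  have hE1 := fun n => F_UU (A := A) f 1 n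
  have hE2 := fun n => F_UU (A := A) f (-1) n
  have hEu : ∀ n : ℕ, MeasurableSet[F A (Set.Iio n)] (Set.univ : Set Ω) := fun n => MeasurableSet.univ
  have c1 : ∀ n, |f n| ≤ K := fun n => (hf1 n).trans (by rw [hK]; linarith)
  have c3 : ∀ n, |Fs (n + 1) * q n * f n| ≤ K := by
    intro n
    rw [abs_mul, abs_mul, abs_of_nonneg (hq0 n)]
    calc |Fs (n + 1)| * q n * |f n| ≤ B * 1 * 1 :=
          mul_le_mul (mul_le_mul (a2' _) (hq1 n) (hq0 n) hBn) (hf1 n) (abs_nonneg _) (by linarith)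
      _ ≤ K := by rw [hK]; linarith
  have c4 : ∀ n, |Fs (n + 1) * q n| ≤ K := by
    intro n
    rw [abs_mul, abs_of_nonneg (hq0 n)]
    calc |Fs (n + 1)| * q n ≤ B * 1 := mul_le_mul (a2' _) (hq1 n) (hq0 n) hBn
      _ ≤ K := by rw [hK]; linarith
  have c6 : ∀ n, |q n ^ 2| ≤ K := by
    intro n
    rw [abs_of_nonneg (sq_nonneg _)]
    exact (pow_le_one₀ (hq0 n) (hq1 n)).trans (by rw [hK]; linarith)
  have c7 : ∀ n : ℕ, |(fun _ => (1 : ℝ)) n| ≤ K := by
    intro n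
    simp only [abs_one]
    rw [hK]
    linarith
  -- the sums of the probabilities
  obtain ⟨s1, hs1⟩ : ∃ s : ℕ → ℝ, s = fun N => ∑ m ∈ range N, f m ^ 2 * q m := ⟨_, rfl⟩
  obtain ⟨s2, hs2⟩ : ∃ s : ℕ → ℝ, s = fun N => ∑ m ∈ range N, f m ^ 2 * q m ^ 2 := ⟨_, rfl⟩
  obtain ⟨s3, hs3⟩ : ∃ s : ℕ → ℝ, s = fun N => ∑ m ∈ range N, f m ^ 2 * q m ^ 3 := ⟨_, rfl⟩
  have ht0 : ∀ m, 0 ≤ f m ^ 2 := fun m => sq_nonneg _
  have htR : ∀ m, f (m + R) ^ 2 = f m ^ 2 := by
    intro m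
    rw [hfR]
    ring
  have ht1 : f m₀ ^ 2 = 1 := by
    rcases hf m₀ with h | h | h
    · exact absurd h hm₀
    · rw [h]; norm_num
    · rw [h]; norm_num
  have hR0 : (0 : ℝ) < R := by exact_mod_cast hR
  have mass1 := mass (t := fun m => f m ^ 2) ht0 htR hR ht1 hq0 hκ hq 1
  have mass2 := mass (t := fun m => f m ^ 2) ht0 htR hR ht1 hq0 hκ hq 2
  simp only [pow_one, mul_one] at mass1
  have r1 : Tendsto (fun N : ℕ => s2 N * Real.log N ^ k / s1 N) atTop (𝓝 κ) := by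
    have h1 := ratio_law (w := fun m => f m ^ 2 * q m) (K := k) (c := (κ / 2) / (4 * R))
      (fun m => mul_nonneg (ht0 m) (hq0 m)) (fun m => mul_le_one₀ (hf2 m) (hq0 m) (hq1 m)) hq0 hq1 hκ (by positivity) mass1 hq
    refine h1.congr (fun N => ?_)
    rw [hs1, hs2]
    simp only
    congr 3
    funext m
    ring
  have r2 : Tendsto (fun N : ℕ => s3 N * Real.log N ^ k / s2 N) atTop (𝓝 κ) := by
    have h1 := ratio_law (w := fun m => f m ^ 2 * q m ^ 2) (K := k * 2) (c := (κ / 2) ^ 2 / (4 * R))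
      (fun m => mul_nonneg (ht0 m) (pow_nonneg (hq0 m) 2))
      (fun m => mul_le_one₀ (hf2 m) (pow_nonneg (hq0 m) 2) (pow_le_one₀ (hq0 m) (hq1 m))) hq0 hq1 hκ (by positivity) mass2 hq
    refine h1.congr (fun N => ?_)
    rw [hs2, hs3]
    simp only
    congr 3
    funext m
    ring
  have hmass1 : ∀ᶠ N : ℕ in atTop, κ / 2 / (4 * R) * N / Real.log N ^ k ≤ s1 N := by rw [hs1]; exact mass1
  have hmass2 : ∀ᶠ N : ℕ in atTop, (κ / 2) ^ 2 / (4 * R) * N / Real.log N ^ (k * 2) ≤ s2 N := by rw [hs2]; exact mass2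
  -- small quantities
  have z1 : Tendsto (fun N : ℕ => (N : ℝ) ^ ((3 : ℝ) / 4) * Real.log N ^ k / s1 N) atTop (𝓝 0) := by
    have h1 := (log_pow_div_rpow (2 * k) (show (0 : ℝ) < 1 / 4 by norm_num)).mul_const (1 / (κ / 2 / (4 * R)))
    rw [zero_mul] at h1
    refine squeeze_zero' ?_ ?_ h1
    · filter_upwards [hmass1, hl.eventually_gt_atTop 0] with N h2 h3
      have h4 : 0 ≤ s1 N := le_trans (by positivity) h2
      positivity
    · filter_upwards [hmass1, hl.eventually_gt_atTop 0, eventually_ge_atTop 1] with N h2 h3 h5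
      have hN0 : (0 : ℝ) < N := by exact_mod_cast h5
      have h4 : 0 < κ / 2 / (4 * R) * N / Real.log N ^ k := by positivity
      calc (N : ℝ) ^ ((3 : ℝ) / 4) * Real.log N ^ k / s1 N
          ≤ (N : ℝ) ^ ((3 : ℝ) / 4) * Real.log N ^ k / (κ / 2 / (4 * R) * N / Real.log N ^ k) :=
            div_le_div_of_nonneg_left (by positivity) h4 h2
        _ = Real.log N ^ (2 * k) / (N : ℝ) ^ ((1 : ℝ) / 4) * (1 / (κ / 2 / (4 * R))) := by
            have e1 : (N : ℝ) = (N : ℝ) ^ ((3 : ℝ) / 4) * (N : ℝ) ^ ((1 : ℝ) / 4) := by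
              rw [← Real.rpow_add hN0]
              norm_num
            have e2 : 0 < (N : ℝ) ^ ((3 : ℝ) / 4) := Real.rpow_pos_of_pos hN0 _
            have e3 : 0 < (N : ℝ) ^ ((1 : ℝ) / 4) := Real.rpow_pos_of_pos hN0 _
            obtain ⟨u, hu⟩ : ∃ u, u = (N : ℝ) ^ ((3 : ℝ) / 4) := ⟨_, rfl⟩
            obtain ⟨v, hv⟩ : ∃ v, v = (N : ℝ) ^ ((1 : ℝ) / 4) := ⟨_, rfl⟩
            rw [← hu] at e1 e2 ⊢
            rw [← hv] at e1 e3 ⊢
            obtain ⟨l, hl'⟩ : ∃ l, l = Real.log (N : ℝ) := ⟨_, rfl⟩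
            rw [← hl'] at h3 ⊢
            rw [e1, two_mul, pow_add]
            field_simp
  have z2 : Tendsto (fun N : ℕ => Real.log N ^ k / s1 N) atTop (𝓝 0) := by
    refine squeeze_zero' ?_ ?_ z1
    · filter_upwards [hmass1, hl.eventually_gt_atTop 0] with N h2 h3
      have h4 : 0 ≤ s1 N := le_trans (by positivity) h2
      positivity
    · filter_upwards [hmass1, hl.eventually_gt_atTop 0, eventually_ge_atTop 1] with N h2 h3 h5
      have h4 : 0 ≤ s1 N := le_trans (by positivity) h2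
      have h6 : (1 : ℝ) ≤ (N : ℝ) ^ ((3 : ℝ) / 4) := Real.one_le_rpow (by exact_mod_cast h5) (by norm_num)
      refine div_le_div_of_nonneg_right ?_ h4
      exact le_mul_of_one_le_left (by positivity) h6
  have z3 : Tendsto (fun N : ℕ => s3 N * Real.log N ^ k / s1 N) atTop (𝓝 0) := by
    have h1 : Tendsto (fun N : ℕ => (s3 N * Real.log N ^ k / s2 N) * (s2 N * Real.log N ^ k / s1 N) * (Real.log N ^ k)⁻¹)
        atTop (𝓝 (κ * κ * 0)) :=
      (r2.mul r1).mul (((tendsto_pow_atTop (by omega)).comp hl).inv_tendsto_atTop)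
    rw [mul_zero] at h1
    refine h1.congr' ?_
    filter_upwards [hmass1, hmass2, hl.eventually_gt_atTop 0, eventually_ge_atTop 1] with N h2 h3 h4 h5
    have hN0 : (0 : ℝ) < N := by exact_mod_cast h5
    have h6 : 0 < s1 N := lt_of_lt_of_le (by positivity) h2
    have h7 : 0 < s2 N := lt_of_lt_of_le (by positivity) h3
    have h8 : 0 < Real.log (N : ℝ) ^ k := by positivity
    field_simp
  filter_upwards [wmart hA hE1 c1, wmart hA hE2 c1, wmart hA hEu c3, wmart hA hE1 c4, wmart hA hE2 c4, wmart hA hEu c6,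
    wmart hA hEu c7, wmart hA hEu c1] with ω w1 w2 w3 w4 w5 w6 w7 w8
  rw [← hL] at w1 w2 w3 w4 w5 w6 w7 w8
  have hxi1 : ∀ n, xi A p (fun n => {ω | UU f (A ω) n = 1}) n ω =
      ind {ω | UU f (A ω) n = 1} ω * (xx (A ω) n - f n ^ 2 * q n) := by
    intro n
    unfold xi
    rw [ind_xx, hp]
  have hxi2 : ∀ n, xi A p (fun n => {ω | UU f (A ω) n = -1}) n ω =
      ind {ω | UU f (A ω) n = -1} ω * (xx (A ω) n - f n ^ 2 * q n) := by
    intro n
    unfold xi
    rw [ind_xx, hp]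
  have hxiu : ∀ n, xi A p (fun _ => Set.univ) n ω = xx (A ω) n - f n ^ 2 * q n := by
    intro n
    unfold xi
    have h1 : ind (Set.univ : Set Ω) ω = 1 := by
      unfold ind
      rw [Set.indicator_of_mem (Set.mem_univ ω)]
    rw [ind_xx, hp, h1, one_mul]
  obtain ⟨X, hX⟩ : ∃ X : ℕ → ℝ, X = fun N => ∑ m ∈ range N, xx (A ω) m := ⟨_, rfl⟩
  obtain ⟨D, hD⟩ : ∃ D : ℕ → ℝ, D = fun N => ∑ m ∈ range N, xx (A ω) m * (f m * UU f (A ω) m) := ⟨_, rfl⟩
  obtain ⟨Y, hY⟩ : ∃ Y : ℕ → ℝ, Y = fun N => ∑ m ∈ range N, f m * xx (A ω) m := ⟨_, rfl⟩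
  obtain ⟨C1, hC1⟩ : ∃ C, C = 5 * L + 2 * B' * L + 2 * B' + (2 * B + B * V + B ^ 2 + B ^ 2 * V + 2 * B' + 2 * B' * V) := ⟨_, rfl⟩
  have hs3n : ∀ N, 0 ≤ s3 N := by
    intro N
    rw [hs3]
    exact sum_nonneg (fun m _ => mul_nonneg (ht0 m) (pow_nonneg (hq0 m) 3))
  have main : ∀ᶠ N : ℕ in atTop, |D N + 1 / 2 * s2 N| ≤ C1 * ((N : ℝ) ^ ((3 : ℝ) / 4) + s3 N + 1) := by
    filter_upwards [w1, w2, w3, w4, w5, w6] with N v1 v2 v3 v4 v5 v6
    have h1 := corr_identity (f := f) (q := q) (U := UU f (A ω)) (x := xx (A ω)) (F := Fs) (G := Gs) hf3 (xx_cases _)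
      (fun m => UU_succ f (A ω) m) (fun m => by rcases UU_cases hf (A ω) m with h | h | h <;> rw [h] <;> norm_num) hf1 hFstep a2'
      hGstep b2' hq0 hq1 hV N
    rw [hD, hs2]
    refine h1.trans ?_
    have h2 : |∑ m ∈ range N, f m * UU f (A ω) m * (xx (A ω) m - f m ^ 2 * q m)| ≤ 2 * L * (N : ℝ) ^ ((3 : ℝ) / 4) := by
      have e1 : ∑ m ∈ range N, f m * UU f (A ω) m * (xx (A ω) m - f m ^ 2 * q m) =
          ∑ m ∈ range N, f m * xi A p (fun n => {ω | UU f (A ω) n = 1}) m ω -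
          ∑ m ∈ range N, f m * xi A p (fun n => {ω | UU f (A ω) n = -1}) m ω := by
        rw [← sum_sub_distrib]
        refine sum_congr rfl (fun m _ => ?_)
        rw [hxi1, hxi2, UU_ind hf m ω]
        ring
      rw [e1]
      refine (abs_sub _ _).trans ?_
      linarith
    have h3 : |∑ m ∈ range N, Fs (m + 1) * q m * (f m - UU f (A ω) m) * (xx (A ω) m - f m ^ 2 * q m)| ≤
        3 * L * (N : ℝ) ^ ((3 : ℝ) / 4) := by
      have e1 : ∑ m ∈ range N, Fs (m + 1) * q m * (f m - UU f (A ω) m) * (xx (A ω) m - f m ^ 2 * q m) =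
          ∑ m ∈ range N, (Fs (m + 1) * q m * f m) * xi A p (fun _ => Set.univ) m ω -
          (∑ m ∈ range N, (Fs (m + 1) * q m) * xi A p (fun n => {ω | UU f (A ω) n = 1}) m ω -
          ∑ m ∈ range N, (Fs (m + 1) * q m) * xi A p (fun n => {ω | UU f (A ω) n = -1}) m ω) := by
        rw [← sum_sub_distrib, ← sum_sub_distrib]
        refine sum_congr rfl (fun m _ => ?_)
        rw [hxi1, hxi2, hxiu, UU_ind hf m ω]
        ring
      rw [e1]
      refine (abs_sub _ _).trans ?_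
      have e2 := abs_sub (∑ m ∈ range N, (Fs (m + 1) * q m) * xi A p (fun n => {ω | UU f (A ω) n = 1}) m ω)
        (∑ m ∈ range N, (Fs (m + 1) * q m) * xi A p (fun n => {ω | UU f (A ω) n = -1}) m ω)
      linarith
    have h4 : |∑ m ∈ range N, q m ^ 2 * (xx (A ω) m - f m ^ 2 * q m)| ≤ L * (N : ℝ) ^ ((3 : ℝ) / 4) := by
      have e1 : ∑ m ∈ range N, q m ^ 2 * (xx (A ω) m - f m ^ 2 * q m) =
          ∑ m ∈ range N, q m ^ 2 * xi A p (fun _ => Set.univ) m ω :=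
        sum_congr rfl (fun m _ => by rw [hxiu])
      rw [e1]
      exact v6
    have hr0 : 0 ≤ (N : ℝ) ^ ((3 : ℝ) / 4) := by positivity
    have hs30 := hs3n N
    have h5 : 2 * B' * (|∑ m ∈ range N, q m ^ 2 * (xx (A ω) m - f m ^ 2 * q m)| + ∑ m ∈ range N, f m ^ 2 * q m ^ 3) ≤
        2 * B' * (L * (N : ℝ) ^ ((3 : ℝ) / 4) + s3 N) := by
      refine mul_le_mul_of_nonneg_left (add_le_add h4 ?_) (by positivity)
      rw [hs3]
    have h6 : 0 ≤ 2 * B + B * V + B ^ 2 + B ^ 2 * V + 2 * B' + 2 * B' * V := by positivity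
    obtain ⟨C0, hC0⟩ : ∃ C0, C0 = 2 * B + B * V + B ^ 2 + B ^ 2 * V + 2 * B' + 2 * B' * V := ⟨_, rfl⟩
    rw [← hC0] at h6 hC1 ⊢
    have hBL : 0 ≤ B' * L := by positivity
    have hC1n : 0 ≤ C1 := by rw [hC1]; positivity
    have e1 : (5 * L + 2 * B' * L) * (N : ℝ) ^ ((3 : ℝ) / 4) ≤ C1 * (N : ℝ) ^ ((3 : ℝ) / 4) :=
      mul_le_mul_of_nonneg_right (by rw [hC1]; linarith) hr0
    have e2 : 2 * B' * s3 N ≤ C1 * s3 N := mul_le_mul_of_nonneg_right (by rw [hC1]; linarith) hs30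
    have e3 : C0 ≤ C1 * 1 := by rw [hC1]; linarith
    calc _ ≤ 2 * L * (N : ℝ) ^ ((3 : ℝ) / 4) + 3 * L * (N : ℝ) ^ ((3 : ℝ) / 4) +
          2 * B' * (L * (N : ℝ) ^ ((3 : ℝ) / 4) + s3 N) + C0 :=
          add_le_add (add_le_add (add_le_add h2 h3) h5) le_rfl
      _ = (5 * L + 2 * B' * L) * (N : ℝ) ^ ((3 : ℝ) / 4) + 2 * B' * s3 N + C0 := by ring
      _ ≤ C1 * (N : ℝ) ^ ((3 : ℝ) / 4) + C1 * s3 N + C1 * 1 := by linarith
      _ = C1 * ((N : ℝ) ^ ((3 : ℝ) / 4) + s3 N + 1) := by ring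
  have mainX : ∀ᶠ N : ℕ in atTop, |X N - s1 N| ≤ L * (N : ℝ) ^ ((3 : ℝ) / 4) := by
    filter_upwards [w7] with N v7
    rw [hX, hs1]
    have e1 : ∑ m ∈ range N, xx (A ω) m - ∑ m ∈ range N, f m ^ 2 * q m =
        ∑ m ∈ range N, (fun _ => (1 : ℝ)) m * xi A p (fun _ => Set.univ) m ω := by
      rw [← sum_sub_distrib]
      exact sum_congr rfl (fun m _ => by rw [hxiu, one_mul])
    simp only [e1]
    exact v7
  have mainY : ∀ᶠ N : ℕ in atTop, |Y N| ≤ L * (N : ℝ) ^ ((3 : ℝ) / 4) + (2 * B + B * V) := by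
    filter_upwards [w8] with N v8
    have h1 := sign_sum (f := f) (q := q) (F := Fs) hFstep a2' hq0 hq1 hV N
    rw [hY]
    have e1 : ∑ m ∈ range N, f m * xx (A ω) m = ∑ m ∈ range N, f m * xi A p (fun _ => Set.univ) m ω +
        ∑ m ∈ range N, q m * f m := by
      rw [← sum_add_distrib]
      refine sum_congr rfl (fun m _ => ?_)
      rw [hxiu]
      linear_combination (q m) * hf3 m
    simp only [e1]
    exact (abs_add_le _ _).trans (add_le_add v8 h1)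
  -- the ratio of the counting functions
  have hXs : Tendsto (fun N => X N / s1 N) atTop (𝓝 1) := by
    have h1 : Tendsto (fun N => X N / s1 N - 1) atTop (𝓝 0) := by
      have h2 := z1.const_mul L
      rw [mul_zero] at h2
      refine squeeze_zero_norm' ?_ h2
      filter_upwards [mainX, hmass1, hl.eventually_ge_atTop 1, eventually_ge_atTop 1] with N v1 v2 v3 v4
      have hN0 : (0 : ℝ) < N := by exact_mod_cast v4
      have h6 : 0 < s1 N := lt_of_lt_of_le (by positivity) v2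
      have h7 : (1 : ℝ) ≤ Real.log N ^ k := one_le_pow₀ v3
      rw [Real.norm_eq_abs]
      have e1 : X N / s1 N - 1 = (X N - s1 N) / s1 N := by field_simp
      rw [e1, abs_div, abs_of_pos h6, ← mul_div_assoc]
      refine div_le_div_of_nonneg_right (v1.trans ?_) h6.le
      have : L * (N : ℝ) ^ ((3 : ℝ) / 4) * 1 ≤ L * (N : ℝ) ^ ((3 : ℝ) / 4) * Real.log N ^ k :=
        mul_le_mul_of_nonneg_left h7 (by positivity)
      linarith
    have h3 := h1.add_const 1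
    simp only [sub_add_cancel, zero_add] at h3
    exact h3
  have hpos : ∀ᶠ N : ℕ in atTop, 0 < s1 N := by
    filter_upwards [hmass1, hl.eventually_gt_atTop 0, eventually_ge_atTop 1] with N h2 h3 h4
    have hN0 : (0 : ℝ) < N := by exact_mod_cast h4
    exact lt_of_lt_of_le (by positivity) h2
  have conv : ∀ {T : ℕ → ℝ} {l : ℝ}, Tendsto (fun N : ℕ => T N / s1 N) atTop (𝓝 l) →
      Tendsto (fun N : ℕ => T N / X N) atTop (𝓝 l) := by
    intro T l hT
    have h1 := hT.div hXs one_ne_zero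
    rw [div_one] at h1
    refine h1.congr' ?_
    filter_upwards [hpos] with N h2
    simp only [Pi.div_apply]
    rw [div_div_div_cancel_right₀ h2.ne']
  have hDs : Tendsto (fun N : ℕ => D N * Real.log N ^ k / s1 N) atTop (𝓝 (-(κ / 2))) := by
    have h1 : Tendsto (fun N : ℕ => (D N + 1 / 2 * s2 N) * Real.log N ^ k / s1 N) atTop (𝓝 0) := by
      have h2 := ((z1.add z3).add z2).const_mul C1
      simp only [add_zero, mul_zero] at h2
      refine squeeze_zero_norm' ?_ h2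
      filter_upwards [main, hpos, hl.eventually_gt_atTop 0] with N v1 v2 v3
      rw [Real.norm_eq_abs, abs_div, abs_mul, abs_of_pos v2, abs_of_pos (pow_pos v3 k)]
      calc |D N + 1 / 2 * s2 N| * Real.log N ^ k / s1 N
          ≤ C1 * ((N : ℝ) ^ ((3 : ℝ) / 4) + s3 N + 1) * Real.log N ^ k / s1 N := by
            refine div_le_div_of_nonneg_right (mul_le_mul_of_nonneg_right v1 (by positivity)) v2.le
        _ = _ := by ring
    have h3 := h1.sub (r1.const_mul (1 / 2))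
    have e1 : (0 : ℝ) - 1 / 2 * κ = -(κ / 2) := by ring
    rw [e1] at h3
    refine h3.congr (fun N => ?_)
    ring
  have hYs : Tendsto (fun N : ℕ => Y N * Real.log N ^ k / s1 N) atTop (𝓝 0) := by
    have h2 := (z1.const_mul L).add (z2.const_mul (2 * B + B * V))
    simp only [mul_zero, add_zero] at h2
    refine squeeze_zero_norm' ?_ h2
    filter_upwards [mainY, hpos, hl.eventually_gt_atTop 0] with N v1 v2 v3
    rw [Real.norm_eq_abs, abs_div, abs_mul, abs_of_pos v2, abs_of_pos (pow_pos v3 k)]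
    calc |Y N| * Real.log N ^ k / s1 N
        ≤ (L * (N : ℝ) ^ ((3 : ℝ) / 4) + (2 * B + B * V)) * Real.log N ^ k / s1 N := by
          refine div_le_div_of_nonneg_right (mul_le_mul_of_nonneg_right v1 (by positivity)) v2.le
      _ = _ := by ring
  rw [hX, hD, hY] at *
  exact ⟨conv hDs, conv hYs, conv z2⟩

end Pool.Agent.Q120.GM
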