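import Pool.Agent.Q120.GM.LO4

/-!
# Residues modulo 4 of consecutive elements
-/

set_option autoImplicit false

namespace Pool.Agent.Q120.GM

open Finset MeasureTheory ProbabilityTheory Filter Pool.Agent.Q120.AD
open scoped Topology

/-- `m` is the next element of `S` after the element `n`. -/
def Next (S : Set ℕ) (n m : ℕ) : Prop := n < m ∧ n ∈ S ∧ m ∈ S ∧ ∀ c, n < c → c < m → c ∉ S

/-- The number of the `n ≤ x` in `S` with `n ≡ a` modulo `4`. -/
noncomputable def classCount (S : Set ℕ) (a x : ℕ) : ℕ := Set.ncard {n : ℕ | n ≤ x ∧ n ∈ S ∧ n % 4 = a}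

/-- The number of the `n ≤ x` in `S` with `n ≡ a` such that the next element is `≡ b` modulo `4`. -/
noncomputable def pairCount (S : Set ℕ) (a b x : ℕ) : ℕ :=
  Set.ncard {n : ℕ | n ≤ x ∧ n ∈ S ∧ n % 4 = a ∧ ∃ m, Next S n m ∧ m % 4 = b}

theorem Next.fst {S : Set ℕ} {n m m' : ℕ} (h : Next S n m) (h' : Next S n m') : m = m' := by
  rcases lt_trichotomy m m' with h1 | h1 | h1
  · exact absurd h.2.2.1 (h'.2.2.2 m h.1 h1)
  · exact h1
  · exact absurd h'.2.2.1 (h.2.2.2 m' h'.1 h1)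

theorem Next.snd {S : Set ℕ} {n n' m : ℕ} (h : Next S n m) (h' : Next S n' m) : n = n' := by
  rcases lt_trichotomy n n' with h1 | h1 | h1
  · exact absurd h'.2.1 (h.2.2.2 n' h1 h'.1)
  · exact h1
  · exact absurd h.2.1 (h'.2.2.2 n h1 h.1)

/-- The signs of the classes. -/
def sg (a : ℕ) : ℝ := if a = 1 then 1 else -1

section Det

variable {S : Set ℕ} {f : ℕ → ℝ}

theorem UU_next {n m : ℕ} (h : Next S n m) : UU f S m = f n := by
  obtain ⟨h1, h2, h3, h4⟩ := h
  obtain ⟨j, rfl⟩ : ∃ j, m = n + 1 + j := ⟨m - (n + 1), by omega⟩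
  clear h3 h1
  induction j with
  | zero => exact UU_mem h2
  | succ j ih =>
    rw [show n + 1 + (j + 1) = (n + 1 + j) + 1 by ring, UU_notMem (h4 (n + 1 + j) (by omega) (by omega))]
    exact ih (fun c hc1 hc2 => h4 c hc1 (by omega))

theorem UU_prev {m : ℕ} (h : UU f S m ≠ 0) : ∃ n, n < m ∧ n ∈ S ∧ (∀ c, n < c → c < m → c ∉ S) ∧ UU f S m = f n := by
  induction m with
  | zero => exact absurd rfl h
  | succ m ih =>
    by_cases hm : m ∈ S
    · exact ⟨m, by omega, hm, fun c hc1 hc2 => by omega, UU_mem hm⟩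
    · rw [UU_notMem hm] at h ⊢
      obtain ⟨n, h1, h2, h3, h4⟩ := ih h
      refine ⟨n, by omega, h2, fun c hc1 hc2 => ?_, h4⟩
      rcases Nat.lt_or_ge c m with h5 | h5
      · exact h3 c hc1 h5
      · have : c = m := by omega
        rw [this]
        exact hm

/-- At most one element has no predecessor. -/
theorem first_le (hS : ∀ n ∈ S, f n ≠ 0) (N : ℕ) :
    ∑ m ∈ range N, xx S m * (if UU f S m = 0 then (1 : ℝ) else 0) ≤ if UU f S N = 0 then 0 else 1 := by
  induction N with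
  | zero =>
    rw [range_zero, sum_empty]
    split_ifs <;> norm_num
  | succ N ih =>
    rw [sum_range_succ]
    by_cases hN : N ∈ S
    · rw [UU_mem hN, if_neg (hS N hN), xx_mem hN, one_mul]
      by_cases h0 : UU f S N = 0
      · rw [if_pos h0] at ih ⊢
        linarith
      · rw [if_neg h0] at ih ⊢
        linarith
    · rw [UU_notMem hN, xx_notMem hN, zero_mul, add_zero]
      exact ih

/-- The count of the pairs by the second element. -/
theorem back_count (hS : ∀ n ∈ S, (n % 4 = 1 ∧ f n = 1) ∨ (n % 4 = 3 ∧ f n = -1)) (hf : ∀ m, f m = 0 ∨ f m = 1 ∨ f m = -1)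
    {a b : ℕ} (ha : a = 1 ∨ a = 3) (hb : b = 1 ∨ b = 3) (N : ℕ) :
    |4 * ((Set.ncard {m : ℕ | m < N ∧ m ∈ S ∧ m % 4 = b ∧ UU f S m = sg a} : ℕ) : ℝ) -
      (∑ m ∈ range N, xx S m + sg a * sg b * ∑ m ∈ range N, xx S m * (f m * UU f S m))| ≤
      2 * |∑ m ∈ range N, f m * xx S m| + 3 := by
  classical
  have hS0 : ∀ n ∈ S, f n ≠ 0 := by
    intro n hn
    rcases hS n hn with h | h <;> rw [h.2] <;> norm_num
  have hsa : sg a = 1 ∨ sg a = -1 := by
    unfold sg
    split_ifs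
    · exact Or.inl rfl
    · exact Or.inr rfl
  have hsb : sg b = 1 ∨ sg b = -1 := by
    unfold sg
    split_ifs
    · exact Or.inl rfl
    · exact Or.inr rfl
  have h1 : {m : ℕ | m < N ∧ m ∈ S ∧ m % 4 = b ∧ UU f S m = sg a} =
      (((range N).filter (fun m => m ∈ S ∧ m % 4 = b ∧ UU f S m = sg a) : Finset ℕ) : Set ℕ) := by
    ext m
    rw [Finset.coe_filter, Set.mem_setOf_eq, Set.mem_setOf_eq, mem_range]
  have h2 : ((Set.ncard {m : ℕ | m < N ∧ m ∈ S ∧ m % 4 = b ∧ UU f S m = sg a} : ℕ) : ℝ) =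
      ∑ m ∈ range N, if (m ∈ S ∧ m % 4 = b ∧ UU f S m = sg a) then (1 : ℝ) else 0 := by
    rw [h1, Set.ncard_coe_finset, card_filter]
    push_cast
    rfl
  -- termwise
  have h3 : ∀ m, 4 * (if (m ∈ S ∧ m % 4 = b ∧ UU f S m = sg a) then (1 : ℝ) else 0) =
      xx S m * (1 + sg b * f m) * (1 + sg a * UU f S m) -
        xx S m * (1 + sg b * f m) * (if UU f S m = 0 then (1 : ℝ) else 0) := by
    intro m
    by_cases hm : m ∈ S
    · rw [xx_mem hm]
      have e1 : (1 : ℝ) * (1 + sg b * f m) = if m % 4 = b then 2 else 0 := by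
        rcases hS m hm with h | h <;> rcases hb with h' | h' <;> rw [h.2, h'] <;> unfold sg <;> rw [h.1] <;> norm_num
      rw [e1]
      by_cases hb' : m % 4 = b
      · rw [if_pos hb']
        rcases UU_cases hf S m with h | h | h
        · rw [h, if_pos rfl, if_neg]
          · ring
          · rintro ⟨_, _, h4⟩
            rcases hsa with h5 | h5 <;> rw [h5] at h4 <;> norm_num at h4
        · rw [h, if_neg (show ¬ ((1 : ℝ) = 0) by norm_num)]
          rcases hsa with h5 | h5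
          · rw [h5, if_pos ⟨hm, hb', rfl⟩]; ring
          · rw [h5, if_neg (fun h6 => by have := h6.2.2; norm_num at this)]; ring
        · rw [h, if_neg (show ¬ ((-1 : ℝ) = 0) by norm_num)]
          rcases hsa with h5 | h5
          · rw [h5, if_neg (fun h6 => by have := h6.2.2; norm_num at this)]; ring
          · rw [h5, if_pos ⟨hm, hb', rfl⟩]; ring
      · rw [if_neg hb', if_neg (fun h6 => hb' h6.2.1)]
        ring
    · rw [xx_notMem hm, if_neg (fun h6 => hm h6.1)]
      ring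
  obtain ⟨X, hX⟩ : ∃ X, X = ∑ m ∈ range N, xx S m := ⟨_, rfl⟩
  obtain ⟨D, hD⟩ : ∃ D, D = ∑ m ∈ range N, xx S m * (f m * UU f S m) := ⟨_, rfl⟩
  obtain ⟨Y, hY⟩ : ∃ Y, Y = ∑ m ∈ range N, f m * xx S m := ⟨_, rfl⟩
  obtain ⟨Z, hZ⟩ : ∃ Z, Z = ∑ m ∈ range N, xx S m * UU f S m := ⟨_, rfl⟩
  obtain ⟨E, hE⟩ : ∃ E, E = ∑ m ∈ range N, xx S m * (1 + sg b * f m) * (if UU f S m = 0 then (1 : ℝ) else 0) := ⟨_, rfl⟩
  have h4 : 4 * ((Set.ncard {m : ℕ | m < N ∧ m ∈ S ∧ m % 4 = b ∧ UU f S m = sg a} : ℕ) : ℝ) =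
      X + sg b * Y + sg a * Z + sg a * sg b * D - E := by
    rw [h2, mul_sum, hX, hD, hY, hZ, hE, mul_sum, mul_sum, mul_sum, ← sum_add_distrib, ← sum_add_distrib,
      ← sum_add_distrib, ← sum_sub_distrib]
    refine sum_congr rfl (fun m _ => ?_)
    rw [h3]
    ring
  have hU1 : |UU f S N| ≤ 1 := by rcases UU_cases hf S N with h | h | h <;> rw [h] <;> norm_num
  have h5 : |Z - Y| ≤ 1 := by
    have e1 : ∀ N, ∑ m ∈ range N, xx S m * UU f S m - ∑ m ∈ range N, f m * xx S m = -UU f S N := by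
      intro N
      induction N with
      | zero =>
        simp only [range_zero, sum_empty, sub_zero]
        change (0 : ℝ) = -0
        norm_num
      | succ N ih =>
        rw [sum_range_succ, sum_range_succ, UU_succ]
        linarith
    rw [hZ, hY, e1, abs_neg]
    exact hU1
  have h6 : 0 ≤ E ∧ E ≤ 2 := by
    have e2 : ∀ m, 0 ≤ xx S m := by
      intro m
      rcases xx_cases S m with h | h <;> rw [h]
      norm_num
    have e3 : ∀ m, 0 ≤ 1 + sg b * f m ∧ 1 + sg b * f m ≤ 2 := by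
      intro m
      rcases hf m with h | h | h <;> rcases hsb with h' | h' <;> rw [h, h'] <;> norm_num
    have e4 : ∀ m, (0 : ℝ) ≤ if UU f S m = 0 then (1 : ℝ) else 0 := by
      intro m
      split_ifs <;> norm_num
    constructor
    · rw [hE]
      exact sum_nonneg (fun m _ => mul_nonneg (mul_nonneg (e2 m) (e3 m).1) (e4 m))
    · have e5 : E ≤ 2 * ∑ m ∈ range N, xx S m * (if UU f S m = 0 then (1 : ℝ) else 0) := by
        rw [hE, mul_sum]
        refine sum_le_sum (fun m _ => ?_)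
        have := mul_le_mul_of_nonneg_right (mul_le_mul_of_nonneg_left (e3 m).2 (e2 m)) (e4 m)
        linarith
      have e6 := first_le hS0 N
      have e7 : (if UU f S N = 0 then (0 : ℝ) else 1) ≤ 1 := by split_ifs <;> norm_num
      linarith
  rw [h4, ← hX, ← hD, ← hY]
  have h7 : X + sg b * Y + sg a * Z + sg a * sg b * D - E - (X + sg a * sg b * D) =
      (sg b + sg a) * Y + sg a * (Z - Y) - E := by ring
  rw [h7]
  have h8 := abs_le.1 h5
  have h9 := neg_abs_le Y
  have h10 := le_abs_self Y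
  have h11 := abs_nonneg Y
  rw [abs_le]
  rcases hsa with h | h <;> rcases hsb with h' | h' <;> rw [h, h'] <;> constructor <;> linarith [h8.1, h8.2, h6.1, h6.2]

/-- The counts by the first and by the second element differ by at most one. -/
theorem pair_back (hS : ∀ n ∈ S, (n % 4 = 1 ∧ f n = 1) ∨ (n % 4 = 3 ∧ f n = -1))
    {a b : ℕ} (ha : a = 1 ∨ a = 3) (x : ℕ) :
    |((pairCount S a b x : ℕ) : ℝ) - ((Set.ncard {m : ℕ | m < x + 1 ∧ m ∈ S ∧ m % 4 = b ∧ UU f S m = sg a} : ℕ) : ℝ)| ≤ 1 := by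
  classical
  have hcl : ∀ n ∈ S, (n % 4 = a ↔ f n = sg a) := by
    intro n hn
    rcases hS n hn with h | h <;> rcases ha with h' | h' <;> rw [h.1, h.2, h'] <;> unfold sg <;> norm_num
  have hsa : sg a ≠ 0 := by
    unfold sg
    split_ifs <;> norm_num
  obtain ⟨Fw, hFw⟩ : ∃ Fw : Finset ℕ, Fw = (range (x + 1)).filter (fun n => n ∈ S ∧ n % 4 = a ∧ ∃ m, Next S n m ∧ m % 4 = b) := ⟨_, rfl⟩
  obtain ⟨Bw, hBw⟩ : ∃ Bw : Finset ℕ, Bw = (range (x + 1)).filter (fun m => m ∈ S ∧ m % 4 = b ∧ UU f S m = sg a) := ⟨_, rfl⟩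
  have e1 : pairCount S a b x = Fw.card := by
    unfold pairCount
    have : {n : ℕ | n ≤ x ∧ n ∈ S ∧ n % 4 = a ∧ ∃ m, Next S n m ∧ m % 4 = b} = (Fw : Set ℕ) := by
      ext m
      rw [hFw, Finset.coe_filter, Set.mem_setOf_eq, Set.mem_setOf_eq, mem_range, Nat.lt_succ_iff]
    rw [this, Set.ncard_coe_finset]
  have e2 : Set.ncard {m : ℕ | m < x + 1 ∧ m ∈ S ∧ m % 4 = b ∧ UU f S m = sg a} = Bw.card := by
    have : {m : ℕ | m < x + 1 ∧ m ∈ S ∧ m % 4 = b ∧ UU f S m = sg a} = (Bw : Set ℕ) := by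
      ext m
      rw [hBw, Finset.coe_filter, Set.mem_setOf_eq, Set.mem_setOf_eq, mem_range]
    rw [this, Set.ncard_coe_finset]
  rw [e1, e2]
  have hBw1 : ∀ m ∈ Bw, ∃ n, Next S n m ∧ n % 4 = a := by
    intro m hm
    rw [hBw, mem_filter] at hm
    obtain ⟨n, h1, h2, h3, h4⟩ := UU_prev (f := f) (S := S) (m := m) (by rw [hm.2.2.2]; exact hsa)
    refine ⟨n, ⟨h1, h2, hm.2.1, h3⟩, ?_⟩
    rw [hcl n h2, ← h4]
    exact hm.2.2.2
  have c1 : Bw.card ≤ Fw.card := by
    choose! g hg using hBw1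
    refine card_le_card_of_injOn g (fun m hm => ?_) (fun m hm m' hm' hmm => ?_)
    · have h1 := hg m hm
      rw [mem_coe, hBw, mem_filter, mem_range] at hm
      rw [mem_coe, hFw, mem_filter, mem_range]
      exact ⟨by have := h1.1.1; omega, h1.1.2.1, h1.2, m, h1.1, hm.2.2.1⟩
    · have h1 := (hg m hm).1
      have h2 := (hg m' hm').1
      rw [← hmm] at h2
      exact h1.fst h2
  have c2 : Fw.card ≤ Bw.card + 1 := by
    rw [← card_filter_add_card_filter_not (s := Fw) (fun n => ∃ m, m ≤ x ∧ Next S n m)]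
    refine Nat.add_le_add ?_ ?_
    · have hF1 : ∀ n ∈ Fw.filter (fun n => ∃ m, m ≤ x ∧ Next S n m), ∃ m, m ≤ x ∧ Next S n m := fun n hn => (mem_filter.1 hn).2
      choose! g hg using hF1
      refine card_le_card_of_injOn g (fun n hn => ?_) (fun n hn n' hn' hnn => ?_)
      · have h1 := hg n hn
        rw [mem_coe, mem_filter, hFw, mem_filter, mem_range] at hn
        obtain ⟨m, h2, h3⟩ := hn.1.2.2.2
        have h4 := h1.2.fst h2
        rw [mem_coe, hBw, mem_filter, mem_range]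
        refine ⟨by omega, h1.2.2.2.1, by rw [h4]; exact h3, ?_⟩
        rw [UU_next h1.2, ← hcl n hn.1.2.1]
        exact hn.1.2.2.1
      · have h1 := (hg n hn).2
        have h2 := (hg n' hn').2
        rw [← hnn] at h2
        exact h1.snd h2
    · rw [card_le_one]
      intro n hn n' hn'
      rw [mem_filter, hFw, mem_filter, mem_range] at hn hn'
      obtain ⟨m, h2, _⟩ := hn.1.2.2.2
      obtain ⟨m', h2', _⟩ := hn'.1.2.2.2
      rcases lt_trichotomy n n' with h | h | h
      · exfalso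
        refine hn.2 ⟨m, ?_, h2⟩
        by_contra hcon
        exact h2.2.2.2 n' h (by omega) h2'.2.1
      · exact h
      · exfalso
        refine hn'.2 ⟨m', ?_, h2'⟩
        by_contra hcon
        exact h2'.2.2.2 n h (by omega) h2.2.1
  have c1' : (Bw.card : ℝ) ≤ Fw.card := by exact_mod_cast c1
  have c2' : (Fw.card : ℝ) ≤ Bw.card + 1 := by exact_mod_cast c2
  rw [abs_le]
  constructor <;> linarith

theorem class_eq (hS : ∀ n ∈ S, (n % 4 = 1 ∧ f n = 1) ∨ (n % 4 = 3 ∧ f n = -1)) {a : ℕ} (ha : a = 1 ∨ a = 3) (x : ℕ) :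
    2 * (classCount S a x : ℝ) = ∑ m ∈ range (x + 1), xx S m + sg a * ∑ m ∈ range (x + 1), f m * xx S m := by
  classical
  unfold classCount
  have h1 : {n : ℕ | n ≤ x ∧ n ∈ S ∧ n % 4 = a} = (((range (x + 1)).filter (fun n => n ∈ S ∧ n % 4 = a) : Finset ℕ) : Set ℕ) := by
    ext m
    rw [Finset.coe_filter, Set.mem_setOf_eq, Set.mem_setOf_eq, mem_range, Nat.lt_succ_iff]
  rw [h1, Set.ncard_coe_finset, card_filter]
  push_cast
  rw [mul_sum, mul_sum, ← sum_add_distrib]
  refine sum_congr rfl (fun m _ => ?_)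
  by_cases hm : m ∈ S
  · rw [xx_mem hm]
    rcases hS m hm with h | h <;> rcases ha with h' | h' <;> rw [h.1, h.2, h'] <;> unfold sg <;> norm_num [hm]
  · rw [xx_notMem hm, if_neg (fun h => hm h.1)]
    ring

/-- **The law of the residues of consecutive elements.** -/
theorem residues (hS : ∀ n ∈ S, (n % 4 = 1 ∧ f n = 1) ∨ (n % 4 = 3 ∧ f n = -1)) (hf : ∀ m, f m = 0 ∨ f m = 1 ∨ f m = -1)
    {k : ℕ} {κ : ℝ} (hκ : 0 < κ)
    (hD : Tendsto (fun N : ℕ => (∑ m ∈ range N, xx S m * (f m * UU f S m)) * Real.log N ^ k / ∑ m ∈ range N, xx S m)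
      atTop (𝓝 (-(κ / 2))))
    (hY : Tendsto (fun N : ℕ => (∑ m ∈ range N, f m * xx S m) * Real.log N ^ k / ∑ m ∈ range N, xx S m) atTop (𝓝 0))
    (hX : Tendsto (fun N : ℕ => Real.log N ^ k / ∑ m ∈ range N, xx S m) atTop (𝓝 0))
    {a b : ℕ} (ha : a = 1 ∨ a = 3) (hb : b = 1 ∨ b = 3) :
    Tendsto (fun x : ℕ => ((pairCount S a b x : ℝ) / classCount S a x - 1 / 2) * Real.log x ^ k) atTop
      (𝓝 (-(sg a * sg b * (κ / 4)))) := by
  classical
  have hshift : Tendsto (fun x : ℕ => x + 1) atTop atTop := tendsto_add_atTop_nat 1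
  obtain ⟨X, hXd⟩ : ∃ X : ℕ → ℝ, X = fun x => ∑ m ∈ range (x + 1), xx S m := ⟨_, rfl⟩
  obtain ⟨D, hDd⟩ : ∃ D : ℕ → ℝ, D = fun x => ∑ m ∈ range (x + 1), xx S m * (f m * UU f S m) := ⟨_, rfl⟩
  obtain ⟨Y, hYd⟩ : ∃ Y : ℕ → ℝ, Y = fun x => ∑ m ∈ range (x + 1), f m * xx S m := ⟨_, rfl⟩
  obtain ⟨l, hld⟩ : ∃ l : ℕ → ℝ, l = fun x : ℕ => Real.log ((x + 1 : ℕ) : ℝ) ^ k := ⟨_, rfl⟩
  have hD' : Tendsto (fun x => D x * l x / X x) atTop (𝓝 (-(κ / 2))) := by
    rw [hDd, hXd, hld]
    exact hD.comp hshift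
  have hY' : Tendsto (fun x => Y x * l x / X x) atTop (𝓝 0) := by
    rw [hYd, hXd, hld]
    exact hY.comp hshift
  have hX' : Tendsto (fun x => l x / X x) atTop (𝓝 0) := by
    rw [hXd, hld]
    exact hX.comp hshift
  have hXn : ∀ x, 0 ≤ X x := by
    intro x
    rw [hXd]
    refine sum_nonneg (fun m _ => ?_)
    rcases xx_cases S m with h | h <;> rw [h]
    norm_num
  have hl1 : ∀ᶠ x : ℕ in atTop, 1 ≤ l x := by
    filter_upwards [hl.comp hshift |>.eventually_ge_atTop 1] with x hx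
    rw [hld]
    exact one_le_pow₀ hx
  have hXpos : ∀ᶠ x : ℕ in atTop, 0 < X x := by
    -- otherwise the first limit would vanish; we use the monotonicity
    by_contra hcon
    rw [not_eventually] at hcon
    have h0 : ∀ x, X x = 0 := by
      intro x
      obtain ⟨y, hy1, hy2⟩ := (frequently_atTop.1 hcon) x
      have h1 : X x ≤ X y := by
        rw [hXd]
        refine sum_le_sum_of_subset_of_nonneg (range_mono (by omega)) (fun m _ _ => ?_)
        rcases xx_cases S m with h | h <;> rw [h]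
        norm_num
      linarith [hXn x, not_lt.1 hy2]
    have h1 : (fun x => D x * l x / X x) = fun _ => (0 : ℝ) := by
      funext x
      rw [h0, div_zero]
    rw [h1] at hD'
    have h2 := tendsto_nhds_unique hD' tendsto_const_nhds
    linarith
  have hLl : Tendsto (fun x : ℕ => Real.log x ^ k / l x) atTop (𝓝 1) := by
    have h1 : Tendsto (fun x : ℕ => Real.log x / Real.log ((x + 1 : ℕ) : ℝ)) atTop (𝓝 1) := by
      have h2 : Tendsto (fun x : ℕ => 1 - 1 / Real.log ((x + 1 : ℕ) : ℝ)) atTop (𝓝 (1 - 0)) :=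
        (tendsto_const_nhds.div_atTop (hl.comp hshift)).const_sub 1
      rw [sub_zero] at h2
      refine tendsto_of_tendsto_of_tendsto_of_le_of_le' h2 tendsto_const_nhds ?_ ?_
      · filter_upwards [eventually_ge_atTop 1, (hl.comp hshift).eventually_gt_atTop 0] with x hx hx2
        have hx0 : (0 : ℝ) < x := by exact_mod_cast hx
        have hx3 : 0 < Real.log ((x + 1 : ℕ) : ℝ) := hx2
        rw [le_div_iff₀ hx3, sub_mul, one_mul, div_mul_cancel₀ _ hx3.ne']
        have h3 : Real.log ((x + 1 : ℕ) : ℝ) - Real.log x ≤ 1 := by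
          rw [← Real.log_div (by positivity) hx0.ne']
          refine (Real.log_le_sub_one_of_pos (by positivity)).trans ?_
          push_cast
          rw [add_div, div_self hx0.ne']
          have : 1 / (x : ℝ) ≤ 1 := by
            rw [div_le_one hx0]
            exact_mod_cast hx
          linarith
        linarith
      · filter_upwards [eventually_ge_atTop 1, (hl.comp hshift).eventually_gt_atTop 0] with x hx hx2
        have hx0 : (0 : ℝ) < x := by exact_mod_cast hx
        have hx3 : 0 < Real.log ((x + 1 : ℕ) : ℝ) := hx2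
        rw [div_le_one hx3]
        exact Real.log_le_log hx0 (by push_cast; linarith)
    have h2 := h1.pow k
    rw [one_pow] at h2
    refine h2.congr (fun x => ?_)
    rw [hld]
    simp only [div_pow]
  have hYX : Tendsto (fun x => Y x / X x) atTop (𝓝 0) := by
    have h0 := hY'.norm
    rw [norm_zero] at h0
    refine squeeze_zero_norm' ?_ h0
    filter_upwards [hl1, hXpos] with x h1 h2
    rw [Real.norm_eq_abs, Real.norm_eq_abs, abs_div, abs_div, abs_mul]
    refine div_le_div_of_nonneg_right ?_ (abs_nonneg _)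
    refine le_mul_of_one_le_right (abs_nonneg _) ?_
    rw [abs_of_nonneg (by linarith)]
    exact h1
  obtain ⟨P, hP⟩ : ∃ P : ℕ → ℝ, P = fun x => (pairCount S a b x : ℝ) := ⟨_, rfl⟩
  obtain ⟨C, hC⟩ : ∃ C : ℕ → ℝ, C = fun x => (classCount S a x : ℝ) := ⟨_, rfl⟩
  have hC2 : ∀ x, 2 * C x = X x + sg a * Y x := by
    intro x
    rw [hC, hXd, hYd]
    exact class_eq hS ha x
  obtain ⟨E, hE⟩ : ∃ E : ℕ → ℝ, E = fun x => 4 * P x - (X x + sg a * sg b * D x) - sg a * Y x := ⟨_, rfl⟩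
  have hsa : |sg a| = 1 := by
    unfold sg
    split_ifs <;> norm_num
  have hEb : ∀ x, |E x| ≤ 3 * |Y x| + 7 := by
    intro x
    have h1 := back_count hS hf ha hb (x + 1)
    have h2 := pair_back (b := b) hS ha x
    have h3 : |sg a * Y x| = |Y x| := by rw [abs_mul, hsa, one_mul]
    have h4 := abs_le.1 h1
    have h5 := abs_le.1 h2
    have h6 := neg_abs_le (sg a * Y x)
    have h7 := le_abs_self (sg a * Y x)
    rw [h3] at h6 h7
    rw [hE, hP, hXd, hDd]
    simp only
    rw [hYd] at h6 h7 ⊢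
    simp only at h6 h7 ⊢
    rw [abs_le]
    constructor <;> linarith [h4.1, h4.2, h5.1, h5.2]
  have hEX : Tendsto (fun x => E x * l x / X x) atTop (𝓝 0) := by
    have h1 : Tendsto (fun x => 3 * ‖Y x * l x / X x‖ + 7 * (l x / X x)) atTop (𝓝 0) := by
      have h2 := (hY'.norm.const_mul 3).add (hX'.const_mul 7)
      simpa using h2
    refine squeeze_zero_norm' ?_ h1
    filter_upwards [hl1, hXpos] with x h2 h3
    rw [Real.norm_eq_abs, Real.norm_eq_abs, abs_div, abs_div, abs_mul, abs_mul, abs_of_pos h3,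
      abs_of_nonneg (by linarith : 0 ≤ l x)]
    have h4 : |E x| * l x ≤ (3 * |Y x| + 7) * l x := mul_le_mul_of_nonneg_right (hEb x) (by linarith)
    calc |E x| * l x / X x ≤ (3 * |Y x| + 7) * l x / X x := div_le_div_of_nonneg_right h4 h3.le
      _ = 3 * (|Y x| * l x / X x) + 7 * (l x / X x) := by ring
  have hfin : Tendsto (fun x => (sg a * sg b * (D x * l x / X x) + E x * l x / X x) / (2 * (1 + sg a * (Y x / X x))) *
      (Real.log x ^ k / l x)) atTop (𝓝 ((sg a * sg b * (-(κ / 2)) + 0) / (2 * (1 + sg a * 0)) * 1)) := by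
    refine Tendsto.mul (Tendsto.div ((hD'.const_mul _).add hEX) (((hYX.const_mul _).const_add 1).const_mul 2) ?_) hLl
    norm_num
  have e1 : (sg a * sg b * (-(κ / 2)) + 0) / (2 * (1 + sg a * 0)) * 1 = -(sg a * sg b * (κ / 4)) := by
    rw [mul_zero, add_zero, add_zero]
    ring
  rw [e1] at hfin
  refine hfin.congr' ?_
  have hCpos : ∀ᶠ x in atTop, 0 < 1 + sg a * (Y x / X x) := by
    have h1 := (hYX.const_mul (sg a)).const_add 1
    rw [mul_zero, add_zero] at h1
    exact h1.eventually_const_lt zero_lt_one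
  filter_upwards [hl1, hXpos, hCpos] with x h1 h2 h3
  have h4 : 0 < l x := by linarith
  have h5 : 2 * C x = X x * (1 + sg a * (Y x / X x)) := by
    rw [hC2]
    field_simp
  have h6 : 0 < C x := by
    have : 0 < 2 * C x := by rw [h5]; positivity
    linarith
  have h7 : (pairCount S a b x : ℝ) / classCount S a x - 1 / 2 = (sg a * sg b * D x + E x) / (4 * C x) := by
    have e2 : (pairCount S a b x : ℝ) = P x := by rw [hP]
    have e3 : (classCount S a x : ℝ) = C x := by rw [hC]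
    rw [e2, e3]
    have e4 : sg a * sg b * D x + E x = 4 * P x - 2 * C x := by
      rw [hE, hC2]
      ring
    rw [e4]
    field_simp
    ring
  rw [h7]
  have h8 : 4 * C x = 2 * (X x * (1 + sg a * (Y x / X x))) := by linarith
  rw [h8]
  obtain ⟨z, hz⟩ : ∃ z, z = 1 + sg a * (Y x / X x) := ⟨_, rfl⟩
  rw [← hz] at h3 ⊢
  field_simp

end Det

end Pool.Agent.Q120.GM
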