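import Pool.Agent.Q120.GM.AP

/-!
# The density of the residue classes for a general modulus
-/

set_option autoImplicit false

namespace Pool.Agent.Q120.GM

open Finset

/-- The product of `p/(p-1)` over the primes dividing `Q` and `d`. -/
noncomputable def kap (Q d : ℕ) : ℝ := ∏ p ∈ Q.primeFactors.filter (fun p => p ∣ d), ((p : ℝ) / (p - 1))

theorem count_mul {P : ℕ → Prop} [DecidablePred P] {R : ℕ} (hP : Function.Periodic P R) (m : ℕ) :
    ((range (m * R)).filter P).card = m * ((range R).filter P).card := by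
  induction m with
  | zero => simp
  | succ m ih =>
    have h0 : range ((m + 1) * R) = range (m * R) ∪ Ico (m * R) (m * R + R) := by
      ext x
      rw [mem_union, mem_range, mem_range, mem_Ico, add_mul, one_mul]
      omega
    have h1 : ((Ico (m * R) (m * R + R)).filter P).card = ((range R).filter P).card := by
      rw [Nat.filter_Ico_card_eq_of_periodic _ _ _ hP, Nat.count_eq_card_filter_range]
    rw [h0, filter_union, card_union_of_disjoint, ih, h1]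
    · ring
    · rw [Finset.disjoint_left]
      intro x hx hx'
      rw [mem_filter, mem_range] at hx
      rw [mem_filter, mem_Ico] at hx'
      omega

theorem prod_primes {s : Finset ℕ} (hs : ∀ p ∈ s, p.Prime) :
    ((Nat.totient (∏ p ∈ s, p) : ℕ) : ℝ) * ∏ p ∈ s, ((p : ℝ) / (p - 1)) = ((∏ p ∈ s, p : ℕ) : ℝ) := by
  have h1 := Nat.totient_eq_mul_prod_factors (∏ p ∈ s, p)
  rw [Nat.primeFactors_prod hs] at h1
  have h2 : ((Nat.totient (∏ p ∈ s, p) : ℕ) : ℝ) = ((∏ p ∈ s, p : ℕ) : ℝ) * ∏ p ∈ s, (1 - (p : ℝ)⁻¹) := by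
    have h3 := congrArg (fun q : ℚ => (q : ℝ)) h1
    push_cast at h3 ⊢
    exact h3
  rw [h2, mul_assoc, ← prod_mul_distrib]
  have h3 : ∏ p ∈ s, ((1 - (p : ℝ)⁻¹) * ((p : ℝ) / (p - 1))) = 1 := by
    refine prod_eq_one (fun p hp => ?_)
    have h4 : (1 : ℝ) < p := by exact_mod_cast (hs p hp).one_lt
    have h5 : (p : ℝ) - 1 ≠ 0 := by linarith
    have h6 : (p : ℝ) ≠ 0 := by linarith
    field_simp
  rw [h3, mul_one]

theorem qq_prod {Q : ℕ} (hQ : 1 ≤ Q) : qq Q = ∏ p ∈ Q.primeFactors, ((p : ℝ) / (p - 1)) := by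
  have h1 := Nat.totient_eq_mul_prod_factors Q
  have h2 : (Nat.totient Q : ℝ) = (Q : ℝ) * ∏ p ∈ Q.primeFactors, (1 - (p : ℝ)⁻¹) := by
    have h3 := congrArg (fun q : ℚ => (q : ℝ)) h1
    push_cast at h3 ⊢
    exact h3
  have h3 : (∏ p ∈ Q.primeFactors, (1 - (p : ℝ)⁻¹)) * ∏ p ∈ Q.primeFactors, ((p : ℝ) / (p - 1)) = 1 := by
    rw [← prod_mul_distrib]
    refine prod_eq_one (fun p hp => ?_)
    have h4 : (1 : ℝ) < p := by exact_mod_cast (Nat.prime_of_mem_primeFactors hp).one_lt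
    have h5 : (p : ℝ) - 1 ≠ 0 := by linarith
    have h6 : (p : ℝ) ≠ 0 := by linarith
    field_simp
  have hQ0 : (0 : ℝ) < Q := by exact_mod_cast hQ
  have h4 : (0 : ℝ) < Nat.totient Q := by exact_mod_cast Nat.totient_pos.2 hQ
  unfold qq
  rw [div_eq_iff h4.ne', h2]
  calc (Q : ℝ) = Q * ((∏ p ∈ Q.primeFactors, (1 - (p : ℝ)⁻¹)) * ∏ p ∈ Q.primeFactors, ((p : ℝ) / (p - 1))) := by rw [h3, mul_one]
    _ = _ := by ring

theorem one_le_kap (Q d : ℕ) : 1 ≤ kap Q d := by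
  unfold kap
  have h1 : ∀ p ∈ Q.primeFactors.filter (fun p => p ∣ d), (1 : ℝ) ≤ (p : ℝ) / (p - 1) := by
    intro p hp
    rw [mem_filter] at hp
    have h4 : (1 : ℝ) < p := by exact_mod_cast (Nat.prime_of_mem_primeFactors hp.1).one_lt
    rw [le_div_iff₀ (by linarith)]
    linarith
  calc (1 : ℝ) = ∏ p ∈ Q.primeFactors.filter (fun p => p ∣ d), 1 := by rw [prod_const_one]
    _ ≤ _ := prod_le_prod (fun _ _ => zero_le_one) h1

theorem kap_pos (Q d : ℕ) : 0 < kap Q d := lt_of_lt_of_le one_pos (one_le_kap Q d)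

theorem kap_gcd (Q d : ℕ) : kap Q d = kap Q (Nat.gcd d Q) := by
  unfold kap
  refine prod_congr ?_ (fun _ _ => rfl)
  refine filter_congr (fun p hp => ?_)
  have h1 : p ∣ Q := Nat.dvd_of_mem_primeFactors hp
  constructor
  · intro h; exact Nat.dvd_gcd h h1
  · intro h; exact h.trans (Nat.gcd_dvd_left _ _)

/-- The radical parts. -/
def rIn (Q d : ℕ) : ℕ := ∏ p ∈ Q.primeFactors.filter (fun p => p ∣ d), p
def rOut (Q d : ℕ) : ℕ := ∏ p ∈ Q.primeFactors.filter (fun p => ¬ p ∣ d), p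

theorem rIn_pos (Q d : ℕ) : 1 ≤ rIn Q d :=
  Nat.one_le_iff_ne_zero.2 (prod_ne_zero_iff.2 (fun p hp => (Nat.prime_of_mem_primeFactors (mem_filter.1 hp).1).ne_zero))

theorem rOut_pos (Q d : ℕ) : 1 ≤ rOut Q d :=
  Nat.one_le_iff_ne_zero.2 (prod_ne_zero_iff.2 (fun p hp => (Nat.prime_of_mem_primeFactors (mem_filter.1 hp).1).ne_zero))

theorem kap_rIn (Q d : ℕ) : (Nat.totient (rIn Q d) : ℝ) * kap Q d = rIn Q d :=
  prod_primes (fun p hp => Nat.prime_of_mem_primeFactors (mem_filter.1 hp).1)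

theorem kap_rOut {Q : ℕ} (hQ : 1 ≤ Q) (d : ℕ) : (Nat.totient (rOut Q d) : ℝ) * qq Q = rOut Q d * kap Q d := by
  have h1 := prod_primes (s := Q.primeFactors.filter (fun p => ¬ p ∣ d))
    (fun p hp => Nat.prime_of_mem_primeFactors (mem_filter.1 hp).1)
  have h2 : qq Q = kap Q d * ∏ p ∈ Q.primeFactors.filter (fun p => ¬ p ∣ d), ((p : ℝ) / (p - 1)) := by
    rw [qq_prod hQ]
    unfold kap
    exact (prod_filter_mul_prod_filter_not _ _ _).symm
  rw [h2]
  unfold rOut at h1 ⊢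
  calc _ = kap Q d * (((Nat.totient (∏ p ∈ Q.primeFactors.filter (fun p => ¬ p ∣ d), p) : ℕ) : ℝ) *
        ∏ p ∈ Q.primeFactors.filter (fun p => ¬ p ∣ d), ((p : ℝ) / (p - 1))) := by ring
    _ = _ := by rw [h1]; ring

theorem kap_le {Q : ℕ} (hQ : 1 ≤ Q) (d : ℕ) : kap Q d ≤ qq Q := by
  have h1 := kap_rOut hQ d
  have h2 : (0 : ℝ) < rOut Q d := by exact_mod_cast rOut_pos Q d
  have h3 : (Nat.totient (rOut Q d) : ℝ) ≤ rOut Q d := by exact_mod_cast Nat.totient_le _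
  have h4 := qq_pos hQ
  have h5 : (rOut Q d : ℝ) * kap Q d ≤ rOut Q d * qq Q := by
    rw [← h1]
    exact mul_le_mul_of_nonneg_right h3 h4.le
  exact le_of_mul_le_mul_left h5 h2

theorem prime_dvd_rIn {Q d p : ℕ} (hp : p.Prime) (hpQ : p ∣ Q) (hQ : 1 ≤ Q) (hpd : p ∣ d) : p ∣ rIn Q d :=
  dvd_prod_of_mem _ (mem_filter.2 ⟨Nat.mem_primeFactors.2 ⟨hp, hpQ, by omega⟩, hpd⟩)

theorem prime_dvd_rOut {Q d p : ℕ} (hp : p.Prime) (hpQ : p ∣ Q) (hQ : 1 ≤ Q) (hpd : ¬ p ∣ d) : p ∣ rOut Q d :=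
  dvd_prod_of_mem _ (mem_filter.2 ⟨Nat.mem_primeFactors.2 ⟨hp, hpQ, by omega⟩, hpd⟩)

theorem of_dvd_rIn {Q d p : ℕ} (hp : p.Prime) (h : p ∣ rIn Q d) : p ∣ Q ∧ p ∣ d := by
  unfold rIn at h
  rw [hp.prime.dvd_finset_prod_iff] at h
  obtain ⟨q, hq, hpq⟩ := h
  rw [mem_filter] at hq
  have h1 : p = q := (Nat.prime_dvd_prime_iff_eq hp (Nat.prime_of_mem_primeFactors hq.1)).1 hpq
  rw [h1]
  exact ⟨Nat.dvd_of_mem_primeFactors hq.1, hq.2⟩

theorem of_dvd_rOut {Q d p : ℕ} (hp : p.Prime) (h : p ∣ rOut Q d) : p ∣ Q ∧ ¬ p ∣ d := by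
  unfold rOut at h
  rw [hp.prime.dvd_finset_prod_iff] at h
  obtain ⟨q, hq, hpq⟩ := h
  rw [mem_filter] at hq
  have h1 : p = q := (Nat.prime_dvd_prime_iff_eq hp (Nat.prime_of_mem_primeFactors hq.1)).1 hpq
  rw [h1]
  exact ⟨Nat.dvd_of_mem_primeFactors hq.1, hq.2⟩

theorem rad_dvd {Q : ℕ} {s : Finset ℕ} (hs : s ⊆ Q.primeFactors) : ∏ p ∈ s, p ∣ Q :=
  (prod_dvd_prod_of_subset _ _ _ hs).trans (Nat.prod_primeFactors_dvd Q)

theorem rIn_dvd {Q : ℕ} (d : ℕ) (hd : 1 ≤ d) : rIn Q d ∣ d := by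
  have h1 : Q.primeFactors.filter (fun p => p ∣ d) ⊆ d.primeFactors := by
    intro p hp
    rw [mem_filter] at hp
    exact Nat.mem_primeFactors.2 ⟨Nat.prime_of_mem_primeFactors hp.1, hp.2, by omega⟩
  exact rad_dvd h1

theorem rOut_dvd (Q d : ℕ) : rOut Q d ∣ Q := rad_dvd (filter_subset _ _)

/-- The density of the classes. -/
theorem dens_kap {Q : ℕ} (hQ : 1 ≤ Q) {a d : ℕ} (ha : a.Coprime (Nat.gcd d Q)) : dens Q a d = kap Q d := by
  have h1 : ∀ m, (a + d * m).Coprime Q ↔ (a + d * m).Coprime (rOut Q d) := by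
    intro m
    constructor
    · intro h
      exact Nat.Coprime.of_dvd_right (rOut_dvd Q d) h
    · intro h
      by_contra hcon
      obtain ⟨p, hp, h2, h3⟩ := Nat.Prime.not_coprime_iff_dvd.1 hcon
      by_cases hpd : p ∣ d
      · have h4 : p ∣ a := (Nat.dvd_add_left (hpd.mul_right m)).1 h2
        exact Nat.Prime.not_coprime_iff_dvd.2 ⟨p, hp, h4, Nat.dvd_gcd hpd h3⟩ ha
      · exact Nat.Prime.not_coprime_iff_dvd.2 ⟨p, hp, h2, prime_dvd_rOut hp h3 hQ hpd⟩ h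
  have hco : d.Coprime (rOut Q d) := by
    by_contra hcon
    obtain ⟨p, hp, h2, h3⟩ := Nat.Prime.not_coprime_iff_dvd.1 hcon
    exact (of_dvd_rOut hp h3).2 h2
  have hR := rOut_pos Q d
  obtain ⟨m, hm⟩ := rOut_dvd Q d
  have h2 : ca Q a d = m * Nat.totient (rOut Q d) := by
    have h3 := dens_one hR (a := a) hco
    have h4 : (0 : ℝ) < Nat.totient (rOut Q d) := by exact_mod_cast Nat.totient_pos.2 hR
    unfold dens at h3
    rw [div_eq_one_iff_eq h4.ne'] at h3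
    have h5 : ca (rOut Q d) a d = Nat.totient (rOut Q d) := by exact_mod_cast h3
    have h6 : ca Q a d = ((range (m * rOut Q d)).filter (fun m => (a + d * m).Coprime (rOut Q d))).card := by
      unfold ca
      rw [mul_comm m, ← hm]
      exact congrArg card (filter_congr (fun x _ => h1 x))
    rw [h6, count_mul (per_ap (rOut Q d) a d), ← h5]
    rfl
  rw [dens_eq hQ, h2]
  have h3 := kap_rOut hQ d
  have hQ0 : (0 : ℝ) < Q := by exact_mod_cast hQ
  have h4 : (Q : ℝ) = rOut Q d * m := by exact_mod_cast hm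
  rw [div_mul_eq_mul_div, div_eq_iff hQ0.ne']
  push_cast
  calc (m : ℝ) * Nat.totient (rOut Q d) * qq Q = m * (Nat.totient (rOut Q d) * qq Q) := by ring
    _ = m * (rOut Q d * kap Q d) := by rw [h3]
    _ = kap Q d * Q := by rw [h4]; ring

/-- The number of the classes. -/
theorem card_classes {Q : ℕ} (hQ : 1 ≤ Q) {d : ℕ} (hd : 1 ≤ d) :
    (((range d).filter (fun a => a.Coprime (Nat.gcd d Q))).card : ℝ) = d / kap Q d := by
  have h1 : ∀ a, a.Coprime (Nat.gcd d Q) ↔ (rIn Q d).Coprime a := by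
    intro a
    rw [Nat.coprime_comm (n := rIn Q d)]
    constructor
    · intro h
      by_contra hcon
      obtain ⟨p, hp, h2, h3⟩ := Nat.Prime.not_coprime_iff_dvd.1 hcon
      have h4 := of_dvd_rIn hp h3
      exact Nat.Prime.not_coprime_iff_dvd.2 ⟨p, hp, h2, Nat.dvd_gcd h4.2 h4.1⟩ h
    · intro h
      by_contra hcon
      obtain ⟨p, hp, h2, h3⟩ := Nat.Prime.not_coprime_iff_dvd.1 hcon
      have h4 := h3.trans (Nat.gcd_dvd_left _ _)
      have h5 := h3.trans (Nat.gcd_dvd_right _ _)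
      exact Nat.Prime.not_coprime_iff_dvd.2 ⟨p, hp, h2, prime_dvd_rIn hp h5 hQ h4⟩ h
  obtain ⟨m, hm⟩ := rIn_dvd (Q := Q) d hd
  have h2 : ((range d).filter (fun a => a.Coprime (Nat.gcd d Q))).card = m * Nat.totient (rIn Q d) := by
    have h3 : ((range d).filter (fun a => a.Coprime (Nat.gcd d Q))).card =
        ((range (m * rIn Q d)).filter (fun a => (rIn Q d).Coprime a)).card := by
      rw [mul_comm m, ← hm]
      exact congrArg card (filter_congr (fun x _ => h1 x))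
    rw [h3, count_mul (Nat.periodic_coprime (rIn Q d))]
    rfl
  rw [h2]
  have h3 := kap_rIn Q d
  have h4 : (d : ℝ) = rIn Q d * m := by exact_mod_cast hm
  rw [eq_div_iff (kap_pos Q d).ne', h4]
  push_cast
  calc (m : ℝ) * Nat.totient (rIn Q d) * kap Q d = m * (Nat.totient (rIn Q d) * kap Q d) := by ring
    _ = _ := by rw [h3]; ring

end Pool.Agent.Q120.GM
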