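import Pool.Agent.Q120.GM.PD1
import Pool.Agent.Q120.GM.Gum3

/-!
# Sums of reciprocals of logarithms along the progressions
-/

set_option autoImplicit false

namespace Pool.Agent.Q120.GM

open Finset Filter
open scoped Topology

theorem T_bounds (M : ℕ) (hM : 1 ≤ M) : (M : ℝ) - 1 - Real.log M ≤ ∑ j ∈ Icc 1 M, (Real.log M - Real.log j) ∧
    ∑ j ∈ Icc 1 M, (Real.log M - Real.log j) ≤ M := by
  induction M, hM using Nat.le_induction with
  | base => simp
  | succ M hM ih =>
    obtain ⟨h1, h2⟩ := ih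
    have hM0 : (0 : ℝ) < M := by exact_mod_cast hM
    have h3 : ∑ j ∈ Icc 1 (M + 1), (Real.log ((M + 1 : ℕ) : ℝ) - Real.log j) =
        ∑ j ∈ Icc 1 M, (Real.log M - Real.log j) + M * (Real.log ((M + 1 : ℕ) : ℝ) - Real.log M) := by
      rw [sum_Icc_succ_top (by omega), sub_self, add_zero]
      have h4 : ∀ j ∈ Icc 1 M, Real.log ((M + 1 : ℕ) : ℝ) - Real.log j =
          (Real.log M - Real.log j) + (Real.log ((M + 1 : ℕ) : ℝ) - Real.log M) := fun j _ => by ring
      rw [sum_congr rfl h4, sum_add_distrib, sum_const, Nat.card_Icc, nsmul_eq_mul, Nat.add_sub_cancel]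
    have hlog : Real.log ((M + 1 : ℕ) : ℝ) - Real.log M = Real.log (((M + 1 : ℕ) : ℝ) / M) := by
      rw [Real.log_div (by positivity) hM0.ne']
    have h5 : Real.log ((M + 1 : ℕ) : ℝ) - Real.log M ≤ 1 / M := by
      rw [hlog]
      have := Real.log_le_sub_one_of_pos (show 0 < ((M + 1 : ℕ) : ℝ) / M by positivity)
      have e : ((M + 1 : ℕ) : ℝ) / M - 1 = 1 / M := by push_cast; field_simp; ring
      linarith
    have h6 : 1 / ((M : ℝ) + 1) ≤ Real.log ((M + 1 : ℕ) : ℝ) - Real.log M := by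
      rw [hlog]
      have := Real.one_sub_inv_le_log_of_pos (show 0 < ((M + 1 : ℕ) : ℝ) / M by positivity)
      have e : 1 - (((M + 1 : ℕ) : ℝ) / M)⁻¹ = 1 / ((M : ℝ) + 1) := by push_cast; field_simp; ring
      linarith
    have h7 : (M : ℝ) * (1 / M) = 1 := by field_simp
    have h8 : (M : ℝ) * (Real.log ((M + 1 : ℕ) : ℝ) - Real.log M) ≤ M * (1 / M) := mul_le_mul_of_nonneg_left h5 hM0.le
    have h9 : (M : ℝ) * (1 / ((M : ℝ) + 1)) ≤ M * (Real.log ((M + 1 : ℕ) : ℝ) - Real.log M) :=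
      mul_le_mul_of_nonneg_left h6 hM0.le
    have h10 : (M : ℝ) * (1 / ((M : ℝ) + 1)) = 1 - 1 / ((M : ℝ) + 1) := by field_simp; ring
    rw [h3]
    constructor
    · push_cast at h6 h8 h9 ⊢
      linarith
    · push_cast at h8 h9 ⊢
      linarith

theorem abel_abs {D g : ℕ → ℝ} {B : ℝ} (hD0 : D 0 = 0) (hD : ∀ j, |D j| ≤ B) (hg : ∀ j, g (j + 1) ≤ g j) (hg0 : ∀ j, 0 ≤ g j)
    (w : ℕ) : |∑ j ∈ range w, (D (j + 1) - D j) * g j| ≤ B * g 0 := by
  have h1 : ∑ j ∈ range w, (D (j + 1) - D j) * g j = D w * g w + ∑ j ∈ range w, D (j + 1) * (g j - g (j + 1)) := by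
    induction w with
    | zero => simp [hD0]
    | succ w ih => rw [sum_range_succ, sum_range_succ, ih]; ring
  have h2 : |∑ j ∈ range w, D (j + 1) * (g j - g (j + 1))| ≤ B * (g 0 - g w) := by
    refine (abs_sum_le_sum_abs _ _).trans ?_
    have h3 : ∀ j ∈ range w, |D (j + 1) * (g j - g (j + 1))| ≤ B * (g j - g (j + 1)) := by
      intro j _
      rw [abs_mul, abs_of_nonneg (by linarith [hg j] : 0 ≤ g j - g (j + 1))]
      exact mul_le_mul_of_nonneg_right (hD _) (by linarith [hg j])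
    refine (sum_le_sum h3).trans (le_of_eq ?_)
    rw [← mul_sum, sum_range_sub']
  rw [h1]
  refine (abs_add_le _ _).trans ?_
  have h4 : |D w * g w| ≤ B * g w := by
    rw [abs_mul, abs_of_nonneg (hg0 w)]
    exact mul_le_mul_of_nonneg_right (hD w) (hg0 w)
  linarith

/-- Sums over a periodic set with decreasing weights. -/
theorem per_weight {Q : ℕ} (hQ : 1 ≤ Q) (P : ℕ → Prop) [DecidablePred P] (hP : Function.Periodic P Q) {g : ℕ → ℝ}
    (hg : ∀ j, g (j + 1) ≤ g j) (hg0 : ∀ j, 0 ≤ g j) (w : ℕ) :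
    |∑ j ∈ range w, (if P j then g j else 0) - (((range Q).filter P).card : ℝ) / Q * ∑ j ∈ range w, g j| ≤ Q * g 0 := by
  obtain ⟨c, hc⟩ : ∃ c : ℝ, c = (((range Q).filter P).card : ℝ) / Q := ⟨_, rfl⟩
  have hQ0 : (0 : ℝ) < Q := by exact_mod_cast hQ
  have hc0 : 0 ≤ c := by rw [hc]; positivity
  have hc1 : c ≤ 1 := by
    rw [hc, div_le_one hQ0]
    exact_mod_cast (card_filter_le _ _).trans (le_of_eq (card_range Q))
  rw [← hc]
  obtain ⟨D, hDd⟩ : ∃ D : ℕ → ℝ, D = fun n => (((range n).filter P).card : ℝ) - c * n := ⟨_, rfl⟩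
  have hD : ∀ n, |D n| ≤ Q := by
    intro n
    have h1 := count_per hQ P hP 0 n
    rw [zero_add, ← hc] at h1
    have h2 : Ico 0 n = range n := by rw [range_eq_Ico]
    rw [h2] at h1
    rw [hDd, abs_le]
    have h3 : (Q : ℝ) * c ≤ Q := by nlinarith
    constructor
    · have := h1.1
      show -(Q : ℝ) ≤ (((range n).filter P).card : ℝ) - c * n
      linarith [show ((n : ℝ) - Q) * c = c * n - Q * c by ring]
    · have := h1.2
      show (((range n).filter P).card : ℝ) - c * n ≤ (Q : ℝ)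
      linarith [show ((n : ℝ) + Q) * c = c * n + Q * c by ring]
  have hstep : ∀ j, D (j + 1) - D j = (if P j then 1 else 0) - c := by
    intro j
    rw [hDd]
    show ((((range (j + 1)).filter P).card : ℝ) - c * ((j + 1 : ℕ) : ℝ)) - ((((range j).filter P).card : ℝ) - c * j) = _
    rw [range_add_one, filter_insert]
    split_ifs with h
    · rw [card_insert_of_notMem (by simp)]
      push_cast
      ring
    · push_cast
      ring
  have h1 := abel_abs (D := D) (g := g) (by rw [hDd]; simp) hD hg hg0 w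
  have h2 : ∑ j ∈ range w, (D (j + 1) - D j) * g j = ∑ j ∈ range w, (if P j then g j else 0) - c * ∑ j ∈ range w, g j := by
    rw [mul_sum, ← sum_sub_distrib]
    refine sum_congr rfl (fun j _ => ?_)
    rw [hstep]
    split_ifs <;> ring
  rw [h2] at h1
  exact h1

/-- The sum of `1/(L + log j)`. -/
noncomputable def H1 (L : ℝ) (M : ℕ) : ℝ := ∑ j ∈ Icc 1 M, 1 / (L + Real.log j)

/-- The sum of the squares. -/
noncomputable def H2 (L : ℝ) (M : ℕ) : ℝ := ∑ j ∈ Icc 1 M, 1 / (L + Real.log j) ^ 2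

theorem H1_bounds {L : ℝ} (hL : 0 < L) {M : ℕ} (hM : 1 ≤ M) :
    (M : ℝ) / (L + Real.log M) + ((M : ℝ) - 1 - Real.log M) / (L + Real.log M) ^ 2 ≤ H1 L M ∧
      H1 L M ≤ M / (L + Real.log M) + M / (L * (L + Real.log M)) := by
  obtain ⟨h1, h2⟩ := T_bounds M hM
  have hlM : 0 ≤ Real.log (M : ℝ) := Real.log_natCast_nonneg M
  have hY : 0 < L + Real.log M := by linarith
  have hterm : ∀ j ∈ Icc 1 M, 1 / (L + Real.log j) = 1 / (L + Real.log M) +
      (Real.log M - Real.log j) / ((L + Real.log j) * (L + Real.log M)) := by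
    intro j hj
    have hj0 : 0 ≤ Real.log (j : ℝ) := Real.log_natCast_nonneg j
    have hj1 : 0 < L + Real.log j := by linarith
    field_simp
    ring
  have hsum : H1 L M = M / (L + Real.log M) + ∑ j ∈ Icc 1 M, (Real.log M - Real.log j) / ((L + Real.log j) * (L + Real.log M)) := by
    unfold H1
    rw [sum_congr rfl hterm, sum_add_distrib, sum_const, Nat.card_Icc, nsmul_eq_mul, Nat.add_sub_cancel]
    ring
  have hd : ∀ j ∈ Icc 1 M, 0 ≤ Real.log M - Real.log j := by
    intro j hj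
    rw [mem_Icc] at hj
    have : Real.log (j : ℝ) ≤ Real.log M := Real.log_le_log (by exact_mod_cast hj.1) (by exact_mod_cast hj.2)
    linarith
  rw [hsum]
  constructor
  · have h3 : (∑ j ∈ Icc 1 M, (Real.log M - Real.log j)) / (L + Real.log M) ^ 2 ≤
        ∑ j ∈ Icc 1 M, (Real.log M - Real.log j) / ((L + Real.log j) * (L + Real.log M)) := by
      rw [sum_div]
      refine sum_le_sum (fun j hj => ?_)
      have hj0 : 0 ≤ Real.log (j : ℝ) := Real.log_natCast_nonneg j
      refine div_le_div_of_nonneg_left (hd j hj) (by positivity) ?_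
      rw [sq]
      exact mul_le_mul_of_nonneg_right (by linarith [hd j hj]) hY.le
    have h4 := div_le_div_of_nonneg_right h1 (by positivity : 0 ≤ (L + Real.log M) ^ 2)
    linarith
  · have h3 : ∑ j ∈ Icc 1 M, (Real.log M - Real.log j) / ((L + Real.log j) * (L + Real.log M)) ≤
        (∑ j ∈ Icc 1 M, (Real.log M - Real.log j)) / (L * (L + Real.log M)) := by
      rw [sum_div]
      refine sum_le_sum (fun j hj => ?_)
      have hj0 : 0 ≤ Real.log (j : ℝ) := Real.log_natCast_nonneg j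
      refine div_le_div_of_nonneg_left (hd j hj) (by positivity) ?_
      exact mul_le_mul_of_nonneg_right (by linarith) hY.le
    have h4 := div_le_div_of_nonneg_right h2 (by positivity : 0 ≤ L * (L + Real.log M))
    linarith

theorem H2_bounds {L : ℝ} (hL : 0 < L) {M : ℕ} (hM : 1 ≤ M) :
    (M : ℝ) / (L + Real.log M) ^ 2 ≤ H2 L M ∧ H2 L M ≤ M / L ^ 2 := by
  have hlM : 0 ≤ Real.log (M : ℝ) := Real.log_natCast_nonneg M
  unfold H2
  constructor
  · have h1 : ∀ j ∈ Icc 1 M, 1 / (L + Real.log M) ^ 2 ≤ 1 / (L + Real.log j) ^ 2 := by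
      intro j hj
      rw [mem_Icc] at hj
      have hj0 : 0 ≤ Real.log (j : ℝ) := Real.log_natCast_nonneg j
      have : Real.log (j : ℝ) ≤ Real.log M := Real.log_le_log (by exact_mod_cast hj.1) (by exact_mod_cast hj.2)
      exact one_div_le_one_div_of_le (by positivity) (pow_le_pow_left₀ (by positivity) (by linarith) 2)
    have h2 := sum_le_sum h1
    rw [sum_const, Nat.card_Icc, nsmul_eq_mul, Nat.add_sub_cancel] at h2
    rw [div_eq_mul_one_div]
    exact h2
  · have h1 : ∀ j ∈ Icc 1 M, 1 / (L + Real.log j) ^ 2 ≤ 1 / L ^ 2 := by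
      intro j hj
      have hj0 : 0 ≤ Real.log (j : ℝ) := Real.log_natCast_nonneg j
      exact one_div_le_one_div_of_le (by positivity) (pow_le_pow_left₀ hL.le (by linarith) 2)
    have h2 := sum_le_sum h1
    rw [sum_const, Nat.card_Icc, nsmul_eq_mul, Nat.add_sub_cancel] at h2
    rw [div_eq_mul_one_div]
    exact h2

end Pool.Agent.Q120.GM
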