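import Pool.Agent.Q120.GM.PD2

/-!
# Limits for the sums along the progressions
-/

set_option autoImplicit false

namespace Pool.Agent.Q120.GM

open Finset Filter
open scoped Topology

variable {L : ℕ → ℝ} {M : ℕ → ℕ} {κ c₀ C : ℝ}

theorem loglog_div (hL : Tendsto L atTop atTop) : Tendsto (fun d => Real.log (L d) / L d) atTop (𝓝 0) := by
  have h1 : Tendsto (fun x : ℝ => Real.log x / x) atTop (𝓝 0) := Real.isLittleO_log_id_atTop.tendsto_div_nhds_zero
  exact h1.comp hL

theorem lim_M (hL : Tendsto L atTop atTop) (hκ : 0 < κ)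
    (hM : ∀ᶠ d in atTop, |κ * M d - L d * (L d + 2 * Real.log (L d) + c₀)| ≤ C) :
    Tendsto (fun d => (M d : ℝ) / L d ^ 2) atTop (𝓝 (1 / κ)) := by
  have hinv : Tendsto (fun d => (L d)⁻¹) atTop (𝓝 0) := tendsto_inv_atTop_zero.comp hL
  have h1 : Tendsto (fun d => 1 + 2 * (Real.log (L d) / L d) + c₀ * (L d)⁻¹) atTop (𝓝 (1 + 2 * 0 + c₀ * 0)) :=
    (tendsto_const_nhds.add ((loglog_div hL).const_mul 2)).add (hinv.const_mul c₀)
  have h2 : Tendsto (fun d => (κ * M d - L d * (L d + 2 * Real.log (L d) + c₀)) * ((L d)⁻¹) ^ 2) atTop (𝓝 0) := by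
    have h3 : Tendsto (fun d => C * ((L d)⁻¹) ^ 2) atTop (𝓝 (C * 0 ^ 2)) := (hinv.pow 2).const_mul C
    rw [show C * (0 : ℝ) ^ 2 = 0 by ring] at h3
    refine squeeze_zero_norm' ?_ h3
    filter_upwards [hM] with d hd
    rw [Real.norm_eq_abs, abs_mul, abs_of_nonneg (by positivity : 0 ≤ ((L d)⁻¹) ^ 2)]
    exact mul_le_mul_of_nonneg_right hd (by positivity)
  have h3 := ((h1.add h2).const_mul (1 / κ))
  rw [show 1 / κ * (1 + 2 * 0 + c₀ * 0 + 0) = 1 / κ by ring] at h3
  refine h3.congr' ?_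
  filter_upwards [hL.eventually_gt_atTop 0] with d hd
  field_simp
  ring

theorem lim_logM (hL : Tendsto L atTop atTop) (hκ : 0 < κ)
    (hM : ∀ᶠ d in atTop, |κ * M d - L d * (L d + 2 * Real.log (L d) + c₀)| ≤ C) :
    Tendsto (fun d => Real.log (M d) - 2 * Real.log (L d)) atTop (𝓝 (-Real.log κ)) := by
  have h1 := lim_M hL hκ hM
  have h2 : Tendsto (fun d => Real.log ((M d : ℝ) / L d ^ 2)) atTop (𝓝 (Real.log (1 / κ))) :=
    h1.log (by positivity)
  rw [one_div, Real.log_inv] at h2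
  refine h2.congr' ?_
  have hpos : ∀ᶠ d in atTop, 0 < (M d : ℝ) / L d ^ 2 := h1.eventually_const_lt (by positivity)
  filter_upwards [hpos, hL.eventually_gt_atTop 0] with d hd hLd
  have hM0 : (M d : ℝ) ≠ 0 := by
    intro h
    rw [h, zero_div] at hd
    exact lt_irrefl _ hd
  rw [Real.log_div hM0 (by positivity), Real.log_pow]
  push_cast
  ring

theorem lim_ratio (hL : Tendsto L atTop atTop) (hκ : 0 < κ)
    (hM : ∀ᶠ d in atTop, |κ * M d - L d * (L d + 2 * Real.log (L d) + c₀)| ≤ C) :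
    Tendsto (fun d => Real.log (M d) / L d) atTop (𝓝 0) := by
  have hinv : Tendsto (fun d => (L d)⁻¹) atTop (𝓝 0) := tendsto_inv_atTop_zero.comp hL
  have h1 : Tendsto (fun d => (Real.log (M d) - 2 * Real.log (L d)) * (L d)⁻¹ + 2 * (Real.log (L d) / L d)) atTop
      (𝓝 (-Real.log κ * 0 + 2 * 0)) := ((lim_logM hL hκ hM).mul hinv).add ((loglog_div hL).const_mul 2)
  rw [show -Real.log κ * 0 + 2 * 0 = 0 by ring] at h1
  refine h1.congr' ?_
  filter_upwards [hL.eventually_gt_atTop 0] with d hd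
  field_simp
  ring

theorem lim_first (hL : Tendsto L atTop atTop) (hκ : 0 < κ)
    (hM : ∀ᶠ d in atTop, |κ * M d - L d * (L d + 2 * Real.log (L d) + c₀)| ≤ C) :
    Tendsto (fun d => κ * (M d / (L d + Real.log (M d))) - L d) atTop (𝓝 (c₀ + Real.log κ)) := by
  have hinv : Tendsto (fun d => (L d)⁻¹) atTop (𝓝 0) := tendsto_inv_atTop_zero.comp hL
  have h1 := lim_logM hL hκ hM
  have h2 := lim_ratio hL hκ hM
  have h3 : Tendsto (fun d => (κ * M d - L d * (L d + 2 * Real.log (L d) + c₀)) * (L d)⁻¹) atTop (𝓝 0) := by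
    have h3 : Tendsto (fun d => C * (L d)⁻¹) atTop (𝓝 (C * 0)) := hinv.const_mul C
    rw [mul_zero] at h3
    refine squeeze_zero_norm' ?_ h3
    filter_upwards [hM, hL.eventually_gt_atTop 0] with d hd hL0
    rw [Real.norm_eq_abs, abs_mul, abs_of_nonneg (by positivity : 0 ≤ (L d)⁻¹)]
    exact mul_le_mul_of_nonneg_right hd (by positivity)
  have h4 : Tendsto (fun d => ((κ * M d - L d * (L d + 2 * Real.log (L d) + c₀)) * (L d)⁻¹ +
      (c₀ - (Real.log (M d) - 2 * Real.log (L d)))) / (1 + Real.log (M d) / L d)) atTop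
      (𝓝 ((0 + (c₀ - -Real.log κ)) / (1 + 0))) :=
    (h3.add (tendsto_const_nhds.sub h1)).div (tendsto_const_nhds.add h2) (by norm_num)
  rw [show (0 + (c₀ - -Real.log κ)) / (1 + 0) = c₀ + Real.log κ by ring] at h4
  refine h4.congr' ?_
  filter_upwards [hL.eventually_gt_atTop 0] with d hd
  have hlM : 0 ≤ Real.log (M d : ℝ) := Real.log_natCast_nonneg _
  have hY : 0 < L d + Real.log (M d) := by linarith
  have e1 : 1 + Real.log (M d) / L d = (L d + Real.log (M d)) / L d := by field_simp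
  rw [e1]
  field_simp
  ring

theorem lim_H1 (hL : Tendsto L atTop atTop) (hκ : 0 < κ)
    (hM : ∀ᶠ d in atTop, |κ * M d - L d * (L d + 2 * Real.log (L d) + c₀)| ≤ C) :
    Tendsto (fun d => κ * H1 (L d) (M d) - L d) atTop (𝓝 (c₀ + Real.log κ + 1)) := by
  have hinv : Tendsto (fun d => (L d)⁻¹) atTop (𝓝 0) := tendsto_inv_atTop_zero.comp hL
  have h1 := lim_first hL hκ hM
  have h2 := lim_M hL hκ hM
  have h3 := lim_ratio hL hκ hM
  have hden : Tendsto (fun d => 1 + Real.log (M d) / L d) atTop (𝓝 (1 + 0)) := tendsto_const_nhds.add h3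
  have h4 : Tendsto (fun d => κ * (M d / (L d + Real.log (M d))) - L d +
      κ * (((M d : ℝ) / L d ^ 2 - (L d)⁻¹ ^ 2 - Real.log (M d) / L d * (L d)⁻¹) / (1 + Real.log (M d) / L d) ^ 2)) atTop
      (𝓝 (c₀ + Real.log κ + κ * ((1 / κ - 0 ^ 2 - 0 * 0) / (1 + 0) ^ 2))) :=
    h1.add ((((h2.sub (hinv.pow 2)).sub (h3.mul hinv)).div (hden.pow 2) (by norm_num)).const_mul κ)
  have h5 : Tendsto (fun d => κ * (M d / (L d + Real.log (M d))) - L d +
      κ * (((M d : ℝ) / L d ^ 2) / (1 + Real.log (M d) / L d))) atTop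
      (𝓝 (c₀ + Real.log κ + κ * ((1 / κ) / (1 + 0)))) :=
    h1.add ((h2.div hden (by norm_num)).const_mul κ)
  rw [show c₀ + Real.log κ + κ * ((1 / κ - 0 ^ 2 - 0 * 0) / (1 + 0) ^ 2) = c₀ + Real.log κ + 1 by field_simp; ring] at h4
  rw [show c₀ + Real.log κ + κ * ((1 / κ) / (1 + 0)) = c₀ + Real.log κ + 1 by field_simp; ring] at h5
  have hM1 : ∀ᶠ d in atTop, 1 ≤ M d := by
    filter_upwards [h2.eventually_const_lt (by positivity : 0 < 1 / κ)] with d hd
    by_contra hcon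
    have h0 : M d = 0 := by omega
    rw [h0] at hd
    simp at hd
  refine tendsto_of_tendsto_of_tendsto_of_le_of_le' h4 h5 ?_ ?_
  · filter_upwards [hM1, hL.eventually_gt_atTop 0] with d hd hL0
    have h6 := (H1_bounds hL0 hd).1
    have hlM : 0 ≤ Real.log (M d : ℝ) := Real.log_natCast_nonneg _
    have hY : 0 < L d + Real.log (M d) := by linarith
    have e1 : ((M d : ℝ) / L d ^ 2 - (L d)⁻¹ ^ 2 - Real.log (M d) / L d * (L d)⁻¹) / (1 + Real.log (M d) / L d) ^ 2 =
        ((M d : ℝ) - 1 - Real.log (M d)) / (L d + Real.log (M d)) ^ 2 := by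
      have e2 : 1 + Real.log (M d) / L d = (L d + Real.log (M d)) / L d := by field_simp
      rw [e2]
      field_simp
    rw [e1]
    have h7 := mul_le_mul_of_nonneg_left h6 hκ.le
    linarith
  · filter_upwards [hM1, hL.eventually_gt_atTop 0] with d hd hL0
    have h6 := (H1_bounds hL0 hd).2
    have hlM : 0 ≤ Real.log (M d : ℝ) := Real.log_natCast_nonneg _
    have hY : 0 < L d + Real.log (M d) := by linarith
    have e1 : ((M d : ℝ) / L d ^ 2) / (1 + Real.log (M d) / L d) = M d / (L d * (L d + Real.log (M d))) := by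
      have e2 : 1 + Real.log (M d) / L d = (L d + Real.log (M d)) / L d := by field_simp
      rw [e2]
      field_simp
    rw [e1]
    have h7 := mul_le_mul_of_nonneg_left h6 hκ.le
    linarith

theorem lim_H2 (hL : Tendsto L atTop atTop) (hκ : 0 < κ)
    (hM : ∀ᶠ d in atTop, |κ * M d - L d * (L d + 2 * Real.log (L d) + c₀)| ≤ C) :
    Tendsto (fun d => κ * H2 (L d) (M d)) atTop (𝓝 1) := by
  have h2 := lim_M hL hκ hM
  have h3 := lim_ratio hL hκ hM
  have hden : Tendsto (fun d => 1 + Real.log (M d) / L d) atTop (𝓝 (1 + 0)) := tendsto_const_nhds.add h3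
  have h4 : Tendsto (fun d => κ * (((M d : ℝ) / L d ^ 2) / (1 + Real.log (M d) / L d) ^ 2)) atTop (𝓝 (κ * ((1 / κ) / (1 + 0) ^ 2))) :=
    (h2.div (hden.pow 2) (by norm_num)).const_mul κ
  have h5 : Tendsto (fun d => κ * ((M d : ℝ) / L d ^ 2)) atTop (𝓝 (κ * (1 / κ))) := h2.const_mul κ
  rw [show κ * ((1 / κ) / (1 + 0) ^ 2) = 1 by field_simp; ring] at h4
  rw [show κ * (1 / κ) = 1 by field_simp] at h5
  have hM1 : ∀ᶠ d in atTop, 1 ≤ M d := by
    filter_upwards [h2.eventually_const_lt (by positivity : 0 < 1 / κ)] with d hd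
    by_contra hcon
    have h0 : M d = 0 := by omega
    rw [h0] at hd
    simp at hd
  refine tendsto_of_tendsto_of_tendsto_of_le_of_le' h4 h5 ?_ ?_
  · filter_upwards [hM1, hL.eventually_gt_atTop 0] with d hd hL0
    have h6 := (H2_bounds hL0 hd).1
    have hlM : 0 ≤ Real.log (M d : ℝ) := Real.log_natCast_nonneg _
    have hY : 0 < L d + Real.log (M d) := by linarith
    have e1 : ((M d : ℝ) / L d ^ 2) / (1 + Real.log (M d) / L d) ^ 2 = (M d : ℝ) / (L d + Real.log (M d)) ^ 2 := by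
      have e2 : 1 + Real.log (M d) / L d = (L d + Real.log (M d)) / L d := by field_simp
      rw [e2]
      field_simp
    rw [e1]
    exact mul_le_mul_of_nonneg_left h6 hκ.le
  · filter_upwards [hM1, hL.eventually_gt_atTop 0] with d hd hL0
    exact mul_le_mul_of_nonneg_left (H2_bounds hL0 hd).2 hκ.le

end Pool.Agent.Q120.GM
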