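import Pool.Agent.Q120.GM.PD3
import Pool.Agent.Q120.GM.APLaw

/-!
# The probability that all classes are hit
-/

set_option autoImplicit false

namespace Pool.Agent.Q120.GM

open Finset MeasureTheory ProbabilityTheory Filter
open scoped Topology

variable {Ω : Type*} [MeasurableSpace Ω] {μ : Measure Ω} [IsProbabilityMeasure μ] {A : Ω → Set ℕ} {Q : ℕ}

theorem sum_shift (f : ℕ → ℝ) (n : ℕ) : ∑ j ∈ range n, f (j + 1) = ∑ j ∈ Icc 1 n, f j := by
  induction n with
  | zero => simp
  | succ n ih => rw [sum_range_succ, ih, sum_Icc_succ_top (by omega)]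

/-- The weights. -/
noncomputable def gw (q L : ℝ) (j : ℕ) : ℝ := q / (L + Real.log ((j + 1 : ℕ) : ℝ)) + (q / (L + Real.log ((j + 1 : ℕ) : ℝ))) ^ 2 / 2

theorem gw_nonneg {q L : ℝ} (hq : 0 ≤ q) (hL : 0 < L) (j : ℕ) : 0 ≤ gw q L j := by
  unfold gw
  have := Real.log_natCast_nonneg (j + 1)
  positivity

theorem gw_anti {q L : ℝ} (hq : 0 ≤ q) (hL : 0 < L) (j : ℕ) : gw q L (j + 1) ≤ gw q L j := by
  unfold gw
  have h1 := Real.log_natCast_nonneg (j + 1)
  have h2 : Real.log ((j + 1 : ℕ) : ℝ) ≤ Real.log ((j + 1 + 1 : ℕ) : ℝ) :=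
    Real.log_le_log (by positivity) (by push_cast; linarith)
  have h3 : q / (L + Real.log ((j + 1 + 1 : ℕ) : ℝ)) ≤ q / (L + Real.log ((j + 1 : ℕ) : ℝ)) :=
    div_le_div_of_nonneg_left hq (by positivity) (by linarith)
  have h4 : 0 ≤ q / (L + Real.log ((j + 1 + 1 : ℕ) : ℝ)) := div_nonneg hq (by linarith)
  have h5 := pow_le_pow_left₀ h4 h3 2
  linarith

theorem gw_sum (q L : ℝ) (n : ℕ) : ∑ j ∈ range n, gw q L j = q * H1 L n + q ^ 2 / 2 * H2 L n := by
  unfold gw H1 H2
  rw [sum_shift (fun j => q / (L + Real.log (j : ℝ)) + (q / (L + Real.log (j : ℝ))) ^ 2 / 2), mul_sum, mul_sum, ← sum_add_distrib]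
  refine sum_congr rfl (fun j _ => ?_)
  rw [div_pow]
  ring

theorem gw_zero (q L : ℝ) : gw q L 0 = q / L + (q / L) ^ 2 / 2 := by
  unfold gw
  simp

/-- The exponent in the upper bound. -/
noncomputable def Bup (Q : ℕ) (κ L : ℝ) (M : ℕ) : ℝ :=
  κ * H1 L (M + 1) + qq Q / 2 * (κ * H2 L (M + 1)) - (Q + 1) * (qq Q / L + (qq Q / L) ^ 2 / 2)

/-- The exponent in the lower bound. -/
noncomputable def Blow (Q : ℕ) (κ L : ℝ) (M : ℕ) : ℝ :=
  κ * H1 L M + qq Q / 2 * (κ * H2 L M) + Q * (qq Q / L + (qq Q / L) ^ 2 / 2) +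
    (2 * qq Q / L + (2 * qq Q / L) ^ 2 / 2 + (2 * qq Q / L) ^ 3) + M * (qq Q / L) ^ 3

theorem real_cls (hA : IsModel μ (level Q) A) {a d M : ℕ} (hd : 1 ≤ d) :
    μ.real (free A (cls a d M)) = ∏ m ∈ range (M + 1), (1 - level Q (a + d * m)) := by
  rw [real_free hA, prod_cls hd (fun n => 1 - level Q n), range_eq_Ico]

theorem frac_kap (hQ : 1 ≤ Q) {a d : ℕ} (hco : a.Coprime (Nat.gcd d Q)) :
    (((range Q).filter (fun m => (a + d * m).Coprime Q)).card : ℝ) / Q * qq Q = kap Q d := by
  have h1 := dens_eq hQ a d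
  rw [dens_kap hQ hco] at h1
  exact h1.symm

theorem cls_upper (hA : IsModel μ (level Q) A) (hQ : 1 ≤ Q) {a d M : ℕ} (ha : a < d) (hco : a.Coprime (Nat.gcd d Q))
    (hd : 0 < Real.log d) (hq : qq Q ≤ Real.log d) :
    μ.real (free A (cls a d M)) ≤ Real.exp (-Bup Q (kap Q d) (Real.log d) M) := by
  have hq0 := qq_pos hQ
  have hd1 : 1 ≤ d := by omega
  have hd0 : (0 : ℝ) < d := by exact_mod_cast hd1
  obtain ⟨L, hL⟩ : ∃ L, L = Real.log (d : ℝ) := ⟨_, rfl⟩
  rw [real_cls hA hd1, ← hL]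
  rw [← hL] at hd hq
  have h1 : ∀ m ∈ range M, (1 - level Q (a + d * (m + 1))) ≤
      Real.exp (-(if (a + d * (m + 1)).Coprime Q then gw (qq Q) L (m + 1) else 0)) := by
    intro m _
    split_ifs with h
    · have h2 := one_sub_le (level_nonneg Q (a + d * (m + 1))) (level_le_one Q (a + d * (m + 1)))
      refine h2.trans (Real.exp_le_exp.2 ?_)
      have h7 := Real.log_natCast_nonneg (m + 1 + 1)
      have hlev : qq Q / (L + Real.log ((m + 1 + 1 : ℕ) : ℝ)) ≤ level Q (a + d * (m + 1)) := by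
        have e1 : L + Real.log ((m + 1 + 1 : ℕ) : ℝ) = Real.log (d * ((m + 1 + 1 : ℕ) : ℝ)) := by
          rw [Real.log_mul hd0.ne' (by positivity), hL]
        rw [e1]
        refine le_level (x := d) (by rw [← hL]; exact hq) (by rw [← hL]; exact hd) hd0 ?_ ?_ h
        · have : d * 1 ≤ d * (m + 1) := Nat.mul_le_mul_left d (by omega)
          exact_mod_cast (by omega : d ≤ a + d * (m + 1))
        · have e2 : a + d * (m + 1) ≤ d * (m + 1 + 1) := by
            have : d * (m + 1 + 1) = d * (m + 1) + d := by ring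
            omega
          exact_mod_cast e2
      unfold gw
      have h10 : 0 ≤ qq Q / (L + Real.log ((m + 1 + 1 : ℕ) : ℝ)) := by positivity
      have h11 := pow_le_pow_left₀ h10 hlev 2
      linarith
    · rw [neg_zero, Real.exp_zero]
      have := level_nonneg Q (a + d * (m + 1))
      linarith
  have h2 : ∏ m ∈ range (M + 1), (1 - level Q (a + d * m)) ≤
      Real.exp (-∑ m ∈ range M, (if (a + d * (m + 1)).Coprime Q then gw (qq Q) L (m + 1) else 0)) := by
    rw [prod_range_succ', ← sum_neg_distrib, Real.exp_sum]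
    have h3 : 0 ≤ ∏ m ∈ range M, (1 - level Q (a + d * (m + 1))) :=
      prod_nonneg (fun m _ => by linarith [level_le_one Q (a + d * (m + 1))])
    have h4 : 1 - level Q (a + d * 0) ≤ 1 := by linarith [level_nonneg Q (a + d * 0)]
    calc _ ≤ (∏ m ∈ range M, (1 - level Q (a + d * (m + 1)))) * 1 := mul_le_mul_of_nonneg_left h4 h3
      _ = ∏ m ∈ range M, (1 - level Q (a + d * (m + 1))) := mul_one _
      _ ≤ _ := prod_le_prod (fun m _ => by linarith [level_le_one Q (a + d * (m + 1))]) h1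
  refine h2.trans (Real.exp_le_exp.2 ?_)
  have h3 := per_weight hQ (fun m => (a + d * m).Coprime Q) (per_ap Q a d) (g := gw (qq Q) L) (gw_anti hq0.le hd) (gw_nonneg hq0.le hd) (M + 1)
  rw [gw_sum, gw_zero, sum_range_succ'] at h3
  obtain ⟨c, hc⟩ : ∃ c : ℝ, c = (((range Q).filter (fun m => (a + d * m).Coprime Q)).card : ℝ) / Q := ⟨_, rfl⟩
  have hk : c * qq Q = kap Q d := by rw [hc]; exact frac_kap hQ hco
  rw [← hc] at h3
  have h4 := (abs_le.1 h3).1
  have h5 : (if (a + d * 0).Coprime Q then gw (qq Q) L 0 else 0) ≤ qq Q / L + (qq Q / L) ^ 2 / 2 := by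
    have h6 := gw_nonneg hq0.le hd 0
    rw [gw_zero] at h6
    split_ifs
    · rw [gw_zero]
    · exact h6
  have h6 : c * (qq Q * H1 L (M + 1) + qq Q ^ 2 / 2 * H2 L (M + 1)) =
      kap Q d * H1 L (M + 1) + qq Q / 2 * (kap Q d * H2 L (M + 1)) := by rw [← hk]; ring
  rw [h6] at h4
  unfold Bup
  linarith

theorem cls_lower (hA : IsModel μ (level Q) A) (hQ : 1 ≤ Q) {a d M : ℕ} (ha : a < d) (hco : a.Coprime (Nat.gcd d Q))
    (hd : 0 < Real.log d) (hq : 6 * qq Q ≤ Real.log d) (hla : Real.log d / 2 ≤ Real.log a) :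
    Real.exp (-Blow Q (kap Q d) (Real.log d) M) ≤ μ.real (free A (cls a d M)) := by
  have hq0 := qq_pos hQ
  have hd1 : 1 ≤ d := by omega
  have hd0 : (0 : ℝ) < d := by exact_mod_cast hd1
  have ha0 : (0 : ℝ) < a := by
    rcases Nat.eq_zero_or_pos a with h | h
    · rw [h] at hla
      simp only [Nat.cast_zero, Real.log_zero] at hla
      linarith
    · exact_mod_cast h
  obtain ⟨L, hL⟩ : ∃ L, L = Real.log (d : ℝ) := ⟨_, rfl⟩
  rw [real_cls hA hd1, ← hL]
  rw [← hL] at hd hq hla
  have hg : (Nat.gcd d Q) ∣ d := Nat.gcd_dvd_left _ _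
  have hco' : (a + d).Coprime (Nat.gcd d Q) := by
    obtain ⟨k, hk⟩ := hg
    rw [Nat.coprime_iff_gcd_eq_one]
    have h0 : a + d ≡ a [MOD (Nat.gcd d Q)] := by
      have : d ≡ 0 [MOD (Nat.gcd d Q)] := (Nat.modEq_zero_iff_dvd).2 (Nat.gcd_dvd_left _ _)
      simpa using Nat.ModEq.add_left a this
    rw [h0.gcd_eq]
    exact hco
  have h1 : ∀ m ∈ range M, Real.exp (-((if ((a + d) + d * m).Coprime Q then gw (qq Q) L m else 0) + (qq Q / L) ^ 3)) ≤
      (1 - level Q (a + d * (m + 1))) := by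
    intro m _
    have e0 : a + d * (m + 1) = (a + d) + d * m := by ring
    rw [e0]
    split_ifs with h
    · have h7 := Real.log_natCast_nonneg (m + 1)
      have hlev : level Q ((a + d) + d * m) ≤ qq Q / (L + Real.log ((m + 1 : ℕ) : ℝ)) := by
        have e1 : L + Real.log ((m + 1 : ℕ) : ℝ) = Real.log (d * ((m + 1 : ℕ) : ℝ)) := by
          rw [Real.log_mul hd0.ne' (by positivity), hL]
        rw [e1]
        refine level_le (by rw [← e1]; linarith) (by positivity) ?_
        have e2 : d * (m + 1) ≤ a + d + d * m := by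
          have : d * (m + 1) = d * m + d := by ring
          omega
        exact_mod_cast e2
      have hlevL : level Q ((a + d) + d * m) ≤ qq Q / L := hlev.trans (div_le_div_of_nonneg_left hq0.le hd (by linarith))
      have h3 : qq Q / L ≤ 1 / 3 := by
        rw [div_le_div_iff₀ hd (by norm_num)]
        linarith
      have hl0 := level_nonneg Q ((a + d) + d * m)
      refine le_trans (Real.exp_le_exp.2 ?_) (le_one_sub hl0 (hlevL.trans h3))
      unfold gw
      have h10 := pow_le_pow_left₀ hl0 hlev 2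
      have h11 := pow_le_pow_left₀ hl0 hlevL 3
      linarith
    · have h8 : level Q ((a + d) + d * m) = 0 := by unfold level; rw [if_neg h]
      rw [h8, sub_zero]
      rw [← Real.exp_zero]
      refine Real.exp_le_exp.2 ?_
      have : 0 ≤ (qq Q / L) ^ 3 := by positivity
      linarith
  have h0 : Real.exp (-(2 * qq Q / L + (2 * qq Q / L) ^ 2 / 2 + (2 * qq Q / L) ^ 3)) ≤ 1 - level Q (a + d * 0) := by
    have e0 : a + d * 0 = a := by ring
    rw [e0]
    have hlev : level Q a ≤ 2 * qq Q / L := by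
      have h2 : level Q a ≤ qq Q / Real.log a := level_le (by linarith) ha0 le_rfl
      refine h2.trans ?_
      rw [div_le_div_iff₀ (by linarith) hd]
      nlinarith
    have h3 : 2 * qq Q / L ≤ 1 / 3 := by
      rw [div_le_div_iff₀ hd (by norm_num)]
      linarith
    have hl0 := level_nonneg Q a
    refine le_trans (Real.exp_le_exp.2 ?_) (le_one_sub hl0 (hlev.trans h3))
    have h10 := pow_le_pow_left₀ hl0 hlev 2
    have h11 := pow_le_pow_left₀ hl0 hlev 3
    linarith
  rw [prod_range_succ']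
  have h2 : Real.exp (-∑ m ∈ range M, ((if ((a + d) + d * m).Coprime Q then gw (qq Q) L m else 0) + (qq Q / L) ^ 3)) ≤
      ∏ m ∈ range M, (1 - level Q (a + d * (m + 1))) := by
    rw [← sum_neg_distrib, Real.exp_sum]
    exact prod_le_prod (fun m _ => (Real.exp_pos _).le) h1
  have h20 := mul_le_mul h2 h0 (Real.exp_pos _).le ((Real.exp_pos _).le.trans h2)
  rw [← Real.exp_add] at h20
  refine le_trans (Real.exp_le_exp.2 ?_) h20
  have h3 := per_weight hQ (fun m => ((a + d) + d * m).Coprime Q) (per_ap Q (a + d) d) (g := gw (qq Q) L) (gw_anti hq0.le hd)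
    (gw_nonneg hq0.le hd) M
  rw [gw_sum, gw_zero] at h3
  obtain ⟨c, hc⟩ : ∃ c : ℝ, c = (((range Q).filter (fun m => ((a + d) + d * m).Coprime Q)).card : ℝ) / Q := ⟨_, rfl⟩
  have hk : c * qq Q = kap Q d := by rw [hc]; exact frac_kap hQ hco'
  rw [← hc] at h3
  have h4 := (abs_le.1 h3).2
  have h6 : c * (qq Q * H1 L M + qq Q ^ 2 / 2 * H2 L M) =
      kap Q d * H1 L M + qq Q / 2 * (kap Q d * H2 L M) := by rw [← hk]; ring
  rw [h6] at h4
  rw [sum_add_distrib, sum_const, card_range, nsmul_eq_mul]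
  unfold Blow
  linarith

/-- The admissible classes. -/
def adm (Q d : ℕ) : Finset ℕ := (range d).filter (fun a => a.Coprime (Nat.gcd d Q))

/-- All admissible classes contain one of the first elements. -/
def allHit (A : Ω → Set ℕ) (Q d M : ℕ) : Set Ω := ⋂ a ∈ adm Q d, (free A (cls a d M))ᶜ

theorem real_allHit (hA : IsModel μ (level Q) A) {d M : ℕ} :
    μ.real (allHit A Q d M) = ∏ a ∈ adm Q d, (1 - μ.real (free A (cls a d M))) := by
  unfold allHit
  rw [indep_many hA (adm Q d) (fun a => {n | n % d = a}) (fun a _ b _ hab => mod_disjoint hab)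
    (fun a => (free A (cls a d M))ᶜ) (fun a ha => (F_cls (mem_range.1 (mem_filter.1 ha).1)).compl)]
  exact prod_congr rfl (fun a _ => probReal_compl_eq_one_sub (meas_free hA _))

/-- Both bounds for the probability that all classes are hit. -/
theorem allHit_bounds (hA : IsModel μ (level Q) A) (hQ : 1 ≤ Q) {d M : ℕ} (hd1 : 2 ≤ d) (hq : 6 * qq Q ≤ Real.log d)
    (hsmall : Real.exp (-Bup Q (kap Q d) (Real.log d) M) ≤ 1 / 3) :
    Real.exp (-((d : ℝ) / kap Q d * (Real.exp (-Bup Q (kap Q d) (Real.log d) M) *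
      (1 + 2 * Real.exp (-Bup Q (kap Q d) (Real.log d) M))))) ≤ μ.real (allHit A Q d M) ∧
    μ.real (allHit A Q d M) ≤ Real.exp (-(((d : ℝ) / kap Q d - (Real.sqrt d + 1)) * Real.exp (-Blow Q (kap Q d) (Real.log d) M))) := by
  have hq0 := qq_pos hQ
  have hd0 : (0 : ℝ) < d := by exact_mod_cast (by omega : 0 < d)
  have hL : 0 < Real.log (d : ℝ) := Real.log_pos (by exact_mod_cast hd1)
  obtain ⟨f, hf⟩ : ∃ f, f = Real.exp (-Bup Q (kap Q d) (Real.log d) M) := ⟨_, rfl⟩
  obtain ⟨g, hg⟩ : ∃ g, g = Real.exp (-Blow Q (kap Q d) (Real.log d) M) := ⟨_, rfl⟩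
  rw [← hf] at hsmall
  rw [← hf, ← hg, real_allHit hA]
  have hf0 : 0 < f := by rw [hf]; exact Real.exp_pos _
  have hg0 : 0 < g := by rw [hg]; exact Real.exp_pos _
  have hcard : ((adm Q d).card : ℝ) = d / kap Q d := card_classes hQ (by omega)
  have hup : ∀ a ∈ adm Q d, μ.real (free A (cls a d M)) ≤ f := by
    intro a ha
    rw [adm, mem_filter, mem_range] at ha
    rw [hf]
    exact cls_upper hA hQ ha.1 ha.2 hL (by linarith)
  have h01 : ∀ a ∈ adm Q d, 0 ≤ 1 - μ.real (free A (cls a d M)) := by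
    intro a _
    have := measureReal_le_one (μ := μ) (s := free A (cls a d M))
    linarith
  constructor
  · have h1 : ∀ a ∈ adm Q d, Real.exp (-(f * (1 + 2 * f))) ≤ 1 - μ.real (free A (cls a d M)) := by
      intro a ha
      have h2 := hup a ha
      have h3 : 0 ≤ μ.real (free A (cls a d M)) := measureReal_nonneg
      refine le_trans (Real.exp_le_exp.2 ?_) (le_one_sub h3 (h2.trans hsmall))
      have h4 := pow_le_pow_left₀ h3 h2 2
      have h5 := pow_le_pow_left₀ h3 h2 3
      have h6 : f ^ 3 ≤ f ^ 2 := by nlinarith [sq_nonneg f]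
      nlinarith
    calc Real.exp (-((d : ℝ) / kap Q d * (f * (1 + 2 * f)))) = ∏ a ∈ adm Q d, Real.exp (-(f * (1 + 2 * f))) := by
          rw [prod_const, ← Real.exp_nat_mul, hcard]
          congr 1
          ring
      _ ≤ _ := prod_le_prod (fun a _ => (Real.exp_pos _).le) h1
  · obtain ⟨G, hG⟩ : ∃ G, G = (adm Q d).filter (fun a => ¬ a ≤ Nat.sqrt d) := ⟨_, rfl⟩
    have hGsub : G ⊆ adm Q d := by rw [hG]; exact filter_subset _ _
    have hlow : ∀ a ∈ G, g ≤ μ.real (free A (cls a d M)) := by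
      intro a ha
      rw [hG, mem_filter, adm, mem_filter, mem_range] at ha
      rw [hg]
      refine cls_lower hA hQ ha.1.1 ha.1.2 hL hq ?_
      rw [← Real.log_sqrt hd0.le]
      refine Real.log_le_log (Real.sqrt_pos.2 hd0) ?_
      have h2 : Nat.sqrt d < a := by omega
      have h3 : d < (Nat.sqrt d + 1) ^ 2 := Nat.lt_succ_sqrt' d
      have h4 : d ≤ a ^ 2 := h3.le.trans (Nat.pow_le_pow_left h2 2)
      rw [Real.sqrt_le_left (Nat.cast_nonneg a)]
      exact_mod_cast h4
    have hGcard : (d : ℝ) / kap Q d - (Real.sqrt d + 1) ≤ (G.card : ℝ) := by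
      have h2 : (adm Q d).card ≤ G.card + (Nat.sqrt d + 1) := by
        have h3 := card_filter_add_card_filter_not (s := adm Q d) (fun a => a ≤ Nat.sqrt d)
        have h4 : ((adm Q d).filter (fun a => a ≤ Nat.sqrt d)).card ≤ Nat.sqrt d + 1 := by
          calc _ ≤ (range (Nat.sqrt d + 1)).card := card_le_card (by
                intro a ha
                rw [mem_filter] at ha
                exact mem_range.2 (by omega))
            _ = _ := card_range _
        rw [hG]
        omega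
      have h3 : ((adm Q d).card : ℝ) ≤ G.card + (Nat.sqrt d + 1) := by exact_mod_cast h2
      have h4 : (Nat.sqrt d : ℝ) ≤ Real.sqrt d := by
        rw [Real.le_sqrt (Nat.cast_nonneg _) hd0.le]
        exact_mod_cast Nat.sqrt_le' d
      rw [hcard] at h3
      linarith
    calc ∏ a ∈ adm Q d, (1 - μ.real (free A (cls a d M))) ≤ ∏ a ∈ G, (1 - μ.real (free A (cls a d M))) := by
          rw [← prod_sdiff hGsub]
          have h5 : ∏ a ∈ adm Q d \ G, (1 - μ.real (free A (cls a d M))) ≤ 1 := by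
            refine prod_le_one (fun a ha => h01 a (mem_sdiff.1 ha).1) (fun a _ => ?_)
            have : 0 ≤ μ.real (free A (cls a d M)) := measureReal_nonneg
            linarith
          have h6 : 0 ≤ ∏ a ∈ G, (1 - μ.real (free A (cls a d M))) := prod_nonneg (fun a ha => h01 a (hGsub ha))
          have h7 := mul_le_mul_of_nonneg_right h5 h6
          rw [one_mul] at h7
          exact h7
      _ ≤ ∏ a ∈ G, Real.exp (-g) := by
          refine prod_le_prod (fun a ha => h01 a (hGsub ha)) (fun a ha => ?_)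
          have h2 := Real.add_one_le_exp (-g)
          have h3 := hlow a ha
          linarith
      _ = Real.exp (-((G.card : ℝ) * g)) := by
          rw [prod_const, ← Real.exp_nat_mul]
          congr 1
          ring
      _ ≤ _ := by
          apply Real.exp_le_exp.2
          have := mul_le_mul_of_nonneg_right hGcard hg0.le
          linarith

end Pool.Agent.Q120.GM
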