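import Pool.Agent.Q120.GM.PD4

/-!
# The limit law for the largest least element over the classes
-/

set_option autoImplicit false

namespace Pool.Agent.Q120.GM

open Finset MeasureTheory ProbabilityTheory Filter
open scoped Topology

variable {Ω : Type*} [MeasurableSpace Ω] {μ : Measure Ω} [IsProbabilityMeasure μ] {A : Ω → Set ℕ} {Q : ℕ}
variable {M : ℕ → ℕ} {κ u C : ℝ}

theorem hL' : Tendsto (fun d : ℕ => Real.log (d : ℝ)) atTop atTop := Pool.Agent.Q120.AD.hl

theorem small_term (c : ℝ) : Tendsto (fun d : ℕ => c / Real.log (d : ℝ)) atTop (𝓝 0) := hL'.const_div_atTop c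

theorem Bup_lim (hκ : 0 < κ)
    (hM : ∀ᶠ d : ℕ in atTop, |κ * M d - Real.log d * (Real.log d + 2 * Real.log (Real.log d) +
      (-2 * Real.log κ - 1 - qq Q / 2 + u))| ≤ C) :
    Tendsto (fun d : ℕ => Real.log d - Real.log κ - Bup Q κ (Real.log d) (M d)) atTop (𝓝 (-u)) := by
  have hM' : ∀ᶠ d : ℕ in atTop, |κ * ((M d + 1 : ℕ) : ℝ) - Real.log d * (Real.log d + 2 * Real.log (Real.log d) +
      (-2 * Real.log κ - 1 - qq Q / 2 + u))| ≤ C + κ := by
    filter_upwards [hM] with d hd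
    rw [abs_le] at hd ⊢
    push_cast
    constructor <;> linarith
  have h1 := lim_H1 hL' hκ hM'
  have h2 := lim_H2 hL' hκ hM'
  have h3 := small_term (qq Q)
  have h4 := ((h1.add (h2.const_mul (qq Q / 2))).neg.sub_const (Real.log κ)).add
    ((h3.add ((h3.pow 2).div_const 2)).const_mul ((Q : ℝ) + 1))
  have e : -(-2 * Real.log κ - 1 - qq Q / 2 + u + Real.log κ + 1 + qq Q / 2 * 1) - Real.log κ + (Q + 1) * (0 + 0 ^ 2 / 2) = -u := by
    ring
  rw [e] at h4
  refine h4.congr (fun d => ?_)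
  unfold Bup
  ring

theorem Blow_lim (hκ : 0 < κ)
    (hM : ∀ᶠ d : ℕ in atTop, |κ * M d - Real.log d * (Real.log d + 2 * Real.log (Real.log d) +
      (-2 * Real.log κ - 1 - qq Q / 2 + u))| ≤ C) :
    Tendsto (fun d : ℕ => Real.log d - Real.log κ - Blow Q κ (Real.log d) (M d)) atTop (𝓝 (-u)) := by
  have h1 := lim_H1 hL' hκ hM
  have h2 := lim_H2 hL' hκ hM
  have h3 := small_term (qq Q)
  have h3' := small_term (2 * qq Q)
  have h5 : Tendsto (fun d : ℕ => (M d : ℝ) * (qq Q / Real.log d) ^ 3) atTop (𝓝 0) := by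
    have h6 := ((lim_M hL' hκ hM).mul (small_term (qq Q ^ 3)))
    rw [mul_zero] at h6
    refine h6.congr' ?_
    filter_upwards [hL'.eventually_gt_atTop 0] with d hd
    field_simp
  have h4 := ((((h1.add (h2.const_mul (qq Q / 2))).neg.sub_const (Real.log κ)).sub
    ((h3.add ((h3.pow 2).div_const 2)).const_mul (Q : ℝ))).sub ((h3'.add ((h3'.pow 2).div_const 2)).add (h3'.pow 3))).sub h5
  have e : -(-2 * Real.log κ - 1 - qq Q / 2 + u + Real.log κ + 1 + qq Q / 2 * 1) - Real.log κ - Q * (0 + 0 ^ 2 / 2) -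
      (0 + 0 ^ 2 / 2 + 0 ^ 3) - 0 = -u := by ring
  rw [e] at h4
  refine h4.congr (fun d => ?_)
  unfold Blow
  ring

theorem mass_lim {B : ℕ → ℝ} (hκ : 0 < κ) (h : Tendsto (fun d : ℕ => Real.log d - Real.log κ - B d) atTop (𝓝 (-u))) :
    Tendsto (fun d : ℕ => (d : ℝ) / κ * Real.exp (-B d)) atTop (𝓝 (Real.exp (-u))) := by
  have h1 := (Real.continuous_exp.tendsto (-u)).comp h
  refine h1.congr' ?_
  filter_upwards [eventually_gt_atTop 0] with d hd
  have hd0 : (0 : ℝ) < d := by exact_mod_cast hd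
  show Real.exp (Real.log d - Real.log κ - B d) = _
  rw [sub_eq_add_neg, Real.exp_add, Real.exp_sub, Real.exp_log hd0, Real.exp_log hκ]

theorem exp_lim {B : ℕ → ℝ} (hκ : 0 < κ) (h : Tendsto (fun d : ℕ => Real.log d - Real.log κ - B d) atTop (𝓝 (-u))) :
    Tendsto (fun d : ℕ => Real.exp (-B d)) atTop (𝓝 0) := by
  have h1 := mass_lim hκ h
  have h2 : Tendsto (fun d : ℕ => κ / (d : ℝ)) atTop (𝓝 0) := tendsto_natCast_atTop_atTop.const_div_atTop κ
  have h3 := h1.mul h2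
  rw [mul_zero] at h3
  refine h3.congr' ?_
  filter_upwards [eventually_gt_atTop 0] with d hd
  have hd0 : (0 : ℝ) < d := by exact_mod_cast hd
  field_simp

/-- The limit law for a fixed density. -/
theorem pd_fix (hA : IsModel μ (level Q) A) (hQ : 1 ≤ Q) (hκ : 0 < κ)
    (hM : ∀ᶠ d : ℕ in atTop, |κ * M d - Real.log d * (Real.log d + 2 * Real.log (Real.log d) +
      (-2 * Real.log κ - 1 - qq Q / 2 + u))| ≤ C) {ε : ℝ} (hε : 0 < ε) :
    ∀ᶠ d : ℕ in atTop, kap Q d = κ → |μ.real (allHit A Q d (M d)) - Real.exp (-Real.exp (-u))| < ε := by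
  have h1 := Bup_lim hκ hM
  have h2 := Blow_lim hκ hM
  have u1 := mass_lim hκ h1
  have u0 := exp_lim hκ h1
  have l1 := mass_lim hκ h2
  have lo : Tendsto (fun d : ℕ => Real.exp (-((d : ℝ) / κ * (Real.exp (-Bup Q κ (Real.log d) (M d)) *
      (1 + 2 * Real.exp (-Bup Q κ (Real.log d) (M d))))))) atTop (𝓝 (Real.exp (-Real.exp (-u)))) := by
    have h3 := (u1.mul ((u0.const_mul 2).const_add 1)).neg
    rw [mul_zero, add_zero, mul_one] at h3
    refine ((Real.continuous_exp.tendsto _).comp h3).congr (fun d => ?_)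
    show Real.exp _ = _
    congr 1
    ring
  have hi : Tendsto (fun d : ℕ => Real.exp (-(((d : ℝ) / κ - (Real.sqrt d + 1)) * Real.exp (-Blow Q κ (Real.log d) (M d))))) atTop
      (𝓝 (Real.exp (-Real.exp (-u)))) := by
    have hs : Tendsto (fun d : ℕ => κ * ((Real.sqrt (d : ℝ))⁻¹ + (d : ℝ)⁻¹)) atTop (𝓝 (κ * (0 + 0))) := by
      refine Tendsto.const_mul κ (Tendsto.add ?_ ?_)
      · exact tendsto_inv_atTop_zero.comp (Real.tendsto_sqrt_atTop.comp tendsto_natCast_atTop_atTop)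
      · exact tendsto_inv_atTop_zero.comp tendsto_natCast_atTop_atTop
    have h3 := (l1.mul (hs.const_sub 1)).neg
    rw [add_zero, mul_zero, sub_zero, mul_one] at h3
    refine ((Real.continuous_exp.tendsto _).comp h3).congr' ?_
    filter_upwards [eventually_gt_atTop 0] with d hd
    have hd0 : (0 : ℝ) < d := by exact_mod_cast hd
    have hsd : 0 < Real.sqrt (d : ℝ) := Real.sqrt_pos.2 hd0
    show Real.exp _ = _
    congr 1
    have e1 : (Real.sqrt (d : ℝ))⁻¹ = Real.sqrt d / d := by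
      rw [eq_div_iff hd0.ne', inv_mul_eq_div, div_eq_iff hsd.ne', Real.mul_self_sqrt hd0.le]
    show -((d : ℝ) / κ * Real.exp (-Blow Q κ (Real.log d) (M d)) * (1 - κ * ((Real.sqrt (d : ℝ))⁻¹ + (d : ℝ)⁻¹))) = _
    rw [e1]
    field_simp
  filter_upwards [(tendsto_order.1 lo).1 _ (show Real.exp (-Real.exp (-u)) - ε < Real.exp (-Real.exp (-u)) by linarith),
    (tendsto_order.1 hi).2 _ (show Real.exp (-Real.exp (-u)) < Real.exp (-Real.exp (-u)) + ε by linarith),
    u0.eventually_le_const (show (0 : ℝ) < 1 / 3 by norm_num), eventually_ge_atTop 2, hL'.eventually_ge_atTop (6 * qq Q)] with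
    d g1 g2 g3 g4 g5 hk
  rw [← hk] at g1 g2 g3
  obtain ⟨b1, b2⟩ := allHit_bounds hA hQ g4 g5 g3
  rw [abs_lt]
  constructor <;> linarith

/-- The number of the admissible classes. -/
noncomputable def phi (Q d : ℕ) : ℝ := ((adm Q d).card : ℝ)

theorem phi_eq {Q : ℕ} (hQ : 1 ≤ Q) {d : ℕ} (hd : 1 ≤ d) : phi Q d = d / kap Q d := card_classes hQ hd

/-- All admissible classes contain an element which is at most `t`. -/
def AllBy (S : Set ℕ) (Q d : ℕ) (t : ℝ) : Prop :=
  ∀ a, a < d → a.Coprime (Nat.gcd d Q) → ∃ n, n ∈ S ∧ n % d = a ∧ (n : ℝ) ≤ t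

omit [MeasurableSpace Ω] in
theorem allBy_sub {d J : ℕ} {t : ℝ} (hd : 0 < d) (hJ : t < d * ((J : ℝ) + 1)) : {ω | AllBy (A ω) Q d t} ⊆ allHit A Q d J := by
  intro ω hω
  unfold allHit
  rw [Set.mem_iInter₂]
  intro a ha hfree
  rw [adm, mem_filter, mem_range] at ha
  obtain ⟨n, hn, hna, hnt⟩ := hω a ha.1 ha.2
  refine hfree n ?_ hn
  rw [mem_cls]
  refine ⟨n / d, ?_, ?_⟩
  · have h1 : (n : ℝ) < ((d * (J + 1) : ℕ) : ℝ) := by push_cast; linarith
    have h2 : n < d * (J + 1) := by exact_mod_cast h1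
    have h3 : n / d < J + 1 := by rw [Nat.div_lt_iff_lt_mul hd]; linarith [h2, mul_comm d (J + 1)]
    omega
  · rw [← hna]
    exact (Nat.mod_add_div n d).symm

omit [MeasurableSpace Ω] in
theorem sub_allBy {d J : ℕ} {t : ℝ} (hJ : (d : ℝ) * ((J : ℝ) + 1) ≤ t) : allHit A Q d J ⊆ {ω | AllBy (A ω) Q d t} := by
  intro ω hω a ha hco
  unfold allHit at hω
  rw [Set.mem_iInter₂] at hω
  have h1 := hω a (mem_filter.2 ⟨mem_range.2 ha, hco⟩)
  have h2 : ∃ n ∈ cls a d J, n ∈ A ω := by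
    by_contra hcon
    push Not at hcon
    exact h1 hcon
  obtain ⟨n, hn, hnA⟩ := h2
  obtain ⟨m, hm, rfl⟩ := mem_cls.1 hn
  refine ⟨a + d * m, hnA, ?_, ?_⟩
  · rw [Nat.add_mul_mod_self_left]
    exact Nat.mod_eq_of_lt ha
  · refine le_trans ?_ hJ
    have h3 : a + d * m ≤ d * (J + 1) := by
      have : d * m ≤ d * J := Nat.mul_le_mul_left d hm
      have e : d * (J + 1) = d * J + d := by ring
      omega
    exact_mod_cast h3

/-- **The Gumbel law for the largest least element.** -/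
theorem pd_law (hA : IsModel μ (level Q) A) (hQ : 1 ≤ Q) (u : ℝ) :
    Tendsto (fun d : ℕ => μ.real {ω | AllBy (A ω) Q d (phi Q d * Real.log d * (Real.log d + 2 * Real.log (Real.log d) +
      2 * Real.log (phi Q d / d) - 1 - (Q : ℝ) / (2 * Nat.totient Q) + u))}) atTop (𝓝 (Real.exp (-Real.exp (-u)))) := by
  rw [Metric.tendsto_atTop']
  intro ε hε
  obtain ⟨t, ht⟩ : ∃ t : ℝ → ℕ → ℝ, t = fun (κ : ℝ) (d : ℕ) => (d : ℝ) / κ * Real.log (d : ℝ) * (Real.log (d : ℝ) + 2 * Real.log (Real.log (d : ℝ)) +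
      (-2 * Real.log κ - 1 - qq Q / 2 + u)) := ⟨_, rfl⟩
  have hfix : ∀ κ : ℝ, 0 < κ → ∀ᶠ d : ℕ in atTop, kap Q d = κ →
      |μ.real {ω | AllBy (A ω) Q d (t κ d)} - Real.exp (-Real.exp (-u))| < ε := by
    intro κ hκ
    obtain ⟨J, hJ⟩ : ∃ J : ℕ → ℕ, J = fun d => ⌊t κ d / d⌋₊ := ⟨_, rfl⟩
    have hX : Tendsto (fun d : ℕ => Real.log (d : ℝ) + 2 * Real.log (Real.log d) + (-2 * Real.log κ - 1 - qq Q / 2 + u)) atTop atTop := by
      refine tendsto_atTop_add_const_right _ _ ?_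
      refine tendsto_atTop_mono' atTop ?_ hL'
      filter_upwards [hL'.eventually_ge_atTop 1] with d hd
      have := Real.log_nonneg hd
      linarith
    have htd : ∀ᶠ d : ℕ in atTop, t κ d / d = Real.log d * (Real.log d + 2 * Real.log (Real.log d) +
        (-2 * Real.log κ - 1 - qq Q / 2 + u)) / κ := by
      filter_upwards [eventually_gt_atTop 0] with d hd
      have hd0 : (0 : ℝ) < d := by exact_mod_cast hd
      rw [ht]
      show (d : ℝ) / κ * Real.log d * _ / d = _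
      field_simp
    have hbig : ∀ᶠ d : ℕ in atTop, 1 ≤ t κ d / d := by
      filter_upwards [htd, hX.eventually_ge_atTop κ, hL'.eventually_ge_atTop 1] with d h1 h2 h3
      rw [h1, le_div_iff₀ hκ]
      nlinarith
    have hfl : ∀ᶠ d : ℕ in atTop, (J d : ℝ) ≤ t κ d / d ∧ t κ d / d < J d + 1 ∧ 1 ≤ J d := by
      filter_upwards [hbig] with d hd
      rw [hJ]
      exact ⟨Nat.floor_le (by linarith), Nat.lt_floor_add_one _, Nat.le_floor (by exact_mod_cast hd)⟩
    have hM1 : ∀ᶠ d : ℕ in atTop, |κ * J d - Real.log d * (Real.log d + 2 * Real.log (Real.log d) +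
        (-2 * Real.log κ - 1 - qq Q / 2 + u))| ≤ 2 * κ := by
      filter_upwards [htd, hfl] with d h1 h2
      obtain ⟨h2, h3, h4⟩ := h2
      rw [h1] at h2 h3
      rw [le_div_iff₀ hκ] at h2
      rw [div_lt_iff₀ hκ] at h3
      rw [abs_le]
      constructor <;> linarith
    have hM2 : ∀ᶠ d : ℕ in atTop, |κ * ((J d - 1 : ℕ) : ℝ) - Real.log d * (Real.log d + 2 * Real.log (Real.log d) +
        (-2 * Real.log κ - 1 - qq Q / 2 + u))| ≤ 2 * κ := by
      filter_upwards [htd, hfl] with d h1 h2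
      obtain ⟨h2, h3, h4⟩ := h2
      rw [h1] at h2 h3
      rw [le_div_iff₀ hκ] at h2
      rw [div_lt_iff₀ hκ] at h3
      rw [Nat.cast_sub h4, abs_le]
      push_cast
      constructor <;> linarith
    filter_upwards [pd_fix hA hQ hκ hM1 hε, pd_fix hA hQ hκ hM2 hε, hfl, eventually_gt_atTop 0] with d h1 h2 h3 h4 hk
    obtain ⟨h5, h6, h7⟩ := h3
    have hd0 : (0 : ℝ) < d := by exact_mod_cast h4
    have h1' := h1 hk
    have h2' := h2 hk
    rw [div_lt_iff₀ hd0] at h6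
    rw [le_div_iff₀ hd0] at h5
    have e1 := measureReal_mono (μ := μ) (allBy_sub (A := A) (Q := Q) h4 (by linarith : t κ d < d * ((J d : ℝ) + 1))) (measure_ne_top _ _)
    have e2 := measureReal_mono (μ := μ) (sub_allBy (A := A) (Q := Q) (d := d) (J := J d - 1) (t := t κ d) (by
      rw [Nat.cast_sub h7]
      push_cast
      linarith)) (measure_ne_top _ _)
    rw [abs_lt] at h1' h2' ⊢
    constructor <;> linarith
  have hall : ∀ᶠ d : ℕ in atTop, ∀ g ∈ Q.divisors, kap Q d = kap Q g →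
      |μ.real {ω | AllBy (A ω) Q d (t (kap Q g) d)} - Real.exp (-Real.exp (-u))| < ε := by
    rw [Filter.eventually_all_finset]
    intro g _
    exact hfix (kap Q g) (kap_pos Q g)
  obtain ⟨N, hN⟩ := eventually_atTop.1 (hall.and (eventually_ge_atTop 1))
  refine ⟨N, fun d hd => ?_⟩
  obtain ⟨h1, h2⟩ := hN d hd.le
  have h3 := h1 (Nat.gcd d Q) (Nat.mem_divisors.2 ⟨Nat.gcd_dvd_right _ _, by omega⟩) (kap_gcd Q d)
  rw [← kap_gcd Q d] at h3
  rw [Real.dist_eq]
  have hd0 : (0 : ℝ) < d := by exact_mod_cast h2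
  have hk := kap_pos Q d
  have e1 : phi Q d * Real.log d * (Real.log d + 2 * Real.log (Real.log d) +
      2 * Real.log (phi Q d / d) - 1 - (Q : ℝ) / (2 * Nat.totient Q) + u) = t (kap Q d) d := by
    rw [ht, phi_eq hQ h2]
    have e2 : (d : ℝ) / kap Q d / d = (kap Q d)⁻¹ := by field_simp
    rw [e2, Real.log_inv]
    unfold qq
    show _ = (d : ℝ) / kap Q d * Real.log d * _
    congr 1
    ring
  rw [e1]
  exact h3

end Pool.Agent.Q120.GM
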