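import Pool.Agent.Q120.GM.ChainLow

/-!
# Arithmetic progressions of tuples in the sieved models
-/

set_option autoImplicit false

namespace Pool.Agent.Q120.GM

open Finset MeasureTheory ProbabilityTheory Filter Pool.Agent.Q120.AD
open scoped Topology

section general
variable {Ω : Type*} [MeasurableSpace Ω] {μ : Measure Ω} [IsProbabilityMeasure μ] {ι κ : Type*} {p : ι → ℝ} {A : Ω → Set ι}

/-- The second moment inequality, with a bound for the double sum. -/
theorem few2 (J : Finset κ) (G : κ → Set Ω) (hG : ∀ j ∈ J, MeasurableSet (G j)) {η : ℝ}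
    (hdb : ∑ i ∈ J, ∑ j ∈ J, μ.real (G i ∩ G j) ≤ (1 + η) * (∑ j ∈ J, μ.real (G j)) ^ 2)
    (hS : 0 < ∑ j ∈ J, μ.real (G j)) :
    μ.real {ω | num J G ω ≤ (∑ j ∈ J, μ.real (G j)) / 2} ≤ 4 * η := by
  obtain ⟨S, hSd⟩ : ∃ S, S = ∑ j ∈ J, μ.real (G j) := ⟨_, rfl⟩
  rw [← hSd] at hS hdb ⊢
  obtain ⟨h1, h2⟩ := num_int (μ := μ) J G hG
  rw [← hSd] at h2
  have hind : ∀ (E E' : Set Ω) (ω : Ω), E.indicator (fun _ => (1 : ℝ)) ω * E'.indicator (fun _ => (1 : ℝ)) ω =
      (E ∩ E').indicator (fun _ => (1 : ℝ)) ω := by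
    intro E E' ω
    by_cases h1 : ω ∈ E <;> by_cases h2 : ω ∈ E' <;> simp [h1, h2]
  have hsq : ∀ ω, (num J G ω - S) ^ 2 = (∑ i ∈ J, ∑ j ∈ J, (G i ∩ G j).indicator (fun _ => (1 : ℝ)) ω) -
      2 * S * num J G ω + S ^ 2 := by
    intro ω
    have h3 : num J G ω ^ 2 = ∑ i ∈ J, ∑ j ∈ J, (G i ∩ G j).indicator (fun _ => (1 : ℝ)) ω := by
      rw [sq]
      unfold num
      rw [sum_mul_sum]
      exact sum_congr rfl (fun i _ => sum_congr rfl (fun j _ => hind _ _ _))
    rw [← h3]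
    ring
  have hi1 : ∀ i ∈ J, ∀ j ∈ J, Integrable ((G i ∩ G j).indicator (fun _ => (1 : ℝ))) μ := fun i hi j hj =>
    (integrable_const 1).indicator ((hG i hi).inter (hG j hj))
  have hi2 : ∀ i ∈ J, Integrable (fun ω => ∑ j ∈ J, (G i ∩ G j).indicator (fun _ => (1 : ℝ)) ω) μ := fun i hi =>
    integrable_finsetSum _ (fun j hj => hi1 i hi j hj)
  have hi3 : Integrable (fun ω => ∑ i ∈ J, ∑ j ∈ J, (G i ∩ G j).indicator (fun _ => (1 : ℝ)) ω) μ :=
    integrable_finsetSum _ hi2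
  have hi4 : Integrable (fun ω => 2 * S * num J G ω) μ := h1.const_mul _
  have hi5 : Integrable (fun ω => (∑ i ∈ J, ∑ j ∈ J, (G i ∩ G j).indicator (fun _ => (1 : ℝ)) ω) -
      2 * S * num J G ω) μ := hi3.sub hi4
  have hi6 : Integrable (fun ω => (num J G ω - S) ^ 2) μ :=
    (hi5.add (integrable_const (S ^ 2))).congr (Eventually.of_forall (fun ω => by
      simp only [Pi.add_apply]
      rw [hsq ω]))
  have hint : ∫ ω, (num J G ω - S) ^ 2 ∂μ = (∑ i ∈ J, ∑ j ∈ J, μ.real (G i ∩ G j)) - 2 * S * S + S ^ 2 := by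
    calc ∫ ω, (num J G ω - S) ^ 2 ∂μ = ∫ ω, ((∑ i ∈ J, ∑ j ∈ J, (G i ∩ G j).indicator (fun _ => (1 : ℝ)) ω) -
          2 * S * num J G ω + S ^ 2) ∂μ := integral_congr_ae (Eventually.of_forall hsq)
      _ = _ := by
        rw [integral_add hi5 (integrable_const _), integral_sub hi3 hi4, integral_const_mul, h2, integral_const]
        rw [integral_finsetSum _ hi2]
        congr 1
        · congr 1
          refine sum_congr rfl (fun i hi => ?_)
          rw [integral_finsetSum _ (fun j hj => hi1 i hi j hj)]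
          refine sum_congr rfl (fun j hj => ?_)
          rw [integral_indicator_const _ ((hG i hi).inter (hG j hj))]
          simp
        · simp
  have hvar : ∫ ω, (num J G ω - S) ^ 2 ∂μ ≤ η * S ^ 2 := by
    rw [hint]
    nlinarith
  have h3 := mul_meas_ge_le_integral_of_nonneg (μ := μ) (f := fun ω => (num J G ω - S) ^ 2)
    (Eventually.of_forall (fun ω => sq_nonneg _)) hi6 ((S / 2) ^ 2)
  have h4 : {ω | num J G ω ≤ S / 2} ⊆ {ω | (S / 2) ^ 2 ≤ (num J G ω - S) ^ 2} := by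
    intro ω hω
    have hω' : num J G ω ≤ S / 2 := hω
    show (S / 2) ^ 2 ≤ (num J G ω - S) ^ 2
    nlinarith
  have h5 : μ.real {ω | num J G ω ≤ S / 2} ≤ μ.real {ω | (S / 2) ^ 2 ≤ (num J G ω - S) ^ 2} :=
    measureReal_mono h4 (measure_ne_top _ _)
  have h6 : (S / 2) ^ 2 * μ.real {ω | num J G ω ≤ S / 2} ≤ η * S ^ 2 :=
    (mul_le_mul_of_nonneg_left h5 (by positivity)).trans (h3.trans hvar)
  have h7 : μ.real {ω | num J G ω ≤ S / 2} ≤ (η * S ^ 2) / (S / 2) ^ 2 := by
    rw [le_div_iff₀ (by positivity)]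
    linarith
  refine h7.trans (le_of_eq ?_)
  field_simp
  ring

variable [DecidableEq ι]

/-- The probability of the union of two finite sets. -/
theorem all_inter (W V : Finset ι) : all A W ∩ all A V = all A (W ∪ V) := by
  ext ω
  constructor
  · rintro ⟨h1, h2⟩ n hn
    rw [mem_union] at hn
    rcases hn with hn | hn
    · exact h1 n hn
    · exact h2 n hn
  · intro h
    exact ⟨fun n hn => h n (mem_union_left _ hn), fun n hn => h n (mem_union_right _ hn)⟩

theorem real_all_inter (hA : IsModel μ p A) (W V : Finset ι) {p₀ : ℝ} {s : ℕ} (hp0 : 0 < p₀) (hp1 : p₀ ≤ 1)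
    (hp : ∀ i ∈ W ∩ V, p₀ ≤ p i) (hs : (W ∩ V).card ≤ s) :
    μ.real (all A W ∩ all A V) ≤ μ.real (all A W) * μ.real (all A V) * (1 / p₀) ^ s := by
  have h0 := prod_union_inter (s₁ := W) (s₂ := V) (f := p)
  rw [all_inter, real_all hA, real_all hA, real_all hA, ← h0]
  have h1 : p₀ ^ s ≤ ∏ i ∈ W ∩ V, p i := by
    calc p₀ ^ s ≤ p₀ ^ (W ∩ V).card := pow_le_pow_of_le_one hp0.le hp1 hs
      _ = ∏ _i ∈ W ∩ V, p₀ := by rw [prod_const]
      _ ≤ _ := Finset.prod_le_prod (fun _ _ => hp0.le) hp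
  have h2 : 0 ≤ ∏ i ∈ W ∪ V, p i := prod_nonneg (fun i _ => p_nonneg hA i)
  have h3 : p₀ ^ s * (1 / p₀) ^ s = 1 := by
    rw [← mul_pow, mul_one_div_cancel hp0.ne', one_pow]
  calc ∏ i ∈ W ∪ V, p i = (∏ i ∈ W ∪ V, p i) * (p₀ ^ s * (1 / p₀) ^ s) := by rw [h3, mul_one]
    _ = (∏ i ∈ W ∪ V, p i) * p₀ ^ s * (1 / p₀) ^ s := by ring
    _ ≤ (∏ i ∈ W ∪ V, p i) * (∏ i ∈ W ∩ V, p i) * (1 / p₀) ^ s :=
        mul_le_mul_of_nonneg_right (mul_le_mul_of_nonneg_left h1 h2) (by positivity)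

end general

/-- The union of the translates of `H` along a progression. -/
def prog (H : Finset ℕ) (L n d : ℕ) : Finset ℕ := (range L ×ˢ H).image (fun q => n + q.1 * d + q.2)

theorem mem_prog {H : Finset ℕ} {L n d m : ℕ} : m ∈ prog H L n d ↔ ∃ i < L, ∃ h ∈ H, m = n + i * d + h := by
  unfold prog
  rw [mem_image]
  constructor
  · rintro ⟨⟨i, h⟩, h1, h2⟩
    rw [mem_product, mem_range] at h1
    exact ⟨i, h1.1, h, h1.2, h2.symm⟩
  · rintro ⟨i, hi, h, hh, h2⟩
    exact ⟨(i, h), mem_product.2 ⟨mem_range.2 hi, hh⟩, h2.symm⟩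

theorem prog_inj {H : Finset ℕ} {L n d : ℕ} (hd : ∀ h ∈ H, h < d) :
    Set.InjOn (fun q : ℕ × ℕ => n + q.1 * d + q.2) (range L ×ˢ H : Finset (ℕ × ℕ)) := by
  rintro ⟨i, h⟩ h1 ⟨j, g⟩ h2 h3
  rw [mem_coe, mem_product] at h1 h2
  have e1 : n + i * d + h = n + j * d + g := h3
  have e2 := hd h h1.2
  have e3 := hd g h2.2
  have e4 : i * d + h = j * d + g := by omega
  have e5 : i = j := by
    have e6 : (i * d + h) / d = i := by
      rw [mul_comm, Nat.mul_add_div (by omega), Nat.div_eq_of_lt e2, add_zero]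
    have e7 : (j * d + g) / d = j := by
      rw [mul_comm, Nat.mul_add_div (by omega), Nat.div_eq_of_lt e3, add_zero]
    rw [← e6, ← e7, e4]
  subst e5
  have e6 : h = g := by omega
  rw [e6]

theorem prod_prog {H : Finset ℕ} {L n d : ℕ} (hd : ∀ h ∈ H, h < d) (g : ℕ → ℝ) :
    ∏ m ∈ prog H L n d, g m = ∏ q ∈ range L ×ˢ H, g (n + q.1 * d + q.2) := by
  unfold prog
  exact prod_image (prog_inj hd)

theorem card_prog_le (H : Finset ℕ) (L n d : ℕ) : (prog H L n d).card ≤ L * H.card := by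
  unfold prog
  refine card_image_le.trans ?_
  rw [card_product, card_range]

variable {Ω : Type*} [MeasurableSpace Ω] {μ : Measure Ω} [IsProbabilityMeasure μ] {A : Ω → Set ℕ} {Q : ℕ}

/-- Upper bound: all elements from the second translate on are at least `x`. -/
theorem prog_le (hA : IsModel μ (level Q) A) {H : Finset ℕ} {L n d : ℕ} (hd : ∀ h ∈ H, h < d) {x : ℝ} (hx0 : 0 < x)
    (hlog : 0 < Real.log x) (hx : x ≤ n + d) :
    μ.real (all A (prog H (L + 1) n d)) ≤ (qq Q / Real.log x) ^ (H.card * L) := by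
  have hsub : all A (prog H (L + 1) n d) ⊆ all A (prog H L (n + d) d) := by
    intro ω hω m hm
    apply hω
    rw [mem_prog] at hm ⊢
    obtain ⟨i, hi, h, hh, rfl⟩ := hm
    exact ⟨i + 1, by omega, h, hh, by ring⟩
  refine (measureReal_mono hsub (measure_ne_top _ _)).trans ?_
  rw [real_all hA, prod_prog hd]
  refine (Finset.prod_le_prod (fun i _ => level_nonneg Q _) (g := fun _ => qq Q / Real.log x) (fun q _ => ?_)).trans ?_
  · refine level_le hlog hx0 ?_
    push_cast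
    have h1 : (0 : ℝ) ≤ (q.1 : ℝ) * d + q.2 := by positivity
    linarith
  · rw [prod_const, card_product, card_range, mul_comm]

theorem prog_one_le (hA : IsModel μ (level Q) A) {H : Finset ℕ} {L n d : ℕ} (hH : H.Nonempty) (hd : 1 ≤ d) {x : ℝ}
    (hx0 : 0 < x) (hlog : 0 < Real.log x) (hx : x ≤ n + d) :
    μ.real (all A (prog H (L + 1) n d)) ≤ (qq Q / Real.log x) ^ L := by
  obtain ⟨h₀, hh⟩ := hH
  have hsub : all A (prog H (L + 1) n d) ⊆ all A ((range L).image (fun i => n + d + i * d + h₀)) := by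
    intro ω hω m hm
    apply hω
    rw [mem_image] at hm
    obtain ⟨i, hi, rfl⟩ := hm
    rw [mem_range] at hi
    rw [mem_prog]
    exact ⟨i + 1, by omega, h₀, hh, by ring⟩
  refine (measureReal_mono hsub (measure_ne_top _ _)).trans ?_
  rw [real_all hA, prod_image (fun i _ j _ hij => by
    have h1 : n + d + i * d + h₀ = n + d + j * d + h₀ := hij
    exact Nat.eq_of_mul_eq_mul_right hd (by omega))]
  refine (Finset.prod_le_prod (fun i _ => level_nonneg Q _) (g := fun _ => qq Q / Real.log x) (fun q _ => ?_)).trans ?_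
  · refine level_le hlog hx0 ?_
    push_cast
    have h1 : (0 : ℝ) ≤ (q : ℝ) * d + h₀ := by positivity
    linarith
  · rw [prod_const, card_range]

/-- Lower bound. -/
theorem le_prog (hA : IsModel μ (level Q) A) {H : Finset ℕ} {L n d : ℕ} (hd : ∀ h ∈ H, h < d) {y : ℝ}
    (hn : qq Q ≤ Real.log n) (hn1 : 0 < Real.log n) (hn0 : 1 ≤ n) (hy : ∀ i < L, ∀ h ∈ H, (n : ℝ) + i * d + h ≤ y)
    (hc : ∀ i, ∀ h ∈ H, (n + i * d + h).Coprime Q) :
    (qq Q / Real.log y) ^ (H.card * L) ≤ μ.real (all A (prog H L n d)) := by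
  rcases Nat.eq_zero_or_pos (H.card * L) with h0 | hpos
  · have h1 : prog H L n d = ∅ := by
      rw [Nat.mul_eq_zero] at h0
      unfold prog
      rcases h0 with h0 | h0
      · rw [card_eq_zero.1 h0]
        simp
      · rw [h0]
        simp
    rw [h0, pow_zero, h1, real_all hA, prod_empty]
  rw [real_all hA, prod_prog hd]
  have hHL : 0 < H.card ∧ 0 < L := by
    constructor
    · refine Nat.pos_of_ne_zero (fun h => ?_)
      rw [h] at hpos
      omega
    · refine Nat.pos_of_ne_zero (fun h => ?_)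
      rw [h] at hpos
      omega
  obtain ⟨h₀, hh₀⟩ := card_pos.1 hHL.1
  have hny : (n : ℝ) ≤ y := by
    have := hy 0 hHL.2 h₀ hh₀
    have h2 : (0 : ℝ) ≤ (h₀ : ℝ) := Nat.cast_nonneg _
    push_cast at this
    linarith
  have hn0' : (0 : ℝ) < n := by exact_mod_cast hn0
  refine le_trans (le_of_eq ?_) (Finset.prod_le_prod (f := fun _ => qq Q / Real.log y) (fun q _ => ?_) (fun q hq => ?_))
  · rw [prod_const, card_product, card_range, mul_comm]
  · exact div_nonneg (by unfold qq; positivity) (by linarith [Real.log_le_log hn0' hny])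
  · rw [mem_product, mem_range] at hq
    refine le_level hn hn1 hn0' ?_ ?_ (hc _ _ hq.2)
    · push_cast
      have h1 : (0 : ℝ) ≤ (q.1 : ℝ) * d + q.2 := by positivity
      linarith
    · have := hy q.1 hq.1 q.2 hq.2
      push_cast
      exact this

end Pool.Agent.Q120.GM
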