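import Pool.Agent.Q120.GM.ProgUp

/-!
# The lower bound for the progressions of tuples
-/

set_option autoImplicit false

namespace Pool.Agent.Q120.GM

open Finset MeasureTheory ProbabilityTheory Filter Pool.Agent.Q120.AD
open scoped Topology

/-- The pairs meeting a given set. -/
theorem card_meet (H : Finset ℕ) (L : ℕ) (W : Finset ℕ) (Jn Jd : Finset ℕ) :
    ((Jn ×ˢ Jd).filter (fun q => ¬ Disjoint W (prog H L q.1 q.2))).card ≤ W.card * (L * H.card) * Jd.card := by
  classical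
  have h1 : (Jn ×ˢ Jd).filter (fun q => ¬ Disjoint W (prog H L q.1 q.2)) ⊆
      ((W ×ˢ (range L ×ˢ H)) ×ˢ Jd).image (fun t => (t.1.1 - (t.1.2.1 * t.2 + t.1.2.2), t.2)) := by
    rintro ⟨n, d⟩ hq
    rw [mem_filter, mem_product, Finset.not_disjoint_iff] at hq
    obtain ⟨⟨_, hd⟩, w, hw, hw2⟩ := hq
    rw [mem_prog] at hw2
    obtain ⟨i, hi, h, hh, hwe⟩ := hw2
    rw [mem_image]
    refine ⟨((w, (i, h)), d), ?_, ?_⟩
    · rw [mem_product, mem_product, mem_product, mem_range]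
      exact ⟨⟨hw, hi, hh⟩, hd⟩
    · show (w - (i * d + h), d) = (n, d)
      rw [Prod.mk.injEq]
      refine ⟨?_, rfl⟩
      have : w = n + i * d + h := hwe
      omega
  refine (card_le_card h1).trans (card_image_le.trans ?_)
  rw [card_product, card_product, card_product, card_range]

/-- The pairs meeting a given set in more than `H.card` points. -/
theorem card_meet2 (H : Finset ℕ) (L : ℕ) (W : Finset ℕ) (Jn Jd : Finset ℕ) :
    ((Jn ×ˢ Jd).filter (fun q => H.card < (W ∩ prog H L q.1 q.2).card)).card ≤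
      (W.card * (L * H.card)) * (W.card * (L * H.card)) := by
  classical
  have h1 : (Jn ×ˢ Jd).filter (fun q => H.card < (W ∩ prog H L q.1 q.2).card) ⊆
      ((W ×ˢ (range L ×ˢ H)) ×ˢ (W ×ˢ (range L ×ˢ H))).image (fun t =>
        ((((t.1.1 : ℤ) - t.1.2.2 - t.1.2.1 * ((((t.1.1 : ℤ) - t.1.2.2) - ((t.2.1 : ℤ) - t.2.2.2)) /
          ((t.1.2.1 : ℤ) - t.2.2.1)))).toNat,
        (((((t.1.1 : ℤ) - t.1.2.2) - ((t.2.1 : ℤ) - t.2.2.2)) / ((t.1.2.1 : ℤ) - t.2.2.1))).toNat)) := by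
    rintro ⟨n, d⟩ hq
    rw [mem_filter, mem_product] at hq
    obtain ⟨_, hcard⟩ := hq
    have hne : (W ∩ prog H L n d).Nonempty := by
      rw [← card_pos]
      have : H.card < (W ∩ prog H L n d).card := hcard
      omega
    obtain ⟨w, hw⟩ := hne
    rw [mem_inter, mem_prog] at hw
    obtain ⟨hw1, i, hi, h, hh, hwe⟩ := hw
    have h2 : ¬ (W ∩ prog H L n d) ⊆ H.image (fun g => n + i * d + g) := by
      intro hsub
      have e1 := card_le_card hsub
      have e2 : (H.image (fun g => n + i * d + g)).card ≤ H.card := card_image_le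
      have e3 : H.card < (W ∩ prog H L n d).card := hcard
      omega
    rw [Finset.not_subset] at h2
    obtain ⟨v, hv, hv2⟩ := h2
    rw [mem_inter, mem_prog] at hv
    obtain ⟨hv1, j, hj, g, hg, hve⟩ := hv
    have hij : i ≠ j := by
      rintro rfl
      exact hv2 (mem_image.2 ⟨g, hg, hve.symm⟩)
    rw [mem_image]
    refine ⟨((w, (i, h)), (v, (j, g))), ?_, ?_⟩
    · simp only [mem_product, mem_range]
      exact ⟨⟨hw1, hi, hh⟩, hv1, hj, hg⟩
    · have e1 : (w : ℤ) - h = n + i * d := by rw [hwe]; push_cast; ring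
      have e2 : (v : ℤ) - g = n + j * d := by rw [hve]; push_cast; ring
      have e3 : ((i : ℤ) - j) ≠ 0 := by
        intro h0
        apply hij
        have : (i : ℤ) = j := by linarith
        exact_mod_cast this
      have e4 : (((w : ℤ) - h) - ((v : ℤ) - g)) / ((i : ℤ) - j) = d := by
        rw [e1, e2, show (n : ℤ) + i * d - (n + j * d) = ((i : ℤ) - j) * d by ring]
        exact Int.mul_ediv_cancel_left _ e3
      rw [Prod.mk.injEq]
      constructor
      · show ((w : ℤ) - h - i * ((((w : ℤ) - h) - ((v : ℤ) - g)) / ((i : ℤ) - j))).toNat = n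
        rw [e4, e1]
        have : (n : ℤ) + i * d - i * d = n := by ring
        rw [this, Int.toNat_natCast]
      · show ((((w : ℤ) - h) - ((v : ℤ) - g)) / ((i : ℤ) - j)).toNat = d
        rw [e4, Int.toNat_natCast]
  refine (card_le_card h1).trans (card_image_le.trans ?_)
  rw [card_product, card_product, card_product, card_range]

variable {Ω : Type*} [MeasurableSpace Ω] {μ : Measure Ω} [IsProbabilityMeasure μ] {A : Ω → Set ℕ} {Q : ℕ}

/-- The double sum. -/
theorem prog_double (hA : IsModel μ (level Q) A) (H : Finset ℕ) (L : ℕ) (Jn Jd : Finset ℕ) {p₀ pm : ℝ} (hp0 : 0 < p₀)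
    (hp1 : p₀ ≤ 1) (hp : ∀ q ∈ Jn ×ˢ Jd, ∀ m ∈ prog H L q.1 q.2, p₀ ≤ level Q m)
    (hpm : ∀ q ∈ Jn ×ˢ Jd, μ.real (all A (prog H L q.1 q.2)) ≤ pm) (hpm0 : 0 ≤ pm) :
    ∑ q ∈ Jn ×ˢ Jd, ∑ t ∈ Jn ×ˢ Jd, μ.real (all A (prog H L q.1 q.2) ∩ all A (prog H L t.1 t.2)) ≤
      (∑ q ∈ Jn ×ˢ Jd, μ.real (all A (prog H L q.1 q.2))) ^ 2 +
      (∑ q ∈ Jn ×ˢ Jd, μ.real (all A (prog H L q.1 q.2))) *
        (((L * H.card : ℝ) ^ 2 * Jd.card) * (pm * (1 / p₀) ^ H.card) + (L * H.card : ℝ) ^ 4) := by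
  classical
  obtain ⟨G, hG⟩ : ∃ G : ℕ × ℕ → Set Ω, G = fun (q : ℕ × ℕ) => all A (prog H L q.1 q.2) := ⟨_, rfl⟩
  have hGq : ∀ q, all A (prog H L q.1 q.2) = G q := fun q => by rw [hG]
  have hterm : ∀ q ∈ Jn ×ˢ Jd, ∑ t ∈ Jn ×ˢ Jd, μ.real (all A (prog H L q.1 q.2) ∩ all A (prog H L t.1 t.2)) ≤
      μ.real (G q) * (∑ t ∈ Jn ×ˢ Jd, μ.real (G t)) + μ.real (G q) *
        (((L * H.card : ℝ) ^ 2 * Jd.card) * (pm * (1 / p₀) ^ H.card) + (L * H.card : ℝ) ^ 4) := by
    intro q hq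
    have h1 : ∀ t ∈ Jn ×ˢ Jd, μ.real (all A (prog H L q.1 q.2) ∩ all A (prog H L t.1 t.2)) ≤
        μ.real (G q) * μ.real (G t) +
        (if ¬ Disjoint (prog H L q.1 q.2) (prog H L t.1 t.2) then μ.real (G q) * (pm * (1 / p₀) ^ H.card) else 0) +
        (if H.card < (prog H L q.1 q.2 ∩ prog H L t.1 t.2).card then μ.real (G q) else 0) := by
      intro t ht
      have g0 : 0 ≤ μ.real (G q) := measureReal_nonneg
      have g1 : 0 ≤ μ.real (G t) := measureReal_nonneg
      have g2 : 0 ≤ pm * (1 / p₀) ^ H.card := by positivity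
      by_cases h2 : Disjoint (prog H L q.1 q.2) (prog H L t.1 t.2)
      · have h3 := real_all_inter hA (prog H L q.1 q.2) (prog H L t.1 t.2) hp0 hp1 (s := 0)
          (fun i hi => hp q hq i (mem_inter.1 hi).1) (by rw [disjoint_iff_inter_eq_empty.1 h2, card_empty])
        rw [pow_zero, mul_one] at h3
        rw [if_neg (not_not.2 h2), disjoint_iff_inter_eq_empty.1 h2, card_empty, if_neg (Nat.not_lt_zero _)]
        rw [hGq, hGq] at h3 ⊢
        linarith
      · rw [if_pos h2]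
        by_cases h4 : H.card < (prog H L q.1 q.2 ∩ prog H L t.1 t.2).card
        · rw [if_pos h4]
          have h5 : μ.real (all A (prog H L q.1 q.2) ∩ all A (prog H L t.1 t.2)) ≤ μ.real (G q) := by
            rw [hGq, hGq]
            exact measureReal_mono Set.inter_subset_left (measure_ne_top _ _)
          have g3 : 0 ≤ μ.real (G q) * μ.real (G t) := mul_nonneg g0 g1
          have g4 : 0 ≤ μ.real (G q) * (pm * (1 / p₀) ^ H.card) := mul_nonneg g0 g2
          linarith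
        · rw [if_neg h4]
          push Not at h4
          have h3 := real_all_inter hA (prog H L q.1 q.2) (prog H L t.1 t.2) hp0 hp1
            (fun i hi => hp q hq i (mem_inter.1 hi).1) h4
          have h5 : μ.real (all A (prog H L q.1 q.2)) * μ.real (all A (prog H L t.1 t.2)) * (1 / p₀) ^ H.card ≤
              μ.real (G q) * (pm * (1 / p₀) ^ H.card) := by
            rw [mul_assoc, hGq q]
            refine mul_le_mul_of_nonneg_left ?_ g0
            exact mul_le_mul_of_nonneg_right (hpm t ht) (by positivity)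
          have g3 : 0 ≤ μ.real (G q) * μ.real (G t) := mul_nonneg g0 g1
          linarith
    refine (sum_le_sum h1).trans ?_
    rw [sum_add_distrib, sum_add_distrib, ← mul_sum, ← sum_filter, ← sum_filter, sum_const, sum_const,
      nsmul_eq_mul, nsmul_eq_mul, add_assoc]
    gcongr ?_ + ?_
    · exact le_refl _
    · have g0 : 0 ≤ μ.real (G q) := measureReal_nonneg
      have e1 : (((Jn ×ˢ Jd).filter (fun t => ¬ Disjoint (prog H L q.1 q.2) (prog H L t.1 t.2))).card : ℝ) ≤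
          (L * H.card : ℝ) ^ 2 * Jd.card := by
        have e2 := card_meet H L (prog H L q.1 q.2) Jn Jd
        have e3 := card_prog_le H L q.1 q.2
        have e4 : (prog H L q.1 q.2).card * (L * H.card) * Jd.card ≤ L * H.card * (L * H.card) * Jd.card :=
          Nat.mul_le_mul_right _ (Nat.mul_le_mul_right _ e3)
        have e5 : (((Jn ×ˢ Jd).filter (fun t => ¬ Disjoint (prog H L q.1 q.2) (prog H L t.1 t.2))).card : ℝ) ≤
            ((L * H.card * (L * H.card) * Jd.card : ℕ) : ℝ) := by exact_mod_cast e2.trans e4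
        push_cast at e5
        rw [sq]
        exact e5
      have e1' : (((Jn ×ˢ Jd).filter (fun t => H.card < (prog H L q.1 q.2 ∩ prog H L t.1 t.2).card)).card : ℝ) ≤
          (L * H.card : ℝ) ^ 4 := by
        have e2 := card_meet2 H L (prog H L q.1 q.2) Jn Jd
        have e3 := card_prog_le H L q.1 q.2
        have e4 : (prog H L q.1 q.2).card * (L * H.card) ≤ L * H.card * (L * H.card) :=
          Nat.mul_le_mul_right _ e3
        have e5 : (((Jn ×ˢ Jd).filter (fun t => H.card < (prog H L q.1 q.2 ∩ prog H L t.1 t.2).card)).card : ℝ) ≤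
            ((L * H.card * (L * H.card) * (L * H.card * (L * H.card)) : ℕ) : ℝ) := by
          exact_mod_cast e2.trans (Nat.mul_le_mul e4 e4)
        push_cast at e5
        refine e5.trans (le_of_eq ?_)
        ring
      have e6 := mul_le_mul_of_nonneg_right e1 (mul_nonneg g0 (show 0 ≤ pm * (1 / p₀) ^ H.card by positivity))
      have e7 := mul_le_mul_of_nonneg_right e1' g0
      rw [mul_add]
      refine (add_le_add e6 e7).trans (le_of_eq ?_)
      ring
  refine (sum_le_sum hterm).trans ?_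
  have hsum : ∑ q ∈ Jn ×ˢ Jd, μ.real (all A (prog H L q.1 q.2)) = ∑ q ∈ Jn ×ˢ Jd, μ.real (G q) := by rw [hG]
  rw [sum_add_distrib, ← sum_mul, ← sum_mul, hsum]
  exact le_of_eq (by ring)

theorem prog_le' (hA : IsModel μ (level Q) A) {H : Finset ℕ} {L n d : ℕ} (hd : ∀ h ∈ H, h < d) {x : ℝ} (hx0 : 0 < x)
    (hlog : 0 < Real.log x) (hx : x ≤ n) :
    μ.real (all A (prog H L n d)) ≤ (qq Q / Real.log x) ^ (H.card * L) := by
  rw [real_all hA, prod_prog hd]
  refine (Finset.prod_le_prod (fun i _ => level_nonneg Q _) (g := fun _ => qq Q / Real.log x) (fun q _ => ?_)).trans ?_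
  · refine level_le hlog hx0 ?_
    push_cast
    have h1 : (0 : ℝ) ≤ (q.1 : ℝ) * d + q.2 := by positivity
    linarith
  · rw [prod_const, card_product, card_range, mul_comm]

/-- The differences. -/
def jd (Q b : ℕ) : Finset ℕ := (Ico b (2 * b)).image (fun e => Q * e)

theorem mem_jd {Q b d : ℕ} (h : d ∈ jd Q b) : Q ∣ d ∧ Q * b ≤ d ∧ d ≤ 2 * (Q * b) := by
  unfold jd at h
  rw [mem_image] at h
  obtain ⟨e, he, rfl⟩ := h
  rw [mem_Ico] at he
  refine ⟨dvd_mul_right Q e, Nat.mul_le_mul_left Q he.1, ?_⟩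
  have : Q * e ≤ Q * (2 * b) := Nat.mul_le_mul_left Q he.2.le
  calc Q * e ≤ Q * (2 * b) := this
    _ = 2 * (Q * b) := by ring

theorem card_jd {Q : ℕ} (hQ : 1 ≤ Q) (b : ℕ) : (jd Q b).card = b := by
  unfold jd
  rw [card_image_of_injective _ (fun x y hxy => Nat.eq_of_mul_eq_mul_left hQ hxy), Nat.card_Ico]
  omega

theorem pow_exp (D : ℝ) (m : ℕ) : ∀ᶠ L : ℝ in atTop, D * L ^ m ≤ Real.exp L := by
  have g1 : Tendsto (fun y : ℝ => y ^ m / Real.exp y) atTop (nhds 0) := by
    have := Real.tendsto_pow_mul_exp_neg_atTop_nhds_zero m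
    refine this.congr (fun y => ?_)
    rw [Real.exp_neg, div_eq_mul_inv]
  have hpos : (0 : ℝ) < 1 / (|D| + 1) := by positivity
  filter_upwards [g1.eventually_le_const hpos, eventually_ge_atTop (0 : ℝ)] with L h1 h2
  rw [div_le_iff₀ (Real.exp_pos _)] at h1
  have h3 : D * L ^ m ≤ (|D| + 1) * L ^ m := mul_le_mul_of_nonneg_right (by linarith [le_abs_self D]) (by positivity)
  have h4 : (|D| + 1) * L ^ m ≤ (|D| + 1) * (1 / (|D| + 1) * Real.exp L) := mul_le_mul_of_nonneg_left h1 (by positivity)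
  have h5 : (|D| + 1) * (1 / (|D| + 1) * Real.exp L) = Real.exp L := by field_simp
  linarith

/-- **The lower bound.** -/
theorem prog_lower (hA : IsModel μ (level Q) A) (hQ : 1 ≤ Q) {H : Finset ℕ} (hH : H.Nonempty) {r : ℕ}
    (hr : ∀ h ∈ H, (r + h).Coprime Q) {ε : ℝ} (hε : 0 < ε) :
    ∀ᵐ ω ∂μ, ∀ᶠ x : ℕ in atTop, ∃ n d l : ℕ, (∀ h ∈ H, h < d) ∧ n + l * d ≤ x ∧
      (∀ i < l, ∀ h ∈ H, n + i * d + h ∈ A ω) ∧ 2 * GG (-Real.log (qq Q) + ε) (Real.log x) ≤ H.card * l := by
  classical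
  have hq := qq_pos hQ
  have hQ0 : (0 : ℝ) < Q := by exact_mod_cast hQ
  have hk0 : 0 < H.card := card_pos.2 hH
  have hk : (0 : ℝ) < H.card := by exact_mod_cast hk0
  have hk1 : (1 : ℝ) ≤ H.card := by exact_mod_cast hk0
  have hlog2 : 0 < Real.log 2 := Real.log_pos (by norm_num)
  obtain ⟨c, hc⟩ : ∃ c, c = -Real.log (qq Q) + ε := ⟨_, rfl⟩
  rw [← hc]
  have tsh : Tendsto (fun j : ℕ => Real.log ((2 : ℝ) ^ (j + 3))) atTop atTop :=
    tendsto_log_two_pow.comp (tendsto_add_atTop_nat 3)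
  obtain ⟨N, hN⟩ : ∃ N : ℕ → ℕ, N = fun (j : ℕ) => ⌈2 / (H.card : ℝ) * GG c (Real.log ((2 : ℝ) ^ (j + 3)))⌉₊ := ⟨_, rfl⟩
  obtain ⟨b, hb⟩ : ∃ b : ℕ → ℕ, b = fun (j : ℕ) => 2 ^ j / (4 * Q * N j) := ⟨_, rfl⟩
  obtain ⟨hm, hhm⟩ : ∃ hm : ℕ, ∀ h ∈ H, h ≤ hm := ⟨H.sup id, fun h hh => le_sup (f := id) hh⟩
  obtain ⟨G, hG⟩ : ∃ G : ℕ → ℕ × ℕ → Set Ω, G = fun (j : ℕ) (q : ℕ × ℕ) => all A (prog H (N j) q.1 q.2) := ⟨_, rfl⟩
  obtain ⟨R, hR⟩ : ∃ R, R = 8 + H.card + 2 * |Real.log (32 * Q)| + 2 * |Real.log (64 * Q)| + H.card * |Real.log (qq Q)| := ⟨_, rfl⟩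
  -- basic facts at level j
  have facts : ∀ᶠ j : ℕ in atTop, 1 ≤ N j ∧ (H.card : ℝ) * N j ≤ Real.log ((2 : ℝ) ^ j) ∧
      (H.card : ℝ) * N j ≤ 2 * GG c (Real.log ((2 : ℝ) ^ (j + 3))) + H.card ∧
      2 * GG c (Real.log ((2 : ℝ) ^ (j + 3))) ≤ H.card * N j ∧
      (2 : ℝ) ^ j / (8 * Q * N j) ≤ b j ∧ hm + 1 ≤ b j := by
    have g1 := tsh.eventually (GG_big c 1)
    have g2 := tsh.eventually (GG_small c (show (0 : ℝ) < 1 / 8 by norm_num))
    have g3 := tsh.eventually (loglog (c := c) 1)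
    have g4 := tsh.eventually_ge_atTop (16 * (H.card + 3 * Real.log 2 + 1))
    have g5 := tsh.eventually (pow_exp (64 * Q * (hm + 2)) 1)
    filter_upwards [g1, g2, g3, g4, g5] with j h1 h2 h3 h4 h5
    obtain ⟨L, hL⟩ : ∃ L, L = Real.log ((2 : ℝ) ^ (j + 3)) := ⟨_, rfl⟩
    rw [← hL] at h1 h2 h3 h4 h5
    rw [← hL]
    have hL0 : 0 < L := by nlinarith
    have hL1 : 1 ≤ L := by nlinarith
    have hlogL : 0 ≤ Real.log L := Real.log_nonneg hL1
    have hG1 : 1 ≤ GG c L := by linarith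
    have hNj : N j = ⌈2 / (H.card : ℝ) * GG c L⌉₊ := by rw [hN, hL]
    have hN1 : 2 / (H.card : ℝ) * GG c L ≤ N j := by rw [hNj]; exact Nat.le_ceil _
    have hN2 : (N j : ℝ) ≤ 2 / (H.card : ℝ) * GG c L + 1 := by
      rw [hNj]
      exact (Nat.ceil_lt_add_one (by positivity)).le
    have hN3 : (H.card : ℝ) * N j ≤ 2 * GG c L + H.card := by
      have := mul_le_mul_of_nonneg_left hN2 hk.le
      have e1 : (H.card : ℝ) * (2 / (H.card : ℝ) * GG c L + 1) = 2 * GG c L + H.card := by field_simp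
      linarith
    have hN4 : 2 * GG c L ≤ (H.card : ℝ) * N j := by
      have := mul_le_mul_of_nonneg_left hN1 hk.le
      have e1 : (H.card : ℝ) * (2 / (H.card : ℝ) * GG c L) = 2 * GG c L := by field_simp
      linarith
    have hN0 : 1 ≤ N j := by
      rw [hNj]
      exact Nat.ceil_pos.2 (by positivity)
    have hLj : Real.log ((2 : ℝ) ^ j) = L - 3 * Real.log 2 := by
      rw [hL, log_two_pow, log_two_pow]
      push_cast
      ring
    have hNL : (H.card : ℝ) * N j ≤ Real.log ((2 : ℝ) ^ j) := by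
      rw [hLj]
      linarith
    have hNL' : (N j : ℝ) ≤ L := by
      have : (N j : ℝ) ≤ H.card * N j := by
        have : (0 : ℝ) ≤ N j := Nat.cast_nonneg _
        nlinarith
      rw [hLj] at hNL
      linarith
    have hN0' : (0 : ℝ) < N j := by exact_mod_cast hN0
    have hexp : Real.exp L = 8 * 2 ^ j := by
      rw [hL, Real.exp_log (by positivity), pow_add]
      ring
    rw [pow_one, hexp] at h5
    have hm0 : (0 : ℝ) ≤ hm := Nat.cast_nonneg _
    have hbig : 8 * (Q : ℝ) * N j * (hm + 2) ≤ 2 ^ j := by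
      have e1 : 8 * (Q : ℝ) * N j * (hm + 2) ≤ 8 * Q * L * (hm + 2) := by
        have : 8 * (Q : ℝ) * N j ≤ 8 * Q * L := mul_le_mul_of_nonneg_left hNL' (by positivity)
        exact mul_le_mul_of_nonneg_right this (by linarith)
      nlinarith
    have hbj : (2 : ℝ) ^ j / (4 * Q * N j) - 1 ≤ b j := by
      have e1 : ((2 ^ j : ℕ) : ℝ) / ((4 * Q * N j : ℕ) : ℝ) < ((2 ^ j / (4 * Q * N j) : ℕ) : ℝ) + 1 := by
        have := Nat.lt_floor_add_one (((2 ^ j : ℕ) : ℝ) / ((4 * Q * N j : ℕ) : ℝ))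
        rw [Nat.floor_div_natCast, Nat.floor_natCast] at this
        exact this
      push_cast at e1
      have e2 : ((b j : ℕ) : ℝ) = ((2 ^ j / (4 * Q * N j) : ℕ) : ℝ) := by rw [hb]
      rw [e2]
      push_cast
      linarith
    have hdiv : (hm : ℝ) + 2 ≤ (2 : ℝ) ^ j / (8 * Q * N j) := by
      rw [le_div_iff₀ (by positivity)]
      linarith
    have hdiv2 : (2 : ℝ) ^ j / (4 * Q * N j) = 2 * ((2 : ℝ) ^ j / (8 * Q * N j)) := by
      field_simp
      ring
    refine ⟨hN0, hNL, hN3, hN4, ?_, ?_⟩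
    · rw [hdiv2] at hbj
      linarith
    · rw [hdiv2] at hbj
      have : (hm : ℝ) + 1 ≤ b j := by linarith
      exact_mod_cast this
  -- bounds for the probabilities
  have geom : ∀ᶠ j : ℕ in atTop, ∀ q ∈ blk Q r (2 ^ j) ×ˢ jd Q (b j),
      (∀ h ∈ H, h < q.2) ∧ q.1 + N j * q.2 ≤ 2 ^ (j + 2) ∧ (2 ^ j : ℕ) ≤ q.1 ∧
      (∀ i < N j, ∀ h ∈ H, ((q.1 : ℝ) + i * q.2 + h ≤ 2 ^ (j + 3))) ∧ (∀ i, ∀ h ∈ H, (q.1 + i * q.2 + h).Coprime Q) := by
    filter_upwards [facts, two_pow_tendsto.eventually_ge_atTop hm] with j hj hjm q hq'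
    rw [mem_product] at hq'
    have h1 := mem_blk hq'.1
    have h2 := mem_jd hq'.2
    have h3 : b j ≤ Q * b j := Nat.le_mul_of_pos_left _ hQ
    have h4 : N j * q.2 ≤ 2 ^ j := by
      have e1 : 4 * Q * N j * b j ≤ 2 ^ j := by
        rw [hb]
        exact Nat.mul_div_le _ _
      calc N j * q.2 ≤ N j * (2 * (Q * b j)) := Nat.mul_le_mul_left _ h2.2.2
        _ ≤ 4 * Q * N j * b j := by nlinarith
        _ ≤ _ := e1
    have h5 : 2 ^ (j + 2) = 4 * 2 ^ j := by ring
    have h6 : 2 ^ (j + 3) = 8 * 2 ^ j := by ring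
    refine ⟨fun h hh => ?_, by omega, by omega, fun i hi h hh => ?_, fun i h hh => ?_⟩
    · have := hhm h hh
      have := hj.2.2.2.2.2
      omega
    · have e1 := hhm h hh
      have e2 : i * q.2 ≤ N j * q.2 := Nat.mul_le_mul_right _ hi.le
      have e3 : q.1 + i * q.2 + h ≤ 2 ^ (j + 3) := by omega
      exact_mod_cast e3
    · have e1 : q.1 + i * q.2 + h ≡ r + h [MOD Q] := by
        have e2 : q.1 ≡ r [MOD Q] := h1.2.2
        have e3 : i * q.2 ≡ 0 [MOD Q] := (Nat.modEq_zero_iff_dvd).2 (h2.1.mul_left i)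
        have e4 := (e2.add e3).add_right h
        rw [add_zero] at e4
        exact e4
      rw [Nat.coprime_iff_gcd_eq_one, e1.gcd_eq]
      exact hr h hh
  have hS : ∀ᶠ j : ℕ in atTop, 0 < ∑ q ∈ blk Q r (2 ^ j) ×ˢ jd Q (b j), μ.real (G j q) ∧
      ∑ q ∈ blk Q r (2 ^ j) ×ˢ jd Q (b j), ∑ t ∈ blk Q r (2 ^ j) ×ˢ jd Q (b j), μ.real (G j q ∩ G j t) ≤
        (1 + 2 / Real.log ((2 : ℝ) ^ (j + 3)) ^ 2) * (∑ q ∈ blk Q r (2 ^ j) ×ˢ jd Q (b j), μ.real (G j q)) ^ 2 := by
    have g1 := tsh.eventually (GG_big c (R / ε))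
    have g3 := tsh.eventually (loglog (c := c) 1)
    have g4 := tsh.eventually (loglog (c := -Real.log (qq Q)) 1)
    have g5 := tsh.eventually (pow_exp (8 * 32 * Q * (1 / qq Q) ^ H.card) (4 + H.card))
    have g6 := two_pow_tendsto.eventually (card_blk hQ r)
    have g7 := tendsto_log_two_pow.eventually_ge_atTop (qq Q + 1)
    filter_upwards [facts, geom, g1, g3, g4, g5, g6, g7] with j hf hgeo h1 h3 h4 h5 h6 h7
    obtain ⟨L, hL⟩ : ∃ L, L = Real.log ((2 : ℝ) ^ (j + 3)) := ⟨_, rfl⟩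
    obtain ⟨f1, f2, f3, f4, f5, f6⟩ := hf
    rw [← hL] at h1 h3 h4 h5 f3 f4 ⊢
    have hLj : Real.log ((2 : ℝ) ^ j) = L - 3 * Real.log 2 := by
      rw [hL, log_two_pow, log_two_pow]
      push_cast
      ring
    obtain ⟨L', hL'⟩ : ∃ L', L' = Real.log ((2 : ℝ) ^ j) := ⟨_, rfl⟩
    rw [← hL'] at hLj h7 f2
    have hL'0 : 0 < L' := by linarith
    have hL'1 : 1 ≤ L' := by linarith
    have hLL' : L' ≤ L := by linarith
    have hL1 : 1 ≤ L := by linarith
    have hL0 : 0 < L := by linarith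
    have hlogL : 0 ≤ Real.log L := Real.log_nonneg hL1
    have hNpos : (0 : ℝ) < N j := by exact_mod_cast f1
    have hexp : Real.exp L = 8 * 2 ^ j := by
      rw [hL, Real.exp_log (by positivity), pow_add]
      ring
    -- the extreme probabilities
    obtain ⟨pm, hpm⟩ : ∃ pm, pm = (qq Q / L') ^ (H.card * N j) := ⟨_, rfl⟩
    obtain ⟨pn, hpn⟩ : ∃ pn, pn = (qq Q / L) ^ (H.card * N j) := ⟨_, rfl⟩
    have hpn0 : 0 < pn := by rw [hpn]; positivity
    have hpm0 : 0 < pm := by rw [hpm]; positivity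
    have hup : ∀ q ∈ blk Q r (2 ^ j) ×ˢ jd Q (b j), μ.real (all A (prog H (N j) q.1 q.2)) ≤ pm := by
      intro q hq'
      obtain ⟨e1, _, e3, _, _⟩ := hgeo q hq'
      rw [hpm, hL']
      refine prog_le' hA e1 (by positivity) (by rw [← hL']; exact hL'0) ?_
      exact_mod_cast e3
    have hlow : ∀ q ∈ blk Q r (2 ^ j) ×ˢ jd Q (b j), pn ≤ μ.real (all A (prog H (N j) q.1 q.2)) := by
      intro q hq'
      obtain ⟨e1, _, e3, e4, e5⟩ := hgeo q hq'
      have e6 : 1 ≤ q.1 := le_trans Nat.one_le_two_pow e3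
      have e7 : L' ≤ Real.log q.1 := by
        rw [hL']
        exact Real.log_le_log (by positivity) (by exact_mod_cast e3)
      rw [hpn, hL]
      exact le_prog hA e1 (by linarith) (by linarith) e6 e4 e5
    have hpel : ∀ q ∈ blk Q r (2 ^ j) ×ˢ jd Q (b j), ∀ m ∈ prog H (N j) q.1 q.2, qq Q / L ≤ level Q m := by
      intro q hq' m hm
      obtain ⟨e1, _, e3, e4, e5⟩ := hgeo q hq'
      rw [mem_prog] at hm
      obtain ⟨i, hi, h, hh, rfl⟩ := hm
      have e8 : ((2 ^ j : ℕ) : ℝ) ≤ ((q.1 + i * q.2 + h : ℕ) : ℝ) := by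
        have : 2 ^ j ≤ q.1 + i * q.2 + h := by omega
        exact_mod_cast this
      push_cast at e8
      rw [hL]
      refine le_level (x := (2 : ℝ) ^ j) (by rw [← hL']; linarith) (by rw [← hL']; exact hL'0) (by positivity) ?_ ?_ (e5 i h hh)
      · push_cast
        exact e8
      · have := e4 i hi h hh
        push_cast
        exact this
    have hp1 : qq Q / L ≤ 1 := by rw [div_le_one hL0]; linarith
    have hdouble := prog_double (μ := μ) hA H (N j) (blk Q r (2 ^ j)) (jd Q (b j)) (p₀ := qq Q / L) (pm := pm)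
      (by positivity) hp1 hpel hup hpm0.le
    have hGd : ∑ q ∈ blk Q r (2 ^ j) ×ˢ jd Q (b j), μ.real (G j q) =
        ∑ q ∈ blk Q r (2 ^ j) ×ˢ jd Q (b j), μ.real (all A (prog H (N j) q.1 q.2)) := by rw [hG]
    have hGd2 : ∑ q ∈ blk Q r (2 ^ j) ×ˢ jd Q (b j), ∑ t ∈ blk Q r (2 ^ j) ×ˢ jd Q (b j), μ.real (G j q ∩ G j t) =
        ∑ q ∈ blk Q r (2 ^ j) ×ˢ jd Q (b j), ∑ t ∈ blk Q r (2 ^ j) ×ˢ jd Q (b j),
          μ.real (all A (prog H (N j) q.1 q.2) ∩ all A (prog H (N j) t.1 t.2)) := by rw [hG]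
    rw [hGd, hGd2]
    obtain ⟨S, hSd⟩ : ∃ S, S = ∑ q ∈ blk Q r (2 ^ j) ×ˢ jd Q (b j), μ.real (all A (prog H (N j) q.1 q.2)) := ⟨_, rfl⟩
    rw [← hSd] at hdouble ⊢
    obtain ⟨U, hU⟩ : ∃ U : ℝ, U = (blk Q r (2 ^ j)).card := ⟨_, rfl⟩
    have hUlow : Real.exp (L - Real.log (32 * Q)) ≤ U := by
      rw [hU]
      refine le_trans (le_of_eq ?_) h6
      rw [Real.exp_sub, Real.exp_log (by positivity), hexp]
      push_cast
      field_simp
      ring
    have hU0 : 0 < U := lt_of_lt_of_le (Real.exp_pos _) hUlow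
    have hbpos : (0 : ℝ) < b j := by
      have : 0 < b j := by omega
      exact_mod_cast this
    have hSlow : U * b j * pn ≤ S := by
      have e1 : ((blk Q r (2 ^ j) ×ˢ jd Q (b j)).card : ℝ) * pn ≤ S := by
        rw [hSd, ← nsmul_eq_mul]
        exact Finset.card_nsmul_le_sum _ _ _ hlow
      rw [card_product, card_jd hQ] at e1
      push_cast at e1
      rw [hU]
      exact e1
    have hS0 : 0 < S := lt_of_lt_of_le (by positivity) hSlow
    -- the ratio of the probabilities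
    have hratio : pm ≤ 8 * pn := by
      rw [hpm, hpn]
      have e1 : qq Q / L' = (qq Q / L) * (L / L') := by field_simp
      rw [e1, mul_pow, mul_comm]
      refine mul_le_mul_of_nonneg_right ?_ (by positivity)
      have e2 : L / L' ≤ Real.exp (3 * Real.log 2 / L') := by
        have e3 : L / L' = 3 * Real.log 2 / L' + 1 := by
          have : L = L' + 3 * Real.log 2 := by linarith
          rw [this]
          field_simp
          ring
        rw [e3]
        exact Real.add_one_le_exp _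
      refine (pow_le_pow_left₀ (by positivity) e2 _).trans ?_
      rw [← Real.exp_nat_mul]
      have e3 : ((H.card * N j : ℕ) : ℝ) * (3 * Real.log 2 / L') ≤ 3 * Real.log 2 := by
        push_cast
        rw [← mul_div_assoc, div_le_iff₀ hL'0]
        nlinarith
      refine (Real.exp_le_exp.2 e3).trans (le_of_eq ?_)
      rw [mul_comm, Real.exp_mul, Real.exp_log (by norm_num)]
      norm_num
    -- the size of S
    have hkN : (H.card : ℝ) * N j ≤ L := by linarith
    have hNL : (N j : ℝ) ≤ L := by nlinarith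
    have hb1 : Real.exp (L - Real.log (64 * Q) - Real.log L) ≤ b j := by
      refine le_trans ?_ f5
      rw [Real.exp_sub, Real.exp_sub, Real.exp_log (by positivity), Real.exp_log hL0, hexp, div_div]
      rw [div_le_div_iff₀ (by positivity) (by positivity)]
      have : (2 : ℝ) ^ j * (8 * Q) * (8 * N j) ≤ (2 : ℝ) ^ j * (8 * Q) * (8 * L) :=
        mul_le_mul_of_nonneg_left (by linarith) (by positivity)
      nlinarith
    have hS6 : L ^ 6 ≤ S := by
      refine le_trans ?_ hSlow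
      have e1 : pn = Real.exp (-(H.card * N j * (Real.log L - Real.log (qq Q)))) := by
        rw [hpn, ← Real.exp_log (show 0 < qq Q / L by positivity), ← Real.exp_nat_mul, Real.log_div hq.ne' hL0.ne']
        congr 1
        push_cast
        ring
      have e2 : Real.exp (-((2 * GG c L + H.card) * (Real.log L - Real.log (qq Q)))) ≤ pn := by
        rw [e1, Real.exp_le_exp]
        have := mul_le_mul_of_nonneg_right f3 (show 0 ≤ Real.log L - Real.log (qq Q) by linarith)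
        linarith
      have e3 : Real.exp (L - Real.log (32 * Q)) * Real.exp (L - Real.log (64 * Q) - Real.log L) *
          Real.exp (-((2 * GG c L + H.card) * (Real.log L - Real.log (qq Q)))) ≤ U * b j * pn := by
        gcongr
      refine le_trans ?_ e3
      rw [← Real.exp_add, ← Real.exp_add]
      have e4 : L ^ 6 = Real.exp (6 * Real.log L) := by
        rw [mul_comm, Real.exp_mul, Real.exp_log hL0]
        norm_cast
      rw [e4, Real.exp_le_exp]
      have e5 : GG c L * (Real.log L + c) = L := by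
        unfold GG
        field_simp
      have e6 : (2 * GG c L + H.card) * (Real.log L - Real.log (qq Q)) =
          2 * L - 2 * (ε * GG c L) + H.card * (Real.log L - Real.log (qq Q)) := by
        have : Real.log L - Real.log (qq Q) = (Real.log L + c) - ε := by rw [hc]; ring
        rw [add_mul]
        congr 1
        rw [this, mul_sub, mul_assoc, e5]
        ring
      rw [e6]
      have e7 : R * Real.log L + R ≤ ε * GG c L := by
        have e7 := mul_le_mul_of_nonneg_left h1 hε.le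
        have e8 : ε * (R / ε * Real.log L + R / ε) = R * Real.log L + R := by field_simp
        linarith
      have a1 := le_abs_self (Real.log (32 * (Q : ℝ)))
      have a2 := le_abs_self (Real.log (64 * (Q : ℝ)))
      have a3 := neg_abs_le (Real.log (qq Q))
      have a4 := abs_nonneg (Real.log (32 * (Q : ℝ)))
      have a5 := abs_nonneg (Real.log (64 * (Q : ℝ)))
      have a6 := abs_nonneg (Real.log (qq Q))
      have a7 : (8 + (H.card : ℝ)) * Real.log L ≤ R * Real.log L := by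
        refine mul_le_mul_of_nonneg_right ?_ hlogL
        rw [hR]
        have : 0 ≤ (H.card : ℝ) * |Real.log (qq Q)| := by positivity
        linarith
      have a8 : |Real.log (32 * (Q : ℝ))| + |Real.log (64 * (Q : ℝ))| + H.card * |Real.log (qq Q)| ≤ R := by
        rw [hR]
        linarith
      have a9 : (H.card : ℝ) * (Real.log L - Real.log (qq Q)) ≤ H.card * Real.log L + H.card * |Real.log (qq Q)| := by
        nlinarith
      have a10 : 0 ≤ ε * GG c L := by
        have : 0 ≤ R * Real.log L + R := by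
          have : 0 ≤ R := by rw [hR]; positivity
          positivity
        linarith
      nlinarith
    refine ⟨hS0, hdouble.trans ?_⟩
    rw [card_jd hQ]
    have hkN0 : 0 ≤ (N j : ℝ) * H.card := by positivity
    have hkN' : (N j : ℝ) * H.card ≤ L := by linarith
    have hT2 : ((N j : ℝ) * H.card) ^ 4 ≤ S / L ^ 2 := by
      rw [le_div_iff₀ (by positivity)]
      have e1 : ((N j : ℝ) * H.card) ^ 4 ≤ L ^ 4 := pow_le_pow_left₀ hkN0 hkN' 4
      calc ((N j : ℝ) * H.card) ^ 4 * L ^ 2 ≤ L ^ 4 * L ^ 2 := mul_le_mul_of_nonneg_right e1 (by positivity)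
        _ = L ^ 6 := by ring
        _ ≤ S := hS6
    have hT1 : ((N j : ℝ) * H.card) ^ 2 * b j * (pm * (1 / (qq Q / L)) ^ H.card) ≤ S / L ^ 2 := by
      rw [le_div_iff₀ (by positivity)]
      refine le_trans ?_ hSlow
      have e1 : ((N j : ℝ) * H.card) ^ 2 ≤ L ^ 2 := pow_le_pow_left₀ hkN0 hkN' 2
      have e2 : ((1 : ℝ) / (qq Q / L)) ^ H.card = (1 / qq Q) ^ H.card * L ^ H.card := by
        have e2 : (1 : ℝ) / (qq Q / L) = (1 / qq Q) * L := by field_simp
        rw [e2, mul_pow]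
      rw [e2]
      have e3 : L ^ 4 * (8 * ((1 / qq Q) ^ H.card * L ^ H.card)) ≤ U := by
        have e4 : Real.exp (L - Real.log (32 * Q)) = Real.exp L / (32 * Q) := by
          rw [Real.exp_sub, Real.exp_log (by positivity)]
        rw [e4] at hUlow
        refine le_trans ?_ hUlow
        rw [le_div_iff₀ (by positivity)]
        refine le_trans (le_of_eq ?_) h5
        rw [pow_add]
        ring
      have e5 : 0 ≤ (1 / qq Q) ^ H.card * L ^ H.card := by positivity
      calc ((N j : ℝ) * H.card) ^ 2 * b j * (pm * ((1 / qq Q) ^ H.card * L ^ H.card)) * L ^ 2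
          ≤ L ^ 2 * b j * ((8 * pn) * ((1 / qq Q) ^ H.card * L ^ H.card)) * L ^ 2 := by gcongr
        _ = (L ^ 4 * (8 * ((1 / qq Q) ^ H.card * L ^ H.card))) * b j * pn := by ring
        _ ≤ U * b j * pn := by gcongr
    have e1 : S * (((N j : ℝ) * H.card) ^ 2 * b j * (pm * (1 / (qq Q / L)) ^ H.card) + ((N j : ℝ) * H.card) ^ 4) ≤
        S * (S / L ^ 2 + S / L ^ 2) := mul_le_mul_of_nonneg_left (by linarith) hS0.le
    have e2 : S ^ 2 + S * (S / L ^ 2 + S / L ^ 2) = (1 + 2 / L ^ 2) * S ^ 2 := by ring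
    linarith
  obtain ⟨B, hB⟩ : ∃ B : ℕ → Set Ω, B = fun (j : ℕ) => {ω | num (blk Q r (2 ^ j) ×ˢ jd Q (b j)) (G j) ω ≤
      (∑ q ∈ blk Q r (2 ^ j) ×ˢ jd Q (b j), μ.real (G j q)) / 2} := ⟨_, rfl⟩
  have hbound : ∀ᶠ j : ℕ in atTop, μ.real (B j) ≤ 8 * (1 / Real.log ((2 : ℝ) ^ (j + 3)) ^ 2) := by
    filter_upwards [hS] with j h1
    have h5 := few2 (μ := μ) (blk Q r (2 ^ j) ×ˢ jd Q (b j)) (G j) (fun q _ => by rw [hG]; exact meas_all hA _) h1.2 h1.1
    rw [hB]
    refine h5.trans (le_of_eq ?_)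
    ring
  have hsm : Summable (fun j : ℕ => 8 * (1 / Real.log ((2 : ℝ) ^ (j + 3)) ^ 2)) :=
    ((summable_nat_add_iff 3).2 summable_log_two_pow).mul_left 8
  filter_upwards [bc hsm hbound] with ω hω
  obtain ⟨L₀, hL₀⟩ := eventually_atTop.1 ((loglog (c := c) 1).and (eventually_ge_atTop (1 : ℝ)))
  obtain ⟨J, hJ⟩ := eventually_atTop.1 (hω.and (hS.and (facts.and geom)))
  filter_upwards [eventually_ge_atTop (2 ^ (J + 3)), hl.eventually_ge_atTop L₀] with x hx hxL
  have hx0 : x ≠ 0 := by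
    have := Nat.one_le_two_pow (n := J + 3)
    omega
  have h1 : J + 3 ≤ Nat.log 2 x := (Nat.le_log_iff_pow_le (by norm_num) hx0).2 hx
  obtain ⟨j, hj⟩ : ∃ j, Nat.log 2 x = j + 2 := ⟨Nat.log 2 x - 2, by omega⟩
  have h2 : 2 ^ (j + 2) ≤ x := by rw [← hj]; exact Nat.pow_log_le_self 2 hx0
  have h3 : x < 2 ^ (j + 3) := by
    have := Nat.lt_pow_succ_log_self (show 1 < 2 by norm_num) x
    rw [hj] at this
    exact this
  obtain ⟨h4, h5, h6, h7⟩ := hJ j (by omega)
  rw [hB] at h4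
  have h8 : (∑ q ∈ blk Q r (2 ^ j) ×ˢ jd Q (b j), μ.real (G j q)) / 2 < num (blk Q r (2 ^ j) ×ˢ jd Q (b j)) (G j) ω := by
    by_contra hcon
    push Not at hcon
    exact h4 hcon
  have h9 : 0 < num (blk Q r (2 ^ j) ×ˢ jd Q (b j)) (G j) ω := by
    have := h5.1
    linarith
  have h10 : ∃ q ∈ blk Q r (2 ^ j) ×ˢ jd Q (b j), ω ∈ G j q := by
    by_contra hcon
    push Not at hcon
    have : num (blk Q r (2 ^ j) ×ˢ jd Q (b j)) (G j) ω = 0 := by
      unfold num
      exact sum_eq_zero (fun n hn => Set.indicator_of_notMem (hcon n hn) _)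
    linarith
  obtain ⟨q, hq', hqω⟩ := h10
  obtain ⟨e1, e2, _, _, _⟩ := h7 q hq'
  refine ⟨q.1, q.2, N j, e1, e2.trans h2, fun i hi h hh => ?_, ?_⟩
  · rw [hG] at hqω
    exact hqω _ (mem_prog.2 ⟨i, hi, h, hh, rfl⟩)
  · refine le_trans ?_ h6.2.2.2.1
    have e3 := hL₀ _ hxL
    have e4 : GG c (Real.log x) ≤ GG c (Real.log ((2 : ℝ) ^ (j + 3))) := by
      refine GG_mono (by linarith [e3.2]) e3.1 (Real.log_le_log ?_ ?_)
      · exact_mod_cast Nat.pos_of_ne_zero hx0
      · exact_mod_cast h3.le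
    linarith

end Pool.Agent.Q120.GM
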