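import Pool.Agent.Q120.GM.Prog

/-!
# The upper bound for the progressions of tuples
-/

set_option autoImplicit false

namespace Pool.Agent.Q120.GM

open Finset MeasureTheory ProbabilityTheory Filter Pool.Agent.Q120.AD
open scoped Topology

variable {Ω : Type*} [MeasurableSpace Ω] {μ : Measure Ω} [IsProbabilityMeasure μ] {A : Ω → Set ℕ} {Q : ℕ}

/-- Every progression leaves the set. -/
theorem finite_prog (hA : IsModel μ (level Q) A) {n d : ℕ} (hd : 1 ≤ d) :
    ∀ᵐ ω ∂μ, ∃ M : ℕ, ∀ k : ℕ, (∀ i < k, n + i * d ∈ A ω) → k ≤ M := by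
  have hinj : ∀ i j : ℕ, n + i * d = n + j * d → i = j := by
    intro i j h
    exact Nat.eq_of_mul_eq_mul_right hd (by omega)
  have hev : ∀ᶠ i : ℕ in atTop, level Q (n + i * d) ≤ 1 / 2 := by
    have h1 : Tendsto (fun i : ℕ => n + i * d) atTop atTop := by
      refine tendsto_atTop_mono (fun i => ?_) tendsto_id
      show i ≤ n + i * d
      nlinarith
    have h2 := h1.eventually (hl.eventually_ge_atTop (2 * qq Q + 1))
    filter_upwards [h2, h1.eventually_ge_atTop 1] with i h3 h4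
    have hq : 0 ≤ qq Q := by unfold qq; positivity
    have h5 : (0 : ℝ) < ((n + i * d : ℕ) : ℝ) := by exact_mod_cast (by omega : 0 < n + i * d)
    refine (level_le (x := ((n + i * d : ℕ) : ℝ)) (by linarith) h5 (le_refl _)).trans ?_
    rw [div_le_iff₀ (by linarith)]
    linarith
  obtain ⟨i₀, hi₀⟩ := eventually_atTop.1 hev
  have hs : Summable (fun k : ℕ => ((1 : ℝ) / 2) ^ k) := summable_geometric_of_lt_one (by norm_num) (by norm_num)
  have hb : ∀ᶠ k : ℕ in atTop, μ.real (all A ((Ico i₀ (i₀ + k)).image (fun i => n + i * d))) ≤ ((1 : ℝ) / 2) ^ k := by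
    refine Eventually.of_forall (fun k => ?_)
    rw [real_all hA, prod_image (fun i _ j _ hij => hinj i j hij)]
    refine (Finset.prod_le_prod (fun i _ => level_nonneg Q _) (fun i hi => ?_)).trans
      (by rw [prod_const, Nat.card_Ico, Nat.add_sub_cancel_left])
    rw [mem_Ico] at hi
    exact hi₀ i hi.1
  filter_upwards [bc hs hb] with ω hω
  obtain ⟨k, hk⟩ := hω.exists
  refine ⟨i₀ + k, fun l hl => ?_⟩
  by_contra hcon
  push Not at hcon
  apply hk
  intro m hm
  rw [mem_image] at hm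
  obtain ⟨i, hi, rfl⟩ := hm
  rw [mem_Ico] at hi
  exact hl i (by omega)

/-- The length. -/
noncomputable def LL (c : ℝ) (k : ℕ) (L : ℝ) : ℕ := ⌊2 / (k : ℝ) * GG c L⌋₊

/-- The index set of the dyadic block. -/
noncomputable def idx (P : ℕ → Prop) (j : ℕ) : Finset (ℕ × ℕ) := by
  classical
  exact (range (2 ^ (j + 1) + 1) ×ˢ range (2 ^ (j + 1) + 1)).filter (fun q => P q.2 ∧ 2 ^ j < max q.1 q.2)

theorem mem_idx {P : ℕ → Prop} {j : ℕ} {q : ℕ × ℕ} :
    q ∈ idx P j ↔ (q.1 ≤ 2 ^ (j + 1) ∧ q.2 ≤ 2 ^ (j + 1)) ∧ P q.2 ∧ 2 ^ j < max q.1 q.2 := by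
  classical
  unfold idx
  rw [mem_filter, mem_product, mem_range, mem_range, Nat.lt_succ_iff, Nat.lt_succ_iff]

theorem card_idx (P : ℕ → Prop) (j : ℕ) : (idx P j).card ≤ 2 ^ (j + 2) * 2 ^ (j + 2) := by
  have e2 : (idx P j).card ≤ (range (2 ^ (j + 1) + 1) ×ˢ range (2 ^ (j + 1) + 1)).card := by
    apply card_le_card
    intro q hq
    rw [mem_idx] at hq
    rw [mem_product, mem_range, mem_range]
    omega
  rw [card_product, card_range] at e2
  have e3 : 2 ^ (j + 1) + 1 ≤ 2 ^ (j + 2) := by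
    have : 2 ^ (j + 2) = 2 * 2 ^ (j + 1) := by ring
    have := Nat.one_le_two_pow (n := j + 1)
    omega
  exact e2.trans (Nat.mul_le_mul e3 e3)

theorem card_idx_small {P : ℕ → Prop} {M : ℕ} (hP : ∀ d, P d → d ≤ M) (j : ℕ) :
    (idx P j).card ≤ 2 ^ (j + 2) * (M + 1) := by
  have e2 : (idx P j).card ≤ (range (2 ^ (j + 1) + 1) ×ˢ range (M + 1)).card := by
    apply card_le_card
    intro q hq
    rw [mem_idx] at hq
    have := hP _ hq.2.1
    rw [mem_product, mem_range, mem_range]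
    omega
  rw [card_product, card_range, card_range] at e2
  have e3 : 2 ^ (j + 1) + 1 ≤ 2 ^ (j + 2) := by
    have : 2 ^ (j + 2) = 2 * 2 ^ (j + 1) := by ring
    have := Nat.one_le_two_pow (n := j + 1)
    omega
  exact e2.trans (Nat.mul_le_mul_right (M + 1) e3)

/-- The exceptional event in the dyadic block. -/
noncomputable def blkUp (A : Ω → Set ℕ) (H : Finset ℕ) (P : ℕ → Prop) (c : ℝ) (j : ℕ) : Set Ω :=
  ⋃ q ∈ idx P j, all A (prog H (LL c H.card (Real.log ((2 : ℝ) ^ j)) + 1) q.1 q.2)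

theorem prog_upper_gen (hA : IsModel μ (level Q) A) {H : Finset ℕ} (hH : H.Nonempty) (P : ℕ → Prop)
    (hP : ∀ d, P d → 1 ≤ d) {c : ℝ} (hb : ∀ᶠ j : ℕ in atTop, μ.real (blkUp A H P c j) ≤ 1 / Real.log ((2 : ℝ) ^ j) ^ 2) :
    ∀ᵐ ω ∂μ, ∀ᶠ x : ℕ in atTop, ∀ n d l : ℕ, P d → n ≤ x → d ≤ x → (∀ i < l, ∀ h ∈ H, n + i * d + h ∈ A ω) →
      (H.card : ℝ) * l ≤ 2 * GG c (Real.log x) := by
  classical
  obtain ⟨h₀, hh₀⟩ := hH
  have hk0 : 0 < H.card := card_pos.2 ⟨h₀, hh₀⟩
  have hk : (0 : ℝ) < H.card := by exact_mod_cast hk0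
  have hfin : ∀ᵐ ω ∂μ, ∀ n d : ℕ, 1 ≤ d → ∃ M : ℕ, ∀ k : ℕ, (∀ i < k, n + h₀ + i * d ∈ A ω) → k ≤ M := by
    rw [ae_all_iff]
    intro n
    rw [ae_all_iff]
    intro d
    by_cases hd : 1 ≤ d
    · filter_upwards [finite_prog (μ := μ) hA (n := n + h₀) hd] with ω hω _
      exact hω
    · filter_upwards with ω h
      exact absurd h hd
  filter_upwards [bc summable_log_two_pow hb, hfin] with ω hω hω2
  obtain ⟨L₀, hL₀⟩ := eventually_atTop.1 ((loglog (c := c) 1).and (eventually_ge_atTop (1 : ℝ)))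
  have hj1 : ∀ᶠ j : ℕ in atTop, L₀ ≤ Real.log ((2 : ℝ) ^ j) := tendsto_log_two_pow.eventually_ge_atTop L₀
  obtain ⟨J, hJ⟩ := eventually_atTop.1 (hω.and hj1)
  have hsmall : ∃ M : ℕ, ∀ n d l : ℕ, 1 ≤ d → n ≤ 2 ^ J → d ≤ 2 ^ J → (∀ i < l, ∀ h ∈ H, n + i * d + h ∈ A ω) → l ≤ M := by
    choose! M hM using hω2
    refine ⟨(range (2 ^ J + 1) ×ˢ range (2 ^ J + 1)).sup (fun q => M q.1 q.2), fun n d l h1 h2 h3 h4 => ?_⟩
    refine (hM n d h1 l (fun i hi => ?_)).trans ?_
    · have := h4 i hi h₀ hh₀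
      rw [show n + h₀ + i * d = n + i * d + h₀ by ring]
      exact this
    · have h5 : (n, d) ∈ range (2 ^ J + 1) ×ˢ range (2 ^ J + 1) := by
        rw [mem_product, mem_range, mem_range]
        exact ⟨Nat.lt_succ_of_le h2, Nat.lt_succ_of_le h3⟩
      exact le_sup (f := fun q : ℕ × ℕ => M q.1 q.2) h5
  obtain ⟨M, hM⟩ := hsmall
  filter_upwards [hl.eventually (GG_big c (H.card * M)), hl.eventually_ge_atTop (1 : ℝ), hl.eventually_ge_atTop L₀,
    eventually_ge_atTop (2 ^ J)] with x h1 h2 h3 h4 n d l hPd hnx hdx hch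
  rcases le_or_gt (max n d) (2 ^ J) with hnJ | hnJ
  · have e1 : l ≤ M := hM n d l (hP d hPd) ((le_max_left _ _).trans hnJ) ((le_max_right _ _).trans hnJ) hch
    have e2 : (l : ℝ) ≤ M := by exact_mod_cast e1
    have e3 : (H.card : ℝ) * l ≤ H.card * M := mul_le_mul_of_nonneg_left e2 hk.le
    have e4 : 0 ≤ (H.card : ℝ) * M * Real.log (Real.log x) := by
      have := Real.log_nonneg h2
      positivity
    have e5 : (0 : ℝ) ≤ (H.card : ℝ) * M := by positivity
    linarith
  · obtain ⟨m, hm⟩ : ∃ m, m = max n d := ⟨_, rfl⟩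
    rw [← hm] at hnJ
    have hn2 : 2 ≤ m := by
      have := Nat.one_le_two_pow (n := J)
      omega
    obtain ⟨j, hj⟩ : ∃ j, j = Nat.log 2 (m - 1) := ⟨_, rfl⟩
    have h5 : 2 ^ j ≤ m - 1 := by rw [hj]; exact Nat.pow_log_le_self 2 (by omega)
    have h6 : m - 1 < 2 ^ (j + 1) := by rw [hj]; exact Nat.lt_pow_succ_log_self (by norm_num) _
    have h7 : J ≤ j := by
      rw [hj]
      exact (Nat.le_log_iff_pow_le (by norm_num) (by omega)).2 (by omega)
    obtain ⟨h8, h9⟩ := hJ j h7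
    have hnm : n ≤ m := by rw [hm]; exact le_max_left _ _
    have hdm : d ≤ m := by rw [hm]; exact le_max_right _ _
    have hmx : m ≤ x := by rw [hm]; exact max_le hnx hdx
    have h10 : l ≤ LL c H.card (Real.log ((2 : ℝ) ^ j)) := by
      by_contra hcon
      push Not at hcon
      apply h8
      unfold blkUp
      refine Set.mem_biUnion (x := (n, d)) (by
        show (n, d) ∈ idx P j
        rw [mem_idx]
        refine ⟨⟨?_, ?_⟩, hPd, ?_⟩
        · show n ≤ 2 ^ (j + 1)
          omega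
        · show d ≤ 2 ^ (j + 1)
          omega
        · show 2 ^ j < max n d
          rw [← hm]
          omega) (fun a ha => ?_)
      rw [mem_prog] at ha
      obtain ⟨i, hi, h, hh, rfl⟩ := ha
      exact hch i (by omega) h hh
    have h11 : ((LL c H.card (Real.log ((2 : ℝ) ^ j)) : ℕ) : ℝ) ≤ 2 / (H.card : ℝ) * GG c (Real.log ((2 : ℝ) ^ j)) := by
      unfold LL
      refine Nat.floor_le ?_
      have := hL₀ _ h9
      unfold GG
      exact mul_nonneg (by positivity) (div_nonneg (by linarith [this.2]) (by linarith [this.1]))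
    have h12 : GG c (Real.log ((2 : ℝ) ^ j)) ≤ GG c (Real.log x) := by
      have e1 := hL₀ _ h9
      refine GG_mono (by linarith [e1.2]) e1.1 ?_
      refine Real.log_le_log (by positivity) ?_
      have : 2 ^ j ≤ x := by omega
      exact_mod_cast this
    have h13 : (l : ℝ) ≤ 2 / (H.card : ℝ) * GG c (Real.log ((2 : ℝ) ^ j)) := by
      have : (l : ℝ) ≤ LL c H.card (Real.log ((2 : ℝ) ^ j)) := by exact_mod_cast h10
      linarith
    have h14 : (H.card : ℝ) * l ≤ H.card * (2 / (H.card : ℝ) * GG c (Real.log ((2 : ℝ) ^ j))) :=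
      mul_le_mul_of_nonneg_left h13 hk.le
    have h15 : (H.card : ℝ) * (2 / (H.card : ℝ) * GG c (Real.log ((2 : ℝ) ^ j))) = 2 * GG c (Real.log ((2 : ℝ) ^ j)) := by
      field_simp
    linarith

/-- Differences larger than the elements of `H`. -/
theorem up_large (hA : IsModel μ (level Q) A) (hQ : 1 ≤ Q) {H : Finset ℕ} (hH : H.Nonempty) {ε : ℝ} (hε : 0 < ε) :
    ∀ᶠ j : ℕ in atTop, μ.real (blkUp A H (fun d => 1 ≤ d ∧ ∀ h ∈ H, h < d) (-Real.log (qq Q) - ε) j) ≤
      1 / Real.log ((2 : ℝ) ^ j) ^ 2 := by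
  classical
  have hq := qq_pos hQ
  have hk0 : 0 < H.card := card_pos.2 hH
  have hk : (0 : ℝ) < H.card := by exact_mod_cast hk0
  obtain ⟨c, hc⟩ : ∃ c, c = -Real.log (qq Q) - ε := ⟨_, rfl⟩
  rw [← hc]
  obtain ⟨R, hR⟩ : ∃ R, R = 2 + 4 * H.card + H.card * |Real.log (qq Q)| + 8 * Real.log 2 := ⟨_, rfl⟩
  have hlog2 : 0 < Real.log 2 := Real.log_pos (by norm_num)
  have g1 := tendsto_log_two_pow.eventually (GG_big c (R / ε))
  have g2 := tendsto_log_two_pow.eventually (loglog (c := c) 1)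
  have g3 := tendsto_log_two_pow.eventually (loglog (c := -Real.log (qq Q)) 1)
  filter_upwards [g1, g2, g3, tendsto_log_two_pow.eventually_ge_atTop 1] with j h1 h2 h3 h4
  obtain ⟨L, hL⟩ : ∃ L, L = Real.log ((2 : ℝ) ^ j) := ⟨_, rfl⟩
  obtain ⟨N, hN⟩ : ∃ N, N = LL c H.card L := ⟨_, rfl⟩
  rw [← hL] at h1 h2 h3 h4 ⊢
  have hL0 : 0 < L := by linarith
  have hlogL : 0 ≤ Real.log L := Real.log_nonneg h4
  have e1 : μ.real (blkUp A H (fun d => 1 ≤ d ∧ ∀ h ∈ H, h < d) c j) ≤
      (2 : ℝ) ^ (j + 2) * (2 : ℝ) ^ (j + 2) * (qq Q / L) ^ (H.card * N) := by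
    unfold blkUp
    rw [← hL, ← hN]
    refine (measureReal_biUnion_finset_le _ _).trans ?_
    refine (sum_le_sum (g := fun _ => (qq Q / L) ^ (H.card * N)) (fun q hq' => ?_)).trans ?_
    · rw [mem_idx] at hq'
      rw [hL]
      refine prog_le hA hq'.2.1.2 (by positivity) (by rw [← hL]; exact hL0) ?_
      have e2 : 2 ^ j ≤ q.1 + q.2 := by
        have := hq'.2.2
        rcases le_total q.1 q.2 with h | h
        · rw [max_eq_right h] at this
          omega
        · rw [max_eq_left h] at this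
          omega
      have e3 : ((2 ^ j : ℕ) : ℝ) ≤ ((q.1 + q.2 : ℕ) : ℝ) := by exact_mod_cast e2
      push_cast at e3
      exact e3
    · rw [sum_const, nsmul_eq_mul]
      refine mul_le_mul_of_nonneg_right ?_ (by positivity)
      exact_mod_cast card_idx _ j
  refine e1.trans ?_
  have hNG : 2 * GG c L - H.card ≤ (H.card : ℝ) * N := by
    have e2 : 2 / (H.card : ℝ) * GG c L - 1 ≤ N := by
      rw [hN]
      exact (Nat.sub_one_lt_floor _).le
    have e3 : (H.card : ℝ) * (2 / (H.card : ℝ) * GG c L - 1) ≤ H.card * N := mul_le_mul_of_nonneg_left e2 hk.le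
    have e4 : (H.card : ℝ) * (2 / (H.card : ℝ) * GG c L - 1) = 2 * GG c L - H.card := by field_simp
    linarith
  have e2 : (qq Q / L) ^ (H.card * N) ≤ Real.exp (-((2 * GG c L - H.card) * (Real.log L - Real.log (qq Q)))) := by
    rw [← Real.exp_log (show 0 < qq Q / L by positivity), ← Real.exp_nat_mul, Real.exp_le_exp,
      Real.log_div hq.ne' hL0.ne']
    have : (2 * GG c L - H.card) * (Real.log L - Real.log (qq Q)) ≤ (H.card : ℝ) * N * (Real.log L - Real.log (qq Q)) :=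
      mul_le_mul_of_nonneg_right hNG (by linarith)
    push_cast
    linarith
  have e3 : (2 : ℝ) ^ (j + 2) * (2 : ℝ) ^ (j + 2) = Real.exp (2 * L + 4 * Real.log 2) := by
    have : (2 : ℝ) ^ (j + 2) = Real.exp (L + 2 * Real.log 2) := by
      rw [hL, ← Real.exp_log (show (0 : ℝ) < 2 ^ (j + 2) by positivity), log_two_pow, log_two_pow]
      congr 1
      push_cast
      ring
    rw [this, ← Real.exp_add]
    congr 1
    ring
  have e4 : (1 : ℝ) / L ^ 2 = Real.exp (-(2 * Real.log L)) := by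
    rw [Real.exp_neg, mul_comm, Real.exp_mul, Real.exp_log hL0, one_div, Real.rpow_two]
  rw [e3, e4]
  refine (mul_le_mul_of_nonneg_left e2 (Real.exp_pos _).le).trans ?_
  rw [← Real.exp_add, Real.exp_le_exp]
  have e5 : GG c L * (Real.log L + c) = L := by
    unfold GG
    field_simp
  have e6 : R * Real.log L + R ≤ ε * GG c L := by
    have e7 := mul_le_mul_of_nonneg_left h1 hε.le
    have e8 : ε * (R / ε * Real.log L + R / ε) = R * Real.log L + R := by field_simp
    linarith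
  have e7 := neg_abs_le (Real.log (qq Q))
  have e8 : (2 * GG c L - H.card) * (Real.log L - Real.log (qq Q)) =
      2 * L + 2 * (ε * GG c L) - H.card * (Real.log L - Real.log (qq Q)) := by
    have : Real.log L - Real.log (qq Q) = (Real.log L + c) + ε := by rw [hc]; ring
    rw [sub_mul]
    congr 1
    rw [this, mul_add, mul_assoc, e5]
    ring
  rw [e8]
  have e9 : 0 ≤ R - (2 + 4 * H.card) := by rw [hR]; have := abs_nonneg (Real.log (qq Q)); nlinarith
  have e10 : (2 + 4 * (H.card : ℝ)) * Real.log L ≤ R * Real.log L := by nlinarith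
  have e11 : (H.card : ℝ) * (Real.log L - Real.log (qq Q)) ≤ H.card * Real.log L + H.card * |Real.log (qq Q)| := by
    nlinarith
  have e12 : 8 * Real.log 2 + H.card * |Real.log (qq Q)| ≤ R := by rw [hR]; nlinarith
  have e13 : 0 ≤ (H.card : ℝ) * Real.log L := by positivity
  nlinarith

/-- Small differences, for at most two elements. -/
theorem up_small (hA : IsModel μ (level Q) A) (hQ : 1 ≤ Q) {H : Finset ℕ} (hH : H.Nonempty) (hk2 : H.card ≤ 2) (M : ℕ)
    {ε : ℝ} (hε : 0 < ε) :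
    ∀ᶠ j : ℕ in atTop, μ.real (blkUp A H (fun d => 1 ≤ d ∧ d ≤ M) (-Real.log (qq Q) - ε) j) ≤
      1 / Real.log ((2 : ℝ) ^ j) ^ 2 := by
  classical
  have hq := qq_pos hQ
  have hk0 : 0 < H.card := card_pos.2 hH
  have hk : (0 : ℝ) < H.card := by exact_mod_cast hk0
  have hk2' : (H.card : ℝ) ≤ 2 := by exact_mod_cast hk2
  obtain ⟨c, hc⟩ : ∃ c, c = -Real.log (qq Q) - ε := ⟨_, rfl⟩
  rw [← hc]
  obtain ⟨R, hR⟩ : ∃ R, R = 4 + |Real.log (qq Q)| + 2 * Real.log 2 + Real.log (M + 1) := ⟨_, rfl⟩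
  have hlog2 : 0 < Real.log 2 := Real.log_pos (by norm_num)
  have hlogM : 0 ≤ Real.log ((M : ℝ) + 1) := Real.log_nonneg (by
    have : (0 : ℝ) ≤ M := Nat.cast_nonneg M
    linarith)
  have g1 := tendsto_log_two_pow.eventually (GG_big c (R / ε))
  have g2 := tendsto_log_two_pow.eventually (loglog (c := c) 1)
  have g3 := tendsto_log_two_pow.eventually (loglog (c := -Real.log (qq Q)) 1)
  filter_upwards [g1, g2, g3, tendsto_log_two_pow.eventually_ge_atTop 1] with j h1 h2 h3 h4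
  obtain ⟨L, hL⟩ : ∃ L, L = Real.log ((2 : ℝ) ^ j) := ⟨_, rfl⟩
  obtain ⟨N, hN⟩ : ∃ N, N = LL c H.card L := ⟨_, rfl⟩
  rw [← hL] at h1 h2 h3 h4 ⊢
  have hL0 : 0 < L := by linarith
  have hlogL : 0 ≤ Real.log L := Real.log_nonneg h4
  have hGG0 : 0 ≤ GG c L := by unfold GG; exact div_nonneg hL0.le (by linarith)
  have e1 : μ.real (blkUp A H (fun d => 1 ≤ d ∧ d ≤ M) c j) ≤
      (2 : ℝ) ^ (j + 2) * ((M : ℝ) + 1) * (qq Q / L) ^ N := by
    unfold blkUp
    rw [← hL, ← hN]
    refine (measureReal_biUnion_finset_le _ _).trans ?_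
    refine (sum_le_sum (g := fun _ => (qq Q / L) ^ N) (fun q hq' => ?_)).trans ?_
    · rw [mem_idx] at hq'
      rw [hL]
      refine prog_one_le hA hH hq'.2.1.1 (by positivity) (by rw [← hL]; exact hL0) ?_
      have e2 : 2 ^ j ≤ q.1 + q.2 := by
        have := hq'.2.2
        rcases le_total q.1 q.2 with h | h
        · rw [max_eq_right h] at this
          omega
        · rw [max_eq_left h] at this
          omega
      have e3 : ((2 ^ j : ℕ) : ℝ) ≤ ((q.1 + q.2 : ℕ) : ℝ) := by exact_mod_cast e2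
      push_cast at e3
      exact e3
    · rw [sum_const, nsmul_eq_mul]
      refine mul_le_mul_of_nonneg_right ?_ (by positivity)
      exact_mod_cast card_idx_small (P := fun d => 1 ≤ d ∧ d ≤ M) (fun d hd => hd.2) j
  refine e1.trans ?_
  have hNG : GG c L - 1 ≤ (N : ℝ) := by
    have e2 : 2 / (H.card : ℝ) * GG c L - 1 ≤ N := by
      rw [hN]
      exact (Nat.sub_one_lt_floor _).le
    have e3 : 1 ≤ 2 / (H.card : ℝ) := by rw [le_div_iff₀ hk]; linarith
    nlinarith
  have e2 : (qq Q / L) ^ N ≤ Real.exp (-((GG c L - 1) * (Real.log L - Real.log (qq Q)))) := by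
    rw [← Real.exp_log (show 0 < qq Q / L by positivity), ← Real.exp_nat_mul, Real.exp_le_exp,
      Real.log_div hq.ne' hL0.ne']
    have : (GG c L - 1) * (Real.log L - Real.log (qq Q)) ≤ (N : ℝ) * (Real.log L - Real.log (qq Q)) :=
      mul_le_mul_of_nonneg_right hNG (by linarith)
    linarith
  have e3 : (2 : ℝ) ^ (j + 2) * ((M : ℝ) + 1) = Real.exp (L + 2 * Real.log 2 + Real.log (M + 1)) := by
    have : (2 : ℝ) ^ (j + 2) = Real.exp (L + 2 * Real.log 2) := by
      rw [hL, ← Real.exp_log (show (0 : ℝ) < 2 ^ (j + 2) by positivity), log_two_pow, log_two_pow]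
      congr 1
      push_cast
      ring
    rw [this, Real.exp_add (L + 2 * Real.log 2), Real.exp_log (by positivity)]
  have e4 : (1 : ℝ) / L ^ 2 = Real.exp (-(2 * Real.log L)) := by
    rw [Real.exp_neg, mul_comm, Real.exp_mul, Real.exp_log hL0, one_div, Real.rpow_two]
  rw [e3, e4]
  refine (mul_le_mul_of_nonneg_left e2 (Real.exp_pos _).le).trans ?_
  rw [← Real.exp_add, Real.exp_le_exp]
  have e5 : GG c L * (Real.log L + c) = L := by
    unfold GG
    field_simp
  have e6 : R * Real.log L + R ≤ ε * GG c L := by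
    have e7 := mul_le_mul_of_nonneg_left h1 hε.le
    have e8 : ε * (R / ε * Real.log L + R / ε) = R * Real.log L + R := by field_simp
    linarith
  have e7 := neg_abs_le (Real.log (qq Q))
  have e8 : (GG c L - 1) * (Real.log L - Real.log (qq Q)) =
      L + ε * GG c L - (Real.log L - Real.log (qq Q)) := by
    have : Real.log L - Real.log (qq Q) = (Real.log L + c) + ε := by rw [hc]; ring
    rw [sub_mul, one_mul]
    congr 1
    rw [this, mul_add, e5]
    ring
  rw [e8]
  have ha := abs_nonneg (Real.log (qq Q))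
  have e10 : 4 * Real.log L ≤ R * Real.log L := by
    refine mul_le_mul_of_nonneg_right ?_ hlogL
    rw [hR]
    linarith
  have e12 : |Real.log (qq Q)| + 2 * Real.log 2 + Real.log (M + 1) ≤ R := by rw [hR]; linarith
  linarith

end Pool.Agent.Q120.GM
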