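import Mathlib

/-!
# Maximal gaps of a set: deterministic part
-/

set_option autoImplicit false

namespace Pool.Agent.Q120.GM

open Finset Filter
open scoped Topology

/-- Consecutive elements `a < b` of `S`. -/
def IsGap (S : Set ℕ) (a b : ℕ) : Prop := a < b ∧ a ∈ S ∧ b ∈ S ∧ ∀ c, a < c → c < b → c ∉ S

/-- A maximal gap: it is larger than all preceding gaps. -/
def IsMaxGap (S : Set ℕ) (a b : ℕ) : Prop := IsGap S a b ∧ ∀ c d, IsGap S c d → d ≤ a → d - c < b - a

/-- The run without elements which contains `n - 1` is already longer than all the gaps before. -/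
def Mode (S : Set ℕ) (n : ℕ) : Prop :=
  ∃ a, a < n ∧ a ∈ S ∧ (∀ c, a < c → c < n → c ∉ S) ∧ ∀ c d, IsGap S c d → d ≤ a → d - c < n - a

/-- The number of the `m ≤ n` in the mode. -/
noncomputable def W (S : Set ℕ) (n : ℕ) : ℕ := by
  classical
  exact ((range (n + 1)).filter (Mode S)).card

theorem W_succ (S : Set ℕ) (n : ℕ) [Decidable (Mode S (n + 1))] :
    W S (n + 1) = W S n + (if Mode S (n + 1) then 1 else 0) := by
  classical
  unfold W
  rw [range_add_one (n := n + 1), filter_insert]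
  split_ifs with h
  · rw [card_insert_of_notMem (by simp)]
  · rw [add_zero]

theorem not_mode_zero (S : Set ℕ) : ¬ Mode S 0 := by
  rintro ⟨a, h, _⟩
  omega

theorem W_zero (S : Set ℕ) : W S 0 = 0 := by
  classical
  unfold W
  rw [card_eq_zero, filter_eq_empty_iff]
  intro n hn
  rw [mem_range] at hn
  have : n = 0 := by omega
  rw [this]
  exact not_mode_zero S

theorem W_mono (S : Set ℕ) : Monotone (W S) := by
  classical
  refine monotone_nat_of_le_succ (fun n => ?_)
  rw [W_succ]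
  omega

/-- A stretch without elements. -/
def Stretch (S : Set ℕ) (a m : ℕ) : Prop := a < m ∧ a ∈ S ∧ ∀ c, a < c → c < m → c ∉ S

theorem stretch_le (S : Set ℕ) (n : ℕ) : ∀ a m, m ≤ n → Stretch S a m → m - a ≤ W S n := by
  classical
  induction n with
  | zero =>
    rintro a m h1 ⟨h2, _⟩
    omega
  | succ n ih =>
    rintro a m h1 ⟨h2, h3, h4⟩
    rcases Nat.lt_or_ge m (n + 1) with h5 | h5
    · exact (ih a m (by omega) ⟨h2, h3, h4⟩).trans (W_mono S (Nat.le_succ n))
    · have hm : m = n + 1 := by omega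
      subst hm
      rw [W_succ]
      by_cases hJ : Mode S (n + 1)
      · rw [if_pos hJ]
        rcases Nat.lt_or_ge a n with h6 | h6
        · have := ih a n le_rfl ⟨h6, h3, fun c hc1 hc2 => h4 c hc1 (by omega)⟩
          omega
        · omega
      · rw [if_neg hJ, add_zero]
        have h6 : ∃ c d, IsGap S c d ∧ d ≤ a ∧ n + 1 - a ≤ d - c := by
          by_contra hcon
          push Not at hcon
          exact hJ ⟨a, h2, h3, h4, fun c d hcd hd => hcon c d hcd hd⟩
        obtain ⟨c, d, hcd, hda, hlen⟩ := h6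
        have := ih c d (by omega) ⟨hcd.1, hcd.2.1, hcd.2.2.2⟩
        omega

theorem next_exists {S : Set ℕ} {a b : ℕ} (ha : a ∈ S) (hb : b ∈ S) (hab : a < b) : ∃ d, IsGap S a d ∧ d ≤ b := by
  classical
  have h1 : ∃ d, a < d ∧ d ∈ S := ⟨b, hab, hb⟩
  refine ⟨Nat.find h1, ⟨(Nat.find_spec h1).1, ha, (Nat.find_spec h1).2, fun c hc1 hc2 hc3 => ?_⟩, Nat.find_min' h1 ⟨hab, hb⟩⟩
  exact Nat.find_min h1 hc2 ⟨hc1, hc3⟩

theorem W_attained (S : Set ℕ) (n : ℕ) :
    (W S n = 0 ∨ ∃ a m, m ≤ n ∧ Stretch S a m ∧ m - a = W S n) ∧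
    (∀ a, a < n → a ∈ S → (∀ c, a < c → c < n → c ∉ S) → (∀ c d, IsGap S c d → d ≤ a → d - c < n - a) → W S n = n - a) := by
  classical
  induction n with
  | zero =>
    refine ⟨Or.inl (W_zero S), ?_⟩
    intro a h
    omega
  | succ n ih =>
    have key : ∀ a, a < n + 1 → a ∈ S → (∀ c, a < c → c < n + 1 → c ∉ S) →
        (∀ c d, IsGap S c d → d ≤ a → d - c < n + 1 - a) → W S (n + 1) = n + 1 - a := by
      intro a h1 h2 h3 h4
      have h5 : Mode S (n + 1) := ⟨a, h1, h2, h3, h4⟩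
      have h6 := stretch_le S (n + 1) a (n + 1) le_rfl ⟨h1, h2, h3⟩
      have h7 : W S n ≤ n - a := by
        rcases ih.1 with h8 | ⟨a', m', h8, h9, h10⟩
        · omega
        · rw [← h10]
          obtain ⟨e1, e2, e3⟩ := h9
          rcases lt_trichotomy a' a with h11 | h11 | h11
          · have h12 : m' ≤ a := by
              by_contra hcon
              exact e3 a h11 (by omega) h2
            obtain ⟨d, hd1, hd2⟩ := next_exists e2 h2 h11
            have h13 := h4 a' d hd1 hd2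
            have h14 : m' ≤ d := by
              by_contra hcon
              exact e3 d hd1.1 (by omega) hd1.2.2.1
            omega
          · omega
          · exact absurd e2 (h3 a' h11 (by omega))
      rw [W_succ, if_pos h5] at h6 ⊢
      omega
    refine ⟨?_, key⟩
    by_cases hJ : Mode S (n + 1)
    · obtain ⟨a, h1, h2, h3, h4⟩ := hJ
      exact Or.inr ⟨a, n + 1, le_rfl, ⟨h1, h2, h3⟩, (key a h1 h2 h3 h4).symm⟩
    · rw [W_succ, if_neg hJ, add_zero]
      rcases ih.1 with h8 | ⟨a', m', h8, h9, h10⟩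
      · exact Or.inl h8
      · exact Or.inr ⟨a', m', by omega, h9, h10⟩

theorem maxGap_iff {S : Set ℕ} {b : ℕ} : (∃ a, IsMaxGap S a b) ↔ Mode S b ∧ b ∈ S := by
  constructor
  · rintro ⟨a, ⟨h1, h2, h3, h4⟩, h5⟩
    exact ⟨⟨a, h1, h2, h4, h5⟩, h3⟩
  · rintro ⟨⟨a, h1, h2, h4, h5⟩, h3⟩
    exact ⟨a, ⟨h1, h2, h3, h4⟩, h5⟩

theorem maxGap_W {S : Set ℕ} {a b : ℕ} (h : IsMaxGap S a b) : b - a = W S b := by
  obtain ⟨⟨h1, h2, h3, h4⟩, h5⟩ := h
  exact ((W_attained S b).2 a h1 h2 h4 h5).symm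

theorem mode_succ {S : Set ℕ} {n : ℕ} (h : Mode S n) (hn : n ∉ S) : Mode S (n + 1) := by
  obtain ⟨a, h1, h2, h3, h4⟩ := h
  refine ⟨a, by omega, h2, fun c hc1 hc2 => ?_, fun c d hcd hd => ?_⟩
  · rcases Nat.lt_or_ge c n with h5 | h5
    · exact h3 c hc1 h5
    · have : c = n := by omega
      rw [this]
      exact hn
  · have := h4 c d hcd hd
    omega

/-- `Mode` depends only on the elements below `n`. -/
theorem mode_local {S T : Set ℕ} {n : ℕ} (h : ∀ i < n, (i ∈ S ↔ i ∈ T)) (hm : Mode S n) : Mode T n := by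
  obtain ⟨a, h1, h2, h3, h4⟩ := hm
  refine ⟨a, h1, (h a h1).1 h2, fun c hc1 hc2 hc3 => h3 c hc1 hc2 ((h c hc2).2 hc3), fun c d hcd hd => h4 c d ?_ hd⟩
  obtain ⟨g1, g2, g3, g4⟩ := hcd
  exact ⟨g1, (h c (by omega)).2 g2, (h d (by omega)).2 g3, fun e he1 he2 he3 => g4 e he1 he2 ((h e (by omega)).1 he3)⟩

theorem W_local {S T : Set ℕ} {n : ℕ} (h : ∀ i < n, (i ∈ S ↔ i ∈ T)) : W S n = W T n := by
  classical
  unfold W
  congr 1
  refine filter_congr (fun m hm => ?_)
  rw [mem_range] at hm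
  exact ⟨fun h1 => mode_local (fun i hi => h i (by omega)) h1,
    fun h1 => mode_local (fun i hi => (h i (by omega)).symm) h1⟩

/-- The number of the `n ≤ x` in the mode with `W n ≤ B` is at most `B`. -/
theorem count_mode_le (S : Set ℕ) (x : ℕ) (B : ℕ) (s : Finset ℕ) (hs : ∀ n ∈ s, Mode S n ∧ W S n ≤ B) : s.card ≤ B := by
  classical
  have h1 : s.card ≤ (Icc 1 B).card := by
    refine card_le_card_of_injOn (W S) (fun n hn => ?_) (fun m hm n hn hmn => ?_)
    · have h2 := hs n hn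
      rw [coe_Icc, Set.mem_Icc]
      refine ⟨?_, h2.2⟩
      have : 0 < W S n := by
        unfold W
        rw [card_pos]
        exact ⟨n, mem_filter.2 ⟨mem_range.2 (by omega), h2.1⟩⟩
      omega
    · have key : ∀ m n, m < n → Mode S n → W S m < W S n := by
        intro m n hmn hn
        obtain ⟨k, rfl⟩ : ∃ k, n = k + 1 := ⟨n - 1, by omega⟩
        rw [W_succ, if_pos hn]
        have := W_mono S (show m ≤ k by omega)
        omega
      rcases lt_trichotomy m n with h | h | h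
      · have := key m n h (hs n hn).1
        omega
      · exact h
      · have := key n m h (hs m hm).1
        omega
  rw [Nat.card_Icc] at h1
  omega

/-- **The size of the largest gap.** -/
theorem W_asymp {S : Set ℕ}
    (hU : ∀ ε : ℝ, 0 < ε → ∀ᶠ x : ℕ in atTop, ∃ n : ℕ, x < n ∧ (n : ℝ) ≤ x + (1 + ε) * Real.log x ^ 2 ∧ n ∈ S)
    (hL : ∀ ε : ℝ, 0 < ε → ∀ᶠ x : ℕ in atTop, ∃ y : ℕ, x ≤ y ∧ y ≤ 2 * x ∧ ∀ n : ℕ, y < n →
      (n : ℝ) ≤ y + (1 - ε) * Real.log y ^ 2 → n ∉ S) :
    Tendsto (fun n : ℕ => (W S n : ℝ) / Real.log n ^ 2) atTop (𝓝 1) := by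
  classical
  have hl : Tendsto (fun x : ℕ => Real.log (x : ℝ)) atTop atTop :=
    Real.tendsto_log_atTop.comp tendsto_natCast_atTop_atTop
  have hl2 : Tendsto (fun x : ℕ => Real.log (x : ℝ) ^ 2) atTop atTop := (tendsto_pow_atTop two_ne_zero).comp hl
  have up : ∀ ε : ℝ, 0 < ε → ∀ᶠ n : ℕ in atTop, (W S n : ℝ) ≤ (1 + ε) * Real.log n ^ 2 := by
    intro ε hε
    obtain ⟨x₀, hx₀⟩ := eventually_atTop.1 ((hU (ε / 2) (by linarith)).and (eventually_ge_atTop 1))
    obtain ⟨n₀, hn₀, _, hn₀S⟩ := (hx₀ x₀ le_rfl).1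
    filter_upwards [hl2.eventually_ge_atTop ((n₀ : ℝ) * (2 / ε) + 2 / ε + n₀), eventually_ge_atTop 1] with n h1 hn1
    rcases (W_attained S n).1 with h2 | ⟨a, m, h2, ⟨h3, h4, h5⟩, h6⟩
    · rw [h2]
      push_cast
      positivity
    · have hn0 : (0 : ℝ) ≤ n₀ := Nat.cast_nonneg _
      have hε2 : 0 < 2 / ε := by positivity
      have hL0 : (n₀ : ℝ) ≤ Real.log n ^ 2 := by nlinarith [mul_nonneg hn0 hε2.le]
      rcases Nat.lt_or_ge a x₀ with h7 | h7
      · -- the run ends before n₀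
        have h8 : m ≤ n₀ := by
          by_contra hcon
          exact h5 n₀ (by omega) (by omega) hn₀S
        have h9 : W S n ≤ n₀ := by omega
        have h10 : (W S n : ℝ) ≤ n₀ := by exact_mod_cast h9
        nlinarith
      · obtain ⟨⟨n', e1, e2, e3⟩, _⟩ := hx₀ a h7
        have h8 : m ≤ n' := by
          by_contra hcon
          exact h5 n' e1 (by omega) e3
        have h9 : (W S n : ℝ) ≤ (n' : ℝ) - a := by
          rw [← h6]
          have : m - a ≤ n' - a := by omega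
          have h10 : ((m - a : ℕ) : ℝ) ≤ ((n' - a : ℕ) : ℝ) := by exact_mod_cast this
          rw [Nat.cast_sub (by omega : a ≤ n')] at h10
          exact h10
        have h10 : Real.log a ^ 2 ≤ Real.log n ^ 2 := by
          have ha0 : (0 : ℝ) < a ∨ (a : ℝ) = 0 := by
            rcases Nat.eq_zero_or_pos a with h | h
            · right; rw [h]; simp
            · left; exact_mod_cast h
          have h11 : Real.log a ≤ Real.log n := by
            rcases ha0 with h | h
            · exact Real.log_le_log h (by exact_mod_cast (by omega : a ≤ n))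
            · rw [h, Real.log_zero]
              exact Real.log_natCast_nonneg n
          have h12 : 0 ≤ Real.log (a : ℝ) := Real.log_natCast_nonneg a
          nlinarith
        have h11 : 2 / ε ≤ Real.log n ^ 2 := by nlinarith [mul_nonneg hn0 hε2.le]
        nlinarith
  have low : ∀ ε : ℝ, 0 < ε → ε < 1 → ∀ᶠ n : ℕ in atTop, (1 - ε) * Real.log n ^ 2 ≤ (W S n : ℝ) := by
    intro ε hε hε1
    have hnat : Tendsto (fun n : ℕ => n / 4) atTop atTop := Nat.tendsto_div_const_atTop (by norm_num)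
    obtain ⟨x₀, hx₀⟩ := eventually_atTop.1 ((hU 1 one_pos).and (eventually_ge_atTop 1))
    obtain ⟨s₀, hs₀, _, hs₀S⟩ := (hx₀ x₀ le_rfl).1
    have h0 : ∀ᶠ x : ℕ in atTop, Real.log x ^ 2 + 1 ≤ x := by
      have g1 : Tendsto (fun x : ℝ => Real.log x ^ 2 / x) atTop (𝓝 0) := by
        have := Real.isLittleO_pow_log_id_atTop (n := 2)
        exact this.tendsto_div_nhds_zero
      have g2 := (g1.comp tendsto_natCast_atTop_atTop).eventually_le_const (show (0 : ℝ) < 1 / 2 by norm_num)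
      filter_upwards [g2, eventually_ge_atTop 2] with x h1 h2
      have hx : (2 : ℝ) ≤ x := by exact_mod_cast h2
      simp only [Function.comp_apply] at h1
      rw [div_le_iff₀ (by linarith)] at h1
      linarith
    have h1 : ∀ᶠ n : ℕ in atTop, (1 - ε) * Real.log n ^ 2 ≤ (1 - ε / 2) * Real.log ((n / 4 : ℕ) : ℝ) ^ 2 - 2 := by
      have g1 : ∀ᶠ n : ℕ in atTop, Real.log n - Real.log 8 ≤ Real.log ((n / 4 : ℕ) : ℝ) := by
        filter_upwards [eventually_ge_atTop 8] with n hn
        have e1 : (n : ℝ) / 8 ≤ ((n / 4 : ℕ) : ℝ) := by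
          have : n ≤ 8 * (n / 4) := by omega
          have : (n : ℝ) ≤ 8 * ((n / 4 : ℕ) : ℝ) := by exact_mod_cast this
          linarith
        have hn0 : (0 : ℝ) < n := by exact_mod_cast (by omega : 0 < n)
        rw [← Real.log_div hn0.ne' (by norm_num)]
        exact Real.log_le_log (by positivity) e1
      have h8 : 0 < Real.log 8 := Real.log_pos (by norm_num)
      filter_upwards [g1, hl.eventually_ge_atTop (4 * Real.log 8 / ε + 4 / ε + 2 + Real.log 8)] with n e1 e2
      have e3 : 0 < 4 / ε := by positivity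
      have e3' : 0 < 4 * Real.log 8 / ε := by positivity
      obtain ⟨L, hLd⟩ : ∃ L, L = Real.log (n : ℝ) := ⟨_, rfl⟩
      rw [← hLd] at e1 e2 ⊢
      have e4 : (L - Real.log 8) ^ 2 ≤ Real.log ((n / 4 : ℕ) : ℝ) ^ 2 := by
        have : 0 ≤ L - Real.log 8 := by linarith
        nlinarith
      have e5 : (1 - ε) * L ^ 2 + 2 ≤ (1 - ε / 2) * (L - Real.log 8) ^ 2 := by
        have e6 : ε / 2 * L ≥ 2 * Real.log 8 + 2 := by
          have : ε * (4 * Real.log 8 / ε + 4 / ε) = 4 * Real.log 8 + 4 := by field_simp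
          nlinarith
        have e7 : (L - Real.log 8) ^ 2 = L ^ 2 - 2 * Real.log 8 * L + Real.log 8 ^ 2 := by ring
        rw [e7]
        have e8 : (2 * Real.log 8 + 2) * L ≤ ε / 2 * L * L := by nlinarith
        nlinarith [sq_nonneg (Real.log 8)]
      have e6 : (1 - ε / 2) * (L - Real.log 8) ^ 2 ≤ (1 - ε / 2) * Real.log ((n / 4 : ℕ) : ℝ) ^ 2 :=
        mul_le_mul_of_nonneg_left e4 (by linarith)
      linarith
    obtain ⟨N₀, hN₀⟩ := eventually_atTop.1 h0
    filter_upwards [hnat.eventually (hL (ε / 2) (by linarith)), h1,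
      hnat.eventually_ge_atTop (s₀ + N₀ + 2)] with n h2 h3 h5
    obtain ⟨y, hy1, hy2, hy3⟩ := h2
    have h7 := hN₀ y (by omega)
    obtain ⟨m, hm⟩ : ∃ m, m = ⌊(y : ℝ) + (1 - ε / 2) * Real.log y ^ 2⌋₊ := ⟨_, rfl⟩
    have hy0 : (0 : ℝ) < y := by exact_mod_cast (by omega : 0 < y)
    have hly : 0 ≤ Real.log (y : ℝ) := Real.log_natCast_nonneg y
    have hm1 : (m : ℝ) ≤ y + (1 - ε / 2) * Real.log y ^ 2 := by
      rw [hm]
      exact Nat.floor_le (by
        have : 0 ≤ (1 - ε / 2) * Real.log (y : ℝ) ^ 2 := mul_nonneg (by linarith) (by positivity)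
        linarith)
    have hm2 : (y : ℝ) + (1 - ε / 2) * Real.log y ^ 2 < m + 1 := by
      rw [hm]
      exact Nat.lt_floor_add_one _
    have hmn : m + 1 ≤ n := by
      have e1 : (m : ℝ) + 1 ≤ 2 * y := by
        have : 0 ≤ ε / 2 * Real.log (y : ℝ) ^ 2 := by positivity
        nlinarith
      have e2 : m + 1 ≤ 2 * y := by exact_mod_cast e1
      omega
    -- the last element up to y
    obtain ⟨a, ha⟩ : ∃ a, a = Nat.findGreatest (fun i => i ∈ S) y := ⟨_, rfl⟩
    have ha1 : a ∈ S := by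
      rw [ha]
      exact Nat.findGreatest_spec (P := fun i => i ∈ S) (show s₀ ≤ y by omega) hs₀S
    have ha2 : a ≤ y := by rw [ha]; exact Nat.findGreatest_le y
    have ha3 : ∀ c, a < c → c ≤ y → c ∉ S := by
      intro c hc1 hc2
      rw [ha] at hc1
      exact Nat.findGreatest_is_greatest hc1 hc2
    have hym : (y : ℝ) < m + 1 := by
      have : 0 ≤ (1 - ε / 2) * Real.log (y : ℝ) ^ 2 := mul_nonneg (by linarith) (by positivity)
      linarith
    have hym' : y < m + 1 := by exact_mod_cast hym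
    have hst : Stretch S a (m + 1) := by
      refine ⟨by omega, ha1, fun c hc1 hc2 => ?_⟩
      rcases Nat.lt_or_ge y c with h8 | h8
      · refine hy3 c h8 ?_
        have : (c : ℝ) ≤ m := by exact_mod_cast (by omega : c ≤ m)
        linarith
      · exact ha3 c hc1 h8
    have h8 := stretch_le S n a (m + 1) hmn hst
    have h9 : (m : ℝ) + 1 - y ≤ W S n := by
      have e1 : m + 1 - y ≤ W S n := by omega
      have e2 : ((m + 1 - y : ℕ) : ℝ) ≤ W S n := by exact_mod_cast e1
      rw [Nat.cast_sub (by omega)] at e2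
      push_cast at e2
      exact e2
    have h10 : Real.log ((n / 4 : ℕ) : ℝ) ^ 2 ≤ Real.log y ^ 2 := by
      have e1 : (0 : ℝ) < ((n / 4 : ℕ) : ℝ) := by exact_mod_cast (by omega : 0 < n / 4)
      have e2 : Real.log ((n / 4 : ℕ) : ℝ) ≤ Real.log y := Real.log_le_log e1 (by exact_mod_cast hy1)
      have e3 : 0 ≤ Real.log ((n / 4 : ℕ) : ℝ) := Real.log_natCast_nonneg _
      nlinarith
    have h11 : (1 - ε / 2) * Real.log ((n / 4 : ℕ) : ℝ) ^ 2 ≤ (1 - ε / 2) * Real.log y ^ 2 :=
      mul_le_mul_of_nonneg_left h10 (by linarith)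
    linarith
  rw [Metric.tendsto_atTop]
  intro ε hε
  have hm0 : 0 < min (ε / 2) (1 / 2) := lt_min (by linarith) (by norm_num)
  have hm1 : min (ε / 2) (1 / 2) ≤ ε / 2 := min_le_left _ _
  have hm2 : min (ε / 2) (1 / 2) ≤ 1 / 2 := min_le_right _ _
  obtain ⟨N, hN⟩ := eventually_atTop.1 ((up (ε / 2) (by linarith)).and ((low (min (ε / 2) (1 / 2)) hm0 (by linarith)).and
    (hl2.eventually_gt_atTop 0)))
  refine ⟨N, fun n hn => ?_⟩
  obtain ⟨h1, h2, h3⟩ := hN n hn
  rw [Real.dist_eq, abs_lt]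
  constructor
  · rw [lt_sub_iff_add_lt, lt_div_iff₀ h3]
    nlinarith
  · rw [sub_lt_iff_lt_add, div_lt_iff₀ h3]
    nlinarith

end Pool.Agent.Q120.GM
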