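import Pool.Agent.Q120.GM.Rec1

/-!
# Maximal gaps of a set: summation
-/

set_option autoImplicit false

namespace Pool.Agent.Q120.GM

open Finset Filter
open scoped Topology

/-- The indicator of the mode. -/
noncomputable def zz (S : Set ℕ) (n : ℕ) : ℝ := by
  classical
  exact if Mode S n then 1 else 0

/-- The indicator of the end of a maximal gap. -/
noncomputable def rr (S : Set ℕ) (n : ℕ) : ℝ := by
  classical
  exact if Mode S n ∧ n ∈ S then 1 else 0

theorem zz_nonneg (S : Set ℕ) (n : ℕ) : 0 ≤ zz S n := by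
  classical
  unfold zz
  split_ifs <;> norm_num

theorem zz_le (S : Set ℕ) (n : ℕ) : zz S n ≤ 1 := by
  classical
  unfold zz
  split_ifs <;> norm_num

theorem rr_nonneg (S : Set ℕ) (n : ℕ) : 0 ≤ rr S n := by
  classical
  unfold rr
  split_ifs <;> norm_num

theorem W_zz (S : Set ℕ) (n : ℕ) : (W S (n + 1) : ℝ) = W S n + zz S (n + 1) := by
  classical
  rw [W_succ]
  unfold zz
  push_cast
  rfl

theorem zz_step (S : Set ℕ) (n : ℕ) : zz S n ≤ zz S (n + 1) + rr S n := by
  classical
  unfold zz rr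
  by_cases h1 : Mode S n
  · rw [if_pos h1]
    by_cases h2 : n ∈ S
    · rw [if_pos (show Mode S n ∧ n ∈ S from ⟨h1, h2⟩)]
      split_ifs <;> norm_num
    · rw [if_pos (mode_succ h1 h2)]
      split_ifs <;> norm_num
  · rw [if_neg h1]
    split_ifs <;> norm_num

/-- `1 / log`. -/
noncomputable def ff (n : ℕ) : ℝ := 1 / Real.log n

theorem ff_nonneg (n : ℕ) : 0 ≤ ff n := by
  unfold ff
  exact div_nonneg zero_le_one (Real.log_natCast_nonneg n)

theorem ff_anti {m n : ℕ} (hm : 2 ≤ m) (h : m ≤ n) : ff n ≤ ff m := by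
  unfold ff
  have h1 : 0 < Real.log (m : ℝ) := Real.log_pos (by exact_mod_cast hm)
  have h2 : Real.log (m : ℝ) ≤ Real.log n := Real.log_le_log (by exact_mod_cast (by omega : 0 < m)) (by exact_mod_cast h)
  exact one_div_le_one_div_of_le h1 h2

/-- The sum of `1 / log` over the mode. -/
noncomputable def S1 (S : Set ℕ) (m₀ x : ℕ) : ℝ := ∑ m ∈ Ico m₀ x, zz S m * ff m

theorem S1_succ (S : Set ℕ) {m₀ x : ℕ} (h : m₀ ≤ x) : S1 S m₀ (x + 1) = S1 S m₀ x + zz S x * ff x := by
  unfold S1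
  rw [sum_Ico_succ_top h]

/-- **Summation by parts.** -/
theorem S1_asymp {S : Set ℕ} (hW : Tendsto (fun n : ℕ => (W S n : ℝ) / Real.log n ^ 2) atTop (𝓝 1)) (m₁ : ℕ) (hm₁ : 2 ≤ m₁) :
    Tendsto (fun x : ℕ => S1 S m₁ x / Real.log x) atTop (𝓝 2) := by
  have hl : Tendsto (fun x : ℕ => Real.log (x : ℝ)) atTop atTop :=
    Real.tendsto_log_atTop.comp tendsto_natCast_atTop_atTop
  -- T x = S1 (x+1) - W x / log x
  obtain ⟨T, hT⟩ : ∃ T : ℕ → ℝ, T = fun (x : ℕ) => S1 S m₁ (x + 1) - W S x * ff x := ⟨_, rfl⟩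
  have hstep : ∀ x, m₁ ≤ x → T (x + 1) - T x = W S x * (ff x - ff (x + 1)) := by
    intro x hx
    rw [hT]
    show S1 S m₁ (x + 1 + 1) - W S (x + 1) * ff (x + 1) - (S1 S m₁ (x + 1) - W S x * ff x) = _
    rw [S1_succ S (show m₁ ≤ x + 1 by omega), W_zz]
    ring
  have hff : ∀ x : ℕ, 2 ≤ x → ff x - ff (x + 1) = (Real.log ((x + 1 : ℕ) : ℝ) - Real.log x) * (ff x * ff (x + 1)) := by
    intro x hx
    unfold ff
    have h1 : 0 < Real.log (x : ℝ) := Real.log_pos (by exact_mod_cast hx)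
    have h2 : 0 < Real.log ((x + 1 : ℕ) : ℝ) := Real.log_pos (by exact_mod_cast (by omega : 1 < x + 1))
    field_simp
  have hdl : ∀ x : ℕ, 1 ≤ x → 0 ≤ Real.log ((x + 1 : ℕ) : ℝ) - Real.log x := by
    intro x hx
    have : Real.log (x : ℝ) ≤ Real.log ((x + 1 : ℕ) : ℝ) := Real.log_le_log (by exact_mod_cast hx) (by push_cast; linarith)
    linarith
  have hratio : Tendsto (fun x : ℕ => Real.log ((x : ℕ) : ℝ) / Real.log ((x + 1 : ℕ) : ℝ)) atTop (𝓝 1) := by
    have h1 : Tendsto (fun x : ℕ => Real.log ((x + 1 : ℕ) : ℝ)) atTop atTop := hl.comp (tendsto_add_atTop_nat 1)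
    have h2 : Tendsto (fun x : ℕ => 1 - Real.log 2 / Real.log ((x + 1 : ℕ) : ℝ)) atTop (𝓝 (1 - 0)) :=
      (h1.const_div_atTop _).const_sub 1
    rw [sub_zero] at h2
    refine tendsto_of_tendsto_of_tendsto_of_le_of_le' h2 tendsto_const_nhds ?_ ?_
    · filter_upwards [eventually_ge_atTop 2] with x hx
      have e1 : 0 < Real.log ((x + 1 : ℕ) : ℝ) := Real.log_pos (by exact_mod_cast (by omega : 1 < x + 1))
      have hx0 : (0 : ℝ) < x := by exact_mod_cast (by omega : 0 < x)
      rw [le_div_iff₀ e1]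
      have e2 : (1 - Real.log 2 / Real.log ((x + 1 : ℕ) : ℝ)) * Real.log ((x + 1 : ℕ) : ℝ) = Real.log ((x + 1 : ℕ) : ℝ) - Real.log 2 := by
        field_simp
      rw [e2]
      have e3 : Real.log ((x + 1 : ℕ) : ℝ) ≤ Real.log (x * 2) := by
        refine Real.log_le_log (by positivity) ?_
        push_cast
        have : (1 : ℝ) ≤ x := by exact_mod_cast (by omega : 1 ≤ x)
        linarith
      rw [Real.log_mul hx0.ne' (by norm_num)] at e3
      linarith
    · filter_upwards [eventually_ge_atTop 2] with x hx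
      have e1 : 0 < Real.log ((x + 1 : ℕ) : ℝ) := Real.log_pos (by exact_mod_cast (by omega : 1 < x + 1))
      rw [div_le_one e1]
      have := hdl x (by omega)
      linarith
  have key : ∀ ε : ℝ, 0 < ε → ε < 1 → ∃ m₀ : ℕ, m₁ ≤ m₀ ∧ ∀ x, m₀ ≤ x →
      (1 - ε) * (Real.log x - Real.log m₀) ≤ T x - T m₀ ∧ T x - T m₀ ≤ (1 + ε) * (Real.log x - Real.log m₀) := by
    intro ε hε hε1
    have g1 : Tendsto (fun x : ℕ => (W S x : ℝ) / Real.log x ^ 2 * (Real.log ((x : ℕ) : ℝ) / Real.log ((x + 1 : ℕ) : ℝ)))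
        atTop (𝓝 (1 * 1)) := hW.mul hratio
    rw [mul_one] at g1
    obtain ⟨m₀, hm₀⟩ := eventually_atTop.1 ((g1.eventually_const_le (show 1 - ε < 1 by linarith)).and
      ((g1.eventually_le_const (show 1 < 1 + ε by linarith)).and (eventually_ge_atTop m₁)))
    refine ⟨m₀, (hm₀ m₀ le_rfl).2.2, fun x hx => ?_⟩
    induction x, hx using Nat.le_induction with
    | base => simp
    | succ x hx ih =>
      obtain ⟨h1, h2, h3⟩ := hm₀ x hx
      have h4 := hstep x h3
      have h5 := hff x (by omega)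
      have hlx : 0 < Real.log (x : ℝ) := Real.log_pos (by exact_mod_cast (by omega : 1 < x))
      have hlx1 : 0 < Real.log ((x + 1 : ℕ) : ℝ) := Real.log_pos (by exact_mod_cast (by omega : 1 < x + 1))
      have h6 : (W S x : ℝ) * (ff x - ff (x + 1)) = ((W S x : ℝ) / Real.log x ^ 2 *
          (Real.log ((x : ℕ) : ℝ) / Real.log ((x + 1 : ℕ) : ℝ))) * (Real.log ((x + 1 : ℕ) : ℝ) - Real.log x) := by
        rw [h5]
        unfold ff
        field_simp
      have h7 := hdl x (by omega)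
      have h8 := mul_le_mul_of_nonneg_right h1 h7
      have h9 := mul_le_mul_of_nonneg_right h2 h7
      rw [← h6, ← h4] at h8 h9
      constructor
      · linarith [ih.1]
      · linarith [ih.2]
  -- T x / log x tends to 1
  have hTlim : Tendsto (fun x : ℕ => T x / Real.log x) atTop (𝓝 1) := by
    rw [Metric.tendsto_atTop]
    intro ε hε
    have hm0 : 0 < min (ε / 2) (1 / 2) := lt_min (by linarith) (by norm_num)
    have hm1 : min (ε / 2) (1 / 2) ≤ ε / 2 := min_le_left _ _
    have hm2 : min (ε / 2) (1 / 2) ≤ 1 / 2 := min_le_right _ _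
    obtain ⟨m₀, _, hm₀⟩ := key (min (ε / 2) (1 / 2)) hm0 (by linarith)
    obtain ⟨δ, hδ⟩ : ∃ δ, δ = min (ε / 2) (1 / 2) := ⟨_, rfl⟩
    rw [← hδ] at hm₀ hm0 hm1 hm2
    obtain ⟨N, hN⟩ := eventually_atTop.1 ((hl.eventually_gt_atTop (2 * (|T m₀| + 2 * Real.log m₀) / ε)).and
      ((hl.eventually_gt_atTop 0).and (eventually_ge_atTop m₀)))
    refine ⟨N, fun x hx => ?_⟩
    obtain ⟨h1, h2, h3⟩ := hN x hx
    obtain ⟨h4, h5⟩ := hm₀ x h3
    have hlm : 0 ≤ Real.log (m₀ : ℝ) := Real.log_natCast_nonneg m₀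
    rw [div_lt_iff₀ hε] at h1
    have h6 := neg_abs_le (T m₀)
    have h7 := le_abs_self (T m₀)
    rw [Real.dist_eq, abs_lt]
    constructor
    · rw [lt_sub_iff_add_lt, lt_div_iff₀ h2]
      nlinarith
    · rw [sub_lt_iff_lt_add, div_lt_iff₀ h2]
      nlinarith
  -- conclusion
  have hWf : Tendsto (fun x : ℕ => (W S x : ℝ) * ff x / Real.log x) atTop (𝓝 1) := by
    refine hW.congr (fun x => ?_)
    unfold ff
    ring
  have hzero : Tendsto (fun x : ℕ => zz S x * ff x / Real.log x) atTop (𝓝 0) := by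
    have h1 : Tendsto (fun x : ℕ => 1 / Real.log x) atTop (𝓝 0) := hl.const_div_atTop 1
    refine squeeze_zero' (Eventually.of_forall (fun x => ?_)) ?_ h1
    · exact div_nonneg (mul_nonneg (zz_nonneg S x) (ff_nonneg x)) (Real.log_natCast_nonneg x)
    · filter_upwards [hl.eventually_ge_atTop 1] with x hx
      apply div_le_div_of_nonneg_right _ (by linarith)
      have e1 : ff x ≤ 1 := by
        unfold ff
        rw [div_le_one (by linarith)]
        exact hx
      have := zz_le S x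
      have := zz_nonneg S x
      have := ff_nonneg x
      nlinarith
  have hsum := (hTlim.add hWf).sub hzero
  rw [show (1 : ℝ) + 1 - 0 = 2 by norm_num] at hsum
  refine hsum.congr' ?_
  filter_upwards [eventually_ge_atTop m₁] with x hx
  rw [hT]
  show (S1 S m₁ (x + 1) - W S x * ff x) / Real.log x + W S x * ff x / Real.log x - zz S x * ff x / Real.log x = _
  rw [S1_succ S hx]
  ring

/-- The excess of the density of the classes. -/
noncomputable def dd (Q n : ℕ) : ℝ := (if n.Coprime Q then (Q : ℝ) / Nat.totient Q else 0) - 1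

/-- Its partial sums. -/
noncomputable def DD (Q n : ℕ) : ℝ := ∑ m ∈ range n, dd Q m

theorem DD_bound {Q : ℕ} (hQ : 1 ≤ Q) (n : ℕ) : |DD Q n| ≤ (Q : ℝ) * ((Q : ℝ) / Nat.totient Q + 1) := by
  have hφ : (0 : ℝ) < Nat.totient Q := by exact_mod_cast Nat.totient_pos.2 hQ
  have hQ0 : (0 : ℝ) < Q := by exact_mod_cast hQ
  have hper : Function.Periodic (fun m => dd Q m) Q := by
    intro m
    show dd Q (m + Q) = dd Q m
    unfold dd
    have h : (m + Q).Coprime Q ↔ m.Coprime Q := by
      rw [Nat.coprime_add_self_left]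
    simp only [h]
  have hzero : ∑ m ∈ range Q, dd Q m = 0 := by
    unfold dd
    rw [sum_sub_distrib, ← sum_filter, sum_const, sum_const, card_range, nsmul_eq_mul, nsmul_eq_mul, mul_one]
    have h1 : ((range Q).filter (fun m => m.Coprime Q)).card = Nat.totient Q := by
      rw [Nat.totient_eq_card_coprime]
      congr 1
      exact filter_congr (fun m _ => Nat.coprime_comm)
    rw [h1]
    field_simp
    ring
  have hblock : ∀ k m : ℕ, DD Q (m + k * Q) = DD Q m := by
    intro k m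
    induction k with
    | zero => simp
    | succ k ih =>
      rw [← ih]
      have h1 : m + (k + 1) * Q = (m + k * Q) + Q := by ring
      rw [h1]
      unfold DD
      rw [sum_range_add]
      have h2 : ∑ x ∈ range Q, dd Q (m + k * Q + x) = ∑ x ∈ range Q, dd Q x := by
        have h3 := Nat.filter_Ico_card_eq_of_periodic
        have h4 : ∀ a : ℕ, ∑ x ∈ range Q, dd Q (a + x) = ∑ x ∈ range Q, dd Q x := by
          intro a
          induction a with
          | zero => simp
          | succ a iha =>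
            rw [← iha]
            have h5 : ∑ x ∈ range (Q + 1), dd Q (a + x) = ∑ x ∈ range Q, dd Q (a + x) + dd Q (a + Q) := sum_range_succ _ _
            have h6 : ∑ x ∈ range (Q + 1), dd Q (a + x) = ∑ x ∈ range Q, dd Q (a + (x + 1)) + dd Q (a + 0) := sum_range_succ' _ _
            have h7 : dd Q (a + Q) = dd Q (a + 0) := by
              rw [add_zero]
              exact hper a
            have h8 : ∑ x ∈ range Q, dd Q (a + 1 + x) = ∑ x ∈ range Q, dd Q (a + (x + 1)) :=
              sum_congr rfl (fun x _ => by rw [show a + 1 + x = a + (x + 1) by ring])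
            rw [h8]
            linarith
        exact h4 _
      rw [h2, hzero, add_zero]
  have h1 : DD Q n = DD Q (n % Q) := by
    have := hblock (n / Q) (n % Q)
    rw [mul_comm, Nat.mod_add_div] at this
    exact this
  rw [h1]
  unfold DD
  refine (abs_sum_le_sum_abs _ _).trans ?_
  have h2 : ∀ m ∈ range (n % Q), |dd Q m| ≤ (Q : ℝ) / Nat.totient Q + 1 := by
    intro m _
    unfold dd
    have h3 : 0 < (Q : ℝ) / Nat.totient Q := by positivity
    split_ifs
    · rw [abs_le]
      constructor <;> linarith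
    · rw [zero_sub, abs_neg, abs_one]
      linarith
  refine (sum_le_sum h2).trans ?_
  rw [sum_const, card_range, nsmul_eq_mul]
  refine mul_le_mul_of_nonneg_right ?_ (by positivity)
  exact_mod_cast (Nat.mod_lt n (by omega)).le

/-- **The sieving has no influence on the sum over the mode, up to the number of the maximal gaps.** -/
theorem sieve_sum {S : Set ℕ} {Q : ℕ} {K : ℝ} (hK : ∀ n, |DD Q n| ≤ K) {m₁ : ℕ} (hm₁ : 2 ≤ m₁) (x : ℕ) (hx : m₁ ≤ x) :
    |∑ m ∈ Ico m₁ x, zz S m * ff m * dd Q m| ≤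
      K * (4 * ff m₁ + 2 * ∑ m ∈ Ico m₁ x, rr S m * ff m) := by
  have hK0 : 0 ≤ K := (abs_nonneg _).trans (hK 0)
  obtain ⟨a, ha⟩ : ∃ a : ℕ → ℝ, a = fun (m : ℕ) => zz S m * ff m := ⟨_, rfl⟩
  have ha0 : ∀ m, 0 ≤ a m := fun m => by rw [ha]; exact mul_nonneg (zz_nonneg S m) (ff_nonneg m)
  have hale : ∀ m, m₁ ≤ m → a m ≤ ff m₁ := by
    intro m hm
    rw [ha]
    have h1 := ff_anti hm₁ hm
    have h2 := zz_le S m
    have h3 := zz_nonneg S m
    have h4 := ff_nonneg m
    show zz S m * ff m ≤ ff m₁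
    nlinarith
  obtain ⟨Y, hY⟩ : ∃ Y : ℕ → ℝ, Y = fun (x : ℕ) => (∑ m ∈ Ico m₁ x, a m * dd Q m) - a x * DD Q x := ⟨_, rfl⟩
  have key : ∀ x, m₁ ≤ x → |Y x - Y m₁| ≤
      K * (a x - a m₁ + 2 * (ff m₁ - ff x) + 2 * ∑ m ∈ Ico m₁ x, rr S m * ff m) := by
    intro x hx
    induction x, hx using Nat.le_induction with
    | base => simp
    | succ x hx ih =>
      have h1 : Y (x + 1) - Y x = DD Q (x + 1) * (a x - a (x + 1)) := by
        rw [hY]
        show (∑ m ∈ Ico m₁ (x + 1), a m * dd Q m) - a (x + 1) * DD Q (x + 1) -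
          ((∑ m ∈ Ico m₁ x, a m * dd Q m) - a x * DD Q x) = _
        rw [sum_Ico_succ_top hx]
        have : DD Q (x + 1) = DD Q x + dd Q x := by
          unfold DD
          rw [sum_range_succ]
        rw [this]
        ring
      have h2 : |Y (x + 1) - Y x| ≤ K * |a x - a (x + 1)| := by
        rw [h1, abs_mul]
        exact mul_le_mul_of_nonneg_right (hK _) (abs_nonneg _)
      have h3 : |a x - a (x + 1)| ≤ (a (x + 1) - a x) + 2 * (ff x - ff (x + 1)) + 2 * (rr S x * ff x) := by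
        have e1 : ff (x + 1) ≤ ff x := ff_anti (by omega) (Nat.le_succ x)
        have e2 : 0 ≤ rr S x * ff x := mul_nonneg (rr_nonneg S x) (ff_nonneg x)
        have e3 : a x ≤ a (x + 1) + (ff x - ff (x + 1)) + rr S x * ff x := by
          rw [ha]
          show zz S x * ff x ≤ zz S (x + 1) * ff (x + 1) + (ff x - ff (x + 1)) + rr S x * ff x
          have f1 := zz_step S x
          have f2 := zz_le S (x + 1)
          have f3 := ff_nonneg x
          have f4 := mul_le_mul_of_nonneg_right f1 f3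
          nlinarith
        rcases le_total (a x) (a (x + 1)) with h | h
        · rw [abs_of_nonpos (by linarith)]
          linarith
        · rw [abs_of_nonneg (by linarith)]
          linarith
      rw [sum_Ico_succ_top hx]
      have h4 : |Y (x + 1) - Y m₁| ≤ |Y (x + 1) - Y x| + |Y x - Y m₁| := by
        have : Y (x + 1) - Y m₁ = (Y (x + 1) - Y x) + (Y x - Y m₁) := by ring
        rw [this]
        exact abs_add_le _ _
      have h5 := mul_le_mul_of_nonneg_left h3 hK0
      have h6 : K * (a (x + 1) - a m₁ + 2 * (ff m₁ - ff (x + 1)) +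
          2 * ((∑ m ∈ Ico m₁ x, rr S m * ff m) + rr S x * ff x)) =
          K * (a x - a m₁ + 2 * (ff m₁ - ff x) + 2 * ∑ m ∈ Ico m₁ x, rr S m * ff m) +
          K * ((a (x + 1) - a x) + 2 * (ff x - ff (x + 1)) + 2 * (rr S x * ff x)) := by ring
      rw [h6]
      linarith
  have h1 := key x hx
  have h2 : ∑ m ∈ Ico m₁ x, zz S m * ff m * dd Q m = (Y x - Y m₁) + (a x * DD Q x - a m₁ * DD Q m₁) := by
    rw [hY, ha]
    simp
  rw [h2]
  have h3 : |a x * DD Q x - a m₁ * DD Q m₁| ≤ K * (a x + a m₁) := by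
    refine (abs_sub _ _).trans ?_
    rw [abs_mul, abs_mul, abs_of_nonneg (ha0 x), abs_of_nonneg (ha0 m₁)]
    have e1 := mul_le_mul_of_nonneg_left (hK x) (ha0 x)
    have e2 := mul_le_mul_of_nonneg_left (hK m₁) (ha0 m₁)
    linarith
  refine (abs_add_le _ _).trans ?_
  have h4 := hale x hx
  have h5 := ff_nonneg x
  have h6 : K * (4 * ff m₁ + 2 * ∑ m ∈ Ico m₁ x, rr S m * ff m) =
      K * (a x - a m₁ + 2 * (ff m₁ - ff x) + 2 * ∑ m ∈ Ico m₁ x, rr S m * ff m) + K * (a x + a m₁) +
      K * (2 * (ff m₁ - a x) + 2 * ff x) := by ring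
  have h7 : 0 ≤ K * (2 * (ff m₁ - a x) + 2 * ff x) := mul_nonneg hK0 (by linarith)
  linarith

end Pool.Agent.Q120.GM
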