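import Pool.Agent.Q120.GM.Rec2
import Pool.Agent.Q120.GM.Gap
import Pool.Agent.Q120.GM.Free

/-!
# Maximal gaps in the sieved models
-/

set_option autoImplicit false

namespace Pool.Agent.Q120.GM

open Finset MeasureTheory ProbabilityTheory Filter Pool.Agent.Q120.AD
open scoped Topology

variable {Ω : Type*} [MeasurableSpace Ω] {μ : Measure Ω} [IsProbabilityMeasure μ] {p : ℕ → ℝ} {A : Ω → Set ℕ} {Q : ℕ}

omit [MeasurableSpace Ω] in
/-- A property which depends only on the elements below `n`. -/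
theorem F_dep (n : ℕ) (P : Set ℕ → Prop) (hP : ∀ S T : Set ℕ, (∀ i < n, (i ∈ S ↔ i ∈ T)) → P S → P T) :
    MeasurableSet[F A (Set.Iio n)] {ω | P (A ω)} := by
  classical
  have h1 : {ω | P (A ω)} = ⋃ T ∈ (range n).powerset.filter (fun T : Finset ℕ => P (T : Set ℕ)),
      (all A T ∩ ⋂ i ∈ range n \ T, {ω | i ∈ A ω}ᶜ) := by
    ext ω
    rw [Set.mem_iUnion₂]
    constructor
    · intro h
      refine ⟨(range n).filter (fun i => i ∈ A ω), ?_, ?_, ?_⟩
      · rw [mem_filter, mem_powerset]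
        refine ⟨filter_subset _ _, hP _ _ (fun i hi => ?_) h⟩
        rw [mem_coe, mem_filter, mem_range]
        exact ⟨fun h1 => ⟨hi, h1⟩, fun h1 => h1.2⟩
      · intro i hi
        rw [mem_filter] at hi
        exact hi.2
      · rw [Set.mem_iInter₂]
        intro i hi hiA
        rw [Finset.mem_sdiff, mem_filter] at hi
        exact hi.2 ⟨hi.1, hiA⟩
    · rintro ⟨T, hT, h2, h3⟩
      rw [mem_filter, mem_powerset] at hT
      rw [Set.mem_iInter₂] at h3
      refine hP _ _ (fun i hi => ?_) hT.2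
      constructor
      · intro h4
        exact h2 i h4
      · intro h4
        by_contra hcon
        exact h3 i (Finset.mem_sdiff.2 ⟨mem_range.2 hi, hcon⟩) h4
  rw [h1]
  refine Finset.measurableSet_biUnion _ (fun T hT => ?_)
  rw [mem_filter, mem_powerset] at hT
  refine MeasurableSet.inter (F_all (fun i hi => ?_)) (Finset.measurableSet_biInter _ (fun i hi => ?_))
  · exact mem_range.1 (hT.1 hi)
  · rw [Finset.mem_sdiff, mem_range] at hi
    exact MeasurableSet.compl (F_mem hi.1)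

/-- The indicator. -/
noncomputable def ind (s : Set Ω) (ω : Ω) : ℝ := s.indicator (fun _ => (1 : ℝ)) ω

omit [MeasurableSpace Ω] in
theorem ind_mul (s t : Set Ω) (ω : Ω) : ind s ω * ind t ω = ind (s ∩ t) ω := by
  unfold ind
  by_cases h1 : ω ∈ s <;> by_cases h2 : ω ∈ t <;> simp [h1, h2]

theorem ind_integrable {s : Set Ω} (hs : MeasurableSet s) : Integrable (ind s) μ := (integrable_const 1).indicator hs

theorem ind_integral {s : Set Ω} (hs : MeasurableSet s) : ∫ ω, ind s ω ∂μ = μ.real s := by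
  unfold ind
  rw [integral_indicator_const _ hs]
  simp

/-- The increments. -/
noncomputable def xi (A : Ω → Set ℕ) (p : ℕ → ℝ) (E : ℕ → Set Ω) (n : ℕ) (ω : Ω) : ℝ :=
  ind (E n) ω * (ind {ω | n ∈ A ω} ω - p n)

omit [MeasurableSpace Ω] in
theorem xi_mul (A : Ω → Set ℕ) (p : ℕ → ℝ) (E : ℕ → Set Ω) (m n : ℕ) (ω : Ω) :
    xi A p E m ω * xi A p E n ω =
      ind ((E m ∩ E n ∩ {ω | m ∈ A ω}) ∩ {ω | n ∈ A ω}) ω - p n * ind (E m ∩ E n ∩ {ω | m ∈ A ω}) ω -
        p m * (ind ((E m ∩ E n) ∩ {ω | n ∈ A ω}) ω - p n * ind (E m ∩ E n) ω) := by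
  unfold xi
  rw [← ind_mul (E m ∩ E n ∩ {ω | m ∈ A ω}) {ω | n ∈ A ω}, ← ind_mul (E m ∩ E n) {ω | m ∈ A ω},
    ← ind_mul (E m ∩ E n) {ω | n ∈ A ω}, ← ind_mul (E m) (E n)]
  ring

theorem xi_cross (hA : IsModel μ p A) {E : ℕ → Set Ω} (hE : ∀ n, MeasurableSet[F A (Set.Iio n)] (E n)) {m n : ℕ} (h : m < n) :
    Integrable (fun ω => xi A p E m ω * xi A p E n ω) μ ∧ ∫ ω, xi A p E m ω * xi A p E n ω ∂μ = 0 := by
  have hm : ∀ n, MeasurableSet (E n) := fun n => F_le hA _ _ (hE n)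
  have hX : ∀ n, MeasurableSet {ω | n ∈ A ω} := hA.meas
  have hG : MeasurableSet[F A (Set.Iio n)] (E m ∩ E n) :=
    MeasurableSet.inter (F_mono (Set.Iio_subset_Iio h.le) _ (hE m)) (hE n)
  have hG2 : MeasurableSet[F A (Set.Iio n)] (E m ∩ E n ∩ {ω | m ∈ A ω}) := MeasurableSet.inter hG (F_mem h)
  have hd : Disjoint (Set.Iio n) ({n} : Set ℕ) := by
    rw [Set.disjoint_singleton_right]
    exact lt_irrefl n
  have h1 : μ.real ((E m ∩ E n ∩ {ω | m ∈ A ω}) ∩ {ω | n ∈ A ω}) = μ.real (E m ∩ E n ∩ {ω | m ∈ A ω}) * p n := by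
    rw [indep_real hA hd hG2 (F_mem (Set.mem_singleton n)), hA.prob]
  have h2 : μ.real ((E m ∩ E n) ∩ {ω | n ∈ A ω}) = μ.real (E m ∩ E n) * p n := by
    rw [indep_real hA hd hG (F_mem (Set.mem_singleton n)), hA.prob]
  have i1 := ind_integrable (μ := μ) (((hm m).inter (hm n)).inter (hX m) |>.inter (hX n))
  have i2 := ind_integrable (μ := μ) (((hm m).inter (hm n)).inter (hX m))
  have i3 := ind_integrable (μ := μ) (((hm m).inter (hm n)).inter (hX n))
  have i4 := ind_integrable (μ := μ) ((hm m).inter (hm n))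
  have hfun : (fun ω => xi A p E m ω * xi A p E n ω) = fun ω =>
      ind ((E m ∩ E n ∩ {ω | m ∈ A ω}) ∩ {ω | n ∈ A ω}) ω - p n * ind (E m ∩ E n ∩ {ω | m ∈ A ω}) ω -
        p m * (ind ((E m ∩ E n) ∩ {ω | n ∈ A ω}) ω - p n * ind (E m ∩ E n) ω) := by
    funext ω
    exact xi_mul A p E m n ω
  rw [hfun]
  have j1 := i1.sub (i2.const_mul (p n))
  have j2 := (i3.sub (i4.const_mul (p n))).const_mul (p m)
  refine ⟨j1.sub j2, ?_⟩
  calc ∫ ω, (ind ((E m ∩ E n ∩ {ω | m ∈ A ω}) ∩ {ω | n ∈ A ω}) ω - p n * ind (E m ∩ E n ∩ {ω | m ∈ A ω}) ω -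
        p m * (ind ((E m ∩ E n) ∩ {ω | n ∈ A ω}) ω - p n * ind (E m ∩ E n) ω)) ∂μ
      = (∫ ω, (ind ((E m ∩ E n ∩ {ω | m ∈ A ω}) ∩ {ω | n ∈ A ω}) ω - p n * ind (E m ∩ E n ∩ {ω | m ∈ A ω}) ω) ∂μ) -
        ∫ ω, p m * (ind ((E m ∩ E n) ∩ {ω | n ∈ A ω}) ω - p n * ind (E m ∩ E n) ω) ∂μ := integral_sub j1 j2
    _ = 0 := by
      rw [integral_sub i1 (i2.const_mul (p n)), integral_const_mul, integral_const_mul,
        integral_sub i3 (i4.const_mul (p n)), integral_const_mul,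
        ind_integral (((hm m).inter (hm n)).inter (hX m) |>.inter (hX n)),
        ind_integral (((hm m).inter (hm n)).inter (hX m)), ind_integral (((hm m).inter (hm n)).inter (hX n)),
        ind_integral ((hm m).inter (hm n)), h1, h2]
      ring

theorem xi_sq (hA : IsModel μ p A) {E : ℕ → Set Ω} (hE : ∀ n, MeasurableSet[F A (Set.Iio n)] (E n)) (n : ℕ) :
    Integrable (fun ω => xi A p E n ω * xi A p E n ω) μ ∧
      ∫ ω, xi A p E n ω * xi A p E n ω ∂μ ≤ μ.real (E n) * p n := by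
  have hm : ∀ n, MeasurableSet (E n) := fun n => F_le hA _ _ (hE n)
  have hX : ∀ n, MeasurableSet {ω | n ∈ A ω} := hA.meas
  have hd : Disjoint (Set.Iio n) ({n} : Set ℕ) := by
    rw [Set.disjoint_singleton_right]
    exact lt_irrefl n
  have h2 : μ.real (E n ∩ {ω | n ∈ A ω}) = μ.real (E n) * p n := by
    rw [indep_real hA hd (hE n) (F_mem (Set.mem_singleton n)), hA.prob]
  have i1 := ind_integrable (μ := μ) ((hm n).inter (hX n))
  have i2 := ind_integrable (μ := μ) (hm n)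
  have hfun : (fun ω => xi A p E n ω * xi A p E n ω) = fun ω =>
      (1 - 2 * p n) * ind (E n ∩ {ω | n ∈ A ω}) ω + p n ^ 2 * ind (E n) ω := by
    funext ω
    unfold xi
    have e1 := ind_mul (E n) (E n) ω
    have e2 := ind_mul {ω | n ∈ A ω} {ω | n ∈ A ω} ω
    rw [Set.inter_self] at e1 e2
    rw [← ind_mul]
    have e3 : ind (E n) ω * (ind {ω | n ∈ A ω} ω - p n) * (ind (E n) ω * (ind {ω | n ∈ A ω} ω - p n)) =
        (ind (E n) ω * ind (E n) ω) * (ind {ω | n ∈ A ω} ω * ind {ω | n ∈ A ω} ω - 2 * p n * ind {ω | n ∈ A ω} ω + p n ^ 2) := by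
      ring
    rw [e3, e1, e2]
    ring
  rw [hfun]
  refine ⟨(i1.const_mul _).add (i2.const_mul _), ?_⟩
  rw [integral_add (i1.const_mul _) (i2.const_mul _), integral_const_mul, integral_const_mul,
    ind_integral ((hm n).inter (hX n)), ind_integral (hm n), h2]
  have e1 := p_nonneg hA n
  have e2 := p_le_one hA n
  have e3 : 0 ≤ μ.real (E n) := measureReal_nonneg
  have e4 : 0 ≤ μ.real (E n) * p n ^ 2 := by positivity
  nlinarith

/-- **The second moment of the martingale.** -/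
theorem mart_sq (hA : IsModel μ p A) {E : ℕ → Set Ω} (hE : ∀ n, MeasurableSet[F A (Set.Iio n)] (E n)) (N : ℕ) :
    Integrable (fun ω => (∑ n ∈ range N, xi A p E n ω) ^ 2) μ ∧
      ∫ ω, (∑ n ∈ range N, xi A p E n ω) ^ 2 ∂μ ≤ ∑ n ∈ range N, μ.real (E n) * p n := by
  have hint : ∀ m n, Integrable (fun ω => xi A p E m ω * xi A p E n ω) μ := by
    intro m n
    rcases lt_trichotomy m n with h | h | h
    · exact (xi_cross hA hE h).1
    · subst h
      exact (xi_sq hA hE m).1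
    · have := (xi_cross hA hE h).1
      refine this.congr (Eventually.of_forall (fun ω => mul_comm _ _))
  have hfun : (fun ω => (∑ n ∈ range N, xi A p E n ω) ^ 2) = fun ω =>
      ∑ m ∈ range N, ∑ n ∈ range N, xi A p E m ω * xi A p E n ω := by
    funext ω
    rw [sq, sum_mul_sum]
  rw [hfun]
  refine ⟨integrable_finsetSum _ (fun m _ => integrable_finsetSum _ (fun n _ => hint m n)), ?_⟩
  rw [integral_finsetSum _ (fun m _ => integrable_finsetSum _ (fun n _ => hint m n))]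
  refine sum_le_sum (fun m hm => ?_)
  rw [integral_finsetSum _ (fun n _ => hint m n)]
  rw [sum_eq_single m]
  · exact (xi_sq hA hE m).2
  · intro n _ hn
    rcases lt_or_gt_of_ne hn with h | h
    · have := (xi_cross hA hE h).2
      rw [← this]
      exact integral_congr_ae (Eventually.of_forall (fun ω => mul_comm _ _))
    · exact (xi_cross hA hE h).2
  · intro h
    exact absurd hm h

theorem mart_cheb (hA : IsModel μ p A) {E : ℕ → Set Ω} (hE : ∀ n, MeasurableSet[F A (Set.Iio n)] (E n)) (N : ℕ) {t : ℝ}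
    (ht : 0 < t) : μ.real {ω | t ≤ |∑ n ∈ range N, xi A p E n ω|} ≤ (∑ n ∈ range N, μ.real (E n) * p n) / t ^ 2 := by
  obtain ⟨h1, h2⟩ := mart_sq hA hE N
  have h3 := mul_meas_ge_le_integral_of_nonneg (μ := μ) (f := fun ω => (∑ n ∈ range N, xi A p E n ω) ^ 2)
    (Eventually.of_forall (fun ω => sq_nonneg _)) h1 (t ^ 2)
  have h4 : {ω | t ≤ |∑ n ∈ range N, xi A p E n ω|} ⊆ {ω | t ^ 2 ≤ (∑ n ∈ range N, xi A p E n ω) ^ 2} := by
    intro ω hω
    have hω' : t ≤ |∑ n ∈ range N, xi A p E n ω| := hω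
    show t ^ 2 ≤ (∑ n ∈ range N, xi A p E n ω) ^ 2
    rw [← sq_abs (∑ n ∈ range N, xi A p E n ω)]
    exact pow_le_pow_left₀ ht.le hω' 2
  have h5 : μ.real {ω | t ≤ |∑ n ∈ range N, xi A p E n ω|} ≤ μ.real {ω | t ^ 2 ≤ (∑ n ∈ range N, xi A p E n ω) ^ 2} :=
    measureReal_mono h4 (measure_ne_top _ _)
  rw [le_div_iff₀ (by positivity), mul_comm]
  exact (mul_le_mul_of_nonneg_left h5 (by positivity)).trans (h3.trans h2)

/-- The truncated mode. -/
def EE (A : Ω → Set ℕ) (n : ℕ) : Set Ω := {ω | Mode (A ω) n ∧ (W (A ω) n : ℝ) ≤ 2 * Real.log n ^ 2}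

omit [MeasurableSpace Ω] in
theorem F_EE (n : ℕ) : MeasurableSet[F A (Set.Iio n)] (EE A n) := by
  refine F_dep n (fun S => Mode S n ∧ (W S n : ℝ) ≤ 2 * Real.log n ^ 2) (fun S T h => ?_)
  rintro ⟨h1, h2⟩
  refine ⟨mode_local h h1, ?_⟩
  rw [← W_local h]
  exact h2

/-- The bound for the second moment. -/
theorem var_bound (hA : IsModel μ (level Q) A) (hQ : 1 ≤ Q) {y N : ℕ} (hy : 2 ≤ y) (hyN : y ≤ N) :
    ∑ n ∈ range N, μ.real (EE A n) * level Q n ≤
      (2 * Real.log y ^ 2) + qq Q / Real.log y * (2 * Real.log N ^ 2) := by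
  classical
  have hmE : ∀ n, MeasurableSet (EE A n) := fun n => F_le hA _ _ (F_EE n)
  have hq := qq_pos hQ
  have hcount : ∀ (ω : Ω) (s : Finset ℕ) (z : ℕ), 1 ≤ z → (∀ n ∈ s, n < z) →
      ∑ n ∈ s, ind (EE A n) ω ≤ 2 * Real.log z ^ 2 := by
    intro ω s z hz hs
    have h1 : ∑ n ∈ s, ind (EE A n) ω = ((s.filter (fun n => ω ∈ EE A n)).card : ℝ) := by
      rw [card_filter]
      push_cast
      refine sum_congr rfl (fun n _ => ?_)
      unfold ind
      by_cases h : ω ∈ EE A n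
      · rw [Set.indicator_of_mem h, if_pos h]
      · rw [Set.indicator_of_notMem h, if_neg h]
    rw [h1]
    have h2 : (s.filter (fun n => ω ∈ EE A n)).card ≤ ⌊2 * Real.log z ^ 2⌋₊ := by
      refine count_mode_le (A ω) z _ _ (fun n hn => ?_)
      rw [mem_filter] at hn
      obtain ⟨h3, h4, h5⟩ := hn
      refine ⟨h4, Nat.le_floor (h5.trans ?_)⟩
      have h6 : 0 ≤ Real.log (n : ℝ) := Real.log_natCast_nonneg n
      have h7 : Real.log (n : ℝ) ≤ Real.log z := by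
        rcases Nat.eq_zero_or_pos n with h8 | h8
        · rw [h8, Nat.cast_zero, Real.log_zero]
          exact Real.log_natCast_nonneg z
        · exact Real.log_le_log (by exact_mod_cast h8) (by exact_mod_cast (hs n h3).le)
      nlinarith
    have h3 : ((s.filter (fun n => ω ∈ EE A n)).card : ℝ) ≤ (⌊2 * Real.log z ^ 2⌋₊ : ℝ) := by exact_mod_cast h2
    exact h3.trans (Nat.floor_le (by positivity))
  have hE : ∀ (s : Finset ℕ) (z : ℕ), 1 ≤ z → (∀ n ∈ s, n < z) → ∑ n ∈ s, μ.real (EE A n) ≤ 2 * Real.log z ^ 2 := by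
    intro s z hz hs
    have h1 : ∑ n ∈ s, μ.real (EE A n) = ∫ ω, ∑ n ∈ s, ind (EE A n) ω ∂μ := by
      rw [integral_finsetSum _ (fun n _ => ind_integrable (hmE n))]
      exact sum_congr rfl (fun n _ => (ind_integral (hmE n)).symm)
    rw [h1]
    have h2 : ∫ ω, ∑ n ∈ s, ind (EE A n) ω ∂μ ≤ ∫ _ω, 2 * Real.log z ^ 2 ∂μ :=
      integral_mono (integrable_finsetSum _ (fun n _ => ind_integrable (hmE n))) (integrable_const _)
        (fun ω => hcount ω s z hz hs)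
    rw [integral_const, probReal_univ, one_smul] at h2
    exact h2
  have h1 : range N = range y ∪ Ico y N := by
    ext n
    rw [mem_union, mem_range, mem_range, mem_Ico]
    omega
  have hdisj : Disjoint (range y) (Ico y N) := by
    rw [Finset.disjoint_left]
    intro n hn hn2
    rw [mem_range] at hn
    rw [mem_Ico] at hn2
    omega
  rw [h1, sum_union hdisj]
  refine add_le_add ?_ ?_
  · refine (sum_le_sum (g := fun n => μ.real (EE A n)) (fun n _ => ?_)).trans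
      (hE (range y) y (by omega) (fun n hn => mem_range.1 hn))
    have e1 : 0 ≤ μ.real (EE A n) := measureReal_nonneg
    have e2 := level_le_one Q n
    nlinarith
  · have hly : 0 < Real.log (y : ℝ) := Real.log_pos (by exact_mod_cast hy)
    refine (sum_le_sum (g := fun n => qq Q / Real.log y * μ.real (EE A n)) (fun n hn => ?_)).trans ?_
    · rw [mem_Ico] at hn
      have e1 : 0 ≤ μ.real (EE A n) := measureReal_nonneg
      have e2 : level Q n ≤ qq Q / Real.log y :=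
        level_le hly (by exact_mod_cast (by omega : 0 < y)) (by exact_mod_cast hn.1)
      rw [mul_comm]
      exact mul_le_mul_of_nonneg_right e2 e1
    · rw [← mul_sum]
      refine mul_le_mul_of_nonneg_left (hE (Ico y N) N (by omega) (fun n hn => (mem_Ico.1 hn).2)) (by positivity)

/-- The martingale is small along the sequence `2^(k^4)`. -/
theorem mart_small (hA : IsModel μ (level Q) A) (hQ : 1 ≤ Q) {ε : ℝ} (hε : 0 < ε) :
    ∀ᵐ ω ∂μ, ∀ᶠ k : ℕ in atTop, |∑ n ∈ range (2 ^ (k ^ 4)), xi A (level Q) (EE A) n ω| < ε * (k : ℝ) ^ 4 := by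
  have hq := qq_pos hQ
  have hlog2 : 0 < Real.log 2 := Real.log_pos (by norm_num)
  have hlog2' : Real.log 2 ≤ 1 := by have := Real.log_two_lt_d9; linarith
  obtain ⟨B, hB⟩ : ∃ B : ℕ → Set Ω, B = fun (k : ℕ) =>
      {ω | ε * (k : ℝ) ^ 4 ≤ |∑ n ∈ range (2 ^ (k ^ 4)), xi A (level Q) (EE A) n ω|} := ⟨_, rfl⟩
  obtain ⟨C, hC⟩ : ∃ C, C = (2 + 2 * qq Q) / ε ^ 2 := ⟨_, rfl⟩
  have hsm : Summable (fun k : ℕ => C * (1 / (k : ℝ) ^ 2)) := (Real.summable_one_div_nat_pow.2 (by norm_num)).mul_left C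
  have hbound : ∀ᶠ k : ℕ in atTop, μ.real (B k) ≤ C * (1 / (k : ℝ) ^ 2) := by
    filter_upwards [eventually_ge_atTop 1] with k hk
    have hk0 : (0 : ℝ) < k := by exact_mod_cast hk
    have hk1 : (1 : ℝ) ≤ k := by exact_mod_cast hk
    have h1 := mart_cheb hA (E := EE A) F_EE (2 ^ (k ^ 4)) (t := ε * (k : ℝ) ^ 4) (by positivity)
    rw [hB]
    refine h1.trans ?_
    have h2 : 2 ≤ 2 ^ (k ^ 2) := by
      calc 2 = 2 ^ 1 := rfl
        _ ≤ 2 ^ (k ^ 2) := Nat.pow_le_pow_right (by norm_num) (Nat.one_le_pow _ _ hk)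
    have h3 : 2 ^ (k ^ 2) ≤ 2 ^ (k ^ 4) := Nat.pow_le_pow_right (by norm_num) (Nat.pow_le_pow_right hk (by norm_num))
    have h4 := var_bound hA hQ h2 h3
    have e1 : Real.log ((2 ^ (k ^ 2) : ℕ) : ℝ) = (k : ℝ) ^ 2 * Real.log 2 := by
      push_cast
      rw [Real.log_pow]
      push_cast
      ring
    have e2 : Real.log ((2 ^ (k ^ 4) : ℕ) : ℝ) = (k : ℝ) ^ 4 * Real.log 2 := by
      push_cast
      rw [Real.log_pow]
      push_cast
      ring
    rw [e1, e2] at h4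
    rw [div_le_iff₀ (by positivity)]
    refine h4.trans ?_
    have e3 : qq Q / ((k : ℝ) ^ 2 * Real.log 2) * (2 * ((k : ℝ) ^ 4 * Real.log 2) ^ 2) =
        2 * qq Q * Real.log 2 * (k : ℝ) ^ 6 := by
      field_simp
    rw [e3]
    have e4 : C * (1 / (k : ℝ) ^ 2) * (ε * (k : ℝ) ^ 4) ^ 2 = (2 + 2 * qq Q) * (k : ℝ) ^ 6 := by
      rw [hC]
      field_simp
    rw [e4]
    have e5 : (k : ℝ) ^ 4 ≤ (k : ℝ) ^ 6 := pow_le_pow_right₀ hk1 (by norm_num)
    have e6 : 2 * ((k : ℝ) ^ 2 * Real.log 2) ^ 2 ≤ 2 * (k : ℝ) ^ 6 := by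
      have : ((k : ℝ) ^ 2 * Real.log 2) ^ 2 = (k : ℝ) ^ 4 * Real.log 2 ^ 2 := by ring
      rw [this]
      have e7 : Real.log 2 ^ 2 ≤ 1 := pow_le_one₀ hlog2.le hlog2'
      have e8 : (k : ℝ) ^ 4 * Real.log 2 ^ 2 ≤ (k : ℝ) ^ 4 * 1 := mul_le_mul_of_nonneg_left e7 (by positivity)
      linarith
    have e7 : 2 * qq Q * Real.log 2 * (k : ℝ) ^ 6 ≤ 2 * qq Q * (k : ℝ) ^ 6 := by
      refine mul_le_mul_of_nonneg_right ?_ (by positivity)
      nlinarith
    linarith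
  filter_upwards [bc hsm hbound] with ω hω
  filter_upwards [hω] with k hk
  rw [hB] at hk
  by_contra hcon
  push Not at hcon
  exact hk hcon

/-- Interpolation. -/
theorem interp {f : ℕ → ℝ} (hf : Monotone f) (hf0 : ∀ n, 0 ≤ f n) {L : ℝ}
    (h : Tendsto (fun k : ℕ => f (2 ^ (k ^ 4)) / Real.log ((2 ^ (k ^ 4) : ℕ) : ℝ)) atTop (𝓝 L)) :
    Tendsto (fun x : ℕ => f x / Real.log x) atTop (𝓝 L) := by
  classical
  have hlog2 : 0 < Real.log 2 := Real.log_pos (by norm_num)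
  have hlogx : ∀ k : ℕ, Real.log ((2 ^ (k ^ 4) : ℕ) : ℝ) = (k : ℝ) ^ 4 * Real.log 2 := by
    intro k
    push_cast
    rw [Real.log_pow]
    push_cast
    ring
  obtain ⟨κ, hκ⟩ : ∃ κ : ℕ → ℕ, κ = fun (x : ℕ) => Nat.findGreatest (fun k => 2 ^ (k ^ 4) ≤ x) x := ⟨_, rfl⟩
  have hpow : ∀ k : ℕ, k < 2 ^ (k ^ 4) := by
    intro k
    rcases Nat.eq_zero_or_pos k with h | h
    · rw [h]
      norm_num
    · calc k < 2 ^ k := Nat.lt_two_pow_self
        _ ≤ 2 ^ (k ^ 4) := Nat.pow_le_pow_right (by norm_num) (by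
          calc k = k ^ 1 := (pow_one k).symm
            _ ≤ k ^ 4 := Nat.pow_le_pow_right h (by norm_num))
  have hk1 : ∀ x, 1 ≤ x → 2 ^ ((κ x) ^ 4) ≤ x := by
    intro x hx
    rw [hκ]
    exact Nat.findGreatest_spec (P := fun k => 2 ^ (k ^ 4) ≤ x) (Nat.zero_le x) (by simpa using hx)
  have hk2 : ∀ x, x < 2 ^ ((κ x + 1) ^ 4) := by
    intro x
    by_contra hcon
    push Not at hcon
    have h1 : κ x + 1 ≤ x := ((hpow (κ x + 1)).trans_le hcon).le
    have h2 : κ x < κ x + 1 := Nat.lt_succ_self _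
    have h3 : ¬ (2 ^ ((κ x + 1) ^ 4) ≤ x) := by
      rw [hκ] at h2 h1 ⊢
      exact Nat.findGreatest_is_greatest (P := fun k => 2 ^ (k ^ 4) ≤ x) h2 h1
    exact h3 hcon
  have hκt : Tendsto κ atTop atTop := by
    rw [tendsto_atTop_atTop]
    intro b
    refine ⟨2 ^ (b ^ 4), fun x hx => ?_⟩
    rw [hκ]
    exact Nat.le_findGreatest ((hpow b).le.trans hx) hx
  have hr : Tendsto (fun k : ℕ => (((k : ℝ) + 1) / k) ^ 4) atTop (𝓝 1) := by
    have h1 : Tendsto (fun k : ℕ => 1 + 1 / (k : ℝ)) atTop (𝓝 (1 + 0)) :=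
      tendsto_one_div_atTop_nhds_zero_nat.const_add 1
    have h2 := h1.pow 4
    rw [add_zero, one_pow] at h2
    refine h2.congr' ?_
    filter_upwards [eventually_ge_atTop 1] with k hk
    have : (0 : ℝ) < k := by exact_mod_cast hk
    congr 1
    field_simp
  have hup : Tendsto (fun x : ℕ => f (2 ^ ((κ x + 1) ^ 4)) / Real.log ((2 ^ ((κ x + 1) ^ 4) : ℕ) : ℝ) *
      (((κ x : ℝ) + 1) / κ x) ^ 4) atTop (𝓝 (L * 1)) :=
    ((h.comp (tendsto_add_atTop_nat 1)).comp hκt).mul (hr.comp hκt)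
  have hlow : Tendsto (fun x : ℕ => f (2 ^ ((κ x) ^ 4)) / Real.log ((2 ^ ((κ x) ^ 4) : ℕ) : ℝ) *
      ((((κ x : ℝ) + 1) / κ x) ^ 4)⁻¹) atTop (𝓝 (L * 1⁻¹)) :=
    (h.comp hκt).mul ((hr.comp hκt).inv₀ one_ne_zero)
  rw [mul_one] at hup
  rw [inv_one, mul_one] at hlow
  refine tendsto_of_tendsto_of_tendsto_of_le_of_le' hlow hup ?_ ?_
  · filter_upwards [hκt.eventually_ge_atTop 1, eventually_ge_atTop 2] with x h1 h2
    have hκ0 : (0 : ℝ) < κ x := by exact_mod_cast h1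
    have e1 := hk1 x (by omega)
    have e2 := hk2 x
    have e3 : 0 < Real.log (x : ℝ) := Real.log_pos (by exact_mod_cast h2)
    have e4 : Real.log (x : ℝ) ≤ Real.log ((2 ^ ((κ x + 1) ^ 4) : ℕ) : ℝ) :=
      Real.log_le_log (by exact_mod_cast (by omega : 0 < x)) (by exact_mod_cast e2.le)
    rw [hlogx] at e4 ⊢
    push_cast at e4
    have e5 : f (2 ^ ((κ x) ^ 4)) ≤ f x := hf e1
    have e6 : f (2 ^ ((κ x) ^ 4)) / ((κ x : ℝ) ^ 4 * Real.log 2) * ((((κ x : ℝ) + 1) / κ x) ^ 4)⁻¹ =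
        f (2 ^ ((κ x) ^ 4)) / (((κ x : ℝ) + 1) ^ 4 * Real.log 2) := by
      field_simp
    rw [e6]
    exact div_le_div₀ (hf0 _) e5 e3 e4
  · filter_upwards [hκt.eventually_ge_atTop 1, eventually_ge_atTop 2] with x h1 h2
    have hκ0 : (0 : ℝ) < κ x := by exact_mod_cast h1
    have e1 := hk1 x (by omega)
    have e2 := hk2 x
    have e4 : Real.log ((2 ^ ((κ x) ^ 4) : ℕ) : ℝ) ≤ Real.log (x : ℝ) :=
      Real.log_le_log (by positivity) (by exact_mod_cast e1)
    rw [hlogx] at e4 ⊢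
    have e5 : f x ≤ f (2 ^ ((κ x + 1) ^ 4)) := hf e2.le
    have e6 : f (2 ^ ((κ x + 1) ^ 4)) / (((κ x + 1 : ℕ) : ℝ) ^ 4 * Real.log 2) * (((κ x : ℝ) + 1) / κ x) ^ 4 =
        f (2 ^ ((κ x + 1) ^ 4)) / ((κ x : ℝ) ^ 4 * Real.log 2) := by
      push_cast
      field_simp
    rw [e6]
    exact div_le_div₀ (hf0 _) e5 (by positivity) e4

end Pool.Agent.Q120.GM
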