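import Pool.Agent.Q120.GM.Gap
import Pool.Agent.Q120.GM.Often

/-!
# Symmetric pairs around a centre in the sieved models
-/

set_option autoImplicit false

namespace Pool.Agent.Q120.GM

open Finset MeasureTheory ProbabilityTheory Filter Pool.Agent.Q120.AD
open scoped Topology

/-- `c - t` and `c + t` are coprime to `Q`. -/
def Good2 (Q c : ℕ) (t : ℕ) : Prop := IsCoprime ((c : ℤ) - t) Q ∧ IsCoprime ((c : ℤ) + t) Q

open Classical in
/-- The number of the residues `t` modulo `Q` for which `c - t` and `c + t` are coprime to `Q`. -/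
noncomputable def cc2 (Q c : ℕ) : ℕ := ((range Q).filter (Good2 Q c)).card

/-- The singular series at level `Q` for the representations of `2 c` as a sum of two elements. -/
noncomputable def sing2 (Q c : ℕ) : ℝ := (cc2 Q c : ℝ) / Q * ((Q : ℝ) / Nat.totient Q) ^ 2

theorem good2_periodic (Q c : ℕ) : Function.Periodic (Good2 Q c) Q := by
  intro t
  unfold Good2
  rw [eq_iff_iff]
  push_cast
  rw [show (c : ℤ) - (t + Q) = (c - t) + (-1) * Q by ring, show (c : ℤ) + (t + Q) = (c + t) + 1 * Q by ring,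
    IsCoprime.add_mul_right_left_iff, IsCoprime.add_mul_right_left_iff]

theorem exists_good2 {Q : ℕ} (hQ : 1 ≤ Q) (c : ℕ) : ∃ t, Good2 Q c t := by
  refine ⟨∏ p ∈ Q.primeFactors with ¬ p ∣ c, p, ?_⟩
  obtain ⟨t, ht⟩ : ∃ t, t = ∏ p ∈ Q.primeFactors with ¬ p ∣ c, p := ⟨_, rfl⟩
  rw [← ht]
  have h1 : ∀ p, p.Prime → p ∣ Q → (p ∣ t ↔ ¬ p ∣ c) := by
    intro p hp hpQ
    constructor
    · intro h2 h3
      rw [ht, hp.prime.dvd_finset_prod_iff] at h2
      obtain ⟨r, hr, h4⟩ := h2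
      rw [mem_filter, Nat.mem_primeFactors] at hr
      have h5 := (Nat.prime_dvd_prime_iff_eq hp hr.1.1).1 h4
      rw [← h5] at hr
      exact hr.2 h3
    · intro h2
      rw [ht]
      apply Finset.dvd_prod_of_mem
      rw [mem_filter, Nat.mem_primeFactors]
      exact ⟨⟨hp, hpQ, by omega⟩, h2⟩
  have h2 : ∀ z : ℤ, (∀ p : ℕ, p.Prime → p ∣ Q → ¬ (p : ℤ) ∣ z) → IsCoprime z Q := by
    intro z hz
    rw [Int.isCoprime_iff_nat_coprime]
    apply Nat.Coprime.symm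
    rw [Int.natAbs_natCast]
    apply Nat.Coprime.symm
    rw [Nat.coprime_iff_gcd_eq_one]
    by_contra hcon
    obtain ⟨p, hp, hpg⟩ := Nat.exists_prime_and_dvd hcon
    have h3 := (Nat.dvd_gcd_iff.1 hpg)
    exact hz p hp h3.2 (Int.natCast_dvd.2 h3.1)
  constructor
  · apply h2
    intro p hp hpQ h3
    by_cases h4 : p ∣ c
    · have h5 : ¬ p ∣ t := fun h => (h1 p hp hpQ).1 h h4
      apply h5
      have h6 : (p : ℤ) ∣ c := Int.natCast_dvd_natCast.2 h4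
      have h7 := (Int.dvd_iff_dvd_of_dvd_sub h3).1 h6
      exact Int.natCast_dvd_natCast.1 h7
    · have h5 : p ∣ t := (h1 p hp hpQ).2 h4
      have h6 : (p : ℤ) ∣ t := Int.natCast_dvd_natCast.2 h5
      have h7 := (Int.dvd_iff_dvd_of_dvd_sub h3).2 h6
      exact h4 (Int.natCast_dvd_natCast.1 h7)
  · apply h2
    intro p hp hpQ h3
    by_cases h4 : p ∣ c
    · have h5 : ¬ p ∣ t := fun h => (h1 p hp hpQ).1 h h4
      apply h5
      have h6 : (p : ℤ) ∣ c := Int.natCast_dvd_natCast.2 h4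
      have h7 := (Int.dvd_add_right h6).1 h3
      exact Int.natCast_dvd_natCast.1 h7
    · have h5 : p ∣ t := (h1 p hp hpQ).2 h4
      have h6 : (p : ℤ) ∣ t := Int.natCast_dvd_natCast.2 h5
      have h7 := (Int.dvd_add_left h6).1 h3
      exact h4 (Int.natCast_dvd_natCast.1 h7)

theorem cc2_pos {Q : ℕ} (hQ : 1 ≤ Q) (c : ℕ) : 1 ≤ cc2 Q c := by
  classical
  obtain ⟨t, ht⟩ := exists_good2 hQ c
  unfold cc2
  apply Finset.card_pos.2
  refine ⟨t % Q, ?_⟩
  rw [mem_filter, mem_range]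
  refine ⟨Nat.mod_lt _ (by omega), ?_⟩
  have h1 := (good2_periodic Q c).nat_mul (t / Q)
  have h2 := h1 (t % Q)
  have h3 : t % Q + t / Q * Q = t := by
    have := Nat.mod_add_div t Q
    linarith [Nat.mul_comm Q (t / Q)]
  have h4 : Good2 Q c (t % Q + t / Q * Q) = Good2 Q c (t % Q) := by
    have h5 : ((t / Q : ℕ) : ℕ) * Q = t / Q * Q := rfl
    exact h2
  rw [← h4, h3]
  exact ht

theorem sing2_pos {Q : ℕ} (hQ : 1 ≤ Q) (c : ℕ) : 0 < sing2 Q c := by
  have h1 := cc2_pos hQ c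
  have h2 : (0 : ℝ) < cc2 Q c := by exact_mod_cast h1
  have h3 : (0 : ℝ) < Q := by exact_mod_cast hQ
  have h4 : (0 : ℝ) < Nat.totient Q := by exact_mod_cast Nat.totient_pos.2 hQ
  unfold sing2
  positivity

theorem sing2_eq (Q c : ℕ) : sing2 Q c = (cc2 Q c : ℝ) / Q * qq Q ^ 2 := rfl

theorem le_sing2 {Q : ℕ} (hQ : 1 ≤ Q) (c : ℕ) : 1 / (Q : ℝ) ≤ sing2 Q c := by
  have h1 := cc2_pos hQ c
  have h2 : (1 : ℝ) ≤ cc2 Q c := by exact_mod_cast h1
  have h3 : (0 : ℝ) < Q := by exact_mod_cast hQ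
  have h4 : (0 : ℝ) < Nat.totient Q := by exact_mod_cast Nat.totient_pos.2 hQ
  have h5 : (Nat.totient Q : ℝ) ≤ Q := by exact_mod_cast Nat.totient_le Q
  have h6 : 1 ≤ (Q : ℝ) / Nat.totient Q := by rw [le_div_iff₀ h4]; linarith
  have h7 : 1 ≤ ((Q : ℝ) / Nat.totient Q) ^ 2 := one_le_pow₀ h6
  unfold sing2
  calc 1 / (Q : ℝ) = 1 / Q * 1 := (mul_one _).symm
    _ ≤ (cc2 Q c : ℝ) / Q * ((Q : ℝ) / Nat.totient Q) ^ 2 := by
        apply mul_le_mul _ h7 zero_le_one (by positivity)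
        exact div_le_div_of_nonneg_right h2 h3.le

theorem sing2_le {Q : ℕ} (hQ : 1 ≤ Q) (c : ℕ) : sing2 Q c ≤ qq Q ^ 2 := by
  classical
  have h3 : (0 : ℝ) < Q := by exact_mod_cast hQ
  have h1 : (cc2 Q c : ℝ) ≤ Q := by
    have : cc2 Q c ≤ Q := by
      unfold cc2
      exact (card_filter_le _ _).trans (le_of_eq (card_range Q))
    exact_mod_cast this
  rw [sing2_eq]
  have h2 : (cc2 Q c : ℝ) / Q ≤ 1 := by rw [div_le_one h3]; exact h1
  have h4 : 0 ≤ qq Q ^ 2 := by positivity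
  nlinarith

open Classical in
/-- The count of good `t` in an interval. -/
theorem count2 {Q : ℕ} (hQ : 1 ≤ Q) (c a w : ℕ) :
    ((w : ℝ) - Q) * ((cc2 Q c : ℝ) / Q) ≤ (((Ico a (a + w)).filter (Good2 Q c)).card : ℝ) ∧
      (((Ico a (a + w)).filter (Good2 Q c)).card : ℝ) ≤ ((w : ℝ) + Q) * ((cc2 Q c : ℝ) / Q) := by
  have hblock : ∀ a, ((Ico a (a + Q)).filter (Good2 Q c)).card = cc2 Q c := by
    intro a
    rw [Nat.filter_Ico_card_eq_of_periodic _ _ _ (good2_periodic Q c), Nat.count_eq_card_filter_range]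
    rfl
  have hblocks : ∀ m, ((Ico a (a + m * Q)).filter (Good2 Q c)).card = m * cc2 Q c := by
    intro m
    induction m with
    | zero => simp
    | succ m ih =>
      have h1 : Ico a (a + (m + 1) * Q) = Ico a (a + m * Q) ∪ Ico (a + m * Q) (a + m * Q + Q) := by
        rw [Ico_union_Ico_eq_Ico (by omega) (by omega)]
        congr 1
        ring
      rw [h1, filter_union, card_union_of_disjoint, ih, hblock]
      · ring
      · exact (Ico_disjoint_Ico_consecutive _ _ _).mono (filter_subset _ _) (filter_subset _ _)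
  have h1 := Nat.div_mul_le_self w Q
  have h2 : w < (w / Q + 1) * Q := by
    have := Nat.lt_div_mul_add (a := w) (b := Q) (by omega)
    linarith [this, show (w / Q + 1) * Q = w / Q * Q + Q by ring]
  have b1 : w / Q * cc2 Q c ≤ ((Ico a (a + w)).filter (Good2 Q c)).card := by
    rw [← hblocks]
    apply card_le_card
    apply filter_subset_filter
    exact Ico_subset_Ico_right (by omega)
  have b2 : ((Ico a (a + w)).filter (Good2 Q c)).card ≤ (w / Q + 1) * cc2 Q c := by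
    rw [← hblocks]
    apply card_le_card
    apply filter_subset_filter
    exact Ico_subset_Ico_right (by omega)
  have hQ0 : (0 : ℝ) < Q := by exact_mod_cast hQ
  have h1' : ((w / Q : ℕ) : ℝ) * cc2 Q c ≤ (((Ico a (a + w)).filter (Good2 Q c)).card : ℝ) := by exact_mod_cast b1
  have h2' : (((Ico a (a + w)).filter (Good2 Q c)).card : ℝ) ≤ (((w / Q : ℕ) : ℝ) + 1) * cc2 Q c := by exact_mod_cast b2
  have h3 : ((w / Q : ℕ) : ℝ) ≤ w / Q := Nat.cast_div_le
  have h4 : (w : ℝ) / Q < ((w / Q : ℕ) : ℝ) + 1 := by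
    rw [div_lt_iff₀ hQ0]
    have := Nat.lt_div_mul_add (a := w) (b := Q) (by omega)
    have h5 : (w : ℝ) < ((w / Q * Q + Q : ℕ) : ℝ) := by exact_mod_cast this
    push_cast at h5
    linarith
  have hc : (0 : ℝ) ≤ cc2 Q c := Nat.cast_nonneg _
  constructor
  · refine le_trans ?_ h1'
    have h5 : ((w : ℝ) - Q) * ((cc2 Q c : ℝ) / Q) = ((w : ℝ) / Q - 1) * cc2 Q c := by field_simp
    rw [h5]
    apply mul_le_mul_of_nonneg_right _ hc
    linarith
  · refine h2'.trans ?_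
    have h5 : ((w : ℝ) + Q) * ((cc2 Q c : ℝ) / Q) = ((w : ℝ) / Q + 1) * cc2 Q c := by field_simp
    rw [h5]
    apply mul_le_mul_of_nonneg_right _ hc
    linarith

/-- The pair. -/
def pr (c t : ℕ) : Finset ℕ := {c - t, c + t}

theorem prod_pr {c t : ℕ} (h1 : 1 ≤ t) (h2 : t < c) (f : ℕ → ℝ) : ∏ m ∈ pr c t, f m = f (c - t) * f (c + t) := by
  unfold pr
  rw [prod_pair (by omega)]

theorem pr_disjoint {c t s : ℕ} (h1 : t < c) (h2 : s < c) (hts : t ≠ s) (h3 : 1 ≤ t) (h4 : 1 ≤ s) :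
    Disjoint (pr c t) (pr c s) := by
  unfold pr
  rw [Finset.disjoint_left]
  intro m hm hm'
  rw [mem_insert, mem_singleton] at hm hm'
  omega

theorem coprime_iff {Q c t : ℕ} (h : t < c) : ((c - t).Coprime Q ∧ (c + t).Coprime Q) ↔ Good2 Q c t := by
  unfold Good2
  rw [← Nat.isCoprime_iff_coprime, ← Nat.isCoprime_iff_coprime, Nat.cast_sub h.le]
  push_cast
  rfl

theorem pair_le {Q c t : ℕ} {x : ℝ} (hx : 0 < Real.log x) (hx0 : 0 < x) (h1 : 1 ≤ t) (h2 : t < c) (hn : x ≤ (c : ℝ) - t) :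
    ∏ m ∈ pr c t, level Q m ≤ (qq Q / Real.log x) ^ 2 := by
  rw [prod_pr h1 h2, sq]
  have h3 : ((c - t : ℕ) : ℝ) = (c : ℝ) - t := Nat.cast_sub h2.le
  apply mul_le_mul
  · exact level_le hx hx0 (by rw [h3]; exact hn)
  · refine level_le hx hx0 ?_
    push_cast
    have : (0 : ℝ) ≤ t := Nat.cast_nonneg t
    linarith
  · exact level_nonneg _ _
  · have : 0 ≤ qq Q := by unfold qq; positivity
    positivity

theorem pair_zero {Q c t : ℕ} (h1 : 1 ≤ t) (h2 : t < c) (hn : ¬ Good2 Q c t) : ∏ m ∈ pr c t, level Q m = 0 := by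
  rw [← coprime_iff h2, not_and_or] at hn
  rw [prod_pr h1 h2]
  rcases hn with hn | hn
  · have : level Q (c - t) = 0 := by unfold level; rw [if_neg hn]
    rw [this, zero_mul]
  · have : level Q (c + t) = 0 := by unfold level; rw [if_neg hn]
    rw [this, mul_zero]

theorem le_pair {Q c t : ℕ} {x y : ℝ} (hx : qq Q ≤ Real.log x) (hx1 : 0 < Real.log x) (hx0 : 0 < x)
    (h1 : 1 ≤ t) (h2 : t < c) (hn : x ≤ (c : ℝ) - t) (hy : (c : ℝ) + t ≤ y) (hg : Good2 Q c t) :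
    (qq Q / Real.log y) ^ 2 ≤ ∏ m ∈ pr c t, level Q m := by
  rw [prod_pr h1 h2, sq]
  have h3 : ((c - t : ℕ) : ℝ) = (c : ℝ) - t := Nat.cast_sub h2.le
  have h4 : (0 : ℝ) ≤ t := Nat.cast_nonneg t
  obtain ⟨h5, h6⟩ := (coprime_iff h2).2 hg
  have hq : 0 ≤ qq Q := by unfold qq; positivity
  have hly : 0 < Real.log y := lt_of_lt_of_le hx1 (Real.log_le_log hx0 (by linarith))
  apply mul_le_mul
  · exact le_level hx hx1 hx0 (by rw [h3]; exact hn) (by rw [h3]; linarith) h5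
  · refine le_level hx hx1 hx0 ?_ (by push_cast; linarith) h6
    push_cast
    linarith
  · positivity
  · exact level_nonneg _ _

theorem sum_pair_le {Q : ℕ} (hQ : 1 ≤ Q) {c w : ℕ} {x : ℝ} (hx : 0 < Real.log x) (hx0 : 0 < x)
    (hw : x + w ≤ c) : ∑ t ∈ Ico 1 (1 + w), ∏ m ∈ pr c t, level Q m ≤ ((w : ℝ) + Q) * sing2 Q c / Real.log x ^ 2 := by
  classical
  have hwc : ∀ t ∈ Ico 1 (1 + w), 1 ≤ t ∧ t < c ∧ x ≤ (c : ℝ) - t := by
    intro t ht
    rw [mem_Ico] at ht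
    have h1 : (t : ℝ) ≤ w := by exact_mod_cast (by omega : t ≤ w)
    have h2 : x ≤ (c : ℝ) - t := by linarith
    have h3 : (t : ℝ) < c := by linarith
    exact ⟨ht.1, by exact_mod_cast h3, h2⟩
  have h1 : ∑ t ∈ Ico 1 (1 + w), ∏ m ∈ pr c t, level Q m =
      ∑ t ∈ (Ico 1 (1 + w)).filter (Good2 Q c), ∏ m ∈ pr c t, level Q m := by
    refine (sum_filter_of_ne (fun t ht hne => ?_)).symm
    by_contra hcon
    exact hne (pair_zero (hwc t ht).1 (hwc t ht).2.1 hcon)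
  rw [h1]
  have h2 : ∀ t ∈ (Ico 1 (1 + w)).filter (Good2 Q c), ∏ m ∈ pr c t, level Q m ≤ (qq Q / Real.log x) ^ 2 := by
    intro t ht
    obtain ⟨a1, a2, a3⟩ := hwc t (mem_filter.1 ht).1
    exact pair_le hx hx0 a1 a2 a3
  refine (sum_le_sum h2).trans ?_
  rw [sum_const, nsmul_eq_mul]
  have h3 := (count2 hQ c 1 w).2
  have h4 : (((Ico 1 (1 + w)).filter (Good2 Q c)).card : ℝ) * (qq Q / Real.log x) ^ 2 ≤
      ((w : ℝ) + Q) * ((cc2 Q c : ℝ) / Q) * (qq Q / Real.log x) ^ 2 := mul_le_mul_of_nonneg_right h3 (by positivity)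
  refine h4.trans (le_of_eq ?_)
  rw [sing2_eq, div_pow]
  field_simp

theorem le_sum_pair {Q : ℕ} (hQ : 1 ≤ Q) {c w : ℕ} {x y : ℝ} (hx : qq Q ≤ Real.log x) (hx1 : 0 < Real.log x)
    (hx0 : 0 < x) (hw : x + w ≤ c) (hy : (c : ℝ) + w ≤ y) :
    ((w : ℝ) - Q) * sing2 Q c / Real.log y ^ 2 ≤ ∑ t ∈ Ico 1 (1 + w), ∏ m ∈ pr c t, level Q m := by
  classical
  have hwc : ∀ t ∈ Ico 1 (1 + w), 1 ≤ t ∧ t < c ∧ x ≤ (c : ℝ) - t ∧ (c : ℝ) + t ≤ y := by
    intro t ht
    rw [mem_Ico] at ht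
    have h1 : (t : ℝ) ≤ w := by exact_mod_cast (by omega : t ≤ w)
    have h2 : x ≤ (c : ℝ) - t := by linarith
    have h3 : (t : ℝ) < c := by linarith
    exact ⟨ht.1, by exact_mod_cast h3, h2, by linarith⟩
  have h1 : ∑ t ∈ Ico 1 (1 + w), ∏ m ∈ pr c t, level Q m =
      ∑ t ∈ (Ico 1 (1 + w)).filter (Good2 Q c), ∏ m ∈ pr c t, level Q m := by
    refine (sum_filter_of_ne (fun t ht hne => ?_)).symm
    by_contra hcon
    exact hne (pair_zero (hwc t ht).1 (hwc t ht).2.1 hcon)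
  rw [h1]
  have h2 : ∀ t ∈ (Ico 1 (1 + w)).filter (Good2 Q c), (qq Q / Real.log y) ^ 2 ≤ ∏ m ∈ pr c t, level Q m := by
    intro t ht
    obtain ⟨a1, a2, a3, a4⟩ := hwc t (mem_filter.1 ht).1
    exact le_pair hx hx1 hx0 a1 a2 a3 a4 (mem_filter.1 ht).2
  refine le_trans ?_ (sum_le_sum h2)
  rw [sum_const, nsmul_eq_mul]
  have h3 := (count2 hQ c 1 w).1
  have hly : 0 < Real.log y := lt_of_lt_of_le hx1 (Real.log_le_log hx0 (by
    have : (0 : ℝ) ≤ w := Nat.cast_nonneg w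
    linarith))
  have h4 : ((w : ℝ) - Q) * ((cc2 Q c : ℝ) / Q) * (qq Q / Real.log y) ^ 2 ≤
      (((Ico 1 (1 + w)).filter (Good2 Q c)).card : ℝ) * (qq Q / Real.log y) ^ 2 :=
    mul_le_mul_of_nonneg_right h3 (by positivity)
  refine le_trans (le_of_eq ?_) h4
  rw [sing2_eq, div_pow]
  field_simp

end Pool.Agent.Q120.GM
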