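import Pool.Agent.Q120.GM.Sym

/-!
# The least distance of a symmetric pair from its centre
-/

set_option autoImplicit false

namespace Pool.Agent.Q120.GM

open Finset MeasureTheory ProbabilityTheory Filter Pool.Agent.Q120.AD
open scoped Topology

variable {Ω : Type*} [MeasurableSpace Ω] {μ : Measure Ω} [IsProbabilityMeasure μ] {A : Ω → Set ℕ} {Q : ℕ}

/-- The length of the windows. -/
noncomputable def wc (κ : ℝ) (Q : ℕ) (c : ℕ → ℕ) (j : ℕ) : ℕ :=
  ⌊κ * (Real.log j * Real.log (c j) ^ 2) / sing2 Q (c j)⌋₊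

theorem wc_le {κ : ℝ} (hκ : 0 ≤ κ) (hQ : 1 ≤ Q) {c : ℕ → ℕ} (hc : StrictMono c) (j : ℕ) (hj : 1 ≤ j) :
    (wc κ Q c j : ℝ) ≤ κ * Q * Real.log (c j) ^ 3 := by
  have h1 : j ≤ c j := hc.id_le j
  have h2 : Real.log (j : ℝ) ≤ Real.log (c j) := by
    apply Real.log_le_log
    · exact_mod_cast hj
    · exact_mod_cast h1
  have h3 : 0 ≤ Real.log (j : ℝ) := Real.log_natCast_nonneg j
  have h5 := sing2_pos hQ (c j)
  have h6 := le_sing2 hQ (c j)
  have hQ0 : (0 : ℝ) < Q := by exact_mod_cast hQ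
  have h4 : (wc κ Q c j : ℝ) ≤ κ * (Real.log j * Real.log (c j) ^ 2) / sing2 Q (c j) := Nat.floor_le (by positivity)
  refine h4.trans ?_
  rw [div_le_iff₀ h5]
  have h7 : Real.log (j : ℝ) * Real.log (c j) ^ 2 ≤ Real.log (c j) ^ 3 := by
    calc Real.log (j : ℝ) * Real.log (c j) ^ 2 ≤ Real.log (c j) * Real.log (c j) ^ 2 :=
          mul_le_mul_of_nonneg_right h2 (by positivity)
      _ = Real.log (c j) ^ 3 := by ring
  have h8 : 1 ≤ (Q : ℝ) * sing2 Q (c j) := by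
    rw [div_le_iff₀ hQ0] at h6
    linarith
  have h9 : 0 ≤ Real.log ((c j : ℕ) : ℝ) ^ 3 := by
    have := Real.log_natCast_nonneg (c j)
    positivity
  calc κ * (Real.log (j : ℝ) * Real.log (c j) ^ 2) ≤ κ * Real.log (c j) ^ 3 := mul_le_mul_of_nonneg_left h7 hκ
    _ = κ * Real.log (c j) ^ 3 * 1 := (mul_one _).symm
    _ ≤ κ * Real.log (c j) ^ 3 * ((Q : ℝ) * sing2 Q (c j)) := mul_le_mul_of_nonneg_left h8 (by positivity)
    _ = κ * Q * Real.log (c j) ^ 3 * sing2 Q (c j) := by ring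

theorem hc_tendsto {c : ℕ → ℕ} (hc : StrictMono c) : Tendsto (fun j => Real.log ((c j : ℕ) : ℝ)) atTop atTop :=
  hl.comp hc.tendsto_atTop

theorem wc_small {κ : ℝ} (hκ : 0 ≤ κ) (hQ : 1 ≤ Q) {c : ℕ → ℕ} (hc : StrictMono c) :
    ∀ᶠ j in atTop, 2 * (wc κ Q c j : ℝ) ≤ c j := by
  have h1 := hc.tendsto_atTop.eventually (ev_power (2 * (κ * Q)) 3 (show (0 : ℝ) < 1 by norm_num))
  filter_upwards [h1, eventually_ge_atTop 1] with j h1 h2
  rw [Real.rpow_one] at h1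
  have h3 := wc_le hκ hQ hc j h2
  linarith

theorem ratio_up {c : ℕ → ℕ} (hc : StrictMono c) :
    Tendsto (fun j => (Real.log ((c j : ℕ) : ℝ) / Real.log (2 * ((c j : ℕ) : ℝ))) ^ 2) atTop (nhds 1) :=
  (ratio 2).comp hc.tendsto_atTop

theorem ratio_down {c : ℕ → ℕ} (hc : StrictMono c) :
    Tendsto (fun j => (Real.log ((c j : ℕ) : ℝ) / Real.log (((c j : ℕ) : ℝ) / 2)) ^ 2) atTop (nhds 1) := by
  have h1 : Tendsto (fun x : ℕ => Real.log (x : ℝ) / Real.log ((x : ℝ) / 2)) atTop (nhds 1) := by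
    have h2 : Tendsto (fun x : ℕ => 1 - Real.log 2 / Real.log (x : ℝ)) atTop (nhds (1 - 0)) :=
      (hl.const_div_atTop (Real.log 2)).const_sub 1
    rw [sub_zero] at h2
    have h3 := h2.inv₀ one_ne_zero
    rw [inv_one] at h3
    refine h3.congr' ?_
    filter_upwards [hl.eventually_gt_atTop 1, eventually_ge_atTop 1] with x hx hx1
    have hx1' : (0 : ℝ) < x := by exact_mod_cast hx1
    rw [Real.log_div hx1'.ne' (by norm_num)]
    have : Real.log (x : ℝ) - Real.log 2 ≠ 0 := by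
      have := Real.log_two_lt_d9
      linarith
    field_simp
  have h2 := (h1.pow 2).comp hc.tendsto_atTop
  rw [one_pow] at h2
  exact h2

/-- **Upper bound.** -/
theorem prob_sym_le (hA : IsModel μ (level Q) A) (hQ : 1 ≤ Q) {c : ℕ → ℕ} (hc : StrictMono c) {ε : ℝ} (hε : 0 < ε)
    (hε1 : ε ≤ 1) : ∀ᶠ j : ℕ in atTop,
      μ.real (none A (Ico 1 (1 + wc (1 + ε) Q c j)) (pr (c j))) ≤ (j : ℝ) ^ (-(1 + ε / 2)) := by
  classical
  have hq := qq_pos hQ
  have h1 := ((ratio_up hc).const_mul (1 + ε)).eventually_const_le (show 1 + 3 * ε / 4 < (1 + ε) * 1 by linarith)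
  have h2 := hl.eventually_ge_atTop (((Q : ℝ) + 1) * qq Q ^ 2 * 4 / ε + 1)
  have h3 := (hc_tendsto hc).eventually_ge_atTop (qq Q + 2)
  filter_upwards [h1, h2, h3, wc_small (show 0 ≤ 1 + ε by linarith) hQ hc, eventually_ge_atTop 3] with j h1 h2 h3 h4 hj3
  have hj0 : (0 : ℝ) < j := by
    have : (3 : ℝ) ≤ j := by exact_mod_cast hj3
    linarith
  obtain ⟨cj, hcj⟩ : ∃ cj, cj = c j := ⟨_, rfl⟩
  obtain ⟨w, hw⟩ : ∃ w, w = wc (1 + ε) Q c j := ⟨_, rfl⟩
  obtain ⟨s, hs⟩ : ∃ s, s = sing2 Q cj := ⟨_, rfl⟩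
  obtain ⟨L, hL⟩ : ∃ L, L = Real.log (j : ℝ) := ⟨_, rfl⟩
  obtain ⟨M, hM⟩ : ∃ M, M = Real.log ((cj : ℕ) : ℝ) := ⟨_, rfl⟩
  have hs0 : 0 < s := by rw [hs]; exact sing2_pos hQ cj
  have hs1 : s ≤ qq Q ^ 2 := by rw [hs]; exact sing2_le hQ cj
  rw [← hcj] at h1 h3 h4
  rw [← hw] at h4 ⊢
  rw [← hM] at h1 h3
  rw [← hL] at h2
  have hw2 : (1 + ε) * (L * M ^ 2) / s < w + 1 := by
    rw [hw, hL, hM, hs, hcj]
    exact Nat.lt_floor_add_one _
  have hcj0 : (0 : ℝ) < cj := by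
    by_contra hcon
    have h5 : (cj : ℝ) = 0 := le_antisymm (not_lt.1 hcon) (Nat.cast_nonneg _)
    rw [h5, Real.log_zero] at hM
    rw [hM] at h3
    linarith
  have hlog2 : Real.log (cj / 2 : ℝ) = M - Real.log 2 := by rw [Real.log_div hcj0.ne' (by norm_num), hM]
  have hl2' := Real.log_two_lt_d9
  have hJ := janson hA (Ico 1 (1 + w)) (pr cj)
  have hdel : ∑ i ∈ Ico 1 (1 + w), ∑ l ∈ Ico 1 (1 + w) with l ≠ i ∧ ¬ Disjoint (pr cj l) (pr cj i),
      ∏ m ∈ pr cj l ∪ pr cj i, level Q m = 0 := by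
    refine sum_eq_zero (fun i hi => sum_eq_zero (fun l hl => ?_))
    exfalso
    rw [mem_filter, mem_Ico] at hl
    rw [mem_Ico] at hi
    have hwc : w < cj := by
      have e1 : (w : ℝ) < cj := by linarith
      exact_mod_cast e1
    exact hl.2.2 (pr_disjoint (by omega) (by omega) hl.2.1 (by omega) (by omega))
  rw [hdel, add_zero] at hJ
  have hlow := le_sum_pair (Q := Q) hQ (c := cj) (w := w) (x := (cj : ℝ) / 2) (y := 2 * cj) (by rw [hlog2]; linarith)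
    (by rw [hlog2]; linarith) (by positivity) (by linarith) (by linarith)
  obtain ⟨M2, hM2⟩ : ∃ M2, M2 = Real.log (2 * (cj : ℝ)) := ⟨_, rfl⟩
  rw [← hM2] at h1 hlow
  rw [← hs] at hlow
  have hMM2 : M ≤ M2 := by rw [hM, hM2]; exact Real.log_le_log hcj0 (by linarith)
  have hM20 : 0 < M2 := by linarith
  have hQ0 : (0 : ℝ) ≤ Q := Nat.cast_nonneg Q
  have hL1 : 1 ≤ L := by
    have : 0 ≤ ((Q : ℝ) + 1) * qq Q ^ 2 * 4 / ε := by positivity
    linarith
  have e1 : (1 + 3 * ε / 4) * L ≤ (1 + ε) * (L * M ^ 2) / M2 ^ 2 := by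
    have e2 : (1 + ε) * (L * M ^ 2) / M2 ^ 2 = ((1 + ε) * (M / M2) ^ 2) * L := by
      rw [div_pow]
      field_simp
    rw [e2]
    exact mul_le_mul_of_nonneg_right h1 (by linarith)
  have e2 : (1 + 3 * ε / 4) * L - ((Q : ℝ) + 1) * s ≤ ((w : ℝ) - Q) * s / M2 ^ 2 := by
    have e3 : (1 + ε) * (L * M ^ 2) - ((Q : ℝ) + 1) * s ≤ ((w : ℝ) - Q) * s := by
      rw [div_lt_iff₀ hs0] at hw2
      nlinarith
    have e4 : ((1 + ε) * (L * M ^ 2) - ((Q : ℝ) + 1) * s) / M2 ^ 2 ≤ ((w : ℝ) - Q) * s / M2 ^ 2 :=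
      div_le_div_of_nonneg_right e3 (by positivity)
    have e5 : ((Q : ℝ) + 1) * s / M2 ^ 2 ≤ ((Q : ℝ) + 1) * s := by
      apply div_le_self (by positivity)
      exact one_le_pow₀ (by linarith)
    rw [sub_div] at e4
    linarith
  have e3 : ((Q : ℝ) + 1) * s ≤ ε / 4 * L := by
    have e5 : ε / 4 * (((Q : ℝ) + 1) * qq Q ^ 2 * 4 / ε) = ((Q : ℝ) + 1) * qq Q ^ 2 := by field_simp
    have e6 : ((Q : ℝ) + 1) * s ≤ ((Q : ℝ) + 1) * qq Q ^ 2 := mul_le_mul_of_nonneg_left hs1 (by linarith)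
    refine e6.trans ?_
    rw [← e5]
    apply mul_le_mul_of_nonneg_left _ (by positivity)
    linarith
  rw [← hcj]
  refine hJ.trans ?_
  rw [Real.rpow_def_of_pos hj0, Real.exp_le_exp, ← hL]
  linarith

/-- **Lower bound.** -/
theorem le_prob_sym (hA : IsModel μ (level Q) A) (hQ : 1 ≤ Q) {c : ℕ → ℕ} (hc : StrictMono c) {ε : ℝ} (hε : 0 < ε)
    (hε1 : ε < 1) : ∀ᶠ j : ℕ in atTop,
      (j : ℝ) ^ (-(1 - ε / 2)) ≤ μ.real (none A (Ico 1 (1 + wc (1 - ε) Q c j)) (pr (c j))) := by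
  classical
  have hq := qq_pos hQ
  have h1 := ((ratio_down hc).const_mul (1 - ε)).eventually_le_const (show (1 - ε) * 1 < 1 - 7 * ε / 8 by linarith)
  have h2 := hl.eventually_ge_atTop (2 * (Q : ℝ) * qq Q ^ 2 * 8 / ε + 1)
  have h3 := (hc_tendsto hc).eventually_ge_atTop (16 * qq Q / ε + 2 * qq Q + 3)
  filter_upwards [h1, h2, h3, wc_small (show 0 ≤ 1 - ε by linarith) hQ hc, eventually_ge_atTop 3] with j h1 h2 h3 h4 hj3
  have hj0 : (0 : ℝ) < j := by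
    have : (3 : ℝ) ≤ j := by exact_mod_cast hj3
    linarith
  obtain ⟨cj, hcj⟩ : ∃ cj, cj = c j := ⟨_, rfl⟩
  obtain ⟨w, hw⟩ : ∃ w, w = wc (1 - ε) Q c j := ⟨_, rfl⟩
  obtain ⟨s, hs⟩ : ∃ s, s = sing2 Q cj := ⟨_, rfl⟩
  obtain ⟨L, hL⟩ : ∃ L, L = Real.log (j : ℝ) := ⟨_, rfl⟩
  obtain ⟨M, hM⟩ : ∃ M, M = Real.log ((cj : ℕ) : ℝ) := ⟨_, rfl⟩
  have hs0 : 0 < s := by rw [hs]; exact sing2_pos hQ cj
  have hs1 : s ≤ qq Q ^ 2 := by rw [hs]; exact sing2_le hQ cj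
  rw [← hcj] at h1 h3 h4
  rw [← hw] at h4
  rw [← hM] at h1 h3
  rw [← hL] at h2
  have hQ0 : (0 : ℝ) ≤ Q := Nat.cast_nonneg Q
  have g1 : 0 ≤ 2 * (Q : ℝ) * qq Q ^ 2 * 8 / ε := by positivity
  have g2 : 0 ≤ 16 * qq Q / ε := by positivity
  have hL1 : 1 ≤ L := by linarith
  have hM1 : 3 ≤ M := by linarith
  have hw1 : (w : ℝ) ≤ (1 - ε) * (L * M ^ 2) / s := by
    rw [hw, hL, hM, hs, hcj]
    refine Nat.floor_le ?_
    rw [← hcj, ← hL, ← hM, ← hs]
    have : 0 ≤ 1 - ε := by linarith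
    positivity
  have hcj0 : (0 : ℝ) < cj := by
    by_contra hcon
    have h5 : (cj : ℝ) = 0 := le_antisymm (not_lt.1 hcon) (Nat.cast_nonneg _)
    rw [h5, Real.log_zero] at hM
    rw [hM] at h3
    linarith
  have hlog2 : Real.log (cj / 2 : ℝ) = M - Real.log 2 := by rw [Real.log_div hcj0.ne' (by norm_num), hM]
  have hl2' := Real.log_two_lt_d9
  obtain ⟨M1, hM1d⟩ : ∃ M1, M1 = Real.log ((cj : ℝ) / 2) := ⟨_, rfl⟩
  rw [← hM1d] at h1
  have hM1a : M - 1 ≤ M1 := by rw [hM1d, hlog2]; linarith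
  have hM1q : 2 * qq Q ≤ M1 := by linarith
  have hM10 : 1 ≤ M1 := by linarith
  rw [← hcj, ← hw]
  refine le_trans ?_ (harris hA (Ico 1 (1 + w)) (pr cj))
  have hwcj : w < cj := by
    have e1 : (w : ℝ) < cj := by linarith
    exact_mod_cast e1
  have hsm : ∀ t ∈ Ico 1 (1 + w), 0 ≤ ∏ m ∈ pr cj t, level Q m ∧ ∏ m ∈ pr cj t, level Q m ≤ qq Q / M1 := by
    intro t ht
    rw [mem_Ico] at ht
    refine ⟨prod_nonneg (fun m _ => level_nonneg Q m), ?_⟩
    have e1 : (t : ℝ) ≤ w := by exact_mod_cast (by omega : t ≤ w)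
    refine (pair_le (Q := Q) (x := (cj : ℝ) / 2) (by rw [← hM1d]; linarith) (by positivity) ht.1 (by omega) (by linarith)).trans ?_
    rw [← hM1d]
    have h5 : qq Q / M1 ≤ 1 := by rw [div_le_one (by linarith)]; linarith
    have h6 : 0 ≤ qq Q / M1 := by positivity
    nlinarith
  have hhalf : qq Q / M1 ≤ 1 / 2 := by
    rw [div_le_iff₀ (by linarith)]
    linarith
  have h5 : Real.exp (-((1 + 2 * (qq Q / M1)) * ∑ t ∈ Ico 1 (1 + w), ∏ m ∈ pr cj t, level Q m)) ≤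
      ∏ t ∈ Ico 1 (1 + w), (1 - ∏ m ∈ pr cj t, level Q m) := by
    rw [mul_sum, ← sum_neg_distrib, Real.exp_sum]
    apply Finset.prod_le_prod (fun n _ => (Real.exp_pos _).le)
    intro n hn
    obtain ⟨h6, h7⟩ := hsm n hn
    refine le_trans ?_ (Pool.Agent.Q120.TD.one_sub_ge h6 (h7.trans hhalf))
    rw [Real.exp_le_exp]
    nlinarith
  refine le_trans ?_ h5
  have hup := sum_pair_le (Q := Q) hQ (c := cj) (w := w) (x := (cj : ℝ) / 2) (by rw [← hM1d]; linarith) (by positivity)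
    (by linarith)
  rw [← hM1d, ← hs] at hup
  rw [Real.rpow_def_of_pos hj0, Real.exp_le_exp, ← hL]
  have e1 : ((w : ℝ) + Q) * s / M1 ^ 2 ≤ (1 - 7 * ε / 8) * L + (Q : ℝ) * qq Q ^ 2 := by
    rw [le_div_iff₀ hs0] at hw1
    have e2 : ((w : ℝ) + Q) * s / M1 ^ 2 ≤ ((1 - ε) * (L * M ^ 2) + Q * s) / M1 ^ 2 := by
      apply div_le_div_of_nonneg_right _ (by positivity)
      linarith
    have e3 : ((1 - ε) * (L * M ^ 2) + Q * s) / M1 ^ 2 = ((1 - ε) * (M / M1) ^ 2) * L + Q * s / M1 ^ 2 := by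
      rw [div_pow]
      field_simp
    have e4 : (Q : ℝ) * s / M1 ^ 2 ≤ (Q : ℝ) * qq Q ^ 2 := by
      refine (div_le_self (by positivity) (one_le_pow₀ hM10)).trans ?_
      exact mul_le_mul_of_nonneg_left hs1 hQ0
    have e5 : ((1 - ε) * (M / M1) ^ 2) * L ≤ (1 - 7 * ε / 8) * L := mul_le_mul_of_nonneg_right h1 (by linarith)
    rw [e3] at e2
    linarith
  have e2 : (1 + 2 * (qq Q / M1)) * ((1 - 7 * ε / 8) * L + (Q : ℝ) * qq Q ^ 2) ≤ (1 - ε / 2) * L := by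
    have e6 : 2 * (Q : ℝ) * qq Q ^ 2 ≤ ε / 8 * L := by
      have e7 : ε / 8 * (2 * (Q : ℝ) * qq Q ^ 2 * 8 / ε) = 2 * (Q : ℝ) * qq Q ^ 2 := by field_simp
      rw [← e7]
      apply mul_le_mul_of_nonneg_left _ (by positivity)
      linarith
    have e8 : 2 * (qq Q / M1) ≤ ε / 8 := by
      rw [← mul_div_assoc, div_le_iff₀ (by linarith)]
      have e9 : ε / 8 * (16 * qq Q / ε) = 2 * qq Q := by field_simp; norm_num
      have e10 : ε / 8 * (16 * qq Q / ε) ≤ ε / 8 * M1 := mul_le_mul_of_nonneg_left (by linarith) (by positivity)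
      linarith
    have e9 : 0 ≤ (Q : ℝ) * qq Q ^ 2 := by positivity
    have e10 : 2 * (qq Q / M1) * ((1 - 7 * ε / 8) * L) ≤ ε / 8 * L := by
      have : 0 ≤ (1 - 7 * ε / 8) := by linarith
      have e11 : 2 * (qq Q / M1) * ((1 - 7 * ε / 8) * L) ≤ ε / 8 * ((1 - 7 * ε / 8) * L) :=
        mul_le_mul_of_nonneg_right e8 (by positivity)
      have e12 : (1 - 7 * ε / 8) * L ≤ L := by nlinarith
      have e13 : ε / 8 * ((1 - 7 * ε / 8) * L) ≤ ε / 8 * L := mul_le_mul_of_nonneg_left e12 (by positivity)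
      linarith
    have e11 : 2 * (qq Q / M1) * ((Q : ℝ) * qq Q ^ 2) ≤ (Q : ℝ) * qq Q ^ 2 := by
      have : 2 * (qq Q / M1) ≤ 1 := by linarith
      nlinarith
    nlinarith
  have e3 : 0 ≤ ∑ t ∈ Ico 1 (1 + w), ∏ m ∈ pr cj t, level Q m := sum_nonneg (fun n hn => (hsm n hn).1)
  have e4 : 0 ≤ 1 + 2 * (qq Q / M1) := by positivity
  have e5 := mul_le_mul_of_nonneg_left (hup.trans e1) e4
  linarith

/-- **Upper bound, for every sequence of centres.** -/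
theorem sym_upper (hA : IsModel μ (level Q) A) (hQ : 1 ≤ Q) {c : ℕ → ℕ} (hc : StrictMono c) {ε : ℝ} (hε : 0 < ε)
    (hε1 : ε ≤ 1) : ∀ᵐ ω ∂μ, ∀ᶠ j : ℕ in atTop, ∃ t : ℕ, 1 ≤ t ∧ t < c j ∧
      (t : ℝ) ≤ (1 + ε) * (Real.log j * Real.log (c j) ^ 2) / sing2 Q (c j) ∧ c j - t ∈ A ω ∧ c j + t ∈ A ω := by
  have hs : Summable (fun x : ℕ => (x : ℝ) ^ (-(1 + ε / 2))) := Real.summable_nat_rpow.2 (by linarith)
  filter_upwards [bc hs (prob_sym_le hA hQ hc hε hε1)] with ω hω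
  filter_upwards [hω, wc_small (show 0 ≤ 1 + ε by linarith) hQ hc, eventually_ge_atTop 1] with j hj hw hj1
  have hj' : ¬ ∀ t ∈ Ico 1 (1 + wc (1 + ε) Q c j), ω ∉ all A (pr (c j) t) := hj
  push Not at hj'
  obtain ⟨t, ht, h1⟩ := hj'
  rw [mem_Ico] at ht
  have hcj : 1 ≤ c j := hj1.trans (hc.id_le j)
  have hcj' : (1 : ℝ) ≤ c j := by exact_mod_cast hcj
  have h2 : (t : ℝ) ≤ wc (1 + ε) Q c j := by exact_mod_cast (by omega : t ≤ wc (1 + ε) Q c j)
  have h3 : (t : ℝ) < c j := by linarith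
  refine ⟨t, ht.1, by exact_mod_cast h3, h2.trans ?_, h1 _ (by simp [pr]), h1 _ (by simp [pr])⟩
  refine Nat.floor_le ?_
  have := sing2_pos hQ (c j)
  have := Real.log_natCast_nonneg j
  positivity

/-- **Lower bound, for sequences with wide spacing.** -/
theorem sym_lower (hA : IsModel μ (level Q) A) (hQ : 1 ≤ Q) {c : ℕ → ℕ} (hc : StrictMono c)
    (hsp : Tendsto (fun j => ((c (j + 1) : ℝ) - c j) / Real.log (c (j + 1)) ^ 3) atTop atTop) {ε : ℝ} (hε : 0 < ε)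
    (hε1 : ε < 1) : ∀ᵐ ω ∂μ, ∃ᶠ j : ℕ in atTop, ∀ t : ℕ, 1 ≤ t →
      (t : ℝ) ≤ (1 - ε) * (Real.log j * Real.log (c j) ^ 2) / sing2 Q (c j) → ¬ (c j - t ∈ A ω ∧ c j + t ∈ A ω) := by
  classical
  have hκ : 0 ≤ 1 - ε := by linarith
  have hQ0 : (0 : ℝ) < Q := by exact_mod_cast hQ
  obtain ⟨j0, hj0⟩ := eventually_atTop.1 ((wc_small hκ hQ hc).and
    ((hsp.eventually_ge_atTop (2 * Q + 1)).and ((hc_tendsto hc).eventually_ge_atTop 1)))
  obtain ⟨w, hw⟩ : ∃ w : ℕ → ℕ, w = wc (1 - ε) Q c := ⟨_, rfl⟩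
  -- the windows are disjoint
  have hstep : ∀ j, max j0 1 ≤ j → c j + w j < c (j + 1) - w (j + 1) := by
    intro j hj
    have g1 := hj0 j (le_trans (le_max_left _ _) hj)
    have g2 := hj0 (j + 1) (by have := le_trans (le_max_left j0 1) hj; omega)
    have hj1 : 1 ≤ j := le_trans (le_max_right _ _) hj
    have e1 := wc_le hκ hQ hc j hj1
    have e2 := wc_le hκ hQ hc (j + 1) (by omega)
    rw [← hw] at e1 e2 g1 g2
    have hL : Real.log (c j : ℝ) ≤ Real.log (c (j + 1)) := by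
      apply Real.log_le_log
      · have : 1 ≤ c j := hj1.trans (hc.id_le j)
        exact_mod_cast this
      · exact_mod_cast (hc (Nat.lt_succ_self j)).le
    have hL0 := g1.2.2
    have e3 : Real.log (c j : ℝ) ^ 3 ≤ Real.log (c (j + 1)) ^ 3 := pow_le_pow_left₀ (by linarith) hL 3
    have e4 := g1.2.1
    have hLp : 0 < Real.log (c (j + 1) : ℝ) ^ 3 := by
      have : 0 < Real.log (c (j + 1) : ℝ) := by linarith
      positivity
    rw [le_div_iff₀ hLp] at e4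
    have e5 : (1 - ε) * Q * Real.log (c j) ^ 3 ≤ Q * Real.log (c (j + 1)) ^ 3 := by
      have e6 : (1 - ε) * Q * Real.log (c j) ^ 3 ≤ 1 * Q * Real.log (c j) ^ 3 := by
        apply mul_le_mul_of_nonneg_right _ (by positivity)
        exact mul_le_mul_of_nonneg_right (by linarith) hQ0.le
      have e7 : (Q : ℝ) * Real.log (c j) ^ 3 ≤ Q * Real.log (c (j + 1)) ^ 3 := mul_le_mul_of_nonneg_left e3 hQ0.le
      linarith
    have e6 : (1 - ε) * Q * Real.log (c (j + 1)) ^ 3 ≤ Q * Real.log (c (j + 1)) ^ 3 := by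
      apply mul_le_mul_of_nonneg_right _ hLp.le
      nlinarith
    have e7 : (c j : ℝ) + w j + w (j + 1) < c (j + 1) := by nlinarith
    have e8 : c j + w j + w (j + 1) < c (j + 1) := by exact_mod_cast e7
    omega
  have hdis : ∀ i j, max j0 1 ≤ i → i < j → c i + w i < c j - w j := by
    intro i j hi hij
    induction j, hij using Nat.le_induction with
    | base => exact hstep i hi
    | succ j hj ih =>
      have := hstep j (hi.trans (by omega))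
      omega
  have hns : ¬ Summable (fun j : ℕ => (j : ℝ) ^ (-(1 - ε / 2))) := by
    rw [Real.summable_nat_rpow]
    linarith
  have h1 := often' hA (fun j => Set.Icc (c j - w j) (c j + w j)) (max j0 1) (by
    intro i j hi hj hij
    rw [Set.disjoint_left]
    intro n hn hn'
    rw [Set.mem_Icc] at hn hn'
    rcases Nat.lt_or_gt_of_ne hij with h | h
    · have := hdis i j hi h
      omega
    · have := hdis j i hj h
      omega) (fun j => none A (Ico 1 (1 + w j)) (pr (c j))) (by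
    intro j
    refine F_none (fun t ht m hm => ?_)
    rw [mem_Ico] at ht
    unfold pr at hm
    rw [mem_insert, mem_singleton] at hm
    rw [Set.mem_Icc]
    omega) hns (by
    filter_upwards [le_prob_sym hA hQ hc hε hε1] with j hj
    rw [abs_of_nonneg (by positivity), hw]
    exact hj)
  filter_upwards [h1] with ω hω
  refine hω.mono (fun j hj t ht1 ht2 hcon => ?_)
  have h2 : t ≤ w j := by
    rw [hw]
    exact Nat.le_floor ht2
  refine hj t (mem_Ico.2 ⟨ht1, by omega⟩) (fun m hm => ?_)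
  unfold pr at hm
  rw [mem_insert, mem_singleton] at hm
  rcases hm with rfl | rfl
  · exact hcon.1
  · exact hcon.2

end Pool.Agent.Q120.GM
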